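import Pool.Agent.Lib.MP_1a91b9_nt.Defs

/-!
# Residue fields of the completions of a number field
-/

set_option autoImplicit false
namespace Pool.Agent.Lib.MP_1a91b9_nt
open IsDedekindDomain NumberField Polynomial IntermediateField

section
variable {K : Type*} [Field K] [NumberField K]

/-- every element of the completion is close to an element of `K` -/
theorem exists_sub_lt_one (w : HeightOneSpectrum (𝓞 K)) (x : w.adicCompletion K) :
    ∃ k : K, Valued.v (algebraMap K (w.adicCompletion K) k - x) < 1 := by
  have hd := w.denseRange_algebraMap K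
  have hU : {y : w.adicCompletion K | Valued.v (y - x) < 1} ∈ nhds x := by
    rw [Valued.mem_nhds]
    refine ⟨1, ?_⟩
    intro y hy
    have hy' : (Valued.v : Valuation (w.adicCompletion K) _).restrict (y - x) < 1 := by
      simpa using hy
    exact (Valuation.restrict_lt_one_iff _).mp hy'
  obtain ⟨y, hy, hyU⟩ := (mem_closure_iff_nhds.mp (hd x)) _ hU
  obtain ⟨k, rfl⟩ := hyU
  exact ⟨k, hy⟩

theorem valued_algebraMap (w : HeightOneSpectrum (𝓞 K)) (k : K) :
    Valued.v (algebraMap K (w.adicCompletion K) k) = w.valuation K k := by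
  exact HeightOneSpectrum.valuedAdicCompletion_eq_valuation' w k

theorem residue_eq_zero_iff_valued (w : HeightOneSpectrum (𝓞 K))
    (x : w.adicCompletionIntegers K) :
    IsLocalRing.residue (w.adicCompletionIntegers K) x = 0 ↔
      Valued.v (x : w.adicCompletion K) < 1 := by
  rw [IsLocalRing.residue_eq_zero_iff]
  exact Valuation.mem_maximalIdeal_iff _ _

theorem residue_surjective (w : HeightOneSpectrum (𝓞 K)) :
    Function.Surjective ((IsLocalRing.residue (w.adicCompletionIntegers K)).comp
      (algebraMap (𝓞 K) (w.adicCompletionIntegers K))) := by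
  intro z
  obtain ⟨x, rfl⟩ := IsLocalRing.residue_surjective z
  obtain ⟨k, hk⟩ := exists_sub_lt_one w (x : w.adicCompletion K)
  have hx : Valued.v (x : w.adicCompletion K) ≤ 1 := x.2
  have hk1 : w.valuation K k ≤ 1 := by
    rw [← valued_algebraMap w k]
    have : algebraMap K (w.adicCompletion K) k
        = (algebraMap K (w.adicCompletion K) k - x) + x := by ring
    rw [this]
    exact (Valuation.map_add _ _ _).trans (max_le hk.le hx)
  obtain ⟨a, ha⟩ := w.exists_valuation_sub_lt_of_integer (K := K) hk1 1
  refine ⟨a, ?_⟩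
  rw [RingHom.comp_apply, ← sub_eq_zero, ← map_sub, residue_eq_zero_iff_valued]
  have h1 : ((algebraMap (𝓞 K) (w.adicCompletionIntegers K) a - x :
      w.adicCompletionIntegers K) : w.adicCompletion K)
      = (algebraMap K (w.adicCompletion K) (algebraMap (𝓞 K) K a - k))
        + (algebraMap K (w.adicCompletion K) k - x) := by
    rw [map_sub]
    have : ((algebraMap (𝓞 K) (w.adicCompletionIntegers K) a :
      w.adicCompletionIntegers K) : w.adicCompletion K)
      = algebraMap K (w.adicCompletion K) (algebraMap (𝓞 K) K a) := rfl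
    push_cast
    rw [this]
    ring
  rw [h1]
  refine (Valuation.map_add _ _ _).trans_lt (max_lt ?_ hk)
  rw [valued_algebraMap]
  simpa using ha

theorem residue_ker (w : HeightOneSpectrum (𝓞 K)) :
    RingHom.ker ((IsLocalRing.residue (w.adicCompletionIntegers K)).comp
      (algebraMap (𝓞 K) (w.adicCompletionIntegers K))) = w.asIdeal := by
  ext a
  rw [RingHom.mem_ker, RingHom.comp_apply, residue_eq_zero_iff_valued]
  have : ((algebraMap (𝓞 K) (w.adicCompletionIntegers K) a :
      w.adicCompletionIntegers K) : w.adicCompletion K)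
      = algebraMap K (w.adicCompletion K) (algebraMap (𝓞 K) K a) := rfl
  rw [this, valued_algebraMap]
  exact w.valuation_lt_one_iff_mem a

theorem nrm_eq (w : HeightOneSpectrum (𝓞 K)) : nrm w = Ideal.absNorm w.asIdeal := by
  have e := RingHom.quotientKerEquivOfSurjective (residue_surjective w)
  rw [nrm, ← Nat.card_congr e.toEquiv, residue_ker w]
  rfl

theorem finite_residue (w : HeightOneSpectrum (𝓞 K)) :
    Finite (IsLocalRing.ResidueField (w.adicCompletionIntegers K)) := by
  have e := RingHom.quotientKerEquivOfSurjective (residue_surjective w)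
  have : Finite (𝓞 K ⧸ RingHom.ker ((IsLocalRing.residue (w.adicCompletionIntegers K)).comp
      (algebraMap (𝓞 K) (w.adicCompletionIntegers K)))) := by
    rw [residue_ker w]
    exact w.asIdeal.finiteQuotientOfFreeOfNeBot w.ne_bot
  exact Finite.of_equiv _ e.toEquiv

theorem northcott_nrm : Northcott (nrm : HeightOneSpectrum (𝓞 K) → ℕ) := by
  constructor
  intro b
  have h := Ideal.finite_setOfPred_absNorm_le (S := 𝓞 K) b
  refine Set.Finite.of_finite_image (f := fun w : HeightOneSpectrum (𝓞 K) => w.asIdeal) ?_ ?_
  · refine h.subset ?_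
    rintro _ ⟨w, hw, rfl⟩
    change Ideal.absNorm w.asIdeal ≤ b
    rw [← nrm_eq]
    exact hw
  · intro w _ w' _ h
    exact HeightOneSpectrum.ext h

end

end Pool.Agent.Lib.MP_1a91b9_nt
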