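import Pool.Agent.Lib.MP_1a91b9_nt.Defs

set_option autoImplicit false

namespace Pool.Agent.Lib.MP_1a91b9_nt

open Classical in
/-- Inversion over the up-sets of a finite partial order. -/
theorem exists_upset_inversion {α : Type*} [Fintype α] [PartialOrder α] (b : α → ℤ) :
    ∃ A : α → ℤ, ∀ x, (∑ y ∈ Finset.univ.filter (fun y => x ≤ y), A y) = b x := by
  have wf : WellFounded (fun x y : α => y < x) := wellFounded_gt
  let A : α → ℤ := wf.fix (fun x rec => b x - ∑ y : {y : α // x < y}, rec y y.2)
  have hA : ∀ x, A x = b x - ∑ y : {y : α // x < y}, A y := fun x => wf.fix_eq _ x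
  refine ⟨A, fun x => ?_⟩
  have h2 : (∑ y : {y : α // x < y}, A y) = ∑ y ∈ Finset.univ.filter (fun y => x < y), A y :=
    (Finset.sum_subtype (Finset.univ.filter (fun y => x < y)) (by simp) A).symm
  have h3 : Finset.univ.filter (fun y : α => x ≤ y)
      = insert x (Finset.univ.filter (fun y => x < y)) := by
    ext y
    simp only [Finset.mem_filter, Finset.mem_univ, true_and, Finset.mem_insert]
    constructor
    · intro h
      rcases h.eq_or_lt with h | h
      · exact Or.inl h.symm
      · exact Or.inr h
    · rintro (h | h)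
      · exact h ▸ le_refl _
      · exact h.le
  rw [h3, Finset.sum_insert (by simp), hA x, h2]
  ring

/-- Number of fixed points on cosets, counted in the group. -/
theorem card_mul_fixNum {G : Type*} [Group G] (H : Subgroup G) (g : G) :
    Nat.card H * fixNum H g = Nat.card {x : G // x⁻¹ * g * x ∈ H} := by
  have e := QuotientGroup.preimageMkEquivSubgroupProdSet H (MulAction.fixedBy (G ⧸ H) g)
  have h1 : Nat.card H * fixNum H g
      = Nat.card (QuotientGroup.mk ⁻¹' (MulAction.fixedBy (G ⧸ H) g) : Set G) := by
    rw [Nat.card_congr e, Nat.card_prod]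
    rfl
  rw [h1]
  refine Nat.card_congr (Equiv.subtypeEquivRight fun x => ?_)
  show g • (QuotientGroup.mk x : G ⧸ H) = QuotientGroup.mk x ↔ _
  rw [MulAction.Quotient.smul_mk, eq_comm, QuotientGroup.eq, smul_eq_mul, mul_assoc]

theorem exists_artin (G : Type*) [Group G] [Finite G] [Fintype (Subgroup G)] :
    ∃ (n : Subgroup G → ℤ) (m : ℕ), 0 < m ∧ (∀ H, n H ≠ 0 → IsCyclic H) ∧
      ∀ g : G, ∑ H, n H * fixNum H g = m := by
  classical
  have := Fintype.ofFinite G
  obtain ⟨A, hA⟩ := exists_upset_inversion (α := {C : Subgroup G // IsCyclic C}) (fun _ => 1)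
  let B : Subgroup G → ℤ := fun H => if h : IsCyclic H then A ⟨H, h⟩ else 0
  refine ⟨fun H => B H * Nat.card H, Nat.card G, Nat.card_pos, ?_, ?_⟩
  · intro H hH
    by_contra hc
    apply hH
    simp [B, hc]
  · intro g
    have h1 : ∀ H : Subgroup G, B H * Nat.card H * fixNum H g
        = ∑ x : G, if x⁻¹ * g * x ∈ H then B H else 0 := by
      intro H
      rw [mul_assoc, ← Nat.cast_mul, card_mul_fixNum, Nat.card_eq_fintype_card,
        Fintype.card_subtype, ← Finset.sum_filter, Finset.sum_const, nsmul_eq_mul, mul_comm]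
    have h2 : ∀ x : G, (∑ H : Subgroup G, if x⁻¹ * g * x ∈ H then B H else 0) = 1 := by
      intro x
      let C₀ : {C : Subgroup G // IsCyclic C} :=
        ⟨Subgroup.zpowers (x⁻¹ * g * x), inferInstance⟩
      have h3 := hA C₀
      rw [← h3]
      symm
      refine Finset.sum_bij_ne_zero
        (fun (y : {C : Subgroup G // IsCyclic C}) _ _ => y.1) ?_ ?_ ?_ ?_
      · intro _ _ _; exact Finset.mem_univ _
      · intro y _ _ z _ _ h
        exact Subtype.ext h
      · intro H _ hH
        have hx : x⁻¹ * g * x ∈ H := by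
          by_contra hx
          simp [hx] at hH
        rw [if_pos hx] at hH
        have hc : IsCyclic H := by
          by_contra hc
          apply hH
          simp [B, hc]
        have hle : C₀ ≤ ⟨H, hc⟩ := by
          show Subgroup.zpowers (x⁻¹ * g * x) ≤ H
          rw [Subgroup.zpowers_le]
          exact hx
        refine ⟨⟨H, hc⟩, Finset.mem_filter.2 ⟨Finset.mem_univ _, hle⟩, ?_, rfl⟩
        simpa [B, hc] using hH
      · intro y hy _
        have hx : x⁻¹ * g * x ∈ y.1 := by
          have : Subgroup.zpowers (x⁻¹ * g * x) ≤ y.1 := (Finset.mem_filter.1 hy).2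
          exact this (Subgroup.mem_zpowers _)
        have hc : IsCyclic y.1 := y.2
        simp only [if_pos hx, B, dif_pos hc]
    have h4 : ∑ H : Subgroup G, B H * Nat.card H * fixNum H g = ∑ x : G, (1 : ℤ) := by
      rw [Finset.sum_congr rfl fun H _ => h1 H, Finset.sum_comm]
      exact Finset.sum_congr rfl fun x _ => h2 x
    rw [h4]
    simp

end Pool.Agent.Lib.MP_1a91b9_nt
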