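import Pool.Agent.Lib.MP_1a91b9_nt.Defs

/-!
# JOB RANKREL: a Brauer relation gives a relation of Mordell-Weil ranks
-/

set_option autoImplicit false

namespace Pool.Agent.Lib.MP_1a91b9_nt

open IsDedekindDomain NumberField Polynomial IntermediateField

universe u

/-- `|H|` times the number of fixed points of `g` on `G / H` is the number of `x` with
`x⁻¹ g x ∈ H`. -/
theorem fixNum_mul_card {G : Type*} [Group G] [Finite G] (H : Subgroup G) (g : G) :
    fixNum H g * Nat.card H = Nat.card {x : G // x⁻¹ * g * x ∈ H} := by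
  rw [fixNum, ← Nat.card_prod]
  symm
  refine Nat.card_congr ?_
  refine (Equiv.subtypeEquiv (Subgroup.groupEquivQuotientProdSubgroup (s := H))
    (q := fun y : (G ⧸ H) × H => y.1 ∈ MulAction.fixedBy (G ⧸ H) g) ?_).trans
    (Equiv.prodSubtypeFstEquivSubtypeProd
      (p := fun y : G ⧸ H => y ∈ MulAction.fixedBy (G ⧸ H) g))
  intro x
  have h : (Subgroup.groupEquivQuotientProdSubgroup (s := H) x).1 = (x : G ⧸ H) := by
    rfl
  rw [h, MulAction.mem_fixedBy]
  change _ ↔ (((g * x : G)) : G ⧸ H) = (x : G ⧸ H)
  rw [eq_comm, QuotientGroup.eq, mul_assoc]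

section abstract
variable {G : Type*} [Group G] {A : Type u} [AddCommGroup A]

/-- invariants of `H` in a `ℤ[G]`-module -/
def invSub (ρ : G →* Module.End ℤ A) (H : Subgroup G) : Submodule ℤ A where
  carrier := {a | ∀ h ∈ H, ρ h a = a}
  add_mem' := by
    intro a b ha hb h hh
    rw [map_add, ha h hh, hb h hh]
  zero_mem' := by
    intro h _
    exact map_zero _
  smul_mem' := by
    intro c a ha h hh
    rw [map_smul, ha h hh]

theorem mem_invSub (ρ : G →* Module.End ℤ A) (H : Subgroup G) (a : A) :
    a ∈ invSub ρ H ↔ ∀ h ∈ H, ρ h a = a := Iff.rfl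

open TensorProduct

/-- base change to `ℚ` -/
noncomputable def rhoQ (ρ : G →* Module.End ℤ A) : Representation ℚ G (ℚ ⊗[ℤ] A) where
  toFun g := (ρ g).baseChange ℚ
  map_one' := by
    rw [map_one]
    exact LinearMap.baseChange_id
  map_mul' g h := by
    rw [map_mul]
    exact LinearMap.baseChange_comp _ _

theorem rhoQ_tmul (ρ : G →* Module.End ℤ A) (g : G) (q : ℚ) (a : A) :
    rhoQ ρ g (q ⊗ₜ a) = q ⊗ₜ (ρ g a) := rfl

theorem finrank_invSub [Finite G] (ρ : G →* Module.End ℤ A) (H : Subgroup G) :
    Module.finrank ℤ (invSub ρ H) =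
      Module.finrank ℚ (Representation.invariants ((rhoQ ρ).comp H.subtype)) := by
  set f : A →ₗ[ℤ] ℚ ⊗[ℤ] A := TensorProduct.mk ℤ ℚ A 1 with hf
  have hloc : IsLocalizedModule (nonZeroDivisors ℤ) f :=
    (isLocalizedModule_iff_isBaseChange (nonZeroDivisors ℤ) ℚ _).mpr
      (TensorProduct.isBaseChange ℤ A ℚ)
  have e : (invSub ρ H).localized' ℚ (nonZeroDivisors ℤ) f =
      Representation.invariants ((rhoQ ρ).comp H.subtype) := by
    apply le_antisymm
    · rw [Submodule.localized'_eq_span, Submodule.span_le]
      rintro _ ⟨a, ha, rfl⟩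
      rw [SetLike.mem_coe, Representation.mem_invariants]
      intro h
      change rhoQ ρ (h : G) ((1 : ℚ) ⊗ₜ a) = _
      rw [rhoQ_tmul, ha h h.2]
      rfl
    · intro v hv
      rw [Representation.mem_invariants] at hv
      classical
      have : Fintype H := Fintype.ofFinite H
      obtain ⟨⟨a, s⟩, hs⟩ := IsLocalizedModule.surj (nonZeroDivisors ℤ) f v
      have hs' : (s : ℤ) • v = f a := hs
      have hN : (Fintype.card H : ℚ) ≠ 0 := by
        exact_mod_cast Fintype.card_ne_zero
      have hsz : ((s : ℤ) : ℚ) ≠ 0 := by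
        exact_mod_cast nonZeroDivisors.coe_ne_zero s
      set b : A := ∑ h : H, ρ (h : G) a with hb
      have hbm : b ∈ invSub ρ H := by
        intro h hh
        rw [hb, map_sum]
        refine Eq.trans (Finset.sum_congr rfl fun x _ => ?_)
          (Equiv.sum_comp (Equiv.mulLeft (⟨h, hh⟩ : H)) (fun x : H => ρ (x : G) a))
        rw [Equiv.coe_mulLeft, Subgroup.coe_mul, map_mul]
        rfl
      have hfb : f b = ((Fintype.card H : ℚ) * ((s : ℤ) : ℚ)) • v := by
        have h1 : f b = ∑ h : H, rhoQ ρ (h : G) (f a) := by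
          rw [hb, map_sum]
          rfl
        have h2 : ∀ h : H, rhoQ ρ (h : G) (f a) = ((s : ℤ) : ℚ) • v := by
          intro h
          rw [← hs']
          have := hv h
          change rhoQ ρ (h : G) v = v at this
          rw [← Int.cast_smul_eq_zsmul ℚ, map_smul, this]
        rw [h1, Finset.sum_congr rfl fun h _ => h2 h, Finset.sum_const, Finset.card_univ,
          ← Nat.cast_smul_eq_nsmul ℚ, smul_smul]
      have hv2 : v = ((Fintype.card H : ℚ) * ((s : ℤ) : ℚ))⁻¹ • f b := by
        rw [hfb, smul_smul, inv_mul_cancel₀ (mul_ne_zero hN hsz), one_smul]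
      rw [hv2]
      refine Submodule.smul_mem _ _ ?_
      rw [Submodule.localized'_eq_span]
      exact Submodule.subset_span ⟨b, hbm, rfl⟩
  rw [← e]
  have h1 := IsLocalizedModule.finrank_eq (nonZeroDivisors ℤ)
    ((invSub ρ H).toLocalized' ℚ (nonZeroDivisors ℤ) f) le_rfl
  have h2 := IsLocalization.finrank_eq (N := (invSub ρ H).localized' ℚ (nonZeroDivisors ℤ) f)
    ℚ (nonZeroDivisors ℤ) le_rfl
  rw [← h1, ← h2]

theorem card_mul_finrank_invSub [Finite G] (ρ : G →* Module.End ℤ A)
    (hfin : Module.rank ℤ A < Cardinal.aleph0) (H : Subgroup G) [Fintype H] :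
    (Fintype.card H : ℚ) * (Module.finrank ℤ (invSub ρ H) : ℚ) =
      ∑ h : H, LinearMap.trace ℚ (ℚ ⊗[ℤ] A) (rhoQ ρ (h : G)) := by
  have hV : Module.Finite ℚ (ℚ ⊗[ℤ] A) := by
    rw [← Module.rank_lt_aleph0_iff]
    rwa [(TensorProduct.isBaseChange ℤ A ℚ).rank_eq]
  have hN : (Fintype.card H : ℚ) ≠ 0 := by
    exact_mod_cast Fintype.card_ne_zero
  let _ : Invertible (Fintype.card H : ℚ) := invertibleOfNonzero hN
  have h := (Representation.isProj_averageMap ((rhoQ ρ).comp H.subtype)).trace
  rw [finrank_invSub, ← h, Representation.averageMap, GroupAlgebra.average, map_smul, map_sum,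
    map_smul, map_sum, smul_eq_mul, ← mul_assoc, mul_invOf_self, one_mul]
  refine Finset.sum_congr rfl fun x _ => ?_
  rw [Representation.asAlgebraHom_of]
  rfl

theorem finrank_relation [Fintype G] [Fintype (Subgroup G)] (ρ : G →* Module.End ℤ A)
    (hfin : Module.rank ℤ A < Cardinal.aleph0)
    (n : Subgroup G → ℤ) (m : ℤ) (hrel : ∀ g : G, ∑ H, n H * fixNum H g = m) :
    ∑ H, n H * (Module.finrank ℤ (invSub ρ H) : ℤ) = m * Module.finrank ℤ (invSub ρ ⊤) := by
  classical
  set χ : G → ℚ := fun g => LinearMap.trace ℚ (ℚ ⊗[ℤ] A) (rhoQ ρ g) with hχ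
  have hconj : ∀ x g : G, χ (x * g * x⁻¹) = χ g := by
    intro x g
    rw [hχ]
    simp only
    rw [map_mul, LinearMap.trace_mul_comm, ← map_mul, inv_mul_cancel_left]
  have key : ∀ H : Subgroup G, ∑ g : G, χ g * fixNum H g =
      Fintype.card G * (Module.finrank ℤ (invSub ρ H) : ℚ) := by
    intro H
    have hN : (Fintype.card H : ℚ) ≠ 0 := by
      exact_mod_cast Fintype.card_ne_zero
    have h1 : ∀ g : G, (Fintype.card H : ℚ) * fixNum H g =
        ∑ x : G, if x⁻¹ * g * x ∈ H then 1 else 0 := by
      intro g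
      rw [Finset.sum_boole, mul_comm]
      have := fixNum_mul_card H g
      have e1 : Nat.card H = Fintype.card H := Nat.card_eq_fintype_card
      have e2 : Nat.card {x : G // x⁻¹ * g * x ∈ H} =
          (Finset.univ.filter fun x : G => x⁻¹ * g * x ∈ H).card := by
        rw [Nat.card_eq_fintype_card, Fintype.card_subtype]
      rw [e1, e2] at this
      exact_mod_cast this
    have h2 : (Fintype.card H : ℚ) * ∑ g : G, χ g * fixNum H g =
        (Fintype.card H : ℚ) * (Fintype.card G * (Module.finrank ℤ (invSub ρ H) : ℚ)) := by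
      calc (Fintype.card H : ℚ) * ∑ g : G, χ g * fixNum H g
          = ∑ g : G, χ g * ((Fintype.card H : ℚ) * fixNum H g) := by
            rw [Finset.mul_sum]
            exact Finset.sum_congr rfl fun g _ => by ring
        _ = ∑ g : G, ∑ x : G, if x⁻¹ * g * x ∈ H then χ g else 0 := by
            refine Finset.sum_congr rfl fun g _ => ?_
            rw [h1, Finset.mul_sum]
            refine Finset.sum_congr rfl fun x _ => ?_
            rw [mul_ite, mul_one, mul_zero]
        _ = ∑ x : G, ∑ g : G, if x⁻¹ * g * x ∈ H then χ g else 0 := Finset.sum_comm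
        _ = ∑ x : G, ∑ g : G, if g ∈ H then χ g else 0 := by
            refine Finset.sum_congr rfl fun x _ => ?_
            rw [← Equiv.sum_comp (MulAut.conj x).toEquiv]
            refine Finset.sum_congr rfl fun g _ => ?_
            have e1 : (MulAut.conj x).toEquiv g = x * g * x⁻¹ := rfl
            rw [e1, hconj]
            have e2 : x⁻¹ * (x * g * x⁻¹) * x = g := by group
            rw [e2]
        _ = Fintype.card G * ∑ h : H, χ (h : G) := by
            rw [Finset.sum_const, Finset.card_univ, nsmul_eq_mul]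
            congr 1
            rw [← Finset.sum_filter, Finset.sum_subtype (p := fun g => g ∈ H)]
            intro x
            simp
        _ = _ := by
            rw [← card_mul_finrank_invSub ρ hfin H]
            ring
    exact mul_left_cancel₀ hN h2
  have hG : (Fintype.card G : ℚ) ≠ 0 := by
    exact_mod_cast Fintype.card_ne_zero
  have htop : ∑ g : G, χ g = Fintype.card G * (Module.finrank ℤ (invSub ρ ⊤) : ℚ) := by
    rw [← key ⊤]
    refine Finset.sum_congr rfl fun g _ => ?_
    have : fixNum (⊤ : Subgroup G) g = 1 := by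
      have h3 : Nat.card (⊤ : Subgroup G) = Fintype.card G := by
        rw [Subgroup.card_top, Nat.card_eq_fintype_card]
      have h4 : Nat.card {x : G // x⁻¹ * g * x ∈ (⊤ : Subgroup G)} = Fintype.card G := by
        rw [Nat.card_eq_fintype_card]
        exact Fintype.card_of_subtype Finset.univ (by simp)
      have h5 := fixNum_mul_card (⊤ : Subgroup G) g
      rw [h3, h4] at h5
      exact (Nat.mul_eq_right Fintype.card_ne_zero).mp h5
    rw [this, Nat.cast_one, mul_one]
  have final : (Fintype.card G : ℚ) *
      ((∑ H, n H * (Module.finrank ℤ (invSub ρ H) : ℤ) : ℤ) : ℚ) =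
      Fintype.card G * ((m * Module.finrank ℤ (invSub ρ ⊤) : ℤ) : ℚ) := by
    push_cast
    calc (Fintype.card G : ℚ) * ∑ H, (n H : ℚ) * (Module.finrank ℤ (invSub ρ H) : ℚ)
        = ∑ H, (n H : ℚ) * ∑ g : G, χ g * fixNum H g := by
          rw [Finset.mul_sum]
          refine Finset.sum_congr rfl fun H _ => ?_
          rw [key H]
          ring
      _ = ∑ g : G, χ g * ((∑ H, n H * fixNum H g : ℤ) : ℚ) := by
          simp only [Finset.mul_sum]
          rw [Finset.sum_comm]
          refine Finset.sum_congr rfl fun g _ => ?_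
          push_cast
          rw [Finset.mul_sum]
          refine Finset.sum_congr rfl fun H _ => ?_
          ring
      _ = m * ∑ g : G, χ g := by
          rw [Finset.mul_sum]
          refine Finset.sum_congr rfl fun g _ => ?_
          rw [hrel]
          ring
      _ = _ := by
          rw [htop]
          ring
  exact_mod_cast mul_left_cancel₀ hG final
end abstract

section points
variable {F M : Type u} [Field F] [NumberField F] [Field M] [NumberField M] [Algebra F M]
  [IsGalois F M]

theorem mwRank_le_baseChange (W : WeierstrassCurve F) (K : Type u) [Field K] [Algebra F K] :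
    mwRank W ≤ mwRank (W.baseChange K) := by
  let _ : DecidableEq F := Classical.decEq F
  let _ : DecidableEq K := Classical.decEq K
  have h : W.baseChange F = W := W.map_id
  have h1 : mwRank W = mwRank (W.baseChange F) := by rw [h]
  rw [h1]
  let f : (W.baseChange F).toAffine.Point →ₗ[ℤ] (W.baseChange K).toAffine.Point :=
    (WeierstrassCurve.Affine.Point.map (W' := W) (Algebra.ofId F K)).toIntLinearMap
  have hf : Function.Injective f :=
    WeierstrassCurve.Affine.Point.map_injective (W' := W) (Algebra.ofId F K)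
  exact LinearMap.rank_le_of_injective f hf

/-- the action of the Galois group on the points over `M` -/
noncomputable def galRho [DecidableEq M] (W : WeierstrassCurve F) :
    Gal(M/F) →* Module.End ℤ (W.baseChange M).toAffine.Point where
  toFun σ := (WeierstrassCurve.Affine.Point.map (W' := W)
    ((σ : M ≃ₐ[F] M) : M →ₐ[F] M)).toIntLinearMap
  map_one' := by
    ext P
    cases P <;> rfl
  map_mul' σ τ := by
    ext P
    cases P <;> rfl

/-- The points over the fixed field of `H` are the `H`-invariant points. -/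
theorem rank_fixedField [DecidableEq M] (W : WeierstrassCurve F) (H : Subgroup Gal(M/F)) :
    mwRank (W.baseChange (fixedField H)) = Module.rank ℤ (invSub (galRho W) H) := by
  let _ : DecidableEq (fixedField H) := Classical.decEq _
  let f : (W.baseChange (fixedField H)).toAffine.Point →ₗ[ℤ]
      (W.baseChange M).toAffine.Point :=
    (WeierstrassCurve.Affine.Point.map (W' := W) (fixedField H).val).toIntLinearMap
  have hf : Function.Injective f :=
    WeierstrassCurve.Affine.Point.map_injective (W' := W) (fixedField H).val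
  have hr : LinearMap.range f = invSub (galRho W) H := by
    ext P
    rw [LinearMap.mem_range, mem_invSub]
    constructor
    · rintro ⟨Q, rfl⟩ σ hσ
      rcases Q with _ | ⟨x, y, hxy⟩
      · rfl
      · have hx : σ (x : M) = x := (mem_fixedField_iff H (x : M)).mp x.2 σ hσ
        have hy : σ (y : M) = y := (mem_fixedField_iff H (y : M)).mp y.2 σ hσ
        change WeierstrassCurve.Affine.Point.some _ _ _ = WeierstrassCurve.Affine.Point.some _ _ _
        rw [WeierstrassCurve.Affine.Point.some.injEq]
        exact ⟨hx, hy⟩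
    · intro hP
      rcases P with _ | ⟨x, y, hxy⟩
      · exact ⟨0, rfl⟩
      · have hfix : ∀ σ ∈ H, σ x = x ∧ σ y = y := by
          intro σ hσ
          have h := hP σ hσ
          change WeierstrassCurve.Affine.Point.some _ _ _ =
            WeierstrassCurve.Affine.Point.some _ _ _ at h
          rw [WeierstrassCurve.Affine.Point.some.injEq] at h
          exact h
        have hx : x ∈ fixedField H := (mem_fixedField_iff H x).mpr fun σ hσ => (hfix σ hσ).1
        have hy : y ∈ fixedField H := (mem_fixedField_iff H y).mpr fun σ hσ => (hfix σ hσ).2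
        refine ⟨WeierstrassCurve.Affine.Point.some (⟨x, hx⟩ : fixedField H) ⟨y, hy⟩
          ((WeierstrassCurve.Affine.baseChange_nonsingular W.toAffine
            (fixedField H).val.injective _ _).mp hxy), rfl⟩
  rw [← hr]
  exact (LinearEquiv.ofInjective f hf).rank_eq

theorem invSub_bot {G : Type*} [Group G] {A : Type u} [AddCommGroup A]
    (ρ : G →* Module.End ℤ A) : invSub ρ ⊥ = ⊤ := by
  rw [eq_top_iff]
  intro a _ h hh
  rw [Subgroup.mem_bot.mp hh, map_one]
  rfl

theorem mwRank_fixedField_bot (W : WeierstrassCurve F) :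
    mwRank (W.baseChange (fixedField (⊥ : Subgroup Gal(M/F)))) = mwRank (W.baseChange M) := by
  let _ : DecidableEq M := Classical.decEq M
  rw [rank_fixedField W ⊥, invSub_bot, rank_top]
  rfl

theorem mwRank_eq_top (W : WeierstrassCurve F) [DecidableEq M] :
    mwRank W = Module.rank ℤ (invSub (galRho (M := M) W) ⊤) := by
  rw [← rank_fixedField W ⊤]
  let _ : DecidableEq F := Classical.decEq F
  let _ : DecidableEq (fixedField (⊤ : Subgroup Gal(M/F))) := Classical.decEq _
  have h : W.baseChange F = W := W.map_id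
  have h1 : mwRank W = mwRank (W.baseChange F) := by rw [h]
  rw [h1]
  have e0 : fixedField (⊤ : Subgroup Gal(M/F)) = ⊥ := IsGalois.fixedField_top
  let e : F ≃ₐ[F] fixedField (⊤ : Subgroup Gal(M/F)) :=
    ((IntermediateField.equivOfEq e0).trans (IntermediateField.botEquiv F M)).symm
  let e1 : F →ₐ[F] fixedField (⊤ : Subgroup Gal(M/F)) := e.toAlgHom
  let e2 : fixedField (⊤ : Subgroup Gal(M/F)) →ₐ[F] F := e.symm.toAlgHom
  let f : (W.baseChange F).toAffine.Point →ₗ[ℤ]
      (W.baseChange (fixedField (⊤ : Subgroup Gal(M/F)))).toAffine.Point :=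
    (WeierstrassCurve.Affine.Point.map (W' := W) e1).toIntLinearMap
  let f' : (W.baseChange (fixedField (⊤ : Subgroup Gal(M/F)))).toAffine.Point →ₗ[ℤ]
      (W.baseChange F).toAffine.Point :=
    (WeierstrassCurve.Affine.Point.map (W' := W) e2).toIntLinearMap
  have hf : Function.Injective f :=
    WeierstrassCurve.Affine.Point.map_injective (W' := W) e1
  have hf' : Function.Injective f' :=
    WeierstrassCurve.Affine.Point.map_injective (W' := W) e2
  exact le_antisymm (LinearMap.rank_le_of_injective f hf)
    (LinearMap.rank_le_of_injective f' hf')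

theorem rank_relation (W : WeierstrassCurve F)
    (hfin : mwRank (W.baseChange M) < Cardinal.aleph0)
    (n : Subgroup Gal(M/F) → ℤ) (m : ℕ) (hrel : ∀ g : Gal(M/F), ∑ H, n H * fixNum H g = m) :
    ∃ (r : ℕ) (ρ : Subgroup Gal(M/F) → ℕ), mwRank W = r ∧
      (∀ H, mwRank (W.baseChange (fixedField H)) = ρ H) ∧ ∑ H, n H * ρ H = (m : ℤ) * r := by
  let _ : DecidableEq M := Classical.decEq M
  have hfin' : Module.rank ℤ (W.baseChange M).toAffine.Point < Cardinal.aleph0 := hfin
  have hlt : ∀ H : Subgroup Gal(M/F),
      Module.rank ℤ (invSub (galRho W) H) < Cardinal.aleph0 := fun H =>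
    lt_of_le_of_lt (Submodule.rank_le _) hfin'
  refine ⟨Module.finrank ℤ (invSub (galRho (M := M) W) ⊤),
    fun H => Module.finrank ℤ (invSub (galRho W) H), ?_, ?_, ?_⟩
  · rw [mwRank_eq_top (M := M) W]
    exact (Cardinal.cast_toNat_of_lt_aleph0 (hlt ⊤)).symm
  · intro H
    rw [rank_fixedField]
    exact (Cardinal.cast_toNat_of_lt_aleph0 (hlt H)).symm
  · exact finrank_relation (galRho W) hfin' n m hrel

end points

end Pool.Agent.Lib.MP_1a91b9_nt
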