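import Pool.Agent.Lib.MP_1a91b9_nt.Product
import Pool.Agent.Lib.MP_1a91b9_nt.RankRel

/-!
# The induction step: from a relation of permutation characters to the rank part
-/

set_option autoImplicit false

namespace Pool.Agent.Lib.MP_1a91b9_nt

open IsDedekindDomain NumberField Polynomial IntermediateField

universe u

variable {F M : Type u} [Field F] [NumberField F] [Field M] [NumberField M] [Algebra F M]
  [IsGalois F M]

theorem core (W : WeierstrassCurve F) [W.IsElliptic] (n : Subgroup Gal(M/F) → ℤ) (m k : ℕ)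
    (hrel : ∀ g : Gal(M/F), ∑ H, n H * fixNum H g = m)
    (hH : ∀ H, n H ≠ 0 → RankPow k (W.baseChange (fixedField H)))
    (hfin : mwRank (W.baseChange M) < Cardinal.aleph0) :
    RankPow (m * k) W := by
  classical
  obtain ⟨R, hR1, hR2, hR3, hR4⟩ := product_formula W n m hrel
  obtain ⟨r, ρ, hr, hρ, hsum⟩ := rank_relation W hfin n m hrel
  have key : ∀ H : Subgroup Gal(M/F), ∃ g : ℂ → ℂ, MeromorphicOn g Set.univ ∧
      (∀ s : ℂ, 2 < s.re →
        g s = ((W.baseChange (fixedField H)).LSeries s ^ (n H)) ^ k) ∧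
      meromorphicOrderAt g 1 = ((n H * (k * ρ H) : ℤ) : WithTop ℤ) := by
    intro H
    by_cases h0 : n H = 0
    · refine ⟨fun _ => 1, MeromorphicOn.const 1, ?_, ?_⟩
      · intro s _
        simp [h0]
      · rw [meromorphicOrderAt_const]
        simp [h0]
    · obtain ⟨g, r', hg1, hg2, hg3, hg4⟩ := hH H h0
      have hr' : r' = ρ H := by
        have := hg3.symm.trans (hρ H)
        exact_mod_cast this
      subst hr'
      refine ⟨g ^ (n H), hg1.zpow (n H), ?_, ?_⟩
      · intro s hs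
        rw [Pi.pow_apply, hg2 s hs, ← zpow_natCast, ← zpow_natCast, zpow_comm]
      · rw [meromorphicOrderAt_zpow (hg1 1 (Set.mem_univ _)), hg4]
        norm_cast
  choose g hg1 hg2 hg3 using key
  refine ⟨(∏ H, g H) * (R ^ k)⁻¹, r, ?_, ?_, hr, ?_⟩
  · exact (MeromorphicOn.prod fun H _ => hg1 H).mul (hR1.pow k).inv
  · intro s hs
    rw [Pi.mul_apply, Pi.inv_apply, Pi.pow_apply, Finset.prod_apply]
    rw [Finset.prod_congr rfl fun H _ => hg2 H s hs, Finset.prod_pow, hR4 s hs, mul_pow, pow_mul,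
      mul_assoc, mul_inv_cancel₀ (pow_ne_zero _ (hR3 s hs)), mul_one]
  · rw [meromorphicOrderAt_mul ((MeromorphicOn.prod fun H _ => hg1 H) 1 (Set.mem_univ _))
      ((hR1.pow k).inv 1 (Set.mem_univ _)), meromorphicOrderAt_inv,
      meromorphicOrderAt_pow (hR1 1 (Set.mem_univ _)), hR2,
      meromorphicOrderAt_prod fun H _ => hg1 H 1 (Set.mem_univ _)]
    rw [Finset.sum_congr rfl fun H _ => hg3 H]
    have h1 : ∑ H, (n H * (k * ρ H) : ℤ) = ((m * k * r : ℕ) : ℤ) := by
      have : ∑ H, (n H * (k * ρ H) : ℤ) = k * ∑ H, n H * ρ H := by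
        rw [Finset.mul_sum]
        exact Finset.sum_congr rfl fun H _ => by ring
      rw [this, hsum]
      push_cast
      ring
    have h2 : ((m * k * r : ℕ) : WithTop ℤ) = (((m * k * r : ℕ) : ℤ) : WithTop ℤ) := rfl
    rw [h2, ← h1, WithTop.coe_sum]
    simp

end Pool.Agent.Lib.MP_1a91b9_nt
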