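import Pool.Agent.Lib.MP_1a91b9_nt.Defs

set_option autoImplicit false

namespace Pool.Agent.Lib.MP_1a91b9_nt

open IsDedekindDomain NumberField Polynomial IntermediateField

universe u

/-- Many elements killed by `p` in the unit group of `ZMod m`, for a suitable `m`. -/
theorem exists_zmod_units (p : ℕ) (hp : p.Prime) (r : ℕ) :
    ∃ m : ℕ, m ≠ 0 ∧ p ^ r ≤ Nat.card {u : (ZMod m)ˣ // u ^ p = 1} := by
  classical
  obtain ⟨t, hts, htc⟩ :=
    (Nat.infinite_setOfPred_prime_modEq_one (k := p) hp.ne_zero).exists_subset_card_eq r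
  have hprime : ∀ i : t, (i : ℕ).Prime := fun i => (hts i.2).1
  have hmod : ∀ i : t, (i : ℕ) ≡ 1 [MOD p] := fun i => (hts i.2).2
  have hcop : Pairwise (Function.onFun Nat.Coprime (fun i : t => (i : ℕ))) := by
    intro i j hij
    exact (Nat.coprime_primes (hprime i) (hprime j)).2 (fun h => hij (Subtype.ext h))
  have : ∀ i : t, Fact (i : ℕ).Prime := fun i => ⟨hprime i⟩
  have : Fact p.Prime := ⟨hp⟩
  have hne : (∏ i : t, (i : ℕ)) ≠ 0 := Finset.prod_ne_zero_iff.2 fun i _ => (hprime i).ne_zero
  refine ⟨∏ i : t, (i : ℕ), hne, ?_⟩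
  have : NeZero (∏ i : t, (i : ℕ)) := ⟨hne⟩
  have hg : ∀ i : t, ∃ g : (ZMod (i : ℕ))ˣ, orderOf g = p := by
    intro i
    apply exists_prime_orderOf_dvd_card'
    rw [Nat.card_eq_fintype_card, ZMod.card_units_eq_totient, Nat.totient_prime (hprime i)]
    exact (Nat.modEq_iff_dvd' (hprime i).one_le).1 (hmod i).symm
  choose g hg using hg
  let E : (ZMod (∏ i : t, (i : ℕ)))ˣ ≃* Π i : t, (ZMod (i : ℕ))ˣ :=
    (Units.mapEquiv (ZMod.prodEquivPi (fun i : t => (i : ℕ)) hcop).toMulEquiv).trans
      MulEquiv.piUnits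
  let F : (t → Fin p) → {u : (ZMod (∏ i : t, (i : ℕ)))ˣ // u ^ p = 1} := fun f =>
    ⟨E.symm (fun i => g i ^ (f i : ℕ)), by
      rw [← map_pow]
      have : (fun i : t => g i ^ (f i : ℕ)) ^ p = 1 := by
        funext i
        have hgp : g i ^ p = 1 := by
          have := pow_orderOf_eq_one (g i)
          rwa [hg i] at this
        rw [Pi.pow_apply, ← pow_mul, mul_comm, pow_mul, hgp, one_pow, Pi.one_apply]
      rw [this, map_one]⟩
  have hF : Function.Injective F := by
    intro f f' h
    have h1 := E.symm.injective (Subtype.ext_iff.1 h)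
    funext i
    have h2 := congrFun h1 i
    have h3 := pow_injOn_Iio_orderOf (x := g i) (by rw [hg i]; exact (f i).2)
      (by rw [hg i]; exact (f' i).2) h2
    exact Fin.ext h3
  have := Nat.card_le_card_of_injective F hF
  simpa [htc] using this

/-- The group theoretic part. -/
theorem dvd_index_of_many {G A : Type*} [Group G] [Finite G] [CommGroup A] [Finite A]
    (φ : G →* A) (hφ : Function.Injective φ) (p : ℕ) (hp : p.Prime) (d : ℕ)
    (hd : Nat.card A ≤ Nat.card G * d) (hA : p * d < Nat.card {a : A // a ^ p = 1})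
    (C : Subgroup G) (hC : IsCyclic C) : p ∣ C.index := by
  classical
  by_contra hpC
  have hcomm : ∀ a b : G, a * b = b * a := fun a b => hφ (by rw [map_mul, map_mul, mul_comm])
  have hnorm : C.Normal := ⟨fun n hn g => by rw [hcomm g n, mul_inv_cancel_right]; exact hn⟩
  have hcop : Nat.Coprime p C.index := (Nat.Prime.coprime_iff_not_dvd hp).2 hpC
  have hmem : ∀ g : G, g ^ p = 1 → g ∈ C := by
    intro g hg
    have h1 : g ^ C.index ∈ C := C.pow_index_mem g
    have h2 : g = (g ^ p) ^ (Nat.gcdA p C.index) * (g ^ C.index) ^ (Nat.gcdB p C.index) := by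
      have h3 := Nat.gcd_eq_gcd_ab p C.index
      rw [hcop.gcd_eq_one] at h3
      rw [← zpow_natCast, ← zpow_natCast, ← zpow_mul, ← zpow_mul, ← zpow_add, ← h3]
      simp
    rw [h2, hg, one_zpow, one_mul]
    exact C.zpow_mem h1 _
  let T : Subgroup A := (powMonoidHom p).ker
  have hT : Nat.card T = Nat.card {a : A // a ^ p = 1} := rfl
  let U : Subgroup A := φ.range
  have hU : Nat.card U = Nat.card G := Nat.card_congr (MonoidHom.ofInjective hφ).toEquiv.symm
  have hUi : U.index ≤ d := by
    have h1 := U.card_mul_index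
    rw [hU] at h1
    have h2 : Nat.card G * U.index ≤ Nat.card G * d := h1 ▸ hd
    exact Nat.le_of_mul_le_mul_left h2 Nat.card_pos
  have hrel : U.relIndex T ≤ d :=
    (Nat.le_of_dvd (Nat.pos_of_ne_zero U.index_ne_zero_of_finite)
      (U.relIndex_dvd_index_of_normal T)).trans hUi
  have hV : Nat.card (U.subgroupOf T) * U.relIndex T = Nat.card T :=
    (U.subgroupOf T).card_mul_index
  have hVc : p < Nat.card (U.subgroupOf T) := by
    by_contra hle
    push Not at hle
    have h1 : Nat.card T ≤ p * d := by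
      rw [← hV]; exact Nat.mul_le_mul hle hrel
    rw [hT] at h1
    omega
  -- the map from `U ∩ T` to the elements of `C` killed by `p`
  have hex : ∀ v : U.subgroupOf T, ∃ g : G, φ g = (v : T) ∧ g ^ p = 1 := by
    rintro ⟨⟨a, haT⟩, haU⟩
    obtain ⟨g, hg⟩ := haU
    refine ⟨g, hg, hφ ?_⟩
    rw [map_pow, map_one]
    have : a ^ p = 1 := haT
    rw [show φ g = a from hg, this]
  choose f hf hfp using hex
  have := Fintype.ofFinite C
  let ff : (U.subgroupOf T) → {c : C // c ^ p = 1} := fun v =>
    ⟨⟨f v, hmem _ (hfp v)⟩, Subtype.ext (by simpa using hfp v)⟩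
  have hff : Function.Injective ff := by
    intro v w h
    have h1 : f v = f w := by
      have := congrArg (fun x : {c : C // c ^ p = 1} => ((x : C) : G)) h
      exact this
    apply Subtype.ext
    apply Subtype.ext
    rw [← hf v, ← hf w, h1]
  have h1 := Nat.card_le_card_of_injective ff hff
  have h2 : Nat.card {c : C // c ^ p = 1} ≤ p := by
    rw [Nat.card_eq_fintype_card, Fintype.card_subtype]
    exact IsCyclic.card_pow_eq_one_le hp.pos
  omega

theorem exists_pp (F : Type u) [Field F] [NumberField F] (p : ℕ) (hp : p.Prime) :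
    ∃ (M : Type u) (_ : Field M) (_ : NumberField M) (_ : Algebra F M) (_ : IsGalois F M),
      ∀ C : Subgroup Gal(M/F), IsCyclic C → p ∣ Module.finrank F (fixedField C) := by
  classical
  have hd0 : 0 < Module.finrank ℚ F := Module.finrank_pos
  obtain ⟨r, hr⟩ : ∃ r : ℕ, p * Module.finrank ℚ F < p ^ r :=
    pow_unbounded_of_one_lt _ hp.one_lt
  obtain ⟨m, hm, hcard⟩ := exists_zmod_units p hp r
  have : NeZero m := ⟨hm⟩
  have : NeZero ((m : ℕ) : F) := ⟨Nat.cast_ne_zero.2 hm⟩
  have hcyc : IsCyclotomicExtension {m} F (CyclotomicField m F) :=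
    CyclotomicField.isCyclotomicExtension m F
  have hμ := IsCyclotomicExtension.zeta_spec m F (CyclotomicField m F)
  have hgal : IsGalois F (CyclotomicField m F) := IsCyclotomicExtension.isGalois {m} F _
  refine ⟨CyclotomicField m F, inferInstance, inferInstance, inferInstance, hgal, ?_⟩
  intro C hC
  have hfin : Module.finrank F (fixedField C) = C.index := by
    have h1 : Module.finrank F (fixedField C) * Module.finrank (fixedField C) (CyclotomicField m F)
        = Module.finrank F (CyclotomicField m F) := Module.finrank_mul_finrank _ _ _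
    rw [IntermediateField.finrank_fixedField_eq_card,
      ← IsGalois.card_aut_eq_finrank F (CyclotomicField m F), ← C.index_mul_card] at h1
    exact Nat.eq_of_mul_eq_mul_right Nat.card_pos h1
  rw [hfin]
  refine dvd_index_of_many (hμ.autToPow F) (hμ.autToPow_injective F) p hp
    (Module.finrank ℚ F) ?_ (lt_of_lt_of_le hr hcard) C hC
  -- degree bound
  have h1 : Nat.card (ZMod m)ˣ = Nat.totient m := by
    rw [Nat.card_eq_fintype_card, ZMod.card_units_eq_totient]
  have h2 : Nat.totient m ≤ Module.finrank ℚ (CyclotomicField m F) := by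
    have h3 := Polynomial.cyclotomic_eq_minpoly_rat hμ (Nat.pos_of_ne_zero hm)
    have h4 := minpoly.natDegree_le (A := ℚ) (IsCyclotomicExtension.zeta m F (CyclotomicField m F))
    rw [← h3, Polynomial.natDegree_cyclotomic] at h4
    exact h4
  have h5 : Module.finrank ℚ F * Module.finrank F (CyclotomicField m F)
      = Module.finrank ℚ (CyclotomicField m F) := Module.finrank_mul_finrank _ _ _
  rw [h1, IsGalois.card_aut_eq_finrank F (CyclotomicField m F), mul_comm, h5]
  exact h2

end Pool.Agent.Lib.MP_1a91b9_nt
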