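import Mathlib

/-!
# BSD over number fields, structural theorems: base definitions
-/

set_option autoImplicit false

namespace Pool.Agent.Lib.MP_1a91b9_nt

open IsDedekindDomain NumberField Polynomial

noncomputable section

/-- The rank of the Mordell-Weil group of `W` over `K`, as a cardinal. -/
def mwRank {K : Type*} [Field K] (W : WeierstrassCurve K) : Cardinal :=
  letI := Classical.decEq K
  Module.rank ℤ W.toAffine.Point

variable {K : Type*} [Field K] [NumberField K]

/-- The `k`-th power of the `L`-series of `W` has a meromorphic continuation to the whole plane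
whose order at `1` is `k` times the rank of `W(K)`. For `k = 1` this is the rank part of the
conjecture of Birch and Swinnerton-Dyer. -/
def RankPow (k : ℕ) (W : WeierstrassCurve K) : Prop :=
  ∃ (g : ℂ → ℂ) (r : ℕ), MeromorphicOn g Set.univ ∧ (∀ s : ℂ, 2 < s.re → g s = W.LSeries s ^ k) ∧
    mwRank W = r ∧ meromorphicOrderAt g 1 = ((k * r : ℕ) : WithTop ℤ)

/-- Some positive power of the `L`-series of `W` continues meromorphically, with the order at `1`
predicted by the rank of `W(K)`. -/
def WeakRank (W : WeierstrassCurve K) : Prop := ∃ k : ℕ, 0 < k ∧ RankPow k W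

/-- The local polynomial at the finite place `w`. -/
def locPoly (W : WeierstrassCurve K) (w : HeightOneSpectrum (𝓞 K)) : ℤ[X] :=
  (W.baseChange (w.adicCompletion K)).localPolynomial (w.adicCompletionIntegers K)

/-- The number of elements of the residue field at `w`. -/
def nrm (w : HeightOneSpectrum (𝓞 K)) : ℕ :=
  Nat.card (IsLocalRing.ResidueField (w.adicCompletionIntegers K))

/-- The Euler factor at `w`. -/
def fac (W : WeierstrassCurve K) (w : HeightOneSpectrum (𝓞 K)) (s : ℂ) : ℂ :=
  (aeval ((nrm w : ℂ) ^ (-s)) (locPoly W w))⁻¹

end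

/-- The number of fixed points of `g` on `G / H`. -/
noncomputable def fixNum {G : Type*} [Group G] (H : Subgroup G) (g : G) : ℕ :=
  Nat.card (MulAction.fixedBy (G ⧸ H) g)

/-- A finite group is hyperelementary when it is an extension of a group of prime power order by a
cyclic group. -/
def IsHyperelementary (G : Type*) [Group G] : Prop :=
  ∃ p : ℕ, p.Prime ∧ ∃ (C : Subgroup G) (_ : C.Normal), IsCyclic C ∧ IsPGroup p (G ⧸ C)

/-- Over every extension field, the points of `W` with abscissa `x` have infinite order. -/
def NT.{u, v} {F : Type u} [Field F] (W : WeierstrassCurve F) (x : F) : Prop :=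
  ∀ (L : Type v) [Field L] [DecidableEq L] [Algebra F L] (y : L)
    (h : (W.baseChange L).toAffine.Nonsingular (algebraMap F L x) y) (n : ℕ), n ≠ 0 →
    n • (WeierstrassCurve.Affine.Point.some _ _ h : (W.baseChange L).toAffine.Point) ≠ 0

end Pool.Agent.Lib.MP_1a91b9_nt
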