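import Pool.Agent.Lib.MP_1a91b9_nt.Defs

/-!
# Absolute convergence of Euler products of quadratic local factors
-/

set_option autoImplicit false

namespace Pool.Agent.Lib.MP_1a91b9_nt
open IsDedekindDomain NumberField Polynomial IntermediateField
open Filter Topology

universe u

/-- The local Dirichlet series of a power series, as a sum over powers. -/
private theorem ea_local_hasSum {q : ℕ} (hq : 1 < q) (f : PowerSeries ℤ) (s F : ℂ)
    (h : HasSum (fun j : ℕ => (f.coeff j : ℂ) * ((q : ℂ) ^ (-s)) ^ j) F) :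
    LSeriesHasSum ((↑) ∘ (ArithmeticFunction.ofPowerSeries q f)) s F := by
  have hinj : Function.Injective (fun k : ℕ => q ^ k) := Nat.pow_right_injective hq
  have hq0 : q ≠ 0 := by omega
  unfold LSeriesHasSum
  rw [← hinj.hasSum_iff]
  · convert h using 1
    funext j
    have h1 : q ^ j ≠ 0 := pow_ne_zero _ hq0
    simp only [Function.comp_apply]
    rw [LSeries.term_of_ne_zero h1]
    simp only [Function.comp_apply]
    rw [ArithmeticFunction.ofPowerSeries_apply_pow hq, div_eq_mul_inv, ← Complex.cpow_neg]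
    congr 1
    rw [Nat.cast_pow, ← Complex.natCast_cpow_natCast_mul]
    rw [Complex.cpow_nat_mul]
  · intro n hn
    rw [LSeries.term_def]
    split_ifs with h0
    · rfl
    · simp only [Function.comp_apply]
      rw [ArithmeticFunction.ofPowerSeries_apply hq, Function.extend_apply']
      · simp
      · rintro ⟨k, hk⟩
        exact hn ⟨k, hk⟩

/-- The majorant power series. -/
private noncomputable def eaMaj (q : ℕ) : PowerSeries ℤ := PowerSeries.mk fun j => ((q : ℤ) + 1) ^ j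

private theorem eaMaj_coeff (q j : ℕ) : (eaMaj q).coeff j = ((q : ℤ) + 1) ^ j := by
  simp [eaMaj]

private theorem eaMaj_const (q : ℕ) : (eaMaj q).constantCoeff = 1 := by
  rw [← PowerSeries.coeff_zero_eq_constantCoeff_apply, eaMaj_coeff, pow_zero]

/-- The reciprocal of the quadratic polynomial. -/
private noncomputable def eaInv (a b : ℤ) : PowerSeries ℤ :=
  PowerSeries.invOfUnit
    ((1 - Polynomial.C a * X + Polynomial.C b * X ^ 2 : ℤ[X]) : PowerSeries ℤ) 1

private theorem eaInv_const (a b : ℤ) : (eaInv a b).constantCoeff = 1 := by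
  simp [eaInv]

private theorem ea_mul (a b : ℤ) :
    (1 - PowerSeries.C a * PowerSeries.X + PowerSeries.C b * PowerSeries.X ^ 2) * eaInv a b
      = 1 := by
  have h := PowerSeries.mul_invOfUnit
    ((1 - Polynomial.C a * X + Polynomial.C b * X ^ 2 : ℤ[X]) : PowerSeries ℤ) 1
    (by simp)
  have e : ((1 - Polynomial.C a * X + Polynomial.C b * X ^ 2 : ℤ[X]) : PowerSeries ℤ)
      = 1 - PowerSeries.C a * PowerSeries.X + PowerSeries.C b * PowerSeries.X ^ 2 := by
    rw [Polynomial.coe_add, Polynomial.coe_sub, Polynomial.coe_mul, Polynomial.coe_mul,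
      Polynomial.coe_C, Polynomial.coe_C, Polynomial.coe_pow, Polynomial.coe_X, Polynomial.coe_one]
  rw [← e]
  exact h

private theorem ea_coeff_zero (a b : ℤ) : (eaInv a b).coeff 0 = 1 := by
  rw [PowerSeries.coeff_zero_eq_constantCoeff_apply, eaInv_const]

private theorem ea_coeff_one (a b : ℤ) : (eaInv a b).coeff 1 = a := by
  have h := congrArg (PowerSeries.coeff 1) (ea_mul a b)
  have h2 : (PowerSeries.coeff 1) ((1 - PowerSeries.C a * PowerSeries.X
      + PowerSeries.C b * PowerSeries.X ^ 2) * eaInv a b)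
      = (eaInv a b).coeff 1 - a * (eaInv a b).coeff 0 := by
    have e : (1 - PowerSeries.C a * PowerSeries.X
      + PowerSeries.C b * PowerSeries.X ^ 2) * eaInv a b
      = eaInv a b - PowerSeries.C a * (PowerSeries.X * eaInv a b)
        + PowerSeries.C b * (PowerSeries.X * (PowerSeries.X * eaInv a b)) := by ring
    rw [e]
    simp only [map_add, map_sub, PowerSeries.coeff_C_mul]
    rw [show (1 : ℕ) = 0 + 1 from rfl, PowerSeries.coeff_succ_X_mul, PowerSeries.coeff_succ_X_mul,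
      PowerSeries.coeff_zero_X_mul]
    ring
  rw [h2, ea_coeff_zero] at h
  rw [PowerSeries.coeff_one] at h
  simp at h
  linarith

private theorem ea_coeff_succ (a b : ℤ) (j : ℕ) :
    (eaInv a b).coeff (j + 2) = a * (eaInv a b).coeff (j + 1) - b * (eaInv a b).coeff j := by
  have h := congrArg (PowerSeries.coeff (j + 2)) (ea_mul a b)
  have h2 : (PowerSeries.coeff (j + 2)) ((1 - PowerSeries.C a * PowerSeries.X
      + PowerSeries.C b * PowerSeries.X ^ 2) * eaInv a b)
      = (eaInv a b).coeff (j + 2) - a * (eaInv a b).coeff (j + 1)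
        + b * (eaInv a b).coeff j := by
    have e : (1 - PowerSeries.C a * PowerSeries.X
      + PowerSeries.C b * PowerSeries.X ^ 2) * eaInv a b
      = eaInv a b - PowerSeries.C a * (PowerSeries.X * eaInv a b)
        + PowerSeries.C b * (PowerSeries.X * (PowerSeries.X * eaInv a b)) := by ring
    rw [e]
    simp only [map_add, map_sub, PowerSeries.coeff_C_mul]
    rw [show j + 2 = (j + 1) + 1 from rfl, PowerSeries.coeff_succ_X_mul,
      PowerSeries.coeff_succ_X_mul, PowerSeries.coeff_succ_X_mul]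
  rw [h2, PowerSeries.coeff_one] at h
  simp at h
  linarith

private theorem ea_coeff_bound (q : ℕ) (a b : ℤ) (ha : |a| ≤ q) (hb : |b| ≤ q) (j : ℕ) :
    |(eaInv a b).coeff j| ≤ ((q : ℤ) + 1) ^ j ∧
    |(eaInv a b).coeff (j + 1)| ≤ ((q : ℤ) + 1) ^ (j + 1) := by
  induction j with
  | zero =>
    refine ⟨?_, ?_⟩
    · rw [ea_coeff_zero]; simp
    · rw [zero_add, ea_coeff_one]; simp; linarith
  | succ j ih =>
    refine ⟨ih.2, ?_⟩
    rw [show j + 1 + 1 = j + 2 from rfl, ea_coeff_succ]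
    have hq : (0 : ℤ) ≤ q := by positivity
    have hp : (0 : ℤ) ≤ ((q : ℤ) + 1) ^ j := by positivity
    calc |a * (eaInv a b).coeff (j + 1) - b * (eaInv a b).coeff j|
        ≤ |a * (eaInv a b).coeff (j + 1)| + |b * (eaInv a b).coeff j| := abs_sub _ _
      _ = |a| * |(eaInv a b).coeff (j + 1)| + |b| * |(eaInv a b).coeff j| := by
          rw [abs_mul, abs_mul]
      _ ≤ q * ((q : ℤ) + 1) ^ (j + 1) + q * ((q : ℤ) + 1) ^ j := by
          gcongr
          · exact ih.2
          · exact ih.1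
      _ ≤ ((q : ℤ) + 1) ^ (j + 2) := by
          have : ((q : ℤ) + 1) ^ (j + 2) - (q * ((q : ℤ) + 1) ^ (j + 1) + q * ((q : ℤ) + 1) ^ j)
            = ((q : ℤ) + 1) ^ j := by ring
          linarith

/-- The local sum. -/
private theorem ea_local_value (q : ℕ) (a b : ℤ) (ha : |a| ≤ q) (hb : |b| ≤ q) (z : ℂ)
    (hz : ((q : ℝ) + 1) * ‖z‖ < 1) :
    HasSum (fun j : ℕ => ((eaInv a b).coeff j : ℂ) * z ^ j)
      (1 - (a : ℂ) * z + (b : ℂ) * z ^ 2)⁻¹ := by
  have hbd : ∀ j : ℕ, ‖((eaInv a b).coeff j : ℂ) * z ^ j‖ ≤ (((q : ℝ) + 1) * ‖z‖) ^ j := by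
    intro j
    rw [norm_mul, norm_pow, mul_pow]
    gcongr
    have h := (ea_coeff_bound q a b ha hb j).1
    rw [Complex.norm_intCast]
    exact_mod_cast h
  have hsm : Summable (fun j : ℕ => ((eaInv a b).coeff j : ℂ) * z ^ j) := by
    refine Summable.of_norm_bounded (g := fun j => (((q : ℝ) + 1) * ‖z‖) ^ j) ?_ hbd
    exact summable_geometric_of_lt_one (by positivity) hz
  set F := ∑' j : ℕ, ((eaInv a b).coeff j : ℂ) * z ^ j with hF
  have h0 : F = 1 + ∑' j : ℕ, ((eaInv a b).coeff (j + 1) : ℂ) * z ^ (j + 1) := by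
    rw [hF, hsm.tsum_eq_zero_add]
    rw [ea_coeff_zero]; simp
  have hsm1 : Summable (fun j : ℕ => ((eaInv a b).coeff (j + 1) : ℂ) * z ^ (j + 1)) :=
    (summable_nat_add_iff 1).2 hsm
  have h1 : ∑' j : ℕ, ((eaInv a b).coeff (j + 1) : ℂ) * z ^ (j + 1)
      = a * z + ∑' j : ℕ, ((eaInv a b).coeff (j + 2) : ℂ) * z ^ (j + 2) := by
    rw [hsm1.tsum_eq_zero_add]
    rw [zero_add, ea_coeff_one, pow_one]
  have h2 : ∑' j : ℕ, ((eaInv a b).coeff (j + 2) : ℂ) * z ^ (j + 2)
      = a * z * (∑' j : ℕ, ((eaInv a b).coeff (j + 1) : ℂ) * z ^ (j + 1)) - b * z ^ 2 * F := by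
    rw [hF, ← tsum_mul_left, ← tsum_mul_left, ← Summable.tsum_sub]
    · congr 1
      funext j
      rw [ea_coeff_succ]
      push_cast
      ring
    · exact hsm1.mul_left _
    · exact hsm.mul_left _
  have h3 : F * (1 - (a : ℂ) * z + (b : ℂ) * z ^ 2) = 1 := by
    have e1 : ∑' j : ℕ, ((eaInv a b).coeff (j + 1) : ℂ) * z ^ (j + 1) = F - 1 := by
      rw [h0]; ring
    have e2 : F = 1 + (a * z + (a * z * (F - 1) - b * z ^ 2 * F)) := by
      rw [← e1, ← h2, ← h1]; exact h0
    linear_combination e2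
  have h4 : F = (1 - (a : ℂ) * z + (b : ℂ) * z ^ 2)⁻¹ := eq_inv_of_mul_eq_one_left h3
  rw [← h4]
  exact hsm.hasSum

private theorem ea_maj_value (q : ℕ) (z : ℂ) (hz : ((q : ℝ) + 1) * ‖z‖ < 1) :
    HasSum (fun j : ℕ => ((eaMaj q).coeff j : ℂ) * z ^ j) (1 - ((q : ℂ) + 1) * z)⁻¹ := by
  have h : HasSum (fun j : ℕ => (((q : ℂ) + 1) * z) ^ j) (1 - ((q : ℂ) + 1) * z)⁻¹ := by
    apply hasSum_geometric_of_norm_lt_one
    rw [norm_mul]
    refine lt_of_le_of_lt ?_ hz
    gcongr
    calc ‖(q : ℂ) + 1‖ ≤ ‖(q : ℂ)‖ + ‖(1 : ℂ)‖ := norm_add_le _ _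
      _ = (q : ℝ) + 1 := by simp
  convert h using 1
  funext j
  rw [eaMaj_coeff, mul_pow]
  push_cast
  ring

/-- Numerical bounds. -/
private theorem ea_num (q : ℕ) (hq : 2 ≤ q) (σ : ℝ) (hσ : 2 < σ) :
    ((q : ℝ) + 1) * (q : ℝ) ^ (-σ) ≤ 3 / 4 ∧ ((q : ℝ) + 1) * (q : ℝ) ^ (-σ) ≤ 2 * (q : ℝ) ^ (1 - σ)
    := by
  have hq' : (2 : ℝ) ≤ q := by exact_mod_cast hq
  have hq0 : (0 : ℝ) < q := by linarith
  have h1 : (q : ℝ) ^ (-σ) ≤ (q : ℝ) ^ (-2 : ℝ) :=
    Real.rpow_le_rpow_of_exponent_le (by linarith) (by linarith)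
  have h2 : (q : ℝ) ^ (-2 : ℝ) = ((q : ℝ) ^ 2)⁻¹ := by
    rw [Real.rpow_neg hq0.le]; norm_cast
  refine ⟨?_, ?_⟩
  · calc ((q : ℝ) + 1) * (q : ℝ) ^ (-σ) ≤ ((q : ℝ) + 1) * ((q : ℝ) ^ 2)⁻¹ := by
          rw [← h2]; gcongr
      _ ≤ 3 / 4 := by
          rw [← div_eq_mul_inv, div_le_iff₀ (by positivity)]
          nlinarith
  · have h3 : (q : ℝ) ^ (1 - σ) = q * (q : ℝ) ^ (-σ) := by
      rw [sub_eq_add_neg, Real.rpow_add hq0, Real.rpow_one]
    rw [h3]
    have h4 : (0 : ℝ) < (q : ℝ) ^ (-σ) := Real.rpow_pos_of_pos hq0 _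
    nlinarith

private theorem ea_norm (q : ℕ) (hq : 2 ≤ q) (s : ℂ) :
    ‖(q : ℂ) ^ (-s)‖ = (q : ℝ) ^ (-s.re) := by
  rw [Complex.norm_natCast_cpow_of_pos (by omega)]
  simp

private theorem ea_inv_le (x : ℝ) (h0 : 0 ≤ x) (h1 : x ≤ 3 / 4) :
    (1 - x)⁻¹ ≤ Real.exp (4 * x) := by
  have h2 : (1 - x)⁻¹ ≤ 1 + 4 * x := by
    rw [inv_le_iff_one_le_mul₀ (by linarith)]
    nlinarith
  have h3 := Real.add_one_le_exp (4 * x)
  linarith

section main

variable {ι : Type*} (q : ι → ℕ)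

private theorem ea_cast_mul (A B : ArithmeticFunction ℤ) (s x y : ℂ)
    (hA : LSeriesHasSum ((↑) ∘ A) s x) (hB : LSeriesHasSum ((↑) ∘ B) s y) :
    LSeriesHasSum ((↑) ∘ (A * B : ArithmeticFunction ℤ)) s (x * y) := by
  have h := ArithmeticFunction.LSeriesHasSum_mul (f := (A : ArithmeticFunction ℂ))
    (g := (B : ArithmeticFunction ℂ)) (s := s) (a := x) (b := y) hA hB
  rw [← ArithmeticFunction.intCoe_mul] at h
  exact h

private theorem ea_finprod (f : ι → PowerSeries ℤ) (s : ℂ) (F : ι → ℂ)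
    (h : ∀ i, LSeriesHasSum ((↑) ∘ (ArithmeticFunction.ofPowerSeries (q i) (f i))) s (F i))
    (S : Finset ι) :
    LSeriesHasSum ((↑) ∘ (∏ i ∈ S, ArithmeticFunction.ofPowerSeries (q i) (f i) :
      ArithmeticFunction ℤ)) s (∏ i ∈ S, F i) := by
  classical
  induction S using Finset.induction_on with
  | empty =>
    rw [Finset.prod_empty, Finset.prod_empty]
    have h1 : LSeriesHasSum LSeries.delta s 1 := by
      have : LSeries LSeries.delta s = 1 := by rw [LSeries_delta]; rfl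
      unfold LSeriesHasSum
      have h2 : Summable (LSeries.term LSeries.delta s) := by
        have h3 : LSeries.term LSeries.delta s = fun n => if n = 1 then 1 else 0 := by
          funext n; exact LSeries.term_delta s n
        rw [h3]
        exact (hasSum_ite_eq 1 (1 : ℂ)).summable
      rw [← this]
      exact h2.hasSum
    convert h1 using 1
    funext n
    simp only [Function.comp_apply, ArithmeticFunction.one_apply, LSeries.delta]
    split_ifs <;> simp
  | insert i S hi ih =>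
    rw [Finset.prod_insert hi, Finset.prod_insert hi]
    exact ea_cast_mul _ _ _ _ _ (h i) ih

private theorem ea_ofPS_nonneg {q : ℕ} (hq : 1 < q) (f : PowerSeries ℤ)
    (hf : ∀ j, 0 ≤ f.coeff j) (n : ℕ) : 0 ≤ ArithmeticFunction.ofPowerSeries q f n := by
  rw [ArithmeticFunction.ofPowerSeries_apply hq]
  by_cases h : ∃ k, q ^ k = n
  · obtain ⟨k, rfl⟩ := h
    rw [(Nat.pow_right_injective hq).extend_apply]
    exact hf k
  · rw [Function.extend_apply' _ _ _ h]; simp

private theorem ea_ofPS_abs_le {q : ℕ} (hq : 1 < q) (f g : PowerSeries ℤ)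
    (hf : ∀ j, |f.coeff j| ≤ g.coeff j) (n : ℕ) :
    |ArithmeticFunction.ofPowerSeries q f n| ≤ ArithmeticFunction.ofPowerSeries q g n := by
  rw [ArithmeticFunction.ofPowerSeries_apply hq, ArithmeticFunction.ofPowerSeries_apply hq]
  by_cases h : ∃ k, q ^ k = n
  · obtain ⟨k, rfl⟩ := h
    rw [(Nat.pow_right_injective hq).extend_apply, (Nat.pow_right_injective hq).extend_apply]
    exact hf k
  · rw [Function.extend_apply' _ _ _ h, Function.extend_apply' _ _ _ h]; simp

/-- The partial majorant. -/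
private noncomputable def eaQ (S : Finset ι) : ArithmeticFunction ℤ :=
  ∏ i ∈ S, ArithmeticFunction.ofPowerSeries (q i) (eaMaj (q i))

variable (hq : ∀ i, 2 ≤ q i)
include hq

private theorem eaQ_nonneg (S : Finset ι) (n : ℕ) : 0 ≤ eaQ q S n := by
  classical
  induction S using Finset.induction_on generalizing n with
  | empty =>
    simp only [eaQ, Finset.prod_empty, ArithmeticFunction.one_apply]
    split_ifs <;> simp
  | insert i S hi ih =>
    unfold eaQ at ih ⊢
    rw [Finset.prod_insert hi, ArithmeticFunction.mul_apply]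
    refine Finset.sum_nonneg fun p _ => mul_nonneg ?_ (ih _)
    exact ea_ofPS_nonneg (by have := hq i; omega) _ (fun j => by rw [eaMaj_coeff]; positivity) _

private theorem eaQ_insert_le (S : Finset ι) (i : ι) [DecidableEq ι] (hi : i ∉ S) (n : ℕ) :
    eaQ q S n ≤ eaQ q (insert i S) n := by
  rcases Nat.eq_zero_or_pos n with h0 | hn
  · subst h0; simp
  have h1 : eaQ q (insert i S) n = ∑ p ∈ n.divisorsAntidiagonal,
      ArithmeticFunction.ofPowerSeries (q i) (eaMaj (q i)) p.1 * eaQ q S p.2 := by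
    unfold eaQ
    rw [Finset.prod_insert hi, ArithmeticFunction.mul_apply]
  rw [h1]
  have hmem : ((1, n) : ℕ × ℕ) ∈ n.divisorsAntidiagonal := by
    simp [Nat.mem_divisorsAntidiagonal]; omega
  have h2 := Finset.single_le_sum (f := fun p : ℕ × ℕ =>
      ArithmeticFunction.ofPowerSeries (q i) (eaMaj (q i)) p.1 * eaQ q S p.2)
    (fun p _ => mul_nonneg (ea_ofPS_nonneg (by have := hq i; omega) _
      (fun j => by rw [eaMaj_coeff]; positivity) _) (eaQ_nonneg q hq S _)) hmem
  refine le_trans (le_of_eq ?_) h2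
  simp only [ArithmeticFunction.ofPowerSeries_apply_one, eaMaj_const, one_mul]

private theorem eaQ_mono (n : ℕ) : Monotone (fun S : Finset ι => eaQ q S n) := by
  classical
  intro S T hST
  induction T using Finset.induction_on generalizing S with
  | empty =>
    have hS0 : S = ∅ := Finset.subset_empty.1 hST
    subst hS0; exact le_rfl
  | insert i T hi ih =>
    by_cases h : i ∈ S
    · have h3 : S = insert i (S.erase i) := (Finset.insert_erase h).symm
      have h4 : S.erase i ⊆ T := by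
        intro x hx
        rw [Finset.mem_erase] at hx
        have := hST hx.2
        rw [Finset.mem_insert] at this
        tauto
      -- monotonicity of the product by the same factor
      have key : ∀ m, eaQ q (S.erase i) m ≤ eaQ q T m := by
        have : ∀ (U V : Finset ι), U ⊆ V → ∀ m, eaQ q U m ≤ eaQ q V m := by
          intro U V hUV m
          obtain ⟨W, hW⟩ : ∃ W, V = U ∪ W := ⟨V, (Finset.union_eq_right.2 hUV).symm⟩
          subst hW
          clear hUV
          induction W using Finset.induction_on with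
          | empty => simp
          | insert j W hj ihW =>
            rw [Finset.union_insert]
            by_cases hjj : j ∈ U ∪ W
            · rw [Finset.insert_eq_of_mem hjj]; exact ihW
            · exact ihW.trans (eaQ_insert_le q hq _ j hjj m)
        exact this _ _ h4
      rw [h3]
      show eaQ q _ n ≤ eaQ q _ n
      unfold eaQ at key ⊢
      rw [Finset.prod_insert (Finset.notMem_erase i S), Finset.prod_insert hi,
        ArithmeticFunction.mul_apply, ArithmeticFunction.mul_apply]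
      refine Finset.sum_le_sum fun p _ => mul_le_mul_of_nonneg_left (key _) ?_
      exact ea_ofPS_nonneg (by have := hq i; omega) _ (fun j => by rw [eaMaj_coeff]; positivity) _
    · have h5 : S ⊆ T := by
        intro x hx
        have := hST hx
        rw [Finset.mem_insert] at this
        rcases this with rfl | h6
        · exact absurd hx h
        · exact h6
      exact (ih h5).trans (eaQ_insert_le q hq T i hi n)

private theorem ea_abs_le (a b : ι → ℤ) (ha : ∀ i, |a i| ≤ q i) (hb : ∀ i, |b i| ≤ q i)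
    (S : Finset ι) (n : ℕ) :
    |(∏ i ∈ S, ArithmeticFunction.ofPowerSeries (q i) (eaInv (a i) (b i)) :
      ArithmeticFunction ℤ) n| ≤ eaQ q S n := by
  classical
  induction S using Finset.induction_on generalizing n with
  | empty =>
    simp only [eaQ, Finset.prod_empty, ArithmeticFunction.one_apply]
    split_ifs <;> simp
  | insert i S hi ih =>
    unfold eaQ at ih ⊢
    rw [Finset.prod_insert hi, Finset.prod_insert hi, ArithmeticFunction.mul_apply,
      ArithmeticFunction.mul_apply]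
    refine (Finset.abs_sum_le_sum_abs _ _).trans (Finset.sum_le_sum fun p _ => ?_)
    rw [abs_mul]
    have hq1 : 1 < q i := by have := hq i; omega
    refine mul_le_mul (ea_ofPS_abs_le hq1 _ _ (fun j => ?_) _) (ih _) (abs_nonneg _) ?_
    · rw [eaMaj_coeff]
      exact (ea_coeff_bound (q i) _ _ (ha i) (hb i) j).1
    · exact ea_ofPS_nonneg hq1 _ (fun j => by rw [eaMaj_coeff]; positivity) _

omit hq in
private theorem ea_norm_term (A : ArithmeticFunction ℤ) (s : ℂ) (n : ℕ) :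
    ‖LSeries.term ((↑) ∘ A) s n‖ = |(A n : ℝ)| * (n : ℝ) ^ (-s.re) := by
  rcases Nat.eq_zero_or_pos n with h0 | hn
  · subst h0; simp
  · rw [LSeries.term_of_ne_zero (by omega), norm_div,
      Complex.norm_natCast_cpow_of_pos hn, Real.rpow_neg (by positivity)]
    simp only [Function.comp_apply]
    rw [Complex.norm_intCast]
    rfl

private theorem ea_partial_bound (σ : ℝ) (hσ : 2 < σ)
    (hsum : Summable fun i => (q i : ℝ) ^ (1 - σ)) (S : Finset ι) (N : Finset ℕ) :
    ∑ n ∈ N, (eaQ q S n : ℝ) * (n : ℝ) ^ (-σ) ≤ Real.exp (8 * ∑' i, (q i : ℝ) ^ (1 - σ)) := by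
  have hz : ∀ i, ((q i : ℝ) + 1) * ‖((q i : ℕ) : ℂ) ^ (-(σ : ℂ))‖ < 1 := by
    intro i
    rw [ea_norm _ (hq i)]
    have := (ea_num (q i) (hq i) σ hσ).1
    simp only [Complex.ofReal_re]
    linarith
  have h1 := ea_finprod q (fun i => eaMaj (q i)) (σ : ℂ)
    (fun i => (1 - ((q i : ℂ) + 1) * ((q i : ℕ) : ℂ) ^ (-(σ : ℂ)))⁻¹)
    (fun i => ea_local_hasSum (by have := hq i; omega) _ _ _ (ea_maj_value (q i) _ (hz i))) S
  have h2 : Summable (fun n : ℕ => (eaQ q S n : ℝ) * (n : ℝ) ^ (-σ)) := by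
    have h3 := h1.summable.norm
    refine h3.congr fun n => ?_
    rw [ea_norm_term]
    have := eaQ_nonneg q hq S n
    have h4 : (0 : ℝ) ≤ (eaQ q S n : ℝ) := by exact_mod_cast this
    have h5 : |((∏ i ∈ S, ArithmeticFunction.ofPowerSeries (q i) (eaMaj (q i)) :
      ArithmeticFunction ℤ) n : ℝ)| = (eaQ q S n : ℝ) := abs_of_nonneg h4
    rw [h5]
    simp
  have h6 : ((∑' n : ℕ, (eaQ q S n : ℝ) * (n : ℝ) ^ (-σ) : ℝ) : ℂ)
      = ∏ i ∈ S, (1 - ((q i : ℂ) + 1) * ((q i : ℕ) : ℂ) ^ (-(σ : ℂ)))⁻¹ := by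
    rw [← h1.tsum_eq, Complex.ofReal_tsum]
    congr 1
    funext n
    rcases Nat.eq_zero_or_pos n with h0 | hn
    · subst h0; simp
    · rw [LSeries.term_of_ne_zero (by omega), div_eq_mul_inv, ← Complex.cpow_neg]
      push_cast
      congr 1
      rw [Complex.ofReal_cpow (by positivity)]
      simp
  have h7 : ∏ i ∈ S, (1 - ((q i : ℂ) + 1) * ((q i : ℕ) : ℂ) ^ (-(σ : ℂ)))⁻¹
      = ((∏ i ∈ S, (1 - ((q i : ℝ) + 1) * (q i : ℝ) ^ (-σ))⁻¹ : ℝ) : ℂ) := by
    push_cast
    refine Finset.prod_congr rfl fun i _ => ?_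
    rw [Complex.ofReal_cpow (by positivity)]
    simp
  rw [h7] at h6
  have h8 := Complex.ofReal_injective h6
  calc ∑ n ∈ N, (eaQ q S n : ℝ) * (n : ℝ) ^ (-σ)
      ≤ ∑' n : ℕ, (eaQ q S n : ℝ) * (n : ℝ) ^ (-σ) := by
        refine h2.sum_le_tsum N fun n _ => mul_nonneg ?_ (by positivity)
        exact_mod_cast eaQ_nonneg q hq S n
    _ = ∏ i ∈ S, (1 - ((q i : ℝ) + 1) * (q i : ℝ) ^ (-σ))⁻¹ := h8
    _ ≤ ∏ i ∈ S, Real.exp (8 * (q i : ℝ) ^ (1 - σ)) := by
        refine Finset.prod_le_prod (fun i _ => ?_) fun i _ => ?_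
        · have := (ea_num (q i) (hq i) σ hσ).1
          exact inv_nonneg.2 (by linarith)
        · have h9 := ea_num (q i) (hq i) σ hσ
          refine (ea_inv_le _ (by positivity) h9.1).trans ?_
          apply Real.exp_le_exp.2
          linarith [h9.2]
    _ = Real.exp (8 * ∑ i ∈ S, (q i : ℝ) ^ (1 - σ)) := by
        rw [← Real.exp_sum, Finset.mul_sum]
    _ ≤ Real.exp (8 * ∑' i, (q i : ℝ) ^ (1 - σ)) := by
        apply Real.exp_le_exp.2
        have := hsum.sum_le_tsum S fun i _ => by positivity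
        linarith

end main

theorem hasProd_LSeries_eulerProduct {ι : Type*} (q : ι → ℕ) (hq : ∀ i, 2 ≤ q i)
    [Northcott q] (a b : ι → ℤ) (ha : ∀ i, |a i| ≤ q i) (hb : ∀ i, |b i| ≤ q i)
    (s : ℂ) (hs : 2 < s.re) (hsum : Summable fun i => (q i : ℝ) ^ (1 - s.re)) :
    HasProd (fun i => (1 - (a i : ℂ) * (q i : ℂ) ^ (-s) + (b i : ℂ) * ((q i : ℂ) ^ (-s)) ^ 2)⁻¹)
      (LSeries ((↑) ∘ (ArithmeticFunction.eulerProduct fun i =>
        ArithmeticFunction.ofPowerSeries (q i) (PowerSeries.invOfUnit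
          ((1 - Polynomial.C (a i) * X + Polynomial.C (b i) * X ^ 2 : ℤ[X]) : PowerSeries ℤ) 1)))
          s) ∧
    LSeries ((↑) ∘ (ArithmeticFunction.eulerProduct fun i =>
        ArithmeticFunction.ofPowerSeries (q i) (PowerSeries.invOfUnit
          ((1 - Polynomial.C (a i) * X + Polynomial.C (b i) * X ^ 2 : ℤ[X]) : PowerSeries ℤ) 1)))
          s ≠ 0 := by
  classical
  change HasProd _ (LSeries ((↑) ∘ (ArithmeticFunction.eulerProduct fun i =>
        ArithmeticFunction.ofPowerSeries (q i) (eaInv (a i) (b i)))) s) ∧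
    LSeries ((↑) ∘ (ArithmeticFunction.eulerProduct fun i =>
        ArithmeticFunction.ofPowerSeries (q i) (eaInv (a i) (b i)))) s ≠ 0
  set A : ArithmeticFunction ℤ := ArithmeticFunction.eulerProduct fun i =>
        ArithmeticFunction.ofPowerSeries (q i) (eaInv (a i) (b i)) with hA
  set B : ArithmeticFunction ℤ := ArithmeticFunction.eulerProduct fun i =>
        ArithmeticFunction.ofPowerSeries (q i) (eaMaj (q i)) with hB
  have hAev : ∀ n, ∀ᶠ S : Finset ι in atTop,
      (∏ i ∈ S, ArithmeticFunction.ofPowerSeries (q i) (eaInv (a i) (b i)) :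
        ArithmeticFunction ℤ) n = A n := fun n =>
    ArithmeticFunction.tendsTo_eulerProduct_ofPowerSeries q (fun i => eaInv (a i) (b i))
      (fun i => eaInv_const _ _) n
  have hBev : ∀ n, ∀ᶠ S : Finset ι in atTop, eaQ q S n = B n := fun n =>
    ArithmeticFunction.tendsTo_eulerProduct_ofPowerSeries q (fun i => eaMaj (q i))
      (fun i => eaMaj_const _) n
  have hQB : ∀ (S : Finset ι) n, eaQ q S n ≤ B n := by
    intro S n
    obtain ⟨T, hT⟩ := (hBev n).exists_forall_of_atTop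
    have h1 := hT (S ∪ T) (Finset.subset_union_right)
    rw [← h1]
    exact eaQ_mono q hq n Finset.subset_union_left
  set σ := s.re with hσdef
  -- summability of the majorant
  have hBs : Summable (fun n : ℕ => (B n : ℝ) * (n : ℝ) ^ (-σ)) := by
    have hB0 : ∀ n, (0 : ℝ) ≤ (B n : ℝ) := fun n => by
      exact_mod_cast (eaQ_nonneg q hq ∅ n).trans (hQB ∅ n)
    refine summable_of_sum_le (c := Real.exp (8 * ∑' i, (q i : ℝ) ^ (1 - σ)))
      (fun n => mul_nonneg (hB0 n) (by positivity)) fun N => ?_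
    have h1 : ∀ᶠ S : Finset ι in atTop, ∀ n ∈ N, eaQ q S n = B n :=
      (Finset.eventually_all N).2 fun n _ => hBev n
    obtain ⟨S, hS⟩ := h1.exists
    calc ∑ n ∈ N, (B n : ℝ) * (n : ℝ) ^ (-σ) = ∑ n ∈ N, (eaQ q S n : ℝ) * (n : ℝ) ^ (-σ) :=
          Finset.sum_congr rfl fun n hn => by rw [hS n hn]
      _ ≤ _ := ea_partial_bound q hq σ hs hsum S N
  have hz : ∀ i, ((q i : ℝ) + 1) * ‖((q i : ℕ) : ℂ) ^ (-s)‖ < 1 := by
    intro i
    rw [ea_norm _ (hq i)]
    have := (ea_num (q i) (hq i) σ hs).1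
    linarith
  have hfin : ∀ S : Finset ι, LSeriesHasSum ((↑) ∘ (∏ i ∈ S,
      ArithmeticFunction.ofPowerSeries (q i) (eaInv (a i) (b i)) : ArithmeticFunction ℤ)) s
      (∏ i ∈ S, (1 - (a i : ℂ) * (q i : ℂ) ^ (-s) + (b i : ℂ) * ((q i : ℂ) ^ (-s)) ^ 2)⁻¹) :=
    fun S => ea_finprod q (fun i => eaInv (a i) (b i)) s _
      (fun i => ea_local_hasSum (by have := hq i; omega) _ _ _
        (ea_local_value (q i) _ _ (ha i) (hb i) _ (hz i))) S
  have hP : HasProd
      (fun i => (1 - (a i : ℂ) * (q i : ℂ) ^ (-s) + (b i : ℂ) * ((q i : ℂ) ^ (-s)) ^ 2)⁻¹)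
      (LSeries ((↑) ∘ A) s) := by
    unfold HasProd
    have h1 : Tendsto (fun S : Finset ι => ∑' n : ℕ, LSeries.term ((↑) ∘ (∏ i ∈ S,
      ArithmeticFunction.ofPowerSeries (q i) (eaInv (a i) (b i)) : ArithmeticFunction ℤ)) s n)
      atTop (𝓝 (∑' n : ℕ, LSeries.term ((↑) ∘ A) s n)) := by
      refine tendsto_tsum_of_dominated_convergence hBs ?_ (Eventually.of_forall ?_)
      · intro n
        refine tendsto_const_nhds.congr' ?_
        filter_upwards [hAev n] with S hS
        simp only [LSeries.term_def, Function.comp_apply, hS]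
      · intro S n
        rw [ea_norm_term]
        refine mul_le_mul_of_nonneg_right ?_ (by positivity)
        have h2 := (ea_abs_le q hq a b ha hb S n).trans (hQB S n)
        exact_mod_cast h2
    refine h1.congr fun S => ?_
    exact (hfin S).tsum_eq
  refine ⟨hP, ?_⟩
  -- non-vanishing
  have hle : ∀ i, ‖-((a i : ℂ) * (q i : ℂ) ^ (-s)) + (b i : ℂ) * ((q i : ℂ) ^ (-s)) ^ 2‖
      ≤ ((q i : ℝ) + 1) * (q i : ℝ) ^ (-σ) := by
    intro i
    have hqi : (2 : ℝ) ≤ q i := by exact_mod_cast hq i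
    have e1 : ‖(q i : ℂ) ^ (-s)‖ = (q i : ℝ) ^ (-σ) := ea_norm _ (hq i) s
    have e2 : ‖(a i : ℂ)‖ ≤ q i := by
      rw [Complex.norm_intCast]; exact_mod_cast ha i
    have e3 : ‖(b i : ℂ)‖ ≤ q i := by
      rw [Complex.norm_intCast]; exact_mod_cast hb i
    have e4 := (ea_num (q i) (hq i) σ hs).1
    have e5 : (0 : ℝ) < (q i : ℝ) ^ (-σ) := Real.rpow_pos_of_pos (by linarith) _
    set t := (q i : ℝ) ^ (-σ) with ht
    have e6 : (q i : ℝ) * t ≤ 1 := by nlinarith
    calc ‖-((a i : ℂ) * (q i : ℂ) ^ (-s)) + (b i : ℂ) * ((q i : ℂ) ^ (-s)) ^ 2‖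
        ≤ ‖-((a i : ℂ) * (q i : ℂ) ^ (-s))‖ + ‖(b i : ℂ) * ((q i : ℂ) ^ (-s)) ^ 2‖ :=
          norm_add_le _ _
      _ = ‖(a i : ℂ)‖ * t + ‖(b i : ℂ)‖ * t ^ 2 := by
          rw [norm_neg, norm_mul, norm_mul, norm_pow, e1]
      _ ≤ q i * t + q i * t ^ 2 := by gcongr
      _ ≤ ((q i : ℝ) + 1) * t := by nlinarith
  have hns : Summable fun i =>
      ‖-((a i : ℂ) * (q i : ℂ) ^ (-s)) + (b i : ℂ) * ((q i : ℂ) ^ (-s)) ^ 2‖ := by
    refine Summable.of_nonneg_of_le (fun i => norm_nonneg _)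
      (fun i => (hle i).trans (ea_num (q i) (hq i) σ hs).2) (hsum.mul_left 2)
  have hM := multipliable_one_add_of_summable hns
  obtain ⟨p, hp⟩ := hM
  have h1 := hp.mul hP
  have h2 : (fun i => (1 + (-((a i : ℂ) * (q i : ℂ) ^ (-s))
      + (b i : ℂ) * ((q i : ℂ) ^ (-s)) ^ 2)) *
      (1 - (a i : ℂ) * (q i : ℂ) ^ (-s) + (b i : ℂ) * ((q i : ℂ) ^ (-s)) ^ 2)⁻¹)
      = fun _ => 1 := by
    funext i
    have e : 1 + (-((a i : ℂ) * (q i : ℂ) ^ (-s)) + (b i : ℂ) * ((q i : ℂ) ^ (-s)) ^ 2)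
      = 1 - (a i : ℂ) * (q i : ℂ) ^ (-s) + (b i : ℂ) * ((q i : ℂ) ^ (-s)) ^ 2 := by ring
    rw [e]
    apply mul_inv_cancel₀
    rw [← e]
    intro h0
    have h3 : -((a i : ℂ) * (q i : ℂ) ^ (-s)) + (b i : ℂ) * ((q i : ℂ) ^ (-s)) ^ 2 = -1 := by
      linear_combination h0
    have h4 := (hle i).trans (ea_num (q i) (hq i) σ hs).1
    rw [h3] at h4
    norm_num at h4
  rw [h2] at h1
  have h3 := h1.unique hasProd_one
  intro h0
  rw [h0, mul_zero] at h3
  exact zero_ne_one h3

end Pool.Agent.Lib.MP_1a91b9_nt
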