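import Pool.Agent.Lib.MP_1a91b9_nt.Residue

/-!
# Convergence of the sum over primes of a power of the norm
-/

set_option autoImplicit false

namespace Pool.Agent.Lib.MP_1a91b9_nt
open IsDedekindDomain NumberField Polynomial IntermediateField
open Filter Topology

universe u

section
variable {K : Type*} [Field K] [NumberField K]

variable (K) in
/-- The number of ideals of norm `n`. -/
private noncomputable def smCount (n : ℕ) : ℕ := Nat.card {I : Ideal (𝓞 K) // Ideal.absNorm I = n}

variable (K) in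
private theorem sm_tendsto : ∃ l : ℝ, Tendsto (fun n : ℕ =>
    (∑ k ∈ Finset.Icc 1 n, (smCount K k : ℝ)) / n) atTop (𝓝 l) := by
  classical
  refine ⟨dedekindZeta_residue K, ?_⟩
  refine ((Ideal.tendsto_norm_le_div_atTop₀ K).comp tendsto_natCast_atTop_atTop).congr fun n => ?_
  simp only [Function.comp_apply, Nat.cast_le, ← Nat.cast_sum]
  congr
  unfold smCount
  rw [← add_left_inj 1, ← Ideal.card_norm_le_eq_card_norm_le_add_one,
    show Finset.Icc 1 n = Finset.Ioc 0 n from Finset.Icc_succ_left_eq_Ioc _ _,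
    show 1 = Nat.card {I : Ideal (𝓞 K) // Ideal.absNorm I = 0} by simp [Ideal.absNorm_eq_zero_iff],
    Finset.sum_Ioc_add_eq_sum_Icc (n.zero_le),
    ← Finset.card_preimage_eq_sum_card_image_eq (fun k _ => Ideal.finite_setOfPred_absNorm_eq k)]
  simp [Set.coe_eq_subtype]

variable (K) in
private theorem sm_summable (t : ℝ) (ht : 1 < t) :
    Summable fun n : ℕ => (smCount K n : ℝ) * (n : ℝ) ^ (-t) := by
  obtain ⟨l, hl⟩ := sm_tendsto K
  have hO : (fun n : ℕ => ∑ k ∈ Finset.Icc 1 n, (smCount K k : ℝ)) =O[atTop]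
      fun n : ℕ => (n : ℝ) ^ (1 : ℝ) := by
    have h1 : (fun n : ℕ => (∑ k ∈ Finset.Icc 1 n, (smCount K k : ℝ)) / n) =O[atTop]
      fun _ : ℕ => (1 : ℝ) := hl.isBigO_one ℝ
    have h2 := h1.mul (Asymptotics.isBigO_refl (fun n : ℕ => (n : ℝ)) atTop)
    refine (h2.congr' ?_ ?_)
    · filter_upwards [eventually_ne_atTop 0] with n hn
      have : (n : ℝ) ≠ 0 := by exact_mod_cast hn
      field_simp
    · filter_upwards with n
      simp
  have h := LSeriesSummable_of_sum_norm_bigO_and_nonneg (s := (t : ℂ)) hO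
    (fun n => Nat.cast_nonneg _) zero_le_one (by simpa using ht)
  have h3 := h.norm
  have h4 : Summable fun n : ℕ => if n = 0 then (0 : ℝ) else (smCount K n : ℝ) * (n : ℝ) ^ (-t) := by
    refine h3.congr fun n => ?_
    rw [LSeries.term_def]
    split_ifs with h0
    · simp
    · rw [norm_div, Complex.norm_natCast_cpow_of_pos (Nat.pos_of_ne_zero h0)]
      simp [Real.rpow_neg, div_eq_mul_inv]
  refine (summable_congr_cofinite ?_).2 h4
  have : ∀ᶠ n : ℕ in cofinite, n ≠ 0 := by
    rw [Nat.cofinite_eq_atTop]; exact eventually_ne_atTop 0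
  filter_upwards [this] with n hn
  rw [if_neg hn]

theorem summable_nrm (t : ℝ) (ht : 1 < t) :
    Summable fun w : HeightOneSpectrum (𝓞 K) => (nrm w : ℝ) ^ (-t) := by
  classical
  have hs := sm_summable K t ht
  refine summable_of_sum_le (c := ∑' n : ℕ, (smCount K n : ℝ) * (n : ℝ) ^ (-t))
    (fun w => by positivity) fun u => ?_
  have hcard : ∀ n : ℕ, ((u.filter fun w => nrm w = n).card : ℝ) ≤ smCount K n := by
    intro n
    have hfin : Finite {I : Ideal (𝓞 K) // Ideal.absNorm I = n} :=
      (Ideal.finite_setOfPred_absNorm_eq n).to_subtype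
    have h1 : (u.filter fun w => nrm w = n).card ≤ smCount K n := by
      unfold smCount
      rw [← Fintype.card_coe, ← Nat.card_eq_fintype_card]
      refine Nat.card_le_card_of_injective
        (fun w : {w // w ∈ u.filter fun w => nrm w = n} =>
          (⟨w.1.asIdeal, by rw [← nrm_eq]; exact (Finset.mem_filter.1 w.2).2⟩ :
            {I : Ideal (𝓞 K) // Ideal.absNorm I = n})) ?_
      intro w w' h
      exact Subtype.ext (HeightOneSpectrum.ext (congrArg Subtype.val h))
    exact_mod_cast h1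
  calc ∑ w ∈ u, (nrm w : ℝ) ^ (-t)
      = ∑ n ∈ u.image nrm, ∑ w ∈ u.filter (fun w => nrm w = n), (nrm w : ℝ) ^ (-t) :=
        (Finset.sum_fiberwise_of_maps_to (fun w hw => Finset.mem_image_of_mem _ hw) _).symm
    _ = ∑ n ∈ u.image nrm, ((u.filter fun w => nrm w = n).card : ℝ) * (n : ℝ) ^ (-t) := by
        refine Finset.sum_congr rfl fun n _ => ?_
        rw [Finset.sum_congr rfl (g := fun _ => (n : ℝ) ^ (-t)), Finset.sum_const, nsmul_eq_mul]
        intro w hw
        rw [(Finset.mem_filter.1 hw).2]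
    _ ≤ ∑ n ∈ u.image nrm, (smCount K n : ℝ) * (n : ℝ) ^ (-t) :=
        Finset.sum_le_sum fun n _ => mul_le_mul_of_nonneg_right (hcard n) (by positivity)
    _ ≤ _ := hs.sum_le_tsum _ fun n _ => by positivity
end

end Pool.Agent.Lib.MP_1a91b9_nt
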