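import Pool.Agent.Lib.MP_1a91b9_nt.Shape
import Pool.Agent.Lib.MP_1a91b9_nt.EulerAbs
import Pool.Agent.Lib.MP_1a91b9_nt.Residue
import Pool.Agent.Lib.MP_1a91b9_nt.Summable

/-!
# The Euler product of the L-series of a Weierstrass curve over a number field
-/

set_option autoImplicit false

namespace Pool.Agent.Lib.MP_1a91b9_nt
open IsDedekindDomain NumberField Polynomial IntermediateField
open Filter Topology

universe u

section
variable {K : Type*} [Field K] [NumberField K]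

private theorem locPoly_shape (W : WeierstrassCurve K) (w : HeightOneSpectrum (𝓞 K)) :
    ∃ a b : ℤ, locPoly W w = 1 - Polynomial.C a * X + Polynomial.C b * X ^ 2 ∧
      |a| ≤ nrm w ∧ |b| ≤ nrm w ∧ (nrm w : ℤ) ^ 2 - a * nrm w + b ≠ 0 := by
  have := finite_residue w
  exact localPolynomial_shape (w.adicCompletionIntegers K) (W.baseChange (w.adicCompletion K))

private theorem two_le_nrm (w : HeightOneSpectrum (𝓞 K)) : 2 ≤ nrm w := by
  have := finite_residue w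
  exact Finite.one_lt_card

private theorem aeval_shape (a b : ℤ) (z : ℂ) :
    aeval z (1 - Polynomial.C a * X + Polynomial.C b * X ^ 2 : ℤ[X])
      = 1 - (a : ℂ) * z + (b : ℂ) * z ^ 2 := by
  simp

private theorem euler_main (W : WeierstrassCurve K) {s : ℂ} (hs : 2 < s.re) :
    HasProd (fun w => fac W w s) (W.LSeries s) ∧ W.LSeries s ≠ 0 := by
  choose a b hab ha hb _ using fun w => locPoly_shape W w
  have : Northcott (nrm : HeightOneSpectrum (𝓞 K) → ℕ) := northcott_nrm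
  have hsum : Summable fun w : HeightOneSpectrum (𝓞 K) => (nrm w : ℝ) ^ (1 - s.re) := by
    have h := summable_nrm (K := K) (s.re - 1) (by linarith)
    simpa [neg_sub] using h
  have h := hasProd_LSeries_eulerProduct nrm two_le_nrm a b ha hb s hs hsum
  have e1 : W.LFunction = ArithmeticFunction.eulerProduct fun i =>
        ArithmeticFunction.ofPowerSeries (nrm i) (PowerSeries.invOfUnit
          ((1 - Polynomial.C (a i) * X + Polynomial.C (b i) * X ^ 2 : ℤ[X]) : PowerSeries ℤ) 1) := by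
    unfold WeierstrassCurve.LFunction
    congr 1
    funext w
    rw [← hab w]
    rfl
  have e2 : (fun w => fac W w s) = fun i => (1 - (a i : ℂ) * (nrm i : ℂ) ^ (-s)
      + (b i : ℂ) * ((nrm i : ℂ) ^ (-s)) ^ 2)⁻¹ := by
    funext w
    unfold fac
    rw [hab w, aeval_shape]
  unfold WeierstrassCurve.LSeries
  rw [e1, e2]
  exact h

theorem hasProd_fac (W : WeierstrassCurve K) {s : ℂ} (hs : 2 < s.re) :
    HasProd (fun w => fac W w s) (W.LSeries s) := (euler_main W hs).1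

theorem LSeries_ne_zero (W : WeierstrassCurve K) {s : ℂ} (hs : 2 < s.re) :
    W.LSeries s ≠ 0 := (euler_main W hs).2

/-- meromorphy and order of a single Euler factor -/
theorem fac_meromorphic (W : WeierstrassCurve K) (w : HeightOneSpectrum (𝓞 K)) :
    MeromorphicOn (fac W w) Set.univ ∧ meromorphicOrderAt (fac W w) 1 = 0 := by
  obtain ⟨a, b, hab, ha, hb, hne⟩ := locPoly_shape W w
  have hq : 2 ≤ nrm w := two_le_nrm w
  have hq0 : (nrm w : ℂ) ≠ 0 := by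
    have : nrm w ≠ 0 := by omega
    exact_mod_cast this
  have hfun : fac W w = fun s : ℂ => (1 - (a : ℂ) * (nrm w : ℂ) ^ (-s)
      + (b : ℂ) * ((nrm w : ℂ) ^ (-s)) ^ 2)⁻¹ := by
    funext s
    unfold fac
    rw [hab, aeval_shape]
  have hcp : ∀ s : ℂ, AnalyticAt ℂ (fun s : ℂ => (nrm w : ℂ) ^ (-s)) s := by
    intro s
    have h1 : (fun s : ℂ => (nrm w : ℂ) ^ (-s)) = fun s : ℂ => Complex.exp (Complex.log (nrm w) * (-s)) := by
      funext s
      rw [Complex.cpow_def_of_ne_zero hq0]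
    rw [h1]
    fun_prop
  have han : ∀ s : ℂ, AnalyticAt ℂ (fun s : ℂ => 1 - (a : ℂ) * (nrm w : ℂ) ^ (-s)
      + (b : ℂ) * ((nrm w : ℂ) ^ (-s)) ^ 2) s := by
    intro s
    have := hcp s
    exact (analyticAt_const.sub (analyticAt_const.mul this)).add (analyticAt_const.mul (this.pow 2))
  have hone : (1 - (a : ℂ) * (nrm w : ℂ) ^ (-(1 : ℂ)) + (b : ℂ) * ((nrm w : ℂ) ^ (-(1 : ℂ))) ^ 2) ≠ 0 := by
    rw [Complex.cpow_neg, Complex.cpow_one]
    intro h0
    apply hne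
    have h1 : ((nrm w : ℂ)) ^ 2 - a * nrm w + b = 0 := by
      field_simp at h0
      linear_combination h0
    exact_mod_cast h1
  refine ⟨?_, ?_⟩
  · intro s _
    rw [hfun]
    exact (han s).meromorphicAt.inv
  · rw [hfun]
    have h2 : meromorphicOrderAt (fun s : ℂ => 1 - (a : ℂ) * (nrm w : ℂ) ^ (-s)
      + (b : ℂ) * ((nrm w : ℂ) ^ (-s)) ^ 2) 1 = 0 := by
      rw [(han 1).meromorphicOrderAt_eq, (han 1).analyticOrderAt_eq_zero.2 hone]
      rfl
    have h3 := meromorphicOrderAt_inv (f := fun s : ℂ => 1 - (a : ℂ) * (nrm w : ℂ) ^ (-s)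
      + (b : ℂ) * ((nrm w : ℂ) ^ (-s)) ^ 2) (x := 1)
    rw [h2, neg_zero] at h3
    exact h3

theorem fac_ne_zero (W : WeierstrassCurve K) (w : HeightOneSpectrum (𝓞 K)) {s : ℂ}
    (hs : 2 < s.re) : fac W w s ≠ 0 := by
  obtain ⟨a, b, hab, ha, hb, hne⟩ := locPoly_shape W w
  have hq : 2 ≤ nrm w := two_le_nrm w
  have hqr : (2 : ℝ) ≤ nrm w := by exact_mod_cast hq
  have hqpos : (0 : ℝ) < nrm w := by linarith
  unfold fac
  rw [hab, aeval_shape]
  apply inv_ne_zero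
  intro h0
  set t : ℝ := (nrm w : ℝ) ^ (-s.re) with ht
  have e1 : ‖(nrm w : ℂ) ^ (-s)‖ = t := by
    rw [Complex.norm_natCast_cpow_of_pos (by omega)]
    simp [ht]
  have h1 : t ≤ ((nrm w : ℝ) ^ 2)⁻¹ := by
    have h2 : (nrm w : ℝ) ^ (-2 : ℝ) = ((nrm w : ℝ) ^ 2)⁻¹ := by
      rw [Real.rpow_neg hqpos.le]; norm_cast
    rw [← h2]
    exact Real.rpow_le_rpow_of_exponent_le (by linarith) (by linarith)
  have htpos : 0 < t := Real.rpow_pos_of_pos hqpos _
  have h3 : (nrm w : ℝ) * t ≤ 1 / 2 := by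
    calc (nrm w : ℝ) * t ≤ nrm w * ((nrm w : ℝ) ^ 2)⁻¹ := by gcongr
      _ = (nrm w : ℝ)⁻¹ := by field_simp
      _ ≤ 1 / 2 := by
        rw [inv_le_comm₀ hqpos (by norm_num)]
        norm_num; exact hq
  have h4 : t ≤ 1 / 4 := by nlinarith
  have e2 : ‖(a : ℂ)‖ ≤ nrm w := by
    rw [Complex.norm_intCast]; exact_mod_cast ha
  have e3 : ‖(b : ℂ)‖ ≤ nrm w := by
    rw [Complex.norm_intCast]; exact_mod_cast hb
  have h5 : (1 : ℂ) = (a : ℂ) * (nrm w : ℂ) ^ (-s) - (b : ℂ) * ((nrm w : ℂ) ^ (-s)) ^ 2 := by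
    linear_combination h0
  have h6 : (1 : ℝ) ≤ ‖(a : ℂ)‖ * t + ‖(b : ℂ)‖ * t ^ 2 := by
    calc (1 : ℝ) = ‖(1 : ℂ)‖ := by simp
      _ = ‖(a : ℂ) * (nrm w : ℂ) ^ (-s) - (b : ℂ) * ((nrm w : ℂ) ^ (-s)) ^ 2‖ := by rw [← h5]
      _ ≤ ‖(a : ℂ) * (nrm w : ℂ) ^ (-s)‖ + ‖(b : ℂ) * ((nrm w : ℂ) ^ (-s)) ^ 2‖ := norm_sub_le _ _
      _ = _ := by rw [norm_mul, norm_mul, norm_pow, e1]
  have h7 : ‖(a : ℂ)‖ * t + ‖(b : ℂ)‖ * t ^ 2 ≤ nrm w * t + nrm w * t ^ 2 := by gcongr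
  nlinarith
end

end Pool.Agent.Lib.MP_1a91b9_nt
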