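import Pool.Agent.Lib.MP_1a91b9_nt.Defs

/-!
# JOB SELECT: parameters with prescribed exact valuations
-/

set_option autoImplicit false

namespace Pool.Agent.Lib.MP_1a91b9_nt

open IsDedekindDomain NumberField Polynomial IntermediateField

universe u

section Select

variable {F : Type u} [Field F] [NumberField F]

/-- A nonconstant polynomial takes a non-unit value at some integral multiple of `N`. -/
theorem select_exists_nonunit (T : (𝓞 F)[X]) (hd : T.natDegree ≠ 0) (N : 𝓞 F) (hN : N ≠ 0) :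
    ∃ j : ℕ, ¬ IsUnit (T.eval (N * (j : 𝓞 F))) := by
  by_contra hcon
  push Not at hcon
  have hnorm : ∀ j : ℕ, ∏ σ : F →ₐ[ℚ] ℂ, ‖σ ((T.eval (N * (j : 𝓞 F)) : 𝓞 F) : F)‖ = 1 := by
    intro j
    have h1 := (NumberField.isUnit_iff_norm).mp (hcon j)
    have h2 := Algebra.norm_eq_prod_embeddings (K := ℚ) (L := F) (E := ℂ)
      ((T.eval (N * (j : 𝓞 F)) : 𝓞 F) : F)
    rw [← norm_prod, ← h2]
    rw [RingOfIntegers.coe_norm] at h1
    have h3 : ‖(algebraMap ℚ ℂ) ((Algebra.norm ℚ) ((T.eval (N * (j : 𝓞 F)) : 𝓞 F) : F))‖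
        = ((|(Algebra.norm ℚ) ((T.eval (N * (j : 𝓞 F)) : 𝓞 F) : F)| : ℚ) : ℝ) := by
      simp
    rw [h3, h1]
    simp
  have htend : ∀ σ : F →ₐ[ℚ] ℂ, ∀ᶠ j : ℕ in Filter.atTop,
      1 < ‖σ ((T.eval (N * (j : 𝓞 F)) : 𝓞 F) : F)‖ := by
    intro σ
    set φ : 𝓞 F →+* ℂ := (σ : F →+* ℂ).comp (algebraMap (𝓞 F) F) with hφ
    have hinj : Function.Injective φ := by
      rw [hφ]
      exact (σ : F →+* ℂ).injective.comp (FaithfulSMul.algebraMap_injective (𝓞 F) F)
    have hval : ∀ j : ℕ, σ ((T.eval (N * (j : 𝓞 F)) : 𝓞 F) : F)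
        = (T.map φ).eval (φ N * (j : ℂ)) := by
      intro j
      have : σ ((T.eval (N * (j : 𝓞 F)) : 𝓞 F) : F) = φ (T.eval (N * (j : 𝓞 F))) := rfl
      rw [this, ← Polynomial.eval_map_apply]
      simp
    have hdeg : 0 < (T.map φ).degree := by
      rw [Polynomial.degree_map_eq_of_injective hinj]
      exact Polynomial.natDegree_pos_iff_degree_pos.mp (Nat.pos_of_ne_zero hd)
    have hz : Filter.Tendsto (fun j : ℕ => ‖φ N * (j : ℂ)‖) Filter.atTop Filter.atTop := by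
      have h1 : ∀ j : ℕ, ‖φ N * (j : ℂ)‖ = ‖φ N‖ * (j : ℝ) := by
        intro j
        rw [norm_mul]
        simp
      simp_rw [h1]
      have hpos : 0 < ‖φ N‖ := by
        rw [norm_pos_iff]
        exact (map_ne_zero_iff φ hinj).mpr hN
      exact Filter.Tendsto.const_mul_atTop hpos tendsto_natCast_atTop_atTop
    have := (T.map φ).tendsto_norm_atTop hdeg hz
    filter_upwards [this.eventually_gt_atTop 1] with j hj
    rw [hval j]
    exact hj
  obtain ⟨j, hj⟩ := (Filter.eventually_all.mpr htend).exists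
  have hne : (Finset.univ : Finset (F →ₐ[ℚ] ℂ)).Nonempty := by
    rw [Finset.univ_nonempty_iff]
    apply Fintype.card_pos_iff.mp
    rw [AlgHom.card ℚ F ℂ]
    exact Module.finrank_pos
  have h1 : ∏ _σ : F →ₐ[ℚ] ℂ, (1 : ℝ) < ∏ σ : F →ₐ[ℚ] ℂ, ‖σ ((T.eval (N * (j : 𝓞 F)) : 𝓞 F) : F)‖ :=
    Finset.prod_lt_prod_of_nonempty (fun _ _ => one_pos) (fun σ _ => hj σ) hne
  rw [hnorm j] at h1
  simp at h1

/-- A prime away from `N` and `α` and a parameter where `T` has exact valuation one. -/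
theorem select_exists_exact (T : (𝓞 F)[X]) (h0 : T.coeff 0 = 1) (hd : T.natDegree ≠ 0)
    (N : 𝓞 F) (hN : N ≠ 0)
    (hNT : ∀ (P : Ideal (𝓞 F)) [P.IsPrime] (t : 𝓞 F), T.eval t ∈ P →
      (derivative T).eval t ∈ P → N ∈ P) (α : 𝓞 F) (hα : α ≠ 0) :
    ∃ (p : HeightOneSpectrum (𝓞 F)) (t : 𝓞 F), N ∉ p.asIdeal ∧ α ∉ p.asIdeal ∧
      T.eval t ∈ p.asIdeal ∧ T.eval t ∉ p.asIdeal ^ 2 := by
  obtain ⟨j, hj⟩ := select_exists_nonunit T hd (N * α) (mul_ne_zero hN hα)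
  set x : 𝓞 F := N * α * (j : 𝓞 F) with hx
  obtain ⟨P, hPmax, hPx⟩ := exists_max_ideal_of_mem_nonunits (a := T.eval x) hj
  have hPbot : P ≠ ⊥ := Ring.ne_bot_of_isMaximal_of_not_isField hPmax
    (RingOfIntegers.not_isField F)
  have hNα : N * α ∉ P := by
    intro h
    have hxP : x ∈ P := by
      rw [hx]
      exact P.mul_mem_right _ h
    have hdiv : x - 0 ∣ T.eval x - T.eval 0 := Polynomial.sub_dvd_eval_sub x 0 T
    rw [sub_zero, ← Polynomial.coeff_zero_eq_eval_zero, h0] at hdiv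
    have h1 : T.eval x - 1 ∈ P := P.mem_of_dvd hdiv hxP
    have h2 : (1 : 𝓞 F) ∈ P := by
      have := P.sub_mem hPx h1
      simpa using this
    exact hPmax.ne_top ((Ideal.eq_top_iff_one P).mpr h2)
  have hPprime : P.IsPrime := hPmax.isPrime
  let p : HeightOneSpectrum (𝓞 F) := ⟨P, hPprime, hPbot⟩
  have hNP : N ∉ P := fun h => hNα (P.mul_mem_right _ h)
  have hαP : α ∉ P := fun h => hNα (P.mul_mem_left _ h)
  by_cases hsq : T.eval x ∈ P ^ 2
  · have hder : (derivative T).eval x ∉ P := fun h => hNP (hNT P x hPx h)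
    obtain ⟨π, hπ, hπ2⟩ := Ideal.exists_mem_pow_notMem_pow_succ P hPbot hPmax.ne_top 1
    rw [pow_one] at hπ
    refine ⟨p, x + π, hNP, hαP, ?_, ?_⟩
    · obtain ⟨c, hc⟩ : π ∣ T.eval (x + π) - T.eval x := by
        have := Polynomial.sub_dvd_eval_sub (x + π) x T
        simpa using this
      have h1 : T.eval (x + π) = T.eval x + π * c := by
        rw [← hc]
        ring
      change T.eval (x + π) ∈ P
      rw [h1]
      exact P.add_mem hPx (P.mul_mem_right _ hπ)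
    · change T.eval (x + π) ∉ P ^ 2
      intro hmem
      obtain ⟨s, hs⟩ := Polynomial.binomExpansion T x π
      rw [hs] at hmem
      have hπsq : s * π ^ 2 ∈ P ^ 2 := (P ^ 2).mul_mem_left _ (Ideal.pow_mem_pow hπ 2)
      have h3 : (derivative T).eval x * π ∈ P ^ 2 := by
        have h4 := (P ^ 2).sub_mem ((P ^ 2).sub_mem hmem hπsq) hsq
        have h5 : T.eval x + (derivative T).eval x * π + s * π ^ 2 - s * π ^ 2 - T.eval x
            = (derivative T).eval x * π := by ring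
        rwa [h5] at h4
      have h6 := (p.intValuation_le_pow_iff_mem ((derivative T).eval x * π) 2).mpr h3
      have h7 : p.intValuation ((derivative T).eval x) = 1 :=
        p.intValuation_eq_one_iff.mpr hder
      rw [map_mul, h7, one_mul] at h6
      exact hπ2 ((p.intValuation_le_pow_iff_mem π 2).mp h6)
  · exact ⟨p, x, hNP, hαP, hPx, hsq⟩

theorem select_param (T₁ T₂ : (𝓞 F)[X])
    (h1 : T₁.coeff 0 = 1) (h2 : T₂.coeff 0 = 1) (hd1 : T₁.natDegree ≠ 0) (hd2 : T₂.natDegree ≠ 0)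
    (N : 𝓞 F) (hN : N ≠ 0)
    (hN1 : ∀ (P : Ideal (𝓞 F)) [P.IsPrime] (t : 𝓞 F), T₁.eval t ∈ P →
      (derivative T₁).eval t ∈ P → N ∈ P)
    (hN2 : ∀ (P : Ideal (𝓞 F)) [P.IsPrime] (t : 𝓞 F), T₂.eval t ∈ P →
      (derivative T₂).eval t ∈ P → N ∈ P)
    (v : HeightOneSpectrum (𝓞 F)) (k : ℕ) :
    ∃ (t : 𝓞 F) (p q : HeightOneSpectrum (𝓞 F)), t ≠ 0 ∧ t ∈ v.asIdeal ^ k ∧
      N ∉ p.asIdeal ∧ N ∉ q.asIdeal ∧
      T₁.eval t ∈ p.asIdeal ∧ T₁.eval t ∉ p.asIdeal ^ 2 ∧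
      T₂.eval t ∈ q.asIdeal ∧ T₂.eval t ∉ q.asIdeal ^ 2 := by
  obtain ⟨α, hαv, hα⟩ := Submodule.exists_mem_ne_zero_of_ne_bot v.ne_bot
  obtain ⟨p, t1, hNp, hαp, hp1, hp2⟩ := select_exists_exact T₁ h1 hd1 N hN hN1 α hα
  obtain ⟨β, hβp, hβ⟩ := Submodule.exists_mem_ne_zero_of_ne_bot p.ne_bot
  obtain ⟨q, t2, hNq, hαβq, hq1, hq2⟩ :=
    select_exists_exact T₂ h2 hd2 N hN hN2 (α * β) (mul_ne_zero hα hβ)
  have hpv : p.asIdeal ≠ v.asIdeal := fun h => hαp (h ▸ hαv)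
  have hqv : q.asIdeal ≠ v.asIdeal := fun h => hαβq (q.asIdeal.mul_mem_right _ (h ▸ hαv))
  have hqp : q.asIdeal ≠ p.asIdeal := fun h => hαβq (q.asIdeal.mul_mem_left _ (h ▸ hβp))
  obtain ⟨t, ht⟩ := IsDedekindDomain.exists_forall_sub_mem_ideal (s := Finset.univ)
    (![v.asIdeal, p.asIdeal, q.asIdeal] : Fin 3 → Ideal (𝓞 F)) (![k, 2, 2] : Fin 3 → ℕ)
    (by
      intro i _
      fin_cases i
      · exact v.prime
      · exact p.prime
      · exact q.prime)
    (by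
      intro i _ j _ hij
      fin_cases i <;> fin_cases j <;>
        first
        | exact absurd rfl hij
        | exact hpv
        | exact hqv
        | exact hqp
        | exact hpv.symm
        | exact hqv.symm
        | exact hqp.symm)
    (fun i => (![0, t1, t2] : Fin 3 → 𝓞 F) i)
  have htv : t ∈ v.asIdeal ^ k := by
    have := ht 0 (Finset.mem_univ _)
    simpa using this
  have htp : t - t1 ∈ p.asIdeal ^ 2 := by
    have := ht 1 (Finset.mem_univ _)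
    simpa using this
  have htq : t - t2 ∈ q.asIdeal ^ 2 := by
    have := ht 2 (Finset.mem_univ _)
    simpa using this
  have hTp : T₁.eval t - T₁.eval t1 ∈ p.asIdeal ^ 2 :=
    Ideal.mem_of_dvd _ (Polynomial.sub_dvd_eval_sub t t1 T₁) htp
  have hTq : T₂.eval t - T₂.eval t2 ∈ q.asIdeal ^ 2 :=
    Ideal.mem_of_dvd _ (Polynomial.sub_dvd_eval_sub t t2 T₂) htq
  have hle : ∀ (w : HeightOneSpectrum (𝓞 F)), w.asIdeal ^ 2 ≤ w.asIdeal := fun w =>
    Ideal.pow_le_self two_ne_zero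
  have hp1' : T₁.eval t ∈ p.asIdeal := by
    have := p.asIdeal.add_mem (hle p hTp) hp1
    simpa using this
  have hp2' : T₁.eval t ∉ p.asIdeal ^ 2 := by
    intro h
    apply hp2
    have := (p.asIdeal ^ 2).sub_mem h hTp
    simpa using this
  have hq1' : T₂.eval t ∈ q.asIdeal := by
    have := q.asIdeal.add_mem (hle q hTq) hq1
    simpa using this
  have hq2' : T₂.eval t ∉ q.asIdeal ^ 2 := by
    intro h
    apply hq2
    have := (q.asIdeal ^ 2).sub_mem h hTq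
    simpa using this
  refine ⟨t, p, q, ?_, htv, hNp, hNq, hp1', hp2', hq1', hq2'⟩
  rintro rfl
  rw [← Polynomial.coeff_zero_eq_eval_zero, h1] at hp1'
  exact p.isPrime.ne_top ((Ideal.eq_top_iff_one _).mpr hp1')

end Select

end Pool.Agent.Lib.MP_1a91b9_nt
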