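import Pool.Agent.Lib.MP_1a91b9_nt.Defs
import Pool.Agent.Lib.MP_1a91b9_nt.Select

/-!
# Three abscissas with prescribed square classes: the case `A B ≠ 0`
-/

set_option autoImplicit false

namespace Pool.Agent.Lib.MP_1a91b9_nt

open IsDedekindDomain NumberField Polynomial IntermediateField
open scoped WithZero

universe u

section
variable {F : Type u} [Field F] [NumberField F]

/-- An element of odd valuation is not a square. -/
theorem not_isSquare_of_odd_valuation (p : HeightOneSpectrum (𝓞 F)) (z : F) (m : ℤ)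
    (h : p.valuation F z = WithZero.exp (2 * m + 1)) : ¬ IsSquare z := by
  rintro ⟨w, rfl⟩
  rw [map_mul] at h
  have hw : p.valuation F w ≠ 0 := by
    intro h0
    rw [h0, zero_mul] at h
    exact WithZero.exp_ne_zero h.symm
  obtain ⟨a, ha⟩ : ∃ a : ℤ, p.valuation F w = WithZero.exp a :=
    ⟨_, (WithZero.exp_log hw).symm⟩
  rw [ha, ← WithZero.exp_add, WithZero.exp_inj] at h
  omega

/-- The valuation of an element exactly divisible by `p`. -/
theorem valuation_of_mem_notMem_sq (p : HeightOneSpectrum (𝓞 F)) (T : 𝓞 F)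
    (h1 : T ∈ p.asIdeal) (h2 : T ∉ p.asIdeal ^ 2) :
    p.valuation F (algebraMap (𝓞 F) F T) = WithZero.exp (-1) := by
  have h0 : T ≠ 0 := by
    rintro rfl
    exact h2 (Ideal.zero_mem _)
  rw [HeightOneSpectrum.valuation_of_algebraMap]
  have hw : p.intValuation T ≠ 0 := p.intValuation_ne_zero T h0
  obtain ⟨a, ha⟩ : ∃ a : ℤ, p.intValuation T = WithZero.exp a :=
    ⟨_, (WithZero.exp_log hw).symm⟩
  rw [← pow_one p.asIdeal, ← p.intValuation_le_pow_iff_mem T 1, ha, WithZero.exp_le_exp] at h1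
  rw [← p.intValuation_le_pow_iff_mem T 2, ha, WithZero.exp_le_exp] at h2
  rw [ha, WithZero.exp_inj]
  push_cast at h1 h2
  omega

theorem valuation_of_notMem (p : HeightOneSpectrum (𝓞 F)) (T : 𝓞 F) (h : T ∉ p.asIdeal) :
    p.valuation F (algebraMap (𝓞 F) F T) = 1 :=
  (p.valuation_eq_one_iff_notMem).mpr h

/-- A natural number bounding `c` from above and `b ≠ 0` from below. -/
theorem exists_exp_bound (c b : WithZero (Multiplicative ℤ)) (hb : b ≠ 0) :
    ∃ m : ℕ, c ≤ WithZero.exp (m : ℤ) ∧ WithZero.exp (-(m : ℤ)) ≤ b := by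
  obtain ⟨a, rfl⟩ : ∃ a : ℤ, b = WithZero.exp a := ⟨_, (WithZero.exp_log hb).symm⟩
  by_cases hc : c = 0
  · refine ⟨a.natAbs, ?_, ?_⟩
    · rw [hc]; exact zero_le
    · rw [WithZero.exp_le_exp]; omega
  · obtain ⟨d, rfl⟩ : ∃ d : ℤ, c = WithZero.exp d := ⟨_, (WithZero.exp_log hc).symm⟩
    refine ⟨a.natAbs + d.natAbs, ?_, ?_⟩
    · rw [WithZero.exp_le_exp, Nat.cast_add]; omega
    · rw [WithZero.exp_le_exp, Nat.cast_add]; omega

/-- The two parametrising polynomials. -/
noncomputable def famT1 (A B : 𝓞 F) : (𝓞 F)[X] := 1 + C (A ^ 5) * X ^ 4 - C (B * A ^ 6) * X ^ 6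

noncomputable def famT2 (A B : 𝓞 F) : (𝓞 F)[X] := 1 - C (A * B) * X ^ 2

omit [NumberField F] in
theorem eval_famT1 (A B t : 𝓞 F) :
    (famT1 A B).eval t = 1 + A ^ 5 * t ^ 4 - B * A ^ 6 * t ^ 6 := by
  simp [famT1]

omit [NumberField F] in
theorem eval_famT2 (A B t : 𝓞 F) : (famT2 A B).eval t = 1 - A * B * t ^ 2 := by
  simp [famT2]

omit [NumberField F] in
theorem eval_derivative_famT1 (A B t : 𝓞 F) :
    (derivative (famT1 A B)).eval t = 2 * (A ^ 5 * (t ^ 3 * (2 - 3 * A * B * t ^ 2))) := by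
  simp only [famT1, derivative_sub, derivative_add, derivative_one, derivative_C_mul_X_pow,
    eval_sub, eval_add, eval_mul, eval_C, eval_pow, eval_X, eval_zero]
  push_cast
  ring

omit [NumberField F] in
theorem eval_derivative_famT2 (A B t : 𝓞 F) :
    (derivative (famT2 A B)).eval t = -(2 * A * B * t) := by
  simp only [famT2, derivative_sub, derivative_one, derivative_C_mul_X_pow,
    eval_sub, eval_mul, eval_C, eval_pow, eval_X, eval_zero]
  push_cast
  ring

theorem family_ne_int (A B : 𝓞 F) (hA : A ≠ 0) (hB : B ≠ 0)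
    (hD : 4 * A ^ 3 + 27 * B ^ 2 ≠ 0) (v : HeightOneSpectrum (𝓞 F))
    (c : WithZero (Multiplicative ℤ)) :
    ∃ X : Fin 3 → F, (∀ i, c < v.valuation F (X i)) ∧
      (∀ i, ¬ IsSquare (X i ^ 3 + (A : F) * X i + (B : F))) ∧
      IsSquare ((X 0 ^ 3 + (A : F) * X 0 + (B : F)) * (X 1 ^ 3 + (A : F) * X 1 + (B : F)) *
        (X 2 ^ 3 + (A : F) * X 2 + (B : F))) := by
  classical
  have hvB : v.valuation F (algebraMap (𝓞 F) F B) ≠ 0 := by
    rw [Valuation.ne_zero_iff]
    exact (map_ne_zero_iff _ (FaithfulSMul.algebraMap_injective (𝓞 F) F)).mpr hB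
  obtain ⟨m, hcm, hbm⟩ := exists_exp_bound c _ hvB
  set k : ℕ := m + 1 with hk
  set N : 𝓞 F := 2 * (A * (B * (4 * A ^ 3 + 27 * B ^ 2))) with hNdef
  have hN : N ≠ 0 := mul_ne_zero two_ne_zero (mul_ne_zero hA (mul_ne_zero hB hD))
  have h1 : (famT1 A B).coeff 0 = 1 := by
    rw [coeff_zero_eq_eval_zero, eval_famT1]; ring
  have h2 : (famT2 A B).coeff 0 = 1 := by
    rw [coeff_zero_eq_eval_zero, eval_famT2]; ring
  have hd1 : (famT1 A B).natDegree ≠ 0 := by
    have h6 : (famT1 A B).coeff 6 = -(B * A ^ 6) := by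
      simp only [famT1, coeff_sub, coeff_add, coeff_one, coeff_C_mul, coeff_X_pow]
      norm_num
    have : (famT1 A B).coeff 6 ≠ 0 := by
      rw [h6]
      exact neg_ne_zero.mpr (mul_ne_zero hB (pow_ne_zero _ hA))
    have := le_natDegree_of_ne_zero this
    omega
  have hd2 : (famT2 A B).natDegree ≠ 0 := by
    have h6 : (famT2 A B).coeff 2 = -(A * B) := by
      simp only [famT2, coeff_sub, coeff_one, coeff_C_mul, coeff_X_pow]
      norm_num
    have : (famT2 A B).coeff 2 ≠ 0 := by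
      rw [h6]
      exact neg_ne_zero.mpr (mul_ne_zero hA hB)
    have := le_natDegree_of_ne_zero this
    omega
  have hN1 : ∀ (P : Ideal (𝓞 F)) [P.IsPrime] (t : 𝓞 F), (famT1 A B).eval t ∈ P →
      (derivative (famT1 A B)).eval t ∈ P → N ∈ P := by
    intro P hP t ht ht'
    rw [eval_famT1] at ht
    rw [eval_derivative_famT1] at ht'
    rcases hP.mem_or_mem ht' with h | h
    · exact P.mul_mem_right _ h
    rcases hP.mem_or_mem h with h | h
    · have := hP.mem_of_pow_mem _ h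
      rw [hNdef]
      exact P.mul_mem_left _ (P.mul_mem_right _ this)
    rcases hP.mem_or_mem h with h | h
    · have h3 := hP.mem_of_pow_mem _ h
      have h4 : (1 : 𝓞 F) = (1 + A ^ 5 * t ^ 4 - B * A ^ 6 * t ^ 6)
        - (A ^ 5 * t ^ 3 - B * A ^ 6 * t ^ 5) * t := by ring
      have h5 : (1 : 𝓞 F) ∈ P := by
        rw [h4]
        exact P.sub_mem ht (P.mul_mem_left _ h3)
      exact absurd ((Ideal.eq_top_iff_one P).mpr h5) hP.ne_top
    · have h3 : 4 * A ^ 3 + 27 * B ^ 2 ∈ P := by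
        have : 4 * A ^ 3 + 27 * B ^ 2 = 27 * B ^ 2 * (1 + A ^ 5 * t ^ 4 - B * A ^ 6 * t ^ 6)
          + A ^ 3 * (2 - 3 * A * B * t ^ 2) * (3 * (A * B * t ^ 2) + 1) *
            (2 - 3 * A * B * t ^ 2) := by ring
        rw [this]
        exact P.add_mem (P.mul_mem_left _ ht) (P.mul_mem_left _ h)
      rw [hNdef]
      exact P.mul_mem_left _ (P.mul_mem_left _ (P.mul_mem_left _ h3))
  have hN2 : ∀ (P : Ideal (𝓞 F)) [P.IsPrime] (t : 𝓞 F), (famT2 A B).eval t ∈ P →
      (derivative (famT2 A B)).eval t ∈ P → N ∈ P := by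
    intro P hP t ht ht'
    rw [eval_famT2] at ht
    rw [eval_derivative_famT2] at ht'
    have h3 : (2 : 𝓞 F) = 2 * (1 - A * B * t ^ 2) - t * (-(2 * A * B * t)) := by ring
    have h4 : (2 : 𝓞 F) ∈ P := by
      rw [h3]
      exact P.sub_mem (P.mul_mem_left _ ht) (P.mul_mem_left _ ht')
    exact P.mul_mem_right _ h4
  obtain ⟨τ, p, q, hτ, hτv, hNp, hNq, hT1, hT1', hT2, hT2'⟩ :=
    select_param (famT1 A B) (famT2 A B) h1 h2 hd1 hd2 N hN hN1 hN2 v k
  rw [eval_famT1] at hT1 hT1'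
  rw [eval_famT2] at hT2 hT2'
  -- consequences of `N ∉ p`, `N ∉ q`
  have hAp : A ∉ p.asIdeal := fun h => hNp (by
    rw [hNdef]; exact Ideal.mul_mem_left _ _ (Ideal.mul_mem_right _ _ h))
  have hAq : A ∉ q.asIdeal := fun h => hNq (by
    rw [hNdef]; exact Ideal.mul_mem_left _ _ (Ideal.mul_mem_right _ _ h))
  have hBq : B ∉ q.asIdeal := fun h => hNq (by
    rw [hNdef]; exact Ideal.mul_mem_left _ _ (Ideal.mul_mem_left _ _ (Ideal.mul_mem_right _ _ h)))
  have hone : ∀ w : HeightOneSpectrum (𝓞 F), (1 : 𝓞 F) ∉ w.asIdeal := fun w h =>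
    w.isPrime.ne_top ((Ideal.eq_top_iff_one _).mpr h)
  have hτp : τ ∉ p.asIdeal := by
    intro h
    apply hone p
    have h4 : (1 : 𝓞 F) = (1 + A ^ 5 * τ ^ 4 - B * A ^ 6 * τ ^ 6)
        - (A ^ 5 * τ ^ 3 - B * A ^ 6 * τ ^ 5) * τ := by ring
    rw [h4]
    exact Ideal.sub_mem _ hT1 (Ideal.mul_mem_left _ _ h)
  have hτq : τ ∉ q.asIdeal := by
    intro h
    apply hone q
    have h4 : (1 : 𝓞 F) = (1 - A * B * τ ^ 2) + (A * B * τ) * τ := by ring
    rw [h4]
    exact Ideal.add_mem _ hT2 (Ideal.mul_mem_left _ _ h)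
  have hτv1 : τ ∈ v.asIdeal := by
    have : v.asIdeal ^ k ≤ v.asIdeal := Ideal.pow_le_self (by omega)
    exact this hτv
  -- the integral elements
  set t₀ : 𝓞 F := A * τ with ht₀
  set U : 𝓞 F := 1 - A * B * τ ^ 2 with hU
  set y₀ : 𝓞 F := -(1 + A ^ 5 * τ ^ 4 - B * A ^ 6 * τ ^ 6) with hy₀
  have hyU : y₀ + 1 = -(t₀ ^ 4 * (A * U)) := by
    rw [hy₀, ht₀, hU]; ring
  have hyt : y₀ = -(1 + A * t₀ ^ 4 - B * t₀ ^ 6) := by
    rw [hy₀, ht₀]; ring
  have ht₀0 : t₀ ≠ 0 := mul_ne_zero hA hτ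
  have hU0 : U ≠ 0 := by
    intro h
    rw [h] at hT2'
    exact hT2' (Ideal.zero_mem _)
  have hy₀0 : y₀ ≠ 0 := by
    intro h
    rw [hy₀, neg_eq_zero] at h
    rw [h] at hT1'
    exact hT1' (Ideal.zero_mem _)
  -- images in `F`
  have hinj : Function.Injective (algebraMap (𝓞 F) F) := FaithfulSMul.algebraMap_injective _ _
  set a : F := algebraMap (𝓞 F) F A with ha
  set b : F := algebraMap (𝓞 F) F B with hb
  set t : F := algebraMap (𝓞 F) F t₀ with ht
  set u : F := algebraMap (𝓞 F) F U with hu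
  set y : F := algebraMap (𝓞 F) F y₀ with hy
  have ha0 : a ≠ 0 := (map_ne_zero_iff _ hinj).mpr hA
  have ht0 : t ≠ 0 := (map_ne_zero_iff _ hinj).mpr ht₀0
  have hu0 : u ≠ 0 := (map_ne_zero_iff _ hinj).mpr hU0
  have hy0 : y ≠ 0 := (map_ne_zero_iff _ hinj).mpr hy₀0
  have hyu : y + 1 = -(t ^ 4 * (a * u)) := by
    have := congrArg (algebraMap (𝓞 F) F) hyU
    simpa using this
  have hyt' : y = -(1 + a * t ^ 4 - b * t ^ 6) := by
    have := congrArg (algebraMap (𝓞 F) F) hyt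
    simpa using this
  have hy10 : y + 1 ≠ 0 := by
    rw [hyu]
    exact neg_ne_zero.mpr (mul_ne_zero (pow_ne_zero _ ht0) (mul_ne_zero ha0 hu0))
  -- the three abscissas
  set X0 : F := -1 / t ^ 2 with hX0
  set X1 : F := b * (1 + y * (y + 1)) / (a ^ 2 * t ^ 4 * u) with hX1
  set X2 : F := X1 / y with hX2
  have hf0 : X0 ^ 3 + a * X0 + b = y / t ^ 6 := by
    rw [hX0, hyt']
    field_simp
    ring
  have hX1' : a * X1 * (y + 1) = -(b * (1 + y + y ^ 2)) := by
    rw [hX1, hyu]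
    field_simp
    linear_combination (b * y) * hyu
  have hf12 : X1 ^ 3 + a * X1 + b = y ^ 3 * (X2 ^ 3 + a * X2 + b) := by
    have h3 : y ^ 3 * (X2 ^ 3 + a * X2 + b) = X1 ^ 3 + a * y ^ 2 * X1 + b * y ^ 3 := by
      rw [hX2]
      field_simp
    rw [h3]
    linear_combination (1 - y) * hX1'
  -- valuations at `q`
  have hyq : y₀ + 1 ∈ q.asIdeal := by
    rw [hyU]
    exact Ideal.neg_mem_iff _ |>.mpr (Ideal.mul_mem_left _ _ (Ideal.mul_mem_left _ _ hT2))
  have hyq' : y₀ ∉ q.asIdeal := by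
    intro h
    apply hone q
    have : (1 : 𝓞 F) = (y₀ + 1) - y₀ := by ring
    rw [this]
    exact Ideal.sub_mem _ hyq h
  have hyv : y₀ + 1 ∈ v.asIdeal := by
    rw [hyU, ht₀]
    refine Ideal.neg_mem_iff _ |>.mpr (Ideal.mul_mem_right _ _ ?_)
    exact Ideal.pow_mem_of_mem _ (Ideal.mul_mem_left _ _ hτv1) 4 (by norm_num)
  have hyv' : y₀ ∉ v.asIdeal := by
    intro h
    apply hone v
    have : (1 : 𝓞 F) = (y₀ + 1) - y₀ := by ring
    rw [this]
    exact Ideal.sub_mem _ hyv h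
  have hZ : ∀ w : HeightOneSpectrum (𝓞 F), y₀ + 1 ∈ w.asIdeal →
      w.valuation F (1 + y * (y + 1)) = 1 := by
    intro w hw
    have h3 : 1 + y * (y + 1) = algebraMap (𝓞 F) F (1 + y₀ * (y₀ + 1)) := by
      simp [hy]
    rw [h3]
    apply valuation_of_notMem
    intro h
    apply hone w
    have : (1 : 𝓞 F) = (1 + y₀ * (y₀ + 1)) - y₀ * (y₀ + 1) := by ring
    rw [this]
    exact Ideal.sub_mem _ h (Ideal.mul_mem_left _ _ hw)
  have hvy : ∀ w : HeightOneSpectrum (𝓞 F), y₀ ∉ w.asIdeal → w.valuation F y = 1 :=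
    fun w hw => valuation_of_notMem w y₀ hw
  have htq : q.valuation F t = 1 := by
    apply valuation_of_notMem
    intro h
    rcases q.isPrime.mem_or_mem h with h | h
    · exact hAq h
    · exact hτq h
  have hqX1 : q.valuation F X1 = WithZero.exp 1 := by
    have e1 : q.valuation F u = WithZero.exp (-1) := valuation_of_mem_notMem_sq q U hT2 hT2'
    have e2 : q.valuation F a = 1 := valuation_of_notMem q A hAq
    have e3 : q.valuation F b = 1 := valuation_of_notMem q B hBq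
    rw [hX1, map_div₀, map_mul, map_mul, map_mul, map_pow, map_pow, hZ q hyq, e1, e2, e3, htq]
    simp [WithZero.exp_neg]
  have hqf1 : q.valuation F (X1 ^ 3 + a * X1 + b) = WithZero.exp 3 := by
    have e2 : q.valuation F a ≤ 1 := HeightOneSpectrum.valuation_le_one _ _
    have e3 : q.valuation F b ≤ 1 := HeightOneSpectrum.valuation_le_one _ _
    have e4 : q.valuation F (X1 ^ 3) = WithZero.exp 3 := by
      rw [map_pow, hqX1, ← WithZero.exp_nsmul]; norm_num
    have e5 : q.valuation F (a * X1 + b) < q.valuation F (X1 ^ 3) := by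
      rw [e4]
      refine lt_of_le_of_lt (Valuation.map_add _ _ _) (max_lt ?_ ?_)
      · rw [map_mul, hqX1]
        calc q.valuation F a * WithZero.exp 1 ≤ 1 * WithZero.exp 1 := by gcongr
          _ = WithZero.exp 1 := one_mul _
          _ < WithZero.exp 3 := by rw [WithZero.exp_lt_exp]; norm_num
      · refine lt_of_le_of_lt e3 ?_
        rw [← WithZero.exp_zero, WithZero.exp_lt_exp]; norm_num
    rw [add_assoc, Valuation.map_add_eq_of_lt_left _ e5, e4]
  refine ⟨![X0, X1, X2], ?_, ?_, ?_⟩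
  · -- size at `v`
    have htk : v.valuation F t ≤ WithZero.exp (-(k : ℤ)) := by
      rw [ht, ht₀, map_mul, map_mul]
      have e1 : v.valuation F (algebraMap (𝓞 F) F A) ≤ 1 := HeightOneSpectrum.valuation_le_one _ _
      have e2 : v.valuation F (algebraMap (𝓞 F) F τ) ≤ WithZero.exp (-(k : ℤ)) := by
        rw [HeightOneSpectrum.valuation_of_algebraMap]
        exact (v.intValuation_le_pow_iff_mem τ k).mpr hτv
      calc _ ≤ 1 * WithZero.exp (-(k : ℤ)) := mul_le_mul' e1 e2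
        _ = _ := one_mul _
    have htpos : 0 < v.valuation F t := by
      rw [zero_lt_iff]; exact (Valuation.ne_zero_iff _).mpr ht0
    have hupos : 0 < v.valuation F u := by
      rw [zero_lt_iff]; exact (Valuation.ne_zero_iff _).mpr hu0
    have hapos : 0 < v.valuation F a := by
      rw [zero_lt_iff]; exact (Valuation.ne_zero_iff _).mpr ha0
    have hX0v : c < v.valuation F X0 := by
      have e1 : v.valuation F X0 = (v.valuation F t ^ 2)⁻¹ := by
        rw [hX0, map_div₀, map_pow, Valuation.map_neg, map_one, one_div]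
      rw [e1]
      have e2 : v.valuation F t ^ 2 ≤ WithZero.exp (-(2 * k : ℤ)) := by
        calc v.valuation F t ^ 2 ≤ WithZero.exp (-(k : ℤ)) ^ 2 := by gcongr
          _ = _ := by rw [← WithZero.exp_nsmul]; simp
      have e3 : WithZero.exp (2 * k : ℤ) ≤ (v.valuation F t ^ 2)⁻¹ := by
        rw [le_inv_comm₀ (by simp) (pow_pos htpos 2), ← WithZero.exp_neg]
        exact e2
      refine lt_of_le_of_lt hcm (lt_of_lt_of_le ?_ e3)
      rw [WithZero.exp_lt_exp]; omega
    have hX1v : c < v.valuation F X1 := by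
      have e1 : v.valuation F X1 = v.valuation F b *
          (v.valuation F a ^ 2 * v.valuation F t ^ 4 * v.valuation F u)⁻¹ := by
        rw [hX1, map_div₀, map_mul, map_mul, map_mul, map_pow, map_pow, hZ v hyv, mul_one,
          div_eq_mul_inv]
      rw [e1]
      have ea : v.valuation F a ≤ 1 := HeightOneSpectrum.valuation_le_one _ _
      have eu : v.valuation F u ≤ 1 := HeightOneSpectrum.valuation_le_one _ _
      have e2 : v.valuation F a ^ 2 * v.valuation F t ^ 4 * v.valuation F u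
          ≤ WithZero.exp (-(4 * k : ℤ)) := by
        calc v.valuation F a ^ 2 * v.valuation F t ^ 4 * v.valuation F u
            ≤ 1 ^ 2 * WithZero.exp (-(k : ℤ)) ^ 4 * 1 := by gcongr
          _ = _ := by
            rw [one_pow, one_mul, mul_one, ← WithZero.exp_nsmul]; simp
      have e3 : WithZero.exp (4 * k : ℤ) ≤
          (v.valuation F a ^ 2 * v.valuation F t ^ 4 * v.valuation F u)⁻¹ := by
        rw [le_inv_comm₀ (by simp) (mul_pos (mul_pos (pow_pos hapos 2) (pow_pos htpos 4)) hupos),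
          ← WithZero.exp_neg]
        exact e2
      calc c ≤ WithZero.exp (m : ℤ) := hcm
        _ < WithZero.exp (-(m : ℤ)) * WithZero.exp (4 * k : ℤ) := by
          rw [← WithZero.exp_add, WithZero.exp_lt_exp]; omega
        _ ≤ _ := mul_le_mul' hbm e3
    have hX2v : c < v.valuation F X2 := by
      rw [hX2, map_div₀, hvy v hyv', div_one]
      exact hX1v
    intro i
    fin_cases i
    · exact hX0v
    · exact hX1v
    · exact hX2v
  · have n0 : ¬ IsSquare (X0 ^ 3 + a * X0 + b) := by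
      apply not_isSquare_of_odd_valuation p _ (-1)
      rw [hf0, map_div₀, map_pow]
      have e1 : p.valuation F y = WithZero.exp (-1) := by
        have := valuation_of_mem_notMem_sq p _ hT1 hT1'
        rw [hy, hy₀, map_neg, Valuation.map_neg]
        exact this
      have e2 : p.valuation F t = 1 := by
        apply valuation_of_notMem
        intro h
        rcases p.isPrime.mem_or_mem h with h | h
        · exact hAp h
        · exact hτp h
      rw [e1, e2]
      simp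
    have n1 : ¬ IsSquare (X1 ^ 3 + a * X1 + b) := by
      apply not_isSquare_of_odd_valuation q _ 1
      rw [hqf1]; norm_num
    have n2 : ¬ IsSquare (X2 ^ 3 + a * X2 + b) := by
      apply not_isSquare_of_odd_valuation q _ 1
      have := hqf1
      rw [hf12, map_mul, map_pow, hvy q hyq', one_pow, one_mul] at this
      rw [this]; norm_num
    intro i
    fin_cases i
    · exact n0
    · exact n1
    · exact n2
  · show IsSquare ((X0 ^ 3 + a * X0 + b) * (X1 ^ 3 + a * X1 + b) * (X2 ^ 3 + a * X2 + b))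
    rw [hf0, hf12]
    refine ⟨y ^ 2 * (X2 ^ 3 + a * X2 + b) / t ^ 3, ?_⟩
    field_simp

theorem family_ne (A B : F) (hA : A ≠ 0) (hB : B ≠ 0)
    (hD : 4 * A ^ 3 + 27 * B ^ 2 ≠ 0) (v : HeightOneSpectrum (𝓞 F))
    (_hv : (2 : 𝓞 F) ∈ v.asIdeal) (c : WithZero (Multiplicative ℤ)) :
    ∃ X : Fin 3 → F, (∀ i, c < v.valuation F (X i)) ∧
      (∀ i, ¬ IsSquare (X i ^ 3 + A * X i + B)) ∧
      IsSquare ((X 0 ^ 3 + A * X 0 + B) * (X 1 ^ 3 + A * X 1 + B) * (X 2 ^ 3 + A * X 2 + B)) := by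
  obtain ⟨a₁, s₁, hs₁, h₁⟩ := IsFractionRing.div_surjective (A := 𝓞 F) A
  obtain ⟨a₂, s₂, hs₂, h₂⟩ := IsFractionRing.div_surjective (A := 𝓞 F) B
  have hinj : Function.Injective (algebraMap (𝓞 F) F) := FaithfulSMul.algebraMap_injective _ _
  have hs₁0 : s₁ ≠ 0 := nonZeroDivisors.ne_zero hs₁
  have hs₂0 : s₂ ≠ 0 := nonZeroDivisors.ne_zero hs₂
  have hs₁F : algebraMap (𝓞 F) F s₁ ≠ 0 := (map_ne_zero_iff _ hinj).mpr hs₁0
  have hs₂F : algebraMap (𝓞 F) F s₂ ≠ 0 := (map_ne_zero_iff _ hinj).mpr hs₂0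
  set n : F := algebraMap (𝓞 F) F (s₁ * s₂) with hn
  have hn0 : n ≠ 0 := (map_ne_zero_iff _ hinj).mpr (mul_ne_zero hs₁0 hs₂0)
  have hnv : v.valuation F n ≤ 1 := HeightOneSpectrum.valuation_le_one _ _
  set A' : 𝓞 F := a₁ * (s₁ ^ 3 * s₂ ^ 4) with hA'
  set B' : 𝓞 F := a₂ * (s₁ ^ 6 * s₂ ^ 5) with hB'
  have eA : algebraMap (𝓞 F) F A' = n ^ 4 * A := by
    rw [hA', hn, ← h₁]
    simp only [map_mul, map_pow]
    field_simp
  have eB : algebraMap (𝓞 F) F B' = n ^ 6 * B := by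
    rw [hB', hn, ← h₂]
    simp only [map_mul, map_pow]
    field_simp
  have hA'0 : A' ≠ 0 := by
    rw [← map_ne_zero_iff _ hinj, eA]
    exact mul_ne_zero (pow_ne_zero _ hn0) hA
  have hB'0 : B' ≠ 0 := by
    rw [← map_ne_zero_iff _ hinj, eB]
    exact mul_ne_zero (pow_ne_zero _ hn0) hB
  have hD' : 4 * A' ^ 3 + 27 * B' ^ 2 ≠ 0 := by
    have e : algebraMap (𝓞 F) F (4 * A' ^ 3 + 27 * B' ^ 2)
        = n ^ 12 * (4 * A ^ 3 + 27 * B ^ 2) := by
      simp only [map_add, map_mul, map_pow, map_ofNat, eA, eB]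
      ring
    rw [← map_ne_zero_iff _ hinj, e]
    exact mul_ne_zero (pow_ne_zero _ hn0) hD
  obtain ⟨X, hX1, hX2, hX3⟩ := family_ne_int A' B' hA'0 hB'0 hD' v c
  have key : ∀ i, (X i / n ^ 2) ^ 3 + A * (X i / n ^ 2) + B
      = (X i ^ 3 + algebraMap (𝓞 F) F A' * X i + algebraMap (𝓞 F) F B') / (n ^ 3 * n ^ 3) := by
    intro i
    rw [eA, eB]
    field_simp
  refine ⟨fun i => X i / n ^ 2, ?_, ?_, ?_⟩
  · intro i
    refine lt_of_lt_of_le (hX1 i) ?_
    rw [map_div₀, map_pow]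
    have h2 : v.valuation F n ^ 2 ≤ 1 := pow_le_one₀ zero_le hnv
    have hpos : 0 < v.valuation F n ^ 2 :=
      pow_pos (zero_lt_iff.mpr ((Valuation.ne_zero_iff _).mpr hn0)) 2
    rw [le_div_iff₀ hpos]
    calc v.valuation F (X i) * v.valuation F n ^ 2 ≤ v.valuation F (X i) * 1 := by gcongr
      _ = _ := mul_one _
  · intro i hsq
    apply hX2 i
    rw [key i] at hsq
    obtain ⟨w, hw⟩ := hsq
    refine ⟨w * n ^ 3, ?_⟩
    rw [div_eq_iff (by positivity)] at hw
    rw [hw]; ring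
  · obtain ⟨w, hw⟩ := hX3
    simp only [key]
    refine ⟨w / (n ^ 3 * n ^ 3 * n ^ 3), ?_⟩
    rw [div_mul_div_comm, div_mul_div_comm, div_mul_div_comm, ← hw]
    congr 1
    ring

end

end Pool.Agent.Lib.MP_1a91b9_nt
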