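import Pool.Agent.Lib.MP_1a91b9_nt.Select

/-!
# JOB FAMILY2: three abscissas for `x^3 + A x`
-/

set_option autoImplicit false

namespace Pool.Agent.Lib.MP_1a91b9_nt

open IsDedekindDomain NumberField Polynomial IntermediateField

universe u

section Family2

variable {F : Type u} [Field F] [NumberField F]

/-- An element of exact valuation one is not a square in the fraction field. -/
theorem family2_not_isSquare (p : HeightOneSpectrum (𝓞 F)) (g : 𝓞 F) (h1 : g ∈ p.asIdeal)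
    (h2 : g ∉ p.asIdeal ^ 2) : ¬ IsSquare (algebraMap (𝓞 F) F g) := by
  rintro ⟨y, hy⟩
  have hv : p.valuation F (algebraMap (𝓞 F) F g) = p.intValuation g :=
    p.valuation_of_algebraMap g
  have hle : p.intValuation g ≤ WithZero.exp (-((1 : ℕ) : ℤ)) := by
    rw [p.intValuation_le_pow_iff_mem, pow_one]
    exact h1
  have hgt : ¬ p.intValuation g ≤ WithZero.exp (-((2 : ℕ) : ℤ)) := by
    rw [p.intValuation_le_pow_iff_mem]
    exact h2
  rw [← hv, hy, map_mul] at hle hgt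
  have hy0 : p.valuation F y ≠ 0 := by
    intro h0
    rw [h0] at hgt
    simp at hgt
  obtain ⟨m, hm⟩ : ∃ m : ℤ, WithZero.exp m = p.valuation F y := ⟨_, WithZero.exp_log hy0⟩
  rw [← hm, ← WithZero.exp_add, WithZero.exp_le_exp] at hle hgt
  push_cast at hle hgt
  omega

theorem family2_exact_mul (p : HeightOneSpectrum (𝓞 F)) (a u : 𝓞 F) (h1 : a ∈ p.asIdeal)
    (h2 : a ∉ p.asIdeal ^ 2) (hu : u ∉ p.asIdeal) :
    a * u ∈ p.asIdeal ∧ a * u ∉ p.asIdeal ^ 2 := by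
  refine ⟨p.asIdeal.mul_mem_right _ h1, fun h => h2 ?_⟩
  have h3 := (p.intValuation_le_pow_iff_mem (a * u) 2).mpr h
  rw [map_mul, p.intValuation_eq_one_iff.mpr hu, mul_one] at h3
  exact (p.intValuation_le_pow_iff_mem a 2).mp h3

theorem family2_exists_exp_gt (c : WithZero (Multiplicative ℤ)) :
    ∃ K : ℕ, c < WithZero.exp (K : ℤ) := by
  by_cases hc : c = 0
  · exact ⟨0, by rw [hc]; exact WithZero.exp_pos⟩
  · obtain ⟨m, hm⟩ : ∃ m : ℤ, WithZero.exp m = c := ⟨_, WithZero.exp_log hc⟩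
    refine ⟨(m + 1).toNat, ?_⟩
    rw [← hm, WithZero.exp_lt_exp]
    omega

/-- a prime above `2` does not contain odd integers plus elements of the prime -/
theorem family2_odd (v : HeightOneSpectrum (𝓞 F)) (hv : (2 : 𝓞 F) ∈ v.asIdeal) (x : 𝓞 F)
    (hx : x ∈ v.asIdeal) (a b : ℤ) : (a : 𝓞 F) * x + ((2 * b + 1 : ℤ) : 𝓞 F) ∉ v.asIdeal := by
  intro h
  apply v.isPrime.ne_top
  rw [Ideal.eq_top_iff_one]
  have h1 : (1 : 𝓞 F) = ((a : 𝓞 F) * x + ((2 * b + 1 : ℤ) : 𝓞 F)) - (a : 𝓞 F) * x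
      - (b : 𝓞 F) * 2 := by
    push_cast
    ring
  rw [h1]
  exact v.asIdeal.sub_mem (v.asIdeal.sub_mem h (v.asIdeal.mul_mem_left _ hx))
    (v.asIdeal.mul_mem_left _ hv)

/-- the shape of the first polynomial -/
noncomputable def family2T1 (a : 𝓞 F) : (𝓞 F)[X] := C a * X ^ 4 + 1

/-- the shape of the second polynomial -/
noncomputable def family2T2 (a b c d e : 𝓞 F) : (𝓞 F)[X] :=
  C a * X ^ 20 + C b * X ^ 16 + C c * X ^ 12 - C d * X ^ 8 + C e * X ^ 4 + 1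

theorem family2T1_eval (a t : 𝓞 F) : (family2T1 a).eval t = a * t ^ 4 + 1 := by
  simp [family2T1]

theorem family2T1_der (a t : 𝓞 F) : (derivative (family2T1 a)).eval t = a * (4 * t ^ 3) := by
  simp only [family2T1, derivative_add, derivative_one, derivative_C_mul_X_pow, add_zero,
    eval_mul, eval_C, eval_pow, eval_X]
  push_cast
  ring

theorem family2T1_coeff (a : 𝓞 F) : (family2T1 a).coeff 4 = a := by
  simp [family2T1, coeff_one]

theorem family2T2_eval (a b c d e t : 𝓞 F) : (family2T2 a b c d e).eval t =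
    a * t ^ 20 + b * t ^ 16 + c * t ^ 12 - d * t ^ 8 + e * t ^ 4 + 1 := by
  simp [family2T2]

theorem family2T2_der (a b c d e t : 𝓞 F) : (derivative (family2T2 a b c d e)).eval t =
    a * (20 * t ^ 19) + b * (16 * t ^ 15) + c * (12 * t ^ 11) - d * (8 * t ^ 7)
      + e * (4 * t ^ 3) := by
  simp only [family2T2, derivative_add, derivative_sub, derivative_one, derivative_C_mul_X_pow,
    add_zero, eval_mul, eval_C, eval_pow, eval_X, eval_add, eval_sub]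
  push_cast
  ring

theorem family2T2_coeff (a b c d e : 𝓞 F) : (family2T2 a b c d e).coeff 20 = a := by
  simp [family2T2, coeff_one, coeff_X_pow]

/-- the integral version -/
theorem family_zero_int (A : 𝓞 F) (hA : A ≠ 0)
    (v : HeightOneSpectrum (𝓞 F)) (hv : (2 : 𝓞 F) ∈ v.asIdeal)
    (c : WithZero (Multiplicative ℤ)) :
    ∃ X : Fin 3 → F, (∀ i, c < v.valuation F (X i)) ∧
      (∀ i, ¬ IsSquare (X i ^ 3 + algebraMap (𝓞 F) F A * X i)) ∧
      IsSquare ((X 0 ^ 3 + algebraMap (𝓞 F) F A * X 0) *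
        (X 1 ^ 3 + algebraMap (𝓞 F) F A * X 1) *
        (X 2 ^ 3 + algebraMap (𝓞 F) F A * X 2)) := by
  obtain ⟨K, hK⟩ := family2_exists_exp_gt c
  -- the two polynomials
  set T₁ : (𝓞 F)[X] := family2T1 (16 * A) with hT₁
  set T₂ : (𝓞 F)[X] := family2T2 (65536 * A ^ 5) (16384 * A ^ 4) (30208 * A ^ 3) (192 * A ^ 2)
    (145 * A) with hT₂
  have heval1 : ∀ t : 𝓞 F, T₁.eval t = 16 * A * t ^ 4 + 1 := fun t => family2T1_eval _ t
  have heval2 : ∀ t : 𝓞 F, T₂.eval t = 65536 * A ^ 5 * t ^ 20 + 16384 * A ^ 4 * t ^ 16 +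
      30208 * A ^ 3 * t ^ 12 - 192 * A ^ 2 * t ^ 8 + 145 * A * t ^ 4 + 1 :=
    fun t => family2T2_eval _ _ _ _ _ t
  have hder1 : ∀ t : 𝓞 F, (derivative T₁).eval t = 16 * A * (4 * t ^ 3) :=
    fun t => family2T1_der _ t
  have hder2 : ∀ t : 𝓞 F, (derivative T₂).eval t = 65536 * A ^ 5 * (20 * t ^ 19) +
      16384 * A ^ 4 * (16 * t ^ 15) + 30208 * A ^ 3 * (12 * t ^ 11) - 192 * A ^ 2 * (8 * t ^ 7) +
      145 * A * (4 * t ^ 3) := fun t => family2T2_der _ _ _ _ _ t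
  have hc1 : T₁.coeff 0 = 1 := by
    rw [Polynomial.coeff_zero_eq_eval_zero, heval1]
    ring
  have hc2 : T₂.coeff 0 = 1 := by
    rw [Polynomial.coeff_zero_eq_eval_zero, heval2]
    ring
  have hn1 : T₁.natDegree ≠ 0 := by
    have h : T₁.coeff 4 = 16 * A := family2T1_coeff _
    have h' : T₁.coeff 4 ≠ 0 := by
      rw [h]
      exact mul_ne_zero (by norm_num) hA
    have := Polynomial.le_natDegree_of_ne_zero h'
    omega
  have hn2 : T₂.natDegree ≠ 0 := by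
    have h : T₂.coeff 20 = 65536 * A ^ 5 := family2T2_coeff _ _ _ _ _
    have h' : T₂.coeff 20 ≠ 0 := by
      rw [h]
      exact mul_ne_zero (by norm_num) (pow_ne_zero 5 hA)
    have := Polynomial.le_natDegree_of_ne_zero h'
    omega
  set N : 𝓞 F := 2 * 547 * A with hNdef
  have hN : N ≠ 0 := mul_ne_zero (by norm_num) hA
  have h2N : ∀ (P : Ideal (𝓞 F)), (2 : 𝓞 F) ∈ P → N ∈ P := fun P h => by
    rw [hNdef, mul_assoc]
    exact P.mul_mem_right _ h
  have hpow2 : ∀ (P : Ideal (𝓞 F)) [P.IsPrime] (n : ℕ), (2 : 𝓞 F) ^ n ∈ P → N ∈ P :=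
    fun P _ n h => h2N P (Ideal.IsPrime.mem_of_pow_mem inferInstance n h)
  have hN1 : ∀ (P : Ideal (𝓞 F)) [P.IsPrime] (t : 𝓞 F), T₁.eval t ∈ P →
      (derivative T₁).eval t ∈ P → N ∈ P := by
    intro P _ t ht ht'
    rw [heval1] at ht
    rw [hder1] at ht'
    apply hpow2 P 2
    have : (2 : 𝓞 F) ^ 2 = 4 * (16 * A * t ^ 4 + 1) - t * (16 * A * (4 * t ^ 3)) := by ring
    rw [this]
    exact P.sub_mem (P.mul_mem_left _ ht) (P.mul_mem_left _ ht')
  have hN2 : ∀ (P : Ideal (𝓞 F)) [P.IsPrime] (t : 𝓞 F), T₂.eval t ∈ P →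
      (derivative T₂).eval t ∈ P → N ∈ P := by
    intro P _ t ht ht'
    rw [heval2] at ht
    rw [hder2] at ht'
    have hD : (2 : 𝓞 F) ^ 18 * 547 =
        (8962048 - 4601865 * (16 * A * t ^ 4) + 19762717 * (16 * A * t ^ 4) ^ 2 +
          853077 * (16 * A * t ^ 4) ^ 3 + 281135 * (16 * A * t ^ 4) ^ 4) * 16 *
        (65536 * A ^ 5 * t ^ 20 + 16384 * A ^ 4 * t ^ 16 +
          30208 * A ^ 3 * t ^ 12 - 192 * A ^ 2 * t ^ 8 + 145 * A * t ^ 4 + 1) +
        (-8454256 + 1763513 * (16 * A * t ^ 4) - 6599009 * (16 * A * t ^ 4) ^ 2 -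
          215597 * (16 * A * t ^ 4) ^ 3 - 56227 * (16 * A * t ^ 4) ^ 4) * 4 * t *
        (65536 * A ^ 5 * (20 * t ^ 19) +
          16384 * A ^ 4 * (16 * t ^ 15) + 30208 * A ^ 3 * (12 * t ^ 11) -
          192 * A ^ 2 * (8 * t ^ 7) + 145 * A * (4 * t ^ 3)) := by
      ring
    have hmem : (2 : 𝓞 F) ^ 18 * 547 ∈ P := by
      rw [hD]
      exact P.add_mem (P.mul_mem_left _ ht) (P.mul_mem_left _ ht')
    rcases Ideal.IsPrime.mem_or_mem inferInstance hmem with h | h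
    · exact hpow2 P 18 h
    · rw [hNdef]
      exact P.mul_mem_right _ (P.mul_mem_left _ h)
  obtain ⟨t, p, q, ht0, htv, hNp, hNq, hp1, hp2, hq1, hq2⟩ :=
    select_param T₁ T₂ hc1 hc2 hn1 hn2 N hN hN1 hN2 v (K + 1)
  set w : 𝓞 F := 16 * A * t ^ 4 with hw
  have hT1 : T₁.eval t = w + 1 := by rw [heval1]
  rw [hT1] at hp1 hp2
  set g₀ : 𝓞 F := T₂.eval t with hg0
  have hg0w : 16 * g₀ = w ^ 5 + 4 * w ^ 4 + 118 * w ^ 3 - 12 * w ^ 2 + 145 * w + 16 := by
    rw [hg0, heval2, hw]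
    ring
  obtain ⟨g₁, hg1⟩ : ∃ g₁ : 𝓞 F, g₁ = (w + 1) * (w ^ 2 + 18 * w + 1) := ⟨_, rfl⟩
  clear_value w g₀
  have hu1 : w ^ 2 + 18 * w + 1 ∉ p.asIdeal := by
    intro h
    apply hNp
    apply hpow2 p.asIdeal 4
    have : (2 : 𝓞 F) ^ 4 = (w + 17) * (w + 1) - (w ^ 2 + 18 * w + 1) := by ring
    rw [this]
    exact p.asIdeal.sub_mem (p.asIdeal.mul_mem_left _ hp1) h
  have hu0 : g₀ ∉ p.asIdeal := by
    intro h
    apply hNp
    apply hpow2 p.asIdeal 8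
    have : (2 : 𝓞 F) ^ 8 = (w ^ 4 + 3 * w ^ 3 + 115 * w ^ 2 - 127 * w + 272) * (w + 1)
        - 16 * g₀ := by
      rw [hg0w]
      ring
    rw [this]
    exact p.asIdeal.sub_mem (p.asIdeal.mul_mem_left _ hp1) (p.asIdeal.mul_mem_left _ h)
  obtain ⟨hg1a, hg1b⟩ := family2_exact_mul p (w + 1) (w ^ 2 + 18 * w + 1) hp1 hp2 hu1
  rw [← hg1] at hg1a hg1b
  obtain ⟨hg2a, hg2b⟩ := family2_exact_mul p _ g₀ hg1a hg1b hu0
  have hns0 : ¬ IsSquare (algebraMap (𝓞 F) F g₀) := family2_not_isSquare q g₀ hq1 hq2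
  have hns1 : ¬ IsSquare (algebraMap (𝓞 F) F g₁) := family2_not_isSquare p g₁ hg1a hg1b
  have hns2 : ¬ IsSquare (algebraMap (𝓞 F) F (g₁ * g₀)) :=
    family2_not_isSquare p (g₁ * g₀) hg2a hg2b
  -- units at `v`
  have htv1 : t ∈ v.asIdeal := Ideal.pow_le_self (Nat.succ_ne_zero K) htv
  have hwv : w ∈ v.asIdeal := by
    rw [hw]
    exact v.asIdeal.mul_mem_left _ (Ideal.pow_mem_of_mem _ htv1 4 (by norm_num))
  have hv1 : w + 1 ∉ v.asIdeal := by
    have := family2_odd v hv w hwv 1 0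
    simpa using this
  have hv2 : 3 * w - 1 ∉ v.asIdeal := by
    have := family2_odd v hv w hwv 3 (-1)
    push_cast at this
    convert this using 2
    ring
  have hv3 : w - 3 ∉ v.asIdeal := by
    have := family2_odd v hv w hwv 1 (-2)
    push_cast at this
    convert this using 2
    ring
  have hv4 : w + 5 ∉ v.asIdeal := by
    have := family2_odd v hv w hwv 1 2
    push_cast at this
    convert this using 2
    ring
  have hval1 : ∀ r : 𝓞 F, r ∉ v.asIdeal → v.valuation F (algebraMap (𝓞 F) F r) = 1 := by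
    intro r hr
    rw [v.valuation_of_algebraMap]
    exact v.intValuation_eq_one_iff.mpr hr
  have hne : ∀ r : 𝓞 F, r ∉ v.asIdeal → algebraMap (𝓞 F) F r ≠ 0 := by
    intro r hr h0
    have := hval1 r hr
    rw [h0, map_zero] at this
    exact zero_ne_one this
  -- pass to the field
  set a : F := algebraMap (𝓞 F) F A with ha
  set τ : F := algebraMap (𝓞 F) F t with hτ
  set ω : F := algebraMap (𝓞 F) F w with hω
  have hnum : ∀ n : ℕ, algebraMap (𝓞 F) F (n : 𝓞 F) = (n : F) := fun n => map_natCast _ n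
  have m1 : algebraMap (𝓞 F) F 1 = 1 := map_one _
  have m3 : algebraMap (𝓞 F) F 3 = 3 := by exact_mod_cast hnum 3
  have m4 : algebraMap (𝓞 F) F 4 = 4 := by exact_mod_cast hnum 4
  have m5 : algebraMap (𝓞 F) F 5 = 5 := by exact_mod_cast hnum 5
  have m12 : algebraMap (𝓞 F) F 12 = 12 := by exact_mod_cast hnum 12
  have m16 : algebraMap (𝓞 F) F 16 = 16 := by exact_mod_cast hnum 16
  have m18 : algebraMap (𝓞 F) F 18 = 18 := by exact_mod_cast hnum 18
  have m118 : algebraMap (𝓞 F) F 118 = 118 := by exact_mod_cast hnum 118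
  have m145 : algebraMap (𝓞 F) F 145 = 145 := by exact_mod_cast hnum 145
  have hωτ : ω = 16 * a * τ ^ 4 := by
    rw [hω, hw, ha, hτ, map_mul, map_mul, map_pow, m16]
  have hτ0 : τ ≠ 0 := by
    rw [hτ]
    exact (map_ne_zero_iff _ (FaithfulSMul.algebraMap_injective (𝓞 F) F)).mpr ht0
  have e1 : algebraMap (𝓞 F) F (w + 1) = ω + 1 := by rw [map_add, m1]
  have e2 : algebraMap (𝓞 F) F (3 * w - 1) = 3 * ω - 1 := by rw [map_sub, map_mul, m1, m3]
  have e3 : algebraMap (𝓞 F) F (w - 3) = ω - 3 := by rw [map_sub, m3]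
  have e4 : algebraMap (𝓞 F) F (w + 5) = ω + 5 := by rw [map_add, m5]
  have n1 : ω + 1 ≠ 0 := e1 ▸ hne _ hv1
  have n2 : 3 * ω - 1 ≠ 0 := e2 ▸ hne _ hv2
  have n3 : ω - 3 ≠ 0 := e3 ▸ hne _ hv3
  have n4 : ω + 5 ≠ 0 := e4 ▸ hne _ hv4
  have v1 : v.valuation F (ω + 1) = 1 := e1 ▸ hval1 _ hv1
  have v2 : v.valuation F (3 * ω - 1) = 1 := e2 ▸ hval1 _ hv2
  have v3 : v.valuation F (ω - 3) = 1 := e3 ▸ hval1 _ hv3
  have v4 : v.valuation F (ω + 5) = 1 := e4 ▸ hval1 _ hv4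
  have hG0 : algebraMap (𝓞 F) F g₀ = (ω ^ 5 + 4 * ω ^ 4 + 118 * ω ^ 3 - 12 * ω ^ 2 + 145 * ω + 16)
      / 16 := by
    have h := congrArg (algebraMap (𝓞 F) F) hg0w
    have h16 : (16 : F) ≠ 0 := by norm_num
    rw [eq_div_iff h16, mul_comm]
    rw [map_mul, map_add, map_add, map_sub, map_add, map_add, map_mul, map_mul, map_mul, map_mul,
      map_pow, map_pow, map_pow, map_pow, m4, m12, m16, m118, m145] at h
    exact h
  have hG1 : algebraMap (𝓞 F) F g₁ = (ω + 1) * (ω ^ 2 + 18 * ω + 1) := by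
    rw [hg1, map_mul, map_add, map_add, map_add, map_mul, map_pow, m1, m18]
  have hG2 : algebraMap (𝓞 F) F (g₁ * g₀) = (ω + 1) * (ω ^ 2 + 18 * ω + 1) *
      ((ω ^ 5 + 4 * ω ^ 4 + 118 * ω ^ 3 - 12 * ω ^ 2 + 145 * ω + 16) / 16) := by
    rw [map_mul, hG0, hG1]
  have haω : a = ω / (16 * τ ^ 4) := by
    rw [hωτ]
    field_simp
  let X₀ : F := ((ω + 1) / (τ * (ω - 3))) ^ 2
  let X₁ : F := (ω + 1) / (16 * τ ^ 2)
  let X₂ : F := (3 * ω - 1) ^ 2 / (τ ^ 2 * (ω + 1) * (ω + 5) ^ 2)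
  let s₀ : F := (ω + 1) / (τ ^ 3 * (ω - 3) ^ 3)
  let s₁ : F := 1 / (64 * τ ^ 3)
  let s₂ : F := (3 * ω - 1) / (τ ^ 3 * (ω + 1) ^ 2 * (ω + 5) ^ 3)
  have f0 : X₀ ^ 3 + a * X₀ = algebraMap (𝓞 F) F g₀ * s₀ ^ 2 := by
    rw [hG0, haω]
    simp only [X₀, s₀]
    field_simp
    ring
  have f1 : X₁ ^ 3 + a * X₁ = algebraMap (𝓞 F) F g₁ * s₁ ^ 2 := by
    rw [hG1, haω]
    simp only [X₁, s₁]
    field_simp
    ring
  have f2 : X₂ ^ 3 + a * X₂ = algebraMap (𝓞 F) F (g₁ * g₀) * s₂ ^ 2 := by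
    rw [hG2, haω]
    simp only [X₂, s₂]
    field_simp
    ring
  have hs0 : s₀ ≠ 0 := by
    simp only [s₀]
    exact div_ne_zero n1 (mul_ne_zero (pow_ne_zero _ hτ0) (pow_ne_zero _ n3))
  have hs1 : s₁ ≠ 0 := by
    simp only [s₁]
    exact div_ne_zero one_ne_zero (mul_ne_zero (by norm_num) (pow_ne_zero _ hτ0))
  have hs2 : s₂ ≠ 0 := by
    simp only [s₂]
    exact div_ne_zero n2 (mul_ne_zero (mul_ne_zero (pow_ne_zero _ hτ0) (pow_ne_zero _ n1))
      (pow_ne_zero _ n4))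
  have hsq : ∀ g s : F, s ≠ 0 → ¬ IsSquare g → ¬ IsSquare (g * s ^ 2) := by
    rintro g s hs hg ⟨y, hy⟩
    apply hg
    refine ⟨y / s, ?_⟩
    field_simp
    rw [hy]
    ring
  -- valuations at `v`
  have hτval : v.valuation F τ ≤ WithZero.exp (-((K : ℕ) : ℤ)) := by
    rw [hτ, v.valuation_of_algebraMap, v.intValuation_le_pow_iff_mem]
    exact Ideal.pow_le_pow_right (Nat.le_succ K) htv
  have hτval1 : v.valuation F τ ≤ 1 := by
    rw [hτ, v.valuation_of_algebraMap]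
    exact v.intValuation_le_one t
  have hτval0 : v.valuation F τ ≠ 0 := (Valuation.ne_zero_iff _).mpr hτ0
  have hbig : c < ((v.valuation F τ) ^ 2)⁻¹ := by
    refine lt_of_lt_of_le hK ?_
    rw [le_inv_comm₀ (WithZero.exp_pos) (zero_lt_iff.mpr (pow_ne_zero 2 hτval0)),
      ← WithZero.exp_neg]
    calc (v.valuation F τ) ^ 2 = v.valuation F τ * v.valuation F τ := sq _
      _ ≤ v.valuation F τ * 1 := by gcongr
      _ = v.valuation F τ := mul_one _
      _ ≤ _ := hτval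
  have h16 : v.valuation F (16 : F) ≤ 1 := by
    rw [← m16, v.valuation_of_algebraMap]
    exact v.intValuation_le_one _
  have h160 : v.valuation F (16 : F) ≠ 0 := (Valuation.ne_zero_iff _).mpr (by norm_num)
  have hV0 : c < v.valuation F X₀ := by
    have : v.valuation F X₀ = ((v.valuation F τ) ^ 2)⁻¹ := by
      simp only [X₀]
      rw [map_pow, map_div₀, map_mul, v1, v3, mul_one, one_div, inv_pow]
    rw [this]
    exact hbig
  have hV1 : c < v.valuation F X₁ := by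
    have : v.valuation F X₁ = (v.valuation F (16 : F))⁻¹ * ((v.valuation F τ) ^ 2)⁻¹ := by
      simp only [X₁]
      rw [map_div₀, map_mul, map_pow, v1, one_div, mul_inv]
    rw [this]
    refine lt_of_lt_of_le hbig ?_
    have h1 : 1 ≤ (v.valuation F (16 : F))⁻¹ := (one_le_inv₀ (zero_lt_iff.mpr h160)).mpr h16
    exact le_mul_of_one_le_left' h1
  have hV2 : c < v.valuation F X₂ := by
    have : v.valuation F X₂ = ((v.valuation F τ) ^ 2)⁻¹ := by
      simp only [X₂]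
      rw [map_div₀, map_mul, map_mul, map_pow, map_pow, map_pow, v1, v2, v4]
      simp
    rw [this]
    exact hbig
  refine ⟨![X₀, X₁, X₂], ?_, ?_, ?_⟩
  · intro i
    fin_cases i
    · exact hV0
    · exact hV1
    · exact hV2
  · intro i
    fin_cases i
    · change ¬ IsSquare (X₀ ^ 3 + a * X₀)
      rw [f0]
      exact hsq _ _ hs0 hns0
    · change ¬ IsSquare (X₁ ^ 3 + a * X₁)
      rw [f1]
      exact hsq _ _ hs1 hns1
    · change ¬ IsSquare (X₂ ^ 3 + a * X₂)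
      rw [f2]
      exact hsq _ _ hs2 hns2
  · change IsSquare ((X₀ ^ 3 + a * X₀) * (X₁ ^ 3 + a * X₁) * (X₂ ^ 3 + a * X₂))
    have hm : algebraMap (𝓞 F) F (g₁ * g₀)
        = algebraMap (𝓞 F) F g₁ * algebraMap (𝓞 F) F g₀ := map_mul _ _ _
    rw [f0, f1, f2, hm]
    generalize algebraMap (𝓞 F) F g₀ = z₀
    generalize algebraMap (𝓞 F) F g₁ = z₁
    exact ⟨z₀ * z₁ * (s₀ * s₁ * s₂), by ring⟩

theorem family_zero (A : F) (hA : A ≠ 0)
    (v : HeightOneSpectrum (𝓞 F)) (hv : (2 : 𝓞 F) ∈ v.asIdeal)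
    (c : WithZero (Multiplicative ℤ)) :
    ∃ X : Fin 3 → F, (∀ i, c < v.valuation F (X i)) ∧
      (∀ i, ¬ IsSquare (X i ^ 3 + A * X i)) ∧
      IsSquare ((X 0 ^ 3 + A * X 0) * (X 1 ^ 3 + A * X 1) * (X 2 ^ 3 + A * X 2)) := by
  obtain ⟨x, y, hy, hxy⟩ := IsFractionRing.div_surjective (A := 𝓞 F) A
  have hy0 : y ≠ 0 := nonZeroDivisors.ne_zero hy
  set b : F := algebraMap (𝓞 F) F y with hb
  have hb0 : b ≠ 0 := by
    rw [hb]
    exact (map_ne_zero_iff _ (FaithfulSMul.algebraMap_injective (𝓞 F) F)).mpr hy0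
  have hx0 : x ≠ 0 := by
    rintro rfl
    apply hA
    rw [← hxy]
    simp
  have hA' : algebraMap (𝓞 F) F (x * y ^ 3) = b ^ 4 * A := by
    rw [← hxy, map_mul, map_pow, ← hb]
    field_simp
  obtain ⟨Y, hY1, hY2, hY3⟩ := family_zero_int (x * y ^ 3)
    (mul_ne_zero hx0 (pow_ne_zero 3 hy0)) v hv c
  rw [hA'] at hY2 hY3
  have key : ∀ i, (Y i / b ^ 2) ^ 3 + A * (Y i / b ^ 2)
      = (Y i ^ 3 + b ^ 4 * A * Y i) * ((b ^ 3)⁻¹) ^ 2 := by
    intro i
    field_simp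
  have hvb : v.valuation F (b ^ 2) ≤ 1 := by
    rw [hb, ← map_pow, v.valuation_of_algebraMap]
    exact v.intValuation_le_one _
  have hvb0 : v.valuation F (b ^ 2) ≠ 0 := (Valuation.ne_zero_iff _).mpr (pow_ne_zero 2 hb0)
  refine ⟨fun i => Y i / b ^ 2, ?_, ?_, ?_⟩
  · intro i
    refine lt_of_lt_of_le (hY1 i) ?_
    rw [map_div₀, div_eq_mul_inv]
    exact le_mul_of_one_le_right' ((one_le_inv₀ (zero_lt_iff.mpr hvb0)).mpr hvb)
  · intro i
    simp only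
    rw [key i]
    rintro ⟨z, hz⟩
    apply hY2 i
    refine ⟨z * b ^ 3, ?_⟩
    have h1 : Y i ^ 3 + b ^ 4 * A * Y i
        = (Y i ^ 3 + b ^ 4 * A * Y i) * ((b ^ 3)⁻¹) ^ 2 * (b ^ 3) ^ 2 := by
      field_simp
    rw [h1, hz]
    ring
  · simp only
    rw [key 0, key 1, key 2]
    obtain ⟨z, hz⟩ := hY3
    refine ⟨z * ((b ^ 3)⁻¹) ^ 3, ?_⟩
    linear_combination (((b ^ 3)⁻¹) ^ 2) ^ 3 * hz

end Family2

end Pool.Agent.Lib.MP_1a91b9_nt
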