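import Pool.Agent.Lib.MP_1a91b9_nt.Family2

/-!
# JOB FAMILY3: three abscissas for `x^3 + B`
-/

set_option autoImplicit false

namespace Pool.Agent.Lib.MP_1a91b9_nt

open IsDedekindDomain NumberField Polynomial IntermediateField

universe u

section Family3

variable {F : Type u} [Field F] [NumberField F]

/-- the shape of the two polynomials -/
noncomputable def family3T (a : 𝓞 F) (n : ℕ) : (𝓞 F)[X] := C a * X ^ n + 1

theorem family3T_eval (a : 𝓞 F) (n : ℕ) (t : 𝓞 F) :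
    (family3T a n).eval t = a * t ^ n + 1 := by
  simp [family3T]

theorem family3T_der (a : 𝓞 F) (n : ℕ) (t : 𝓞 F) :
    (derivative (family3T a n)).eval t = a * ((n : 𝓞 F) * t ^ (n - 1)) := by
  simp only [family3T, derivative_add, derivative_one, derivative_C_mul_X_pow, add_zero,
    eval_mul, eval_C, eval_pow, eval_X]
  ring

theorem family3T_coeff (a : 𝓞 F) (n : ℕ) (hn : n ≠ 0) : (family3T a n).coeff n = a := by
  simp [family3T, coeff_one, hn]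

/-- the integral version -/
theorem family_c4_zero_int (B : 𝓞 F) (hB : B ≠ 0)
    (v : HeightOneSpectrum (𝓞 F)) (hv : (2 : 𝓞 F) ∈ v.asIdeal)
    (c : WithZero (Multiplicative ℤ)) :
    ∃ X : Fin 3 → F, (∀ i, c < v.valuation F (X i)) ∧
      (∀ i, ¬ IsSquare (X i ^ 3 + algebraMap (𝓞 F) F B)) ∧
      IsSquare ((X 0 ^ 3 + algebraMap (𝓞 F) F B) *
        (X 1 ^ 3 + algebraMap (𝓞 F) F B) *
        (X 2 ^ 3 + algebraMap (𝓞 F) F B)) := by
  -- numerals
  have hnum : ∀ n : ℕ, algebraMap (𝓞 F) F (n : 𝓞 F) = (n : F) := fun n => map_natCast _ n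
  have m1 : algebraMap (𝓞 F) F 1 = 1 := map_one _
  have m2 : algebraMap (𝓞 F) F 2 = 2 := by exact_mod_cast hnum 2
  have m3 : algebraMap (𝓞 F) F 3 = 3 := by exact_mod_cast hnum 3
  have m4 : algebraMap (𝓞 F) F 4 = 4 := by exact_mod_cast hnum 4
  have m8 : algebraMap (𝓞 F) F 8 = 8 := by exact_mod_cast hnum 8
  have h4le : v.valuation F (4 : F) ≤ 1 := by
    rw [← m4, v.valuation_of_algebraMap]
    exact v.intValuation_le_one _
  have h2le : v.valuation F (2 : F) ≤ 1 := by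
    rw [← m2, v.valuation_of_algebraMap]
    exact v.intValuation_le_one _
  have h40 : v.valuation F (4 : F) ≠ 0 := (Valuation.ne_zero_iff _).mpr (by norm_num)
  have h80 : v.valuation F (8 : F) ≠ 0 := (Valuation.ne_zero_iff _).mpr (by norm_num)
  have h84 : v.valuation F (8 : F) ≤ v.valuation F (4 : F) := by
    have : (8 : F) = 2 * 4 := by norm_num
    rw [this, map_mul]
    exact mul_le_of_le_one_left' h2le
  obtain ⟨K₁, hK₁⟩ := family2_exists_exp_gt (c * (v.valuation F (4 : F))⁻¹)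
  obtain ⟨K₂, hK₂⟩ := family2_exists_exp_gt ((v.valuation F (8 : F))⁻¹)
  obtain ⟨K, hKdef⟩ : ∃ K : ℕ, K = K₁ + K₂ := ⟨_, rfl⟩
  have hKa : c * (v.valuation F (4 : F))⁻¹ < WithZero.exp (K : ℤ) := by
    refine lt_of_lt_of_le hK₁ ?_
    rw [WithZero.exp_le_exp]
    omega
  have hKb : (v.valuation F (8 : F))⁻¹ < WithZero.exp (K : ℤ) := by
    refine lt_of_lt_of_le hK₂ ?_
    rw [WithZero.exp_le_exp]
    omega
  -- the two polynomials
  set T₁ : (𝓞 F)[X] := family3T (B ^ 5) 6 with hT₁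
  set T₂ : (𝓞 F)[X] := family3T (B ^ 10) 12 with hT₂
  have heval1 : ∀ t : 𝓞 F, T₁.eval t = B ^ 5 * t ^ 6 + 1 := fun t => family3T_eval _ _ t
  have heval2 : ∀ t : 𝓞 F, T₂.eval t = B ^ 10 * t ^ 12 + 1 := fun t => family3T_eval _ _ t
  have hder1 : ∀ t : 𝓞 F, (derivative T₁).eval t = B ^ 5 * (6 * t ^ 5) := fun t => by
    have := family3T_der (B ^ 5) 6 t
    rw [hT₁, this]
    norm_num
  have hder2 : ∀ t : 𝓞 F, (derivative T₂).eval t = B ^ 10 * (12 * t ^ 11) := fun t => by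
    have := family3T_der (B ^ 10) 12 t
    rw [hT₂, this]
    norm_num
  have hc1 : T₁.coeff 0 = 1 := by
    rw [Polynomial.coeff_zero_eq_eval_zero, heval1]
    ring
  have hc2 : T₂.coeff 0 = 1 := by
    rw [Polynomial.coeff_zero_eq_eval_zero, heval2]
    ring
  have hn1 : T₁.natDegree ≠ 0 := by
    have h' : T₁.coeff 6 ≠ 0 := by
      rw [hT₁, family3T_coeff _ _ (by norm_num)]
      exact pow_ne_zero 5 hB
    have := Polynomial.le_natDegree_of_ne_zero h'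
    omega
  have hn2 : T₂.natDegree ≠ 0 := by
    have h' : T₂.coeff 12 ≠ 0 := by
      rw [hT₂, family3T_coeff _ _ (by norm_num)]
      exact pow_ne_zero 10 hB
    have := Polynomial.le_natDegree_of_ne_zero h'
    omega
  have hN : (6 : 𝓞 F) ≠ 0 := by norm_num
  have hN1 : ∀ (P : Ideal (𝓞 F)) [P.IsPrime] (t : 𝓞 F), T₁.eval t ∈ P →
      (derivative T₁).eval t ∈ P → (6 : 𝓞 F) ∈ P := by
    intro P _ t ht ht'
    rw [heval1] at ht
    rw [hder1] at ht'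
    have : (6 : 𝓞 F) = 6 * (B ^ 5 * t ^ 6 + 1) - t * (B ^ 5 * (6 * t ^ 5)) := by ring
    rw [this]
    exact P.sub_mem (P.mul_mem_left _ ht) (P.mul_mem_left _ ht')
  have h12 : ∀ (P : Ideal (𝓞 F)) [P.IsPrime], (12 : 𝓞 F) ∈ P → (6 : 𝓞 F) ∈ P := by
    intro P _ h
    have h' : (2 : 𝓞 F) * 6 ∈ P := by
      have : (2 : 𝓞 F) * 6 = 12 := by norm_num
      rw [this]
      exact h
    rcases Ideal.IsPrime.mem_or_mem inferInstance h' with h2 | h6
    · have : (6 : 𝓞 F) = 3 * 2 := by norm_num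
      rw [this]
      exact P.mul_mem_left _ h2
    · exact h6
  have hN2 : ∀ (P : Ideal (𝓞 F)) [P.IsPrime] (t : 𝓞 F), T₂.eval t ∈ P →
      (derivative T₂).eval t ∈ P → (6 : 𝓞 F) ∈ P := by
    intro P _ t ht ht'
    rw [heval2] at ht
    rw [hder2] at ht'
    apply h12 P
    have : (12 : 𝓞 F) = 12 * (B ^ 10 * t ^ 12 + 1) - t * (B ^ 10 * (12 * t ^ 11)) := by ring
    rw [this]
    exact P.sub_mem (P.mul_mem_left _ ht) (P.mul_mem_left _ ht')
  obtain ⟨t, p, q, ht0, htv, hNp, hNq, hp1, hp2, hq1, hq2⟩ :=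
    select_param T₁ T₂ hc1 hc2 hn1 hn2 6 hN hN1 hN2 v (K + 1)
  set w : 𝓞 F := B ^ 5 * t ^ 6 with hw
  have hT1 : T₁.eval t = 1 + w := by rw [heval1, hw]; ring
  have hT2 : T₂.eval t = 1 + w ^ 2 := by rw [heval2, hw]; ring
  rw [hT1] at hp1 hp2
  rw [hT2] at hq1 hq2
  obtain ⟨G, hG⟩ : ∃ G : 𝓞 F, G = 1 + 2 * w + 3 * w ^ 2 + w ^ 3 := ⟨_, rfl⟩
  obtain ⟨g₀, hg0⟩ : ∃ g₀ : 𝓞 F, g₀ = (1 + w) * (-(3 * w * G)) := ⟨_, rfl⟩
  obtain ⟨g₁, hg1⟩ : ∃ g₁ : 𝓞 F, g₁ = (1 + w) * ((1 + w ^ 2) * G) := ⟨_, rfl⟩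
  obtain ⟨g₂, hg2⟩ : ∃ g₂ : 𝓞 F, g₂ = (1 + w ^ 2) * (-(3 * w)) := ⟨_, rfl⟩
  -- units at `p`
  have h36 : ∀ (P : Ideal (𝓞 F)), (3 : 𝓞 F) ∈ P → (6 : 𝓞 F) ∈ P := by
    intro P h
    have : (6 : 𝓞 F) = 2 * 3 := by norm_num
    rw [this]
    exact P.mul_mem_left _ h
  have h26 : ∀ (P : Ideal (𝓞 F)), (2 : 𝓞 F) ∈ P → (6 : 𝓞 F) ∈ P := by
    intro P h
    have : (6 : 𝓞 F) = 3 * 2 := by norm_num
    rw [this]
    exact P.mul_mem_left _ h
  have hone : ∀ (P : HeightOneSpectrum (𝓞 F)), (1 : 𝓞 F) ∉ P.asIdeal := by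
    intro P h
    exact P.isPrime.ne_top ((Ideal.eq_top_iff_one _).mpr h)
  have hpw : w ∉ p.asIdeal := by
    intro h
    apply hone p
    have : (1 : 𝓞 F) = (1 + w) - w := by ring
    rw [this]
    exact p.asIdeal.sub_mem hp1 h
  have hpG : G ∉ p.asIdeal := by
    intro h
    apply hone p
    have : (1 : 𝓞 F) = G - (w ^ 2 + 2 * w) * (1 + w) := by rw [hG]; ring
    rw [this]
    exact p.asIdeal.sub_mem h (p.asIdeal.mul_mem_left _ hp1)
  have hpw2 : 1 + w ^ 2 ∉ p.asIdeal := by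
    intro h
    apply hNp
    apply h26
    have : (2 : 𝓞 F) = (1 + w ^ 2) - (w - 1) * (1 + w) := by ring
    rw [this]
    exact p.asIdeal.sub_mem h (p.asIdeal.mul_mem_left _ hp1)
  have hqw : w ∉ q.asIdeal := by
    intro h
    apply hone q
    have : (1 : 𝓞 F) = (1 + w ^ 2) - w * w := by ring
    rw [this]
    exact q.asIdeal.sub_mem hq1 (q.asIdeal.mul_mem_left _ h)
  have hu0 : -(3 * w * G) ∉ p.asIdeal := by
    intro h
    rw [neg_mem_iff] at h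
    rcases p.isPrime.mem_or_mem h with h | h
    · rcases p.isPrime.mem_or_mem h with h | h
      · exact hNp (h36 _ h)
      · exact hpw h
    · exact hpG h
  have hu1 : (1 + w ^ 2) * G ∉ p.asIdeal := by
    intro h
    rcases p.isPrime.mem_or_mem h with h | h
    · exact hpw2 h
    · exact hpG h
  have hu2 : -(3 * w) ∉ q.asIdeal := by
    intro h
    rw [neg_mem_iff] at h
    rcases q.isPrime.mem_or_mem h with h | h
    · exact hNq (h36 _ h)
    · exact hqw h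
  have hns0 : ¬ IsSquare (algebraMap (𝓞 F) F g₀) := by
    obtain ⟨ha, hb⟩ := family2_exact_mul p (1 + w) _ hp1 hp2 hu0
    rw [← hg0] at ha hb
    exact family2_not_isSquare p g₀ ha hb
  have hns1 : ¬ IsSquare (algebraMap (𝓞 F) F g₁) := by
    obtain ⟨ha, hb⟩ := family2_exact_mul p (1 + w) _ hp1 hp2 hu1
    rw [← hg1] at ha hb
    exact family2_not_isSquare p g₁ ha hb
  have hns2 : ¬ IsSquare (algebraMap (𝓞 F) F g₂) := by
    obtain ⟨ha, hb⟩ := family2_exact_mul q (1 + w ^ 2) _ hq1 hq2 hu2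
    rw [← hg2] at ha hb
    exact family2_not_isSquare q g₂ ha hb
  -- units at `v`
  have htv1 : t ∈ v.asIdeal := Ideal.pow_le_self (Nat.succ_ne_zero K) htv
  have hwv : w ∈ v.asIdeal := by
    rw [hw]
    exact v.asIdeal.mul_mem_left _ (Ideal.pow_mem_of_mem _ htv1 6 (by norm_num))
  have hval1 : ∀ r : 𝓞 F, r ∉ v.asIdeal → v.valuation F (algebraMap (𝓞 F) F r) = 1 := by
    intro r hr
    rw [v.valuation_of_algebraMap]
    exact v.intValuation_eq_one_iff.mpr hr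
  have hne : ∀ r : 𝓞 F, r ∉ v.asIdeal → algebraMap (𝓞 F) F r ≠ 0 := by
    intro r hr h0
    have := hval1 r hr
    rw [h0, map_zero] at this
    exact zero_ne_one this
  have hunit : ∀ r s : 𝓞 F, r = 1 + s * w → r ∉ v.asIdeal := by
    intro r s hr h
    apply hone v
    have : (1 : 𝓞 F) = r - s * w := by rw [hr]; ring
    rw [this]
    exact v.asIdeal.sub_mem h (v.asIdeal.mul_mem_left _ hwv)
  have hv3 : (3 : 𝓞 F) ∉ v.asIdeal := by
    intro h
    apply hone v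
    have : (1 : 𝓞 F) = 3 - 2 := by norm_num
    rw [this]
    exact v.asIdeal.sub_mem h hv
  have hv1 : 1 + w ∉ v.asIdeal := hunit _ 1 (by ring)
  have hv2 : 1 + w + w ^ 2 ∉ v.asIdeal := hunit _ (1 + w) (by ring)
  have hv4 : 1 + 4 * w ^ 2 ∉ v.asIdeal := hunit _ (4 * w) (by ring)
  have hv5 : 1 - 8 * w ^ 2 ∉ v.asIdeal := hunit _ (-(8 * w)) (by ring)
  -- pass to the field
  set β : F := algebraMap (𝓞 F) F B with hβ
  set τ : F := algebraMap (𝓞 F) F t with hτ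
  have hβ0 : β ≠ 0 := by
    rw [hβ]
    exact (map_ne_zero_iff _ (FaithfulSMul.algebraMap_injective (𝓞 F) F)).mpr hB
  have hτ0 : τ ≠ 0 := by
    rw [hτ]
    exact (map_ne_zero_iff _ (FaithfulSMul.algebraMap_injective (𝓞 F) F)).mpr ht0
  have hω0 : algebraMap (𝓞 F) F w = β ^ 5 * τ ^ 6 := by
    rw [hw, hβ, hτ, map_mul, map_pow, map_pow]
  clear_value w
  obtain ⟨ω, hω⟩ : ∃ ω : F, ω = algebraMap (𝓞 F) F w := ⟨_, rfl⟩
  have hωτ : ω = β ^ 5 * τ ^ 6 := by rw [hω, hω0]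
  have hωne : ω ≠ 0 := by
    rw [hωτ]
    exact mul_ne_zero (pow_ne_zero _ hβ0) (pow_ne_zero _ hτ0)
  have e1 : algebraMap (𝓞 F) F (1 + w) = 1 + ω := by rw [map_add, m1, hω]
  have e2 : algebraMap (𝓞 F) F (1 + w + w ^ 2) = 1 + ω + ω ^ 2 := by
    rw [map_add, map_add, map_pow, m1, hω]
  have e4 : algebraMap (𝓞 F) F (1 + 4 * w ^ 2) = 1 + 4 * ω ^ 2 := by
    rw [map_add, map_mul, map_pow, m1, m4, hω]
  have e5 : algebraMap (𝓞 F) F (1 - 8 * w ^ 2) = 1 - 8 * ω ^ 2 := by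
    rw [map_sub, map_mul, map_pow, m1, m8, hω]
  have n1 : 1 + ω ≠ 0 := e1 ▸ hne _ hv1
  have n5 : 1 - 8 * ω ^ 2 ≠ 0 := e5 ▸ hne _ hv5
  have v1 : v.valuation F (1 + ω) = 1 := e1 ▸ hval1 _ hv1
  have v2 : v.valuation F (1 + ω + ω ^ 2) = 1 := e2 ▸ hval1 _ hv2
  have v3 : v.valuation F (3 : F) = 1 := m3 ▸ hval1 _ hv3
  have v4 : v.valuation F (1 + 4 * ω ^ 2) = 1 := e4 ▸ hval1 _ hv4
  -- valuation of τ, ω
  have hτval : v.valuation F τ ≤ WithZero.exp (-((K : ℕ) : ℤ)) := by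
    rw [hτ, v.valuation_of_algebraMap, v.intValuation_le_pow_iff_mem]
    exact Ideal.pow_le_pow_right (Nat.le_succ K) htv
  have hτval1 : v.valuation F τ ≤ 1 := by
    rw [hτ, v.valuation_of_algebraMap]
    exact v.intValuation_le_one t
  have hβval1 : v.valuation F β ≤ 1 := by
    rw [hβ, v.valuation_of_algebraMap]
    exact v.intValuation_le_one B
  have hτval0 : v.valuation F τ ≠ 0 := (Valuation.ne_zero_iff _).mpr hτ0
  have hβval0 : v.valuation F β ≠ 0 := (Valuation.ne_zero_iff _).mpr hβ0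
  have hτ8 : v.valuation F τ < v.valuation F (8 : F) := by
    refine lt_of_le_of_lt hτval ?_
    rw [WithZero.exp_neg]
    exact inv_lt_of_inv_lt₀ (zero_lt_iff.mpr h80) hKb
  have hτle : ∀ n : ℕ, n ≠ 0 → (v.valuation F τ) ^ n ≤ v.valuation F τ := by
    intro n hn
    exact pow_le_of_le_one zero_le hτval1 hn
  have hβle : ∀ n : ℕ, (v.valuation F β) ^ n ≤ 1 := fun n => pow_le_one₀ zero_le hβval1
  have hωval : v.valuation F ω < v.valuation F (8 : F) := by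
    refine lt_of_le_of_lt ?_ hτ8
    rw [hωτ, map_mul, map_pow, map_pow]
    calc (v.valuation F β) ^ 5 * (v.valuation F τ) ^ 6 ≤ 1 * v.valuation F τ :=
          mul_le_mul' (hβle 5) (hτle 6 (by norm_num))
      _ = v.valuation F τ := one_mul _
  have hv8 : v.valuation F (8 * (1 + ω) ^ 3) = v.valuation F (8 : F) := by
    rw [map_mul, map_pow, v1, one_pow, mul_one]
  have hv40 : v.valuation F (4 * (1 + ω) ^ 3) = v.valuation F (4 : F) := by
    rw [map_mul, map_pow, v1, one_pow, mul_one]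
  have n6 : ω + 8 * (1 + ω) ^ 3 ≠ 0 := by
    intro h
    have h' : ω = -(8 * (1 + ω) ^ 3) := by linear_combination h
    have h'' := congrArg (v.valuation F) h'
    rw [Valuation.map_neg, hv8] at h''
    exact absurd h'' (ne_of_lt hωval)
  have v6 : v.valuation F (4 * (1 + ω) ^ 3 - ω) = v.valuation F (4 : F) := by
    rw [Valuation.map_sub_eq_of_lt_left, hv40]
    rw [hv40]
    exact lt_of_lt_of_le hωval h84
  -- large elements
  have hbig : ∀ m n : ℕ, n ≠ 0 → c * (v.valuation F (4 : F))⁻¹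
      < ((v.valuation F β) ^ m * (v.valuation F τ) ^ n)⁻¹ := by
    intro m n hn
    refine lt_of_lt_of_le hKa ?_
    rw [le_inv_comm₀ (WithZero.exp_pos)
      (zero_lt_iff.mpr (mul_ne_zero (pow_ne_zero m hβval0) (pow_ne_zero n hτval0))),
      ← WithZero.exp_neg]
    calc (v.valuation F β) ^ m * (v.valuation F τ) ^ n ≤ 1 * v.valuation F τ :=
          mul_le_mul' (hβle m) (hτle n hn)
      _ = v.valuation F τ := one_mul _
      _ ≤ _ := hτval
  have hc4 : c ≤ c * (v.valuation F (4 : F))⁻¹ :=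
    le_mul_of_one_le_right' ((one_le_inv₀ (zero_lt_iff.mpr h40)).mpr h4le)
  have h3F : (3 : F) ≠ 0 := by norm_num
  have h9F : (9 : F) ≠ 0 := by norm_num
  let T : F := β * τ
  have hT0 : T ≠ 0 := mul_ne_zero hβ0 hτ0
  have hβT : β = T ^ 6 / ω := by
    simp only [T]
    rw [hωτ]
    field_simp
  have hr1 : T ^ 2 / ω = (β ^ 3 * τ ^ 4)⁻¹ := by
    simp only [T]
    rw [hωτ]
    field_simp
  have hr2 : T ^ 2 / ω ^ 2 = (β ^ 8 * τ ^ 10)⁻¹ := by
    simp only [T]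
    rw [hωτ]
    field_simp
  clear_value T
  let X₀ : F := -((4 * (1 + ω) ^ 3 - ω) / (3 * (1 + ω))) * (T ^ 2 / ω)
  let X₁ : F := (1 + ω + ω ^ 2) * (T ^ 2 / ω ^ 2)
  let X₂ : F := -((1 + 4 * ω ^ 2) / 3) * (T ^ 2 / ω)
  let s₀ : F := T ^ 3 / ω ^ 2 * (ω + 8 * (1 + ω) ^ 3) / (9 * (1 + ω) ^ 2)
  let s₁ : F := T ^ 3 / ω ^ 3
  let s₂ : F := T ^ 3 / ω ^ 2 * (1 - 8 * ω ^ 2) / 9
  have hG0 : algebraMap (𝓞 F) F g₀ = (1 + ω) * (-(3 * ω * (1 + 2 * ω + 3 * ω ^ 2 + ω ^ 3))) := by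
    rw [hg0, hG]
    simp only [map_mul, map_add, map_neg, map_pow, m1, m2, m3, ← hω]
  have hG1 : algebraMap (𝓞 F) F g₁ =
      (1 + ω) * ((1 + ω ^ 2) * (1 + 2 * ω + 3 * ω ^ 2 + ω ^ 3)) := by
    rw [hg1, hG]
    simp only [map_mul, map_add, map_pow, m1, m2, m3, ← hω]
  have hG2 : algebraMap (𝓞 F) F g₂ = (1 + ω ^ 2) * (-(3 * ω)) := by
    rw [hg2]
    simp only [map_mul, map_add, map_neg, map_pow, m1, m3, ← hω]
  have f0 : X₀ ^ 3 + β = algebraMap (𝓞 F) F g₀ * s₀ ^ 2 := by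
    rw [hG0, hβT]
    simp only [X₀, s₀]
    field_simp
    ring
  have f1 : X₁ ^ 3 + β = algebraMap (𝓞 F) F g₁ * s₁ ^ 2 := by
    rw [hG1, hβT]
    simp only [X₁, s₁]
    field_simp
    ring
  have f2 : X₂ ^ 3 + β = algebraMap (𝓞 F) F g₂ * s₂ ^ 2 := by
    rw [hG2, hβT]
    simp only [X₂, s₂]
    field_simp
    ring
  have hs0 : s₀ ≠ 0 := by
    simp only [s₀]
    exact div_ne_zero (mul_ne_zero (div_ne_zero (pow_ne_zero _ hT0) (pow_ne_zero _ hωne)) n6)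
      (mul_ne_zero h9F (pow_ne_zero _ n1))
  have hs1 : s₁ ≠ 0 := by
    simp only [s₁]
    exact div_ne_zero (pow_ne_zero _ hT0) (pow_ne_zero _ hωne)
  have hs2 : s₂ ≠ 0 := by
    simp only [s₂]
    exact div_ne_zero (mul_ne_zero (div_ne_zero (pow_ne_zero _ hT0) (pow_ne_zero _ hωne)) n5) h9F
  have hsq : ∀ g s : F, s ≠ 0 → ¬ IsSquare g → ¬ IsSquare (g * s ^ 2) := by
    rintro g s hs hg ⟨y, hy⟩
    apply hg
    refine ⟨y / s, ?_⟩
    field_simp
    rw [hy]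
    ring
  have hV0 : c < v.valuation F X₀ := by
    have : v.valuation F X₀ = v.valuation F (4 : F) *
        ((v.valuation F β) ^ 3 * (v.valuation F τ) ^ 4)⁻¹ := by
      simp only [X₀]
      rw [hr1, map_mul, Valuation.map_neg, map_div₀, map_mul, v6, v3, v1, map_inv₀, map_mul,
        map_pow, map_pow]
      simp
    rw [this]
    have h := hbig 3 4 (by norm_num)
    have h' := mul_lt_mul_of_pos_left h (zero_lt_iff.mpr h40)
    refine lt_of_le_of_lt (le_of_eq ?_) h'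
    rw [mul_comm, mul_assoc, inv_mul_cancel₀ h40, mul_one]
  have hV1 : c < v.valuation F X₁ := by
    have : v.valuation F X₁ = ((v.valuation F β) ^ 8 * (v.valuation F τ) ^ 10)⁻¹ := by
      simp only [X₁]
      rw [hr2, map_mul, v2, map_inv₀, map_mul, map_pow, map_pow, one_mul]
    rw [this]
    exact lt_of_le_of_lt hc4 (hbig 8 10 (by norm_num))
  have hV2 : c < v.valuation F X₂ := by
    have : v.valuation F X₂ = ((v.valuation F β) ^ 3 * (v.valuation F τ) ^ 4)⁻¹ := by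
      simp only [X₂]
      rw [hr1, map_mul, Valuation.map_neg, map_div₀, v4, v3, map_inv₀, map_mul,
        map_pow, map_pow]
      simp
    rw [this]
    exact lt_of_le_of_lt hc4 (hbig 3 4 (by norm_num))
  refine ⟨![X₀, X₁, X₂], ?_, ?_, ?_⟩
  · intro i
    fin_cases i
    · exact hV0
    · exact hV1
    · exact hV2
  · intro i
    fin_cases i
    · change ¬ IsSquare (X₀ ^ 3 + β)
      rw [f0]
      exact hsq _ _ hs0 hns0
    · change ¬ IsSquare (X₁ ^ 3 + β)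
      rw [f1]
      exact hsq _ _ hs1 hns1
    · change ¬ IsSquare (X₂ ^ 3 + β)
      rw [f2]
      exact hsq _ _ hs2 hns2
  · change IsSquare ((X₀ ^ 3 + β) * (X₁ ^ 3 + β) * (X₂ ^ 3 + β))
    rw [f0, f1, f2, hG0, hG1, hG2]
    exact ⟨3 * ω * (1 + ω) * (1 + ω ^ 2) * (1 + 2 * ω + 3 * ω ^ 2 + ω ^ 3) * (s₀ * s₁ * s₂),
      by ring⟩

theorem family_c4_zero (B : F) (hB : B ≠ 0)
    (v : HeightOneSpectrum (𝓞 F)) (hv : (2 : 𝓞 F) ∈ v.asIdeal)
    (c : WithZero (Multiplicative ℤ)) :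
    ∃ X : Fin 3 → F, (∀ i, c < v.valuation F (X i)) ∧
      (∀ i, ¬ IsSquare (X i ^ 3 + B)) ∧
      IsSquare ((X 0 ^ 3 + B) * (X 1 ^ 3 + B) * (X 2 ^ 3 + B)) := by
  obtain ⟨x, y, hy, hxy⟩ := IsFractionRing.div_surjective (A := 𝓞 F) B
  have hy0 : y ≠ 0 := nonZeroDivisors.ne_zero hy
  set b : F := algebraMap (𝓞 F) F y with hb
  have hb0 : b ≠ 0 := by
    rw [hb]
    exact (map_ne_zero_iff _ (FaithfulSMul.algebraMap_injective (𝓞 F) F)).mpr hy0
  have hx0 : x ≠ 0 := by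
    rintro rfl
    apply hB
    rw [← hxy]
    simp
  have hB' : algebraMap (𝓞 F) F (x * y ^ 5) = b ^ 6 * B := by
    rw [← hxy, map_mul, map_pow, ← hb]
    field_simp
  obtain ⟨Y, hY1, hY2, hY3⟩ := family_c4_zero_int (x * y ^ 5)
    (mul_ne_zero hx0 (pow_ne_zero 5 hy0)) v hv c
  rw [hB'] at hY2 hY3
  have key : ∀ i, (Y i / b ^ 2) ^ 3 + B = (Y i ^ 3 + b ^ 6 * B) * ((b ^ 3)⁻¹) ^ 2 := by
    intro i
    field_simp
  have hvb : v.valuation F (b ^ 2) ≤ 1 := by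
    rw [hb, ← map_pow, v.valuation_of_algebraMap]
    exact v.intValuation_le_one _
  have hvb0 : v.valuation F (b ^ 2) ≠ 0 := (Valuation.ne_zero_iff _).mpr (pow_ne_zero 2 hb0)
  refine ⟨fun i => Y i / b ^ 2, ?_, ?_, ?_⟩
  · intro i
    refine lt_of_lt_of_le (hY1 i) ?_
    rw [map_div₀, div_eq_mul_inv]
    exact le_mul_of_one_le_right' ((one_le_inv₀ (zero_lt_iff.mpr hvb0)).mpr hvb)
  · intro i
    simp only
    rw [key i]
    rintro ⟨z, hz⟩
    apply hY2 i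
    refine ⟨z * b ^ 3, ?_⟩
    have h1 : Y i ^ 3 + b ^ 6 * B
        = (Y i ^ 3 + b ^ 6 * B) * ((b ^ 3)⁻¹) ^ 2 * (b ^ 3) ^ 2 := by
      field_simp
    rw [h1, hz]
    ring
  · simp only
    rw [key 0, key 1, key 2]
    obtain ⟨z, hz⟩ := hY3
    refine ⟨z * ((b ^ 3)⁻¹) ^ 3, ?_⟩
    linear_combination (((b ^ 3)⁻¹) ^ 2) ^ 3 * hz

end Family3

end Pool.Agent.Lib.MP_1a91b9_nt
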