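import Pool.Agent.Lib.MP_1a91b9_nt.VarChange

/-!
# Numbers of points of quadratic twists over finite fields
-/

set_option autoImplicit false

namespace Pool.Agent.Lib.MP_1a91b9_nt

open WeierstrassCurve

section FT

variable {k : Type*} [Field k]

/-- The affine points of `W` and the solutions of `Y^2 = X^3 - 27 c4 X - 54 c6`. -/
noncomputable def ft_equiv (h2 : (2 : k) ≠ 0) (h3 : (3 : k) ≠ 0) (W : WeierstrassCurve k)
    [W.IsElliptic] : {p : k × k // W.toAffine.Nonsingular p.1 p.2} ≃
      {p : k × k // p.2 ^ 2 = p.1 ^ 3 - 27 * W.c₄ * p.1 - 54 * W.c₆} :=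
  let e : k × k ≃ k × k :=
    { toFun := fun p => (36 * p.1 + 3 * W.b₂, 108 * (2 * p.2 + W.a₁ * p.1 + W.a₃))
      invFun := fun q => ((q.1 - 3 * W.b₂) / 36,
        (q.2 / 108 - W.a₁ * ((q.1 - 3 * W.b₂) / 36) - W.a₃) / 2)
      left_inv := by
        have h36 : (36 : k) ≠ 0 := by
          have : (36 : k) = 2 ^ 2 * 3 ^ 2 := by norm_num
          rw [this]; exact mul_ne_zero (pow_ne_zero _ h2) (pow_ne_zero _ h3)
        have h108 : (108 : k) ≠ 0 := by
          have : (108 : k) = 2 ^ 2 * 3 ^ 3 := by norm_num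
          rw [this]; exact mul_ne_zero (pow_ne_zero _ h2) (pow_ne_zero _ h3)
        intro p
        ext
        · field_simp
          ring
        · field_simp
          ring
      right_inv := by
        have h36 : (36 : k) ≠ 0 := by
          have : (36 : k) = 2 ^ 2 * 3 ^ 2 := by norm_num
          rw [this]; exact mul_ne_zero (pow_ne_zero _ h2) (pow_ne_zero _ h3)
        have h108 : (108 : k) ≠ 0 := by
          have : (108 : k) = 2 ^ 2 * 3 ^ 3 := by norm_num
          rw [this]; exact mul_ne_zero (pow_ne_zero _ h2) (pow_ne_zero _ h3)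
        intro q
        ext
        · field_simp
          ring
        · field_simp
          ring }
  e.subtypeEquiv fun p => by
    rw [← Affine.equation_iff_nonsingular, Affine.equation_iff']
    have h46656 : (46656 : k) ≠ 0 := by
      have : (46656 : k) = 2 ^ 6 * 3 ^ 6 := by norm_num
      rw [this]; exact mul_ne_zero (pow_ne_zero _ h2) (pow_ne_zero _ h3)
    have key : (e p).2 ^ 2 - ((e p).1 ^ 3 - 27 * W.c₄ * (e p).1 - 54 * W.c₆) =
        46656 * (p.2 ^ 2 + W.a₁ * p.1 * p.2 + W.a₃ * p.2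
          - (p.1 ^ 3 + W.a₂ * p.1 ^ 2 + W.a₄ * p.1 + W.a₆)) := by
      simp only [e, Equiv.coe_fn_mk, WeierstrassCurve.c₄, WeierstrassCurve.c₆,
        WeierstrassCurve.b₂, WeierstrassCurve.b₄, WeierstrassCurve.b₆]
      ring
    constructor
    · intro h
      have h' : p.2 ^ 2 + W.a₁ * p.1 * p.2 + W.a₃ * p.2
          - (p.1 ^ 3 + W.a₂ * p.1 ^ 2 + W.a₄ * p.1 + W.a₆) = 0 := h
      rw [h', mul_zero] at key
      exact sub_eq_zero.1 key
    · intro h
      rw [sub_eq_zero.2 h] at key
      exact (mul_eq_zero.1 key.symm).resolve_left h46656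

lemma ft_card [Fintype k] [DecidableEq k] (h2 : (2 : k) ≠ 0) (h3 : (3 : k) ≠ 0)
    (W : WeierstrassCurve k) [W.IsElliptic] :
    (Nat.card W.toAffine.Point : ℤ) = 1 + ∑ X : k,
      (quadraticChar k (X ^ 3 - 27 * W.c₄ * X - 54 * W.c₆) + 1) := by
  have hchar : ringChar k ≠ 2 := by
    intro h
    apply h2
    have := ringChar.Nat.cast_ringChar (R := k)
    rw [h] at this
    exact_mod_cast this
  rw [Nat.card_congr (pointEquivOption W), Finite.card_option,
    Nat.card_congr (ft_equiv h2 h3 W), Nat.card_eq_fintype_card, Fintype.card_subtype]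
  rw [Finset.card_eq_sum_card_fiberwise (f := fun p : k × k => p.1) (t := Finset.univ)
    (by intro x _; simp)]
  push_cast
  rw [add_comm]
  congr 1
  refine Finset.sum_congr rfl fun X _ => ?_
  rw [← quadraticChar_card_sqrts hchar]
  norm_cast
  refine Finset.card_bij' (fun p _ => p.2) (fun y _ => (X, y)) ?_ ?_ ?_ ?_
  · rintro ⟨x, y⟩ hp
    simp only [Finset.mem_filter, Finset.mem_univ, true_and] at hp
    obtain ⟨h1, rfl⟩ := hp
    simpa using h1
  · intro y hy
    simp only [Set.mem_toFinset, Set.mem_ofPred_eq] at hy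
    simp only [Finset.mem_filter, Finset.mem_univ, true_and]
    exact ⟨hy, trivial⟩
  · rintro ⟨x, y⟩ hp
    simp only [Finset.mem_filter, Finset.mem_univ, true_and] at hp
    rw [← hp.2]
  · intro y _
    rfl

end FT

theorem card_twist {k : Type*} [Field k] [Finite k] (h2 : (2 : k) ≠ 0) (h3 : (3 : k) ≠ 0)
    (W W' : WeierstrassCurve k) [W.IsElliptic] [W'.IsElliptic] (d : k) (hd : d ≠ 0)
    (h4 : W'.c₄ = d ^ 2 * W.c₄) (h6 : W'.c₆ = d ^ 3 * W.c₆) :
    (IsSquare d → Nat.card W'.toAffine.Point = Nat.card W.toAffine.Point) ∧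
    (¬ IsSquare d → Nat.card W.toAffine.Point + Nat.card W'.toAffine.Point
      = 2 * Nat.card k + 2) := by
  classical
  have := Fintype.ofFinite k
  have hW := ft_card h2 h3 W
  have hW' := ft_card h2 h3 W'
  have hsum : ∑ X : k, (quadraticChar k (X ^ 3 - 27 * W'.c₄ * X - 54 * W'.c₆) + 1)
      = ∑ X : k, (quadraticChar k d * quadraticChar k (X ^ 3 - 27 * W.c₄ * X - 54 * W.c₆) + 1) := by
    refine (Equiv.sum_comp (Equiv.mulLeft₀ d hd)
      (fun X => (quadraticChar k (X ^ 3 - 27 * W'.c₄ * X - 54 * W'.c₆) + 1))).symm.trans ?_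
    refine Finset.sum_congr rfl fun X _ => ?_
    have e1 : (Equiv.mulLeft₀ d hd X) ^ 3 - 27 * W'.c₄ * (Equiv.mulLeft₀ d hd X) - 54 * W'.c₆
        = d ^ 2 * (d * (X ^ 3 - 27 * W.c₄ * X - 54 * W.c₆)) := by
      rw [h4, h6]
      simp only [Equiv.mulLeft₀_apply]
      ring
    rw [e1, map_mul, quadraticChar_sq_one' hd, one_mul, map_mul]
  rw [hsum] at hW'
  rw [Finset.sum_add_distrib] at hW hW'
  rw [← Finset.mul_sum] at hW'
  simp only [Finset.sum_const, Finset.card_univ, nsmul_eq_mul, mul_one] at hW hW'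
  rw [← Nat.card_eq_fintype_card] at hW hW'
  constructor
  · intro hs
    rw [(quadraticChar_one_iff_isSquare hd).2 hs, one_mul] at hW'
    have : (Nat.card W'.toAffine.Point : ℤ) = Nat.card W.toAffine.Point := by
      rw [hW, hW']
    exact_mod_cast this
  · intro hs
    rw [quadraticChar_neg_one_iff_not_isSquare.2 hs] at hW'
    have : (Nat.card W.toAffine.Point : ℤ) + Nat.card W'.toAffine.Point = 2 * Nat.card k + 2 := by
      rw [hW, hW']
      ring
    exact_mod_cast this

end Pool.Agent.Lib.MP_1a91b9_nt
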