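import Pool.Agent.Lib.MP_1a91b9_nt.Defs
import Pool.Agent.Lib.MP_1a91b9_nt.RankRel

/-!
# JOB QUADRATIC: a biquadratic extension raises the rank over every fixed field of a cyclic group
-/

set_option autoImplicit false

namespace Pool.Agent.Lib.MP_1a91b9_nt

open IsDedekindDomain NumberField Polynomial IntermediateField

universe u

theorem rank_add_one_le {G : Type*} [Group G] {A : Type u} [AddCommGroup A]
    (ρ : G →* Module.End ℤ A) (C : Subgroup G) (P : A) (hP : P ∈ invSub ρ C) (σ : G)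
    (hσ : ρ σ P = -P) (hn : ∀ n : ℕ, n ≠ 0 → n • P ≠ 0) :
    Module.rank ℤ (invSub ρ ⊤) + 1 ≤ Module.rank ℤ (invSub ρ C) := by
  have hle : invSub ρ ⊤ ≤ invSub ρ C := fun a ha h _ => ha h trivial
  set N : Submodule ℤ (invSub ρ C) := (invSub ρ ⊤).comap (invSub ρ C).subtype with hN
  have h1 := rank_quotient_add_rank_le N
  have h2 : Module.rank ℤ N = Module.rank ℤ (invSub ρ ⊤) :=
    (Submodule.comapSubtypeEquivOfLe hle).rank_eq
  have h3 : 1 ≤ Module.rank ℤ (invSub ρ C ⧸ N) := by
    rw [Module.one_le_rank_iff]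
    refine ⟨LinearMap.toSpanSingleton ℤ _ (Submodule.Quotient.mk ⟨P, hP⟩), ?_⟩
    rw [injective_iff_map_eq_zero]
    intro a ha
    by_contra hne
    rw [LinearMap.toSpanSingleton_apply, ← Submodule.Quotient.mk_smul,
      Submodule.Quotient.mk_eq_zero] at ha
    have h4 : ρ σ (a • P) = a • P := ha σ trivial
    rw [map_smul, hσ, smul_neg] at h4
    have h5 : (2 * a) • P = 0 := by
      have h6 : a • P + a • P = 0 := by
        nth_rewrite 1 [← h4]
        exact neg_add_cancel _
      rw [two_mul, add_smul, h6]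
    have h7 : (2 * a).natAbs • P = 0 := by
      rcases Int.natAbs_eq (2 * a) with h8 | h8
      · rw [← natCast_zsmul, ← h8, h5]
      · have h9 : (((2 * a).natAbs : ℕ) : ℤ) = -(2 * a) := by omega
        rw [← natCast_zsmul, h9, neg_smul, h5, neg_zero]
    exact hn _ (by
      rw [Int.natAbs_ne_zero]
      exact mul_ne_zero two_ne_zero hne) h7
  calc Module.rank ℤ (invSub ρ ⊤) + 1 = 1 + Module.rank ℤ N := by rw [h2, add_comm]
    _ ≤ Module.rank ℤ (invSub ρ C ⧸ N) + Module.rank ℤ N := by gcongr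
    _ ≤ _ := h1

section step
variable {F M : Type u} [Field F] [NumberField F] [Field M] [NumberField M] [Algebra F M]
  [IsGalois F M]

/-- the ordinate of a point with abscissa `x` -/
theorem equation_of_sq [DecidableEq M] (W : WeierstrassCurve F) (x d y : F) (s : M)
    (hs : s ^ 2 = algebraMap F M d) (hx : W.Ψ₂Sq.eval x = d * y ^ 2) :
    (W.baseChange M).toAffine.Equation (algebraMap F M x)
      ((algebraMap F M y * s - algebraMap F M W.a₁ * algebraMap F M x
        - algebraMap F M W.a₃) / 2) := by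
  have h := congrArg (algebraMap F M) hx
  rw [WeierstrassCurve.Ψ₂Sq] at h
  simp only [eval_add, eval_mul, eval_C, eval_pow, eval_X, WeierstrassCurve.b₂,
    WeierstrassCurve.b₄, WeierstrassCurve.b₆, map_add, map_mul, map_pow, eval_ofNat,
    map_ofNat (algebraMap F M)] at h
  rw [← hs] at h
  rw [WeierstrassCurve.Affine.equation_iff]
  have e1 : (W.baseChange M).toAffine.a₁ = algebraMap F M W.a₁ := rfl
  have e2 : (W.baseChange M).toAffine.a₂ = algebraMap F M W.a₂ := rfl
  have e3 : (W.baseChange M).toAffine.a₃ = algebraMap F M W.a₃ := rfl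
  have e4 : (W.baseChange M).toAffine.a₄ = algebraMap F M W.a₄ := rfl
  have e6 : (W.baseChange M).toAffine.a₆ = algebraMap F M W.a₆ := rfl
  rw [e1, e2, e3, e4, e6]
  linear_combination (-1 / 4 : M) * h

theorem step_aux (W : WeierstrassCurve F) [W.IsElliptic] (x d y : F) (hd : ¬ IsSquare d) (s : M)
    (hs : s ^ 2 = algebraMap F M d) (hx : W.Ψ₂Sq.eval x = d * y ^ 2) (hnt : NT.{u,u} W x)
    (C : Subgroup Gal(M/F)) (hC : ∀ τ ∈ C, τ s = s) :
    mwRank W + 1 ≤ mwRank (W.baseChange (fixedField C)) := by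
  classical
  let _ : DecidableEq M := Classical.decEq M
  set Y : M := (algebraMap F M y * s - algebraMap F M W.a₁ * algebraMap F M x
        - algebraMap F M W.a₃) / 2 with hY
  have heq : (W.baseChange M).toAffine.Equation (algebraMap F M x) Y :=
    equation_of_sq W x d y s hs hx
  have hell : WeierstrassCurve.IsElliptic (W.baseChange M).toAffine :=
    inferInstanceAs (W.map (algebraMap F M)).IsElliptic
  have hns : (W.baseChange M).toAffine.Nonsingular (algebraMap F M x) Y :=
    WeierstrassCurve.Affine.equation_iff_nonsingular.mp heq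
  set P : (W.baseChange M).toAffine.Point := WeierstrassCurve.Affine.Point.some _ _ hns with hP
  have hs' : s ∉ Set.range (algebraMap F M) := by
    rintro ⟨a, rfl⟩
    apply hd
    refine ⟨a, ?_⟩
    apply (algebraMap F M).injective
    rw [← hs, map_mul, sq]
  have hσ : ∃ σ : Gal(M/F), σ s = -s := by
    have h := (IsGalois.mem_range_algebraMap_iff_fixed (F := F) (E := M) s).not.mp hs'
    push Not at h
    obtain ⟨σ, hσ⟩ := h
    refine ⟨σ, ?_⟩
    have h2 : (σ s) ^ 2 = s ^ 2 := by
      rw [← map_pow, hs, AlgEquiv.commutes]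
    rcases sq_eq_sq_iff_eq_or_eq_neg.mp h2 with h3 | h3
    · exact absurd h3 hσ
    · exact h3
  obtain ⟨σ, hσ⟩ := hσ
  rw [mwRank_eq_top (M := M) W, rank_fixedField W C]
  refine rank_add_one_le (galRho W) C P ?_ σ ?_ ?_
  · rw [mem_invSub]
    intro τ hτ
    change WeierstrassCurve.Affine.Point.some _ _ _ = WeierstrassCurve.Affine.Point.some _ _ _
    rw [WeierstrassCurve.Affine.Point.some.injEq]
    refine ⟨AlgEquiv.commutes _ _, ?_⟩
    change τ Y = Y
    rw [hY, map_div₀, map_sub, map_sub, map_mul, map_mul, hC τ hτ, AlgEquiv.commutes,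
      AlgEquiv.commutes, AlgEquiv.commutes, AlgEquiv.commutes, map_ofNat]
  · change WeierstrassCurve.Affine.Point.some _ _ _ = -(WeierstrassCurve.Affine.Point.some _ _ _)
    rw [WeierstrassCurve.Affine.Point.neg_some, WeierstrassCurve.Affine.Point.some.injEq]
    refine ⟨AlgEquiv.commutes _ _, ?_⟩
    change σ Y = (W.baseChange M).toAffine.negY _ _
    rw [WeierstrassCurve.Affine.negY, hY, map_div₀, map_sub, map_sub, map_mul, map_mul, hσ,
      AlgEquiv.commutes, AlgEquiv.commutes, AlgEquiv.commutes, AlgEquiv.commutes, map_ofNat]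
    have e1 : (W.baseChange M).toAffine.a₁ = algebraMap F M W.a₁ := rfl
    have e3 : (W.baseChange M).toAffine.a₃ = algebraMap F M W.a₃ := rfl
    rw [e1, e3]
    ring
  · intro n hn
    exact hnt M Y hns n hn

end step

theorem rank_step {F : Type u} [Field F] [NumberField F] (W : WeierstrassCurve F) [W.IsElliptic]
    (x d : Fin 3 → F) (hd : ∀ i, ¬ IsSquare (d i)) (hdd : IsSquare (d 0 * d 1 * d 2))
    (hx : ∀ i, ∃ y : F, W.Ψ₂Sq.eval (x i) = d i * y ^ 2) (hnt : ∀ i, NT.{u,u} W (x i)) :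
    ∃ (M : Type u) (_ : Field M) (_ : NumberField M) (_ : Algebra F M) (_ : IsGalois F M),
      ∀ C : Subgroup Gal(M/F), IsCyclic C →
        mwRank W + 1 ≤ mwRank (W.baseChange (fixedField C)) := by
  classical
  set p : F[X] := (X ^ 2 - C (d 0)) * (X ^ 2 - C (d 1)) with hp
  have hd0 : ∀ i, d i ≠ 0 := fun i h => hd i (h ▸ ⟨0, by simp⟩)
  let M := p.SplittingField
  have hchar : CharZero M := charZero_of_injective_algebraMap (algebraMap F M).injective
  have hnf : NumberField M := NumberField.of_module_finite F M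
  have hnorm : Normal F M := Normal.of_isSplittingField p
  have hgal : IsGalois F M := ⟨⟩
  refine ⟨M, inferInstance, hnf, inferInstance, hgal, ?_⟩
  have hroot : ∀ a : F, (X ^ 2 - C a) ∣ p → ∃ s : M, s ^ 2 = algebraMap F M a := by
    intro a ha
    have h1 : ((X ^ 2 - C a).map (algebraMap F M)).Splits := by
      refine (SplittingField.splits p).of_dvd ?_ (Polynomial.map_dvd _ ha)
      rw [Polynomial.map_ne_zero_iff (algebraMap F M).injective]
      exact mul_ne_zero (X_pow_sub_C_ne_zero two_pos _) (X_pow_sub_C_ne_zero two_pos _)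
    obtain ⟨s, hs⟩ := h1.exists_eval_eq_zero (by
      rw [degree_map, degree_X_pow_sub_C two_pos]
      norm_num)
    refine ⟨s, ?_⟩
    simpa [sub_eq_zero] using hs
  obtain ⟨s0, hs0⟩ := hroot (d 0) (dvd_mul_right _ _)
  obtain ⟨s1, hs1⟩ := hroot (d 1) (dvd_mul_left _ _)
  obtain ⟨c, hc⟩ := hdd
  have hs0' : s0 ≠ 0 := by
    rintro rfl
    rw [zero_pow two_ne_zero, eq_comm, map_eq_zero] at hs0
    exact hd0 0 hs0
  have hs1' : s1 ≠ 0 := by
    rintro rfl
    rw [zero_pow two_ne_zero, eq_comm, map_eq_zero] at hs1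
    exact hd0 1 hs1
  set s2 : M := algebraMap F M c / (s0 * s1) with hs2d
  have hs2 : s2 ^ 2 = algebraMap F M (d 2) := by
    rw [hs2d, div_pow, mul_pow, hs0, hs1, ← map_pow, sq c, ← hc, ← map_mul, ← map_div₀]
    congr 1
    have h0 := hd0 0
    have h1 := hd0 1
    field_simp
  have hprod : s0 * s1 * s2 = algebraMap F M c := by
 
    rw [hs2d, mul_div_cancel₀]
    exact mul_ne_zero hs0' hs1'
  have hs2' : s2 ≠ 0 := by
    intro h
    rw [h, zero_pow two_ne_zero, eq_comm, map_eq_zero] at hs2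
    exact hd0 2 hs2
  intro C hC
  obtain ⟨τ, hτ⟩ := hC.exists_generator
  have hgen : ∀ s : M, (τ : Gal(M/F)) s = s → ∀ g ∈ C, g s = s := by
    intro s hs g hg
    have h1 : (⟨g, hg⟩ : C) ∈ Subgroup.zpowers τ := hτ _
    obtain ⟨k, hk⟩ := Subgroup.mem_zpowers_iff.mp h1
    have h2 : (τ : Gal(M/F)) ^ k = g := by
      have := congrArg Subtype.val hk
      simpa using this
    have h3 : (τ : Gal(M/F)) ∈ MulAction.stabilizer Gal(M/F) s := by
      rw [MulAction.mem_stabilizer_iff]
      exact hs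
    have h4 : g ∈ MulAction.stabilizer Gal(M/F) s := by
      rw [← h2]
      exact Subgroup.zpow_mem _ h3 k
    rw [MulAction.mem_stabilizer_iff] at h4
    exact h4
  have hsign : ∀ (s : M) (a : F), s ^ 2 = algebraMap F M a →
      (τ : Gal(M/F)) s = s ∨ (τ : Gal(M/F)) s = -s := by
    intro s a hs
    have h2 : ((τ : Gal(M/F)) s) ^ 2 = s ^ 2 := by
      rw [← map_pow, hs, AlgEquiv.commutes]
    exact sq_eq_sq_iff_eq_or_eq_neg.mp h2
  choose y hy using hx
  rcases hsign s0 _ hs0 with h0 | h0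
  · exact step_aux W (x 0) (d 0) (y 0) (hd 0) s0 hs0 (hy 0) (hnt 0) C (hgen s0 h0)
  rcases hsign s1 _ hs1 with h1 | h1
  · exact step_aux W (x 1) (d 1) (y 1) (hd 1) s1 hs1 (hy 1) (hnt 1) C (hgen s1 h1)
  rcases hsign s2 _ hs2 with h2 | h2
  · exact step_aux W (x 2) (d 2) (y 2) (hd 2) s2 hs2 (hy 2) (hnt 2) C (hgen s2 h2)
  exfalso
  have h3 := congrArg (τ : Gal(M/F)) hprod
  rw [map_mul, map_mul, h0, h1, h2, AlgEquiv.commutes, ← hprod] at h3
  have h4 : (2 : M) * (s0 * s1 * s2) = 0 := by linear_combination -h3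
  rcases mul_eq_zero.mp h4 with h5 | h5
  · exact two_ne_zero h5
  · exact mul_ne_zero (mul_ne_zero hs0' hs1') hs2' h5

end Pool.Agent.Lib.MP_1a91b9_nt
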