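import Pool.Agent.Lib.MP_1a91b9_nt.NonTorsion
import Pool.Agent.Lib.MP_1a91b9_nt.Quadratic
import Pool.Agent.Lib.MP_1a91b9_nt.Family1
import Pool.Agent.Lib.MP_1a91b9_nt.Family2
import Pool.Agent.Lib.MP_1a91b9_nt.Family3

/-!
# Increasing the rank over all subextensions of a biquadratic extension
-/

set_option autoImplicit false

namespace Pool.Agent.Lib.MP_1a91b9_nt

open IsDedekindDomain NumberField Polynomial IntermediateField

universe u

theorem exists_above_two (F : Type u) [Field F] [NumberField F] :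
    ∃ v : HeightOneSpectrum (𝓞 F), (2 : 𝓞 F) ∈ v.asIdeal := by
  have h2 : (Ideal.span {(2 : ℤ)}).IsPrime := by
    rw [Ideal.span_singleton_prime (by norm_num)]
    exact Int.prime_two
  obtain ⟨Q, hQ1, hQ2⟩ := Ideal.nonempty_primesOver (S := 𝓞 F) (Ideal.span {(2 : ℤ)})
  have hmem : (2 : 𝓞 F) ∈ Q := by
    have h3 : (2 : ℤ) ∈ Q.under ℤ := by
      rw [← hQ2.over]
      exact Ideal.mem_span_singleton_self _
    have h4 := (Ideal.mem_comap.mp h3)
    simpa using h4
  refine ⟨⟨Q, hQ1, ?_⟩, hmem⟩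
  rintro rfl
  rw [Ideal.mem_bot] at hmem
  norm_num at hmem

theorem exists_rank_step {F : Type u} [Field F] [NumberField F] (W : WeierstrassCurve F)
    [W.IsElliptic] :
    ∃ (M : Type u) (_ : Field M) (_ : NumberField M) (_ : Algebra F M) (_ : IsGalois F M),
      ∀ C : Subgroup Gal(M/F), IsCyclic C →
        mwRank W + 1 ≤ mwRank (W.baseChange (fixedField C)) := by
  obtain ⟨v, hv⟩ := exists_above_two F
  obtain ⟨c, hc⟩ := nt_of_valuation W v hv
  set A : F := -W.c₄ / 48 with hA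
  set B : F := -W.c₆ / 864 with hB
  have hD : 4 * A ^ 3 + 27 * B ^ 2 ≠ 0 := by
    have h1 : 4 * A ^ 3 + 27 * B ^ 2 = - W.Δ / 16 := by
      have := W.c_relation
      have h2 : W.Δ = (W.c₄ ^ 3 - W.c₆ ^ 2) / 1728 := by
        rw [eq_div_iff (by norm_num)]
        linear_combination this
      rw [h2, hA, hB]
      ring
    rw [h1]
    exact div_ne_zero (neg_ne_zero.mpr W.isUnit_Δ.ne_zero) (by norm_num)
  have hfam : ∃ X : Fin 3 → F, (∀ i, max c (v.valuation F (W.b₂ / 12)) < v.valuation F (X i)) ∧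
      (∀ i, ¬ IsSquare (X i ^ 3 + A * X i + B)) ∧
      IsSquare ((X 0 ^ 3 + A * X 0 + B) * (X 1 ^ 3 + A * X 1 + B) * (X 2 ^ 3 + A * X 2 + B)) := by
    by_cases hA0 : A = 0
    · have hB0 : B ≠ 0 := by
        rintro hB0
        apply hD
        rw [hA0, hB0]
        ring
      obtain ⟨X, h1, h2, h3⟩ := family_c4_zero B hB0 v hv (max c (v.valuation F (W.b₂ / 12)))
      exact ⟨X, h1, by simpa [hA0] using h2, by simpa [hA0] using h3⟩
    · by_cases hB0 : B = 0
      · obtain ⟨X, h1, h2, h3⟩ := family_zero A hA0 v hv (max c (v.valuation F (W.b₂ / 12)))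
        exact ⟨X, h1, by simpa [hB0] using h2, by simpa [hB0] using h3⟩
      · exact family_ne A B hA0 hB0 hD v hv (max c (v.valuation F (W.b₂ / 12)))
  obtain ⟨X, h1, h2, h3⟩ := hfam
  refine rank_step W (fun i => X i - W.b₂ / 12) (fun i => X i ^ 3 + A * X i + B) h2 h3 ?_ ?_
  · intro i
    refine ⟨2, ?_⟩
    simp only [WeierstrassCurve.Ψ₂Sq, eval_add, eval_mul, eval_pow, eval_X, eval_C]
    rw [hA, hB, WeierstrassCurve.c₄, WeierstrassCurve.c₆]
    ring
  · intro i
    refine hc _ ?_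
    rw [Valuation.map_sub_eq_of_lt_left _ (lt_of_le_of_lt (le_max_right _ _) (h1 i))]
    exact lt_of_le_of_lt (le_max_left _ _) (h1 i)

end Pool.Agent.Lib.MP_1a91b9_nt
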