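import Pool.Agent.Lib.MP_1a91b9_nt.Defs

/-!
# BSD over number fields, structural theorems: splitting fields
-/

set_option autoImplicit false
namespace Pool.Agent.Lib.MP_1a91b9_nt
open IsDedekindDomain NumberField Polynomial IntermediateField

universe u

/-- For a subgroup `H` of the Galois group, the Galois group of a polynomial over the fixed field is
a quotient of `H`. -/
theorem exists_surj_gal {F M : Type u} [Field F] [Field M] [Algebra F M] [FiniteDimensional F M]
    [IsGalois F M] (H : Subgroup Gal(M/F)) (ψ : (fixedField H)[X])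
    (hs : (ψ.map (algebraMap (fixedField H) M)).Splits) :
    ∃ φ : H →* ψ.Gal, Function.Surjective φ := by
  have : Fact ((ψ.map (algebraMap (fixedField H) M)).Splits) := ⟨hs⟩
  have e1 : H ≃* (fixedField H).fixingSubgroup :=
    MulEquiv.subgroupCongr (IntermediateField.fixingSubgroup_fixedField H).symm
  have e2 : (fixedField H).fixingSubgroup ≃* Gal(M/(fixedField H)) :=
    IntermediateField.fixingSubgroupEquiv (fixedField H)
  refine ⟨(Polynomial.Gal.restrict ψ M).comp ((e1.trans e2).toMonoidHom), ?_⟩
  exact (Polynomial.Gal.restrict_surjective ψ M).comp (e1.trans e2).surjective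

/-- The image of a subgroup of `Gal(M/F)` in the Galois group of a polynomial over a subfield of
`F` which splits in `M`. -/
theorem exists_image_gal {F₀ F M : Type u} [Field F₀] [Field F] [Field M] [Algebra F₀ F]
    [Algebra F M] [Algebra F₀ M] [IsScalarTower F₀ F M]
    (H : Subgroup Gal(M/F)) (f : F₀[X]) (hs : (f.map (algebraMap F₀ M)).Splits) :
    ∃ (H' : Subgroup f.Gal) (φ : H →* H'), Function.Surjective φ ∧
      ((∃ x ∈ f.rootSet f.SplittingField, ∀ σ ∈ H', σ x = x) →
        ∃ x : fixedField H, aeval x (f.map (algebraMap F₀ F)) = 0) := by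
  have : Fact ((f.map (algebraMap F₀ M)).Splits) := ⟨hs⟩
  let ρ : Gal(M/F) →* Gal(M/F₀) := AlgEquiv.restrictScalarsHom F₀
  let θ : Gal(M/F) →* f.Gal := (Polynomial.Gal.restrict f M).comp ρ
  refine ⟨H.map θ, θ.subgroupMap H, θ.subgroupMap_surjective H, ?_⟩
  rintro ⟨x, hx, hfix⟩
  let y : f.rootSet M := Polynomial.Gal.rootsEquivRoots f M ⟨x, hx⟩
  have hy : ∀ h ∈ H, h (y : M) = y := by
    intro h hh
    have h1 : ((Polynomial.Gal.restrict f M (ρ h) • y : f.rootSet M) : M) = (ρ h) (y : M) :=
      Polynomial.Gal.restrict_smul (ρ h) y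
    have h2 : Polynomial.Gal.restrict f M (ρ h) • y = y := by
      rw [Polynomial.Gal.smul_def]
      have h3 : (((Polynomial.Gal.rootsEquivRoots f M).symm y :
          f.rootSet f.SplittingField) : f.SplittingField) = x :=
        congrArg Subtype.val (Equiv.symm_apply_apply (Polynomial.Gal.rootsEquivRoots f M) ⟨x, hx⟩)
      have h4 : (Polynomial.Gal.restrict f M (ρ h))
          (((Polynomial.Gal.rootsEquivRoots f M).symm y :
          f.rootSet f.SplittingField) : f.SplittingField) = x := by
        rw [h3]
        exact hfix (θ h) (Subgroup.mem_map_of_mem θ hh)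
      exact congrArg (Polynomial.Gal.rootsEquivRoots f M) (Subtype.ext h4)
    rw [h2] at h1
    exact h1.symm
  have hmem : (y : M) ∈ fixedField H := by
    rw [IntermediateField.mem_fixedField_iff]
    exact hy
  refine ⟨⟨y, hmem⟩, ?_⟩
  have h0 : aeval (y : M) f = 0 := (mem_rootSet.mp y.2).2
  have h5 : aeval (algebraMap (fixedField H) M ⟨y, hmem⟩) (f.map (algebraMap F₀ F)) = 0 := by
    rw [aeval_map_algebraMap]
    exact h0
  rw [aeval_algebraMap_apply] at h5
  exact (map_eq_zero_iff _ (algebraMap (fixedField H) M).injective).mp h5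

theorem exists_splitting {F₀ F : Type u} [Field F₀] [Field F] [NumberField F] [Algebra F₀ F]
    (f : F₀[X]) (ψ : F[X]) (hψ : ψ ≠ 0) (hf0 : f ≠ 0) :
    ∃ (M : Type u) (_ : Field M) (_ : NumberField M) (_ : Algebra F M) (_ : IsGalois F M),
      ∀ H : Subgroup Gal(M/F),
        (∃ (H' : Subgroup f.Gal) (φ : H →* H'), Function.Surjective φ ∧
          ((∃ x ∈ f.rootSet f.SplittingField, ∀ σ ∈ H', σ x = x) →
            ∃ x : fixedField H, aeval x (f.map (algebraMap F₀ F)) = 0)) ∧
        (∃ φ : H →* (ψ.map (algebraMap F (fixedField H))).Gal, Function.Surjective φ) := by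
  let P : F[X] := f.map (algebraMap F₀ F) * ψ
  have hP : P ≠ 0 :=
    mul_ne_zero ((Polynomial.map_ne_zero_iff (algebraMap F₀ F).injective).mpr hf0) hψ
  let M := P.SplittingField
  have : CharZero M := charZero_of_injective_algebraMap (algebraMap F M).injective
  have : FiniteDimensional F M := inferInstance
  have hNF : NumberField M := NumberField.of_module_finite F M
  have : Normal F M := Normal.of_isSplittingField P
  have hG : IsGalois F M := ⟨⟩
  have hsP : (P.map (algebraMap F M)).Splits := SplittingField.splits P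
  have hPM : P.map (algebraMap F M) ≠ 0 :=
    (Polynomial.map_ne_zero_iff (algebraMap F M).injective).mpr hP
  have : IsScalarTower F₀ F M := inferInstance
  have hsf : (f.map (algebraMap F₀ M)).Splits := by
    have h1 : (f.map (algebraMap F₀ M)) = (f.map (algebraMap F₀ F)).map (algebraMap F M) := by
      rw [Polynomial.map_map, ← IsScalarTower.algebraMap_eq F₀ F M]
    rw [h1]
    exact hsP.of_dvd hPM (Polynomial.map_dvd _ (dvd_mul_right _ _))
  have hsψ : (ψ.map (algebraMap F M)).Splits :=
    hsP.of_dvd hPM (Polynomial.map_dvd _ (dvd_mul_left _ _))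
  refine ⟨M, inferInstance, hNF, inferInstance, hG, fun H => ⟨?_, ?_⟩⟩
  · exact exists_image_gal H f hsf
  · apply exists_surj_gal H
    rw [Polynomial.map_map]
    exact hsψ

end Pool.Agent.Lib.MP_1a91b9_nt
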