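import Pool.Agent.Lib.MP_1a91b9_nt.Induction
import Pool.Agent.Lib.MP_1a91b9_nt.Cyclo
import Pool.Agent.Lib.MP_1a91b9_nt.RankStep
import Pool.Agent.Lib.MP_1a91b9_nt.SplitField

/-!
# The two reduction theorems, for a fixed elliptic curve and all finite extensions
-/

set_option autoImplicit false

namespace Pool.Agent.Lib.MP_1a91b9_nt

open IsDedekindDomain NumberField Polynomial IntermediateField

universe u

theorem isElliptic_baseChange {F : Type u} [Field F] (W : WeierstrassCurve F) [W.IsElliptic]
    (K : Type u) [Field K] [Algebra F K] : (W.baseChange K).IsElliptic :=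
  inferInstanceAs (W.map (algebraMap F K)).IsElliptic

attribute [local instance] isElliptic_baseChange

section

variable {F : Type u} [Field F] [NumberField F] (W : WeierstrassCurve F) [W.IsElliptic]

/-- The induction from hyperelementary subgroups, for the curve `W` and all its base changes. -/
theorem fixed_exact (f ψ : F[X]) (hf0 : f ≠ 0) (hψ : ψ ≠ 0)
    (hf : ∀ H : Subgroup f.Gal, IsHyperelementary H →
      ∃ x ∈ f.rootSet f.SplittingField, ∀ σ ∈ H, σ x = x)
    (h : ∀ (K : Type u) [Field K] [NumberField K] [Algebra F K],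
      (∃ x : K, aeval x f = 0) → IsHyperelementary (ψ.map (algebraMap F K)).Gal →
      RankPow 1 (W.baseChange K))
    (K : Type u) [Field K] [NumberField K] [Algebra F K] : RankPow 1 (W.baseChange K) := by
  have hψ' : ψ.map (algebraMap F K) ≠ 0 :=
    (Polynomial.map_ne_zero_iff (algebraMap F K).injective).mpr hψ
  obtain ⟨M, _, _, _, _, hM⟩ := exists_splitting (F₀ := F) (F := K) f _ hψ' hf0
  refine exact_of_hyperelementary (M := M) (W.baseChange K) fun H hH => ?_
  obtain ⟨⟨H', φ, hφ, hroot⟩, ⟨χ, hχ⟩⟩ := hM H
  have hH' : IsHyperelementary H' := hH.of_surjective φ hφ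
  let L := fixedField H
  let _ : Algebra F L := ((algebraMap K L).comp (algebraMap F K)).toAlgebra
  have htower : IsScalarTower F K L := IsScalarTower.of_algebraMap_eq' rfl
  have hres : RankPow 1 (W.baseChange L) := by
    refine h L ?_ ?_
    · obtain ⟨x, hx⟩ := hroot (hf H' hH')
      refine ⟨x, ?_⟩
      rw [aeval_map_algebraMap] at hx
      exact hx
    · have key : (ψ.map (algebraMap F K)).map (algebraMap K L) = ψ.map (algebraMap F L) := by
        rw [Polynomial.map_map, ← IsScalarTower.algebraMap_eq F K L]
      rw [← key]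
      exact hH.of_surjective χ hχ
  exact hres

/-- Removing the conditions on the root and on the Galois group of the second polynomial. -/
theorem weak_A (f ψ : F[X]) (hf0 : f ≠ 0) (hψ : ψ ≠ 0)
    (hf : ∀ σ : f.Gal, ∃ x ∈ f.rootSet f.SplittingField, σ x = x) (N R : ℕ)
    (h : ∀ (K : Type u) [Field K] [NumberField K] [Algebra F K],
      N ∣ Module.finrank F K → (R : Cardinal) ≤ mwRank (W.baseChange K) →
      (∃ x : K, aeval x f = 0) → IsCyclic (ψ.map (algebraMap F K)).Gal →
      WeakRank (W.baseChange K))
    (K : Type u) [Field K] [NumberField K] [Algebra F K] (hN : N ∣ Module.finrank F K)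
    (hR : (R : Cardinal) ≤ mwRank (W.baseChange K)) : WeakRank (W.baseChange K) := by
  have hψ' : ψ.map (algebraMap F K) ≠ 0 :=
    (Polynomial.map_ne_zero_iff (algebraMap F K).injective).mpr hψ
  obtain ⟨M, _, _, _, _, hM⟩ := exists_splitting (F₀ := F) (F := K) f _ hψ' hf0
  refine weak_of_cyclic (M := M) (W.baseChange K) fun H hH => ?_
  obtain ⟨⟨H', φ, hφ, hroot⟩, ⟨χ, hχ⟩⟩ := hM H
  have hH' : IsCyclic H' := isCyclic_of_surjective φ hφ
  let L := fixedField H
  let _ : Algebra F L := ((algebraMap K L).comp (algebraMap F K)).toAlgebra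
  have htower : IsScalarTower F K L := IsScalarTower.of_algebraMap_eq' rfl
  have hres : WeakRank (W.baseChange L) := by
    refine h L ?_ ?_ ?_ ?_
    · rw [← Module.finrank_mul_finrank F K L]
      exact Dvd.dvd.mul_right hN _
    · exact hR.trans (mwRank_le_baseChange (W.baseChange K) L)
    · have hroot' : ∃ x ∈ f.rootSet f.SplittingField, ∀ σ ∈ H', σ x = x := by
        obtain ⟨g, hg⟩ := hH'
        obtain ⟨x, hx, hxg⟩ := hf g
        refine ⟨x, hx, fun σ hσ => ?_⟩
        obtain ⟨k, hk⟩ := hg ⟨σ, hσ⟩
        have hk' : σ = (g : f.Gal) ^ k := by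
          have := congrArg Subtype.val hk
          simpa using this.symm
        have hmem : (g : f.Gal) ∈ MulAction.stabilizer f.Gal x := hxg
        have : σ ∈ MulAction.stabilizer f.Gal x := by
          rw [hk']
          exact Subgroup.zpow_mem _ hmem k
        exact this
      obtain ⟨x, hx⟩ := hroot hroot'
      refine ⟨x, ?_⟩
      rw [aeval_map_algebraMap] at hx
      exact hx
    · have key : (ψ.map (algebraMap F K)).map (algebraMap K L) = ψ.map (algebraMap F L) := by
        rw [Polynomial.map_map, ← IsScalarTower.algebraMap_eq F K L]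
      rw [← key]
      exact isCyclic_of_surjective χ hχ
  exact hres

/-- Lowering the rank. -/
theorem weak_B (N : ℕ) (R : ℕ)
    (h : ∀ (K : Type u) [Field K] [NumberField K] [Algebra F K],
      N ∣ Module.finrank F K → (R : Cardinal) ≤ mwRank (W.baseChange K) →
      WeakRank (W.baseChange K)) :
    ∀ (K : Type u) [Field K] [NumberField K] [Algebra F K],
      N ∣ Module.finrank F K → WeakRank (W.baseChange K) := by
  induction R with
  | zero =>
    intro K _ _ _ hN
    exact h K hN (by simp)
  | succ R ih =>
    refine ih ?_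
    intro K _ _ _ hN hR
    obtain ⟨M, _, _, _, _, hM⟩ := exists_rank_step (W.baseChange K)
    refine weak_of_cyclic (M := M) (W.baseChange K) fun H hH => ?_
    let L := fixedField H
    let _ : Algebra F L := ((algebraMap K L).comp (algebraMap F K)).toAlgebra
    have htower : IsScalarTower F K L := IsScalarTower.of_algebraMap_eq' rfl
    have hres : WeakRank (W.baseChange L) := by
      refine h L ?_ ?_
      · rw [← Module.finrank_mul_finrank F K L]
        exact Dvd.dvd.mul_right hN _
      · push_cast
        refine le_trans ?_ (hM H hH)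
        gcongr
    exact hres

/-- Removing the divisibility condition on the degree. -/
theorem weak_C (N : ℕ) (hN : N ≠ 0)
    (h : ∀ (K : Type u) [Field K] [NumberField K] [Algebra F K],
      N ∣ Module.finrank F K → WeakRank (W.baseChange K)) :
    ∀ (K : Type u) [Field K] [NumberField K] [Algebra F K], WeakRank (W.baseChange K) := by
  induction N using induction_on_primes with
  | zero => exact absurd rfl hN
  | one =>
    intro K _ _ _
    exact h K (one_dvd _)
  | prime_mul p a hp ih =>
    refine ih (by rintro rfl; simp at hN) ?_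
    intro K _ _ _ ha
    obtain ⟨M, _, _, _, _, hM⟩ := exists_pp K p hp
    refine weak_of_cyclic (M := M) (W.baseChange K) fun H hH => ?_
    let L := fixedField H
    let _ : Algebra F L := ((algebraMap K L).comp (algebraMap F K)).toAlgebra
    have htower : IsScalarTower F K L := IsScalarTower.of_algebraMap_eq' rfl
    have hres : WeakRank (W.baseChange L) := by
      refine h L ?_
      rw [← Module.finrank_mul_finrank F K L, mul_comm p a]
      exact mul_dvd_mul ha (hM H hH)
    exact hres

/-- For the curve `W` and all its base changes: the weak form for the base changes of large rank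
to fields whose degree is divisible by `N`, which contain a root of `f` and over which the Galois
group of `ψ` is cyclic, implies the weak form for all base changes. -/
theorem fixed_weak (f ψ : F[X]) (hf0 : f ≠ 0) (hψ : ψ ≠ 0)
    (hf : ∀ σ : f.Gal, ∃ x ∈ f.rootSet f.SplittingField, σ x = x) (N R : ℕ) (hN : N ≠ 0)
    (h : ∀ (K : Type u) [Field K] [NumberField K] [Algebra F K],
      N ∣ Module.finrank F K → (R : Cardinal) ≤ mwRank (W.baseChange K) →
      (∃ x : K, aeval x f = 0) → IsCyclic (ψ.map (algebraMap F K)).Gal →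
      WeakRank (W.baseChange K)) :
    ∀ (K : Type u) [Field K] [NumberField K] [Algebra F K], WeakRank (W.baseChange K) :=
  weak_C W N hN (weak_B W N R (fun K _ _ _ hN hR => weak_A W f ψ hf0 hψ hf N R h K hN hR))

end

/-- A meromorphic continuation of the `L`-series itself has the predicted order. -/
theorem WeakRank.order_eq {K : Type*} [Field K] [NumberField K] {W : WeierstrassCurve K}
    (h : WeakRank W) (G : ℂ → ℂ) (hG : MeromorphicOn G Set.univ)
    (hGL : ∀ s : ℂ, 2 < s.re → G s = W.LSeries s) :
    ∃ r : ℕ, mwRank W = r ∧ meromorphicOrderAt G 1 = ((r : ℕ) : WithTop ℤ) := by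
  obtain ⟨k, hk, g, r, hg1, hg2, hg3, hg4⟩ := h
  refine ⟨r, hg3, ?_⟩
  have hD : MeromorphicOn (G ^ k - g) Set.univ := (hG.pow k).sub hg1
  have h3 : meromorphicOrderAt (G ^ k - g) 3 = ⊤ := by
    rw [meromorphicOrderAt_eq_top_iff]
    refine Filter.Eventually.filter_mono nhdsWithin_le_nhds ?_
    have hopen : IsOpen {s : ℂ | 2 < s.re} := isOpen_lt continuous_const Complex.continuous_re
    have hmem : (3 : ℂ) ∈ {s : ℂ | 2 < s.re} := by
      show 2 < (3 : ℂ).re
      norm_num
    filter_upwards [hopen.mem_nhds hmem] with s hs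
    have hs' : 2 < s.re := hs
    simp [hGL s hs', hg2 s hs']
  have h1 : meromorphicOrderAt (G ^ k - g) 1 = ⊤ := by
    by_contra hcon
    have := (hD.exists_meromorphicOrderAt_ne_top_iff_forall isConnected_univ).mp
      ⟨⟨1, Set.mem_univ _⟩, hcon⟩ ⟨3, Set.mem_univ _⟩
    exact this h3
  rw [meromorphicOrderAt_eq_top_iff] at h1
  have h2 : meromorphicOrderAt (G ^ k) 1 = meromorphicOrderAt g 1 := by
    refine meromorphicOrderAt_congr ?_
    filter_upwards [h1] with s hs
    exact sub_eq_zero.mp hs
  rw [meromorphicOrderAt_pow (hG 1 (Set.mem_univ _)), hg4] at h2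
  have hne : meromorphicOrderAt G 1 ≠ ⊤ := by
    intro htop
    rw [htop] at h2
    have hk0 : ((k : ℕ) : WithTop ℤ) ≠ 0 := by
      exact_mod_cast hk.ne'
    rw [WithTop.mul_top hk0] at h2
    exact WithTop.coe_ne_top (a := ((k * r : ℕ) : ℤ)) h2.symm
  lift meromorphicOrderAt G 1 to ℤ using hne with a ha
  have h4 : ((k : ℕ) : WithTop ℤ) = (((k : ℕ) : ℤ) : WithTop ℤ) := rfl
  have h5 : ((k * r : ℕ) : WithTop ℤ) = (((k * r : ℕ) : ℤ) : WithTop ℤ) := rfl
  rw [h4, h5, ← WithTop.coe_mul, WithTop.coe_inj] at h2
  have h6 : a = r := by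
    push_cast at h2
    exact mul_left_cancel₀ (by exact_mod_cast hk.ne') h2
  rw [h6]
  rfl

end Pool.Agent.Lib.MP_1a91b9_nt
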