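import Pool.Agent.Lib.MP_1a91b9_nt.Defs

/-!
# Hyperelementary groups
-/

set_option autoImplicit false

namespace Pool.Agent.Lib.MP_1a91b9_nt

theorem IsHyperelementary.of_isCyclic {G : Type*} [Group G] [Finite G] (h : IsCyclic G) :
    IsHyperelementary G := by
  refine ⟨2, Nat.prime_two, ⊤, inferInstance, ?_, ?_⟩
  · exact isCyclic_of_injective (⊤ : Subgroup G).subtype Subtype.val_injective
  · intro g
    refine ⟨0, ?_⟩
    have : Subsingleton (G ⧸ (⊤ : Subgroup G)) := QuotientGroup.subsingleton_quotient_top
    exact Subsingleton.elim _ _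

theorem IsHyperelementary.of_surjective {G G' : Type*} [Group G] [Group G'] [Finite G]
    (h : IsHyperelementary G) (f : G →* G') (hf : Function.Surjective f) :
    IsHyperelementary G' := by
  obtain ⟨p, hp, C, hC, hC1, hC2⟩ := h
  refine ⟨p, hp, C.map f, hC.map f hf, ?_, ?_⟩
  · exact isCyclic_of_surjective (f.subgroupMap C) (f.subgroupMap_surjective C)
  · have := hC.map f hf
    refine hC2.of_surjective (QuotientGroup.map C (C.map f) f (Subgroup.le_comap_map f C)) ?_
    exact QuotientGroup.map_surjective_of_surjective _ _ _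
      ((QuotientGroup.mk'_surjective _).comp hf) _

theorem IsHyperelementary.subgroup {G : Type*} [Group G] [Finite G]
    (h : IsHyperelementary G) (H : Subgroup G) : IsHyperelementary H := by
  obtain ⟨p, hp, C, hC, hC1, hC2⟩ := h
  refine ⟨p, hp, C.subgroupOf H, inferInstance, ?_, ?_⟩
  · let φ : C.subgroupOf H →* C :=
      { toFun := fun x => ⟨x.1.1, Subgroup.mem_subgroupOf.mp x.2⟩
        map_one' := rfl
        map_mul' := fun _ _ => rfl }
    refine isCyclic_of_injective φ ?_
    intro x y hxy
    apply Subtype.ext
    apply Subtype.ext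
    exact congrArg (fun c : C => (c : G)) hxy
  · have hle : C.subgroupOf H ≤ C.comap H.subtype := le_of_eq rfl
    refine hC2.of_injective (QuotientGroup.map (C.subgroupOf H) C H.subtype hle) ?_
    rw [injective_iff_map_eq_one]
    intro x
    induction x using QuotientGroup.induction_on with
    | H z =>
      intro hz
      rw [QuotientGroup.map_mk, QuotientGroup.eq_one_iff] at hz
      rw [QuotientGroup.eq_one_iff]
      exact hz

end Pool.Agent.Lib.MP_1a91b9_nt
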