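import Pool.Agent.Lib.MP_1a91b9_nt.Defs

/-!
# The Solomon induction theorem

The constant function `1` on a finite group is an integral combination of the permutation
characters of the transitive `G`-sets `G / H` with `H` hyperelementary.
-/

set_option autoImplicit false

namespace Pool.Agent.Lib.MP_1a91b9_nt

open MulAction

section HyperAux

theorem solomon_hyper_of_injective {G G' : Type*} [Group G] [Group G']
    (h : IsHyperelementary G') (f : G →* G') (hf : Function.Injective f) :
    IsHyperelementary G := by
  obtain ⟨p, hp, C, hC, hcyc, hpg⟩ := h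
  refine ⟨p, hp, C.comap f, inferInstance, ?_, ?_⟩
  · have := hcyc
    let φ : (C.comap f) →* C := (f.comp (C.comap f).subtype).codRestrict C (fun x => x.2)
    have hφ : Function.Injective φ := by
      intro x y hxy
      apply Subtype.ext
      apply hf
      exact congrArg Subtype.val hxy
    exact isCyclic_of_injective φ hφ
  · let φ : (G ⧸ C.comap f) →* G' ⧸ C :=
      QuotientGroup.map (C.comap f) C f le_rfl
    have hφ : Function.Injective φ := by
      rw [injective_iff_map_eq_one]
      intro x
      induction x using QuotientGroup.induction_on with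
      | H x =>
        intro hx
        have hx' : ((f x : G') : G' ⧸ C) = 1 := hx
        rw [QuotientGroup.eq_one_iff] at hx'
        rw [QuotientGroup.eq_one_iff]
        exact hx'
    exact hpg.of_injective φ hφ

end HyperAux

section Span

variable {G : Type*} [Group G]

/-- The integral span of the permutation characters of hyperelementary subgroups. -/
def hyperSpan (G : Type*) [Group G] : Submodule ℤ (G → ℤ) :=
  Submodule.span ℤ (Set.range fun H : {H : Subgroup G // IsHyperelementary H} =>
    fun g : G => (fixNum H.1 g : ℤ))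

theorem fixNum_mem_hyperSpan (H : Subgroup G) (hH : IsHyperelementary H) :
    (fun g : G => (fixNum H g : ℤ)) ∈ hyperSpan G :=
  Submodule.subset_span ⟨⟨H, hH⟩, rfl⟩

/-- Decomposition of the fixed points of a finite `G`-set along the orbits. -/
theorem card_fixedBy_eq_sum (X : Type*) [MulAction G X] [Finite G] [Finite X]
    [Fintype (Quotient (orbitRel G X))] (g : G) :
    Nat.card (fixedBy X g) =
      ∑ ω : Quotient (orbitRel G X), fixNum (stabilizer G (Quotient.out ω)) g := by
  classical
  unfold fixNum
  rw [← Nat.card_sigma]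
  symm
  let F : (Σ ω : Quotient (orbitRel G X),
      fixedBy (G ⧸ stabilizer G (Quotient.out ω)) g) → fixedBy X g := fun p =>
    ⟨ofQuotientStabilizer G (Quotient.out p.1) p.2.1, by
      have h := p.2.2
      rw [mem_fixedBy] at h ⊢
      rw [← ofQuotientStabilizer_smul, h]⟩
  apply Nat.card_congr
  apply Equiv.ofBijective F
  have hmk : ∀ (ω : Quotient (orbitRel G X)) (q : G ⧸ stabilizer G (Quotient.out ω)),
      (Quotient.mk (orbitRel G X) (ofQuotientStabilizer G (Quotient.out ω) q)) = ω := by
    intro ω q
    have h1 : ofQuotientStabilizer G (Quotient.out ω) q ∈ orbit G (Quotient.out ω) :=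
      ofQuotientStabilizer_mem_orbit G (Quotient.out ω) q
    have h2 : (Quotient.mk (orbitRel G X) (ofQuotientStabilizer G (Quotient.out ω) q)) =
        Quotient.mk (orbitRel G X) (Quotient.out ω) := by
      apply Quotient.sound
      exact h1
    rw [h2, Quotient.out_eq]
  constructor
  · rintro ⟨ω, q, hq⟩ ⟨ω', q', hq'⟩ h
    have h0 : ofQuotientStabilizer G (Quotient.out ω) q =
        ofQuotientStabilizer G (Quotient.out ω') q' := congrArg Subtype.val h
    have hω : ω = ω' := by
      rw [← hmk ω q, ← hmk ω' q', h0]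
    subst hω
    have := injective_ofQuotientStabilizer G (Quotient.out ω) h0
    subst this
    rfl
  · rintro ⟨x, hx⟩
    have hx0 : x ∈ orbit G (Quotient.out (Quotient.mk (orbitRel G X) x)) := by
      have : (orbitRel G X).r x (Quotient.out (Quotient.mk (orbitRel G X) x)) := by
        apply Quotient.exact
        rw [Quotient.out_eq]
      exact this
    obtain ⟨a, ha⟩ := hx0
    refine ⟨⟨Quotient.mk (orbitRel G X) x, ⟨(a : G ⧸ _), ?_⟩⟩, ?_⟩
    · rw [mem_fixedBy]
      apply injective_ofQuotientStabilizer G
      rw [ofQuotientStabilizer_smul, ofQuotientStabilizer_mk]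
      have ha' : a • (Quotient.out (Quotient.mk (orbitRel G X) x)) = x := ha
      rw [ha']
      exact hx
    · apply Subtype.ext
      exact ha

theorem card_fixedBy_mem_hyperSpan (X : Type*) [MulAction G X] [Finite G] [Finite X]
    (h : ∀ x : X, IsHyperelementary (stabilizer G x)) :
    (fun g : G => (Nat.card (fixedBy X g) : ℤ)) ∈ hyperSpan G := by
  classical
  have : Fintype (Quotient (orbitRel G X)) := Fintype.ofFinite _
  have h1 : (fun g : G => (Nat.card (fixedBy X g) : ℤ)) =
      ∑ ω : Quotient (orbitRel G X),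
        (fun g : G => (fixNum (stabilizer G (Quotient.out ω)) g : ℤ)) := by
    funext g
    rw [card_fixedBy_eq_sum X g, Finset.sum_apply]
    push_cast
    rfl
  rw [h1]
  exact Submodule.sum_mem _ fun ω _ => fixNum_mem_hyperSpan _ (h _)

theorem stabilizer_quotient_le (H : Subgroup G) (x : G) (c : G)
    (hc : c ∈ stabilizer G (x : G ⧸ H)) : x⁻¹ * c * x ∈ H := by
  rw [mem_stabilizer_iff] at hc
  have h1 : ((c * x : G) : G ⧸ H) = (x : G ⧸ H) := hc
  rw [eq_comm, QuotientGroup.eq] at h1
  rwa [mul_assoc]

theorem fixNum_mul_mem (H K : Subgroup G) [Finite G] (hH : IsHyperelementary H) :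
    (fun g : G => (fixNum H g : ℤ) * (fixNum K g : ℤ)) ∈ hyperSpan G := by
  have h1 : (fun g : G => (fixNum H g : ℤ) * (fixNum K g : ℤ)) =
      fun g : G => (Nat.card (fixedBy ((G ⧸ H) × (G ⧸ K)) g) : ℤ) := by
    funext g
    unfold fixNum
    rw [← Nat.cast_mul, ← Nat.card_prod]
    congr 1
    apply Nat.card_congr
    refine ⟨fun p => ⟨(p.1.1, p.2.1), ?_⟩, fun p => (⟨p.1.1, ?_⟩, ⟨p.1.2, ?_⟩), ?_, ?_⟩
    · rw [mem_fixedBy]
      exact Prod.ext p.1.2 p.2.2
    · exact congrArg Prod.fst p.2
    · exact congrArg Prod.snd p.2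
    · intro p; rfl
    · intro p; rfl
  rw [h1]
  apply card_fixedBy_mem_hyperSpan
  rintro ⟨x, y⟩
  induction x using QuotientGroup.induction_on with
  | H x =>
    let φ : (stabilizer G (((x : G ⧸ H), y) : (G ⧸ H) × (G ⧸ K))) →* H :=
      ((MulAut.conj x⁻¹).toMonoidHom.comp (Subgroup.subtype _)).codRestrict H (by
        rintro ⟨c, hc⟩
        have hc1 : c ∈ stabilizer G (x : G ⧸ H) := by
          rw [mem_stabilizer_iff] at hc ⊢
          exact congrArg Prod.fst hc
        have := stabilizer_quotient_le H x c hc1
        simpa [MulAut.conj_apply] using this)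
    refine solomon_hyper_of_injective hH φ ?_
    intro a b hab
    have h2 : (MulAut.conj x⁻¹) (a : G) = (MulAut.conj x⁻¹) (b : G) :=
      congrArg Subtype.val hab
    exact Subtype.ext ((MulAut.conj x⁻¹).injective h2)

theorem mul_mem_hyperSpan [Finite G] {a b : G → ℤ} (ha : a ∈ hyperSpan G)
    (hb : b ∈ hyperSpan G) : a * b ∈ hyperSpan G := by
  unfold hyperSpan at ha hb
  induction ha using Submodule.span_induction with
  | mem x hx =>
    obtain ⟨H, rfl⟩ := hx
    induction hb using Submodule.span_induction with
    | mem y hy =>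
      obtain ⟨K, rfl⟩ := hy
      exact fixNum_mul_mem H.1 K.1 H.2
    | zero => rw [mul_zero]; exact Submodule.zero_mem _
    | add y z _ _ hy hz => rw [mul_add]; exact Submodule.add_mem _ hy hz
    | smul c y _ hy => rw [mul_smul_comm]; exact Submodule.smul_mem _ _ hy
  | zero => rw [zero_mul]; exact Submodule.zero_mem _
  | add y z _ _ hy hz => rw [add_mul]; exact Submodule.add_mem _ hy hz
  | smul c y _ hy => rw [smul_mul_assoc]; exact Submodule.smul_mem _ _ hy

end Span

section Prime

variable {G : Type*} [Group G]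

/-- Passing to a `p`-power does not change the number of fixed points modulo `p`. -/
theorem fixNum_pow_modEq [Finite G] (H : Subgroup G) (g : G) (p k : ℕ) (hp : p.Prime) :
    fixNum H (g ^ p ^ k) ≡ fixNum H g [MOD p] := by
  classical
  have : Fact p.Prime := ⟨hp⟩
  have : Fintype (fixedBy (G ⧸ H) (g ^ p ^ k)) := Fintype.ofFinite _
  let f : Function.End (fixedBy (G ⧸ H) (g ^ p ^ k)) := fun x => ⟨g • x.1, by
    have h := x.2
    rw [mem_fixedBy] at h ⊢
    rw [smul_smul, ← pow_succ, pow_succ', ← smul_smul, h]⟩
  have hiter : ∀ (n : ℕ) (x : fixedBy (G ⧸ H) (g ^ p ^ k)), ((f ^ n) x).1 = g ^ n • x.1 := by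
    intro n
    induction n with
    | zero => intro x; rw [pow_zero, pow_zero, one_smul]; rfl
    | succ n ih =>
      intro x
      rw [pow_succ, pow_succ, Function.End.mul_def]
      show ((f ^ n) (f x)).1 = _
      rw [ih (f x), ← smul_smul]
  have hf : f ^ p ^ k = 1 := by
    funext x
    apply Subtype.ext
    rw [hiter]
    exact x.2
  have h := Equiv.Perm.card_fixedPoints_modEq hf
  unfold fixNum
  rw [Nat.card_eq_fintype_card]
  refine h.trans ?_
  have h2 : Fintype.card f.fixedPoints = Nat.card (fixedBy (G ⧸ H) g) := by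
    rw [← Nat.card_eq_fintype_card]
    apply Nat.card_congr
    refine ⟨fun x => ⟨x.1.1, ?_⟩, fun x => ⟨⟨x.1, ?_⟩, ?_⟩, ?_, ?_⟩
    · rw [mem_fixedBy]
      exact congrArg Subtype.val x.2
    · have hx := x.2
      rw [mem_fixedBy] at hx ⊢
      have : ∀ n : ℕ, g ^ n • x.1 = x.1 := by
        intro n
        induction n with
        | zero => simp
        | succ n ih => rw [pow_succ, ← smul_smul, hx, ih]
      exact this _
    · show f _ = _
      apply Subtype.ext
      exact x.2
    · intro x; rfl
    · intro x; rfl
  rw [h2]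

/-- For an element `b` of order prime to `p` there is a hyperelementary subgroup `H` such that the
number of fixed points of `b` on `G / H` is prime to `p`. -/
theorem exists_hyper_not_dvd_aux [Finite G] (b : G) (p : ℕ) (hp : p.Prime)
    (hb : ¬ p ∣ orderOf b) :
    ∃ H : Subgroup G, IsHyperelementary H ∧ ¬ p ∣ fixNum H b := by
  classical
  have : Fact p.Prime := ⟨hp⟩
  set C : Subgroup G := Subgroup.zpowers b with hC
  set N : Subgroup G := Subgroup.normalizer (C : Set G) with hN
  obtain ⟨P⟩ : Nonempty (Sylow p N) := inferInstance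
  set P' : Subgroup G := (P : Subgroup N).map N.subtype with hP'
  have hP'N : P' ≤ N := Subgroup.map_subtype_le _
  have hCN : C ≤ N := Subgroup.le_normalizer
  set H : Subgroup G := P' ⊔ C with hH
  have hHN : H ≤ N := sup_le hP'N hCN
  have hn1 : (C.subgroupOf P').Normal := Subgroup.normal_subgroupOf_of_le_normalizer hP'N
  have hn2 : (C.subgroupOf (P' ⊔ C)).Normal :=
    Subgroup.normal_subgroupOf_sup_of_le_normalizer hP'N
  have hP'p : IsPGroup p P' := P.isPGroup'.map N.subtype
  have hquot : IsPGroup p (H ⧸ C.subgroupOf H) := by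
    have e := QuotientGroup.quotientInfEquivProdNormalizerQuotient P' C hP'N
    exact (hP'p.to_quotient (C.subgroupOf P')).of_equiv e
  refine ⟨H, ⟨p, hp, C.subgroupOf H, hn2, ?_, hquot⟩, ?_⟩
  · have hCH : C ≤ H := le_sup_right
    exact isCyclic_of_injective (Subgroup.subgroupOfEquivOfLe hCH).toMonoidHom
      (Subgroup.subgroupOfEquivOfLe hCH).injective
  · -- count
    have hmem : ∀ x : G, x⁻¹ * b * x ∈ H ↔ x ∈ N := by
      intro x
      constructor
      · intro hx
        -- the element lies in `C`
        have h1 : x⁻¹ * b * x ∈ C := by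
          let y : H := ⟨x⁻¹ * b * x, hx⟩
          have hy : (QuotientGroup.mk y : H ⧸ C.subgroupOf H) = 1 := by
            obtain ⟨k, hk⟩ := hquot (QuotientGroup.mk y)
            have ho1 : orderOf (QuotientGroup.mk y : H ⧸ C.subgroupOf H) ∣ p ^ k :=
              orderOf_dvd_of_pow_eq_one hk
            have ho2 : orderOf (QuotientGroup.mk y : H ⧸ C.subgroupOf H) ∣ orderOf b := by
              apply orderOf_dvd_of_pow_eq_one
              have : y ^ orderOf b = 1 := by
                apply Subtype.ext
                show (x⁻¹ * b * x) ^ orderOf b = 1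
                have h3 : x⁻¹ * b * x = x⁻¹ * b * (x⁻¹)⁻¹ := by rw [inv_inv]
                rw [h3, conj_pow, pow_orderOf_eq_one]
                simp
              rw [← QuotientGroup.mk_pow, this, QuotientGroup.mk_one]
            have hcop : Nat.Coprime (p ^ k) (orderOf b) :=
              Nat.Coprime.pow_left k ((Nat.Prime.coprime_iff_not_dvd hp).2 hb)
            have h4 : orderOf (QuotientGroup.mk y : H ⧸ C.subgroupOf H) ∣ 1 := by
              rw [← Nat.Coprime.gcd_eq_one hcop]
              exact Nat.dvd_gcd ho1 ho2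
            rw [← orderOf_eq_one_iff]
            exact Nat.dvd_one.1 h4
          rw [QuotientGroup.eq_one_iff] at hy
          exact hy
        have h2 : x⁻¹ ∈ N := by
          apply Subgroup.mem_normalizer_fintype
          intro n hn
          obtain ⟨j, rfl⟩ := Subgroup.mem_zpowers_iff.1 hn
          rw [← conj_zpow]
          rw [inv_inv]
          exact Subgroup.zpow_mem C h1 j
        exact (Subgroup.inv_mem_iff N).1 h2
      · intro hx
        have h1 : x⁻¹ ∈ N := (Subgroup.inv_mem_iff N).2 hx
        rw [hN, Subgroup.mem_normalizer_iff] at h1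
        have h2 := (h1 b).1 (Subgroup.mem_zpowers b)
        rw [inv_inv] at h2
        exact le_sup_right (a := P') h2
    have hcard : fixNum H b = H.relIndex N := by
      unfold fixNum Subgroup.relIndex Subgroup.index
      symm
      apply Nat.card_congr
      let F : N ⧸ (H.subgroupOf N) → G ⧸ H :=
        Quotient.map' (fun x : N => (x : G)) (by
          intro x y hxy
          rw [QuotientGroup.leftRel_apply] at hxy ⊢
          exact hxy)
      have hFmk : ∀ x : N, F (QuotientGroup.mk x) = ((x : G) : G ⧸ H) := fun x => rfl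
      have hFfix : ∀ q, F q ∈ fixedBy (G ⧸ H) b := by
        intro q
        induction q using QuotientGroup.induction_on with
        | H x =>
          rw [hFmk, mem_fixedBy]
          show ((b * (x : G) : G) : G ⧸ H) = _
          rw [eq_comm, QuotientGroup.eq, ← mul_assoc]
          exact (hmem x).2 x.2
      refine Equiv.ofBijective (fun q => (⟨F q, hFfix q⟩ : fixedBy (G ⧸ H) b)) ⟨?_, ?_⟩
      · intro q r hqr
        have hqr' : F q = F r := congrArg Subtype.val hqr
        induction q using QuotientGroup.induction_on with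
        | H x =>
          induction r using QuotientGroup.induction_on with
          | H y =>
            rw [hFmk, hFmk, QuotientGroup.eq] at hqr'
            rw [QuotientGroup.eq]
            exact hqr'
      · rintro ⟨q, hq⟩
        induction q using QuotientGroup.induction_on with
        | H x =>
          rw [mem_fixedBy] at hq
          have hq' : ((b * x : G) : G ⧸ H) = (x : G ⧸ H) := hq
          rw [eq_comm, QuotientGroup.eq, ← mul_assoc] at hq'
          have hx : x ∈ N := (hmem x).1 hq'
          exact ⟨QuotientGroup.mk (⟨x, hx⟩ : N), rfl⟩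
    rw [hcard]
    intro hdvd
    have h1 : P'.relIndex N = (P : Subgroup N).index := by
      rw [hP', Subgroup.relIndex]
      congr 1
      rw [← Subgroup.comap_subtype, Subgroup.comap_map_eq_self_of_injective
        (Subgroup.subtype_injective N)]
    have h2 : H.relIndex N ∣ P'.relIndex N :=
      Subgroup.relIndex_dvd_of_le_left N (le_sup_left)
    have h3 : ¬ p ∣ (P : Subgroup N).index := P.not_dvd_index
    exact h3 (h1 ▸ hdvd.trans h2)

theorem exists_hyper_not_dvd [Finite G] (g : G) (p : ℕ) (hp : p.Prime) :
    ∃ H : Subgroup G, IsHyperelementary H ∧ ¬ p ∣ fixNum H g := by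
  obtain ⟨k, m, hm, hkm⟩ := Nat.exists_eq_pow_mul_and_not_dvd
    (orderOf_pos g).ne' p hp.ne_one
  obtain ⟨H, hH, hH2⟩ := exists_hyper_not_dvd_aux (g ^ p ^ k) p hp (by
    rw [orderOf_pow_of_dvd (pow_ne_zero k hp.ne_zero) (by rw [hkm]; exact dvd_mul_right _ _),
      hkm, Nat.mul_div_cancel_left _ (pow_pos hp.pos k)]
    exact hm)
  refine ⟨H, hH, fun h => hH2 ?_⟩
  exact (Nat.ModEq.dvd_iff (fixNum_pow_modEq H g p k hp) dvd_rfl).2 h

end Prime

/-- Evaluation ideal: some element of the span has value `1` at `g`. -/
theorem exists_eval_one {G : Type*} [Group G] [Finite G] (g : G) :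
    ∃ f ∈ hyperSpan G, f g = 1 := by
  classical
  let I : Submodule ℤ ℤ := (hyperSpan G).map (LinearMap.proj g : (G → ℤ) →ₗ[ℤ] ℤ)
  have hI : I = ⊤ := by
    by_contra hne
    obtain ⟨M, hM, hIM⟩ := Ideal.exists_le_maximal (I : Ideal ℤ) hne
    have hMp : M.IsPrime := hM.isPrime
    obtain ⟨d, hd⟩ := (IsPrincipalIdealRing.principal M).principal
    have hd' : M = Ideal.span {d} := hd
    -- a prime number lying in `M`
    have : ∃ p : ℕ, p.Prime ∧ M ≤ Ideal.span {(p : ℤ)} := by
      by_cases h0 : d = 0
      · refine ⟨2, Nat.prime_two, ?_⟩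
        rw [hd', h0]
        simp
      · have hdp : Prime d := by
          rw [hd'] at hMp
          exact (Ideal.span_singleton_prime h0).1 hMp
        refine ⟨d.natAbs, Int.prime_iff_natAbs_prime.1 hdp, ?_⟩
        rw [hd', Int.span_natAbs]
    obtain ⟨p, hp, hMp'⟩ := this
    obtain ⟨H, hH, hH2⟩ := exists_hyper_not_dvd g p hp
    have h1 : ((fixNum H g : ℕ) : ℤ) ∈ I :=
      ⟨_, fixNum_mem_hyperSpan H hH, rfl⟩
    have h2 := hMp' (hIM h1)
    rw [Ideal.mem_span_singleton] at h2
    exact hH2 (by exact_mod_cast h2)
  have h1 : (1 : ℤ) ∈ I := by rw [hI]; trivial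
  obtain ⟨f, hf, hf1⟩ := h1
  exact ⟨f, hf, hf1⟩

theorem one_mem_hyperSpan (G : Type*) [Group G] [Finite G] :
    (fun _ : G => (1 : ℤ)) ∈ hyperSpan G := by
  classical
  have : Fintype G := Fintype.ofFinite G
  have key : ∀ T : Finset G, ∃ f ∈ hyperSpan G, ∀ g ∈ T, f g = 1 := by
    intro T
    induction T using Finset.induction_on with
    | empty => exact ⟨0, Submodule.zero_mem _, by simp⟩
    | insert a T ha ih =>
      obtain ⟨f, hf, hf1⟩ := ih
      obtain ⟨e, he, he1⟩ := exists_eval_one a
      refine ⟨f + e - f * e, Submodule.sub_mem _ (Submodule.add_mem _ hf he)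
        (mul_mem_hyperSpan hf he), ?_⟩
      intro g hg
      rw [Finset.mem_insert] at hg
      show f g + e g - f g * e g = 1
      rcases hg with rfl | hg
      · rw [he1]; ring
      · rw [hf1 g hg]; ring
  obtain ⟨f, hf, hf1⟩ := key Finset.univ
  have : f = fun _ : G => (1 : ℤ) := by
    funext g
    exact hf1 g (Finset.mem_univ g)
  rwa [this] at hf

/-- **Solomon's induction theorem.** -/
theorem exists_solomon (G : Type*) [Group G] [Finite G] [Fintype (Subgroup G)] :
    ∃ n : Subgroup G → ℤ, (∀ H, n H ≠ 0 → IsHyperelementary H) ∧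
      ∀ g : G, ∑ H, n H * fixNum H g = 1 := by
  classical
  have h := one_mem_hyperSpan G
  unfold hyperSpan at h
  rw [Submodule.mem_span_range_iff_exists_fun] at h
  obtain ⟨c, hc⟩ := h
  refine ⟨fun H => if h : IsHyperelementary H then c ⟨H, h⟩ else 0, ?_, ?_⟩
  · intro H hH
    by_contra hcon
    exact hH (dif_neg hcon)
  · intro g
    have h1 := congrFun hc g
    rw [Finset.sum_apply] at h1
    rw [← h1]
    simp only [Pi.smul_apply, smul_eq_mul]
    symm
    apply Finset.sum_of_injOn (fun x : {H : Subgroup G // IsHyperelementary H} => x.1)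
    · exact Subtype.val_injective.injOn
    · intro x _
      exact Finset.mem_coe.2 (Finset.mem_univ _)
    · intro H _ hH
      have hn : ¬ IsHyperelementary H := fun h => hH ⟨⟨H, h⟩, Finset.mem_coe.2 (Finset.mem_univ _), rfl⟩
      rw [dif_neg hn, zero_mul]
    · intro x _
      rw [dif_pos x.2]

end Pool.Agent.Lib.MP_1a91b9_nt
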