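import Pool.Agent.Lib.MP_1a91b9_nt.Core
import Pool.Agent.Lib.MP_1a91b9_nt.Artin
import Pool.Agent.Lib.MP_1a91b9_nt.Solomon
import Pool.Agent.Lib.MP_1a91b9_nt.Hyper

/-!
# Induction from cyclic and from hyperelementary subgroups
-/

set_option autoImplicit false

namespace Pool.Agent.Lib.MP_1a91b9_nt

open IsDedekindDomain NumberField Polynomial IntermediateField

universe u

theorem RankPow.mul {K : Type*} [Field K] [NumberField K] {W : WeierstrassCurve K} {k : ℕ}
    (h : RankPow k W) (l : ℕ) : RankPow (k * l) W := by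
  obtain ⟨g, r, hg1, hg2, hg3, hg4⟩ := h
  refine ⟨g ^ l, r, hg1.pow l, ?_, hg3, ?_⟩
  · intro s hs
    rw [Pi.pow_apply, hg2 s hs, pow_mul]
  · rw [meromorphicOrderAt_pow (hg1 1 (Set.mem_univ _)), hg4]
    have h1 : ((l : ℕ) : WithTop ℤ) = (((l : ℕ) : ℤ) : WithTop ℤ) := rfl
    have h2 : ((k * r : ℕ) : WithTop ℤ) = (((k * r : ℕ) : ℤ) : WithTop ℤ) := rfl
    have h3 : ((k * l * r : ℕ) : WithTop ℤ) = (((k * l * r : ℕ) : ℤ) : WithTop ℤ) := rfl
    rw [h1, h2, h3, ← WithTop.coe_mul]
    congr 1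
    push_cast
    ring

theorem RankPow.finite {K : Type*} [Field K] [NumberField K] {W : WeierstrassCurve K} {k : ℕ}
    (h : RankPow k W) : mwRank W < Cardinal.aleph0 := by
  obtain ⟨g, r, hg1, hg2, hg3, hg4⟩ := h
  rw [hg3]
  exact Cardinal.natCast_lt_aleph0

theorem RankPow.one_weak {K : Type*} [Field K] [NumberField K] {W : WeierstrassCurve K}
    (h : RankPow 1 W) : WeakRank W := ⟨1, one_pos, h⟩

variable {F M : Type u} [Field F] [NumberField F] [Field M] [NumberField M] [Algebra F M]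
  [IsGalois F M]

theorem weak_of_cyclic (W : WeierstrassCurve F) [W.IsElliptic]
    (h : ∀ C : Subgroup Gal(M/F), IsCyclic C → WeakRank (W.baseChange (fixedField C))) :
    WeakRank W := by
  classical
  obtain ⟨n, m, hm, hn, hrel⟩ := exists_artin Gal(M/F)
  have h' : ∀ C : Subgroup Gal(M/F), ∃ k : ℕ, 0 < k ∧
      (IsCyclic C → RankPow k (W.baseChange (fixedField C))) := by
    intro C
    by_cases hC : IsCyclic C
    · obtain ⟨k, hk, hk'⟩ := h C hC
      exact ⟨k, hk, fun _ => hk'⟩
    · exact ⟨1, one_pos, fun h => absurd h hC⟩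
  choose k hk hk' using h'
  have hfin : mwRank (W.baseChange M) < Cardinal.aleph0 := by
    rw [← mwRank_fixedField_bot (F := F) (M := M) W]
    exact (hk' ⊥ inferInstance).finite
  refine ⟨m * ∏ C, k C, Nat.mul_pos hm (Finset.prod_pos fun C _ => hk C), ?_⟩
  refine core (M := M) W n m (∏ C, k C) hrel ?_ hfin
  intro H hH
  rw [← Finset.mul_prod_erase Finset.univ k (Finset.mem_univ H)]
  exact (hk' H (hn H hH)).mul _

theorem exact_of_hyperelementary (W : WeierstrassCurve F) [W.IsElliptic]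
    (h : ∀ H : Subgroup Gal(M/F), IsHyperelementary H → RankPow 1 (W.baseChange (fixedField H))) :
    RankPow 1 W := by
  classical
  obtain ⟨n, hn, hrel⟩ := exists_solomon Gal(M/F)
  have hfin : mwRank (W.baseChange M) < Cardinal.aleph0 := by
    rw [← mwRank_fixedField_bot (F := F) (M := M) W]
    exact (h ⊥ (IsHyperelementary.of_isCyclic inferInstance)).finite
  have := core (M := M) W n 1 1 (fun g => by simpa using hrel g) (fun H hH => h H (hn H hH)) hfin
  simpa using this

end Pool.Agent.Lib.MP_1a91b9_nt
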