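import Pool.Agent.Lib.MP_1a91b9_nt.Splitting

/-!
# JOB QUADFIELD: splitting of primes in a quadratic extension
-/

set_option autoImplicit false

namespace Pool.Agent.Lib.MP_1a91b9_nt

open IsDedekindDomain NumberField Polynomial IntermediateField
open scoped Pointwise

universe u

theorem exists_quadratic {K : Type u} [Field K] [NumberField K] (d : K) (hsq : ¬ IsSquare d) :
    ∃ (L : Type u) (_ : Field L) (_ : NumberField L) (_ : Algebra K L) (δ : L),
      Module.finrank K L = 2 ∧ δ ^ 2 = algebraMap K L d := by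
  have hirr : Irreducible (X ^ 2 - C d : K[X]) := by
    refine X_pow_sub_C_irreducible_of_prime Nat.prime_two ?_
    intro b hb
    exact hsq ⟨b, by rw [← hb, sq]⟩
  have hfact : Fact (Irreducible (X ^ 2 - C d : K[X])) := ⟨hirr⟩
  have hfin : FiniteDimensional K (AdjoinRoot (X ^ 2 - C d : K[X])) :=
    (AdjoinRoot.powerBasis hirr.ne_zero).finite
  have hnf : NumberField (AdjoinRoot (X ^ 2 - C d : K[X])) := NumberField.of_module_finite K _
  refine ⟨AdjoinRoot (X ^ 2 - C d : K[X]), inferInstance, hnf, inferInstance,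
    AdjoinRoot.root _, ?_, ?_⟩
  · rw [(AdjoinRoot.powerBasis hirr.ne_zero).finrank, AdjoinRoot.powerBasis_dim,
      natDegree_X_pow_sub_C]
  · have h := AdjoinRoot.eval₂_root (X ^ 2 - C d : K[X])
    rw [eval₂_sub, eval₂_pow, eval₂_X, eval₂_C, sub_eq_zero] at h
    exact h

theorem finite_mem_asIdeal {K : Type u} [Field K] [NumberField K] (a : 𝓞 K) (ha : a ≠ 0) :
    {v : HeightOneSpectrum (𝓞 K) | a ∈ v.asIdeal}.Finite := by
  have h : Ideal.span {a} ≠ ⊥ := by
    rw [Ne, Ideal.span_singleton_eq_bot]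
    exact ha
  refine (Ideal.finite_factors h).subset ?_
  intro v hv
  exact Ideal.dvd_iff_le.mpr ((Ideal.span_singleton_le_iff_mem _).mpr hv)

section
variable {K L : Type u} [Field K] [NumberField K] [Field L] [NumberField L]
    [Algebra K L]

theorem card_over_eq (v : HeightOneSpectrum (𝓞 K)) :
    Nat.card {w : HeightOneSpectrum (𝓞 L) // w.asIdeal.under (𝓞 K) = v.asIdeal} =
      (v.asIdeal.primesOver (𝓞 L)).ncard := by
  rw [← Nat.card_coe_set_eq]
  refine Nat.card_congr ⟨fun w => ⟨w.1.asIdeal, w.1.isPrime, ⟨w.2.symm⟩⟩,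
    fun Q => ⟨⟨Q.1, Q.2.1, under_ne_bot v _ Q.2.2.over.symm⟩, Q.2.2.over.symm⟩,
      fun _ => rfl, fun _ => rfl⟩

theorem exists_conj [IsGalois K L] (a : K) (ha : ¬ IsSquare a)
    (δ : L) (hδ : δ ^ 2 = algebraMap K L a) : ∃ σ : Gal(L/K), σ δ = -δ := by
  by_contra hcon
  push Not at hcon
  have h1 : ∀ σ : Gal(L/K), σ δ = δ := by
    intro σ
    have h2 : (σ δ) ^ 2 = δ ^ 2 := by
      rw [← map_pow, hδ, AlgEquiv.commutes]
    rcases sq_eq_sq_iff_eq_or_eq_neg.mp h2 with h | h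
    · exact h
    · exact absurd h (hcon σ)
  obtain ⟨x, hx⟩ := (IsGalois.mem_range_algebraMap_iff_fixed δ).mpr h1
  apply ha
  refine ⟨x, ?_⟩
  apply FaithfulSMul.algebraMap_injective K L
  rw [← hδ, ← hx, sq, map_mul]

end

theorem quad_split {K L : Type u} [Field K] [NumberField K] [Field L] [NumberField L]
    [Algebra K L] (hL : Module.finrank K L = 2) (a : 𝓞 K)
    (ha : ¬ IsSquare (algebraMap (𝓞 K) K a)) (δ : L)
    (hδ : δ ^ 2 = algebraMap K L (algebraMap (𝓞 K) K a)) :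
    ∃ S : Set (HeightOneSpectrum (𝓞 K)), S.Finite ∧ ∀ v ∉ S,
      (IsSquare (Ideal.Quotient.mk v.asIdeal a) ∧
        (∀ w : HeightOneSpectrum (𝓞 L), w.asIdeal.under (𝓞 K) = v.asIdeal →
          w.asIdeal.inertiaDeg (𝓞 K) = 1) ∧
        Nat.card {w : HeightOneSpectrum (𝓞 L) // w.asIdeal.under (𝓞 K) = v.asIdeal} = 2) ∨
      (¬ IsSquare (Ideal.Quotient.mk v.asIdeal a) ∧
        (∀ w : HeightOneSpectrum (𝓞 L), w.asIdeal.under (𝓞 K) = v.asIdeal →
          w.asIdeal.inertiaDeg (𝓞 K) = 2) ∧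
        Nat.card {w : HeightOneSpectrum (𝓞 L) // w.asIdeal.under (𝓞 K) = v.asIdeal} = 1) := by
  have hquad : Algebra.IsQuadraticExtension K L := ⟨hL⟩
  have hgal : IsGalois K L := inferInstance
  have ha0 : a ≠ 0 := by
    rintro rfl
    exact ha ⟨0, by simp⟩
  have h2a : (2 * a : 𝓞 K) ≠ 0 := mul_ne_zero two_ne_zero ha0
  obtain ⟨σ, hσ⟩ := exists_conj _ ha δ hδ
  -- the integral element
  have hint : IsIntegral ℤ δ := by
    have h1 : IsIntegral ℤ (δ ^ 2) := by
      rw [hδ, ← IsScalarTower.algebraMap_apply, IsScalarTower.algebraMap_apply (𝓞 K) (𝓞 L) L]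
      exact RingOfIntegers.isIntegral_coe _
    exact h1.of_pow two_pos
  let D : 𝓞 L := ⟨δ, hint⟩
  have hD : D ^ 2 = algebraMap (𝓞 K) (𝓞 L) a := by
    apply RingOfIntegers.ext
    change δ ^ 2 = _
    rw [hδ]
    rfl
  have hσD : σ • D = -D := by
    apply RingOfIntegers.ext
    change σ δ = -δ
    exact hσ
  refine ⟨{v | 2 * a ∈ v.asIdeal}, finite_mem_asIdeal _ h2a, ?_⟩
  intro v hv
  have hv' : 2 * a ∉ v.asIdeal := hv
  have hvp : v.asIdeal.IsPrime := v.isPrime
  have hvm : v.asIdeal.IsMaximal := v.isMaximal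
  have hfund := Ideal.ncard_primesOver_mul_ramificationIdxIn_mul_inertiaDegIn v.asIdeal (𝓞 L)
    Gal(L/K)
  have hcard : Nat.card Gal(L/K) = 2 := by
    rw [IsGalois.card_aut_eq_finrank, hL]
  rw [hcard] at hfund
  have hdeg : ∀ w : HeightOneSpectrum (𝓞 L), w.asIdeal.under (𝓞 K) = v.asIdeal →
      w.asIdeal.inertiaDeg (𝓞 K) = Ideal.inertiaDegIn v.asIdeal (𝓞 L) := by
    intro w hw
    have i1 : w.asIdeal.IsPrime := w.isPrime
    have i2 : w.asIdeal.LiesOver v.asIdeal := ⟨hw.symm⟩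
    exact (Ideal.inertiaDegIn_eq_inertiaDeg v.asIdeal w.asIdeal Gal(L/K)).symm
  rw [card_over_eq]
  obtain ⟨Q, hQ1, hQ2⟩ := (inferInstance : Nonempty (v.asIdeal.primesOver (𝓞 L)))
  have hQm : Q.IsMaximal := Ideal.IsPrime.isMaximal inferInstance
    (under_ne_bot v Q hQ2.over.symm)
  have hmem : ∀ x : 𝓞 K, algebraMap (𝓞 K) (𝓞 L) x ∈ Q ↔ x ∈ v.asIdeal := by
    intro x
    rw [hQ2.over]
    rfl
  by_cases hs : IsSquare (Ideal.Quotient.mk v.asIdeal a)
  · left
    obtain ⟨c', hc'⟩ := hs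
    obtain ⟨c, rfl⟩ := Ideal.Quotient.mk_surjective c'
    have hac : a - c * c ∈ v.asIdeal := by
      rw [← Ideal.Quotient.eq, hc', map_mul]
    have hne1 : (v.asIdeal.primesOver (𝓞 L)).ncard ≠ 1 := by
      intro h1
      obtain ⟨P, hP⟩ := Set.ncard_eq_one.mp h1
      have hQP : Q = P := by
        have : Q ∈ v.asIdeal.primesOver (𝓞 L) := ⟨hQ1, hQ2⟩
        rw [hP] at this
        exact this
      have hσQ : σ • Q = Q := by
        have h2 : σ • Q ∈ v.asIdeal.primesOver (𝓞 L) := ⟨inferInstance, inferInstance⟩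
        rw [hP] at h2
        rw [hQP]
        rw [hQP] at h2
        exact h2
      have hmul : (D - algebraMap (𝓞 K) (𝓞 L) c) * (D + algebraMap (𝓞 K) (𝓞 L) c) ∈ Q := by
        have e1 : (D - algebraMap (𝓞 K) (𝓞 L) c) * (D + algebraMap (𝓞 K) (𝓞 L) c) =
            algebraMap (𝓞 K) (𝓞 L) (a - c * c) := by
          rw [map_sub, ← hD, map_mul]
          ring
        rw [e1, hmem]
        exact hac
      have hstab : ∀ x : 𝓞 L, x ∈ Q → σ • x ∈ Q := by
        intro x hx
        rw [← hσQ]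
        exact Ideal.smul_mem_pointwise_smul _ _ _ hx
      have hfin : algebraMap (𝓞 K) (𝓞 L) (2 * c) ∈ Q := by
        have hcfix : σ • algebraMap (𝓞 K) (𝓞 L) c = algebraMap (𝓞 K) (𝓞 L) c := smul_algebraMap _ _
        rcases hQ1.mem_or_mem hmul with h | h
        · have h3 := hstab _ h
          rw [smul_sub, hσD, hcfix] at h3
          have h4 := Q.neg_mem (Q.add_mem h h3)
          convert h4 using 1
          rw [map_mul, map_ofNat]
          ring
        · have h3 := hstab _ h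
          rw [smul_add, hσD, hcfix] at h3
          have h4 := Q.add_mem h h3
          convert h4 using 1
          rw [map_mul, map_ofNat]
          ring
      rw [hmem] at hfin
      apply hv'
      rcases hvp.mem_or_mem hfin with h | h
      · exact Ideal.mul_mem_right _ _ h
      · refine Ideal.mul_mem_left _ _ ?_
        have := Ideal.add_mem _ hac (Ideal.mul_mem_right c _ h)
        rwa [sub_add_cancel] at this
    have hdvd : (v.asIdeal.primesOver (𝓞 L)).ncard ∣ 2 := ⟨_, hfund.symm⟩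
    have h2 : (v.asIdeal.primesOver (𝓞 L)).ncard = 2 := by
      rcases (Nat.dvd_prime Nat.prime_two).mp hdvd with h | h
      · exact absurd h hne1
      · exact h
    refine ⟨⟨_, hc'⟩, ?_, h2⟩
    intro w hw
    rw [hdeg w hw]
    rw [h2] at hfund
    have h3 : Ideal.ramificationIdxIn v.asIdeal (𝓞 L) * Ideal.inertiaDegIn v.asIdeal (𝓞 L) = 1 := by
      omega
    exact Nat.eq_one_of_mul_eq_one_left h3
  · right
    have hne1 : Ideal.inertiaDegIn v.asIdeal (𝓞 L) ≠ 1 := by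
      intro h1
      have h2 : Q.inertiaDeg (𝓞 K) = 1 := by
        rw [← h1]
        exact (Ideal.inertiaDegIn_eq_inertiaDeg v.asIdeal Q Gal(L/K)).symm
      rw [Ideal.inertiaDeg_eq_of_isMaximal v.asIdeal Q] at h2
      let _ : Field (𝓞 K ⧸ v.asIdeal) := Ideal.Quotient.field _
      let _ : Field (𝓞 L ⧸ Q) := Ideal.Quotient.field _
      have h3 : ∃ c' : 𝓞 K ⧸ v.asIdeal, algebraMap (𝓞 K ⧸ v.asIdeal) (𝓞 L ⧸ Q) c' =
          Ideal.Quotient.mk Q D := by
        have h4 := (finrank_eq_one_iff_of_nonzero' (1 : 𝓞 L ⧸ Q) one_ne_zero).mp h2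
          (Ideal.Quotient.mk Q D)
        obtain ⟨c', hc'⟩ := h4
        refine ⟨c', ?_⟩
        rw [← hc', Algebra.smul_def, mul_one]
      obtain ⟨c', hc'⟩ := h3
      apply hs
      refine ⟨c', ?_⟩
      apply (algebraMap (𝓞 K ⧸ v.asIdeal) (𝓞 L ⧸ Q)).injective
      rw [map_mul, hc', ← map_mul, ← sq, hD]
      rfl
    have hdvd : Ideal.inertiaDegIn v.asIdeal (𝓞 L) ∣ 2 := by
      refine ⟨(v.asIdeal.primesOver (𝓞 L)).ncard * Ideal.ramificationIdxIn v.asIdeal (𝓞 L), ?_⟩
      rw [← hfund]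
      ring
    have h2 : Ideal.inertiaDegIn v.asIdeal (𝓞 L) = 2 := by
      rcases (Nat.dvd_prime Nat.prime_two).mp hdvd with h | h
      · exact absurd h hne1
      · exact h
    refine ⟨hs, ?_, ?_⟩
    · intro w hw
      rw [hdeg w hw, h2]
    · rw [h2] at hfund
      have h3 : (v.asIdeal.primesOver (𝓞 L)).ncard * Ideal.ramificationIdxIn v.asIdeal (𝓞 L) = 1 := by
        have : (v.asIdeal.primesOver (𝓞 L)).ncard * Ideal.ramificationIdxIn v.asIdeal (𝓞 L) * 2
          = 1 * 2 := by rw [one_mul, mul_assoc, hfund]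
        exact Nat.eq_of_mul_eq_mul_right two_pos this
      exact Nat.eq_one_of_mul_eq_one_right h3

end Pool.Agent.Lib.MP_1a91b9_nt
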