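import Pool.Agent.Lib.MP_1a91b9_nt.VcPoint
import Pool.Agent.Lib.MP_1a91b9_nt.RankRel

/-!
# JOB TWISTRANK: the rank over a quadratic extension is the sum of the ranks of the two twists
-/

set_option autoImplicit false

namespace Pool.Agent.Lib.MP_1a91b9_nt

open IsDedekindDomain NumberField Polynomial IntermediateField WeierstrassCurve

universe u

/-- the rank is invariant under a change of variables -/
theorem mwRank_variableChange {K : Type u} [Field K] (W : WeierstrassCurve K)
    (C : WeierstrassCurve.VariableChange K) : mwRank (C • W) = mwRank W := by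
  let _ : DecidableEq K := Classical.decEq K
  obtain ⟨e, -⟩ := exists_point_equiv W C
  exact e.toIntLinearEquiv.rank_eq

theorem mwRank_baseChange_variableChange {K L : Type u} [Field K] [Field L] [Algebra K L]
    (W : WeierstrassCurve K) (C : WeierstrassCurve.VariableChange K) :
    mwRank ((C • W).baseChange L) = mwRank (W.baseChange L) := by
  have h : (C • W).baseChange L = (C.map (algebraMap K L)) • (W.baseChange L) :=
    (map_variableChange (W := W) C (algebraMap K L)).symm
  rw [h, mwRank_variableChange]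

/-- the short form -/
theorem exists_short {K : Type u} [Field K] [CharZero K] (W : WeierstrassCurve K) :
    ∃ C : WeierstrassCurve.VariableChange K,
      C • W = ⟨0, 0, 0, -W.c₄ / 48, -W.c₆ / 864⟩ := by
  let _ : Invertible (2 : K) := invertibleOfNonzero two_ne_zero
  let _ : Invertible (3 : K) := invertibleOfNonzero three_ne_zero
  refine ⟨W.toShortNF, ?_⟩
  have hs := W.toShortNF_spec
  have hu : W.toShortNF.u = 1 := by
    simp [toShortNF, VariableChange.mul_def, toCharNeTwoNF]
  have h4 := (W.toShortNF • W).c₄_of_isShortNF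
  have h6 := (W.toShortNF • W).c₆_of_isShortNF
  rw [variableChange_c₄, hu] at h4
  rw [variableChange_c₆, hu] at h6
  simp only [inv_one, Units.val_one, one_pow, one_mul] at h4 h6
  have e1 : (W.toShortNF • W).a₄ = -W.c₄ / 48 := by rw [h4]; ring
  have e2 : (W.toShortNF • W).a₆ = -W.c₆ / 864 := by rw [h6]; ring
  exact WeierstrassCurve.ext (a₁_of_isShortNF _) (a₂_of_isShortNF _) (a₃_of_isShortNF _) e1 e2

theorem mwRank_twist_square {K : Type u} [Field K] [NumberField K] (W W' : WeierstrassCurve K)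
    (d : K) (hd : d ≠ 0) (h4 : W'.c₄ = d ^ 2 * W.c₄)
    (h6 : W'.c₆ = d ^ 3 * W.c₆) (hsq : IsSquare d) : mwRank W' = mwRank W := by
  obtain ⟨C, hC⟩ := exists_short W
  obtain ⟨C', hC'⟩ := exists_short W'
  obtain ⟨e, rfl⟩ := hsq
  have he : e ≠ 0 := fun h => hd (by rw [h, mul_zero])
  rw [← mwRank_variableChange W C, ← mwRank_variableChange W' C', hC, hC', h4, h6]
  rw [← mwRank_variableChange (⟨0, 0, 0, -W.c₄ / 48, -W.c₆ / 864⟩ : WeierstrassCurve K)
    ⟨(Units.mk0 e he)⁻¹, 0, 0, 0⟩]
  congr 1
  refine WeierstrassCurve.ext ?_ ?_ ?_ ?_ ?_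
  · simp [variableChange_a₁]
  · simp [variableChange_a₂]
  · simp [variableChange_a₃]
  · simp [variableChange_a₄]
    ring
  · simp [variableChange_a₆]
    ring

theorem twist_equiv {L : Type*} [Field L] [DecidableEq L] (V V' : WeierstrassCurve L)
    (C : WeierstrassCurve.VariableChange L) (h : V' = C • V) :
    ∃ e : V'.toAffine.Point ≃+ V.toAffine.Point,
      ∀ (x y : L) (h : V'.toAffine.Nonsingular x y), ∃ h',
        e (WeierstrassCurve.Affine.Point.some x y h) = WeierstrassCurve.Affine.Point.some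
          ((C.u : L) ^ 2 * x + C.r) ((C.u : L) ^ 3 * y + (C.u : L) ^ 2 * C.s * x + C.t) h' := by
  subst h
  exact exists_point_equiv V C

/-- the rank of the invariants of an involution, the rank of the anti-invariants -/
theorem rank_involution {A : Type u} [AddCommGroup A] (ρ : A →ₗ[ℤ] A) (hρ : ∀ a, ρ (ρ a) = a)
    (P : Submodule ℤ A) (hP : ∀ a, a ∈ P ↔ ρ a = a) :
    Module.rank ℤ A = Module.rank ℤ P +
      Module.rank ℤ (LinearMap.ker (LinearMap.id + ρ : A →ₗ[ℤ] A)) := by
  set T : A →ₗ[ℤ] A := LinearMap.id + ρ with hT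
  have h1 := LinearMap.rank_range_add_rank_ker T
  have h2 : LinearMap.range T ≤ P := by
    rintro _ ⟨a, rfl⟩
    rw [hP, hT]
    simp [hρ, add_comm]
  let g : P →ₗ[ℤ] A := T.comp P.subtype
  have h3 := LinearMap.rank_range_add_rank_ker g
  have h4 : Module.rank ℤ (LinearMap.ker g) = 0 := by
    rw [rank_eq_zero_iff]
    rintro ⟨a, ha⟩
    refine ⟨2, two_ne_zero, ?_⟩
    rw [LinearMap.mem_ker] at ha
    have h5 : (a : A) + ρ a = 0 := ha
    rw [(hP a).mp a.2] at h5
    ext
    change (2 : ℤ) • (a : A) = 0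
    rw [two_smul, h5]
  have h5 : LinearMap.range g ≤ LinearMap.range T := by
    rintro _ ⟨a, rfl⟩
    exact ⟨a, rfl⟩
  have h6 : Module.rank ℤ (LinearMap.range T) = Module.rank ℤ P := by
    refine le_antisymm (Submodule.rank_mono h2) ?_
    rw [← h3, h4, add_zero]
    exact Submodule.rank_mono h5
  rw [← h1, h6]

section short
variable {K L : Type u} [Field K] [NumberField K] [Field L] [NumberField L] [Algebra K L]

theorem short_twist (A B d : K) (hd : d ≠ 0) (hsq : ¬ IsSquare d)
    (hL : Module.finrank K L = 2) (δ : L) (hδ : δ ^ 2 = algebraMap K L d)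
    (S S' : WeierstrassCurve K) (hS : S = ⟨0, 0, 0, A, B⟩)
    (hS' : S' = ⟨0, 0, 0, d ^ 2 * A, d ^ 3 * B⟩) :
    mwRank (S.baseChange L) = mwRank S + mwRank S' := by
  have : Algebra.IsQuadraticExtension K L := ⟨hL⟩
  have hgal : IsGalois K L := inferInstance
  have hδ0 : δ ≠ 0 := by
    rintro rfl
    rw [zero_pow two_ne_zero, eq_comm, map_eq_zero] at hδ
    exact hd hδ
  -- the automorphism
  have hσ : ∃ σ : Gal(L/K), σ δ = -δ := by
    have hs' : δ ∉ Set.range (algebraMap K L) := by
      rintro ⟨a, rfl⟩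
      apply hsq
      refine ⟨a, ?_⟩
      apply (algebraMap K L).injective
      rw [← hδ, map_mul, sq]
    have h := (IsGalois.mem_range_algebraMap_iff_fixed (F := K) (E := L) δ).not.mp hs'
    push Not at h
    obtain ⟨σ, hσ⟩ := h
    refine ⟨σ, ?_⟩
    have h2 : (σ δ) ^ 2 = δ ^ 2 := by
      rw [← map_pow, hδ, AlgEquiv.commutes]
    rcases sq_eq_sq_iff_eq_or_eq_neg.mp h2 with h3 | h3
    · exact absurd h3 hσ
    · exact h3
  obtain ⟨σ, hσ⟩ := hσ
  have hσ1 : σ ≠ 1 := by
    rintro rfl
    rw [AlgEquiv.one_apply] at hσ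
    have h3 : (2 : L) * δ = 0 := by linear_combination hσ
    rcases mul_eq_zero.mp h3 with h4 | h4
    · exact two_ne_zero h4
    · exact hδ0 h4
  have hcard : Nat.card Gal(L/K) = 2 := by
    rw [IsGalois.card_aut_eq_finrank, hL]
  have hall : ∀ τ : Gal(L/K), τ = 1 ∨ τ = σ := by
    intro τ
    obtain ⟨y, hy, hyu⟩ := (Nat.card_eq_two_iff' (1 : Gal(L/K))).mp hcard
    by_cases h : τ = 1
    · exact Or.inl h
    · right
      rw [hyu τ h, hyu σ hσ1]
  have hσσ : σ * σ = 1 := by
    rcases hall (σ * σ) with h | h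
    · exact h
    · exact absurd (mul_eq_left.mp h) hσ1
  have hfix : ∀ z : L, σ z = z → ∃ a : K, algebraMap K L a = z := by
    intro z hz
    have h := (IsGalois.mem_range_algebraMap_iff_fixed (F := K) (E := L) z).mpr (by
      intro τ
      rcases hall τ with h | h
      · rw [h, AlgEquiv.one_apply]
      · rw [h, hz])
    exact h
  let _ : DecidableEq L := Classical.decEq L
  let _ : DecidableEq K := Classical.decEq K
  rw [mwRank_eq_top (M := L) S]
  have hinv := rank_involution (galRho (M := L) S σ) (by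
    intro a
    rw [← Module.End.mul_apply, ← map_mul, hσσ, map_one]
    rfl) (invSub (galRho (M := L) S) ⊤) (by
    intro a
    rw [mem_invSub]
    constructor
    · intro h
      exact h σ trivial
    · intro h τ _
      rcases hall τ with h1 | h1
      · rw [h1, map_one]
        rfl
      · rw [h1, h])
  change Module.rank ℤ (S.baseChange L).toAffine.Point = _
  rw [hinv]
  congr 1
  -- the anti-invariants
  have hbc : S'.baseChange K = S' := S'.map_id
  have h1 : mwRank S' = mwRank (S'.baseChange K) := by rw [hbc]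
  rw [h1]
  let f : (S'.baseChange K).toAffine.Point →ₗ[ℤ] (S'.baseChange L).toAffine.Point :=
    (WeierstrassCurve.Affine.Point.map (W' := S') (Algebra.ofId K L)).toIntLinearMap
  have hf : Function.Injective f :=
    WeierstrassCurve.Affine.Point.map_injective (W' := S') (Algebra.ofId K L)
  obtain ⟨e, he⟩ := twist_equiv (S.baseChange L) (S'.baseChange L)
    ⟨(Units.mk0 δ hδ0)⁻¹, 0, 0, 0⟩ (by
      have e2 : algebraMap K L (d ^ 2) = δ ^ 4 := by
        rw [map_pow, ← hδ]; ring
      have e3 : algebraMap K L (d ^ 3) = δ ^ 6 := by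
        rw [map_pow, ← hδ]; ring
      rw [hS, hS']
      refine WeierstrassCurve.ext ?_ ?_ ?_ ?_ ?_
      · simp [variableChange_a₁, WeierstrassCurve.baseChange]
      · simp [variableChange_a₂, WeierstrassCurve.baseChange]
      · simp [variableChange_a₃, WeierstrassCurve.baseChange]
      · rw [variableChange_a₄]
        change algebraMap K L (d ^ 2 * A) = _
        rw [map_mul, e2]
        simp [WeierstrassCurve.baseChange]
      · rw [variableChange_a₆]
        change algebraMap K L (d ^ 3 * B) = _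
        rw [map_mul, e3]
        simp [WeierstrassCurve.baseChange])
  have he' : ∀ (x y : L) (h : (S'.baseChange L).toAffine.Nonsingular x y), ∃ h',
      e (WeierstrassCurve.Affine.Point.some x y h) =
        WeierstrassCurve.Affine.Point.some (δ⁻¹ ^ 2 * x) (δ⁻¹ ^ 3 * y) h' := by
    intro x y h
    obtain ⟨h', hh⟩ := he x y h
    have e1 : (((⟨(Units.mk0 δ hδ0)⁻¹, 0, 0, 0⟩ : WeierstrassCurve.VariableChange L).u : Lˣ) : L) ^ 2
        * x + 0 = δ⁻¹ ^ 2 * x := by simp
    have e2 : (((⟨(Units.mk0 δ hδ0)⁻¹, 0, 0, 0⟩ : WeierstrassCurve.VariableChange L).u : Lˣ) : L) ^ 3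
        * y + (((⟨(Units.mk0 δ hδ0)⁻¹, 0, 0, 0⟩ : WeierstrassCurve.VariableChange L).u : Lˣ) : L) ^ 2
        * 0 * x + 0 = δ⁻¹ ^ 3 * y := by simp
    have h'' : (S.baseChange L).toAffine.Nonsingular (δ⁻¹ ^ 2 * x) (δ⁻¹ ^ 3 * y) := by
      rw [← e1, ← e2]
      exact h'
    refine ⟨h'', ?_⟩
    rw [hh, WeierstrassCurve.Affine.Point.some.injEq]
    exact ⟨e1, e2⟩
  let g : (S'.baseChange K).toAffine.Point →ₗ[ℤ] (S.baseChange L).toAffine.Point :=
    (e.toIntLinearEquiv : (S'.baseChange L).toAffine.Point →ₗ[ℤ] _).comp f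
  have hg : Function.Injective g := e.injective.comp hf
  have ha1 : (S.baseChange L).toAffine.a₁ = 0 := by
    change algebraMap K L S.a₁ = 0
    rw [hS, map_zero]
  have ha3 : (S.baseChange L).toAffine.a₃ = 0 := by
    change algebraMap K L S.a₃ = 0
    rw [hS, map_zero]
  have hδi : σ δ⁻¹ = -δ⁻¹ := by
    rw [map_inv₀, hσ, inv_neg]
  have hδi0 : δ⁻¹ ≠ 0 := inv_ne_zero hδ0
  have hnegY : ∀ X Y : L, (S.baseChange L).toAffine.negY X Y = -Y := by
    intro X Y
    rw [WeierstrassCurve.Affine.negY, ha1, ha3, zero_mul, sub_zero, sub_zero]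
  have hr : LinearMap.range g = LinearMap.ker (LinearMap.id + galRho (M := L) S σ) := by
    ext P
    rw [LinearMap.mem_range, LinearMap.mem_ker]
    have hT : (LinearMap.id + galRho (M := L) S σ : _ →ₗ[ℤ] _) P = P + galRho S σ P := rfl
    rw [hT, add_comm, add_eq_zero_iff_eq_neg]
    constructor
    · rintro ⟨Q, rfl⟩
      rcases Q with _ | ⟨x, y, hxy⟩
      · have h0 : g (WeierstrassCurve.Affine.Point.zero) = 0 := map_zero g
        rw [h0, map_zero, neg_zero]
      · obtain ⟨h', hh⟩ := he' (algebraMap K L x) (algebraMap K L y)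
          ((WeierstrassCurve.Affine.baseChange_nonsingular S'.toAffine
            (Algebra.ofId K L).injective _ _).mpr hxy)
        have h2 : g (WeierstrassCurve.Affine.Point.some x y hxy) =
            WeierstrassCurve.Affine.Point.some _ _ h' := hh
        rw [h2, WeierstrassCurve.Affine.Point.neg_some]
        change WeierstrassCurve.Affine.Point.some _ _ _ =
          WeierstrassCurve.Affine.Point.some _ _ _
        rw [WeierstrassCurve.Affine.Point.some.injEq]
        constructor
        · change σ (δ⁻¹ ^ 2 * algebraMap K L x) = _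
          rw [map_mul, map_pow, hδi, AlgEquiv.commutes]
          ring
        · change σ (δ⁻¹ ^ 3 * algebraMap K L y) = _
          rw [map_mul, map_pow, hδi, AlgEquiv.commutes, hnegY]
          ring
    · intro hP
      obtain ⟨Q, rfl⟩ := e.surjective P
      rcases Q with _ | ⟨x, y, hxy⟩
      · refine ⟨0, ?_⟩
        rw [map_zero]
        exact (map_zero e).symm
      · obtain ⟨h', hh⟩ := he' x y hxy
        rw [hh, WeierstrassCurve.Affine.Point.neg_some] at hP
        change WeierstrassCurve.Affine.Point.some _ _ _ =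
          WeierstrassCurve.Affine.Point.some _ _ _ at hP
        rw [WeierstrassCurve.Affine.Point.some.injEq] at hP
        obtain ⟨hx, hy⟩ := hP
        have hx' : σ (δ⁻¹ ^ 2 * x) = δ⁻¹ ^ 2 * x := hx
        have hy' : σ (δ⁻¹ ^ 3 * y) = -(δ⁻¹ ^ 3 * y) := by
          rw [← hnegY (δ⁻¹ ^ 2 * x)]
          exact hy
        rw [map_mul, map_pow, hδi, neg_sq] at hx'
        rw [map_mul, map_pow, hδi] at hy'
        have hx2 : σ x = x := mul_left_cancel₀ (pow_ne_zero 2 hδi0) hx'
        have hy2 : σ y = y := by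
          refine mul_left_cancel₀ (pow_ne_zero 3 hδi0) ?_
          linear_combination -hy'
        obtain ⟨a, rfl⟩ := hfix x hx2
        obtain ⟨b, rfl⟩ := hfix y hy2
        refine ⟨WeierstrassCurve.Affine.Point.some a b
          ((WeierstrassCurve.Affine.baseChange_nonsingular S'.toAffine
            (Algebra.ofId K L).injective _ _).mp hxy), rfl⟩
  rw [← hr]
  exact (LinearEquiv.ofInjective g hg).rank_eq.symm

end short

theorem mwRank_twist {K L : Type u} [Field K] [NumberField K] [Field L] [NumberField L]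
    [Algebra K L] (W W' : WeierstrassCurve K) (d : K) (hd : d ≠ 0)
    (h4 : W'.c₄ = d ^ 2 * W.c₄) (h6 : W'.c₆ = d ^ 3 * W.c₆) (hsq : ¬ IsSquare d)
    (hL : Module.finrank K L = 2) (δ : L) (hδ : δ ^ 2 = algebraMap K L d) :
    mwRank (W.baseChange L) = mwRank W + mwRank W' := by
  obtain ⟨C, hC⟩ := exists_short W
  obtain ⟨C', hC'⟩ := exists_short W'
  rw [← mwRank_variableChange W C, ← mwRank_variableChange W' C',
    ← mwRank_baseChange_variableChange W C]
  refine short_twist (-W.c₄ / 48) (-W.c₆ / 864) d hd hsq hL δ hδ _ _ hC ?_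
  rw [hC', h4, h6]
  refine WeierstrassCurve.ext rfl rfl rfl ?_ ?_
  · change -(d ^ 2 * W.c₄) / 48 = d ^ 2 * (-W.c₄ / 48)
    ring
  · change -(d ^ 3 * W.c₆) / 864 = d ^ 3 * (-W.c₆ / 864)
    ring

end Pool.Agent.Lib.MP_1a91b9_nt
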