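import Pool.Agent.Lib.MP_1a91b9_nt.LocalTwist
import Pool.Agent.Lib.MP_1a91b9_nt.TwistRank
import Pool.Agent.Lib.MP_1a91b9_nt.QuadField
import Pool.Agent.Lib.MP_1a91b9_nt.Induction

/-!
# Quadratic twists: the rank part for a curve over a field and its quadratic extensions implies it
for the quadratic twists
-/

set_option autoImplicit false

namespace Pool.Agent.Lib.MP_1a91b9_nt

open IsDedekindDomain NumberField Polynomial IntermediateField

universe u

/-- `W'` is a quadratic twist of `W` (trivial twists included). -/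
def IsQuadraticTwist {K : Type*} [Field K] (W' W : WeierstrassCurve K) : Prop :=
  ∃ d : K, d ≠ 0 ∧ W'.c₄ = d ^ 2 * W.c₄ ∧ W'.c₆ = d ^ 3 * W.c₆

/-- The correction factor of two families of Euler factors which agree up to finitely many
places. -/
theorem exists_correction {K : Type*} [Field K] [NumberField K]
    (A B : HeightOneSpectrum (𝓞 K) → ℂ → ℂ) (a b : ℂ → ℂ)
    (hA : ∀ v, MeroUnit (A v)) (hB : ∀ v, MeroUnit (B v))
    (hA0 : ∀ v (s : ℂ), 2 < s.re → A v s ≠ 0) (hB0 : ∀ v (s : ℂ), 2 < s.re → B v s ≠ 0)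
    (hPA : ∀ s : ℂ, 2 < s.re → HasProd (fun v => A v s) (a s))
    (hPB : ∀ s : ℂ, 2 < s.re → HasProd (fun v => B v s) (b s)) (hb0 : ∀ s : ℂ, 2 < s.re → b s ≠ 0)
    (S : Set (HeightOneSpectrum (𝓞 K))) (hS : S.Finite)
    (hAB : ∀ v ∉ S, ∀ s : ℂ, 2 < s.re → A v s = B v s) :
    ∃ R : ℂ → ℂ, MeroUnit R ∧ (∀ s : ℂ, 2 < s.re → R s ≠ 0) ∧
      ∀ s : ℂ, 2 < s.re → a s = b s * R s := by
  classical
  let r : HeightOneSpectrum (𝓞 K) → ℂ → ℂ := fun v s => A v s * (B v s)⁻¹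
  have hr : ∀ v, MeroUnit (r v) := fun v => (hA v).mul (hB v).inv
  refine ⟨fun s => ∏ v ∈ hS.toFinset, r v s, MeroUnit.prod _ fun v _ => hr v, fun s hs =>
    Finset.prod_ne_zero_iff.2 fun v _ => mul_ne_zero (hA0 v s hs) (inv_ne_zero (hB0 v s hs)), ?_⟩
  intro s hs
  have h1 : HasProd (fun v => r v s) (a s * (b s)⁻¹) := by
    refine (hPA s hs).mul ?_
    have := HasProd.zpow_unc (hPB s hs) (hb0 s hs) (-1)
    simpa only [zpow_neg_one] using this
  have h2 : HasProd (fun v => r v s) (∏ v ∈ hS.toFinset, r v s) := by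
    refine hasProd_prod_of_ne_finset_one fun v hv => ?_
    have hv' : v ∉ S := fun h => hv (hS.mem_toFinset.2 h)
    simp only [r]
    rw [hAB v hv' s hs]
    exact mul_inv_cancel₀ (hB0 v s hs)
  have h3 := h1.unique h2
  beta_reduce
  rw [← h3]
  field_simp [hb0 s hs]

theorem fac_meroUnit {K : Type*} [Field K] [NumberField K] (W : WeierstrassCurve K)
    (v : HeightOneSpectrum (𝓞 K)) : MeroUnit (fac W v) := fac_meromorphic W v

theorem rankPow_twist_square {K : Type u} [Field K] [NumberField K] (W W' : WeierstrassCurve K)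
    [W.IsElliptic] [W'.IsElliptic] (d : K) (hd : d ≠ 0)
    (h4 : W'.c₄ = d ^ 2 * W.c₄) (h6 : W'.c₆ = d ^ 3 * W.c₆) (hsq : IsSquare d) (k : ℕ)
    (h : RankPow k W) : RankPow k W' := by
  obtain ⟨S, hS, hloc⟩ := local_square W W' d hd h4 h6 hsq
  obtain ⟨R, hR, hR0, hRL⟩ := exists_correction (K := K) (fac W') (fac W) W'.LSeries W.LSeries
    (fac_meroUnit W') (fac_meroUnit W) (fun v s hs => fac_ne_zero W' v hs)
    (fun v s hs => fac_ne_zero W v hs) (fun s hs => hasProd_fac W' hs)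
    (fun s hs => hasProd_fac W hs) (fun s hs => LSeries_ne_zero W hs) S hS
    (fun v hv s hs => by unfold fac; rw [hloc v hv])
  obtain ⟨g, r, hg1, hg2, hg3, hg4⟩ := h
  refine ⟨g * R ^ k, r, hg1.mul (hR.1.pow k), ?_, ?_, ?_⟩
  · intro s hs
    rw [Pi.mul_apply, Pi.pow_apply, hg2 s hs, hRL s hs, mul_pow]
  · rw [mwRank_twist_square W W' d hd h4 h6 hsq, hg3]
  · rw [meromorphicOrderAt_mul (hg1 1 (Set.mem_univ _)) ((hR.1.pow k) 1 (Set.mem_univ _)),
      meromorphicOrderAt_pow (hR.1 1 (Set.mem_univ _)), hR.2, hg4]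
    simp

theorem rankPow_twist_nonsquare {K L : Type u} [Field K] [NumberField K] [Field L] [NumberField L]
    [Algebra K L] (W W' : WeierstrassCurve K) [W.IsElliptic] [W'.IsElliptic] (d : K) (hd : d ≠ 0)
    (h4 : W'.c₄ = d ^ 2 * W.c₄) (h6 : W'.c₆ = d ^ 3 * W.c₆) (hsq : ¬ IsSquare d)
    (hL : Module.finrank K L = 2) (δ : L) (hδ : δ ^ 2 = algebraMap K L d) (k : ℕ)
    (h : RankPow k W) (h' : RankPow k (W.baseChange L)) : RankPow k W' := by
  obtain ⟨S, hS, hloc⟩ := local_twist W W' d hd h4 h6 hsq hL δ hδ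
  obtain ⟨R, hR, hR0, hRL⟩ := exists_correction (K := K) (locProd W L)
    (fun v s => fac W v s * fac W' v s) (W.baseChange L).LSeries
    (fun s => W.LSeries s * W'.LSeries s)
    (locProd_meroUnit W) (fun v => (fac_meroUnit W v).mul (fac_meroUnit W' v))
    (fun v s hs => locProd_ne_zero W v hs)
    (fun v s hs => mul_ne_zero (fac_ne_zero W v hs) (fac_ne_zero W' v hs))
    (fun s hs => hasProd_locProd W hs)
    (fun s hs => (hasProd_fac W hs).mul (hasProd_fac W' hs))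
    (fun s hs => mul_ne_zero (LSeries_ne_zero W hs) (LSeries_ne_zero W' hs)) S hS hloc
  obtain ⟨g, r, hg1, hg2, hg3, hg4⟩ := h
  obtain ⟨g', r', hg1', hg2', hg3', hg4'⟩ := h'
  have hrank := mwRank_twist W W' d hd h4 h6 hsq hL δ hδ
  have hfin : mwRank W' < Cardinal.aleph0 := by
    refine lt_of_le_of_lt (self_le_add_left (mwRank W') (mwRank W)) ?_
    rw [← hrank, hg3']
    exact Cardinal.natCast_lt_aleph0
  obtain ⟨ρ, hρ⟩ := Cardinal.lt_aleph0.mp hfin
  have hsum : r' = r + ρ := by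
    rw [hg3, hg3', hρ] at hrank
    exact_mod_cast hrank
  have hm1 : MeromorphicAt (g * R ^ k) 1 :=
    (hg1 1 (Set.mem_univ _)).mul ((hR.1.pow k) 1 (Set.mem_univ _))
  refine ⟨g' * (g * R ^ k)⁻¹, ρ, hg1'.mul (hg1.mul (hR.1.pow k)).inv, ?_, hρ, ?_⟩
  · intro s hs
    have hL0 : W.LSeries s ≠ 0 := LSeries_ne_zero W hs
    have hR0' : R s ≠ 0 := hR0 s hs
    rw [Pi.mul_apply, Pi.inv_apply, Pi.mul_apply, Pi.pow_apply, hg2 s hs, hg2' s hs, hRL s hs]
    field_simp
    ring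
  · rw [meromorphicOrderAt_mul (hg1' 1 (Set.mem_univ _)) hm1.inv, meromorphicOrderAt_inv,
      meromorphicOrderAt_mul (hg1 1 (Set.mem_univ _)) ((hR.1.pow k) 1 (Set.mem_univ _)),
      meromorphicOrderAt_pow (hR.1 1 (Set.mem_univ _)), hR.2, hg4, hg4', hsum]
    have e1 : ((k * (r + ρ) : ℕ) : WithTop ℤ) = (((k * (r + ρ) : ℕ) : ℤ) : WithTop ℤ) := rfl
    have e2 : ((k * r : ℕ) : WithTop ℤ) = (((k * r : ℕ) : ℤ) : WithTop ℤ) := rfl
    have e3 : ((k * ρ : ℕ) : WithTop ℤ) = (((k * ρ : ℕ) : ℤ) : WithTop ℤ) := rfl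
    rw [mul_zero, add_zero, e1, e2, e3]
    have e4 : (-(((k * r : ℕ) : ℤ) : WithTop ℤ)) = ((-((k * r : ℕ) : ℤ) : ℤ) : WithTop ℤ) := rfl
    rw [e4, ← WithTop.coe_add]
    congr 1
    push_cast
    ring

theorem RankPow.twist {K : Type u} [Field K] [NumberField K] (W W' : WeierstrassCurve K)
    [W.IsElliptic] [W'.IsElliptic] (ht : IsQuadraticTwist W' W)
    (h : ∀ (L : Type u) [Field L] [NumberField L] [Algebra K L], RankPow 1 (W.baseChange L)) :
    RankPow 1 W' := by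
  obtain ⟨d, hd, h4, h6⟩ := ht
  have hW : RankPow 1 W := by
    have := h K
    have h5 : W.baseChange K = W := WeierstrassCurve.map_id W
    rwa [h5] at this
  by_cases hsq : IsSquare d
  · exact rankPow_twist_square W W' d hd h4 h6 hsq 1 hW
  · obtain ⟨L, _, _, _, δ, hL, hδ⟩ := exists_quadratic d hsq
    exact rankPow_twist_nonsquare W W' d hd h4 h6 hsq hL δ hδ 1 hW (h L)

theorem WeakRank.twist {K : Type u} [Field K] [NumberField K] (W W' : WeierstrassCurve K)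
    [W.IsElliptic] [W'.IsElliptic] (ht : IsQuadraticTwist W' W)
    (h : ∀ (L : Type u) [Field L] [NumberField L] [Algebra K L], WeakRank (W.baseChange L)) :
    WeakRank W' := by
  obtain ⟨d, hd, h4, h6⟩ := ht
  have hW : WeakRank W := by
    have := h K
    have h5 : W.baseChange K = W := WeierstrassCurve.map_id W
    rwa [h5] at this
  obtain ⟨k, hk, hWk⟩ := hW
  by_cases hsq : IsSquare d
  · exact ⟨k, hk, rankPow_twist_square W W' d hd h4 h6 hsq k hWk⟩
  · obtain ⟨L, _, _, _, δ, hL, hδ⟩ := exists_quadratic d hsq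
    obtain ⟨l, hl, hWl⟩ := h L
    refine ⟨k * l, Nat.mul_pos hk hl, rankPow_twist_nonsquare W W' d hd h4 h6 hsq hL δ hδ (k * l)
      (hWk.mul l) ?_⟩
    rw [mul_comm]
    exact hWl.mul k

end Pool.Agent.Lib.MP_1a91b9_nt
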