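import Pool.Agent.Lib.MP_1a91b9_nt.Final
import Pool.Agent.Lib.MP_1a91b9_nt.TwistCore

/-!
# The reduction theorems with all quadratic twists in the conclusion
-/

set_option autoImplicit false

namespace Pool.Agent.Lib.MP_1a91b9_nt

open IsDedekindDomain NumberField Polynomial IntermediateField

universe u

theorem IsQuadraticTwist.refl {K : Type*} [Field K] (W : WeierstrassCurve K) :
    IsQuadraticTwist W W := ⟨1, one_ne_zero, by ring, by ring⟩

theorem RankPow.twist_of_all {F : Type u} [Field F] (W : WeierstrassCurve F) [W.IsElliptic]
    (h : ∀ (K : Type u) [Field K] [NumberField K] [Algebra F K], RankPow 1 (W.baseChange K))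
    (K : Type u) [Field K] [NumberField K] [Algebra F K] (W' : WeierstrassCurve K)
    [W'.IsElliptic] (ht : IsQuadraticTwist W' (W.baseChange K)) : RankPow 1 W' := by
  have := isElliptic_baseChange W K
  refine RankPow.twist (W.baseChange K) W' ht ?_
  intro L _ _ _
  let _ : Algebra F L := ((algebraMap K L).comp (algebraMap F K)).toAlgebra
  exact h L

theorem WeakRank.twist_of_all {F : Type u} [Field F] (W : WeierstrassCurve F) [W.IsElliptic]
    (h : ∀ (K : Type u) [Field K] [NumberField K] [Algebra F K], WeakRank (W.baseChange K))
    (K : Type u) [Field K] [NumberField K] [Algebra F K] (W' : WeierstrassCurve K)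
    [W'.IsElliptic] (ht : IsQuadraticTwist W' (W.baseChange K)) : WeakRank W' := by
  have := isElliptic_baseChange W K
  refine WeakRank.twist (W.baseChange K) W' ht ?_
  intro L _ _ _
  let _ : Algebra F L := ((algebraMap K L).comp (algebraMap F K)).toAlgebra
  exact h L

end Pool.Agent.Lib.MP_1a91b9_nt
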