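import Pool.Agent.Lib.MP_1a91b9_nt.S4Params
import Pool.Agent.Lib.MP_1a91b9_nt.TwistRank

/-!
# Rank growth over the subfields of quartic extensions
-/

set_option autoImplicit false

namespace Pool.Agent.Lib.MP_1a91b9_nt

open IsDedekindDomain NumberField Polynomial IntermediateField

universe u

/-- Rank growth over the field generated by a root of an irreducible polynomial, from points
attached to the roots whose sum vanishes. -/
theorem growth_roots {K M : Type u} [Field K] [NumberField K] [Field M] [NumberField M]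
    [Algebra K M] [IsGalois K M] [DecidableEq M] (W : WeierstrassCurve K) (f : K[X])
    (hf : Irreducible f) {n : ℕ} (y : Fin (n + 1) → M)
    (hy : f.map (algebraMap K M) = ∏ i, (X - C (y i))) (cx cy : M → M)
    (hcx : ∀ (σ : Gal(M/K)) (a : M), σ (cx a) = cx (σ a))
    (hcy : ∀ (σ : Gal(M/K)) (a : M), σ (cy a) = cy (σ a))
    (hns : ∀ i, (W.baseChange M).toAffine.Nonsingular (cx (y i)) (cy (y i)))
    (hsum : ∑ i, (WeierstrassCurve.Affine.Point.some _ _ (hns i) :
      (W.baseChange M).toAffine.Point) = 0)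
    (hnt : ∀ m : ℕ, m ≠ 0 → m • (WeierstrassCurve.Affine.Point.some _ _ (hns 0) :
      (W.baseChange M).toAffine.Point) ≠ 0) :
    mwRank W + 1 ≤ mwRank (W.baseChange (fixedField (MulAction.stabilizer Gal(M/K) (y 0)))) := by
  have hroot : ∀ i, aeval (y i) f = 0 := by
    intro i
    rw [aeval_def, ← eval_map, hy, eval_prod]
    exact Finset.prod_eq_zero (Finset.mem_univ i) (by simp)
  have hmin : ∀ i, minpoly K (y i) = minpoly K (y 0) := by
    intro i
    rw [← minpoly.eq_of_irreducible hf (hroot i), ← minpoly.eq_of_irreducible hf (hroot 0)]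
  have hσ : ∀ i, ∃ σ : Gal(M/K), σ (y 0) = y i := by
    intro i
    obtain ⟨σ, hσ⟩ := (Normal.minpoly_eq_iff_mem_orbit (F := K) (E := M)).mp (hmin i)
    exact ⟨σ, hσ⟩
  choose s hs using hσ
  have hsi : ∀ (σ : Gal(M/K)) (i : Fin (n + 1)), σ (y 0) = y i →
      galRho W σ (WeierstrassCurve.Affine.Point.some _ _ (hns 0)) =
        WeierstrassCurve.Affine.Point.some _ _ (hns i) := by
    intro σ i h
    change WeierstrassCurve.Affine.Point.some _ _ _ = WeierstrassCurve.Affine.Point.some _ _ _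
    rw [WeierstrassCurve.Affine.Point.some.injEq]
    refine ⟨?_, ?_⟩
    · change σ (cx (y 0)) = _
      rw [hcx, h]
    · change σ (cy (y 0)) = _
      rw [hcy, h]
  refine growth W _ (WeierstrassCurve.Affine.Point.some _ _ (hns 0)) ?_ hnt s ?_
  · rw [mem_invSub]
    intro σ hσ
    exact hsi σ 0 hσ
  · rw [← hsum]
    exact Finset.sum_congr rfl fun i _ => hsi _ _ (hs i)

theorem splits_prod {M : Type*} [Field M] (f : M[X]) (hf : f.Monic) (hs : f.Splits) (n : ℕ)
    (hn : f.natDegree = n) : ∃ y : Fin n → M, f = ∏ i, (X - C (y i)) := by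
  have h1 : f.roots.card = n := by rw [← hn, hs.natDegree_eq_card_roots]
  have h2 := hs.eq_prod_roots_of_monic hf
  obtain ⟨l, hl⟩ : ∃ l : List M, (l : Multiset M) = f.roots := ⟨f.roots.toList, by simp⟩
  obtain rfl : l.length = n := by
    rw [← h1, ← hl]
    rfl
  refine ⟨l.get, ?_⟩
  conv_lhs => rw [h2, ← hl]
  rw [Multiset.map_coe, Multiset.prod_coe, ← List.prod_ofFn]
  congr 1
  refine List.ext_getElem (by simp) ?_
  intro i h3 h4
  simp

theorem quart_monic {K : Type*} [Field K] (p q r : K) :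
    (quart p q r).Monic ∧ (quart p q r).natDegree = 4 := by
  have h : (quart p q r).natDegree = 4 := by
    unfold quart
    compute_degree!
  refine ⟨?_, h⟩
  unfold quart
  monicity!

theorem resol_monic {K : Type*} [Field K] (p q r : K) :
    (resol p q r).Monic ∧ (resol p q r).natDegree = 3 := by
  have h : (resol p q r).natDegree = 3 := by
    unfold resol
    compute_degree!
  refine ⟨?_, h⟩
  unfold resol
  monicity!

/-- Two pairs of roots. -/
theorem quart_roots_sum {M : Type*} [Field M] (p q r : M) (y : Fin 4 → M)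
    (hy : quart p q r = ∏ i, (X - C (y i))) : y 0 + y 1 + y 2 + y 3 = 0 ∧
    p = y 0 * y 1 + y 2 * y 3 - (y 0 + y 1) ^ 2 ∧ q = (y 0 + y 1) * (y 0 * y 1 - y 2 * y 3) ∧
    r = y 0 * y 1 * (y 2 * y 3) := by
  rw [Fin.prod_univ_four] at hy
  have e : (X - C (y 0)) * (X - C (y 1)) * (X - C (y 2)) * (X - C (y 3)) =
      X ^ 4 + C (-(y 0 + y 1 + y 2 + y 3)) * X ^ 3 +
        C (y 0 * y 1 + y 0 * y 2 + y 0 * y 3 + y 1 * y 2 + y 1 * y 3 + y 2 * y 3) * X ^ 2 +
        C (-(y 0 * y 1 * y 2 + y 0 * y 1 * y 3 + y 0 * y 2 * y 3 + y 1 * y 2 * y 3)) * X +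
        C (y 0 * y 1 * y 2 * y 3) := by
    simp only [map_add, map_mul, map_neg]
    ring
  rw [e, quart] at hy
  have key : ∀ a₃ a₂ a₁ a₀ : M, X ^ 4 + C p * X ^ 2 + C q * X + C r =
      X ^ 4 + C a₃ * X ^ 3 + C a₂ * X ^ 2 + C a₁ * X + C a₀ →
      a₃ = 0 ∧ p = a₂ ∧ q = a₁ ∧ r = a₀ := by
    intro a₃ a₂ a₁ a₀ h
    have c3 := congrArg (fun f => coeff f 3) h
    have c2 := congrArg (fun f => coeff f 2) h
    have c1 := congrArg (fun f => coeff f 1) h
    have c0 := congrArg (fun f => coeff f 0) h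
    simp [coeff_X, coeff_C] at c3 c2 c1 c0
    exact ⟨c3.symm, c2, c1, c0⟩
  obtain ⟨c3, c2, c1, c0⟩ := key _ _ _ _ hy
  have h3 : y 0 + y 1 + y 2 + y 3 = 0 := by linear_combination -c3
  refine ⟨h3, ?_, ?_, ?_⟩
  · linear_combination c2 + (y 0 + y 1) * h3
  · linear_combination c1 - (y 0 * y 1) * h3
  · linear_combination c0

/-- The points attached to the roots of the quartic and of its resolvent, with the rank growth. -/
theorem s4_ranks {K M : Type u} [Field K] [NumberField K] [Field M] [NumberField M] [Algebra K M]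
    [IsGalois K M] (V : WeierstrassCurve K)
    [V.IsElliptic] (h1 : V.a₁ = 0) (h2 : V.a₂ = 0) (h3 : V.a₃ = 0)
    (x h j : K) (hE : x ^ 3 + V.a₄ * x + V.a₆ = h ^ 2 + j ^ 2) (hx0 : x ≠ 0) (hh0 : h ≠ 0)
    (hj0 : j ≠ 0)
    (iQ : Irreducible (quart (3 * x ^ 2 + V.a₄) (-2 * h * j) (3 * x * h ^ 2)))
    (iG : Irreducible (resol (3 * x ^ 2 + V.a₄) (-2 * h * j) (3 * x * h ^ 2)))
    (hspl : ((quart (3 * x ^ 2 + V.a₄) (-2 * h * j) (3 * x * h ^ 2)).map
      (algebraMap K M)).Splits)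
    (V' : Valuation M (WithZero (Multiplicative ℤ))) (J : WithZero (Multiplicative ℤ))
    (v2 : V' 2 < 1) (vx : 1 < V' (algebraMap K M x))
    (vA : V' (algebraMap K M V.a₄) < V' (algebraMap K M x))
    (vB : V' (algebraMap K M V.a₆) < V' (algebraMap K M x))
    (vj : V' (algebraMap K M j) = V' (algebraMap K M h))
    (vJ : V' (algebraMap K M h) ^ 2 * J = V' (algebraMap K M x) ^ 3) (vJ1 : J < 1)
    (vJ4 : V' 2 ^ 4 ≤ J) :
    ∃ (y z θ : M), aeval y (quart (3 * x ^ 2 + V.a₄) (-2 * h * j) (3 * x * h ^ 2)) = 0 ∧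
      aeval z (resol (3 * x ^ 2 + V.a₄) (-2 * h * j) (3 * x * h ^ 2)) = 0 ∧ θ ^ 2 = z ∧
      (∀ g : Gal(M/K), Nat.card {b : M // aeval b (resol (3 * x ^ 2 + V.a₄) (-2 * h * j)
          (3 * x * h ^ 2)) = 0 ∧ g b = b} +
        Nat.card {b : M // aeval b (quart (3 * x ^ 2 + V.a₄) (-2 * h * j)
          (3 * x * h ^ 2)) = 0 ∧ g b = b} =
        Nat.card {b : M // aeval b ((resol (3 * x ^ 2 + V.a₄) (-2 * h * j)
          (3 * x * h ^ 2)).comp (X ^ 2)) = 0 ∧ g b = b} + 1) ∧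
      mwRank V + 1 ≤ mwRank (V.baseChange (fixedField (MulAction.stabilizer Gal(M/K) y))) ∧
      mwRank V + 1 ≤ mwRank (V.baseChange (fixedField (MulAction.stabilizer Gal(M/K) z))) := by
  classical
  set φ := algebraMap K M with hφ
  set p := 3 * x ^ 2 + V.a₄ with hp
  set q := -2 * h * j with hqd
  set r := 3 * x * h ^ 2 with hrd
  have hφ2 : φ 2 = 2 := map_ofNat φ 2
  have hφ3 : φ 3 = 3 := map_ofNat φ 3
  have hpφ : φ p = 3 * φ x ^ 2 + φ V.a₄ := by
    rw [hp, map_add, map_mul, map_pow, hφ3]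
  have hqφ : φ q = -2 * φ h * φ j := by
    rw [hqd, map_mul, map_mul, map_neg, hφ2]
  have hrφ : φ r = 3 * φ x * φ h ^ 2 := by
    rw [hrd, map_mul, map_mul, map_pow, hφ3]
  have hinj : Function.Injective φ := φ.injective
  obtain ⟨y, hy⟩ := splits_prod _ ((quart_monic p q r).1.map φ) hspl 4 (by
    rw [natDegree_map]
    exact (quart_monic p q r).2)
  have hyq : quart (φ p) (φ q) (φ r) = ∏ i, (X - C (y i)) := by rw [← quart_map, hy]
  obtain ⟨r0, r1, r2, r3⟩ := quart_roots_sum _ _ _ y hyq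
  set θ := y 0 + y 1 with hθ
  have hz : (resol (φ p) (φ q) (φ r)).eval (θ ^ 2) = 0 := by
    simp only [resol, eval_sub, eval_add, eval_mul, eval_pow, eval_X, eval_C]
    rw [r1, r2, r3]
    ring
  have hz' : aeval (θ ^ 2) (resol p q r) = 0 := by
    rw [aeval_def, ← eval_map, resol_map]
    exact hz
  -- the roots of the resolvent
  set z : Fin 3 → M := ![(y 0 + y 1) ^ 2, (y 0 + y 2) ^ 2, (y 0 + y 3) ^ 2] with hzd
  have e3 : y 3 = -(y 0 + y 1 + y 2) := by linear_combination r0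
  have hzq : resol (φ p) (φ q) (φ r) = ∏ i, (X - C (z i)) := by
    rw [Fin.prod_univ_three, hzd, resol, r1, r2, r3, hθ, e3]
    simp only [Matrix.cons_val_zero, Matrix.cons_val_one, Matrix.cons_val, map_add, map_sub,
      map_mul, map_pow, map_neg, map_ofNat C]
    ring
  have hq0 : φ q ≠ 0 := by
    rw [hqφ]
    have := (_root_.map_ne_zero φ).mpr hh0
    have := (_root_.map_ne_zero φ).mpr hj0
    simp [*]
  have hz0 : ∀ i, z i ≠ 0 := by
    intro i hi
    have h5 : (resol (φ p) (φ q) (φ r)).eval (z i) = 0 := by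
      rw [hzq, eval_prod]
      exact Finset.prod_eq_zero (Finset.mem_univ i) (by simp)
    rw [hi] at h5
    simp [resol] at h5
    exact hq0 (by rw [h5, map_zero])
  have n01 : y 0 + y 1 ≠ 0 := fun h0 => hz0 0 (by simp [hzd, h0])
  have n02 : y 0 + y 2 ≠ 0 := fun h0 => hz0 1 (by simp [hzd, h0])
  have n03 : y 0 + y 3 ≠ 0 := fun h0 => hz0 2 (by simp [hzd, h0])
  have hne : ∀ i k, i ≠ k → y i + y k ≠ 0 := by
    intro i k hik h0
    fin_cases i <;> fin_cases k <;> simp only [ne_eq, not_true_eq_false, Fin.zero_eta, Fin.mk_one,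
      Fin.reduceFinMk] at hik h0
    · exact n01 h0
    · exact n02 h0
    · exact n03 h0
    · exact n01 (by linear_combination h0)
    · exact n03 (by linear_combination r0 - h0)
    · exact n02 (by linear_combination r0 - h0)
    · exact n02 (by linear_combination h0)
    · exact n03 (by linear_combination r0 - h0)
    · exact n01 (by linear_combination r0 - h0)
    · exact n03 (by linear_combination h0)
    · exact n02 (by linear_combination r0 - h0)
    · exact n01 (by linear_combination r0 - h0)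
  have hyinj : Function.Injective y := by
    have hs : ((quart p q r).map φ).Separable := iQ.separable.map
    rw [hy] at hs
    exact separable_prod_X_sub_C_iff.mp hs
  have hzinj : Function.Injective z := by
    have hs : ((resol p q r).map φ).Separable := iG.separable.map
    rw [resol_map, hzq] at hs
    exact separable_prod_X_sub_C_iff.mp hs
  have hell : WeierstrassCurve.IsElliptic (V.baseChange M).toAffine :=
    inferInstanceAs (V.map (algebraMap K M)).IsElliptic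
  have ba1 : (V.baseChange M).toAffine.a₁ = 0 := by
    change φ V.a₁ = 0
    rw [h1, map_zero]
  have ba2 : (V.baseChange M).toAffine.a₂ = 0 := by
    change φ V.a₂ = 0
    rw [h2, map_zero]
  have ba3 : (V.baseChange M).toAffine.a₃ = 0 := by
    change φ V.a₃ = 0
    rw [h3, map_zero]
  have hEφ : φ x ^ 3 + (V.baseChange M).toAffine.a₄ * φ x + (V.baseChange M).toAffine.a₆ =
      φ h ^ 2 + φ j ^ 2 := by
    change φ x ^ 3 + φ V.a₄ * φ x + φ V.a₆ = φ h ^ 2 + φ j ^ 2
    rw [← map_pow, ← map_mul, ← map_add, ← map_add, hE, map_add, map_pow, map_pow]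
  rw [hpφ, hqφ, hrφ] at hyq hzq
  have hxφ : φ x ≠ 0 := (_root_.map_ne_zero φ).mpr hx0
  have hhφ : φ h ≠ 0 := (_root_.map_ne_zero φ).mpr hh0
  have hjφ : φ j ≠ 0 := (_root_.map_ne_zero φ).mpr hj0
  have hyroot : ∀ i, (quart (3 * φ x ^ 2 + φ V.a₄) (-2 * φ h * φ j)
      (3 * φ x * φ h ^ 2)).eval (y i) = 0 := by
    intro i
    rw [hyq, eval_prod]
    exact Finset.prod_eq_zero (Finset.mem_univ i) (by simp)
  have hzroot : ∀ i, (resol (3 * φ x ^ 2 + φ V.a₄) (-2 * φ h * φ j)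
      (3 * φ x * φ h ^ 2)).eval (z i) = 0 := by
    intro i
    rw [hzq, eval_prod]
    exact Finset.prod_eq_zero (Finset.mem_univ i) (by simp)
  have hy0 : ∀ i, y i ≠ 0 := by
    intro i hi
    have h5 := hyroot i
    rw [hi] at h5
    simp [quart] at h5
    exact h5.elim hx0 hh0
  obtain ⟨vq, vr⟩ := val_two V' v2 two_ne_zero (φ V.a₄) (φ x) (φ h) (φ j) J vx vA vj vJ vJ1 vJ4
  have hnsT : ∀ i, (V.baseChange M).toAffine.Nonsingular (φ x + φ h ^ 2 / y i ^ 2)
      (φ j + φ h ^ 3 / y i ^ 3) := fun i =>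
    WeierstrassCurve.Affine.equation_iff_nonsingular.mp
      (eqT _ ba1 ba2 ba3 (φ x) (φ h) (φ j) hEφ (y i) (hy0 i) (hyroot i))
  have hnsQ : ∀ i, (V.baseChange M).toAffine.Nonsingular (φ x + φ j ^ 2 / z i)
      ((3 * φ x ^ 2 + φ V.a₄) * φ j ^ 2 / (2 * φ h * z i) + φ h + φ j ^ 2 / (2 * φ h)) := fun i =>
    WeierstrassCurve.Affine.equation_iff_nonsingular.mp
      (eqQ _ ba1 ba2 ba3 (φ x) (φ h) (φ j) hEφ hhφ (z i) (hz0 i) (hzroot i))
  refine ⟨y 0, θ ^ 2, θ, ?_, hz', rfl, ?_, ?_, ?_⟩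
  · rw [aeval_def, ← eval_map, quart_map, hpφ, hqφ, hrφ]
    exact hyroot 0
  · intro g
    exact s4_count p q r iQ iG y hy g
  · refine growth_roots V _ iQ y hy (fun a => φ x + φ h ^ 2 / a ^ 2)
      (fun a => φ j + φ h ^ 3 / a ^ 3) ?_ ?_ hnsT ?_ ?_
    · intro σ a
      simp only [map_add, map_div₀, map_pow, hφ, AlgEquiv.commutes]
    · intro σ a
      simp only [map_add, map_div₀, map_pow, hφ, AlgEquiv.commutes]
    · exact sumT _ ba1 ba2 ba3 (φ x) (φ h) (φ j) hEφ hhφ hjφ y hyinj hyq hxφ hne hnsT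
    · intro m hm
      have h5 := (vq (y 0) (hyroot 0)).2
      exact nt_short V' v2 two_ne_zero _ ba1 ba2 ba3 _ _ (hnsT 0) (vx.trans h5) (vA.trans h5)
        (vB.trans h5) m hm
  · refine growth_roots V (resol p q r) iG z (by rw [resol_map, hpφ, hqφ, hrφ]; exact hzq)
      (fun a => φ x + φ j ^ 2 / a)
      (fun a => (3 * φ x ^ 2 + φ V.a₄) * φ j ^ 2 / (2 * φ h * a) + φ h + φ j ^ 2 / (2 * φ h))
      ?_ ?_ hnsQ ?_ ?_
    · intro σ a
      simp only [map_add, map_div₀, map_pow, hφ, AlgEquiv.commutes]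
    · intro σ a
      simp only [map_add, map_div₀, map_pow, map_mul, hφ, AlgEquiv.commutes,
        map_ofNat (σ : M ≃ₐ[K] M)]
    · exact sumQ _ ba1 ba2 ba3 (φ x) (φ h) (φ j) hEφ hhφ hjφ z hzinj hzq hnsQ
    · intro m hm
      have h5 := (vr (z 0) (hzroot 0)).2
      exact nt_short V' v2 two_ne_zero _ ba1 ba2 ba3 _ _ (hnsQ 0) (vx.trans h5) (vA.trans h5)
        (vB.trans h5) m hm

/-- The data of a quartic extension. -/
theorem s4_step_of_params {K M : Type u} [Field K] [NumberField K] [Field M] [NumberField M]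
    [Algebra K M] [IsGalois K M] (V : WeierstrassCurve K)
    [V.IsElliptic] (h1 : V.a₁ = 0) (h2 : V.a₂ = 0) (h3 : V.a₃ = 0) (ψ : K[X]) (hψ : ψ ≠ 0)
    (x h j : K) (hE : x ^ 3 + V.a₄ * x + V.a₆ = h ^ 2 + j ^ 2) (hx0 : x ≠ 0) (hh0 : h ≠ 0)
    (hj0 : j ≠ 0)
    (iQ : Irreducible (quart (3 * x ^ 2 + V.a₄) (-2 * h * j) (3 * x * h ^ 2)))
    (iG : Irreducible (resol (3 * x ^ 2 + V.a₄) (-2 * h * j) (3 * x * h ^ 2)))
    (iS : Irreducible ((resol (3 * x ^ 2 + V.a₄) (-2 * h * j) (3 * x * h ^ 2)).comp (X ^ 2)))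
    (iQN : Irreducible ((quart (3 * x ^ 2 + V.a₄) (-2 * h * j) (3 * x * h ^ 2)).map
      (algebraMap K ψ.SplittingField)))
    (iGN : Irreducible ((resol (3 * x ^ 2 + V.a₄) (-2 * h * j) (3 * x * h ^ 2)).map
      (algebraMap K ψ.SplittingField)))
    (iSN : Irreducible (((resol (3 * x ^ 2 + V.a₄) (-2 * h * j) (3 * x * h ^ 2)).comp
      (X ^ 2)).map (algebraMap K ψ.SplittingField)))
    (hspl : ((quart (3 * x ^ 2 + V.a₄) (-2 * h * j) (3 * x * h ^ 2)).map
      (algebraMap K M)).Splits)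
    (hV : ∃ (V' : Valuation M (WithZero (Multiplicative ℤ))) (J : WithZero (Multiplicative ℤ)),
          V' 2 < 1 ∧ 1 < V' (algebraMap K M x) ∧ V' (algebraMap K M V.a₄) < V' (algebraMap K M x) ∧
          V' (algebraMap K M V.a₆) < V' (algebraMap K M x) ∧
          V' (algebraMap K M j) = V' (algebraMap K M h) ∧
          V' (algebraMap K M h) ^ 2 * J = V' (algebraMap K M x) ^ 3 ∧ J < 1 ∧ V' 2 ^ 4 ≤ J) :
    ∃ (H₃ H₄ H₆ : Subgroup Gal(M/K)),
      (∀ g, fixNum H₃ g + fixNum H₄ g = fixNum H₆ g + 1) ∧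
      ∀ H, (H = H₃ ∨ H = H₄ ∨ H = H₆) →
        mwRank V + 1 ≤ mwRank (V.baseChange (fixedField H)) ∧
        Module.finrank K (fixedField H) ∣ 12 ∧
        Nat.card (ψ.map (algebraMap K (fixedField H))).Gal = Nat.card ψ.Gal := by
  classical
  obtain ⟨V', J, v2, vx, vA, vB, vj, vJ, vJ1, vJ4⟩ := hV
  obtain ⟨y, z, θ, hy, hz, hθ, hrel, ry, rz⟩ := s4_ranks V h1 h2 h3 x h j hE hx0 hh0 hj0 iQ iG hspl
    V' J v2 vx vA vB vj vJ vJ1 vJ4
  have hθ' : aeval θ ((resol (3 * x ^ 2 + V.a₄) (-2 * h * j) (3 * x * h ^ 2)).comp (X ^ 2)) = 0 := by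
    rw [aeval_comp, map_pow, aeval_X, hθ, hz]
  have mS : ((resol (3 * x ^ 2 + V.a₄) (-2 * h * j) (3 * x * h ^ 2)).comp (X ^ 2)).Monic :=
    (resol_monic _ _ _).1.comp (monic_X_pow 2) (by simp)
  have dS : ((resol (3 * x ^ 2 + V.a₄) (-2 * h * j) (3 * x * h ^ 2)).comp (X ^ 2)).natDegree = 6 := by
    rw [natDegree_comp, (resol_monic _ _ _).2, natDegree_X_pow]
  obtain ⟨d4, g4⟩ := stab_data (M := M) ψ _ hψ (quart_monic _ _ _).1 iQ iQN y hy
  obtain ⟨d3, g3⟩ := stab_data (M := M) ψ _ hψ (resol_monic _ _ _).1 iG iGN z hz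
  obtain ⟨d6, g6⟩ := stab_data (M := M) ψ _ hψ mS iS iSN θ hθ'
  rw [(quart_monic _ _ _).2] at d4
  rw [(resol_monic _ _ _).2] at d3
  rw [dS] at d6
  refine ⟨MulAction.stabilizer Gal(M/K) z, MulAction.stabilizer Gal(M/K) y,
    MulAction.stabilizer Gal(M/K) θ, ?_, ?_⟩
  · intro g
    rw [fixNum_stabilizer _ iQ y hy g, fixNum_stabilizer _ iG z hz g,
      fixNum_stabilizer _ iS θ hθ' g]
    exact hrel g
  · rintro H (rfl | rfl | rfl)
    · exact ⟨rz, by rw [d3]; norm_num, g3⟩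
    · exact ⟨ry, by rw [d4]; norm_num, g4⟩
    · refine ⟨rz.trans ?_, by rw [d6]; norm_num, g6⟩
      rw [rank_fixedField, rank_fixedField]
      refine Submodule.rank_mono ?_
      intro P hP σ hσ
      refine hP σ ?_
      rw [MulAction.mem_stabilizer_iff] at hσ ⊢
      have h5 : σ (θ ^ 2) = θ ^ 2 := by
        rw [map_pow]
        congr 1
      rw [← hθ]
      exact h5

/-- Every elliptic curve over a number field acquires rank over the cubic, quartic and sextic
subfields of a suitable extension with Galois group `A₄` or `S₄`. -/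
theorem exists_s4_step_short {K : Type u} [Field K] [NumberField K] (V : WeierstrassCurve K)
    [V.IsElliptic] (h1 : V.a₁ = 0) (h2 : V.a₂ = 0) (h3 : V.a₃ = 0) (ψ : K[X]) (hψ : ψ ≠ 0) :
    ∃ (M : Type u) (_ : Field M) (_ : NumberField M) (_ : Algebra K M) (_ : IsGalois K M)
      (H₃ H₄ H₆ : Subgroup Gal(M/K)),
      (∀ g, fixNum H₃ g + fixNum H₄ g = fixNum H₆ g + 1) ∧
      ∀ H, (H = H₃ ∨ H = H₄ ∨ H = H₆) →
        mwRank V + 1 ≤ mwRank (V.baseChange (fixedField H)) ∧
        Module.finrank K (fixedField H) ∣ 12 ∧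
        Nat.card (ψ.map (algebraMap K (fixedField H))).Gal = Nat.card ψ.Gal := by
  obtain ⟨x, h, j, hE, hx0, hh0, hj0, hq, hr, hV⟩ := exists_params V.a₄ V.a₆ ψ
  have hrK : ∀ z : K, (resol (3 * x ^ 2 + V.a₄) (-2 * h * j) (3 * x * h ^ 2)).eval z ≠ 0 := by
    intro z hz
    refine hr (algebraMap K _ z) ?_
    rw [aeval_algebraMap_apply, coe_aeval_eq_eval, hz, map_zero]
  obtain ⟨iQ, iG, iS⟩ := irred_quart_resol _ _ _ hq hrK
  have hcN : CharZero ψ.SplittingField :=
    charZero_of_injective_algebraMap (algebraMap K ψ.SplittingField).injective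
  have hnN : Normal K ψ.SplittingField := Normal.of_isSplittingField ψ
  have hqN := no_root_normal (N := ψ.SplittingField) _ _ _ iQ hr
  have hN := irred_quart_resol (algebraMap K ψ.SplittingField (3 * x ^ 2 + V.a₄))
    (algebraMap K ψ.SplittingField (-2 * h * j)) (algebraMap K ψ.SplittingField (3 * x * h ^ 2))
    (by
      intro y hy
      rw [← quart_map, eval_map] at hy
      exact hqN y hy)
    (by
      intro z hz
      rw [← resol_map, eval_map] at hz
      exact hr z hz)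
  rw [← quart_map, ← resol_map, ← Polynomial.map_X (algebraMap K ψ.SplittingField),
    ← Polynomial.map_pow, ← Polynomial.map_comp] at hN
  let M := (quart (3 * x ^ 2 + V.a₄) (-2 * h * j) (3 * x * h ^ 2)).SplittingField
  have hcM : CharZero M := charZero_of_injective_algebraMap (algebraMap K M).injective
  have hnf : NumberField M := NumberField.of_module_finite K M
  have hnorm : Normal K M :=
    Normal.of_isSplittingField (quart (3 * x ^ 2 + V.a₄) (-2 * h * j) (3 * x * h ^ 2))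
  have hgal : IsGalois K M := ⟨⟩
  exact ⟨M, inferInstance, hnf, inferInstance, hgal, s4_step_of_params V h1 h2 h3 ψ hψ x h j hE
    hx0 hh0 hj0 iQ iG iS hN.1 hN.2.1 hN.2.2 (SplittingField.splits _) (hV M)⟩

theorem exists_s4_step {K : Type u} [Field K] [NumberField K] (W : WeierstrassCurve K)
    [W.IsElliptic] (ψ : K[X]) (hψ : ψ ≠ 0) :
    ∃ (M : Type u) (_ : Field M) (_ : NumberField M) (_ : Algebra K M) (_ : IsGalois K M)
      (H₃ H₄ H₆ : Subgroup Gal(M/K)),
      (∀ g, fixNum H₃ g + fixNum H₄ g = fixNum H₆ g + 1) ∧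
      ∀ H, (H = H₃ ∨ H = H₄ ∨ H = H₆) →
        mwRank W + 1 ≤ mwRank (W.baseChange (fixedField H)) ∧
        Module.finrank K (fixedField H) ∣ 12 ∧
        Nat.card (ψ.map (algebraMap K (fixedField H))).Gal = Nat.card ψ.Gal := by
  obtain ⟨C, hC⟩ := exists_short W
  obtain ⟨M, i1, i2, i3, i4, H₃, H₄, H₆, hrel, hH⟩ := exists_s4_step_short (C • W)
    (by rw [hC]) (by rw [hC]) (by rw [hC]) ψ hψ
  refine ⟨M, i1, i2, i3, i4, H₃, H₄, H₆, hrel, fun H h => ?_⟩
  obtain ⟨r1, r2, r3⟩ := hH H h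
  rw [mwRank_variableChange, mwRank_baseChange_variableChange] at r1
  exact ⟨r1, r2, r3⟩

end Pool.Agent.Lib.MP_1a91b9_nt
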