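import Pool.Agent.Lib.MP_1a91b9_nt.RankMod
import Pool.Agent.Lib.MP_1a91b9_nt.Final
import Pool.Agent.Lib.MP_1a91b9_nt.FinalTwist
import Pool.Agent.Lib.MP_1a91b9_nt.S4Step

/-!
# The exact reduction theorems to large rank
-/

set_option autoImplicit false

namespace Pool.Agent.Lib.MP_1a91b9_nt

open IsDedekindDomain NumberField Polynomial IntermediateField

universe u

attribute [local instance] isElliptic_baseChange

/-- One Brauer relation of three subgroups. -/
theorem mod_of_three {F M : Type u} [Field F] [NumberField F] [Field M] [NumberField M]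
    [Algebra F M] [IsGalois F M] (m : ℕ) (W : WeierstrassCurve F) [W.IsElliptic]
    (H₃ H₄ H₆ : Subgroup Gal(M/F))
    (hrel : ∀ g : Gal(M/F), fixNum H₃ g + fixNum H₄ g = fixNum H₆ g + 1)
    (h : ∀ H, (H = H₃ ∨ H = H₄ ∨ H = H₆) → RankMod m (W.baseChange (fixedField H))) :
    RankMod m W := by
  classical
  refine core_mod (M := M) W (fun H => (if H = H₃ then 1 else 0) + (if H = H₄ then 1 else 0) -
    (if H = H₆ then 1 else 0)) m ?_ ?_
  · intro g
    have h1 : ((fixNum H₃ g + fixNum H₄ g : ℕ) : ℤ) = ((fixNum H₆ g + 1 : ℕ) : ℤ) := by rw [hrel g]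
    simp only [sub_mul, add_mul, ite_mul, one_mul, zero_mul, Finset.sum_sub_distrib,
      Finset.sum_add_distrib, Finset.sum_ite_eq', Finset.mem_univ, if_true]
    push_cast at h1
    linarith
  · intro H hH
    refine h H ?_
    by_contra hne
    push Not at hne
    obtain ⟨n1, n2, n3⟩ := hne
    simp [n1, n2, n3] at hH

/-- The conjecture modulo `m` over a field follows from the conjecture over extensions of bounded
degree and larger rank which do not change the Galois group of a given polynomial. -/
theorem disjoint_mod (m R : ℕ) : ∀ {K : Type u} [Field K] [NumberField K] (W : WeierstrassCurve K)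
    [W.IsElliptic] (ψ : K[X]) (_ : ψ ≠ 0)
    (_ : ∀ (L : Type u) [Field L] [NumberField L] [Algebra K L],
      Module.finrank K L ∣ 12 ^ R → mwRank W + (R : Cardinal) ≤ mwRank (W.baseChange L) →
      Nat.card (ψ.map (algebraMap K L)).Gal = Nat.card ψ.Gal → RankMod m (W.baseChange L)),
    RankMod m W := by
  induction R with
  | zero =>
    intro K _ _ W _ ψ hψ h
    have h1 := h K (by simp) (by simp [WeierstrassCurve.map_id, WeierstrassCurve.baseChange])
      (by simp [Polynomial.map_id])
    have h5 : W.baseChange K = W := WeierstrassCurve.map_id W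
    rwa [h5] at h1
  | succ R ih =>
    intro K _ _ W _ ψ hψ h
    obtain ⟨M, _, _, _, _, H₃, H₄, H₆, hrel, hH⟩ := exists_s4_step W ψ hψ
    refine mod_of_three (M := M) m W H₃ H₄ H₆ hrel fun H hH' => ?_
    obtain ⟨r1, r2, r3⟩ := hH H hH'
    let L := fixedField H
    have hψL : ψ.map (algebraMap K L) ≠ 0 :=
      (Polynomial.map_ne_zero_iff (algebraMap K L).injective).mpr hψ
    refine ih (W.baseChange L) (ψ.map (algebraMap K L)) hψL ?_
    intro L' _ _ _ hd hr hc
    let _ : Algebra K L' := ((algebraMap L L').comp (algebraMap K L)).toAlgebra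
    have htower : IsScalarTower K L L' := IsScalarTower.of_algebraMap_eq' rfl
    have hres : RankMod m (W.baseChange L') := by
      refine h L' ?_ ?_ ?_
      · rw [← Module.finrank_mul_finrank K L L', pow_succ, mul_comm]
        exact mul_dvd_mul hd r2
      · have h6 : mwRank ((W.baseChange L).baseChange L') = mwRank (W.baseChange L') := rfl
        rw [← h6]
        refine le_trans ?_ hr
        push_cast
        rw [add_comm (R : Cardinal) 1, ← add_assoc]
        gcongr
      · have h7 : (ψ.map (algebraMap K L)).map (algebraMap L L') = ψ.map (algebraMap K L') := by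
          rw [Polynomial.map_map, ← IsScalarTower.algebraMap_eq K L L']
        rw [← h7, hc, r3]
    exact hres

section

variable {F : Type u} [Field F] [NumberField F] (W : WeierstrassCurve F) [W.IsElliptic]

/-- The induction from hyperelementary subgroups, for the curve `W` and all its base changes of
large rank. -/
theorem fixed_mod_rank (m R : ℕ) (f ψ : F[X]) (hf0 : f ≠ 0) (hψ : ψ ≠ 0)
    (hf : ∀ H : Subgroup f.Gal, IsHyperelementary H →
      ∃ x ∈ f.rootSet f.SplittingField, ∀ σ ∈ H, σ x = x)
    (h : ∀ (K : Type u) [Field K] [NumberField K] [Algebra F K],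
      (R : Cardinal) ≤ mwRank (W.baseChange K) →
      (∃ x : K, aeval x f = 0) → IsHyperelementary (ψ.map (algebraMap F K)).Gal →
      RankMod m (W.baseChange K))
    (K : Type u) [Field K] [NumberField K] [Algebra F K]
    (hR : (R : Cardinal) ≤ mwRank (W.baseChange K)) : RankMod m (W.baseChange K) := by
  have hψ' : ψ.map (algebraMap F K) ≠ 0 :=
    (Polynomial.map_ne_zero_iff (algebraMap F K).injective).mpr hψ
  obtain ⟨M, _, _, _, _, hM⟩ := exists_splitting (F₀ := F) (F := K) f _ hψ' hf0
  refine mod_of_hyperelementary (M := M) m (W.baseChange K) fun H hH => ?_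
  obtain ⟨⟨H', φ, hφ, hroot⟩, ⟨χ, hχ⟩⟩ := hM H
  have hH' : IsHyperelementary H' := hH.of_surjective φ hφ
  let L := fixedField H
  let _ : Algebra F L := ((algebraMap K L).comp (algebraMap F K)).toAlgebra
  have htower : IsScalarTower F K L := IsScalarTower.of_algebraMap_eq' rfl
  have hres : RankMod m (W.baseChange L) := by
    refine h L ?_ ?_ ?_
    · exact hR.trans (mwRank_le_baseChange (W.baseChange K) L)
    · obtain ⟨x, hx⟩ := hroot (hf H' hH')
      refine ⟨x, ?_⟩
      rw [aeval_map_algebraMap] at hx
      exact hx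
    · have key : (ψ.map (algebraMap F K)).map (algebraMap K L) = ψ.map (algebraMap F L) := by
        rw [Polynomial.map_map, ← IsScalarTower.algebraMap_eq F K L]
      rw [← key]
      exact hH.of_surjective χ hχ
  exact hres

/-- The exact reduction theorem, for the curve `W` and all its base changes. -/
theorem fixed_mod (m R : ℕ) (f ψ : F[X]) (hf0 : f ≠ 0) (hψ : ψ ≠ 0)
    (hf : ∀ H : Subgroup f.Gal, IsHyperelementary H →
      ∃ x ∈ f.rootSet f.SplittingField, ∀ σ ∈ H, σ x = x)
    (h : ∀ (K : Type u) [Field K] [NumberField K] [Algebra F K],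
      (R : Cardinal) ≤ mwRank (W.baseChange K) →
      (∃ x : K, aeval x f = 0) → IsHyperelementary (ψ.map (algebraMap F K)).Gal →
      RankMod m (W.baseChange K))
    (K : Type u) [Field K] [NumberField K] [Algebra F K] : RankMod m (W.baseChange K) := by
  refine disjoint_mod m R (W.baseChange K) 1 one_ne_zero ?_
  intro L _ _ _ _ hr _
  let _ : Algebra F L := ((algebraMap K L).comp (algebraMap F K)).toAlgebra
  have hres : RankMod m (W.baseChange L) :=
    fixed_mod_rank W m R f ψ hf0 hψ hf h L (le_trans (self_le_add_left _ _) hr)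
  exact hres

theorem RankMod.twist_of_all (m : ℕ)
    (h : ∀ (K : Type u) [Field K] [NumberField K] [Algebra F K], RankMod m (W.baseChange K))
    (K : Type u) [Field K] [NumberField K] [Algebra F K] (W' : WeierstrassCurve K)
    [W'.IsElliptic] (ht : IsQuadraticTwist W' (W.baseChange K)) : RankMod m W' := by
  refine RankMod.twist m (W.baseChange K) W' ht ?_
  intro L _ _ _
  let _ : Algebra F L := ((algebraMap K L).comp (algebraMap F K)).toAlgebra
  exact h L

end

end Pool.Agent.Lib.MP_1a91b9_nt
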