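import Pool.Agent.Lib.MP_1a91b9_nt.Defs

/-!
# Numbers of points and changes of variables
-/

set_option autoImplicit false

namespace Pool.Agent.Lib.MP_1a91b9_nt

open WeierstrassCurve

section VC

variable {k : Type*} [Field k]

lemma nonsingular_variableChange (W : WeierstrassCurve k) (C : VariableChange k) (x y : k) :
    (C • W).toAffine.Nonsingular x y ↔ W.toAffine.Nonsingular
      ((C.u : k) ^ 2 * x + C.r) ((C.u : k) ^ 3 * y + (C.u : k) ^ 2 * C.s * x + C.t) := by
  have hu : (C.u : k) ≠ 0 := C.u.ne_zero
  have hui : ((C.u⁻¹ : kˣ) : k) = (C.u : k)⁻¹ := by simp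
  set u : k := (C.u : k) with hudef
  set X : k := u ^ 2 * x + C.r with hX
  set Y : k := u ^ 3 * y + u ^ 2 * C.s * x + C.t with hY
  have e1 : y ^ 2 + (C • W).a₁ * x * y + (C • W).a₃ * y
      - (x ^ 3 + (C • W).a₂ * x ^ 2 + (C • W).a₄ * x + (C • W).a₆)
      = u⁻¹ ^ 6 * (Y ^ 2 + W.a₁ * X * Y + W.a₃ * Y - (X ^ 3 + W.a₂ * X ^ 2 + W.a₄ * X + W.a₆)) := by
    rw [variableChange_a₁, variableChange_a₂, variableChange_a₃, variableChange_a₄,
      variableChange_a₆, hui, hX, hY]
    field_simp
    ring
  have e2 : (2 * y + (C • W).a₁ * x + (C • W).a₃) = u⁻¹ ^ 3 * (2 * Y + W.a₁ * X + W.a₃) := by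
    rw [variableChange_a₁, variableChange_a₃, hui, hX, hY]
    field_simp
    ring
  have e3 : (C • W).a₁ * y - (3 * x ^ 2 + 2 * (C • W).a₂ * x + (C • W).a₄)
      = u⁻¹ ^ 4 * ((W.a₁ * Y - (3 * X ^ 2 + 2 * W.a₂ * X + W.a₄))
        + C.s * (2 * Y + W.a₁ * X + W.a₃)) := by
    rw [variableChange_a₁, variableChange_a₂, variableChange_a₄, hui, hX, hY]
    field_simp
    ring
  have hu' : u⁻¹ ≠ 0 := inv_ne_zero hu
  rw [Affine.nonsingular_iff', Affine.nonsingular_iff', Affine.equation_iff',
    Affine.equation_iff', e1, e2, e3]
  simp only [mul_eq_zero, pow_eq_zero_iff, hu', ne_eq, OfNat.ofNat_ne_zero, not_false_eq_true,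
    false_or]
  constructor
  · rintro ⟨h1, h2⟩
    refine ⟨h1, ?_⟩
    by_contra hcon
    push Not at hcon
    rcases h2 with h2 | h2
    · apply h2
      rw [hcon.1, hcon.2]; ring
    · exact h2 hcon.2
  · rintro ⟨h1, h2⟩
    refine ⟨h1, ?_⟩
    by_contra hcon
    push Not at hcon
    rcases h2 with h2 | h2
    · apply h2
      have := hcon.1
      rw [hcon.2, mul_zero, add_zero] at this
      exact this
    · exact h2 hcon.2

/-- The affine substitution attached to a change of variables. -/
noncomputable def substEquiv (C : VariableChange k) : k × k ≃ k × k where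
  toFun p := ((C.u : k) ^ 2 * p.1 + C.r, (C.u : k) ^ 3 * p.2 + (C.u : k) ^ 2 * C.s * p.1 + C.t)
  invFun q := ((C.u : k)⁻¹ ^ 2 * (q.1 - C.r), (C.u : k)⁻¹ ^ 3 * (q.2 - C.t - C.s * (q.1 - C.r)))
  left_inv p := by
    have hu : (C.u : k) ≠ 0 := C.u.ne_zero
    ext
    · field_simp
      ring
    · field_simp
      ring
  right_inv q := by
    have hu : (C.u : k) ≠ 0 := C.u.ne_zero
    ext
    · field_simp
      ring
    · field_simp
      ring

/-- Affine points as an optional nonsingular pair. -/
noncomputable def pointEquivOption (W : WeierstrassCurve k) :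
    W.toAffine.Point ≃ Option {p : k × k // W.toAffine.Nonsingular p.1 p.2} where
  toFun P := match P with
    | .zero => none
    | .some x y h => some ⟨(x, y), h⟩
  invFun o := match o with
    | none => .zero
    | some p => .some p.1.1 p.1.2 p.2
  left_inv P := by cases P <;> rfl
  right_inv o := by cases o <;> rfl

end VC

theorem card_point_variableChange {k : Type*} [Field k] (W : WeierstrassCurve k)
    (C : WeierstrassCurve.VariableChange k) :
    Nat.card (C • W).toAffine.Point = Nat.card W.toAffine.Point := by
  refine Nat.card_congr ((pointEquivOption _).trans (Equiv.trans (Equiv.optionCongr ?_)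
    (pointEquivOption _).symm))
  refine (substEquiv C).subtypeEquiv fun p => ?_
  exact nonsingular_variableChange W C p.1 p.2

theorem card_point_map_equiv {k k' : Type*} [Field k] [Field k'] (W : WeierstrassCurve k)
    (e : k ≃+* k') :
    Nat.card (W.map e.toRingHom).toAffine.Point = Nat.card W.toAffine.Point := by
  refine Nat.card_congr ((pointEquivOption _).trans (Equiv.trans (Equiv.optionCongr ?_)
    (pointEquivOption _).symm))
  refine ((e.toEquiv.prodCongr e.toEquiv).subtypeEquiv fun p => ?_).symm
  exact (Affine.map_nonsingular (W := W.toAffine) (f := e.toRingHom) e.injective p.1 p.2).symm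

theorem card_point_le {k : Type*} [Field k] [Finite k] (W : WeierstrassCurve k) :
    1 ≤ Nat.card W.toAffine.Point ∧ Nat.card W.toAffine.Point ≤ 2 * Nat.card k + 1 := by
  classical
  have hfin : Finite W.toAffine.Point := Finite.of_equiv _ (pointEquivOption W).symm
  refine ⟨Nat.one_le_iff_ne_zero.mpr (Nat.card_ne_zero.mpr ⟨⟨.zero⟩, hfin⟩), ?_⟩
  rw [Nat.card_congr (pointEquivOption W), Finite.card_option]
  refine Nat.succ_le_succ ?_
  have := Fintype.ofFinite k
  have hle : Nat.card {p : k × k // W.toAffine.Nonsingular p.1 p.2}
      ≤ ∑ x : k, 2 := by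
    rw [Nat.card_eq_fintype_card, Fintype.card_subtype]
    calc (Finset.univ.filter fun p : k × k => W.toAffine.Nonsingular p.1 p.2).card
        = ∑ x : k, ((Finset.univ.filter fun p : k × k => W.toAffine.Nonsingular p.1 p.2).filter
            fun p => p.1 = x).card := by
          rw [Finset.card_eq_sum_card_fiberwise (f := fun p : k × k => p.1) (t := Finset.univ)]
          intro x _; simp
      _ ≤ ∑ x : k, 2 := by
          refine Finset.sum_le_sum fun x _ => ?_
          -- the fibre over `x` injects into the roots of a monic quadratic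
          set P : Polynomial k := Polynomial.X ^ 2 + Polynomial.C (W.a₁ * x + W.a₃) * Polynomial.X
            - Polynomial.C (x ^ 3 + W.a₂ * x ^ 2 + W.a₄ * x + W.a₆) with hP
          have hdeg : P.natDegree = 2 := by
            rw [hP]
            compute_degree!
          have hP0 : P ≠ 0 := by
            intro h0
            rw [h0] at hdeg
            simp at hdeg
          have hsub : (((Finset.univ.filter fun p : k × k => W.toAffine.Nonsingular p.1 p.2).filter
              fun p => p.1 = x).image Prod.snd) ⊆ P.roots.toFinset := by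
            intro y hy
            rw [Finset.mem_image] at hy
            obtain ⟨⟨x', y'⟩, hp, rfl⟩ := hy
            rw [Finset.mem_filter, Finset.mem_filter] at hp
            obtain ⟨⟨_, hns⟩, hx⟩ := hp
            simp only at hx
            subst hx
            rw [Multiset.mem_toFinset, Polynomial.mem_roots hP0, Polynomial.IsRoot.def, hP]
            have := (Affine.equation_iff' (W := W.toAffine) x' y').mp hns.1
            simp only [Polynomial.eval_sub, Polynomial.eval_add, Polynomial.eval_pow,
              Polynomial.eval_mul, Polynomial.eval_X, Polynomial.eval_C]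
            linear_combination this
          have hinj : Set.InjOn Prod.snd ((((Finset.univ.filter fun p : k × k =>
              W.toAffine.Nonsingular p.1 p.2).filter fun p => p.1 = x) : Finset (k × k)) :
                Set (k × k)) := by
            rintro ⟨x1, y1⟩ h1 ⟨x2, y2⟩ h2 h12
            rw [Finset.mem_coe, Finset.mem_filter] at h1 h2
            simp only at h12
            have e1 : x1 = x := h1.2
            have e2 : x2 = x := h2.2
            rw [e1, e2, h12]
          rw [← Finset.card_image_of_injOn hinj]
          calc _ ≤ P.roots.toFinset.card := Finset.card_le_card hsub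
            _ ≤ Multiset.card P.roots := Multiset.toFinset_card_le _
            _ ≤ P.natDegree := Polynomial.card_roots' P
            _ = 2 := hdeg
  rw [Finset.sum_const, Finset.card_univ, smul_eq_mul, ← Nat.card_eq_fintype_card] at hle
  linarith [hle, mul_comm (Nat.card k) 2]

end Pool.Agent.Lib.MP_1a91b9_nt
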