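import Pool.Agent.Lib.MP_1a91b9_nt.Defs
import Pool.Agent.Lib.MP_1a91b9_nt.VarChange
set_option autoImplicit false
namespace Pool.Agent.Lib.MP_1a91b9_nt
open IsDedekindDomain NumberField Polynomial IntermediateField

/-- A monic quartic relation makes an element of the fraction field integral. -/
theorem gm_lift_of_quartic {R K : Type*} [CommRing R] [IsDomain R] [IsIntegrallyClosed R]
    [Field K] [Algebra R K] [IsFractionRing R K] (x : K) (a b c : R)
    (h : x ^ 4 + (algebraMap R K a * x ^ 2 + algebraMap R K b * x + algebraMap R K c) = 0) :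
    ∃ y : R, algebraMap R K y = x := by
  refine IsIntegrallyClosed.isIntegral_iff.mp
    ⟨X ^ 4 + (C a * X ^ 2 + C b * X + C c), ?_, ?_⟩
  · refine monic_X_pow_add ?_
    compute_degree!
  · simpa using h

/-- A monic quadratic relation makes an element of the fraction field integral. -/
theorem gm_lift_of_quadratic {R K : Type*} [CommRing R] [IsDomain R] [IsIntegrallyClosed R]
    [Field K] [Algebra R K] [IsFractionRing R K] (x : K) (b c : R)
    (h : x ^ 2 + (algebraMap R K b * x + algebraMap R K c) = 0) :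
    ∃ y : R, algebraMap R K y = x := by
  refine IsIntegrallyClosed.isIntegral_iff.mp
    ⟨X ^ 2 + (C b * X + C c), ?_, ?_⟩
  · refine monic_X_pow_add ?_
    compute_degree!
  · simpa using h

/-- A variable change with unit `u`-coordinate in `R` between two integral models is integral. -/
theorem gm_lift_variableChange {R K : Type*} [CommRing R] [IsDomain R] [IsIntegrallyClosed R]
    [Field K] [Algebra R K] [IsFractionRing R K] (D : WeierstrassCurve.VariableChange K)
    (W₀ I : WeierstrassCurve R) (u₀ : Rˣ) (hu : algebraMap R K u₀ = D.u)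
    (h : I.map (algebraMap R K) = D • (W₀.map (algebraMap R K))) :
    ∃ D₀ : WeierstrassCurve.VariableChange R, I = D₀ • W₀ := by
  have hinj : Function.Injective (algebraMap R K) := IsFractionRing.injective R K
  have hu' : (D.u : K) * ((D.u⁻¹ : Kˣ) : K) = 1 := D.u.mul_inv
  set u : K := (D.u : K) with hudef
  set ui : K := ((D.u⁻¹ : Kˣ) : K) with huidef
  have e2 := congrArg WeierstrassCurve.a₂ h
  have e6 := congrArg WeierstrassCurve.a₆ h
  have f6 := congrArg WeierstrassCurve.b₆ h
  have f8 := congrArg WeierstrassCurve.b₈ h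
  rw [WeierstrassCurve.variableChange_a₂] at e2
  rw [WeierstrassCurve.variableChange_a₆] at e6
  rw [WeierstrassCurve.variableChange_b₆] at f6
  rw [WeierstrassCurve.variableChange_b₈] at f8
  simp only [WeierstrassCurve.map_a₂, WeierstrassCurve.map_a₆, WeierstrassCurve.map_b₆,
    WeierstrassCurve.map_b₈, WeierstrassCurve.map_a₁, WeierstrassCurve.map_a₃,
    WeierstrassCurve.map_a₄, WeierstrassCurve.map_b₂, WeierstrassCurve.map_b₄] at e2 e6 f6 f8
  rw [← huidef] at e2 e6 f6 f8
  have p6 : u ^ 6 * ui ^ 6 = 1 := by rw [← mul_pow, hu', one_pow]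
  have p8 : u ^ 8 * ui ^ 8 = 1 := by rw [← mul_pow, hu', one_pow]
  have p2 : u ^ 2 * ui ^ 2 = 1 := by rw [← mul_pow, hu', one_pow]
  obtain ⟨r, hr⟩ := gm_lift_of_quartic (R := R) D.r (-W₀.b₄) (-(2 * W₀.b₆ + u₀ ^ 6 * I.b₆))
    (-(W₀.b₈ - u₀ ^ 8 * I.b₈)) (by
      simp only [map_neg, map_add, map_sub, map_mul, map_pow, map_ofNat, hu]
      linear_combination (-D.r * u ^ 6) * f6 + u ^ 8 * f8 +
        (-D.r * (algebraMap R K W₀.b₆ + 2 * D.r * algebraMap R K W₀.b₄
          + D.r ^ 2 * algebraMap R K W₀.b₂ + 4 * D.r ^ 3)) * p6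
        + (algebraMap R K W₀.b₈ + 3 * D.r * algebraMap R K W₀.b₆
          + 3 * D.r ^ 2 * algebraMap R K W₀.b₄ + D.r ^ 3 * algebraMap R K W₀.b₂
          + 3 * D.r ^ 4) * p8)
  obtain ⟨s, hs⟩ := gm_lift_of_quadratic (R := R) D.s W₀.a₁
    (-(W₀.a₂ + 3 * r - u₀ ^ 2 * I.a₂)) (by
      simp only [map_neg, map_add, map_sub, map_mul, map_pow, map_ofNat, hu, hr]
      linear_combination (u ^ 2) * e2 + (algebraMap R K W₀.a₂ - D.s * algebraMap R K W₀.a₁
        + 3 * D.r - D.s ^ 2) * p2)
  obtain ⟨t, ht⟩ := gm_lift_of_quadratic (R := R) D.t (W₀.a₃ + r * W₀.a₁)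
    (-(W₀.a₆ + r * W₀.a₄ + r ^ 2 * W₀.a₂ + r ^ 3 - u₀ ^ 6 * I.a₆)) (by
      simp only [map_neg, map_add, map_sub, map_mul, map_pow, hu, hr]
      linear_combination (u ^ 6) * e6 + (algebraMap R K W₀.a₆ + D.r * algebraMap R K W₀.a₄
        + D.r ^ 2 * algebraMap R K W₀.a₂ + D.r ^ 3 - D.t * algebraMap R K W₀.a₃ - D.t ^ 2
        - D.r * D.t * algebraMap R K W₀.a₁) * p6)
  refine ⟨⟨u₀, r, s, t⟩, ?_⟩
  apply WeierstrassCurve.map_injective hinj
  change I.map _ = (_ • W₀).map _
  rw [h, ← WeierstrassCurve.map_variableChange]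
  congr 1
  ext
  · simpa using hu.symm
  · simpa using hr.symm
  · simpa using hs.symm
  · simpa using ht.symm

/-- The local polynomial computed from any integral model with unit discriminant. -/
theorem localPolynomial_of_model (R : Type*) [CommRing R] [IsDomain R] [IsDiscreteValuationRing R]
    {K : Type*} [Field K] [Algebra R K] [IsFractionRing R K] (W : WeierstrassCurve K)
    (C : WeierstrassCurve.VariableChange K) (W₀ : WeierstrassCurve R)
    (h : C • W = W₀.map (algebraMap R K)) (hΔ : IsUnit W₀.Δ) :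
    W.localPolynomial R = 1 - Polynomial.C ((Nat.card (IsLocalRing.ResidueField R) : ℤ) + 1
      - Nat.card (W₀.map (IsLocalRing.residue R)).toAffine.Point) * X
      + Polynomial.C (Nat.card (IsLocalRing.ResidueField R) : ℤ) * X ^ 2 := by
  classical
  set 𝔪 := IsDiscreteValuationRing.maximalIdeal R with h𝔪
  obtain ⟨C', hC'⟩ : ∃ C' : WeierstrassCurve.VariableChange K, W.minimal R = C' • W := ⟨_, rfl⟩
  set D : WeierstrassCurve.VariableChange K := C' * C⁻¹ with hD
  have hW' : W.minimal R = D • (W₀.map (algebraMap R K)) := by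
    rw [← h, hD, mul_smul, inv_smul_smul, hC']
  have hint : WeierstrassCurve.IsIntegral R (W₀.map (algebraMap R K)) := ⟨W₀, rfl⟩
  -- valuation of the discriminant
  have hv0 : 𝔪.valuation K (W₀.map (algebraMap R K)).Δ = 1 := by
    rw [WeierstrassCurve.map_Δ]
    have hnot : ¬ (𝔪.valuation K (algebraMap R K W₀.Δ) < 1) := by
      rw [HeightOneSpectrum.valuation_lt_one_iff_mem]
      intro hmem
      exact (IsLocalRing.mem_maximalIdeal _).mp hmem hΔ
    exact le_antisymm (HeightOneSpectrum.valuation_le_one _ _) (not_lt.mp hnot)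
  have hmax := (inferInstance : WeierstrassCurve.IsMinimal R (W.minimal R)).val_Δ_maximal
  have hDinv : D⁻¹ • W.minimal R = W₀.map (algebraMap R K) := by
    rw [hW', inv_smul_smul]
  have hv1 : 𝔪.valuation K (W.minimal R).Δ = 1 := by
    have hle := hmax.2 (j := D⁻¹) (by simpa only [hDinv] using hint)
    have htop : WeierstrassCurve.valuation_Δ_aux R (D⁻¹ • W.minimal R) = ⟨1, le_refl _⟩ := by
      rw [hDinv]
      apply Subtype.ext
      rw [WeierstrassCurve.valuation_Δ_aux_eq_of_isIntegral]
      exact hv0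
    have h1 : WeierstrassCurve.valuation_Δ_aux R ((1 : WeierstrassCurve.VariableChange K) •
        W.minimal R) ≤ WeierstrassCurve.valuation_Δ_aux R (D⁻¹ • W.minimal R) := by
      rw [htop]
      exact (WeierstrassCurve.valuation_Δ_aux R _).2
    have h2 := hle h1
    simp only [htop, one_smul] at h2
    have h3 : (1 : WithZero (Multiplicative ℤ)) ≤
        (WeierstrassCurve.valuation_Δ_aux R (W.minimal R) : _) := h2
    rw [WeierstrassCurve.valuation_Δ_aux_eq_of_isIntegral] at h3
    refine le_antisymm ?_ h3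
    obtain ⟨r, hr⟩ := WeierstrassCurve.Δ_integral_of_isIntegral R (W.minimal R)
    rw [← hr]
    exact HeightOneSpectrum.valuation_le_one _ _
  have hgood : (W.minimal R).HasGoodReduction R := ⟨hv1⟩
  -- the unit
  have hu : ∃ u₀ : Rˣ, algebraMap R K u₀ = D.u := by
    have h1 : (W.minimal R).Δ = ((D.u⁻¹ : Kˣ) : K) ^ 12 * (W₀.map (algebraMap R K)).Δ := by
      rw [hW', WeierstrassCurve.variableChange_Δ]
    have h2 : 𝔪.valuation K ((D.u⁻¹ : Kˣ) : K) ^ 12 = 1 := by
      have := congrArg (𝔪.valuation K) h1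
      rw [map_mul, map_pow, hv0, hv1, mul_one] at this
      exact this.symm
    have h3 : 𝔪.valuation K ((D.u⁻¹ : Kˣ) : K) = 1 := by
      exact (pow_eq_one_iff.mp h2).resolve_right (by norm_num)
    have h4 : 𝔪.valuation K (D.u : K) = 1 := by
      have := congrArg (𝔪.valuation K) D.u.mul_inv
      rwa [map_mul, h3, mul_one, map_one] at this
    obtain ⟨a, ha⟩ := IsDiscreteValuationRing.exists_lift_of_le_one h4.le
    obtain ⟨b, hb⟩ := IsDiscreteValuationRing.exists_lift_of_le_one h3.le
    have hab : a * b = 1 := by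
      apply IsFractionRing.injective R K
      rw [map_mul, ha, hb, map_one]
      exact D.u.mul_inv
    exact ⟨⟨a, b, hab, by rw [mul_comm]; exact hab⟩, ha⟩
  obtain ⟨u₀, hu₀⟩ := hu
  obtain ⟨D₀, hD₀⟩ := gm_lift_variableChange D W₀ ((W.minimal R).integralModel R) u₀ hu₀ (by
    have := WeierstrassCurve.baseChange_integralModel_eq R (W.minimal R)
    rw [← hW']
    exact this)
  have hred : (W.minimal R).reduction R =
      (D₀.map (IsLocalRing.residue R)) • (W₀.map (IsLocalRing.residue R)) := by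
    rw [WeierstrassCurve.reduction, hD₀, WeierstrassCurve.map_variableChange]
  unfold WeierstrassCurve.localPolynomial
  simp only [hgood, if_true]
  rw [hred, card_point_variableChange]

end Pool.Agent.Lib.MP_1a91b9_nt
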