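import Pool.Agent.Lib.MP_1a91b9_nt.LocDep

/-!
# Simultaneous integral models of a curve and of a quadratic twist
-/

set_option autoImplicit false

namespace Pool.Agent.Lib.MP_1a91b9_nt

open IsDedekindDomain NumberField Polynomial IntermediateField WeierstrassCurve

universe u

/-- Rescaling of an integral model. -/
def rescale {R : Type*} [CommRing R] (W : WeierstrassCurve R) (n : R) : WeierstrassCurve R :=
  ⟨n * W.a₁, n ^ 2 * W.a₂, n ^ 3 * W.a₃, n ^ 4 * W.a₄, n ^ 6 * W.a₆⟩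

theorem rescale_c₄ {R : Type*} [CommRing R] (W : WeierstrassCurve R) (n : R) :
    (rescale W n).c₄ = n ^ 4 * W.c₄ := by
  simp only [rescale, WeierstrassCurve.c₄, WeierstrassCurve.b₂, WeierstrassCurve.b₄]
  ring

theorem rescale_c₆ {R : Type*} [CommRing R] (W : WeierstrassCurve R) (n : R) :
    (rescale W n).c₆ = n ^ 6 * W.c₆ := by
  simp only [rescale, WeierstrassCurve.c₆, WeierstrassCurve.b₂, WeierstrassCurve.b₄,
    WeierstrassCurve.b₆]
  ring

theorem rescale_Δ {R : Type*} [CommRing R] (W : WeierstrassCurve R) (n : R) :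
    (rescale W n).Δ = n ^ 12 * W.Δ := by
  simp only [rescale, WeierstrassCurve.Δ, WeierstrassCurve.b₂, WeierstrassCurve.b₄,
    WeierstrassCurve.b₆, WeierstrassCurve.b₈]
  ring

theorem rescale_map {R K : Type*} [CommRing R] [Field K] [Algebra R K] (W : WeierstrassCurve R)
    (n : R) (hn : algebraMap R K n ≠ 0) :
    (rescale W n).map (algebraMap R K) =
      (⟨(Units.mk0 (algebraMap R K n) hn)⁻¹, 0, 0, 0⟩ : VariableChange K) •
        W.map (algebraMap R K) := by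
  rw [WeierstrassCurve.variableChange_def]
  ext
  · simp [rescale]
  · simp [rescale]
  · simp [rescale]
  · simp [rescale]
  · simp [rescale]

theorem exists_integral_twist {K : Type u} [Field K] [NumberField K] (W W' : WeierstrassCurve K)
    [W.IsElliptic] [W'.IsElliptic] (d : K) (hd : d ≠ 0) (h4 : W'.c₄ = d ^ 2 * W.c₄)
    (h6 : W'.c₆ = d ^ 3 * W.c₆) :
    ∃ (C C' : WeierstrassCurve.VariableChange K) (W₀ W₀' : WeierstrassCurve (𝓞 K)) (a : 𝓞 K)
      (e : K), a ≠ 0 ∧ e ≠ 0 ∧ algebraMap (𝓞 K) K a = e ^ 2 * d ∧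
      C • W = W₀.map (algebraMap (𝓞 K) K) ∧ C' • W' = W₀'.map (algebraMap (𝓞 K) K) ∧
      W₀.Δ ≠ 0 ∧ W₀'.Δ ≠ 0 ∧ W₀'.c₄ = a ^ 2 * W₀.c₄ ∧ W₀'.c₆ = a ^ 3 * W₀.c₆ := by
  obtain ⟨C, W₀, hC, hΔ⟩ := exists_integral_model W
  obtain ⟨C₁, W₁, hC₁, hΔ₁⟩ := exists_integral_model W'
  -- the ratio of the two scalings
  set u : K := (C.u : K) with hu
  set u₁ : K := (C₁.u : K) with hu₁
  have hu0 : u ≠ 0 := C.u.ne_zero
  have hu₁0 : u₁ ≠ 0 := C₁.u.ne_zero
  set D : K := (u / u₁) ^ 2 * d with hD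
  obtain ⟨x, y, hy, hxy⟩ := IsFractionRing.div_surjective (A := 𝓞 K) D
  have hy0 : algebraMap (𝓞 K) K y ≠ 0 := by
    have := nonZeroDivisors.ne_zero hy
    simpa using this
  have hy0' : y ≠ 0 := nonZeroDivisors.ne_zero hy
  have hD0 : D ≠ 0 := by
    rw [hD]
    exact mul_ne_zero (pow_ne_zero _ (div_ne_zero hu0 hu₁0)) hd
  have hx0 : x ≠ 0 := by
    rintro rfl
    apply hD0
    rw [← hxy]
    simp
  have hD' : algebraMap (𝓞 K) K (x * y) = algebraMap (𝓞 K) K y ^ 2 * D := by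
    rw [← hxy, map_mul]
    field_simp
  have k4 : algebraMap (𝓞 K) K W₁.c₄ = D ^ 2 * algebraMap (𝓞 K) K W₀.c₄ := by
    rw [← WeierstrassCurve.map_c₄, ← WeierstrassCurve.map_c₄, ← hC, ← hC₁,
      WeierstrassCurve.variableChange_c₄, WeierstrassCurve.variableChange_c₄, h4, hD]
    simp only [Units.val_inv_eq_inv_val, ← hu, ← hu₁]
    field_simp
  have k6 : algebraMap (𝓞 K) K W₁.c₆ = D ^ 3 * algebraMap (𝓞 K) K W₀.c₆ := by
    rw [← WeierstrassCurve.map_c₆, ← WeierstrassCurve.map_c₆, ← hC, ← hC₁,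
      WeierstrassCurve.variableChange_c₆, WeierstrassCurve.variableChange_c₆, h6, hD]
    simp only [Units.val_inv_eq_inv_val, ← hu, ← hu₁]
    field_simp
  refine ⟨C, ⟨(Units.mk0 (algebraMap (𝓞 K) K y) hy0)⁻¹, 0, 0, 0⟩ * C₁, W₀, rescale W₁ y, x * y,
    algebraMap (𝓞 K) K y * (u / u₁), mul_ne_zero hx0 hy0', ?_, ?_, hC, ?_, hΔ, ?_, ?_, ?_⟩
  · exact mul_ne_zero hy0 (div_ne_zero hu0 hu₁0)
  · rw [hD', hD]
    ring
  · rw [mul_smul, hC₁, rescale_map W₁ y hy0]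
  · rw [rescale_Δ]
    exact mul_ne_zero (pow_ne_zero _ hy0') hΔ₁
  · apply IsFractionRing.injective (𝓞 K) K
    rw [rescale_c₄, map_mul, map_mul, map_pow, map_pow, k4, hD']
    ring
  · apply IsFractionRing.injective (𝓞 K) K
    rw [rescale_c₆, map_mul, map_mul, map_pow, map_pow, k6, hD']
    ring

end Pool.Agent.Lib.MP_1a91b9_nt
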