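import Pool.Agent.Lib.MP_1a91b9_nt.TSFinal

/-!
# Totally split solvable extensions of larger rank which do not change a given Galois group
-/

set_option autoImplicit false

namespace Pool.Agent.Lib.MP_1a91b9_nt

open IsDedekindDomain NumberField Polynomial IntermediateField

universe u

/-- The three subgroups, with the Galois group of `ψ`. -/
theorem lr_step_of_params {K M : Type u} [Field K] [NumberField K] [Field M] [NumberField M]
    [Algebra K M] [IsGalois K M] (V : WeierstrassCurve K)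
    [V.IsElliptic] (h1 : V.a₁ = 0) (h2 : V.a₂ = 0) (h3 : V.a₃ = 0) (ψ : K[X]) (hψ : ψ ≠ 0)
    (x c h j : K) (hE : x ^ 3 + V.a₄ * x + V.a₆ = h ^ 2 + j ^ 2)
    (ha : tsa V.a₄ V.a₆ x c ≠ 0) (hc0 : c ≠ 0) (hh0 : h ≠ 0) (hj0 : j ≠ 0)
    (hS : tsa V.a₄ V.a₆ x c + tsb V.a₄ V.a₆ x c + 2 * h ^ 2 ≠ 0)
    (hQ : ∀ y : ψ.SplittingField, aeval y (tsQuart V.a₄ V.a₆ x c h j) ≠ 0)
    (hG : ∀ z : ψ.SplittingField, aeval z (tsResol V.a₄ V.a₆ x c h j) ≠ 0)
    (hspl : ((tsQuart V.a₄ V.a₆ x c h j).map (algebraMap K M)).Splits)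
    (hV : ∃ V' : Valuation M (WithZero (Multiplicative ℤ)),
      V' 2 < 1 ∧ 1 < V' (algebraMap K M x) ∧
      V' (algebraMap K M V.a₄) < V' (algebraMap K M x) ∧
      V' (algebraMap K M V.a₆) < V' (algebraMap K M x) ∧
      V' (algebraMap K M V.a₄) < V' 8 * V' (algebraMap K M x) ^ 2 ∧
      V' (algebraMap K M V.a₆) < V' 8 * V' (algebraMap K M x) ^ 3 ∧
      V' (3 * algebraMap K M c - 4 * algebraMap K M x) < V' 8 * V' (algebraMap K M x) ∧
      V' (algebraMap K M h) ^ 2 < V' 16 * V' (algebraMap K M x) ^ 3) :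
    ∃ (H₃ H₄ H₆ : Subgroup Gal(M/K)),
      (∀ g, fixNum H₃ g + fixNum H₄ g = fixNum H₆ g + 1) ∧
      ∀ H, (H = H₃ ∨ H = H₄ ∨ H = H₆) →
        mwRank V + 1 ≤ mwRank (V.baseChange (fixedField H)) ∧
        Module.finrank K (fixedField H) ∣ 12 ∧
        Nat.card (ψ.map (algebraMap K (fixedField H))).Gal = Nat.card ψ.Gal := by
  classical
  obtain ⟨V', v2, vx, vA, vB, vA8, vB8, vc, vh⟩ := hV
  have hcN : CharZero ψ.SplittingField :=
    charZero_of_injective_algebraMap (algebraMap K ψ.SplittingField).injective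
  obtain ⟨iQ, iG, iS⟩ := irred_quart_resol (tsP V.a₄ V.a₆ x c h) (tsQ V.a₄ V.a₆ x c h j)
    (tsR V.a₄ V.a₆ x c h)
    (by
      intro y hy
      refine hQ (algebraMap K _ y) ?_
      rw [aeval_algebraMap_apply, coe_aeval_eq_eval, tsQuart, hy, map_zero])
    (by
      intro z hz
      refine hG (algebraMap K _ z) ?_
      rw [aeval_algebraMap_apply, coe_aeval_eq_eval, tsResol, hz, map_zero])
  have hN := irred_quart_resol (algebraMap K ψ.SplittingField (tsP V.a₄ V.a₆ x c h))
    (algebraMap K ψ.SplittingField (tsQ V.a₄ V.a₆ x c h j))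
    (algebraMap K ψ.SplittingField (tsR V.a₄ V.a₆ x c h))
    (by
      intro y hy
      rw [← quart_map, eval_map] at hy
      exact hQ y hy)
    (by
      intro z hz
      rw [← resol_map, eval_map] at hz
      exact hG z hz)
  rw [← quart_map, ← resol_map, ← Polynomial.map_X (algebraMap K ψ.SplittingField),
    ← Polynomial.map_pow, ← Polynomial.map_comp] at hN
  obtain ⟨iQN, iGN, iSN⟩ := hN
  obtain ⟨y, z, θ, hy, hz, hθ, hrel, ry, rz⟩ := ts_ranks V h1 h2 h3 x c h j hE ha hc0 hh0 hj0 hS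
    iQ iG hspl V' v2 vx vA vB vA8 vB8 vc vh
  have hθ' : aeval θ ((resol (tsP V.a₄ V.a₆ x c h) (tsQ V.a₄ V.a₆ x c h j)
      (tsR V.a₄ V.a₆ x c h)).comp (X ^ 2)) = 0 := by
    rw [aeval_comp, map_pow, aeval_X, hθ]
    exact hz
  have mS : ((resol (tsP V.a₄ V.a₆ x c h) (tsQ V.a₄ V.a₆ x c h j)
      (tsR V.a₄ V.a₆ x c h)).comp (X ^ 2)).Monic :=
    (resol_monic _ _ _).1.comp (monic_X_pow 2) (by simp)
  have dS : ((resol (tsP V.a₄ V.a₆ x c h) (tsQ V.a₄ V.a₆ x c h j)
      (tsR V.a₄ V.a₆ x c h)).comp (X ^ 2)).natDegree = 6 := by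
    rw [natDegree_comp, (resol_monic _ _ _).2, natDegree_X_pow]
  obtain ⟨d4, g4⟩ := stab_data (M := M) ψ _ hψ (quart_monic _ _ _).1 iQ iQN y hy
  obtain ⟨d3, g3⟩ := stab_data (M := M) ψ _ hψ (resol_monic _ _ _).1 iG iGN z hz
  obtain ⟨d6, g6⟩ := stab_data (M := M) ψ _ hψ mS iS iSN θ hθ'
  rw [(quart_monic _ _ _).2] at d4
  rw [(resol_monic _ _ _).2] at d3
  rw [dS] at d6
  refine ⟨MulAction.stabilizer Gal(M/K) z, MulAction.stabilizer Gal(M/K) y,
    MulAction.stabilizer Gal(M/K) θ, ?_, ?_⟩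
  · intro g
    rw [fixNum_stabilizer _ iQ y hy g, fixNum_stabilizer _ iG z hz g,
      fixNum_stabilizer _ iS θ hθ' g]
    exact hrel g
  · rintro H (rfl | rfl | rfl)
    · exact ⟨rz, by rw [d3]; norm_num, g3⟩
    · exact ⟨ry, by rw [d4]; norm_num, g4⟩
    · refine ⟨rz.trans ?_, by rw [d6]; norm_num, g6⟩
      rw [rank_fixedField, rank_fixedField]
      refine Submodule.rank_mono ?_
      intro P hP σ hσ
      refine hP σ ?_
      rw [MulAction.mem_stabilizer_iff] at hσ ⊢
      have h5 : σ (θ ^ 2) = θ ^ 2 := by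
        rw [map_pow]
        congr 1
      rw [← hθ]
      exact h5

/-- A field embedded in the splitting field of `g`: the splitting field of `ψ` over it is embedded
in the splitting field of `g * ψ`. -/
theorem lr_embed {F : Type u} [Field F] (g ψ : F[X]) (hg : g ≠ 0) (hψ : ψ ≠ 0)
    {K : Type u} [Field K] [Algebra F K] (i : K →ₐ[F] g.SplittingField) :
    ∃ f : (ψ.map (algebraMap F K)).SplittingField →+* (g * ψ).SplittingField,
      ∀ a : F, f (algebraMap K _ (algebraMap F K a)) = algebraMap F _ a := by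
  let M := (ψ.map (algebraMap F K)).SplittingField
  let aFM : Algebra F M := ((algebraMap K M).comp (algebraMap F K)).toAlgebra
  have htower : @IsScalarTower F K M _ _ aFM.toSMul := IsScalarTower.of_algebraMap_eq' rfl
  obtain ⟨e⟩ := ts_embed g ψ hg hψ (K := K) (M := M) i
  refine ⟨e.toRingHom, fun a => ?_⟩
  exact e.commutes a

/-- The data over a field `K` embedded in the splitting field of `g`, with the Galois group of `ψ`. -/
theorem lr_step_over {F K M : Type u} [Field F] [NumberField F] [Field K] [NumberField K]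
    [Field M] [NumberField M] [Algebra F K] [Algebra K M] [Algebra F M] [IsScalarTower F K M]
    [IsGalois K M] (V : WeierstrassCurve F) [V.IsElliptic] (h1 : V.a₁ = 0) (h2 : V.a₂ = 0)
    (h3 : V.a₃ = 0) (g ψ : F[X]) (hg : g ≠ 0) (hψ : ψ ≠ 0) (i : K →ₐ[F] g.SplittingField)
    (x c h j : F) (hE : x ^ 3 + V.a₄ * x + V.a₆ = h ^ 2 + j ^ 2)
    (ha : tsa V.a₄ V.a₆ x c ≠ 0) (hc0 : c ≠ 0) (hh0 : h ≠ 0) (hj0 : j ≠ 0)
    (hS : tsa V.a₄ V.a₆ x c + tsb V.a₄ V.a₆ x c + 2 * h ^ 2 ≠ 0)
    (hQ : ∀ y : (g * ψ).SplittingField, aeval y (tsQuart V.a₄ V.a₆ x c h j) ≠ 0)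
    (hG : ∀ z : (g * ψ).SplittingField, aeval z (tsResol V.a₄ V.a₆ x c h j) ≠ 0)
    (hspl : (((tsQuart V.a₄ V.a₆ x c h j).map (algebraMap F K)).map (algebraMap K M)).Splits)
    (hV : ∃ V' : Valuation M (WithZero (Multiplicative ℤ)),
      V' 2 < 1 ∧ 1 < V' (algebraMap F M x) ∧
      V' (algebraMap F M V.a₄) < V' (algebraMap F M x) ∧
      V' (algebraMap F M V.a₆) < V' (algebraMap F M x) ∧
      V' (algebraMap F M V.a₄) < V' 8 * V' (algebraMap F M x) ^ 2 ∧
      V' (algebraMap F M V.a₆) < V' 8 * V' (algebraMap F M x) ^ 3 ∧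
      V' (3 * algebraMap F M c - 4 * algebraMap F M x) < V' 8 * V' (algebraMap F M x) ∧
      V' (algebraMap F M h) ^ 2 < V' 16 * V' (algebraMap F M x) ^ 3) :
    ∃ (H₃ H₄ H₆ : Subgroup Gal(M/K)),
      (∀ g, fixNum H₃ g + fixNum H₄ g = fixNum H₆ g + 1) ∧
      ∀ H, (H = H₃ ∨ H = H₄ ∨ H = H₆) →
        mwRank (V.baseChange K) + 1 ≤ mwRank ((V.baseChange K).baseChange (fixedField H)) ∧
        Module.finrank K (fixedField H) ∣ 12 ∧
        Nat.card ((ψ.map (algebraMap F K)).map (algebraMap K (fixedField H))).Gal =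
          Nat.card (ψ.map (algebraMap F K)).Gal := by
  set φ := algebraMap F K with hφ
  have hell : (V.baseChange K).IsElliptic := inferInstanceAs (V.map (algebraMap F K)).IsElliptic
  have hφM : ∀ a : F, algebraMap K M (φ a) = algebraMap F M a := fun a =>
    (IsScalarTower.algebraMap_apply F K M a).symm
  have e4 : (V.baseChange K).a₄ = φ V.a₄ := rfl
  have e6 : (V.baseChange K).a₆ = φ V.a₆ := rfl
  have hψ' : ψ.map φ ≠ 0 := (Polynomial.map_ne_zero_iff φ.injective).mpr hψ
  obtain ⟨f, hf⟩ := lr_embed g ψ hg hψ i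
  have hpull : ∀ (P : F[X]) (y : (ψ.map φ).SplittingField), aeval y (P.map φ) = 0 →
      aeval (f y) P = 0 := by
    intro P y hy
    have h5 : (f.comp (algebraMap K (ψ.map φ).SplittingField)).comp φ =
        algebraMap F (g * ψ).SplittingField := RingHom.ext fun a => hf a
    rw [aeval_def, ← h5, ← Polynomial.eval₂_map, ← Polynomial.hom_eval₂, ← aeval_def, hy, map_zero]
  refine lr_step_of_params (M := M) (V.baseChange K) ?_ ?_ ?_ (ψ.map φ) hψ' (φ x) (φ c) (φ h) (φ j)
    ?_ ?_ ?_ ?_ ?_ ?_ ?_ ?_ ?_ ?_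
  · change φ V.a₁ = 0
    rw [h1, map_zero]
  · change φ V.a₂ = 0
    rw [h2, map_zero]
  · change φ V.a₃ = 0
    rw [h3, map_zero]
  · rw [e4, e6, ← map_pow, ← map_mul, ← map_add, ← map_add, hE, map_add, map_pow, map_pow]
  · rw [e4, e6, ← map_tsa]
    exact (_root_.map_ne_zero φ).mpr ha
  · exact (_root_.map_ne_zero φ).mpr hc0
  · exact (_root_.map_ne_zero φ).mpr hh0
  · exact (_root_.map_ne_zero φ).mpr hj0
  · have e : φ (tsa V.a₄ V.a₆ x c + tsb V.a₄ V.a₆ x c + 2 * h ^ 2) =
        tsa (φ V.a₄) (φ V.a₆) (φ x) (φ c) + tsb (φ V.a₄) (φ V.a₆) (φ x) (φ c) + 2 * φ h ^ 2 := by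
      rw [map_add, map_add, map_mul, map_pow, map_tsa, map_tsb, map_ofNat φ 2]
    rw [e4, e6, ← e]
    exact (_root_.map_ne_zero φ).mpr hS
  · intro y hy
    rw [e4, e6, ← map_tsQuart] at hy
    exact hQ (f y) (hpull _ y hy)
  · intro z hz
    rw [e4, e6, ← map_tsResol] at hz
    exact hG (f z) (hpull _ z hz)
  · rw [e4, e6, ← map_tsQuart]
    exact hspl
  · rw [e4, e6]
    simp only [hφM]
    exact hV

theorem lr_step {F : Type u} [Field F] [NumberField F] (V : WeierstrassCurve F) [V.IsElliptic]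
    (h1 : V.a₁ = 0) (h2 : V.a₂ = 0) (h3 : V.a₃ = 0) (S : Finset (HeightOneSpectrum (𝓞 F)))
    (g ψ : F[X]) (hg : g ≠ 0) (hψ : ψ ≠ 0) :
    ∃ q : F[X], q ≠ 0 ∧ Group.IsSolvable q.Gal ∧
      (∀ v ∈ S, (q.map (algebraMap F (v.adicCompletion F))).Splits) ∧
      (∀ w : InfinitePlace F, (q.map (algebraMap F w.Completion)).Splits) ∧
      ∀ (K : Type u) [Field K] [NumberField K] [Algebra F K] (_ : K →ₐ[F] g.SplittingField),
        ∃ (M : Type u) (_ : Field M) (_ : NumberField M) (_ : Algebra K M) (_ : IsGalois K M)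
          (_ : Algebra F M) (_ : IsScalarTower F K M) (H₃ H₄ H₆ : Subgroup Gal(M/K)),
          IsSplittingField K M (q.map (algebraMap F K)) ∧
          (∀ g, fixNum H₃ g + fixNum H₄ g = fixNum H₆ g + 1) ∧
          ∀ H, (H = H₃ ∨ H = H₄ ∨ H = H₆) →
            mwRank (V.baseChange K) + 1 ≤ mwRank ((V.baseChange K).baseChange (fixedField H)) ∧
            Module.finrank K (fixedField H) ∣ 12 ∧
            Nat.card ((ψ.map (algebraMap F K)).map (algebraMap K (fixedField H))).Gal =
              Nat.card (ψ.map (algebraMap F K)).Gal := by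
  obtain ⟨x, c, h, j, hE, ha, hc0, hh0, hj0, hS, hQ, hG, hsf, hsi, hV⟩ :=
    ts_params V.a₄ V.a₆ S (g * ψ)
  refine ⟨tsQuart V.a₄ V.a₆ x c h j, (quart_monic _ _ _).1.ne_zero, ts_solvable _ _ _, hsf, hsi, ?_⟩
  intro K _ _ _ i
  let f := (tsQuart V.a₄ V.a₆ x c h j).map (algebraMap F K)
  let M := f.SplittingField
  have hcM : CharZero M := charZero_of_injective_algebraMap (algebraMap K M).injective
  have hnf : NumberField M := NumberField.of_module_finite K M
  have hnorm : Normal K M := Normal.of_isSplittingField f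
  have hgal : IsGalois K M := ⟨⟩
  let aFM : Algebra F M := ((algebraMap K M).comp (algebraMap F K)).toAlgebra
  have htower : @IsScalarTower F K M _ _ aFM.toSMul := IsScalarTower.of_algebraMap_eq' rfl
  obtain ⟨H₃, H₄, H₆, hrel, hH⟩ := @lr_step_over F K M _ _ _ _ _ _ _ _ aFM htower _ V _ h1 h2 h3
    g ψ hg hψ i x c h j hE ha hc0 hh0 hj0 hS hQ hG (SplittingField.splits f) (hV M)
  exact ⟨M, inferInstance, hnf, inferInstance, hgal, aFM, htower, H₃, H₄, H₆,
    IsSplittingField.splittingField f, hrel, hH⟩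

attribute [local instance] isElliptic_baseChange

/-- The conjecture modulo `m` over a field follows from the conjecture over extensions of bounded
degree and larger rank inside totally split solvable extensions which do not change the Galois group
of a given polynomial. -/
theorem split_card_mod {F : Type u} [Field F] [NumberField F] (W : WeierstrassCurve F) [W.IsElliptic]
    (S : Finset (HeightOneSpectrum (𝓞 F))) (ψ : F[X]) (hψ : ψ ≠ 0) (m R : ℕ) :
    ∀ (K : Type u) [Field K] [NumberField K] [Algebra F K], InSplitSolvable S K →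
    (∀ (L : Type u) [Field L] [NumberField L] [Algebra F L] [Algebra K L] [IsScalarTower F K L],
      Module.finrank K L ∣ 12 ^ R →
      InSplitSolvable S L → Nat.card (ψ.map (algebraMap F L)).Gal =
        Nat.card (ψ.map (algebraMap F K)).Gal →
      mwRank (W.baseChange K) + (R : Cardinal) ≤ mwRank (W.baseChange L) →
      RankMod m (W.baseChange L)) →
    RankMod m (W.baseChange K) := by
  induction R with
  | zero =>
    intro K _ _ _ hK h
    exact h K (by simp) hK rfl (by simp)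
  | succ R ih =>
    intro K _ _ _ hK h
    obtain ⟨g, hg, hsol, hgf, hgi, ⟨i⟩⟩ := hK
    obtain ⟨C, hC⟩ := exists_short W
    obtain ⟨q, hq, hqsol, hqf, hqi, hstep⟩ := lr_step (C • W)
      (by rw [hC]) (by rw [hC]) (by rw [hC]) S g ψ hg hψ
    obtain ⟨M, _, _, _, _, _, _, H₃, H₄, H₆, hM, hrel, hH⟩ := hstep K i
    obtain ⟨e⟩ := ts_embed g q hg hq (K := K) (M := M) i
    refine mod_of_three (M := M) m (W.baseChange K) H₃ H₄ H₆ hrel fun H hH' => ?_
    obtain ⟨r1, r2, r3⟩ := hH H hH'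
    let L := fixedField H
    let _ : Algebra F L := ((algebraMap K L).comp (algebraMap F K)).toAlgebra
    have htower : IsScalarTower F K L := IsScalarTower.of_algebraMap_eq' rfl
    have r1' : mwRank (W.baseChange K) + 1 ≤ mwRank (W.baseChange L) := by
      have h6 : mwRank (((C • W).baseChange K).baseChange L) = mwRank ((C • W).baseChange L) := rfl
      rw [h6, mwRank_baseChange_variableChange, mwRank_baseChange_variableChange] at r1
      exact r1
    have r3' : Nat.card (ψ.map (algebraMap F L)).Gal = Nat.card (ψ.map (algebraMap F K)).Gal := by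
      rw [← r3, Polynomial.map_map, ← IsScalarTower.algebraMap_eq F K L]
    have hL : InSplitSolvable S L := by
      refine ⟨g * q, mul_ne_zero hg hq, gal_mul_isSolvable hsol hqsol, ?_, ?_, ?_⟩
      · intro v hv
        rw [Polynomial.map_mul]
        exact (hgf v hv).mul (hqf v hv)
      · intro w
        rw [Polynomial.map_mul]
        exact (hgi w).mul (hqi w)
      · exact ⟨e.comp ((fixedField H).val.restrictScalars F)⟩
    have hres : RankMod m (W.baseChange L) := by
      refine ih L hL ?_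
      intro L' _ _ _ _ _ hd hS' hcard hr
      let _ : Algebra K L' := ((algebraMap L L').comp (algebraMap K L)).toAlgebra
      have ht1 : IsScalarTower K L L' := IsScalarTower.of_algebraMap_eq' rfl
      have ht2 : IsScalarTower F K L' := by
        refine IsScalarTower.of_algebraMap_eq' ?_
        rw [IsScalarTower.algebraMap_eq F L L', IsScalarTower.algebraMap_eq K L L',
          IsScalarTower.algebraMap_eq F K L, RingHom.comp_assoc]
      refine h L' ?_ hS' (hcard.trans r3') ?_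
      · rw [← Module.finrank_mul_finrank K L L', pow_succ, mul_comm]
        exact mul_dvd_mul hd r2
      · refine le_trans ?_ hr
        push_cast
        rw [add_comm (R : Cardinal) 1, ← add_assoc]
        gcongr
    exact hres

end Pool.Agent.Lib.MP_1a91b9_nt
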