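import Pool.Agent.Lib.MP_1a91b9_nt.VarChange
import Pool.Agent.Lib.MP_1a91b9_nt.GoodModel
import Pool.Agent.Lib.MP_1a91b9_nt.Residue
set_option autoImplicit false
namespace Pool.Agent.Lib.MP_1a91b9_nt
open IsDedekindDomain NumberField Polynomial IntermediateField

/-! ================= Job LOCDEP ================= -/

/-- An integral model of an elliptic curve over a number field. -/
theorem exists_integral_model {F : Type*} [Field F] [NumberField F] (W : WeierstrassCurve F)
    [W.IsElliptic] : ∃ (C : WeierstrassCurve.VariableChange F) (W₀ : WeierstrassCurve (𝓞 F)),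
      C • W = W₀.map (algebraMap (𝓞 F) F) ∧ W₀.Δ ≠ 0 := by
  obtain ⟨b, hb⟩ := IsLocalization.exist_integer_multiples (nonZeroDivisors (𝓞 F))
    (Finset.univ : Finset (Fin 5)) (![W.a₁, W.a₂, W.a₃, W.a₄, W.a₆])
  have hb0 : (b : 𝓞 F) ≠ 0 := nonZeroDivisors.ne_zero b.2
  have hd : algebraMap (𝓞 F) F b ≠ 0 := by simp
  have key : ∀ i : Fin 5, ∃ c : 𝓞 F, algebraMap (𝓞 F) F c =
      algebraMap (𝓞 F) F b * (![W.a₁, W.a₂, W.a₃, W.a₄, W.a₆]) i := by
    intro i
    obtain ⟨c, hc⟩ := hb i (Finset.mem_univ _)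
    exact ⟨c, by rw [hc, Algebra.smul_def]⟩
  choose c hc using key
  set d : F := algebraMap (𝓞 F) F b with hdef
  let C : WeierstrassCurve.VariableChange F := ⟨(Units.mk0 d hd)⁻¹, 0, 0, 0⟩
  let W₀ : WeierstrassCurve (𝓞 F) := ⟨c 0, b * c 1, b ^ 2 * c 2, b ^ 3 * c 3, b ^ 5 * c 4⟩
  have h0 := hc 0
  have h1 := hc 1
  have h2 := hc 2
  have h3 := hc 3
  have h4 := hc 4
  simp at h0 h1 h2 h3 h4
  have hCW : C • W = W₀.map (algebraMap (𝓞 F) F) := by
    rw [WeierstrassCurve.variableChange_def]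
    ext
    · simp [C, W₀, h0]
    · simp [C, W₀, h1]; ring
    · simp [C, W₀, h2]; ring
    · simp [C, W₀, h3]; ring
    · simp [C, W₀, h4]; ring
  refine ⟨C, W₀, hCW, ?_⟩
  intro h
  have h5 : (C • W).Δ = 0 := by rw [hCW, WeierstrassCurve.map_Δ, h, map_zero]
  rw [WeierstrassCurve.variableChange_Δ] at h5
  have h6 : W.Δ ≠ 0 := W.isUnit_Δ.ne_zero
  simp at h5
  exact h6 h5

section
variable {F : Type*} [Field F] [NumberField F] {K : Type*} [Field K] [NumberField K] [Algebra F K]

/-- The reduction map from the integers of `F` to the residue field of a place of `K`. -/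
noncomputable def redMap (F : Type*) [Field F] [NumberField F] {K : Type*} [Field K]
    [NumberField K] [Algebra F K] (w : HeightOneSpectrum (𝓞 K)) :
    𝓞 F →+* IsLocalRing.ResidueField (w.adicCompletionIntegers K) :=
  ((IsLocalRing.residue (w.adicCompletionIntegers K)).comp
    (algebraMap (𝓞 K) (w.adicCompletionIntegers K))).comp (algebraMap (𝓞 F) (𝓞 K))

theorem redMap_ker (w : HeightOneSpectrum (𝓞 K)) :
    RingHom.ker (redMap F w) = w.asIdeal.under (𝓞 F) := by
  unfold redMap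
  rw [← RingHom.comap_ker, residue_ker]

theorem locPoly_of_model (W : WeierstrassCurve F) (C : WeierstrassCurve.VariableChange F)
    (W₀ : WeierstrassCurve (𝓞 F)) (hC : C • W = W₀.map (algebraMap (𝓞 F) F))
    (w : HeightOneSpectrum (𝓞 K)) (hw : W₀.Δ ∉ w.asIdeal.under (𝓞 F)) :
    locPoly (W.baseChange K) w = 1 - Polynomial.C ((nrm w : ℤ) + 1
      - Nat.card (W₀.map (redMap F w)).toAffine.Point) * X
      + Polynomial.C (nrm w : ℤ) * X ^ 2 := by
  let φ : 𝓞 F →+* w.adicCompletionIntegers K :=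
    (algebraMap (𝓞 K) (w.adicCompletionIntegers K)).comp (algebraMap (𝓞 F) (𝓞 K))
  have h := localPolynomial_of_model (w.adicCompletionIntegers K)
    ((W.baseChange K).baseChange (w.adicCompletion K))
    (C.map ((algebraMap K (w.adicCompletion K)).comp (algebraMap F K))) (W₀.map φ) ?_ ?_
  · unfold locPoly
    rw [h]
    rfl
  · change _ • (W.map _).map _ = _
    rw [WeierstrassCurve.map_map, WeierstrassCurve.map_variableChange, hC,
      WeierstrassCurve.map_map, WeierstrassCurve.map_map]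
    congr 1
  · rw [WeierstrassCurve.map_Δ, ← IsLocalRing.residue_ne_zero_iff_isUnit]
    intro h0
    apply hw
    rw [← redMap_ker, RingHom.mem_ker]
    exact h0

theorem exists_residue_iso {K' : Type*} [Field K'] [NumberField K'] [Algebra F K']
    (w : HeightOneSpectrum (𝓞 K)) (w' : HeightOneSpectrum (𝓞 K'))
    (h : w.asIdeal.under (𝓞 F) = w'.asIdeal.under (𝓞 F)) (hn : nrm w = nrm w') :
    ∃ e : IsLocalRing.ResidueField (w.adicCompletionIntegers K) ≃+*
      IsLocalRing.ResidueField (w'.adicCompletionIntegers K'),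
      (e.toRingHom).comp (redMap F w) = redMap F w' := by
  have hmax : (w.asIdeal.under (𝓞 F)).IsMaximal := by
    have := w.isMaximal
    infer_instance
  let _ : Field (𝓞 F ⧸ w.asIdeal.under (𝓞 F)) := Ideal.Quotient.field _
  let _ : Algebra (𝓞 F ⧸ w.asIdeal.under (𝓞 F))
      (IsLocalRing.ResidueField (w.adicCompletionIntegers K)) :=
    (Ideal.Quotient.lift _ (redMap F w) (fun a ha => by
      rw [← RingHom.mem_ker, redMap_ker]; exact ha)).toAlgebra
  let _ : Algebra (𝓞 F ⧸ w.asIdeal.under (𝓞 F))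
      (IsLocalRing.ResidueField (w'.adicCompletionIntegers K')) :=
    (Ideal.Quotient.lift _ (redMap F w') (fun a ha => by
      rw [← RingHom.mem_ker, redMap_ker, ← h]; exact ha)).toAlgebra
  have := finite_residue w
  have := finite_residue w'
  let _ := Fintype.ofFinite (IsLocalRing.ResidueField (w.adicCompletionIntegers K))
  let _ := Fintype.ofFinite (IsLocalRing.ResidueField (w'.adicCompletionIntegers K'))
  have i1 := FiniteField.isSplittingField_sub
    (IsLocalRing.ResidueField (w.adicCompletionIntegers K)) (𝓞 F ⧸ w.asIdeal.under (𝓞 F))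
  have i2 := FiniteField.isSplittingField_sub
    (IsLocalRing.ResidueField (w'.adicCompletionIntegers K')) (𝓞 F ⧸ w.asIdeal.under (𝓞 F))
  have hc : Fintype.card (IsLocalRing.ResidueField (w.adicCompletionIntegers K)) =
      Fintype.card (IsLocalRing.ResidueField (w'.adicCompletionIntegers K')) := by
    rw [← Nat.card_eq_fintype_card, ← Nat.card_eq_fintype_card]
    exact hn
  rw [← hc] at i2
  let e := (IsSplittingField.algEquiv (IsLocalRing.ResidueField (w.adicCompletionIntegers K))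
    (X ^ Fintype.card (IsLocalRing.ResidueField (w.adicCompletionIntegers K)) - X :
      (𝓞 F ⧸ w.asIdeal.under (𝓞 F))[X])).trans (IsSplittingField.algEquiv
    (IsLocalRing.ResidueField (w'.adicCompletionIntegers K'))
    (X ^ Fintype.card (IsLocalRing.ResidueField (w.adicCompletionIntegers K)) - X :
      (𝓞 F ⧸ w.asIdeal.under (𝓞 F))[X])).symm
  refine ⟨e.toRingEquiv, ?_⟩
  ext x
  exact e.commutes (Ideal.Quotient.mk _ x)

end

theorem locPoly_dep {F : Type*} [Field F] [NumberField F] (W : WeierstrassCurve F)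
    [W.IsElliptic] : ∃ S : Set (HeightOneSpectrum (𝓞 F)), S.Finite ∧ ∀ v ∉ S,
    ∀ (K₁ K₂ : Type*) [Field K₁] [NumberField K₁] [Algebra F K₁] [Field K₂] [NumberField K₂]
      [Algebra F K₂] (w₁ : HeightOneSpectrum (𝓞 K₁)) (w₂ : HeightOneSpectrum (𝓞 K₂)),
      w₁.asIdeal.under (𝓞 F) = v.asIdeal → w₂.asIdeal.under (𝓞 F) = v.asIdeal →
      w₁.asIdeal.inertiaDeg (𝓞 F) = w₂.asIdeal.inertiaDeg (𝓞 F) →
      nrm w₁ = nrm w₂ ∧ locPoly (W.baseChange K₁) w₁ = locPoly (W.baseChange K₂) w₂ := by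
  obtain ⟨C, W₀, hC, hΔ⟩ := exists_integral_model W
  refine ⟨{v | W₀.Δ ∈ v.asIdeal}, ?_, ?_⟩
  · have := Ideal.finite_factors (I := Ideal.span {W₀.Δ}) (by simpa using hΔ)
    refine this.subset fun v hv => ?_
    simpa [Ideal.dvd_span_singleton] using hv
  intro v hv K₁ K₂ _ _ _ _ _ _ w₁ w₂ h1 h2 h3
  have hn : nrm w₁ = nrm w₂ := by
    have : w₁.asIdeal.LiesOver v.asIdeal := ⟨h1.symm⟩
    have : w₂.asIdeal.LiesOver v.asIdeal := ⟨h2.symm⟩
    rw [nrm_eq, nrm_eq, ← Ideal.absNorm_pow_inertiaDeg v.asIdeal w₁.asIdeal,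
      ← Ideal.absNorm_pow_inertiaDeg v.asIdeal w₂.asIdeal, h3]
  refine ⟨hn, ?_⟩
  obtain ⟨e, he⟩ := exists_residue_iso w₁ w₂ (h1.trans h2.symm) hn
  rw [locPoly_of_model W C W₀ hC w₁ (by rw [h1]; exact hv),
    locPoly_of_model W C W₀ hC w₂ (by rw [h2]; exact hv), hn, ← he,
    ← WeierstrassCurve.map_map, card_point_map_equiv]

end Pool.Agent.Lib.MP_1a91b9_nt
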