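import Pool.Agent.Lib.MP_1a91b9_nt.VarChange

/-!
# The number of points of an elliptic curve over a quadratic extension of a finite field
-/

set_option autoImplicit false

namespace Pool.Agent.Lib.MP_1a91b9_nt

open WeierstrassCurve

section Frob

variable {k k' : Type*} [Field k] [Field k'] [Finite k] [Finite k'] [Algebra k k']

omit [Finite k] in
lemma qc_card_eq (h : Module.finrank k k' = 2) : Nat.card k' = Nat.card k ^ 2 := by
  have : Module.Finite k k' := Module.finite_of_finrank_pos (by omega)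
  rw [← h]
  exact Module.natCard_eq_pow_finrank

lemma qc_exists_conj (h : Module.finrank k k' = 2) :
    ∃ σ : k' →ₐ[k] k', (∀ x, σ (σ x) = x) ∧ ∀ x, σ x = x → ∃ a : k, algebraMap k k' a = x := by
  have := Fintype.ofFinite k
  have := Fintype.ofFinite k'
  have hcard := qc_card_eq h
  refine ⟨FiniteField.frobeniusAlgHom k k', fun x => ?_, fun x hx => ?_⟩
  · simp only [FiniteField.coe_frobeniusAlgHom]
    rw [← pow_mul, ← sq]
    rw [Nat.card_eq_fintype_card, Nat.card_eq_fintype_card] at hcard
    rw [← hcard]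
    exact FiniteField.pow_card x
  · simp only [FiniteField.coe_frobeniusAlgHom] at hx
    have h1 : 1 < Fintype.card k := Fintype.one_lt_card
    set P : Polynomial k' := Polynomial.X ^ Fintype.card k - Polynomial.X with hP
    have hP0 : P ≠ 0 := FiniteField.X_pow_card_sub_X_ne_zero k' h1
    have hdeg : P.natDegree = Fintype.card k := FiniteField.X_pow_card_sub_X_natDegree_eq k' h1
    classical
    have hsub : Finset.univ.image (algebraMap k k') ⊆ P.roots.toFinset := by
      intro y hy
      rw [Finset.mem_image] at hy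
      obtain ⟨a, _, rfl⟩ := hy
      rw [Multiset.mem_toFinset, Polynomial.mem_roots hP0, Polynomial.IsRoot.def, hP]
      simp only [Polynomial.eval_sub, Polynomial.eval_pow, Polynomial.eval_X]
      rw [← map_pow, FiniteField.pow_card, sub_self]
    have hc : (Finset.univ.image (algebraMap k k')).card = Fintype.card k := by
      rw [Finset.card_image_of_injective _ (algebraMap k k').injective, Finset.card_univ]
    have heq : Finset.univ.image (algebraMap k k') = P.roots.toFinset := by
      refine Finset.eq_of_subset_of_card_le hsub ?_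
      rw [hc, ← hdeg]
      exact (Multiset.toFinset_card_le _).trans (Polynomial.card_roots' P)
    have hx' : x ∈ P.roots.toFinset := by
      rw [Multiset.mem_toFinset, Polynomial.mem_roots hP0, Polynomial.IsRoot.def, hP]
      simp only [Polynomial.eval_sub, Polynomial.eval_pow, Polynomial.eval_X]
      rw [hx, sub_self]
    rw [← heq, Finset.mem_image] at hx'
    obtain ⟨a, _, ha⟩ := hx'
    exact ⟨a, ha⟩

lemma qc_isSquare (h : Module.finrank k k' = 2) (h2 : (2 : k) ≠ 0) (a : k) :
    ∃ z : k', z ^ 2 = algebraMap k k' a := by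
  have := Fintype.ofFinite k
  have := Fintype.ofFinite k'
  by_cases ha : a = 0
  · exact ⟨0, by rw [ha, map_zero]; ring⟩
  have hcard := qc_card_eq h
  rw [Nat.card_eq_fintype_card, Nat.card_eq_fintype_card] at hcard
  have hr : ringChar k ≠ 2 := by
    intro hr
    apply h2
    have := ringChar.Nat.cast_ringChar (R := k)
    rw [hr] at this
    exact_mod_cast this
  have hr' : ringChar k' ≠ 2 := by
    intro hr'
    apply h2
    have := ringChar.Nat.cast_ringChar (R := k')
    rw [hr'] at this
    apply (algebraMap k k').injective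
    rw [map_zero, map_ofNat]
    exact_mod_cast this
  have hodd : Fintype.card k % 2 = 1 := FiniteField.odd_card_of_char_ne_two hr
  have ha' : algebraMap k k' a ≠ 0 := by
    rwa [Ne, map_eq_zero]
  have := (FiniteField.isSquare_iff hr' ha').mpr ?_
  · obtain ⟨z, hz⟩ := this
    exact ⟨z, by rw [hz, sq]⟩
  · rw [← map_pow]
    have h1 : Fintype.card k' / 2 = (Fintype.card k - 1) * ((Fintype.card k + 1) / 2) := by
      rw [hcard]
      obtain ⟨n, hn⟩ : ∃ n, Fintype.card k = 2 * n + 1 := ⟨Fintype.card k / 2, by omega⟩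
      rw [hn]
      have e1 : (2 * n + 1) ^ 2 = 2 * (2 * n * (n + 1)) + 1 := by ring
      have e2 : (2 * n + 1 - 1) * ((2 * n + 1 + 1) / 2) = 2 * n * (n + 1) := by
        have : (2 * n + 1 + 1) / 2 = n + 1 := by omega
        rw [this]; simp
      rw [e1, e2]; omega
    rw [h1, pow_mul, FiniteField.pow_card_sub_one_eq_one a ha, one_pow, map_one]

end Frob


section Main

variable {k k' : Type*} [Field k] [Field k'] [Algebra k k']

/-- The curve equation when `a₁ = a₃ = 0`. -/
lemma qc_eq_iff (W : WeierstrassCurve k) (h1 : W.a₁ = 0) (h3 : W.a₃ = 0) (x y : k') :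
    (W.map (algebraMap k k')).toAffine.Equation x y ↔
      y ^ 2 = x ^ 3 + algebraMap k k' W.a₂ * x ^ 2 + algebraMap k k' W.a₄ * x
        + algebraMap k k' W.a₆ := by
  rw [Affine.equation_iff]
  simp [h1, h3]

lemma qc_negY (W : WeierstrassCurve k) (h1 : W.a₁ = 0) (h3 : W.a₃ = 0) (x y : k') :
    (W.map (algebraMap k k')).toAffine.negY x y = -y := by
  simp [Affine.negY, h1, h3]

/-- Two points on the line of slope `m` through `-R` add up to `R`. -/
lemma qc_add_eq [DecidableEq k'] (W : WeierstrassCurve k) (h1 : W.a₁ = 0) (h3 : W.a₃ = 0)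
    (h2 : (2 : k') ≠ 0)
    {x₀ y₀ m x₁ x₂ y₁ y₂ : k'} (hR : (W.map (algebraMap k k')).toAffine.Nonsingular x₀ y₀)
    (hsum : x₁ + x₂ = m ^ 2 - x₀ - algebraMap k k' W.a₂)
    (hprod : x₁ * x₂ = x₀ ^ 2 + algebraMap k k' W.a₂ * x₀ + algebraMap k k' W.a₄ + m ^ 2 * x₀
      + 2 * m * y₀) (hy₁ : y₁ = m * (x₁ - x₀) - y₀) (hy₂ : y₂ = m * (x₂ - x₀) - y₀)
    (hP₁ : (W.map (algebraMap k k')).toAffine.Nonsingular x₁ y₁)
    (hP₂ : (W.map (algebraMap k k')).toAffine.Nonsingular x₂ y₂) :
    (Affine.Point.some _ _ hP₁ : (W.map (algebraMap k k')).toAffine.Point)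
      + Affine.Point.some _ _ hP₂ = Affine.Point.some _ _ hR := by
  by_cases hx : x₁ = x₂
  · subst hx
    obtain rfl : y₁ = y₂ := by rw [hy₁, hy₂]
    have hfy : 3 * x₁ ^ 2 + 2 * algebraMap k k' W.a₂ * x₁ + algebraMap k k' W.a₄
        = 2 * m * y₁ := by
      linear_combination (-2 * m) * hy₁ + (2 * x₁ - x₀) * hsum - hprod
    have hy : y₁ ≠ 0 := by
      intro hy
      have hns := (Affine.nonsingular_iff' _ _).mp hP₁
      rcases hns.2 with hns | hns
      · apply hns
        simp only [map_a₁, h1, map_zero, zero_mul, map_a₂, map_a₄, zero_sub, neg_eq_zero]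
        rw [hfy, hy, mul_zero]
      · apply hns
        simp only [map_a₁, h1, map_zero, zero_mul, map_a₃, h3, add_zero]
        rw [hy, mul_zero]
    have hyn : y₁ ≠ (W.map (algebraMap k k')).toAffine.negY x₁ y₁ := by
      rw [qc_negY W h1 h3]
      intro hc
      have : 2 * y₁ = 0 := by linear_combination hc
      rcases mul_eq_zero.mp this with h | h
      · exact h2 h
      · exact hy h
    have hsl : (W.map (algebraMap k k')).toAffine.slope x₁ x₁ y₁ y₁ = m := by
      rw [Affine.slope_of_Y_ne rfl hyn, qc_negY W h1 h3]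
      simp only [map_a₁, h1, map_zero, zero_mul, map_a₂, map_a₄, sub_zero]
      rw [hfy]
      have : y₁ - -y₁ = 2 * y₁ := by ring
      rw [this]
      field_simp
    rw [Affine.Point.add_self_of_Y_ne hyn]
    rw [Affine.Point.some.injEq, hsl]
    have hX : (W.map (algebraMap k k')).toAffine.addX x₁ x₁ m = x₀ := by
      simp only [Affine.addX, map_a₁, h1, map_zero, zero_mul, map_a₂]
      linear_combination -hsum
    refine ⟨hX, ?_⟩
    rw [Affine.addY, qc_negY W h1 h3, Affine.negAddY, hX, hy₁]
    ring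
  · have hsl : (W.map (algebraMap k k')).toAffine.slope x₁ x₂ y₁ y₂ = m := by
      rw [Affine.slope_of_X_ne hx]
      have : x₁ - x₂ ≠ 0 := sub_ne_zero.mpr hx
      rw [div_eq_iff this, hy₁, hy₂]
      ring
    rw [Affine.Point.add_of_X_ne hx]
    rw [Affine.Point.some.injEq, hsl]
    have hX : (W.map (algebraMap k k')).toAffine.addX x₁ x₂ m = x₀ := by
      simp only [Affine.addX, map_a₁, h1, map_zero, zero_mul, map_a₂]
      linear_combination -hsum
    refine ⟨hX, ?_⟩
    rw [Affine.addY, qc_negY W h1 h3, Affine.negAddY, hX, hy₁]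
    ring

/-- A root of `g_m` gives a point on the curve. -/
lemma qc_line_mem (W : WeierstrassCurve k) (h1 : W.a₁ = 0) (h3 : W.a₃ = 0)
    {x₀ y₀ m x y : k'} (hR : (W.map (algebraMap k k')).toAffine.Equation x₀ y₀)
    (hg : x ^ 2 + (x₀ + algebraMap k k' W.a₂ - m ^ 2) * x + (x₀ ^ 2 + algebraMap k k' W.a₂ * x₀
      + algebraMap k k' W.a₄ + m ^ 2 * x₀ + 2 * m * y₀) = 0) (hy : y = m * (x - x₀) - y₀) :
    (W.map (algebraMap k k')).toAffine.Equation x y := by
  have hRe := (qc_eq_iff W h1 h3 x₀ y₀).mp hR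
  rw [qc_eq_iff W h1 h3, hy]
  linear_combination hRe - (x - x₀) * hg

/-- The quadratic `g_m` has its roots in `k'`. -/
lemma qc_roots (h2 : (2 : k') ≠ 0) (hsq : ∀ a : k, ∃ z : k', z ^ 2 = algebraMap k k' a)
    (b c : k) : ∃ x₁ x₂ : k', x₁ + x₂ = algebraMap k k' b ∧ x₁ * x₂ = algebraMap k k' c := by
  obtain ⟨z, hz⟩ := hsq (b ^ 2 - 4 * c)
  refine ⟨(algebraMap k k' b + z) / 2, (algebraMap k k' b - z) / 2, ?_, ?_⟩
  · field_simp
    ring
  · field_simp
    simp only [map_sub, map_mul, map_pow, map_ofNat] at hz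
    linear_combination -hz

end Main

section Count

variable {k k' : Type*} [Field k] [Field k'] [Algebra k k']

/-- The points of `E(k)` inside `E(k')`. -/
noncomputable def qcIncl (W : WeierstrassCurve k) :
    W.toAffine.Point → (W.map (algebraMap k k')).toAffine.Point
  | .zero => .zero
  | .some x y h => .some (algebraMap k k' x) (algebraMap k k' y)
      ((Affine.map_nonsingular (W := W.toAffine) (f := algebraMap k k')
        (algebraMap k k').injective x y).mpr h)

lemma qcIncl_injective (W : WeierstrassCurve k) :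
    Function.Injective (qcIncl (k' := k') W) := by
  rintro (_ | ⟨x, y, h⟩) (_ | ⟨x', y', h'⟩) he
  · rfl
  · exact absurd he (by rintro (_ | _))
  · exact absurd he (by rintro (_ | _))
  · simp only [qcIncl, Affine.Point.some.injEq] at he
    obtain ⟨hx, hy⟩ := he
    have hx' := (algebraMap k k').injective hx
    have hy' := (algebraMap k k').injective hy
    subst hx' hy'
    rfl

/-- The conjugation map on points. -/
noncomputable def qcConj [DecidableEq k'] (W : WeierstrassCurve k) (σ : k' →ₐ[k] k') :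
    (W.map (algebraMap k k')).toAffine.Point →+ (W.map (algebraMap k k')).toAffine.Point :=
  Affine.Point.map (W' := W.toAffine) (F := k') (K := k') σ

lemma qcConj_zero [DecidableEq k'] (W : WeierstrassCurve k) (σ : k' →ₐ[k] k') :
    qcConj W σ .zero = .zero := rfl

lemma qcConj_some [DecidableEq k'] (W : WeierstrassCurve k) (σ : k' →ₐ[k] k') (x y : k')
    (h : (W.map (algebraMap k k')).toAffine.Nonsingular x y) :
    ∃ h' : (W.map (algebraMap k k')).toAffine.Nonsingular (σ x) (σ y),
      qcConj W σ (.some x y h) = .some (σ x) (σ y) h' :=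
  ⟨_, rfl⟩

lemma qcConj_eq_self_iff [DecidableEq k'] (W : WeierstrassCurve k) (σ : k' →ₐ[k] k') (x y : k')
    (h : (W.map (algebraMap k k')).toAffine.Nonsingular x y) :
    qcConj W σ (.some x y h) = .some x y h ↔ σ x = x ∧ σ y = y := by
  obtain ⟨h', he⟩ := qcConj_some W σ x y h
  rw [he, Affine.Point.some.injEq]

lemma qcConj_conj [DecidableEq k'] (W : WeierstrassCurve k) (σ : k' →ₐ[k] k')
    (hσ : ∀ x, σ (σ x) = x) (P : (W.map (algebraMap k k')).toAffine.Point) :
    qcConj W σ (qcConj W σ P) = P := by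
  cases P with
  | zero => rfl
  | some x y h =>
    obtain ⟨h', he⟩ := qcConj_some W σ x y h
    obtain ⟨h'', he'⟩ := qcConj_some W σ _ _ h'
    rw [he, he', Affine.Point.some.injEq]
    exact ⟨hσ x, hσ y⟩

lemma qc_range_incl [DecidableEq k'] (W : WeierstrassCurve k) (σ : k' →ₐ[k] k')
    (hfix : ∀ x, σ x = x → ∃ a : k, algebraMap k k' a = x) :
    Set.range (qcIncl (k' := k') W) = {P | qcConj W σ P = P} := by
  ext P
  constructor
  · rintro ⟨Q, rfl⟩
    cases Q with
    | zero => rfl
    | some x y h =>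
      rw [Set.mem_ofPred_eq]
      exact (qcConj_eq_self_iff W σ _ _ _).mpr ⟨σ.commutes x, σ.commutes y⟩
  · intro hP
    rw [Set.mem_ofPred_eq] at hP
    cases P with
    | zero => exact ⟨.zero, rfl⟩
    | some x y h =>
      obtain ⟨hx, hy⟩ := (qcConj_eq_self_iff W σ _ _ _).mp hP
      obtain ⟨a, rfl⟩ := hfix x hx
      obtain ⟨b, rfl⟩ := hfix y hy
      exact ⟨.some a b ((Affine.map_nonsingular (W := W.toAffine) (f := algebraMap k k')
        (algebraMap k k').injective a b).mp h), rfl⟩

/-- (A) the number of fixed points. -/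
lemma qc_card_fix [DecidableEq k'] (W : WeierstrassCurve k) (σ : k' →ₐ[k] k')
    (hfix : ∀ x, σ x = x → ∃ a : k, algebraMap k k' a = x) :
    Nat.card {P : (W.map (algebraMap k k')).toAffine.Point // qcConj W σ P = P}
      = Nat.card W.toAffine.Point := by
  have h := Nat.card_range_of_injective (qcIncl_injective (k' := k') W)
  rw [qc_range_incl W σ hfix] at h
  exact h

/-- (B), the points with a given `x`-coordinate. -/
lemma qc_pair_count (σ : k' →ₐ[k] k') (h2 : (2 : k') ≠ 0)
    (hsq : ∀ a : k, ∃ z : k', z ^ 2 = algebraMap k k' a) (c : k) :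
    Nat.card {y : k' // y ^ 2 = algebraMap k k' c ∧ σ y = y}
      + Nat.card {y : k' // y ^ 2 = algebraMap k k' c ∧ σ y = -y} = 2 := by
  obtain ⟨z, hz⟩ := hsq c
  have hsol : ∀ y : k', y ^ 2 = algebraMap k k' c → y = z ∨ y = -z := by
    intro y hy
    rw [← hz] at hy
    exact sq_eq_sq_iff_eq_or_eq_neg.mp hy
  have hσz : σ z = z ∨ σ z = -z := by
    apply hsol
    rw [← map_pow, hz]
    exact σ.commutes c
  by_cases hz0 : z = 0
  · subst hz0
    have e1 : Nat.card {y : k' // y ^ 2 = algebraMap k k' c ∧ σ y = y} = 1 := by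
      rw [Nat.card_eq_one_iff_exists]
      refine ⟨⟨0, hz, map_zero σ⟩, ?_⟩
      rintro ⟨y, hy, -⟩
      rcases hsol y hy with h | h
      · exact Subtype.ext h
      · exact Subtype.ext (h.trans neg_zero)
    have e2 : Nat.card {y : k' // y ^ 2 = algebraMap k k' c ∧ σ y = -y} = 1 := by
      rw [Nat.card_eq_one_iff_exists]
      refine ⟨⟨0, hz, by rw [map_zero, neg_zero]⟩, ?_⟩
      rintro ⟨y, hy, -⟩
      rcases hsol y hy with h | h
      · exact Subtype.ext h
      · exact Subtype.ext (h.trans neg_zero)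
    rw [e1, e2]
  · have hzn : z ≠ -z := by
      intro hc
      have : 2 * z = 0 := by linear_combination hc
      rcases mul_eq_zero.mp this with h | h
      · exact h2 h
      · exact hz0 h
    have two : ∀ p : k' → Prop, p z → p (-z) →
        Nat.card {y : k' // y ^ 2 = algebraMap k k' c ∧ p y} = 2 := by
      intro p hp hp'
      have hset : {y : k' | y ^ 2 = algebraMap k k' c ∧ p y} = {z, -z} := by
        ext y
        simp only [Set.mem_ofPred_eq, Set.mem_insert_iff, Set.mem_singleton_iff]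
        constructor
        · rintro ⟨hy, -⟩
          exact hsol y hy
        · rintro (rfl | rfl)
          · exact ⟨hz, hp⟩
          · exact ⟨by rw [neg_sq]; exact hz, hp'⟩
      have := Set.ncard_pair hzn
      rw [← hset] at this
      exact this
    have none : ∀ p : k' → Prop, ¬ p z → ¬ p (-z) →
        Nat.card {y : k' // y ^ 2 = algebraMap k k' c ∧ p y} = 0 := by
      intro p hp hp'
      have : IsEmpty {y : k' // y ^ 2 = algebraMap k k' c ∧ p y} := by
        constructor
        rintro ⟨y, hy, hpy⟩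
        rcases hsol y hy with h | h
        · exact hp (h ▸ hpy)
        · exact hp' (h ▸ hpy)
      exact Nat.card_of_isEmpty
    rcases hσz with h | h
    · rw [two (fun y => σ y = y) h (by simp only [map_neg, h]),
        none (fun y => σ y = -y) (by rw [h]; exact hzn) (by
          simp only [map_neg, h, neg_neg]
          exact fun h' => hzn h'.symm)]
    · rw [none (fun y => σ y = y) (by rw [h]; exact fun h' => hzn h'.symm) (by
          simp only [map_neg, h, neg_neg]
          exact hzn), two (fun y => σ y = -y) h (by simp only [map_neg, h])]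


/-- A set of points cut out by `σ x = x` and a condition on `y`. -/
lemma qc_card_set [Finite k] [Finite k'] (W : WeierstrassCurve k) [W.IsElliptic]
    (h1 : W.a₁ = 0) (h3 : W.a₃ = 0) (σ : k' →ₐ[k] k')
    (hfix : ∀ x, σ x = x → ∃ a : k, algebraMap k k' a = x) (p : k' → Prop)
    (S : Set (W.map (algebraMap k k')).toAffine.Point) (hS0 : Affine.Point.zero ∈ S)
    (hS : ∀ x y h, Affine.Point.some x y h ∈ S ↔ σ x = x ∧ p y) :
    Nat.card S = (∑ᶠ c : k, Nat.card {y : k' // y ^ 2 = algebraMap k k'
      (c ^ 3 + W.a₂ * c ^ 2 + W.a₄ * c + W.a₆) ∧ p y}) + 1 := by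
  have := Fintype.ofFinite k
  rw [finsum_eq_sum_of_fintype, ← Nat.card_sigma, ← Finite.card_option]
  symm
  have hmem : ∀ (c : k) (y : k'), y ^ 2 = algebraMap k k'
      (c ^ 3 + W.a₂ * c ^ 2 + W.a₄ * c + W.a₆) →
        (W.map (algebraMap k k')).toAffine.Nonsingular (algebraMap k k' c) y := by
    intro c y hy
    rw [← Affine.equation_iff_nonsingular, qc_eq_iff W h1 h3, hy]
    simp
  refine Nat.card_congr (Equiv.ofBijective (fun o : Option (Σ c : k, {y : k' // y ^ 2 =
      algebraMap k k' (c ^ 3 + W.a₂ * c ^ 2 + W.a₄ * c + W.a₆) ∧ p y}) => (match o with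
      | none => ⟨.zero, hS0⟩
      | some q => ⟨.some (algebraMap k k' q.1) q.2.1 (hmem q.1 q.2.1 q.2.2.1),
        (hS _ _ _).mpr ⟨σ.commutes _, q.2.2.2⟩⟩ : S)) ⟨?_, ?_⟩)
  · rintro (_ | ⟨c, y, hy⟩) (_ | ⟨c', y', hy'⟩) he
    · rfl
    · exact absurd (congrArg Subtype.val he) (by rintro (_ | _))
    · exact absurd (congrArg Subtype.val he) (by rintro (_ | _))
    · have he' := congrArg Subtype.val he
      simp only [Affine.Point.some.injEq] at he'
      obtain ⟨hc, hy⟩ := he'
      have := (algebraMap k k').injective hc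
      subst this hy
      rfl
  · rintro ⟨P, hP⟩
    cases P with
    | zero => exact ⟨none, rfl⟩
    | some x y h =>
      obtain ⟨hx, hy⟩ := (hS x y h).mp hP
      obtain ⟨c, rfl⟩ := hfix x hx
      refine ⟨some ⟨c, y, ?_, hy⟩, rfl⟩
      have := (qc_eq_iff W h1 h3 _ _).mp h.1
      rw [this]
      simp

/-- (B) the fixed points and the antifixed points together are `2q + 2`. -/
lemma qc_card_add [DecidableEq k'] [Finite k] [Finite k'] (W : WeierstrassCurve k) [W.IsElliptic]
    (h1 : W.a₁ = 0) (h3 : W.a₃ = 0) (σ : k' →ₐ[k] k') (h2 : (2 : k') ≠ 0)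
    (hsq : ∀ a : k, ∃ z : k', z ^ 2 = algebraMap k k' a)
    (hfix : ∀ x, σ x = x → ∃ a : k, algebraMap k k' a = x) :
    Nat.card {P : (W.map (algebraMap k k')).toAffine.Point // qcConj W σ P = P}
      + Nat.card {P : (W.map (algebraMap k k')).toAffine.Point // P + qcConj W σ P = 0}
      = 2 * Nat.card k + 2 := by
  have := Fintype.ofFinite k
  have e1 := qc_card_set W h1 h3 σ hfix (fun y => σ y = y) {P | qcConj W σ P = P} rfl
    (fun x y h => qcConj_eq_self_iff W σ x y h)
  have e2 := qc_card_set W h1 h3 σ hfix (fun y => σ y = -y) {P | P + qcConj W σ P = 0}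
    (by
      rw [Set.mem_ofPred_eq, qcConj_zero]
      exact add_zero (0 : (W.map (algebraMap k k')).toAffine.Point))
    (fun x y h => by
      rw [Set.mem_ofPred_eq, add_comm, add_eq_zero_iff_eq_neg, Affine.Point.neg_some]
      obtain ⟨h', he⟩ := qcConj_some W σ x y h
      rw [he, Affine.Point.some.injEq, qc_negY W h1 h3])
  have e1' : Nat.card {P : (W.map (algebraMap k k')).toAffine.Point // qcConj W σ P = P} = _ := e1
  have e2' : Nat.card {P : (W.map (algebraMap k k')).toAffine.Point // P + qcConj W σ P = 0}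
    = _ := e2
  rw [e1', e2', finsum_eq_sum_of_fintype, finsum_eq_sum_of_fintype]
  have : ∀ c : k, Nat.card {y : k' // y ^ 2 = algebraMap k k'
      (c ^ 3 + W.a₂ * c ^ 2 + W.a₄ * c + W.a₆) ∧ σ y = y}
    + Nat.card {y : k' // y ^ 2 = algebraMap k k'
      (c ^ 3 + W.a₂ * c ^ 2 + W.a₄ * c + W.a₆) ∧ σ y = -y} = 2 := fun c =>
    qc_pair_count σ h2 hsq _
  have hs := Finset.sum_congr rfl (fun (c : k) (_ : c ∈ Finset.univ) => this c)
  rw [Finset.sum_add_distrib, Finset.sum_const, Finset.card_univ, smul_eq_mul,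
    ← Nat.card_eq_fintype_card] at hs
  linarith

end Count

section Surj

variable {k k' : Type*} [Field k] [Field k'] [Algebra k k']

/-- (C) every fixed point is of the form `P + φ P`. -/
lemma qc_surj [DecidableEq k'] [Finite k] [Finite k'] (W : WeierstrassCurve k) [W.IsElliptic]
    (h1 : W.a₁ = 0) (h3 : W.a₃ = 0) (σ : k' →ₐ[k] k') (h2 : (2 : k') ≠ 0)
    (hsq : ∀ a : k, ∃ z : k', z ^ 2 = algebraMap k k' a)
    (hfix : ∀ x, σ x = x → ∃ a : k, algebraMap k k' a = x)
    (R : (W.map (algebraMap k k')).toAffine.Point) (hR : qcConj W σ R = R) :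
    ∃ P, P + qcConj W σ P = R := by
  classical
  cases R with
  | zero => exact ⟨0, by rw [map_zero, add_zero]; rfl⟩
  | some x₀ y₀ hR₀ =>
  by_contra hcon
  push Not at hcon
  obtain ⟨hx₀, hy₀⟩ := (qcConj_eq_self_iff W σ _ _ _).mp hR
  obtain ⟨a₀, rfl⟩ := hfix x₀ hx₀
  obtain ⟨b₀, rfl⟩ := hfix y₀ hy₀
  set f := algebraMap k k' with hf
  have hσf : ∀ c : k, σ (f c) = f c := fun c => σ.commutes c
  -- the roots of `g_m`
  have hroots : ∀ m : k, ∃ x₁ x₂ : k', x₁ + x₂ = f (m ^ 2 - a₀ - W.a₂) ∧
      x₁ * x₂ = f (a₀ ^ 2 + W.a₂ * a₀ + W.a₄ + m ^ 2 * a₀ + 2 * m * b₀) := fun m =>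
    qc_roots h2 hsq _ _
  -- a root gives a point
  have hg : ∀ (m : k) (x₁ x₂ : k'), x₁ + x₂ = f (m ^ 2 - a₀ - W.a₂) →
      x₁ * x₂ = f (a₀ ^ 2 + W.a₂ * a₀ + W.a₄ + m ^ 2 * a₀ + 2 * m * b₀) →
      x₁ ^ 2 + (f a₀ + f W.a₂ - (f m) ^ 2) * x₁ + ((f a₀) ^ 2 + f W.a₂ * f a₀
      + f W.a₄ + (f m) ^ 2 * f a₀ + 2 * f m * f b₀) = 0 := by
    intro m x₁ x₂ hs hp
    simp only [map_add, map_sub, map_mul, map_pow, map_ofNat] at hs hp
    linear_combination x₁ * hs - hp
  have hns : ∀ (m : k) (x₁ x₂ : k'), x₁ + x₂ = f (m ^ 2 - a₀ - W.a₂) →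
      x₁ * x₂ = f (a₀ ^ 2 + W.a₂ * a₀ + W.a₄ + m ^ 2 * a₀ + 2 * m * b₀) →
      (W.map f).toAffine.Nonsingular x₁ (f m * (x₁ - f a₀) - f b₀) := by
    intro m x₁ x₂ hs hp
    rw [← Affine.equation_iff_nonsingular]
    exact qc_line_mem W h1 h3 hR₀.1 (hg m x₁ x₂ hs hp) rfl
  -- both roots are fixed and they are different
  have key : ∀ m : k, ∃ x₁ x₂ : k', x₁ + x₂ = f (m ^ 2 - a₀ - W.a₂) ∧
      x₁ * x₂ = f (a₀ ^ 2 + W.a₂ * a₀ + W.a₄ + m ^ 2 * a₀ + 2 * m * b₀) ∧ σ x₁ = x₁ ∧ σ x₂ = x₂
      ∧ x₁ ≠ x₂ := by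
    intro m
    obtain ⟨x₁, x₂, hs, hp⟩ := hroots m
    have hσs : σ x₁ + σ x₂ = f (m ^ 2 - a₀ - W.a₂) := by rw [← map_add, hs, hσf]
    have hσp : σ x₁ * σ x₂ = f (a₀ ^ 2 + W.a₂ * a₀ + W.a₄ + m ^ 2 * a₀ + 2 * m * b₀) := by
      rw [← map_mul, hp, hσf]
    have hor : (σ x₁ - x₁) * (σ x₁ - x₂) = 0 := by
      linear_combination (σ x₁) * hσs - (σ x₁) * hs + hp - hσp
    have hN₁ := hns m x₁ x₂ hs hp
    have hN₂ := hns m x₂ x₁ (by rw [add_comm]; exact hs) (by rw [mul_comm]; exact hp)
    have hs' : x₁ + x₂ = (f m) ^ 2 - f a₀ - f W.a₂ := by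
      rw [hs]; simp only [map_sub, map_pow]
    have hp' : x₁ * x₂ = (f a₀) ^ 2 + f W.a₂ * f a₀ + f W.a₄ + (f m) ^ 2 * f a₀
        + 2 * f m * f b₀ := by
      rw [hp]; simp only [map_add, map_mul, map_pow, map_ofNat]
    have hadd := qc_add_eq W h1 h3 h2 hR₀ hs' hp' rfl rfl hN₁ hN₂
    -- in the bad cases `P + φ P = R`
    have hne : σ x₁ ≠ x₂ := by
      intro he
      apply hcon (.some _ _ hN₁)
      obtain ⟨h', he'⟩ := qcConj_some W σ _ _ hN₁
      rw [he', ← hadd]
      congr 1
      rw [Affine.Point.some.injEq]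
      refine ⟨he, ?_⟩
      rw [map_sub, map_mul, map_sub, hσf, hσf, hσf, he]
    have h11 : σ x₁ = x₁ := by
      rcases mul_eq_zero.mp hor with h | h
      · exact sub_eq_zero.mp h
      · exact absurd (sub_eq_zero.mp h) hne
    have h22 : σ x₂ = x₂ := by
      have : σ x₁ + σ x₂ = x₁ + x₂ := by rw [hσs, hs]
      rw [h11] at this
      exact add_left_cancel this
    refine ⟨x₁, x₂, hs, hp, h11, h22, ?_⟩
    intro he
    exact hne (by rw [h11, he])
  choose r₁ r₂ hs hp hf₁ hf₂ hne using key
  -- the root indexed by a boolean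
  have hsB : ∀ (m : k) (b : Bool), (cond b (r₁ m) (r₂ m)) + (cond b (r₂ m) (r₁ m))
      = f (m ^ 2 - a₀ - W.a₂) := by
    intro m b
    cases b
    · simp only [cond_false]; rw [add_comm]; exact hs m
    · exact hs m
  have hpB : ∀ (m : k) (b : Bool), (cond b (r₁ m) (r₂ m)) * (cond b (r₂ m) (r₁ m))
      = f (a₀ ^ 2 + W.a₂ * a₀ + W.a₄ + m ^ 2 * a₀ + 2 * m * b₀) := by
    intro m b
    cases b
    · simp only [cond_false]; rw [mul_comm]; exact hp m
    · exact hp m
  have hfB : ∀ (m : k) (b : Bool), σ (cond b (r₁ m) (r₂ m)) = cond b (r₁ m) (r₂ m) := by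
    intro m b
    cases b
    · exact hf₂ m
    · exact hf₁ m
  have hcondinj : ∀ (m : k) (b b' : Bool), cond b (r₁ m) (r₂ m) = cond b' (r₁ m) (r₂ m) →
      b = b' := by
    intro m b b' he
    cases b <;> cases b'
    · rfl
    · exact absurd he.symm (hne m)
    · exact absurd he (hne m)
    · rfl
  have hfixP : ∀ (m : k) (b : Bool), qcConj W σ (.some _ _ (hns m _ _ (hsB m b) (hpB m b)))
      = .some _ _ (hns m _ _ (hsB m b) (hpB m b)) := by
    intro m b
    rw [qcConj_eq_self_iff]
    refine ⟨hfB m b, ?_⟩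
    rw [map_sub, map_mul, map_sub, hσf, hσf, hσf, hfB]
  -- the value of `g_m` at `x₀`
  have hgx₀ : ∀ (m : k) (b : Bool), cond b (r₁ m) (r₂ m) = f a₀ →
      3 * (f a₀) ^ 2 + 2 * f W.a₂ * f a₀ + f W.a₄ + 2 * f m * f b₀ = 0 := by
    intro m b he
    have h := hg m _ _ (hsB m b) (hpB m b)
    rw [he] at h
    linear_combination h
  have hb₀ : ∀ (m : k) (b : Bool), cond b (r₁ m) (r₂ m) = f a₀ → f b₀ ≠ 0 := by
    intro m b he hb
    have h := hgx₀ m b he
    rcases ((Affine.nonsingular_iff' _ _).mp hR₀).2 with hc | hc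
    · apply hc
      simp only [map_a₁, h1, map_zero, zero_mul, map_a₂, map_a₄, zero_sub, neg_eq_zero]
      rw [hb, mul_zero, add_zero] at h
      exact h
    · apply hc
      simp only [map_a₁, h1, map_zero, zero_mul, map_a₃, h3, add_zero]
      rw [hb, mul_zero]
  set F : Option (Option (k × Bool)) → {P : (W.map f).toAffine.Point // qcConj W σ P = P} :=
    fun o => match o with
      | none => ⟨.zero, rfl⟩
      | some none => ⟨.some _ _ hR₀, hR⟩
      | some (some (m, b)) => ⟨.some _ _ (hns m _ _ (hsB m b) (hpB m b)), hfixP m b⟩ with hF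
  have hFinj : Function.Injective F := by
    have hRne : ∀ (m : k) (b : Bool), (Affine.Point.some _ _ hR₀ : (W.map f).toAffine.Point)
        ≠ .some _ _ (hns m _ _ (hsB m b) (hpB m b)) := by
      intro m b he
      rw [Affine.Point.some.injEq] at he
      obtain ⟨hx, hy⟩ := he
      rw [← hx, sub_self, mul_zero, zero_sub] at hy
      have h2b : 2 * f b₀ = 0 := by linear_combination hy
      rcases mul_eq_zero.mp h2b with h | h
      · exact h2 h
      · exact hb₀ m b hx.symm h
    rintro (_ | _ | ⟨m, b⟩) (_ | _ | ⟨m', b'⟩) he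
    · rfl
    · exact absurd (congrArg Subtype.val he) (by rintro (_ | _))
    · exact absurd (congrArg Subtype.val he) (by rintro (_ | _))
    · exact absurd (congrArg Subtype.val he) (by rintro (_ | _))
    · rfl
    · exact absurd (congrArg Subtype.val he) (hRne m' b')
    · exact absurd (congrArg Subtype.val he) (by rintro (_ | _))
    · exact absurd (congrArg Subtype.val he).symm (hRne m b)
    · have he' := congrArg Subtype.val he
      simp only [hF, Affine.Point.some.injEq] at he'
      obtain ⟨hx, hy⟩ := he'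
      have hmm : m = m' := by
        apply f.injective
        by_cases hxx : cond b (r₁ m) (r₂ m) = f a₀
        · have g1 := hgx₀ m b hxx
          have g2 := hgx₀ m' b' (by rw [← hx, hxx])
          have hb := hb₀ m b hxx
          have : (2 * f b₀) * (f m - f m') = 0 := by linear_combination g1 - g2
          rcases mul_eq_zero.mp this with h | h
          · rcases mul_eq_zero.mp h with h | h
            · exact absurd h h2
            · exact absurd h hb
          · exact sub_eq_zero.mp h
        · rw [← hx] at hy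
          have : (cond b (r₁ m) (r₂ m) - f a₀) * (f m - f m') = 0 := by
            linear_combination hy
          rcases mul_eq_zero.mp this with h | h
          · exact absurd (sub_eq_zero.mp h) hxx
          · exact sub_eq_zero.mp h
      subst hmm
      have := hcondinj m b b' hx
      subst this
      rfl
  have hfin : Finite (W.map f).toAffine.Point := Finite.of_equiv _ (pointEquivOption (W.map f)).symm
  have hle := Nat.card_le_card_of_injective F hFinj
  rw [Finite.card_option, Finite.card_option, Nat.card_prod, Nat.card_eq_two_iff.mpr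
    ⟨true, false, by decide, by ext b; cases b <;> simp⟩, qc_card_fix W σ hfix] at hle
  have := (card_point_le W).2
  omega

end Surj

section Final

variable {k k' : Type*} [Field k] [Field k'] [Finite k] [Finite k'] [Algebra k k']

lemma qc_main (h : Module.finrank k k' = 2) (h2 : (2 : k) ≠ 0) (W : WeierstrassCurve k)
    [W.IsElliptic] (h1 : W.a₁ = 0) (h3 : W.a₃ = 0) :
    (Nat.card (W.map (algebraMap k k')).toAffine.Point : ℤ) = Nat.card W.toAffine.Point
      * (2 * Nat.card k + 2 - Nat.card W.toAffine.Point) := by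
  classical
  obtain ⟨σ, hσ, hfix⟩ := qc_exists_conj h
  have hsq := qc_isSquare h h2
  have h2' : (2 : k') ≠ 0 := by
    intro hc
    apply h2
    apply (algebraMap k k').injective
    rw [map_zero, map_ofNat]
    exact hc
  set T : (W.map (algebraMap k k')).toAffine.Point →+ (W.map (algebraMap k k')).toAffine.Point :=
    AddMonoidHom.id _ + qcConj W σ with hT
  have hTa : ∀ P, T P = P + qcConj W σ P := fun P => rfl
  have hcard : Nat.card (W.map (algebraMap k k')).toAffine.Point
      = Nat.card T.range * Nat.card T.ker := by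
    rw [AddSubgroup.card_eq_card_quotient_mul_card_addSubgroup T.ker,
      Nat.card_congr (QuotientAddGroup.quotientKerEquivRange T).toEquiv]
  have hker : Nat.card T.ker
      = Nat.card {P : (W.map (algebraMap k k')).toAffine.Point // P + qcConj W σ P = 0} := by
    refine Nat.card_congr (Equiv.subtypeEquivRight fun P => ?_)
    rw [AddMonoidHom.mem_ker, hTa]
  have hran : Nat.card T.range = Nat.card W.toAffine.Point := by
    rw [← qc_card_fix W σ hfix]
    refine Nat.card_congr (Equiv.subtypeEquivRight fun R => ?_)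
    rw [AddMonoidHom.mem_range]
    constructor
    · rintro ⟨P, rfl⟩
      rw [hTa, map_add, qcConj_conj W σ hσ, add_comm]
    · intro hR
      obtain ⟨P, hP⟩ := qc_surj W h1 h3 σ h2' hsq hfix R hR
      exact ⟨P, hP⟩
  have hadd := qc_card_add W h1 h3 σ h2' hsq hfix
  rw [qc_card_fix W σ hfix, ← hker] at hadd
  rw [hcard, hran]
  have : (Nat.card T.ker : ℤ) = 2 * Nat.card k + 2 - Nat.card W.toAffine.Point := by
    have := congrArg (Nat.cast (R := ℤ)) hadd
    push_cast at this
    linarith
  push_cast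
  rw [this]

end Final

/-- The number of points over a quadratic extension of a finite field of odd characteristic. -/
theorem card_quadratic {k k' : Type*} [Field k] [Field k'] [Finite k] [Finite k'] [Algebra k k']
    (h : Module.finrank k k' = 2) (h2 : (2 : k) ≠ 0) (W : WeierstrassCurve k) [W.IsElliptic] :
    (Nat.card (W.map (algebraMap k k')).toAffine.Point : ℤ) = Nat.card W.toAffine.Point
      * (2 * Nat.card k + 2 - Nat.card W.toAffine.Point) := by
  have : Invertible (2 : k) := invertibleOfNonzero h2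
  obtain ⟨C, hC⟩ := W.exists_variableChange_isCharNeTwoNF
  have e1 := card_point_variableChange W C
  have e2 := card_point_variableChange (W.map (algebraMap k k')) (C.map (algebraMap k k'))
  rw [map_variableChange] at e2
  rw [← e1, ← e2]
  exact qc_main h h2 (C • W) (C • W).a₁_of_isCharNeTwoNF (C • W).a₃_of_isCharNeTwoNF

end Pool.Agent.Lib.MP_1a91b9_nt
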