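import Pool.Agent.Lib.MP_1a91b9_nt.Product
import Pool.Agent.Lib.MP_1a91b9_nt.LocDep
import Pool.Agent.Lib.MP_1a91b9_nt.FinTwist
import Pool.Agent.Lib.MP_1a91b9_nt.QuadCount
import Pool.Agent.Lib.MP_1a91b9_nt.QuadField
import Pool.Agent.Lib.MP_1a91b9_nt.IntTwist
set_option autoImplicit false
namespace Pool.Agent.Lib.MP_1a91b9_nt
open IsDedekindDomain NumberField Polynomial IntermediateField

universe u

section
variable {K : Type u} [Field K] [NumberField K]

/-- The finitely many primes containing a given nonzero element. -/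
theorem lt_finite_mem (b : 𝓞 K) (hb : b ≠ 0) :
    {v : HeightOneSpectrum (𝓞 K) | b ∈ v.asIdeal}.Finite := by
  have := Ideal.finite_factors (I := Ideal.span {b}) (by simpa using hb)
  refine this.subset fun v hv => ?_
  simpa [Ideal.dvd_span_singleton] using hv

/-- The residue field at `v`, as a quotient of the ring of integers. -/
theorem lt_exists_equiv (v : HeightOneSpectrum (𝓞 K)) :
    ∃ e : (𝓞 K ⧸ v.asIdeal) ≃+* IsLocalRing.ResidueField (v.adicCompletionIntegers K),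
      e.toRingHom.comp (Ideal.Quotient.mk v.asIdeal) = redMap K v := by
  have h1 : redMap K v = (IsLocalRing.residue (v.adicCompletionIntegers K)).comp
      (algebraMap (𝓞 K) (v.adicCompletionIntegers K)) := by
    unfold redMap
    ext x
    rfl
  have hs : Function.Surjective (redMap K v) := by
    rw [h1]; exact residue_surjective v
  have hk : v.asIdeal = RingHom.ker (redMap K v) := by
    rw [h1, residue_ker]
  refine ⟨(Ideal.quotEquivOfEq hk).trans (RingHom.quotientKerEquivOfSurjective hs), ?_⟩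
  ext x
  simp

theorem lt_card_quot (v : HeightOneSpectrum (𝓞 K)) : Nat.card (𝓞 K ⧸ v.asIdeal) = nrm v := by
  obtain ⟨e, _⟩ := lt_exists_equiv v
  rw [nrm, Nat.card_congr e.toEquiv]

/-- The local polynomial from an integral model, through the quotient of the ring of integers. -/
theorem lt_locPoly (W : WeierstrassCurve K) (C : WeierstrassCurve.VariableChange K)
    (W₀ : WeierstrassCurve (𝓞 K)) (hC : C • W = W₀.map (algebraMap (𝓞 K) K))
    (v : HeightOneSpectrum (𝓞 K)) (hv : W₀.Δ ∉ v.asIdeal) :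
    locPoly W v = 1 - Polynomial.C ((nrm v : ℤ) + 1
      - Nat.card (W₀.map (Ideal.Quotient.mk v.asIdeal)).toAffine.Point) * X
      + Polynomial.C (nrm v : ℤ) * X ^ 2 := by
  have : v.asIdeal.IsMaximal := v.isMaximal
  let _ : Field (𝓞 K ⧸ v.asIdeal) := Ideal.Quotient.field v.asIdeal
  have h5 : W.baseChange K = W := WeierstrassCurve.map_id W
  have h := locPoly_of_model (K := K) W C W₀ hC v (fun h => hv h)
  rw [h5] at h
  obtain ⟨e, he⟩ := lt_exists_equiv v
  have h6 := card_point_map_equiv (W₀.map (Ideal.Quotient.mk v.asIdeal)) e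
  rw [WeierstrassCurve.map_map, he] at h6
  rw [h, h6]

/-- The two numbers of points modulo `v`. -/
theorem lt_card (W₀ W₀' : WeierstrassCurve (𝓞 K)) (a : 𝓞 K) (h4 : W₀'.c₄ = a ^ 2 * W₀.c₄)
    (h6 : W₀'.c₆ = a ^ 3 * W₀.c₆) (v : HeightOneSpectrum (𝓞 K)) (h2 : (2 : 𝓞 K) ∉ v.asIdeal)
    (h3 : (3 : 𝓞 K) ∉ v.asIdeal) (ha : a ∉ v.asIdeal) (hD : W₀.Δ ∉ v.asIdeal)
    (hD' : W₀'.Δ ∉ v.asIdeal) :
    (IsSquare (Ideal.Quotient.mk v.asIdeal a) →
      Nat.card (W₀'.map (Ideal.Quotient.mk v.asIdeal)).toAffine.Point =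
        Nat.card (W₀.map (Ideal.Quotient.mk v.asIdeal)).toAffine.Point) ∧
    (¬ IsSquare (Ideal.Quotient.mk v.asIdeal a) →
      Nat.card (W₀.map (Ideal.Quotient.mk v.asIdeal)).toAffine.Point +
        Nat.card (W₀'.map (Ideal.Quotient.mk v.asIdeal)).toAffine.Point = 2 * nrm v + 2) := by
  have : v.asIdeal.IsMaximal := v.isMaximal
  let _ : Field (𝓞 K ⧸ v.asIdeal) := Ideal.Quotient.field v.asIdeal
  have : Finite (𝓞 K ⧸ v.asIdeal) := v.asIdeal.finiteQuotientOfFreeOfNeBot v.ne_bot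
  have key : ∀ x : 𝓞 K, x ∉ v.asIdeal → Ideal.Quotient.mk v.asIdeal x ≠ 0 := fun x hx h =>
    hx (Ideal.Quotient.eq_zero_iff_mem.1 h)
  have e1 : (W₀.map (Ideal.Quotient.mk v.asIdeal)).IsElliptic :=
    ⟨by rw [WeierstrassCurve.map_Δ]; exact (key _ hD).isUnit⟩
  have e2 : (W₀'.map (Ideal.Quotient.mk v.asIdeal)).IsElliptic :=
    ⟨by rw [WeierstrassCurve.map_Δ]; exact (key _ hD').isUnit⟩
  have := card_twist (k := 𝓞 K ⧸ v.asIdeal) (fun h => key _ h2 (by rw [map_ofNat]; exact h))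
    (fun h => key _ h3 (by rw [map_ofNat]; exact h))
    (W₀.map (Ideal.Quotient.mk v.asIdeal)) (W₀'.map (Ideal.Quotient.mk v.asIdeal))
    (Ideal.Quotient.mk v.asIdeal a) (key _ ha)
    (by rw [WeierstrassCurve.map_c₄, WeierstrassCurve.map_c₄, h4, map_mul, map_pow])
    (by rw [WeierstrassCurve.map_c₆, WeierstrassCurve.map_c₆, h6, map_mul, map_pow])
  rw [lt_card_quot] at this
  exact this

end

theorem local_square {K : Type u} [Field K] [NumberField K] (W W' : WeierstrassCurve K)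
    [W.IsElliptic] [W'.IsElliptic] (d : K) (hd : d ≠ 0) (h4 : W'.c₄ = d ^ 2 * W.c₄)
    (h6 : W'.c₆ = d ^ 3 * W.c₆) (hsq : IsSquare d) :
    ∃ S : Set (HeightOneSpectrum (𝓞 K)), S.Finite ∧ ∀ v ∉ S, locPoly W' v = locPoly W v := by
  obtain ⟨C, C', W₀, W₀', a, e, ha, he, hae, hC, hC', hΔ, hΔ', h4', h6'⟩ :=
    exists_integral_twist W W' d hd h4 h6
  have hb : (6 * a * W₀.Δ * W₀'.Δ : 𝓞 K) ≠ 0 :=
    mul_ne_zero (mul_ne_zero (mul_ne_zero (by norm_num) ha) hΔ) hΔ'
  refine ⟨{v | (6 * a * W₀.Δ * W₀'.Δ : 𝓞 K) ∈ v.asIdeal}, lt_finite_mem _ hb, fun v hv => ?_⟩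
  have hv : (6 * a * W₀.Δ * W₀'.Δ : 𝓞 K) ∉ v.asIdeal := hv
  have hD' : W₀'.Δ ∉ v.asIdeal := fun h => hv (Ideal.mul_mem_left _ _ h)
  have hD : W₀.Δ ∉ v.asIdeal := fun h => hv (Ideal.mul_mem_right _ _ (Ideal.mul_mem_left _ _ h))
  have hav : a ∉ v.asIdeal := fun h => hv (Ideal.mul_mem_right _ _ (Ideal.mul_mem_right _ _
    (Ideal.mul_mem_left _ _ h)))
  have h6v : (6 : 𝓞 K) ∉ v.asIdeal := fun h => hv (Ideal.mul_mem_right _ _
    (Ideal.mul_mem_right _ _ (Ideal.mul_mem_right _ _ h)))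
  have h2v : (2 : 𝓞 K) ∉ v.asIdeal := fun h => h6v (by
    have := Ideal.mul_mem_left v.asIdeal 3 h; norm_num at this; exact this)
  have h3v : (3 : 𝓞 K) ∉ v.asIdeal := fun h => h6v (by
    have := Ideal.mul_mem_left v.asIdeal 2 h; norm_num at this; exact this)
  have hsq' : IsSquare (Ideal.Quotient.mk v.asIdeal a) := by
    obtain ⟨c, hc⟩ := hsq
    have h7 : (e * c) ^ 2 = algebraMap (𝓞 K) K a := by rw [hae, hc]; ring
    have h8 : IsIntegral (𝓞 K) (e * c) := by
      refine IsIntegral.of_pow (n := 2) (by norm_num) ?_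
      rw [h7]; exact isIntegral_algebraMap
    obtain ⟨y, hy⟩ := IsIntegrallyClosed.isIntegral_iff.1 h8
    refine ⟨Ideal.Quotient.mk v.asIdeal y, ?_⟩
    rw [← map_mul]
    congr 1
    apply FaithfulSMul.algebraMap_injective (𝓞 K) K
    rw [map_mul, hy, ← h7]; ring
  rw [lt_locPoly W C W₀ hC v hD, lt_locPoly W' C' W₀' hC' v hD',
    (lt_card W₀ W₀' a h4' h6' v h2v h3v hav hD hD').1 hsq']

theorem local_twist {K L : Type u} [Field K] [NumberField K] [Field L] [NumberField L]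
    [Algebra K L] (W W' : WeierstrassCurve K) [W.IsElliptic] [W'.IsElliptic] (d : K) (hd : d ≠ 0)
    (h4 : W'.c₄ = d ^ 2 * W.c₄) (h6 : W'.c₆ = d ^ 3 * W.c₆) (hsq : ¬ IsSquare d)
    (hL : Module.finrank K L = 2) (δ : L) (hδ : δ ^ 2 = algebraMap K L d) :
    ∃ S : Set (HeightOneSpectrum (𝓞 K)), S.Finite ∧ ∀ v ∉ S, ∀ s : ℂ, 2 < s.re →
      locProd W L v s = fac W v s * fac W' v s := by
  obtain ⟨C, C', W₀, W₀', a, e, ha, he, hae, hC, hC', hΔ, hΔ', h4', h6'⟩ :=
    exists_integral_twist W W' d hd h4 h6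
  have hb : (6 * a * W₀.Δ * W₀'.Δ : 𝓞 K) ≠ 0 :=
    mul_ne_zero (mul_ne_zero (mul_ne_zero (by norm_num) ha) hΔ) hΔ'
  have hasq : ¬ IsSquare (algebraMap (𝓞 K) K a) := by
    rintro ⟨c, hc⟩
    apply hsq
    refine ⟨c / e, ?_⟩
    rw [hae] at hc
    rw [div_mul_div_comm, eq_div_iff (mul_ne_zero he he), ← hc]
    ring
  obtain ⟨S₁, hS₁, hq⟩ := quad_split hL a hasq (algebraMap K L e * δ) (by
    rw [mul_pow, hδ, hae, map_mul, map_pow])
  obtain ⟨S₂, hS₂, hdep⟩ := locPoly_dep.{u, u, u} W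
  refine ⟨{v | (6 * a * W₀.Δ * W₀'.Δ : 𝓞 K) ∈ v.asIdeal} ∪ S₁ ∪ S₂,
    ((lt_finite_mem _ hb).union hS₁).union hS₂, fun v hvS s hs => ?_⟩
  have hv : (6 * a * W₀.Δ * W₀'.Δ : 𝓞 K) ∉ v.asIdeal := fun h => hvS (Or.inl (Or.inl h))
  have hv1 : v ∉ S₁ := fun h => hvS (Or.inl (Or.inr h))
  have hv2 : v ∉ S₂ := fun h => hvS (Or.inr h)
  have hD' : W₀'.Δ ∉ v.asIdeal := fun h => hv (Ideal.mul_mem_left _ _ h)
  have hD : W₀.Δ ∉ v.asIdeal := fun h => hv (Ideal.mul_mem_right _ _ (Ideal.mul_mem_left _ _ h))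
  have hav : a ∉ v.asIdeal := fun h => hv (Ideal.mul_mem_right _ _ (Ideal.mul_mem_right _ _
    (Ideal.mul_mem_left _ _ h)))
  have h6v : (6 : 𝓞 K) ∉ v.asIdeal := fun h => hv (Ideal.mul_mem_right _ _
    (Ideal.mul_mem_right _ _ (Ideal.mul_mem_right _ _ h)))
  have h2v : (2 : 𝓞 K) ∉ v.asIdeal := fun h => h6v (by
    have := Ideal.mul_mem_left v.asIdeal 3 h; norm_num at this; exact this)
  have h3v : (3 : 𝓞 K) ∉ v.asIdeal := fun h => h6v (by
    have := Ideal.mul_mem_left v.asIdeal 2 h; norm_num at this; exact this)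
  have hcard := lt_card W₀ W₀' a h4' h6' v h2v h3v hav hD hD'
  have hP := lt_locPoly W C W₀ hC v hD
  have hP' := lt_locPoly W' C' W₀' hC' v hD'
  let _ : Fintype {w : HeightOneSpectrum (𝓞 L) // w.asIdeal.under (𝓞 K) = v.asIdeal} :=
    @Fintype.ofFinite _ (pf_finite_over v)
  have hprod : ∀ (c : ℂ), (∀ w : {w : HeightOneSpectrum (𝓞 L) //
      w.asIdeal.under (𝓞 K) = v.asIdeal}, fac (W.baseChange L) w.1 s = c) →
      locProd W L v s = c ^ Nat.card {w : HeightOneSpectrum (𝓞 L) //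
        w.asIdeal.under (𝓞 K) = v.asIdeal} := by
    intro c hc
    unfold locProd
    rw [Finset.prod_congr rfl fun w _ => hc w, Finset.prod_const, Nat.card_eq_fintype_card]
    congr 1
  rcases hq v hv1 with ⟨hs1, hf, hn⟩ | ⟨hs1, hf, hn⟩
  · rw [hprod (fac W v s), hn]
    · have : fac W' v s = fac W v s := by
        unfold fac
        rw [hP, hP', hcard.1 hs1]
      rw [this, sq]
    · intro w
      have h5 := hdep v hv2 L K w.1 v w.2 (pf_under_self v)
        ((hf w.1 w.2).trans (pf_inertiaDeg_self v).symm)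
      have h7 : W.baseChange K = W := WeierstrassCurve.map_id W
      rw [h7] at h5
      unfold fac
      rw [h5.1, h5.2]
  · rw [hprod (fac W v s * fac W' v s), hn, pow_one]
    intro w
    have : v.asIdeal.IsMaximal := v.isMaximal
    let _ : Field (𝓞 K ⧸ v.asIdeal) := Ideal.Quotient.field v.asIdeal
    have : Finite (𝓞 K ⧸ v.asIdeal) := v.asIdeal.finiteQuotientOfFreeOfNeBot v.ne_bot
    have := finite_residue w.1
    let _ : Algebra (𝓞 K ⧸ v.asIdeal)
        (IsLocalRing.ResidueField (w.1.adicCompletionIntegers L)) :=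
      (Ideal.Quotient.lift _ (redMap K w.1) (fun a ha => by
        rw [← RingHom.mem_ker, redMap_ker, w.2]; exact ha)).toAlgebra
    have key : ∀ x : 𝓞 K, x ∉ v.asIdeal → Ideal.Quotient.mk v.asIdeal x ≠ 0 := fun x hx h =>
      hx (Ideal.Quotient.eq_zero_iff_mem.1 h)
    have e1 : (W₀.map (Ideal.Quotient.mk v.asIdeal)).IsElliptic :=
      ⟨by rw [WeierstrassCurve.map_Δ]; exact (key _ hD).isUnit⟩
    have hnw : nrm w.1 = nrm v ^ 2 := by
      have : w.1.asIdeal.LiesOver v.asIdeal := ⟨w.2.symm⟩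
      rw [nrm_eq, nrm_eq, ← Ideal.absNorm_pow_inertiaDeg v.asIdeal w.1.asIdeal, hf w.1 w.2]
    have hfin : Module.finrank (𝓞 K ⧸ v.asIdeal)
        (IsLocalRing.ResidueField (w.1.adicCompletionIntegers L)) = 2 := by
      have h7 := Module.natCard_eq_pow_finrank (K := 𝓞 K ⧸ v.asIdeal)
        (V := IsLocalRing.ResidueField (w.1.adicCompletionIntegers L))
      change nrm w.1 = _ at h7
      rw [lt_card_quot, hnw] at h7
      refine (Nat.pow_right_injective ?_ h7).symm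
      rw [← lt_card_quot]
      exact Finite.one_lt_card
    have hq2 := card_quadratic (k := 𝓞 K ⧸ v.asIdeal)
      (k' := IsLocalRing.ResidueField (w.1.adicCompletionIntegers L)) hfin
      (fun h => key _ h2v (by rw [map_ofNat]; exact h)) (W₀.map (Ideal.Quotient.mk v.asIdeal))
    rw [WeierstrassCurve.map_map] at hq2
    have h8 : (algebraMap (𝓞 K ⧸ v.asIdeal)
      (IsLocalRing.ResidueField (w.1.adicCompletionIntegers L))).comp
        (Ideal.Quotient.mk v.asIdeal) = redMap K w.1 := by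
      ext x
      rfl
    rw [h8, lt_card_quot] at hq2
    have hPw := locPoly_of_model (K := L) W C W₀ hC w.1 (by rw [w.2]; exact hD)
    rw [hq2] at hPw
    have hN := hcard.2 hs1
    unfold fac
    rw [hPw, hP, hP', hnw]
    rw [← mul_inv]
    congr 1
    set N := Nat.card (W₀.map (Ideal.Quotient.mk v.asIdeal)).toAffine.Point with hNdef
    set N' := Nat.card (W₀'.map (Ideal.Quotient.mk v.asIdeal)).toAffine.Point with hN'def
    have hT : (((nrm v ^ 2 : ℕ) : ℂ)) ^ (-s) = ((nrm v : ℂ) ^ (-s)) ^ 2 := by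
      rw [sq, sq, Nat.cast_mul, Complex.natCast_mul_natCast_cpow]
    rw [hT]
    set T := (nrm v : ℂ) ^ (-s) with hTdef
    have hN2 : (N' : ℂ) = 2 * (nrm v : ℂ) + 2 - N := by
      have : ((N + N' : ℕ) : ℂ) = ((2 * nrm v + 2 : ℕ) : ℂ) := by rw [hN]
      push_cast at this
      linear_combination this
    simp only [map_add, map_sub, map_mul, map_one, map_pow, aeval_X, map_natCast, map_ofNat]
    push_cast
    rw [hN2]
    ring

end Pool.Agent.Lib.MP_1a91b9_nt
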