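import Pool.Agent.Lib.MP_1a91b9_nt.Defs

/-!
# Points with 2-adically large abscissa have infinite order
-/

set_option autoImplicit false

namespace Pool.Agent.Lib.MP_1a91b9_nt

open IsDedekindDomain NumberField Polynomial IntermediateField

universe u

/-- The duplication formula for the abscissa. -/
theorem addX_self_mul {L : Type*} [Field L] [DecidableEq L] (W : WeierstrassCurve.Affine L)
    {x y : L} (h : W.Equation x y) (hy : y ≠ W.negY x y) :
    W.addX x x (W.slope x x y y) * (4 * x ^ 3 + W.b₂ * x ^ 2 + 2 * W.b₄ * x + W.b₆)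
      = x ^ 4 - W.b₄ * x ^ 2 - 2 * W.b₆ * x - W.b₈ := by
  have he := (W.equation_iff x y).1 h
  have hd : y - W.negY x y ≠ 0 := sub_ne_zero.2 hy
  have hpsi : 4 * x ^ 3 + W.b₂ * x ^ 2 + 2 * W.b₄ * x + W.b₆ = (y - W.negY x y) ^ 2 := by
    simp only [WeierstrassCurve.b₂, WeierstrassCurve.b₄, WeierstrassCurve.b₆,
      WeierstrassCurve.Affine.negY]
    linear_combination (-4) * he
  rw [hpsi, WeierstrassCurve.Affine.slope_of_Y_ne rfl hy, WeierstrassCurve.Affine.addX]
  field_simp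
  simp only [WeierstrassCurve.b₄, WeierstrassCurve.b₆, WeierstrassCurve.b₈,
      WeierstrassCurve.Affine.negY]
  linear_combination (-(W.a₁ ^ 2 + 4 * W.a₂ + 8 * x)) * he

theorem psi_eq_zero_of_negY {L : Type*} [Field L] [DecidableEq L] (W : WeierstrassCurve.Affine L)
    {x y : L} (h : W.Equation x y) (hy : y = W.negY x y) :
    4 * x ^ 3 + W.b₂ * x ^ 2 + 2 * W.b₄ * x + W.b₆ = 0 := by
  have he := (W.equation_iff x y).1 h
  have hpsi : 4 * x ^ 3 + W.b₂ * x ^ 2 + 2 * W.b₄ * x + W.b₆ = (y - W.negY x y) ^ 2 := by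
    simp only [WeierstrassCurve.b₂, WeierstrassCurve.b₄, WeierstrassCurve.b₆,
      WeierstrassCurve.Affine.negY]
    linear_combination (-4) * he
  rw [hpsi, ← hy, sub_self]
  ring

/-- The valuation computation. -/
theorem val_double {F Γ : Type*} [Field F] [LinearOrderedCommGroupWithZero Γ] (V : Valuation F Γ)
    (h2 : V 2 < 1) (h20 : (2 : F) ≠ 0) (b2 b4 b6 b8 : F) :
    ∃ c : Γ, 1 ≤ c ∧ ∀ x : F, c < V x →
      V (x ^ 4 - b4 * x ^ 2 - 2 * b6 * x - b8) = V x ^ 4 ∧
      V (4 * x ^ 3 + b2 * x ^ 2 + 2 * b4 * x + b6) = V 4 * V x ^ 3 ∧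
      V x < V x ^ 4 / (V 4 * V x ^ 3) := by
  have h4 : V 4 = V 2 * V 2 := by rw [← map_mul]; norm_num
  have hV2 : V 2 ≠ 0 := (Valuation.ne_zero_iff V).2 h20
  have hV2pos : 0 < V 2 := zero_lt_iff.2 hV2
  have hV4pos : 0 < V 4 := by rw [h4]; exact mul_pos hV2pos hV2pos
  have hV4 : V 4 < 1 := by
    rw [h4]
    calc V 2 * V 2 < 1 * V 2 := by
            exact mul_lt_mul_of_pos_right h2 hV2pos
      _ = V 2 := one_mul _
      _ < 1 := h2
  have hint2 : V 2 ≤ 1 := h2.le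
  refine ⟨1 ⊔ (V b2 / V 4) ⊔ (V b4 / V 4) ⊔ (V b6 / V 4) ⊔ (V b8 / V 4), ?_, ?_⟩
  · exact le_sup_of_le_left (le_sup_of_le_left (le_sup_of_le_left (le_sup_left)))
  intro x hx
  simp only [sup_lt_iff] at hx
  obtain ⟨⟨⟨⟨hx1, hxb2⟩, hxb4⟩, hxb6⟩, hxb8⟩ := hx
  rw [div_lt_iff₀ hV4pos] at hxb2 hxb4 hxb6 hxb8
  -- hxb_i : V b_i < V x * V 4
  set X := V x with hX
  have hXpos : 0 < X := zero_lt_one.trans hx1
  have hX1 : 1 ≤ X := hx1.le
  have hp : ∀ m n : ℕ, m ≤ n → X ^ m ≤ X ^ n := fun m n h => pow_le_pow_right₀ hX1 h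
  -- numerator
  have hXV : X * V 4 < X := by
    calc X * V 4 < X * 1 := mul_lt_mul_of_pos_left hV4 hXpos
      _ = X := mul_one _
  have hn1 : V (b4 * x ^ 2) < X ^ 4 := by
    rw [map_mul, map_pow]
    calc V b4 * X ^ 2 < X * X ^ 2 := mul_lt_mul_of_pos_right (hxb4.trans hXV) (pow_pos hXpos 2)
      _ = X ^ 3 := (pow_succ' X 2).symm
      _ ≤ X ^ 4 := hp 3 4 (by norm_num)
  have hn2 : V (2 * b6 * x) < X ^ 4 := by
    rw [map_mul, map_mul]
    calc V 2 * V b6 * X ≤ 1 * V b6 * X := by gcongr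
      _ = V b6 * X := by rw [one_mul]
      _ < X * X := mul_lt_mul_of_pos_right (hxb6.trans hXV) hXpos
      _ = X ^ 2 := (sq X).symm
      _ ≤ X ^ 4 := hp 2 4 (by norm_num)
  have hn3 : V b8 < X ^ 4 := by
    calc V b8 < X := hxb8.trans hXV
      _ = X ^ 1 := (pow_one X).symm
      _ ≤ X ^ 4 := hp 1 4 (by norm_num)
  have hx4 : V (x ^ 4) = X ^ 4 := by rw [map_pow]
  have hnum : V (x ^ 4 - b4 * x ^ 2 - 2 * b6 * x - b8) = X ^ 4 := by
    have e1 : V (x ^ 4 - b4 * x ^ 2) = X ^ 4 := by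
      rw [Valuation.map_sub_eq_of_lt_left V (by rw [hx4]; exact hn1), hx4]
    have e2 : V (x ^ 4 - b4 * x ^ 2 - 2 * b6 * x) = X ^ 4 := by
      rw [Valuation.map_sub_eq_of_lt_left V (by rw [e1]; exact hn2), e1]
    rw [Valuation.map_sub_eq_of_lt_left V (by rw [e2]; exact hn3), e2]
  -- denominator
  have hx3 : V (4 * x ^ 3) = V 4 * X ^ 3 := by rw [map_mul, map_pow]
  have hd1 : V (b2 * x ^ 2) < V 4 * X ^ 3 := by
    rw [map_mul, map_pow]
    calc V b2 * X ^ 2 < X * V 4 * X ^ 2 := mul_lt_mul_of_pos_right hxb2 (pow_pos hXpos 2)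
      _ = V 4 * X ^ 3 := by rw [mul_comm X, mul_assoc, ← pow_succ']
  have hd2 : V (2 * b4 * x) < V 4 * X ^ 3 := by
    rw [map_mul, map_mul]
    calc V 2 * V b4 * X ≤ 1 * V b4 * X := by gcongr
      _ = V b4 * X := by rw [one_mul]
      _ < X * V 4 * X := mul_lt_mul_of_pos_right hxb4 hXpos
      _ = V 4 * X ^ 2 := by rw [mul_comm X, mul_assoc, ← sq]
      _ ≤ V 4 * X ^ 3 := by gcongr; norm_num
  have hd3 : V b6 < V 4 * X ^ 3 := by
    calc V b6 < X * V 4 := hxb6
      _ = V 4 * X ^ 1 := by rw [pow_one, mul_comm]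
      _ ≤ V 4 * X ^ 3 := by gcongr; norm_num
  have hden : V (4 * x ^ 3 + b2 * x ^ 2 + 2 * b4 * x + b6) = V 4 * X ^ 3 := by
    have e1 : V (4 * x ^ 3 + b2 * x ^ 2) = V 4 * X ^ 3 := by
      rw [Valuation.map_add_eq_of_lt_left V (by rw [hx3]; exact hd1), hx3]
    have e2 : V (4 * x ^ 3 + b2 * x ^ 2 + 2 * b4 * x) = V 4 * X ^ 3 := by
      rw [Valuation.map_add_eq_of_lt_left V (by rw [e1]; exact hd2), e1]
    rw [Valuation.map_add_eq_of_lt_left V (by rw [e2]; exact hd3), e2]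
  refine ⟨hnum, hden, ?_⟩
  rw [lt_div_iff₀ (mul_pos hV4pos (pow_pos hXpos 3))]
  calc X * (V 4 * X ^ 3) = V 4 * X ^ 4 := by rw [mul_left_comm, ← pow_succ']
    _ < 1 * X ^ 4 := mul_lt_mul_of_pos_right hV4 (pow_pos hXpos 4)
    _ = X ^ 4 := one_mul _

theorem double_step {F : Type*} [Field F] {Γ : Type*} [LinearOrderedCommGroupWithZero Γ]
    (V : Valuation F Γ) (h20 : (2 : F) ≠ 0) (W : WeierstrassCurve F) (c : Γ)
    (hc1 : 1 ≤ c)
    (hc : ∀ x : F, c < V x →
      V (x ^ 4 - W.b₄ * x ^ 2 - 2 * W.b₆ * x - W.b₈) = V x ^ 4 ∧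
      V (4 * x ^ 3 + W.b₂ * x ^ 2 + 2 * W.b₄ * x + W.b₆) = V 4 * V x ^ 3 ∧
      V x < V x ^ 4 / (V 4 * V x ^ 3))
    {L : Type*} [Field L] [DecidableEq L] [Algebra F L] (x : F) (y : L)
    (h : (W.baseChange L).toAffine.Nonsingular (algebraMap F L x) y) (hx : c < V x) :
    ∃ (x' : F) (y' : L) (h' : (W.baseChange L).toAffine.Nonsingular (algebraMap F L x') y'),
      V x < V x' ∧
      (WeierstrassCurve.Affine.Point.some _ _ h + WeierstrassCurve.Affine.Point.some _ _ h :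
        (W.baseChange L).toAffine.Point) = WeierstrassCurve.Affine.Point.some _ _ h' := by
  obtain ⟨hnum, hden, hlt⟩ := hc x hx
  have hVx : 0 < V x := lt_of_lt_of_le zero_lt_one (hc1.trans hx.le)
  have hV2 : V 2 ≠ 0 := (Valuation.ne_zero_iff V).2 h20
  have hV4 : V 4 ≠ 0 := by
    have : V 4 = V 2 * V 2 := by rw [← map_mul]; norm_num
    rw [this]; exact mul_ne_zero hV2 hV2
  set D : F := 4 * x ^ 3 + W.b₂ * x ^ 2 + 2 * W.b₄ * x + W.b₆ with hD
  set Nn : F := x ^ 4 - W.b₄ * x ^ 2 - 2 * W.b₆ * x - W.b₈ with hNn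
  have hD0 : D ≠ 0 := by
    intro h0
    rw [h0, map_zero] at hden
    exact mul_ne_zero hV4 (pow_ne_zero 3 hVx.ne') hden.symm
  have hb2 : (W.baseChange L).b₂ = algebraMap F L W.b₂ := W.map_b₂ (algebraMap F L)
  have hb4 : (W.baseChange L).b₄ = algebraMap F L W.b₄ := W.map_b₄ (algebraMap F L)
  have hb6 : (W.baseChange L).b₆ = algebraMap F L W.b₆ := W.map_b₆ (algebraMap F L)
  have hb8 : (W.baseChange L).b₈ = algebraMap F L W.b₈ := W.map_b₈ (algebraMap F L)
  have hmapD : algebraMap F L D = 4 * (algebraMap F L x) ^ 3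
      + (W.baseChange L).b₂ * (algebraMap F L x) ^ 2 + 2 * (W.baseChange L).b₄ * (algebraMap F L x)
      + (W.baseChange L).b₆ := by
    simp only [hD, hb2, hb4, hb6, map_add, map_mul, map_pow, map_ofNat]
  have hmapN : algebraMap F L Nn = (algebraMap F L x) ^ 4
      - (W.baseChange L).b₄ * (algebraMap F L x) ^ 2 - 2 * (W.baseChange L).b₆ * (algebraMap F L x)
      - (W.baseChange L).b₈ := by
    simp only [hNn, hb4, hb6, hb8, map_sub, map_mul, map_pow, map_ofNat]
  have hmapD0 : algebraMap F L D ≠ 0 := by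
    rwa [ne_eq, map_eq_zero]
  have hy : y ≠ (W.baseChange L).toAffine.negY (algebraMap F L x) y := by
    intro hy
    have := psi_eq_zero_of_negY (W.baseChange L).toAffine h.1 hy
    rw [hmapD] at hmapD0
    exact hmapD0 this
  have hadd := addX_self_mul (W.baseChange L).toAffine h.1 hy
  have hX : (W.baseChange L).toAffine.addX (algebraMap F L x) (algebraMap F L x)
      ((W.baseChange L).toAffine.slope (algebraMap F L x) (algebraMap F L x) y y)
      = algebraMap F L (Nn / D) := by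
    rw [map_div₀, eq_div_iff hmapD0, hmapD, hmapN]
    exact hadd
  have hV : V x < V (Nn / D) := by
    rw [map_div₀, hnum, hden]
    exact hlt
  have key : ∀ X' : L, (W.baseChange L).toAffine.addX (algebraMap F L x) (algebraMap F L x)
      ((W.baseChange L).toAffine.slope (algebraMap F L x) (algebraMap F L x) y y) = X' →
      ∃ (y' : L) (h' : (W.baseChange L).toAffine.Nonsingular X' y'),
      (WeierstrassCurve.Affine.Point.some _ _ h + WeierstrassCurve.Affine.Point.some _ _ h :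
        (W.baseChange L).toAffine.Point) = WeierstrassCurve.Affine.Point.some _ _ h' := by
    rintro X' rfl
    exact ⟨_, _, WeierstrassCurve.Affine.Point.add_self_of_Y_ne hy⟩
  obtain ⟨y', h', hh⟩ := key _ hX
  exact ⟨Nn / D, y', h', hV, hh⟩

theorem nt_of_valuation {F : Type u} [Field F] [NumberField F] (W : WeierstrassCurve F)
    [W.IsElliptic] (v : HeightOneSpectrum (𝓞 F)) (hv : (2 : 𝓞 F) ∈ v.asIdeal) :
    ∃ c : WithZero (Multiplicative ℤ), ∀ x : F, c < v.valuation F x → NT.{u,u} W x := by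
  have h2 : v.valuation F 2 < 1 := by
    have h := (HeightOneSpectrum.valuation_lt_one_iff_mem (K := F) v 2).2 hv
    have e : (algebraMap (𝓞 F) F) 2 = 2 := map_ofNat (algebraMap (𝓞 F) F) 2
    have h' : v.valuation F ((algebraMap (𝓞 F) F) 2) < 1 := h
    rw [e] at h'
    exact h'
  obtain ⟨c, hc1, hc⟩ := val_double (v.valuation F) h2 two_ne_zero W.b₂ W.b₄ W.b₆ W.b₈
  refine ⟨c, fun x hx => ?_⟩
  intro L _ _ _ y h n hn hnP
  set P : (W.baseChange L).toAffine.Point := WeierstrassCurve.Affine.Point.some _ _ h with hP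
  have hfin : IsOfFinAddOrder P :=
    isOfFinAddOrder_iff_nsmul_eq_zero.2 ⟨n, Nat.pos_of_ne_zero hn, hnP⟩
  have hfinite : Finite (AddSubgroup.zmultiples P) := finite_zmultiples.2 hfin
  let A := {x : F // c < v.valuation F x ∧ ∃ (y : L)
    (h : (W.baseChange L).toAffine.Nonsingular (algebraMap F L x) y),
    (WeierstrassCurve.Affine.Point.some _ _ h : (W.baseChange L).toAffine.Point)
      ∈ AddSubgroup.zmultiples P}
  have hA : Finite A := by
    choose y h hm using fun a : A => a.2.2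
    refine Finite.of_injective (β := AddSubgroup.zmultiples P) (fun a => ⟨_, hm a⟩) ?_
    intro a b hab
    have h1 := congrArg Subtype.val hab
    simp only [WeierstrassCurve.Affine.Point.some.injEq] at h1
    exact Subtype.ext ((algebraMap F L).injective h1.1)
  have hstep : ∀ a : A, ∃ b : A, v.valuation F a.1 < v.valuation F b.1 := by
    rintro ⟨x, hx, y, h, hm⟩
    obtain ⟨x', y', h', hlt, hadd⟩ := double_step (v.valuation F) two_ne_zero W c hc1 hc x y h hx
    exact ⟨⟨x', hx.trans hlt, y', h', hadd ▸ AddSubgroup.add_mem _ hm hm⟩, hlt⟩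
  choose f hf using hstep
  let a₀ : A := ⟨x, hx, y, h, AddSubgroup.mem_zmultiples P⟩
  have hmono : StrictMono fun k : ℕ => v.valuation F (f^[k] a₀).1 := by
    refine strictMono_nat_of_lt_succ fun k => ?_
    rw [Function.iterate_succ_apply']
    exact hf _
  have hinj : Function.Injective fun k : ℕ => f^[k] a₀ := by
    intro i j hij
    exact hmono.injective (congrArg (fun a : A => v.valuation F a.1) hij)
  exact not_injective_infinite_finite _ hinj

end Pool.Agent.Lib.MP_1a91b9_nt
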