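import Pool.Agent.Lib.MP_1a91b9_nt.Defs

/-!
# Only finitely many primes ramify
-/

set_option autoImplicit false

namespace Pool.Agent.Lib.MP_1a91b9_nt

open IsDedekindDomain NumberField Polynomial IntermediateField

universe u

variable {F M : Type u} [Field F] [NumberField F] [Field M] [NumberField M] [Algebra F M]
  [IsGalois F M]

variable (F M) in
theorem finite_ramified : {v : HeightOneSpectrum (𝓞 F) |
    Ideal.ramificationIdxIn v.asIdeal (𝓞 M) ≠ 1}.Finite := by
  classical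
  have hD : differentIdeal (𝓞 F) (𝓞 M) ≠ ⊥ := differentIdeal_ne_bot
  have hfin : {P : Ideal (𝓞 M) | P ∣ differentIdeal (𝓞 F) (𝓞 M)}.Finite := by
    have h := UniqueFactorizationMonoid.fintypeSubtypeDvd (differentIdeal (𝓞 F) (𝓞 M)) hD
    exact @Set.toFinite _ _ h.finite
  refine Set.Finite.of_finite_image (f := fun v => v.asIdeal) ?_
    (fun v _ w _ h => HeightOneSpectrum.ext h)
  refine (hfin.image fun P => P.under (𝓞 F)).subset ?_
  rintro _ ⟨v, hv, rfl⟩
  have hv' : Ideal.ramificationIdxIn v.asIdeal (𝓞 M) ≠ 1 := hv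
  have hex : ∃ P : Ideal (𝓞 M), P.IsPrime ∧ P.LiesOver v.asIdeal := by
    obtain ⟨P, h1, h2⟩ := Ideal.nonempty_primesOver (S := 𝓞 M) v.asIdeal
    exact ⟨P, h1, h2⟩
  rw [Ideal.ramificationIdxIn, dif_pos hex] at hv'
  obtain ⟨h1, h2⟩ := hex.choose_spec
  refine ⟨hex.choose, ?_, h2.over.symm⟩
  show hex.choose ∣ differentIdeal (𝓞 F) (𝓞 M)
  rw [dvd_differentIdeal_iff]
  intro hun
  exact hv' (Ideal.ramificationIdx_eq_one _ _)

end Pool.Agent.Lib.MP_1a91b9_nt
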