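import Pool.Agent.Lib.MP_1a91b9_nt.RankRel

/-!
# JOB SPLITTING: Frobenius counting of primes in fixed fields
-/

set_option autoImplicit false

namespace Pool.Agent.Lib.MP_1a91b9_nt

open IsDedekindDomain NumberField Polynomial IntermediateField
open scoped Pointwise

universe u

theorem pow_smul_eq_iff_card_dvd {Γ X : Type*} [Group Γ] [Finite Γ] [MulAction Γ X] (ψ : Γ)
    (x : X) (j : ℕ) :
    ψ ^ j • x = x ↔ (MulAction.stabilizer (Subgroup.zpowers ψ) x).index ∣ j := by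
  have : Finite (MulAction.orbit (Subgroup.zpowers ψ) x) := (Set.finite_range _).to_subtype
  let _ : Fintype (MulAction.orbit (Subgroup.zpowers ψ) x) := Fintype.ofFinite _
  rw [MulAction.index_stabilizer, MulAction.pow_smul_eq_iff_minimalPeriod_dvd,
    MulAction.minimalPeriod_eq_card, Fintype.card_eq_nat_card]
  rfl

theorem pow_mem_iff_relIndex_dvd {Γ : Type*} [Group Γ] [Finite Γ] (H : Subgroup Γ) (ψ : Γ)
    (j : ℕ) : ψ ^ j ∈ H ↔ H.relIndex (Subgroup.zpowers ψ) ∣ j := by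
  have h1 : ψ ^ j ∈ H ↔ ψ ^ j • ((1 : Γ) : Γ ⧸ H) = ((1 : Γ) : Γ ⧸ H) := by
    change _ ↔ ((ψ ^ j * 1 : Γ) : Γ ⧸ H) = ((1 : Γ) : Γ ⧸ H)
    rw [mul_one, eq_comm, QuotientGroup.eq, inv_one, one_mul]
  have h3 : H.subgroupOf (Subgroup.zpowers ψ) =
      MulAction.stabilizer (Subgroup.zpowers ψ) ((1 : Γ) : Γ ⧸ H) := by
    ext x
    rw [Subgroup.mem_subgroupOf, MulAction.mem_stabilizer_iff]
    change _ ↔ (((x : Γ) * 1 : Γ) : Γ ⧸ H) = ((1 : Γ) : Γ ⧸ H)
    rw [mul_one, eq_comm, QuotientGroup.eq, inv_one, one_mul]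
  rw [h1, pow_smul_eq_iff_card_dvd, Subgroup.relIndex, h3]
  exact Iff.rfl

theorem card_filter_smul {G X : Type*} [Group G] [Finite G] [MulAction G X] (q : X)
    (P : X → Prop) :
    Nat.card {x : G // P (x⁻¹ • q)} =
      Nat.card {Q : MulAction.orbit G q // P Q.1} * Nat.card (MulAction.stabilizer G q) := by
  rw [← Nat.card_prod]
  have e1 : {x : G // P (x⁻¹ • q)} ≃ {x : G // P (x • q)} :=
    Equiv.subtypeEquiv (Equiv.inv G) fun x => Iff.rfl
  have e2 : {x : G // P (x • q)} ≃ {y : (G ⧸ MulAction.stabilizer G q) ×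
      MulAction.stabilizer G q // P ((MulAction.orbitEquivQuotientStabilizer G q).symm y.1).1} := by
    refine Equiv.subtypeEquiv (Subgroup.groupEquivQuotientProdSubgroup
      (s := MulAction.stabilizer G q)) fun x => ?_
    have h : (Subgroup.groupEquivQuotientProdSubgroup (s := MulAction.stabilizer G q) x).1 =
      (x : G ⧸ MulAction.stabilizer G q) := rfl
    rw [h, MulAction.orbitEquivQuotientStabilizer_symm_apply]
  have e3 : {y : (G ⧸ MulAction.stabilizer G q) × MulAction.stabilizer G q //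
      P ((MulAction.orbitEquivQuotientStabilizer G q).symm y.1).1} ≃
      {y : G ⧸ MulAction.stabilizer G q //
        P ((MulAction.orbitEquivQuotientStabilizer G q).symm y).1} ×
        MulAction.stabilizer G q :=
    Equiv.prodSubtypeFstEquivSubtypeProd
      (p := fun y : G ⧸ MulAction.stabilizer G q =>
        P ((MulAction.orbitEquivQuotientStabilizer G q).symm y).1)
  have e4 : {y : G ⧸ MulAction.stabilizer G q //
      P ((MulAction.orbitEquivQuotientStabilizer G q).symm y).1} ≃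
      {Q : MulAction.orbit G q // P Q.1} :=
    Equiv.subtypeEquiv (MulAction.orbitEquivQuotientStabilizer G q).symm fun x => Iff.rfl
  exact Nat.card_congr (e1.trans (e2.trans (e3.trans (Equiv.prodCongrLeft fun _ => e4))))

section
variable {F M : Type u} [Field F] [NumberField F] [Field M] [NumberField M] [Algebra F M]
  [IsGalois F M]

/-- residue fields are perfect -/
theorem perfect_residue {K : Type*} [Field K] [NumberField K] (p : Ideal (𝓞 K)) [p.IsPrime]
    (hp : p ≠ ⊥) : PerfectField p.ResidueField := by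
  have hm : p.IsMaximal := Ideal.IsPrime.isMaximal inferInstance hp
  have h1 : Finite (𝓞 K ⧸ p) := Ideal.finiteQuotientOfFreeOfNeBot p hp
  have h2 : Function.Surjective (algebraMap (𝓞 K ⧸ p) p.ResidueField) := by
    exact (Ideal.bijective_algebraMap_quotient_residueField p).surjective
  have h3 : Finite p.ResidueField := Finite.of_surjective _ h2
  infer_instance

theorem card_stab (v : HeightOneSpectrum (𝓞 F))
    (hunr : Ideal.ramificationIdxIn v.asIdeal (𝓞 M) = 1) (Q : Ideal (𝓞 M)) [Q.IsPrime]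
    [Q.LiesOver v.asIdeal] :
    Nat.card (MulAction.stabilizer Gal(M/F) Q) = Q.inertiaDeg (𝓞 F) := by
  have := perfect_residue v.asIdeal v.ne_bot
  rw [Ideal.card_stabilizer_eq v.asIdeal, hunr, one_mul,
    Ideal.inertiaDegIn_eq_inertiaDeg v.asIdeal Q Gal(M/F)]

theorem unr_top (v : HeightOneSpectrum (𝓞 F))
    (hunr : Ideal.ramificationIdxIn v.asIdeal (𝓞 M) = 1) (H : Subgroup Gal(M/F))
    (Q : Ideal (𝓞 M)) [Q.IsPrime] [Q.LiesOver v.asIdeal] :
    Q.ramificationIdx (𝓞 (fixedField H)) = 1 := by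
  have h1 : Q.ramificationIdx (𝓞 F) = 1 := by
    rw [← hunr, Ideal.ramificationIdxIn_eq_ramificationIdx v.asIdeal Q Gal(M/F)]
  have h2 := Ideal.ramificationIdx_tower (R := 𝓞 F) (Q.under (𝓞 (fixedField H))) Q
  rw [h1] at h2
  exact Nat.eq_one_of_mul_eq_one_left h2.symm

theorem under_ne_bot (v : HeightOneSpectrum (𝓞 F)) {B : Type*} [CommRing B]
    [Algebra (𝓞 F) B] [FaithfulSMul (𝓞 F) B] (w : Ideal B) (hw : w.under (𝓞 F) = v.asIdeal) :
    w ≠ ⊥ := by
  rintro rfl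
  apply v.ne_bot
  rw [← hw, Ideal.under_def, Ideal.comap_bot_of_injective]
  exact FaithfulSMul.algebraMap_injective _ _

theorem card_stab_sub (v : HeightOneSpectrum (𝓞 F))
    (hunr : Ideal.ramificationIdxIn v.asIdeal (𝓞 M) = 1) (H : Subgroup Gal(M/F))
    (Q : Ideal (𝓞 M)) [Q.IsPrime] [Q.LiesOver v.asIdeal] :
    Nat.card (H ⊓ MulAction.stabilizer Gal(M/F) Q : Subgroup Gal(M/F)) =
      Q.inertiaDeg (𝓞 (fixedField H)) := by
  have : IsGaloisGroup H (fixedField H) M := IsGaloisGroup.subgroup Gal(M/F) F M H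
  have : IsGaloisGroup H (𝓞 (fixedField H)) (𝓞 M) :=
    IsGaloisGroup.of_isFractionRing H (𝓞 (fixedField H)) (𝓞 M) (fixedField H) M
  have hw : Q.under (𝓞 (fixedField H)) ≠ ⊥ := by
    refine under_ne_bot v _ ?_
    rw [Ideal.under_under, ← Q.over_def v.asIdeal]
  have := perfect_residue (Q.under (𝓞 (fixedField H))) hw
  have key := Ideal.card_stabilizer_eq (G := H) (Q.under (𝓞 (fixedField H))) Q
  rw [Ideal.ramificationIdxIn_eq_ramificationIdx (Q.under (𝓞 (fixedField H))) Q H,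
    unr_top v hunr H Q, one_mul,
    Ideal.inertiaDegIn_eq_inertiaDeg (Q.under (𝓞 (fixedField H))) Q H] at key
  rw [← key]
  refine Nat.card_congr ⟨fun x => ⟨⟨x.1, x.2.1⟩, x.2.2⟩, fun x => ⟨x.1.1, x.1.2, x.2⟩,
    fun x => rfl, fun x => rfl⟩

theorem relIndex_stab (v : HeightOneSpectrum (𝓞 F))
    (hunr : Ideal.ramificationIdxIn v.asIdeal (𝓞 M) = 1) (H : Subgroup Gal(M/F))
    (Q : Ideal (𝓞 M)) [Q.IsPrime] [Q.LiesOver v.asIdeal] :
    H.relIndex (MulAction.stabilizer Gal(M/F) Q) =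
      (Q.under (𝓞 (fixedField H))).inertiaDeg (𝓞 F) := by
  have h1 := card_stab v hunr Q
  have h2 := card_stab_sub v hunr H Q
  have h3 := Ideal.inertiaDeg_tower (R := 𝓞 F) (Q.under (𝓞 (fixedField H))) Q
  have h4 : H.relIndex (MulAction.stabilizer Gal(M/F) Q) *
      Nat.card (H ⊓ MulAction.stabilizer Gal(M/F) Q : Subgroup Gal(M/F)) =
      Nat.card (MulAction.stabilizer Gal(M/F) Q) := by
    have := Subgroup.card_mul_index (H.subgroupOf (MulAction.stabilizer Gal(M/F) Q))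
    rw [mul_comm] at this
    rw [Subgroup.relIndex, ← this]
    congr 1
    rw [← Subgroup.inf_subgroupOf_right]
    exact (Nat.card_congr (Subgroup.subgroupOfEquivOfLe inf_le_right).toEquiv).symm
  rw [h1, h2, h3] at h4
  have h5 : Q.inertiaDeg (𝓞 (fixedField H)) ≠ 0 := (Ideal.inertiaDeg_pos Q _).ne'
  exact Nat.eq_of_mul_eq_mul_right (Nat.pos_of_ne_zero h5) h4

theorem cyclic_stab (v : HeightOneSpectrum (𝓞 F))
    (hunr : Ideal.ramificationIdxIn v.asIdeal (𝓞 M) = 1)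
    (Q : Ideal (𝓞 M)) [Q.IsPrime] [Q.LiesOver v.asIdeal] :
    ∃ φ : Gal(M/F), MulAction.stabilizer Gal(M/F) Q = Subgroup.zpowers φ := by
  have := perfect_residue v.asIdeal v.ne_bot
  have h1 := Ideal.card_inertia_eq_ramificationIdxIn (G := Gal(M/F)) v.asIdeal Q
  rw [hunr] at h1
  have h2 : Q.inertia Gal(M/F) = ⊥ := Subgroup.card_eq_one.mp h1
  have hQ : Q ≠ ⊥ := under_ne_bot v Q (Q.over_def v.asIdeal).symm
  have hm : Q.IsMaximal := Ideal.IsPrime.isMaximal inferInstance hQ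
  have hfin : Finite (𝓞 M ⧸ Q) := Ideal.finiteQuotientOfFreeOfNeBot Q hQ
  have hcyc : IsCyclic (MulAction.stabilizer Gal(M/F) Q) := by
    have hinj : Function.Injective (Ideal.Quotient.stabilizerHom Q v.asIdeal Gal(M/F)) := by
      rw [← MonoidHom.ker_eq_bot_iff, Ideal.Quotient.ker_stabilizerHom]
      change (Q.inertia Gal(M/F)).subgroupOf _ = ⊥
      rw [h2]
      exact Subgroup.bot_subgroupOf _
    let _ : Field (𝓞 M ⧸ Q) := Ideal.Quotient.field Q
    let _ : Field (𝓞 F ⧸ v.asIdeal) := Ideal.Quotient.field v.asIdeal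
    have : IsCyclic Gal((𝓞 M ⧸ Q)/(𝓞 F ⧸ v.asIdeal)) := inferInstance
    exact isCyclic_of_injective _ hinj
  obtain ⟨g, hg⟩ := hcyc.exists_generator
  refine ⟨g, le_antisymm ?_ ?_⟩
  · intro x hx
    obtain ⟨k, hk⟩ := Subgroup.mem_zpowers_iff.mp (hg ⟨x, hx⟩)
    refine Subgroup.mem_zpowers_iff.mpr ⟨k, ?_⟩
    rw [← Subgroup.coe_zpow, hk]
  · rw [Subgroup.zpowers_le]
    exact g.2

theorem mem_conj_iff (v : HeightOneSpectrum (𝓞 F))
    (hunr : Ideal.ramificationIdxIn v.asIdeal (𝓞 M) = 1) (H : Subgroup Gal(M/F))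
    (Q₀ : Ideal (𝓞 M)) [Q₀.IsPrime] [Q₀.LiesOver v.asIdeal] (φ : Gal(M/F))
    (hφ : MulAction.stabilizer Gal(M/F) Q₀ = Subgroup.zpowers φ) (j : ℕ) (x : Gal(M/F)) :
    x⁻¹ * φ ^ j * x ∈ H ↔
      ((x⁻¹ • Q₀).under (𝓞 (fixedField H))).inertiaDeg (𝓞 F) ∣ j := by
  rw [← relIndex_stab v hunr H (x⁻¹ • Q₀)]
  have h1 : x⁻¹ * φ ^ j * x = (x⁻¹ * φ * x) ^ j := by
    have := conj_pow (i := j) (a := x⁻¹) (b := φ)
    rw [inv_inv] at this
    exact this.symm
  have h2 : MulAction.stabilizer Gal(M/F) (x⁻¹ • Q₀) = Subgroup.zpowers (x⁻¹ * φ * x) := by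
    rw [MulAction.stabilizer_smul_eq_stabilizer_map_conj, hφ, MonoidHom.map_zpowers]
    congr 1
  rw [h1, h2, pow_mem_iff_relIndex_dvd]

/-- The prime of the fixed field below a prime of `M`. -/
noncomputable def belowH (v : HeightOneSpectrum (𝓞 F)) (H : Subgroup Gal(M/F))
    (Q : v.asIdeal.primesOver (𝓞 M)) :
    {w : HeightOneSpectrum (𝓞 (fixedField H)) // w.asIdeal.under (𝓞 F) = v.asIdeal} :=
  have h : (Q.1.under (𝓞 (fixedField H))).under (𝓞 F) = v.asIdeal := by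
    rw [Ideal.under_under]
    exact Q.2.2.over.symm
  ⟨⟨Q.1.under (𝓞 (fixedField H)), Q.2.1.under _, under_ne_bot v _ h⟩, h⟩

theorem card_fibre (v : HeightOneSpectrum (𝓞 F))
    (hunr : Ideal.ramificationIdxIn v.asIdeal (𝓞 M) = 1) (H : Subgroup Gal(M/F))
    (Q₀ : Ideal (𝓞 M)) [Q₀.IsPrime] [Q₀.LiesOver v.asIdeal]
    (w : {w : HeightOneSpectrum (𝓞 (fixedField H)) // w.asIdeal.under (𝓞 F) = v.asIdeal}) :
    Nat.card {Q : v.asIdeal.primesOver (𝓞 M) // belowH v H Q = w} *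
      Nat.card (MulAction.stabilizer Gal(M/F) Q₀) = w.1.asIdeal.inertiaDeg (𝓞 F) * Nat.card H := by
  have i1 : IsGaloisGroup H (fixedField H) M := IsGaloisGroup.subgroup Gal(M/F) F M H
  have i2 : IsGaloisGroup H (𝓞 (fixedField H)) (𝓞 M) :=
    IsGaloisGroup.of_isFractionRing H (𝓞 (fixedField H)) (𝓞 M) (fixedField H) M
  have i3 : w.1.asIdeal.IsPrime := w.1.isPrime
  obtain ⟨Q, hQ1, hQ2⟩ := (inferInstance : Nonempty (w.1.asIdeal.primesOver (𝓞 M)))
  have hQv : Q.LiesOver v.asIdeal := by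
    refine ⟨?_⟩
    rw [← w.2, hQ2.over, Ideal.under_under]
  have e : Nat.card {Q : v.asIdeal.primesOver (𝓞 M) // belowH v H Q = w} =
      (w.1.asIdeal.primesOver (𝓞 M)).ncard := by
    rw [← Nat.card_coe_set_eq]
    refine Nat.card_congr ⟨fun Q' => ⟨Q'.1.1, Q'.1.2.1, ⟨?_⟩⟩, fun Q' => ⟨⟨Q'.1, Q'.2.1, ⟨?_⟩⟩, ?_⟩,
      fun _ => rfl, fun _ => rfl⟩
    · have := congrArg (fun z => z.1.asIdeal) Q'.2
      exact this.symm
    · exact w.2.symm.trans ((congrArg (Ideal.under (𝓞 F)) Q'.2.2.over).trans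
        (Ideal.under_under _))
    · apply Subtype.ext
      apply HeightOneSpectrum.ext
      exact Q'.2.2.over.symm
  have h1 := Ideal.ncard_primesOver_mul_ramificationIdxIn_mul_inertiaDegIn w.1.asIdeal (𝓞 M) H
  have h2 : w.1.asIdeal = Q.under (𝓞 (fixedField H)) := hQ2.over
  rw [Ideal.ramificationIdxIn_eq_ramificationIdx w.1.asIdeal Q H,
    unr_top v hunr H Q, one_mul, Ideal.inertiaDegIn_eq_inertiaDeg w.1.asIdeal Q H] at h1
  have h3 := card_stab v hunr Q₀
  have h4 : Q₀.inertiaDeg (𝓞 F) = Q.inertiaDeg (𝓞 F) :=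
    Ideal.inertiaDeg_eq_of_isGaloisGroup v.asIdeal Q₀ Q Gal(M/F)
  have h5 := Ideal.inertiaDeg_tower (R := 𝓞 F) w.1.asIdeal Q
  rw [e, h3, h4, h5, ← h1]
  ring

theorem finite_over (v : HeightOneSpectrum (𝓞 F)) (K : Type*) [Field K] [NumberField K]
    [Algebra F K] :
    Finite {w : HeightOneSpectrum (𝓞 K) // w.asIdeal.under (𝓞 F) = v.asIdeal} := by
  have h : Finite (v.asIdeal.primesOver (𝓞 K)) := inferInstance
  refine Finite.of_injective (β := v.asIdeal.primesOver (𝓞 K))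
    (fun w => ⟨w.1.asIdeal, w.1.isPrime, ⟨w.2.symm⟩⟩) ?_
  intro w w' h
  apply Subtype.ext
  apply HeightOneSpectrum.ext
  exact congrArg (fun z => z.1) h

theorem fixNum_eq_sum (v : HeightOneSpectrum (𝓞 F))
    (hunr : Ideal.ramificationIdxIn v.asIdeal (𝓞 M) = 1) (H : Subgroup Gal(M/F))
    (Q₀ : Ideal (𝓞 M)) [Q₀.IsPrime] [Q₀.LiesOver v.asIdeal] (φ : Gal(M/F))
    (hφ : MulAction.stabilizer Gal(M/F) Q₀ = Subgroup.zpowers φ) (j : ℕ) (hj : j ≠ 0) :
    fixNum H (φ ^ j) = ∑ d ∈ j.divisors, d * Nat.card {w : HeightOneSpectrum (𝓞 (fixedField H)) //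
      w.asIdeal.under (𝓞 F) = v.asIdeal ∧ w.asIdeal.inertiaDeg (𝓞 F) = d} := by
  classical
  have hfin := finite_over v (fixedField H)
  have hfinX : Finite (v.asIdeal.primesOver (𝓞 M)) := inferInstance
  let W := {w : HeightOneSpectrum (𝓞 (fixedField H)) // w.asIdeal.under (𝓞 F) = v.asIdeal}
  let _ : Fintype W := Fintype.ofFinite W
  let _ : Fintype (v.asIdeal.primesOver (𝓞 M)) := Fintype.ofFinite _
  have hH : Nat.card H ≠ 0 := Nat.card_pos.ne'
  have horb : MulAction.orbit Gal(M/F) Q₀ = v.asIdeal.primesOver (𝓞 M) :=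
    Algebra.IsInvariant.orbit_eq_primesOver (𝓞 F) (𝓞 M) Gal(M/F) v.asIdeal Q₀
  have h1 := fixNum_mul_card H (φ ^ j)
  have h2 : Nat.card {x : Gal(M/F) // x⁻¹ * φ ^ j * x ∈ H} =
      Nat.card {Q : v.asIdeal.primesOver (𝓞 M) //
        (belowH v H Q).1.asIdeal.inertiaDeg (𝓞 F) ∣ j} *
        Nat.card (MulAction.stabilizer Gal(M/F) Q₀) := by
    have h3 : {x : Gal(M/F) // x⁻¹ * φ ^ j * x ∈ H} ≃ {x : Gal(M/F) //
        ((x⁻¹ • Q₀).under (𝓞 (fixedField H))).inertiaDeg (𝓞 F) ∣ j} :=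
      Equiv.subtypeEquivRight fun x => mem_conj_iff v hunr H Q₀ φ hφ j x
    rw [Nat.card_congr h3, card_filter_smul Q₀
      (fun Q => (Q.under (𝓞 (fixedField H))).inertiaDeg (𝓞 F) ∣ j), horb]
    rfl
  have h4 : Nat.card {Q : v.asIdeal.primesOver (𝓞 M) //
        (belowH v H Q).1.asIdeal.inertiaDeg (𝓞 F) ∣ j} =
      ∑ w : W, if w.1.asIdeal.inertiaDeg (𝓞 F) ∣ j then
        Nat.card {Q : v.asIdeal.primesOver (𝓞 M) // belowH v H Q = w} else 0 := by
    rw [Nat.card_eq_fintype_card, Fintype.card_subtype,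
      Finset.card_eq_sum_card_fiberwise (f := belowH v H) (t := Finset.univ)
        (fun _ _ => Finset.mem_coe.mpr (Finset.mem_univ _))]
    refine Finset.sum_congr rfl fun w _ => ?_
    split_ifs with hw
    · rw [Nat.card_eq_fintype_card, Fintype.card_subtype]
      congr 1
      ext Q
      simp only [Finset.mem_filter, Finset.mem_univ, true_and]
      constructor
      · exact fun h => h.2
      · rintro rfl
        exact ⟨hw, rfl⟩
    · rw [Finset.card_eq_zero, Finset.filter_eq_empty_iff]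
      rintro Q hQ rfl
      simp only [Finset.mem_filter, Finset.mem_univ, true_and] at hQ
      exact hw hQ
  have h5 : fixNum H (φ ^ j) =
      ∑ w : W, if w.1.asIdeal.inertiaDeg (𝓞 F) ∣ j then w.1.asIdeal.inertiaDeg (𝓞 F) else 0 := by
    apply Nat.eq_of_mul_eq_mul_right (Nat.pos_of_ne_zero hH)
    rw [h1, h2, h4, Finset.sum_mul, Finset.sum_mul]
    refine Finset.sum_congr rfl fun w _ => ?_
    split_ifs with hw
    · exact card_fibre v hunr H Q₀ w
    · rw [zero_mul, zero_mul]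
  rw [h5, ← Finset.sum_filter, ← Finset.sum_fiberwise_of_maps_to
    (t := j.divisors) (g := fun w : W => w.1.asIdeal.inertiaDeg (𝓞 F))]
  · refine Finset.sum_congr rfl fun d hd => ?_
    rw [Finset.sum_congr rfl (g := fun _ => d) fun w hw => (Finset.mem_filter.mp hw).2,
      Finset.sum_const, smul_eq_mul, mul_comm]
    congr 1
    have e : {w : HeightOneSpectrum (𝓞 (fixedField H)) //
        w.asIdeal.under (𝓞 F) = v.asIdeal ∧ w.asIdeal.inertiaDeg (𝓞 F) = d} ≃
        {w : W // w.1.asIdeal.inertiaDeg (𝓞 F) = d} :=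
      ⟨fun w => ⟨⟨w.1, w.2.1⟩, w.2.2⟩, fun w => ⟨w.1.1, w.1.2, w.2⟩, fun _ => rfl, fun _ => rfl⟩
    rw [Nat.card_congr e, Nat.card_eq_fintype_card, Fintype.card_subtype]
    congr 1
    ext w
    simp only [Finset.mem_filter, Finset.mem_univ, true_and]
    constructor
    · exact fun h => h.2
    · rintro rfl
      exact ⟨Nat.dvd_of_mem_divisors hd, rfl⟩
  · intro w hw
    exact Nat.mem_divisors.mpr ⟨(Finset.mem_filter.mp hw).2, hj⟩

theorem sum_card_primes (v : HeightOneSpectrum (𝓞 F))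
    (hunr : Ideal.ramificationIdxIn v.asIdeal (𝓞 M) = 1)
    (n : Subgroup Gal(M/F) → ℤ) (m : ℤ) (hrel : ∀ g : Gal(M/F), ∑ H, n H * fixNum H g = m)
    (f : ℕ) :
    ∑ H : Subgroup Gal(M/F), n H * (Nat.card {w : HeightOneSpectrum (𝓞 (fixedField H)) //
      w.asIdeal.under (𝓞 F) = v.asIdeal ∧ w.asIdeal.inertiaDeg (𝓞 F) = f} : ℤ)
      = if f = 1 then m else 0 := by
  have i0 : v.asIdeal.IsPrime := v.isPrime
  obtain ⟨Q₀, hQ1, hQ2⟩ := (inferInstance : Nonempty (v.asIdeal.primesOver (𝓞 M)))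
  obtain ⟨φ, hφ⟩ := cyclic_stab v hunr Q₀
  set C : ℕ → ℤ := fun d => ∑ H : Subgroup Gal(M/F),
    n H * (Nat.card {w : HeightOneSpectrum (𝓞 (fixedField H)) //
      w.asIdeal.under (𝓞 F) = v.asIdeal ∧ w.asIdeal.inertiaDeg (𝓞 F) = d} : ℤ) with hC
  have key : ∀ j : ℕ, j ≠ 0 → ∑ d ∈ j.divisors, (d : ℤ) * C d = m := by
    intro j hj
    rw [← hrel (φ ^ j)]
    simp only [hC, Finset.mul_sum]
    rw [Finset.sum_comm]
    refine Finset.sum_congr rfl fun H _ => ?_
    rw [fixNum_eq_sum v hunr H Q₀ φ hφ j hj]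
    push_cast
    rw [Finset.mul_sum]
    refine Finset.sum_congr rfl fun d _ => ?_
    ring
  have h1 : C 1 = m := by
    have := key 1 one_ne_zero
    simpa using this
  have h0 : ∀ f : ℕ, 1 < f → C f = 0 := by
    intro f
    induction f using Nat.strong_induction_on with
    | _ f ih =>
      intro hf
      have hf0 : f ≠ 0 := by omega
      have h2 := key f hf0
      rw [← Nat.cons_self_properDivisors hf0, Finset.sum_cons,
        ← Finset.sum_erase_add _ _ (a := 1) (by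
          rw [Nat.mem_properDivisors]; exact ⟨one_dvd _, hf⟩)] at h2
      rw [Finset.sum_eq_zero, Nat.cast_one, one_mul, h1, zero_add] at h2
      · have h3 : (f : ℤ) * C f = 0 := by linarith
        rcases mul_eq_zero.mp h3 with h4 | h4
        · exact absurd (by exact_mod_cast h4) hf0
        · exact h4
      · intro d hd
        rw [Finset.mem_erase, Nat.mem_properDivisors] at hd
        have hd0 : d ≠ 0 := by
          rintro rfl
          exact hf0 (Nat.eq_zero_of_zero_dvd hd.2.1)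
        rw [ih d hd.2.2 (by omega), mul_zero]
  change C f = _
  rcases Nat.lt_trichotomy f 1 with h | h | h
  · have hf0 : f = 0 := by omega
    rw [if_neg (by omega), hf0, hC]
    refine Finset.sum_eq_zero fun H _ => ?_
    have : IsEmpty {w : HeightOneSpectrum (𝓞 (fixedField H)) //
      w.asIdeal.under (𝓞 F) = v.asIdeal ∧ w.asIdeal.inertiaDeg (𝓞 F) = 0} := by
      refine ⟨fun w => ?_⟩
      have := w.1.isPrime
      exact (Ideal.inertiaDeg_pos w.1.asIdeal (𝓞 F)).ne' w.2.2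
    rw [Nat.card_of_isEmpty, Nat.cast_zero, mul_zero]
  · rw [if_pos h, h, h1]
  · rw [if_neg (by omega), h0 f h]

end

end Pool.Agent.Lib.MP_1a91b9_nt
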