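import Pool.Agent.Lib.MP_1a91b9_nt.Euler
import Pool.Agent.Lib.MP_1a91b9_nt.LocDep
import Pool.Agent.Lib.MP_1a91b9_nt.Ramified
import Pool.Agent.Lib.MP_1a91b9_nt.Splitting
set_option autoImplicit false
namespace Pool.Agent.Lib.MP_1a91b9_nt
open IsDedekindDomain NumberField Polynomial IntermediateField

universe u

/-! ================= Job PRODUCT ================= -/

/-- functions meromorphic on the plane with order `0` at `1`. -/
def MeroUnit (f : ℂ → ℂ) : Prop := MeromorphicOn f Set.univ ∧ meromorphicOrderAt f 1 = 0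

theorem MeroUnit.mul {f g : ℂ → ℂ} (hf : MeroUnit f) (hg : MeroUnit g) :
    MeroUnit (fun s => f s * g s) := by
  refine ⟨hf.1.fun_mul hg.1, ?_⟩
  rw [fun_meromorphicOrderAt_mul (hf.1 1 trivial) (hg.1 1 trivial), hf.2, hg.2]; simp

theorem MeroUnit.inv {f : ℂ → ℂ} (hf : MeroUnit f) : MeroUnit (fun s => (f s)⁻¹) := by
  refine ⟨hf.1.fun_inv, ?_⟩
  rw [fun_meromorphicOrderAt_inv, hf.2]; simp

theorem MeroUnit.zpow {f : ℂ → ℂ} (hf : MeroUnit f) (n : ℤ) : MeroUnit (fun s => f s ^ n) := by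
  refine ⟨hf.1.fun_zpow n, ?_⟩
  rw [fun_meromorphicOrderAt_zpow (hf.1 1 trivial), hf.2]; simp

theorem MeroUnit.pow {f : ℂ → ℂ} (hf : MeroUnit f) (n : ℕ) : MeroUnit (fun s => f s ^ n) := by
  refine ⟨hf.1.fun_pow n, ?_⟩
  rw [fun_meromorphicOrderAt_pow (hf.1 1 trivial), hf.2]; simp

theorem MeroUnit.prod {ι : Type*} (t : Finset ι) {f : ι → ℂ → ℂ} (hf : ∀ i ∈ t, MeroUnit (f i)) :
    MeroUnit (fun s => ∏ i ∈ t, f i s) := by
  classical
  induction t using Finset.induction_on with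
  | empty =>
    refine ⟨fun z _ => by simp, ?_⟩
    simp [meromorphicOrderAt_const]
  | insert a t ha ih =>
    simp only [Finset.prod_insert ha]
    exact (hf a (Finset.mem_insert_self a t)).mul (ih fun i hi => hf i (Finset.mem_insert_of_mem hi))

theorem pf_prod_zpow_eq {ι : Type*} (t : Finset ι) (a : ℂ) (ha : a ≠ 0) (f : ι → ℤ) :
    ∏ i ∈ t, a ^ f i = a ^ ∑ i ∈ t, f i := by
  classical
  induction t using Finset.induction_on with
  | empty => simp
  | insert b t hb ih => rw [Finset.prod_insert hb, Finset.sum_insert hb, zpow_add₀ ha, ih]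

theorem HasProd.zpow_unc {β : Type*} {f : β → ℂ} {a : ℂ} (h : HasProd f a) (ha : a ≠ 0) (n : ℤ) :
    HasProd (fun i => f i ^ n) (a ^ n) := by
  unfold HasProd at *
  simp_rw [Finset.prod_zpow]
  exact h.zpow₀ n (Or.inl ha)

section
variable {F K : Type*} [Field F] [NumberField F] [Field K] [NumberField K] [Algebra F K]

theorem pf_finite_over (v : HeightOneSpectrum (𝓞 F)) :
    Finite {w : HeightOneSpectrum (𝓞 K) // w.asIdeal.under (𝓞 F) = v.asIdeal} := by
  have : Set.Finite (Ideal.primesOver v.asIdeal (𝓞 K)) := by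
    have : v.asIdeal.IsMaximal := v.isMaximal
    exact IsDedekindDomain.primesOver_finite v.asIdeal (𝓞 K)
  have := this.to_subtype
  refine Finite.of_injective (β := Ideal.primesOver v.asIdeal (𝓞 K))
    (fun w => ⟨w.1.asIdeal, w.1.isPrime, ⟨w.2.symm⟩⟩) ?_
  intro w w' h
  have := congrArg Subtype.val h
  exact Subtype.ext (HeightOneSpectrum.ext this)

/-- the product of the Euler factors over the places above `v`. -/
noncomputable def locProd (W : WeierstrassCurve F) (K : Type*) [Field K] [NumberField K]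
    [Algebra F K] (v : HeightOneSpectrum (𝓞 F)) (s : ℂ) : ℂ :=
  letI : Fintype {w : HeightOneSpectrum (𝓞 K) // w.asIdeal.under (𝓞 F) = v.asIdeal} :=
    @Fintype.ofFinite _ (pf_finite_over v)
  ∏ w : {w : HeightOneSpectrum (𝓞 K) // w.asIdeal.under (𝓞 F) = v.asIdeal},
    fac (W.baseChange K) w.1 s

theorem locProd_meroUnit (W : WeierstrassCurve F) (v : HeightOneSpectrum (𝓞 F)) :
    MeroUnit (locProd W K v) := by
  unfold locProd
  exact MeroUnit.prod _ fun w _ => fac_meromorphic _ _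

theorem locProd_ne_zero (W : WeierstrassCurve F) (v : HeightOneSpectrum (𝓞 F)) {s : ℂ}
    (hs : 2 < s.re) : locProd W K v s ≠ 0 := by
  unfold locProd
  exact Finset.prod_ne_zero_iff.2 fun w _ => fac_ne_zero _ _ hs

theorem hasProd_locProd (W : WeierstrassCurve F) {s : ℂ} (hs : 2 < s.re) :
    HasProd (fun v => locProd W K v s) ((W.baseChange K).LSeries s) := by
  have h := hasProd_fac (W.baseChange K) hs
  let pr : HeightOneSpectrum (𝓞 K) → HeightOneSpectrum (𝓞 F) := fun w => w.under (𝓞 F)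
  have h2 : HasProd (fun x : Σ v : HeightOneSpectrum (𝓞 F), {w // pr w = v} =>
      fac (W.baseChange K) x.2.1 s) ((W.baseChange K).LSeries s) := by
    rw [← (Equiv.sigmaFiberEquiv pr).symm.hasProd_iff]
    exact h
  refine h2.sigma fun v => ?_
  let e : {w : HeightOneSpectrum (𝓞 K) // w.asIdeal.under (𝓞 F) = v.asIdeal} ≃ {w // pr w = v} :=
    Equiv.subtypeEquivRight fun w =>
      ⟨fun h => HeightOneSpectrum.ext h, fun h => congrArg HeightOneSpectrum.asIdeal h⟩
  rw [← e.hasProd_iff]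
  have := @Fintype.ofFinite _ (pf_finite_over (K := K) v)
  unfold locProd
  convert hasProd_fintype _
  rfl
end

section
variable {F M : Type u} [Field F] [NumberField F] [Field M] [NumberField M] [Algebra F M]
  [IsGalois F M]

omit [NumberField F] in
theorem pf_under_self (v : HeightOneSpectrum (𝓞 F)) : v.asIdeal.under (𝓞 F) = v.asIdeal := by
  simp [Ideal.under]

omit [NumberField F] in
theorem pf_inertiaDeg_self (v : HeightOneSpectrum (𝓞 F)) : v.asIdeal.inertiaDeg (𝓞 F) = 1 := by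
  have : v.asIdeal.LiesOver v.asIdeal := ⟨(pf_under_self v).symm⟩
  have h1 := Ideal.inertiaDeg_tower (R := 𝓞 F) (S := 𝓞 F) (T := 𝓞 F) v.asIdeal v.asIdeal
  have h2 : 0 < v.asIdeal.inertiaDeg (𝓞 F) := Ideal.inertiaDeg_pos v.asIdeal (𝓞 F)
  exact Nat.eq_of_mul_eq_mul_left h2 (by rw [mul_one]; exact h1.symm)

omit [IsGalois F M] in
theorem product_good (W : WeierstrassCurve F) (v : HeightOneSpectrum (𝓞 F))
    (n : Subgroup Gal(M/F) → ℤ) (m : ℕ)
    (hsum : ∀ f : ℕ, ∑ H : Subgroup Gal(M/F), n H *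
      (Nat.card {w : HeightOneSpectrum (𝓞 (fixedField H)) //
      w.asIdeal.under (𝓞 F) = v.asIdeal ∧ w.asIdeal.inertiaDeg (𝓞 F) = f} : ℤ)
      = if f = 1 then (m : ℤ) else 0)
    (hdep : ∀ (K₁ K₂ : Type u) [Field K₁] [NumberField K₁] [Algebra F K₁] [Field K₂]
      [NumberField K₂] [Algebra F K₂] (w₁ : HeightOneSpectrum (𝓞 K₁))
      (w₂ : HeightOneSpectrum (𝓞 K₂)),
      w₁.asIdeal.under (𝓞 F) = v.asIdeal → w₂.asIdeal.under (𝓞 F) = v.asIdeal →
      w₁.asIdeal.inertiaDeg (𝓞 F) = w₂.asIdeal.inertiaDeg (𝓞 F) →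
      nrm w₁ = nrm w₂ ∧ locPoly (W.baseChange K₁) w₁ = locPoly (W.baseChange K₂) w₂)
    {s : ℂ} (hs : 2 < s.re) :
    ∏ H, (locProd W (fixedField H) v s) ^ (n H) = fac W v s ^ m := by
  classical
  -- the common value of the Euler factors with inertia degree `f`
  let P : ℕ → (Σ H : Subgroup Gal(M/F), HeightOneSpectrum (𝓞 (fixedField H))) → Prop := fun f x =>
    x.2.asIdeal.under (𝓞 F) = v.asIdeal ∧ x.2.asIdeal.inertiaDeg (𝓞 F) = f
  let lam : ℕ → ℂ := fun f => if f = 1 then fac W v s else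
    if h : ∃ x, P f x then fac (W.baseChange (fixedField h.choose.1)) h.choose.2 s else 1
  have hlam0 : ∀ f, lam f ≠ 0 := by
    intro f
    simp only [lam]
    split_ifs
    · exact fac_ne_zero _ _ hs
    · exact fac_ne_zero _ _ hs
    · exact one_ne_zero
  have hfac : ∀ (H : Subgroup Gal(M/F)) (w : HeightOneSpectrum (𝓞 (fixedField H))),
      w.asIdeal.under (𝓞 F) = v.asIdeal →
      fac (W.baseChange (fixedField H)) w s = lam (w.asIdeal.inertiaDeg (𝓞 F)) := by
    intro H w hw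
    simp only [lam]
    split_ifs with h1 h2
    · have h3 : v.asIdeal.inertiaDeg (𝓞 F) = 1 := pf_inertiaDeg_self v
      have h4 := hdep (fixedField H) F w v hw (pf_under_self v) (h1.trans h3.symm)
      have h5 : W.baseChange F = W := WeierstrassCurve.map_id W
      rw [h5] at h4
      unfold fac
      rw [h4.1, h4.2]
    · have h3 := h2.choose_spec
      have h4 := hdep (fixedField H) (fixedField h2.choose.1) w h2.choose.2 hw h3.1 h3.2.symm
      unfold fac
      rw [h4.1, h4.2]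
    · exact absurd ⟨⟨H, w⟩, hw, rfl⟩ h2
  have hfin : ∀ H : Subgroup Gal(M/F), Finite {w : HeightOneSpectrum (𝓞 (fixedField H)) //
      w.asIdeal.under (𝓞 F) = v.asIdeal} := fun H => pf_finite_over v
  let T : Finset ℕ := insert 1 (Finset.univ.biUnion fun H : Subgroup Gal(M/F) =>
    letI := @Fintype.ofFinite _ (hfin H)
    Finset.univ.image fun w : {w : HeightOneSpectrum (𝓞 (fixedField H)) //
      w.asIdeal.under (𝓞 F) = v.asIdeal} => w.1.asIdeal.inertiaDeg (𝓞 F))
  have hloc : ∀ H : Subgroup Gal(M/F), locProd W (fixedField H) v s =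
      ∏ f ∈ T, lam f ^ (Nat.card {w : HeightOneSpectrum (𝓞 (fixedField H)) //
        w.asIdeal.under (𝓞 F) = v.asIdeal ∧ w.asIdeal.inertiaDeg (𝓞 F) = f}) := by
    intro H
    let _ := @Fintype.ofFinite _ (hfin H)
    unfold locProd
    rw [← Finset.prod_fiberwise_of_maps_to (t := T)
      (g := fun w : {w : HeightOneSpectrum (𝓞 (fixedField H)) //
        w.asIdeal.under (𝓞 F) = v.asIdeal} => w.1.asIdeal.inertiaDeg (𝓞 F))]
    · refine Finset.prod_congr rfl fun f hf => ?_
      rw [Finset.prod_congr rfl (g := fun _ => lam f), Finset.prod_const]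
      · congr 1
        rw [← Fintype.card_subtype, ← Nat.card_eq_fintype_card]
        exact Nat.card_congr (Equiv.subtypeSubtypeEquivSubtypeInter
          (fun w : HeightOneSpectrum (𝓞 (fixedField H)) => w.asIdeal.under (𝓞 F) = v.asIdeal)
          (fun w => w.asIdeal.inertiaDeg (𝓞 F) = f))
      · intro w hw
        rw [hfac H w.1 w.2, (Finset.mem_filter.1 hw).2]
    · intro w _
      refine Finset.mem_insert_of_mem (Finset.mem_biUnion.2 ⟨H, Finset.mem_univ _, ?_⟩)
      exact Finset.mem_image.2 ⟨w, Finset.mem_univ _, rfl⟩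
  calc ∏ H, (locProd W (fixedField H) v s) ^ (n H)
      = ∏ H : Subgroup Gal(M/F), ∏ f ∈ T, lam f ^ (n H *
        (Nat.card {w : HeightOneSpectrum (𝓞 (fixedField H)) //
        w.asIdeal.under (𝓞 F) = v.asIdeal ∧ w.asIdeal.inertiaDeg (𝓞 F) = f} : ℤ)) := by
        refine Finset.prod_congr rfl fun H _ => ?_
        rw [hloc H, ← Finset.prod_zpow]
        refine Finset.prod_congr rfl fun f _ => ?_
        rw [← zpow_natCast, ← zpow_mul, mul_comm]
    _ = ∏ f ∈ T, lam f ^ (if f = 1 then (m : ℤ) else 0) := by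
        rw [Finset.prod_comm]
        refine Finset.prod_congr rfl fun f _ => ?_
        rw [pf_prod_zpow_eq _ _ (hlam0 f), hsum f]
    _ = fac W v s ^ m := by
        rw [Finset.prod_eq_single 1]
        · simp [lam]
        · intro f _ hf
          simp [hf]
        · intro h
          exact absurd (Finset.mem_insert_self _ _) h

theorem product_formula (W : WeierstrassCurve F) [W.IsElliptic]
    (n : Subgroup Gal(M/F) → ℤ) (m : ℕ) (hrel : ∀ g : Gal(M/F), ∑ H, n H * fixNum H g = m) :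
    ∃ R : ℂ → ℂ, MeromorphicOn R Set.univ ∧ meromorphicOrderAt R 1 = 0 ∧
      (∀ s : ℂ, 2 < s.re → R s ≠ 0) ∧
      ∀ s : ℂ, 2 < s.re → ∏ H, (W.baseChange (fixedField H)).LSeries s ^ (n H)
        = W.LSeries s ^ m * R s := by
  classical
  obtain ⟨S, hS, hdep⟩ := locPoly_dep.{u,u,u} W
  have hfin : (S ∪ {v : HeightOneSpectrum (𝓞 F) |
    Ideal.ramificationIdxIn v.asIdeal (𝓞 M) ≠ 1}).Finite := hS.union (finite_ramified F M)
  let B : Finset (HeightOneSpectrum (𝓞 F)) := hfin.toFinset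
  let r : HeightOneSpectrum (𝓞 F) → ℂ → ℂ := fun v s =>
    (∏ H : Subgroup Gal(M/F), (locProd W (fixedField H) v s) ^ (n H)) * (fac W v s ^ m)⁻¹
  have hr : ∀ v, MeroUnit (r v) := fun v =>
    (MeroUnit.prod _ fun H _ => (locProd_meroUnit W v).zpow _).mul
      (MeroUnit.inv (MeroUnit.pow (fac_meromorphic W v) m))
  have hr0 : ∀ v (s : ℂ), 2 < s.re → r v s ≠ 0 := fun v s hs =>
    mul_ne_zero (Finset.prod_ne_zero_iff.2 fun H _ => zpow_ne_zero _ (locProd_ne_zero W v hs))
      (inv_ne_zero (pow_ne_zero _ (fac_ne_zero W v hs)))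
  refine ⟨fun s => ∏ v ∈ B, r v s, (MeroUnit.prod _ fun v _ => hr v).1,
    (MeroUnit.prod _ fun v _ => hr v).2, fun s hs =>
      Finset.prod_ne_zero_iff.2 fun v _ => hr0 v s hs, ?_⟩
  intro s hs
  have h1 : HasProd (fun v => r v s) ((∏ H : Subgroup Gal(M/F),
      (W.baseChange (fixedField H)).LSeries s ^ (n H)) * (W.LSeries s ^ m)⁻¹) := by
    refine HasProd.mul ?_ ?_
    · refine hasProd_prod fun H _ => ?_
      exact HasProd.zpow_unc (hasProd_locProd W hs) (LSeries_ne_zero _ hs) _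
    · have := HasProd.zpow_unc (hasProd_fac W hs) (LSeries_ne_zero W hs) (-(m : ℤ))
      simpa only [zpow_neg, zpow_natCast] using this
  have h2 : HasProd (fun v => r v s) (∏ v ∈ B, r v s) := by
    refine hasProd_prod_of_ne_finset_one fun v hv => ?_
    have hv' : v ∉ S ∪ {v : HeightOneSpectrum (𝓞 F) |
      Ideal.ramificationIdxIn v.asIdeal (𝓞 M) ≠ 1} := fun h => hv (hfin.mem_toFinset.2 h)
    have hv1 : v ∉ S := fun h => hv' (Or.inl h)
    have hv2 : Ideal.ramificationIdxIn v.asIdeal (𝓞 M) = 1 := by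
      by_contra h
      exact hv' (Or.inr h)
    have h3 := product_good W v n m (sum_card_primes v hv2 n m hrel) (hdep v hv1) hs
    simp only [r]
    rw [h3]
    exact mul_inv_cancel₀ (pow_ne_zero _ (fac_ne_zero W v hs))
  have h3 := h1.unique h2
  beta_reduce
  rw [← h3]
  have h4 : W.LSeries s ^ m ≠ 0 := pow_ne_zero _ (LSeries_ne_zero W hs)
  field_simp

end

end Pool.Agent.Lib.MP_1a91b9_nt
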