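import Pool.Agent.Lib.MP_1a91b9_nt.RankRel

/-!
# The rank relation without finiteness over the large field
-/

set_option autoImplicit false

namespace Pool.Agent.Lib.MP_1a91b9_nt

open IsDedekindDomain NumberField Polynomial IntermediateField

universe u

section abstract
variable {G : Type*} [Group G] {A : Type u} [AddCommGroup A]

theorem rankRel2_rank_sup {ι : Type*} (s : Finset ι) (N : ι → Submodule ℤ A)
    (h : ∀ i ∈ s, Module.rank ℤ (N i) < Cardinal.aleph0) :
    Module.rank ℤ (s.sup N : Submodule ℤ A) < Cardinal.aleph0 := by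
  classical
  induction s using Finset.induction_on with
  | empty =>
    rw [Finset.sup_empty, rank_bot]
    exact Cardinal.aleph0_pos
  | insert a s ha ih =>
    rw [Finset.sup_insert]
    refine lt_of_le_of_lt (Submodule.rank_add_le_rank_add_rank _ _) ?_
    exact Cardinal.add_lt_aleph0 (h a (Finset.mem_insert_self a s))
      (ih fun i hi => h i (Finset.mem_insert_of_mem hi))

/-- the restriction of the action to a stable submodule -/
def rankRel2_restrict (ρ : G →* Module.End ℤ A) (B : Submodule ℤ A)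
    (hB : ∀ g : G, ∀ a ∈ B, ρ g a ∈ B) : G →* Module.End ℤ B where
  toFun g := (ρ g).restrict (hB g)
  map_one' := by
    ext a
    change ρ 1 (a : A) = a
    rw [map_one]
    rfl
  map_mul' g h := by
    ext a
    change ρ (g * h) (a : A) = ρ g (ρ h (a : A))
    rw [map_mul]
    rfl

theorem rankRel2_rank_eq (ρ : G →* Module.End ℤ A) (B : Submodule ℤ A)
    (hB : ∀ g : G, ∀ a ∈ B, ρ g a ∈ B) (H : Subgroup G) (hH : invSub ρ H ≤ B) :
    Module.rank ℤ (invSub (rankRel2_restrict ρ B hB) H) = Module.rank ℤ (invSub ρ H) := by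
  have hinj : Function.Injective B.subtype := Subtype.coe_injective
  have hmap : (invSub (rankRel2_restrict ρ B hB) H).map B.subtype = invSub ρ H := by
    ext a
    rw [Submodule.mem_map]
    constructor
    · rintro ⟨b, hb, rfl⟩
      intro h hh
      exact congrArg Subtype.val (hb h hh)
    · intro ha
      refine ⟨⟨a, hH ha⟩, ?_, rfl⟩
      intro h hh
      exact Subtype.ext (ha h hh)
  rw [← hmap]
  exact (LinearEquiv.rank_eq
    (Submodule.equivMapOfInjective B.subtype hinj (invSub (rankRel2_restrict ρ B hB) H)))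

theorem rankRel2_abstract [Finite G] [Fintype (Subgroup G)] (ρ : G →* Module.End ℤ A)
    (n : Subgroup G → ℤ) (m : ℤ) (hm : m ≠ 0) (hrel : ∀ g : G, ∑ H, n H * fixNum H g = m)
    (hfin : ∀ H, n H ≠ 0 → Module.rank ℤ (invSub ρ H) < Cardinal.aleph0) :
    ∃ (r : ℕ) (q : Subgroup G → ℕ), Module.rank ℤ (invSub ρ ⊤) = r ∧
      (∀ H, n H ≠ 0 → Module.rank ℤ (invSub ρ H) = q H) ∧
      ∑ H, n H * q H = m * r := by
  classical
  have : Fintype G := Fintype.ofFinite G
  obtain ⟨H0, hH0⟩ : ∃ H0, n H0 ≠ 0 := by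
    by_contra hcon
    push Not at hcon
    apply hm
    rw [← hrel 1]
    exact Finset.sum_eq_zero fun H _ => by rw [hcon H, zero_mul]
  set N : G × {H : Subgroup G // n H ≠ 0} → Submodule ℤ A :=
    fun p => (invSub ρ (p.2 : Subgroup G)).map (ρ p.1) with hN
  set B : Submodule ℤ A := Finset.univ.sup N with hBdef
  have hBfin : Module.rank ℤ B < Cardinal.aleph0 := by
    refine rankRel2_rank_sup _ _ fun p _ => ?_
    exact lt_of_le_of_lt (rank_map_le (ρ p.1) (invSub ρ (p.2 : Subgroup G))) (hfin _ p.2.2)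
  have hB : ∀ g : G, ∀ a ∈ B, ρ g a ∈ B := by
    intro g
    have h1 : B ≤ B.comap (ρ g) := by
      refine Finset.sup_le fun p _ => ?_
      rintro _ ⟨b, hb, rfl⟩
      rw [Submodule.mem_comap]
      have h2 : N (g * p.1, p.2) ≤ B := Finset.le_sup (f := N) (Finset.mem_univ _)
      apply h2
      refine ⟨b, hb, ?_⟩
      rw [map_mul]
      rfl
    exact fun a ha => h1 ha
  have hle : ∀ H, n H ≠ 0 → invSub ρ H ≤ B := by
    intro H hH a ha
    have h2 : N (1, ⟨H, hH⟩) ≤ B := Finset.le_sup (f := N) (Finset.mem_univ _)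
    apply h2
    refine ⟨a, ha, ?_⟩
    rw [map_one]
    rfl
  have hletop : invSub ρ ⊤ ≤ B := by
    refine le_trans ?_ (hle H0 hH0)
    intro a ha h _
    exact ha h (Subgroup.mem_top h)
  have hlt : ∀ H, Module.rank ℤ (invSub (rankRel2_restrict ρ B hB) H) < Cardinal.aleph0 := fun H =>
    lt_of_le_of_lt (Submodule.rank_le _) hBfin
  refine ⟨Module.finrank ℤ (invSub (rankRel2_restrict ρ B hB) ⊤),
    fun H => Module.finrank ℤ (invSub (rankRel2_restrict ρ B hB) H), ?_, ?_, ?_⟩
  · rw [← rankRel2_rank_eq ρ B hB ⊤ hletop]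
    exact (Cardinal.cast_toNat_of_lt_aleph0 (hlt ⊤)).symm
  · intro H hH
    rw [← rankRel2_rank_eq ρ B hB H (hle H hH)]
    exact (Cardinal.cast_toNat_of_lt_aleph0 (hlt H)).symm
  · exact finrank_relation (rankRel2_restrict ρ B hB) hBfin n m hrel

end abstract

variable {F M : Type u} [Field F] [NumberField F] [Field M] [NumberField M] [Algebra F M]
  [IsGalois F M]

theorem rank_relation_of_ne (W : WeierstrassCurve F) (n : Subgroup Gal(M/F) → ℤ) (m : ℕ)
    (hm : m ≠ 0) (hrel : ∀ g : Gal(M/F), ∑ H, n H * fixNum H g = m)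
    (hfin : ∀ H, n H ≠ 0 → mwRank (W.baseChange (fixedField H)) < Cardinal.aleph0) :
    ∃ (r : ℕ) (ρ : Subgroup Gal(M/F) → ℕ), mwRank W = r ∧
      (∀ H, n H ≠ 0 → mwRank (W.baseChange (fixedField H)) = ρ H) ∧
      ∑ H, n H * ρ H = (m : ℤ) * r := by
  let _ : DecidableEq M := Classical.decEq M
  obtain ⟨r, q, h1, h2, h3⟩ := rankRel2_abstract (galRho W) n m (by exact_mod_cast hm) hrel
    (fun H hH => by
      rw [← rank_fixedField]
      exact hfin H hH)
  refine ⟨r, q, ?_, ?_, h3⟩
  · rw [mwRank_eq_top (M := M) W]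
    exact h1
  · intro H hH
    rw [rank_fixedField]
    exact h2 H hH

end Pool.Agent.Lib.MP_1a91b9_nt
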