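import Pool.Agent.Lib.MP_1a91b9_nt.Product
import Pool.Agent.Lib.MP_1a91b9_nt.RankRel2
import Pool.Agent.Lib.MP_1a91b9_nt.Induction
import Pool.Agent.Lib.MP_1a91b9_nt.TwistCore

/-!
# The rank part of the conjecture modulo an integer
-/

set_option autoImplicit false

namespace Pool.Agent.Lib.MP_1a91b9_nt

open IsDedekindDomain NumberField Polynomial IntermediateField

universe u

/-- The `L`-series of `W` has a meromorphic continuation to the whole plane, the rank of `W(K)` is
finite, and the order of the continuation at `s = 1` is congruent to the rank modulo `m`. For `m = 0`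
this is the rank part of the conjecture of Birch and Swinnerton-Dyer, for `m = 2` its parity
version. -/
def RankMod {K : Type*} [Field K] [NumberField K] (m : ℕ) (W : WeierstrassCurve K) : Prop :=
  ∃ (g : ℂ → ℂ) (r : ℕ) (o : ℤ), MeromorphicOn g Set.univ ∧
    (∀ s : ℂ, 2 < s.re → g s = W.LSeries s) ∧
    mwRank W = r ∧ meromorphicOrderAt g 1 = (o : WithTop ℤ) ∧ (m : ℤ) ∣ o - r

theorem RankMod.finite {K : Type*} [Field K] [NumberField K] {W : WeierstrassCurve K} {m : ℕ}
    (h : RankMod m W) : mwRank W < Cardinal.aleph0 := by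
  obtain ⟨g, r, o, hg1, hg2, hg3, hg4, hg5⟩ := h
  rw [hg3]
  exact Cardinal.natCast_lt_aleph0

section core

variable {F M : Type u} [Field F] [NumberField F] [Field M] [NumberField M] [Algebra F M]
  [IsGalois F M]

theorem core_mod (W : WeierstrassCurve F) [W.IsElliptic] (n : Subgroup Gal(M/F) → ℤ) (m : ℕ)
    (hrel : ∀ g : Gal(M/F), ∑ H, n H * fixNum H g = 1)
    (hH : ∀ H, n H ≠ 0 → RankMod m (W.baseChange (fixedField H))) :
    RankMod m W := by
  classical
  have hrel' : ∀ g : Gal(M/F), ∑ H, n H * fixNum H g = ((1 : ℕ) : ℤ) := fun g => by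
    simpa using hrel g
  obtain ⟨R, hR1, hR2, hR3, hR4⟩ := product_formula W n 1 hrel'
  obtain ⟨r, ρ, hr, hρ, hsum⟩ := rank_relation_of_ne W n 1 one_ne_zero hrel'
    fun H h => (hH H h).finite
  have key : ∀ H : Subgroup Gal(M/F), ∃ (g : ℂ → ℂ) (o : ℤ), MeromorphicOn g Set.univ ∧
      (∀ s : ℂ, 2 < s.re →
        g s = (W.baseChange (fixedField H)).LSeries s ^ (n H)) ∧
      meromorphicOrderAt g 1 = ((n H * o : ℤ) : WithTop ℤ) ∧ (m : ℤ) ∣ n H * o - n H * ρ H := by
    intro H
    by_cases h0 : n H = 0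
    · refine ⟨fun _ => 1, 0, MeromorphicOn.const 1, ?_, ?_, ?_⟩
      · intro s _
        simp [h0]
      · rw [meromorphicOrderAt_const]
        simp [h0]
      · simp [h0]
    · obtain ⟨g, r', o, hg1, hg2, hg3, hg4, hg5⟩ := hH H h0
      have hr' : r' = ρ H := by
        have := hg3.symm.trans (hρ H h0)
        exact_mod_cast this
      subst hr'
      refine ⟨g ^ (n H), o, hg1.zpow (n H), ?_, ?_, ?_⟩
      · intro s hs
        rw [Pi.pow_apply, hg2 s hs]
      · rw [meromorphicOrderAt_zpow (hg1 1 (Set.mem_univ _)), hg4]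
        norm_cast
      · rw [← mul_sub]
        exact Dvd.dvd.mul_left hg5 _
  choose g o hg1 hg2 hg3 hg4 using key
  refine ⟨(∏ H, g H) * R⁻¹, r, ∑ H, n H * o H, ?_, ?_, hr, ?_, ?_⟩
  · exact (MeromorphicOn.prod fun H _ => hg1 H).mul hR1.inv
  · intro s hs
    rw [Pi.mul_apply, Pi.inv_apply, Finset.prod_apply]
    rw [Finset.prod_congr rfl fun H _ => hg2 H s hs, hR4 s hs, pow_one,
      mul_assoc, mul_inv_cancel₀ (hR3 s hs), mul_one]
  · rw [meromorphicOrderAt_mul ((MeromorphicOn.prod fun H _ => hg1 H) 1 (Set.mem_univ _))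
      (hR1.inv 1 (Set.mem_univ _)), meromorphicOrderAt_inv, hR2,
      meromorphicOrderAt_prod fun H _ => hg1 H 1 (Set.mem_univ _)]
    rw [Finset.sum_congr rfl fun H _ => hg3 H, WithTop.coe_sum]
    simp
  · have h1 : ∑ H, n H * o H - (r : ℤ) = ∑ H, (n H * o H - n H * ρ H) := by
      rw [Finset.sum_sub_distrib, hsum]
      simp
    rw [h1]
    exact Finset.dvd_sum fun H _ => hg4 H

end core

theorem rankMod_twist_square {K : Type u} [Field K] [NumberField K] (W W' : WeierstrassCurve K)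
    [W.IsElliptic] [W'.IsElliptic] (d : K) (hd : d ≠ 0)
    (h4 : W'.c₄ = d ^ 2 * W.c₄) (h6 : W'.c₆ = d ^ 3 * W.c₆) (hsq : IsSquare d) (m : ℕ)
    (h : RankMod m W) : RankMod m W' := by
  obtain ⟨S, hS, hloc⟩ := local_square W W' d hd h4 h6 hsq
  obtain ⟨R, hR, hR0, hRL⟩ := exists_correction (K := K) (fac W') (fac W) W'.LSeries W.LSeries
    (fac_meroUnit W') (fac_meroUnit W) (fun v s hs => fac_ne_zero W' v hs)
    (fun v s hs => fac_ne_zero W v hs) (fun s hs => hasProd_fac W' hs)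
    (fun s hs => hasProd_fac W hs) (fun s hs => LSeries_ne_zero W hs) S hS
    (fun v hv s hs => by unfold fac; rw [hloc v hv])
  obtain ⟨g, r, o, hg1, hg2, hg3, hg4, hg5⟩ := h
  refine ⟨g * R, r, o, hg1.mul hR.1, ?_, ?_, ?_, hg5⟩
  · intro s hs
    rw [Pi.mul_apply, hg2 s hs, hRL s hs]
  · rw [mwRank_twist_square W W' d hd h4 h6 hsq, hg3]
  · rw [meromorphicOrderAt_mul (hg1 1 (Set.mem_univ _)) (hR.1 1 (Set.mem_univ _)), hR.2, hg4]
    simp

theorem rankMod_twist_nonsquare {K L : Type u} [Field K] [NumberField K] [Field L] [NumberField L]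
    [Algebra K L] (W W' : WeierstrassCurve K) [W.IsElliptic] [W'.IsElliptic] (d : K) (hd : d ≠ 0)
    (h4 : W'.c₄ = d ^ 2 * W.c₄) (h6 : W'.c₆ = d ^ 3 * W.c₆) (hsq : ¬ IsSquare d)
    (hL : Module.finrank K L = 2) (δ : L) (hδ : δ ^ 2 = algebraMap K L d) (m : ℕ)
    (h : RankMod m W) (h' : RankMod m (W.baseChange L)) : RankMod m W' := by
  obtain ⟨S, hS, hloc⟩ := local_twist W W' d hd h4 h6 hsq hL δ hδ
  obtain ⟨R, hR, hR0, hRL⟩ := exists_correction (K := K) (locProd W L)
    (fun v s => fac W v s * fac W' v s) (W.baseChange L).LSeries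
    (fun s => W.LSeries s * W'.LSeries s)
    (locProd_meroUnit W) (fun v => (fac_meroUnit W v).mul (fac_meroUnit W' v))
    (fun v s hs => locProd_ne_zero W v hs)
    (fun v s hs => mul_ne_zero (fac_ne_zero W v hs) (fac_ne_zero W' v hs))
    (fun s hs => hasProd_locProd W hs)
    (fun s hs => (hasProd_fac W hs).mul (hasProd_fac W' hs))
    (fun s hs => mul_ne_zero (LSeries_ne_zero W hs) (LSeries_ne_zero W' hs)) S hS hloc
  obtain ⟨g, r, o, hg1, hg2, hg3, hg4, hg5⟩ := h
  obtain ⟨g', r', o', hg1', hg2', hg3', hg4', hg5'⟩ := h'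
  have hrank := mwRank_twist W W' d hd h4 h6 hsq hL δ hδ
  have hfin : mwRank W' < Cardinal.aleph0 := by
    refine lt_of_le_of_lt (self_le_add_left (mwRank W') (mwRank W)) ?_
    rw [← hrank, hg3']
    exact Cardinal.natCast_lt_aleph0
  obtain ⟨ρ, hρ⟩ := Cardinal.lt_aleph0.mp hfin
  have hsum : r' = r + ρ := by
    rw [hg3, hg3', hρ] at hrank
    exact_mod_cast hrank
  have hm1 : MeromorphicAt (g * R) 1 :=
    (hg1 1 (Set.mem_univ _)).mul (hR.1 1 (Set.mem_univ _))
  refine ⟨g' * (g * R)⁻¹, ρ, o' - o, hg1'.mul (hg1.mul hR.1).inv, ?_, hρ, ?_, ?_⟩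
  · intro s hs
    have hL0 : W.LSeries s ≠ 0 := LSeries_ne_zero W hs
    have hR0' : R s ≠ 0 := hR0 s hs
    rw [Pi.mul_apply, Pi.inv_apply, Pi.mul_apply, hg2 s hs, hg2' s hs, hRL s hs]
    field_simp
  · rw [meromorphicOrderAt_mul (hg1' 1 (Set.mem_univ _)) hm1.inv, meromorphicOrderAt_inv,
      meromorphicOrderAt_mul (hg1 1 (Set.mem_univ _)) (hR.1 1 (Set.mem_univ _)), hR.2, hg4, hg4']
    have e4 : (-(o : WithTop ℤ)) = ((-o : ℤ) : WithTop ℤ) := rfl
    rw [add_zero, e4, ← WithTop.coe_add, sub_eq_add_neg]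
  · have e5 : o' - o - (ρ : ℤ) = (o' - r') - (o - r) := by
      rw [hsum]
      push_cast
      ring
    rw [e5]
    exact dvd_sub hg5' hg5

theorem RankMod.twist {K : Type u} [Field K] [NumberField K] (m : ℕ) (W W' : WeierstrassCurve K)
    [W.IsElliptic] [W'.IsElliptic] (ht : IsQuadraticTwist W' W)
    (h : ∀ (L : Type u) [Field L] [NumberField L] [Algebra K L], RankMod m (W.baseChange L)) :
    RankMod m W' := by
  obtain ⟨d, hd, h4, h6⟩ := ht
  have hW : RankMod m W := by
    have := h K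
    have h5 : W.baseChange K = W := WeierstrassCurve.map_id W
    rwa [h5] at this
  by_cases hsq : IsSquare d
  · exact rankMod_twist_square W W' d hd h4 h6 hsq m hW
  · obtain ⟨L, _, _, _, δ, hL, hδ⟩ := exists_quadratic d hsq
    exact rankMod_twist_nonsquare W W' d hd h4 h6 hsq hL δ hδ m hW (h L)

theorem mod_of_hyperelementary {F M : Type u} [Field F] [NumberField F] [Field M] [NumberField M]
    [Algebra F M] [IsGalois F M] (m : ℕ) (W : WeierstrassCurve F) [W.IsElliptic]
    (h : ∀ H : Subgroup Gal(M/F), IsHyperelementary H → RankMod m (W.baseChange (fixedField H))) :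
    RankMod m W := by
  classical
  obtain ⟨n, hn, hrel⟩ := exists_solomon Gal(M/F)
  exact core_mod (M := M) W n m (fun g => by simpa using hrel g) (fun H hH => h H (hn H hH))

end Pool.Agent.Lib.MP_1a91b9_nt
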