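import Pool.Agent.Lib.MP_1a91b9_nt.S4Defs

set_option autoImplicit false

namespace Pool.Agent.Lib.MP_1a91b9_nt

open Polynomial Finset

private theorem s4c_card {M : Type*} {n : ℕ} (w : Fin n → M) (hw : Function.Injective w)
    (R : M → Prop) (hR : ∀ b, R b ↔ ∃ i, w i = b) (g : M → M) (C : Fin n → Prop)
    [DecidablePred C] (hC : ∀ i, g (w i) = w i ↔ C i) :
    Nat.card {b : M // R b ∧ g b = b} = ∑ i, if C i then 1 else 0 := by
  classical
  rw [← Finset.card_filter, ← Fintype.card_subtype, ← Nat.card_eq_fintype_card]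
  symm
  refine Nat.card_congr (Equiv.ofBijective
    (fun i : {i // C i} => (⟨w i.1, (hR _).2 ⟨i.1, rfl⟩, (hC _).2 i.2⟩ : {b : M // R b ∧ g b = b}))
    ⟨?_, ?_⟩)
  · intro i j h
    exact Subtype.ext (hw (congrArg Subtype.val h))
  · rintro ⟨b, hb, hgb⟩
    obtain ⟨i, rfl⟩ := (hR b).1 hb
    exact ⟨⟨i, (hC i).1 hgb⟩, rfl⟩

private theorem s4c_ite {P Q : Prop} (i1 : Decidable P) (i2 : Decidable Q) (h : P ↔ Q) :
    (@ite ℕ P i1 1 0) = @ite ℕ Q i2 1 0 := by
  by_cases hP : P
  · rw [if_pos hP, if_pos (h.1 hP)]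
  · rw [if_neg hP, if_neg (fun hQ => hP (h.2 hQ))]

set_option maxRecDepth 100000 in
set_option synthInstance.maxSize 100000 in
private theorem s4c_comb : ∀ a b c d : Fin 4, a ≠ b → a ≠ c → a ≠ d → b ≠ c → b ≠ d → c ≠ d →
    ((if ((a = 0 ∧ b = 1) ∨ (a = 1 ∧ b = 0)) ∨ ((a = 2 ∧ b = 3) ∨ (a = 3 ∧ b = 2)) then (1 : ℕ) else 0) +
     (if ((a = 0 ∧ c = 2) ∨ (a = 2 ∧ c = 0)) ∨ ((a = 1 ∧ c = 3) ∨ (a = 3 ∧ c = 1)) then 1 else 0) +
     (if ((a = 0 ∧ d = 3) ∨ (a = 3 ∧ d = 0)) ∨ ((a = 1 ∧ d = 2) ∨ (a = 2 ∧ d = 1)) then 1 else 0)) +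
    ((if a = 0 then 1 else 0) + (if b = 1 then 1 else 0) + (if c = 2 then 1 else 0) +
     (if d = 3 then 1 else 0)) =
    ((if (a = 0 ∧ b = 1) ∨ (a = 1 ∧ b = 0) then 1 else 0) +
     (if (a = 0 ∧ c = 2) ∨ (a = 2 ∧ c = 0) then 1 else 0) +
     (if (a = 0 ∧ d = 3) ∨ (a = 3 ∧ d = 0) then 1 else 0) +
     (if (b = 1 ∧ c = 2) ∨ (b = 2 ∧ c = 1) then 1 else 0) +
     (if (b = 1 ∧ d = 3) ∨ (b = 3 ∧ d = 1) then 1 else 0) +
     (if (c = 2 ∧ d = 3) ∨ (c = 3 ∧ d = 2) then 1 else 0)) + 1 := by
  decide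

private theorem s4c_univ : ∀ a b c d : Fin 4, a ≠ b → a ≠ c → a ≠ d → b ≠ c → b ≠ d → c ≠ d →
    (univ : Finset (Fin 4)) = {a, b, c, d} := by
  decide

section main

variable {M : Type*} [Field M]

private theorem s4c_sum_eq [CharZero M] (y : Fin 4 → M) (hinj : Function.Injective y)
    (hsum : y 0 + y 1 + y 2 + y 3 = 0) (hne : ∀ a b, a ≠ b → y a + y b ≠ 0)
    {a b c d : Fin 4} (hab : a ≠ b) (hcd : c ≠ d) :
    y a + y b = y c + y d ↔ (a = c ∧ b = d) ∨ (a = d ∧ b = c) := by
  constructor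
  · intro h
    by_cases hac : a = c
    · subst hac
      exact Or.inl ⟨rfl, hinj (add_left_cancel h)⟩
    by_cases had : a = d
    · subst had
      rw [add_comm (y c)] at h
      exact Or.inr ⟨rfl, hinj (add_left_cancel h)⟩
    by_cases hbc : b = c
    · subst hbc
      rw [add_comm (y a)] at h
      exact absurd (hinj (add_left_cancel h)) had
    by_cases hbd : b = d
    · subst hbd
      exact absurd (hinj (add_right_cancel h)) hac
    exfalso
    have h1 : y a + y b + y c + y d = 0 := by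
      have h2 : ∑ i, y i = 0 := by
        rw [Fin.sum_univ_four]; exact hsum
      rw [s4c_univ a b c d hab hac had hbc hbd hcd] at h2
      rw [Finset.sum_insert (by simp [hab, hac, had]), Finset.sum_insert (by simp [hbc, hbd]),
        Finset.sum_insert (by simp [hcd]), Finset.sum_singleton] at h2
      rw [← h2]; ring
    have h2 : (2 : M) * (y a + y b) = 0 := by
      rw [← h1]
      linear_combination h
    rcases mul_eq_zero.1 h2 with h3 | h3
    · exact two_ne_zero h3
    · exact hne a b hab h3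
  · rintro (⟨rfl, rfl⟩ | ⟨rfl, rfl⟩)
    · rfl
    · exact add_comm _ _

private theorem s4c_coeff0 (P Q R s1 s2 s3 s4 : M)
    (h : (X ^ 4 + C P * X ^ 2 + C Q * X + C R : M[X]) =
      X ^ 4 - C s1 * X ^ 3 + C s2 * X ^ 2 - C s3 * X + C s4) :
    s1 = 0 ∧ P = s2 ∧ Q = -s3 ∧ R = s4 := by
  have c3 := congrArg (fun f => Polynomial.coeff f 3) h
  have c2 := congrArg (fun f => Polynomial.coeff f 2) h
  have c1 := congrArg (fun f => Polynomial.coeff f 1) h
  have c0 := congrArg (fun f => Polynomial.coeff f 0) h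
  simp [coeff_X_pow, coeff_X, coeff_C] at c3 c2 c1 c0
  exact ⟨c3, c2, c1, c0⟩

private theorem s4c_coeff (P Q R a b c d : M)
    (h : (X ^ 4 + C P * X ^ 2 + C Q * X + C R : M[X]) =
      (X - C a) * (X - C b) * (X - C c) * (X - C d)) :
    a + b + c + d = 0 ∧ P = a * b + a * c + a * d + b * c + b * d + c * d ∧
      Q = -(a * b * c + a * b * d + a * c * d + b * c * d) ∧ R = a * b * c * d := by
  have h1 : (X - C a) * (X - C b) * (X - C c) * (X - C d) =
      X ^ 4 - C (a + b + c + d) * X ^ 3 + C (a * b + a * c + a * d + b * c + b * d + c * d) * X ^ 2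
        - C (a * b * c + a * b * d + a * c * d + b * c * d) * X + C (a * b * c * d) := by
    simp only [map_add, map_mul]
    ring
  rw [h1] at h
  exact s4c_coeff0 _ _ _ _ _ _ _ h

end main

theorem s4_count {K M : Type*} [Field K] [CharZero K] [Field M] [Algebra K M] (p q r : K)
    (hQ : Irreducible (quart p q r)) (hG : Irreducible (resol p q r))
    (y : Fin 4 → M) (hy : (quart p q r).map (algebraMap K M) = ∏ i, (X - C (y i)))
    (g : Gal(M/K)) :
    Nat.card {b : M // aeval b (resol p q r) = 0 ∧ g b = b} +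
      Nat.card {b : M // aeval b (quart p q r) = 0 ∧ g b = b} =
      Nat.card {b : M // aeval b ((resol p q r).comp (X ^ 2)) = 0 ∧ g b = b} + 1 := by
  classical
  have : CharZero M := charZero_of_injective_algebraMap (algebraMap K M).injective
  -- `y` is injective
  have hinj : Function.Injective y := by
    rw [← separable_prod_X_sub_C_iff, ← hy]
    exact hQ.separable.map
  have hy' : (X ^ 4 + C (algebraMap K M p) * X ^ 2 + C (algebraMap K M q) * X +
      C (algebraMap K M r) : M[X]) = (X - C (y 0)) * (X - C (y 1)) * (X - C (y 2)) * (X - C (y 3)) := by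
    rw [Fin.prod_univ_four] at hy
    rw [← hy, quart]
    simp
  obtain ⟨e1, e2, e3, e4⟩ := s4c_coeff _ _ _ _ _ _ _ hy'
  have ey3 : y 3 = -(y 0 + y 1 + y 2) := by linear_combination e1
  -- the roots of the quartic
  have hQroot : ∀ b : M, aeval b (quart p q r) = 0 ↔ ∃ i, y i = b := by
    intro b
    rw [aeval_def, ← eval_map, hy, eval_prod, Finset.prod_eq_zero_iff]
    simp only [Finset.mem_univ, true_and, eval_sub, eval_X, eval_C, sub_eq_zero]
    exact exists_congr fun i => eq_comm
  -- the resolvent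
  have hres : ∀ b : M, aeval b (resol p q r) =
      (b - (y 0 + y 1) ^ 2) * (b - (y 0 + y 2) ^ 2) * (b - (y 0 + y 3) ^ 2) := by
    intro b
    simp only [resol, map_add, map_sub, map_mul, map_pow, aeval_X, aeval_C, map_ofNat]
    rw [e2, e3, e4, ey3]
    ring
  have hq0 : q ≠ 0 := by
    intro hq
    have h0 : (resol p q r).IsRoot 0 := by
      simp [resol, hq]
    have h1 := degree_eq_one_of_irreducible_of_root hG h0
    have h2 : (resol p q r).natDegree = 3 := by
      unfold resol
      compute_degree!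
    rw [degree_eq_natDegree hG.ne_zero, h2] at h1
    exact absurd h1 (by decide)
  have hz0 : aeval (0 : M) (resol p q r) ≠ 0 := by
    simp [resol, hq0]
  rw [hres] at hz0
  have h01 : y 0 + y 1 ≠ 0 := by
    intro h
    apply hz0
    rw [h]; ring
  have h02 : y 0 + y 2 ≠ 0 := by
    intro h
    apply hz0
    rw [h]; ring
  have h03 : y 0 + y 3 ≠ 0 := by
    intro h
    apply hz0
    rw [h]; ring
  have h23 : y 2 + y 3 = -(y 0 + y 1) := by linear_combination e1
  have h13 : y 1 + y 3 = -(y 0 + y 2) := by linear_combination e1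
  have h12 : y 1 + y 2 = -(y 0 + y 3) := by linear_combination e1
  have hne : ∀ a b, a ≠ b → y a + y b ≠ 0 := by
    have n23 : y 2 + y 3 ≠ 0 := by rw [h23]; exact neg_ne_zero.2 h01
    have n13 : y 1 + y 3 ≠ 0 := by rw [h13]; exact neg_ne_zero.2 h02
    have n12 : y 1 + y 2 ≠ 0 := by rw [h12]; exact neg_ne_zero.2 h03
    intro a b hab
    fin_cases a <;> fin_cases b <;> first
      | exact absurd rfl hab
      | assumption
      | (show y _ + y _ ≠ 0; rw [add_comm]; assumption)
  have hse := @s4c_sum_eq M _ _ y hinj e1 hne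
  -- the permutation
  have hgy : ∀ i, ∃ j, y j = g (y i) := by
    intro i
    rw [← hQroot]
    have h1 : aeval (y i) (quart p q r) = 0 := (hQroot _).2 ⟨i, rfl⟩
    rw [aeval_algHom_apply, h1, map_zero]
  choose π hπ using hgy
  have hπinj : Function.Injective π := by
    intro i j h
    apply hinj
    apply g.injective
    rw [← hπ i, ← hπ j, h]
  have hgs : ∀ a b, g (y a + y b) = y (π a) + y (π b) := by
    intro a b
    rw [map_add, hπ, hπ]
  -- count of the roots of the quartic
  have n4 : Nat.card {b : M // aeval b (quart p q r) = 0 ∧ g b = b} =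
      ∑ i, if π i = i then 1 else 0 := by
    refine s4c_card y hinj _ hQroot g _ ?_
    intro i
    rw [← hπ i]
    exact hinj.eq_iff
  have n3 : Nat.card {b : M // aeval b (resol p q r) = 0 ∧ g b = b} =
      ∑ i : Fin 3, if (![((π 0 = 0 ∧ π 1 = 1) ∨ (π 0 = 1 ∧ π 1 = 0)) ∨
          ((π 0 = 2 ∧ π 1 = 3) ∨ (π 0 = 3 ∧ π 1 = 2)),
        ((π 0 = 0 ∧ π 2 = 2) ∨ (π 0 = 2 ∧ π 2 = 0)) ∨
          ((π 0 = 1 ∧ π 2 = 3) ∨ (π 0 = 3 ∧ π 2 = 1)),
        ((π 0 = 0 ∧ π 3 = 3) ∨ (π 0 = 3 ∧ π 3 = 0)) ∨
          ((π 0 = 1 ∧ π 3 = 2) ∨ (π 0 = 2 ∧ π 3 = 1))] : Fin 3 → Prop) i then 1 else 0 := by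
    refine s4c_card ![(y 0 + y 1) ^ 2, (y 0 + y 2) ^ 2, (y 0 + y 3) ^ 2] ?_ _ ?_ g _ ?_
    · have d12 : (y 0 + y 1) ^ 2 ≠ (y 0 + y 2) ^ 2 := by
        intro h
        have h1 : (y 1 - y 2) * (y 0 - y 3) = 0 := by
          linear_combination h + (y 1 - y 2) * (-1) * e1
        rcases mul_eq_zero.1 h1 with h2 | h2
        · exact absurd (hinj (sub_eq_zero.1 h2)) (by decide)
        · exact absurd (hinj (sub_eq_zero.1 h2)) (by decide)
      have d13 : (y 0 + y 1) ^ 2 ≠ (y 0 + y 3) ^ 2 := by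
        intro h
        have h1 : (y 1 - y 3) * (y 0 - y 2) = 0 := by
          linear_combination h + (y 1 - y 3) * (-1) * e1
        rcases mul_eq_zero.1 h1 with h2 | h2
        · exact absurd (hinj (sub_eq_zero.1 h2)) (by decide)
        · exact absurd (hinj (sub_eq_zero.1 h2)) (by decide)
      have d23 : (y 0 + y 2) ^ 2 ≠ (y 0 + y 3) ^ 2 := by
        intro h
        have h1 : (y 2 - y 3) * (y 0 - y 1) = 0 := by
          linear_combination h + (y 2 - y 3) * (-1) * e1
        rcases mul_eq_zero.1 h1 with h2 | h2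
        · exact absurd (hinj (sub_eq_zero.1 h2)) (by decide)
        · exact absurd (hinj (sub_eq_zero.1 h2)) (by decide)
      intro i j hij
      fin_cases i <;> fin_cases j <;> first
        | rfl
        | exact absurd hij d12
        | exact absurd hij d13
        | exact absurd hij d23
        | exact absurd hij.symm d12
        | exact absurd hij.symm d13
        | exact absurd hij.symm d23
    · intro b
      rw [hres, mul_eq_zero, mul_eq_zero, sub_eq_zero, sub_eq_zero, sub_eq_zero]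
      constructor
      · rintro ((h | h) | h)
        · exact ⟨0, h.symm⟩
        · exact ⟨1, h.symm⟩
        · exact ⟨2, h.symm⟩
      · rintro ⟨i, rfl⟩
        fin_cases i
        · exact Or.inl (Or.inl rfl)
        · exact Or.inl (Or.inr rfl)
        · exact Or.inr rfl
    · intro i
      have key : ∀ c d : Fin 4, c ≠ d → ∀ a b : Fin 4, a ≠ b → ∀ c' d' : Fin 4, c' ≠ d' →
          y c' + y d' = -(y c + y d) →
          ((y a + y b) ^ 2 = (y c + y d) ^ 2 ↔ ((a = c ∧ b = d) ∨ (a = d ∧ b = c)) ∨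
            ((a = c' ∧ b = d') ∨ (a = d' ∧ b = c'))) := by
        intro c d hcd a b hab c' d' hcd' h
        rw [sq_eq_sq_iff_eq_or_eq_neg, ← h, hse hab hcd, hse hab hcd']
      have n01 : π 0 ≠ π 1 := fun h => absurd (hπinj h) (by decide)
      have n02 : π 0 ≠ π 2 := fun h => absurd (hπinj h) (by decide)
      have n03 : π 0 ≠ π 3 := fun h => absurd (hπinj h) (by decide)
      fin_cases i
      · show g ((y 0 + y 1) ^ 2) = (y 0 + y 1) ^ 2 ↔ _
        rw [map_pow, hgs]
        exact key 0 1 (by decide) _ _ n01 2 3 (by decide) h23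
      · show g ((y 0 + y 2) ^ 2) = (y 0 + y 2) ^ 2 ↔ _
        rw [map_pow, hgs]
        exact key 0 2 (by decide) _ _ n02 1 3 (by decide) h13
      · show g ((y 0 + y 3) ^ 2) = (y 0 + y 3) ^ 2 ↔ _
        rw [map_pow, hgs]
        exact key 0 3 (by decide) _ _ n03 1 2 (by decide) h12
  have n6 : Nat.card {b : M // aeval b ((resol p q r).comp (X ^ 2)) = 0 ∧ g b = b} =
      ∑ i : Fin 6, if (![(π 0 = 0 ∧ π 1 = 1) ∨ (π 0 = 1 ∧ π 1 = 0),
        (π 0 = 0 ∧ π 2 = 2) ∨ (π 0 = 2 ∧ π 2 = 0),
        (π 0 = 0 ∧ π 3 = 3) ∨ (π 0 = 3 ∧ π 3 = 0),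
        (π 1 = 1 ∧ π 2 = 2) ∨ (π 1 = 2 ∧ π 2 = 1),
        (π 1 = 1 ∧ π 3 = 3) ∨ (π 1 = 3 ∧ π 3 = 1),
        (π 2 = 2 ∧ π 3 = 3) ∨ (π 2 = 3 ∧ π 3 = 2)] : Fin 6 → Prop) i then 1 else 0 := by
    refine s4c_card ![y 0 + y 1, y 0 + y 2, y 0 + y 3, y 1 + y 2, y 1 + y 3, y 2 + y 3]
      ?_ _ ?_ g _ ?_
    · have e01_02 : y 0 + y 1 ≠ y 0 + y 2 := by rw [ne_eq, hse (by decide) (by decide)]; decide
      have e01_03 : y 0 + y 1 ≠ y 0 + y 3 := by rw [ne_eq, hse (by decide) (by decide)]; decide
      have e01_12 : y 0 + y 1 ≠ y 1 + y 2 := by rw [ne_eq, hse (by decide) (by decide)]; decide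
      have e01_13 : y 0 + y 1 ≠ y 1 + y 3 := by rw [ne_eq, hse (by decide) (by decide)]; decide
      have e01_23 : y 0 + y 1 ≠ y 2 + y 3 := by rw [ne_eq, hse (by decide) (by decide)]; decide
      have e02_03 : y 0 + y 2 ≠ y 0 + y 3 := by rw [ne_eq, hse (by decide) (by decide)]; decide
      have e02_12 : y 0 + y 2 ≠ y 1 + y 2 := by rw [ne_eq, hse (by decide) (by decide)]; decide
      have e02_13 : y 0 + y 2 ≠ y 1 + y 3 := by rw [ne_eq, hse (by decide) (by decide)]; decide
      have e02_23 : y 0 + y 2 ≠ y 2 + y 3 := by rw [ne_eq, hse (by decide) (by decide)]; decide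
      have e03_12 : y 0 + y 3 ≠ y 1 + y 2 := by rw [ne_eq, hse (by decide) (by decide)]; decide
      have e03_13 : y 0 + y 3 ≠ y 1 + y 3 := by rw [ne_eq, hse (by decide) (by decide)]; decide
      have e03_23 : y 0 + y 3 ≠ y 2 + y 3 := by rw [ne_eq, hse (by decide) (by decide)]; decide
      have e12_13 : y 1 + y 2 ≠ y 1 + y 3 := by rw [ne_eq, hse (by decide) (by decide)]; decide
      have e12_23 : y 1 + y 2 ≠ y 2 + y 3 := by rw [ne_eq, hse (by decide) (by decide)]; decide
      have e13_23 : y 1 + y 3 ≠ y 2 + y 3 := by rw [ne_eq, hse (by decide) (by decide)]; decide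
      intro i j hij
      fin_cases i <;> fin_cases j <;> first
        | rfl
        | exact absurd hij e01_02
        | exact absurd hij e01_03
        | exact absurd hij e01_12
        | exact absurd hij e01_13
        | exact absurd hij e01_23
        | exact absurd hij e02_03
        | exact absurd hij e02_12
        | exact absurd hij e02_13
        | exact absurd hij e02_23
        | exact absurd hij e03_12
        | exact absurd hij e03_13
        | exact absurd hij e03_23
        | exact absurd hij e12_13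
        | exact absurd hij e12_23
        | exact absurd hij e13_23
        | exact absurd hij.symm e01_02
        | exact absurd hij.symm e01_03
        | exact absurd hij.symm e01_12
        | exact absurd hij.symm e01_13
        | exact absurd hij.symm e01_23
        | exact absurd hij.symm e02_03
        | exact absurd hij.symm e02_12
        | exact absurd hij.symm e02_13
        | exact absurd hij.symm e02_23
        | exact absurd hij.symm e03_12
        | exact absurd hij.symm e03_13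
        | exact absurd hij.symm e03_23
        | exact absurd hij.symm e12_13
        | exact absurd hij.symm e12_23
        | exact absurd hij.symm e13_23
    · intro b
      rw [aeval_comp, map_pow, aeval_X, hres, mul_eq_zero, mul_eq_zero, sub_eq_zero, sub_eq_zero,
        sub_eq_zero, sq_eq_sq_iff_eq_or_eq_neg, sq_eq_sq_iff_eq_or_eq_neg,
        sq_eq_sq_iff_eq_or_eq_neg, ← h23, ← h13, ← h12]
      constructor
      · rintro (((h | h) | (h | h)) | (h | h))
        · exact ⟨0, h.symm⟩
        · exact ⟨5, h.symm⟩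
        · exact ⟨1, h.symm⟩
        · exact ⟨4, h.symm⟩
        · exact ⟨2, h.symm⟩
        · exact ⟨3, h.symm⟩
      · rintro ⟨i, rfl⟩
        fin_cases i
        · exact Or.inl (Or.inl (Or.inl rfl))
        · exact Or.inl (Or.inr (Or.inl rfl))
        · exact Or.inr (Or.inl rfl)
        · exact Or.inr (Or.inr rfl)
        · exact Or.inl (Or.inr (Or.inr rfl))
        · exact Or.inl (Or.inl (Or.inr rfl))
    · intro i
      have key : ∀ c d : Fin 4, c ≠ d →
          (g (y c + y d) = y c + y d ↔ (π c = c ∧ π d = d) ∨ (π c = d ∧ π d = c)) := by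
        intro c d hcd
        rw [hgs, hse (fun h => hcd (hπinj h)) hcd]
      fin_cases i
      · exact key 0 1 (by decide)
      · exact key 0 2 (by decide)
      · exact key 0 3 (by decide)
      · exact key 1 2 (by decide)
      · exact key 1 3 (by decide)
      · exact key 2 3 (by decide)
  rw [n3, n4, n6, Fin.sum_univ_three, Fin.sum_univ_four, Fin.sum_univ_six]
  have hc := s4c_comb (π 0) (π 1) (π 2) (π 3) (fun h => absurd (hπinj h) (by decide))
    (fun h => absurd (hπinj h) (by decide)) (fun h => absurd (hπinj h) (by decide))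
    (fun h => absurd (hπinj h) (by decide)) (fun h => absurd (hπinj h) (by decide))
    (fun h => absurd (hπinj h) (by decide))
  simp only [Matrix.cons_val]
  convert hc using 1
  all_goals
    repeat' first
      | exact s4c_ite _ _ Iff.rfl
      | refine congrArg₂ (· + ·) ?_ ?_
      | rfl

end Pool.Agent.Lib.MP_1a91b9_nt
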