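import Pool.Agent.Lib.MP_1a91b9_nt.Defs

/-!
# Quartic extensions: definitions
-/

set_option autoImplicit false

namespace Pool.Agent.Lib.MP_1a91b9_nt

open Polynomial

noncomputable section

/-- A monic quartic polynomial without cubic term. -/
def quart {K : Type*} [CommRing K] (p q r : K) : K[X] :=
  X ^ 4 + C p * X ^ 2 + C q * X + C r

/-- The cubic resolvent of `quart p q r`; its roots are the squares of the sums of two roots. -/
def resol {K : Type*} [CommRing K] (p q r : K) : K[X] :=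
  X ^ 3 + C (2 * p) * X ^ 2 + C (p ^ 2 - 4 * r) * X - C (q ^ 2)

section param
variable {K : Type*} [Field K]

def pAl (A v : K) : K := (A - v ^ 2) / 2

def pBe (B z v : K) : K := (B - z) / (2 * v)

def pX (A B z v : K) : K := (pAl A v ^ 2 + pBe B z v ^ 2) / z

def pR (A B z v : K) : K :=
  pAl A v ^ 3 + pBe B z v ^ 2 * (2 * A - 3 * pAl A v) + B * (3 * z - B) / 2

def pS (A B z v : K) : K :=
  3 * pAl A v ^ 2 * pBe B z v - pBe B z v ^ 3 - 2 * A * pAl A v * pBe B z v + B * v * pAl A v

def pH (A B η v : K) : K :=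
  (pR A B (1 + η ^ 2) v * η - pS A B (1 + η ^ 2) v) / (1 + η ^ 2) ^ 2

def pJ (A B η v : K) : K :=
  (pR A B (1 + η ^ 2) v + pS A B (1 + η ^ 2) v * η) / (1 + η ^ 2) ^ 2

end param

end

end Pool.Agent.Lib.MP_1a91b9_nt
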