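import Pool.Agent.Lib.MP_1a91b9_nt.S4Defs

set_option autoImplicit false

namespace Pool.Agent.Lib.MP_1a91b9_nt

open IsDedekindDomain NumberField Polynomial IntermediateField

universe u

private theorem S4Eta_crt (K : Type u) [Field K] [NumberField K] (w p : HeightOneSpectrum (𝓞 K))
    (hne : w ≠ p) (m n : ℕ) (x y : 𝓞 K) :
    ∃ z : 𝓞 K, z - x ∈ w.asIdeal ^ m ∧ z - y ∈ p.asIdeal ^ n := by
  have h1 : IsCoprime (w.asIdeal ^ m) (p.asIdeal ^ n) :=
    (HeightOneSpectrum.isCoprime_of_ne w p hne).pow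
  obtain ⟨a, ha, b, hb, hab⟩ := Ideal.isCoprime_iff_exists.mp h1
  refine ⟨x * b + y * a, ?_, ?_⟩
  · have h2 : x * b + y * a - x = (y - x) * a := by
      linear_combination x * hab
    rw [h2]
    exact Ideal.mul_mem_left _ _ ha
  · have h2 : x * b + y * a - y = (x - y) * b := by
      linear_combination y * hab
    rw [h2]
    exact Ideal.mul_mem_left _ _ hb

private theorem S4Eta_val (K : Type u) [Field K] [NumberField K] (w : HeightOneSpectrum (𝓞 K))
    (η : 𝓞 K) : w.valuation K (1 + (η : K) ^ 2) = w.intValuation (1 + η ^ 2) := by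
  have h : (1 + (η : K) ^ 2) = algebraMap (𝓞 K) K (1 + η ^ 2) := by
    rw [map_add, map_one, map_pow]
  rw [h, HeightOneSpectrum.valuation_of_algebraMap]

/-- congruent elements have the same valuation -/
private theorem S4Eta_congr (K : Type u) [Field K] [NumberField K] (w : HeightOneSpectrum (𝓞 K))
    (a b : 𝓞 K) (k n : ℕ) (hk : k < n) (hb : w.intValuation b = WithZero.exp (-(k : ℤ)))
    (h : a - b ∈ w.asIdeal ^ n) : w.intValuation a = WithZero.exp (-(k : ℤ)) := by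
  rw [← HeightOneSpectrum.intValuation_le_pow_iff_mem] at h
  have h1 : w.intValuation (a - b) < w.intValuation b := by
    rw [hb]
    refine lt_of_le_of_lt h ?_
    rw [WithZero.exp_lt_exp]
    omega
  have h2 := Valuation.map_add_eq_of_lt_right (v := w.intValuation) h1
  rw [sub_add_cancel] at h2
  rw [h2, hb]

theorem exists_eta (K : Type u) [Field K] [NumberField K] (w p : HeightOneSpectrum (𝓞 K))
    (hw : (2 : 𝓞 K) ∈ w.asIdeal) (hp : (2 : 𝓞 K) ∉ p.asIdeal) (η₀ : 𝓞 K)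
    (hη₀ : p.valuation K (1 + (η₀ : K) ^ 2) = WithZero.exp (-1 : ℤ)) :
    ∃ η : 𝓞 K, p.valuation K (1 + (η : K) ^ 2) = WithZero.exp (-1 : ℤ) ∧
      w.valuation K (1 + (η : K) ^ 2) < 1 ∧
      w.valuation K 2 ^ 4 ≤ w.valuation K (1 + (η : K) ^ 2) ∧
      ∀ a : WithZero (Multiplicative ℤ), a ^ 4 ≠ w.valuation K (1 + (η : K) ^ 2) := by
  have hne : w ≠ p := by
    rintro rfl
    exact hp hw
  have h2K : w.valuation K 2 = w.intValuation 2 := by
    have h : (2 : K) = algebraMap (𝓞 K) K 2 := by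
      rw [map_ofNat]
    rw [h, HeightOneSpectrum.valuation_of_algebraMap]
  -- the order of 2
  obtain ⟨e, he1, he⟩ : ∃ e : ℕ, 1 ≤ e ∧ w.intValuation (2 : 𝓞 K) = WithZero.exp (-(e : ℤ)) := by
    have h20 : w.intValuation (2 : 𝓞 K) ≠ 0 :=
      w.intValuation_ne_zero _ two_ne_zero
    have h21 : w.intValuation (2 : 𝓞 K) < 1 :=
      (w.intValuation_lt_one_iff_mem _).mpr hw
    rw [← WithZero.exp_log h20, ← WithZero.exp_zero, WithZero.exp_lt_exp] at h21
    refine ⟨(-(WithZero.log (w.intValuation (2 : 𝓞 K)))).toNat, by omega, ?_⟩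
    rw [Int.toNat_of_nonneg (by omega), neg_neg, WithZero.exp_log h20]
  -- the target order `k`
  obtain ⟨ξ, k, hk1, hk2, hk4, hξ⟩ : ∃ (ξ : 𝓞 K) (k : ℕ), 1 ≤ k ∧ k ≤ e + 1 ∧ ¬ 4 ∣ k ∧
      w.intValuation (1 + ξ ^ 2) = WithZero.exp (-(k : ℤ)) ∧ k ≤ 4 * e := by
    by_cases h4 : 4 ∣ e
    · obtain ⟨π, hπ⟩ := w.intValuation_exists_uniformizer
      refine ⟨1 + π, 2, by norm_num, by omega, by decide, ?_, by omega⟩
      have h1 : (1 + (1 + π) ^ 2 : 𝓞 K) = 2 * (1 + π) + π ^ 2 := by ring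
      rw [h1]
      have h2 : w.intValuation (π ^ 2) = WithZero.exp (-((2 : ℕ) : ℤ)) := by
        rw [map_pow, hπ]
        rfl
      have h3 : w.intValuation (2 * (1 + π)) < w.intValuation (π ^ 2) := by
        rw [h2, map_mul, he]
        refine lt_of_le_of_lt (mul_le_of_le_one_right' (w.intValuation_le_one _)) ?_
        rw [WithZero.exp_lt_exp]
        have : 4 ≤ e := Nat.le_of_dvd (by omega) h4
        omega
      rw [Valuation.map_add_eq_of_lt_right (v := w.intValuation) h3, h2]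
    · refine ⟨1, e, he1, by omega, h4, ?_, by omega⟩
      have h1 : (1 + 1 ^ 2 : 𝓞 K) = 2 := by norm_num
      rw [h1, he]
  obtain ⟨hξ, hk4e⟩ := hξ
  obtain ⟨η, hηw, hηp⟩ := S4Eta_crt K w p hne (e + 2) 2 ξ η₀
  have hsq : ∀ (a b : 𝓞 K) (I : Ideal (𝓞 K)), a - b ∈ I → (1 + a ^ 2) - (1 + b ^ 2) ∈ I := by
    intro a b I h
    have h1 : (1 + a ^ 2) - (1 + b ^ 2) = (a + b) * (a - b) := by ring
    rw [h1]
    exact Ideal.mul_mem_left _ _ h
  have hw1 : w.intValuation (1 + η ^ 2) = WithZero.exp (-(k : ℤ)) :=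
    S4Eta_congr K w _ _ k (e + 2) (by omega) hξ (hsq _ _ _ hηw)
  refine ⟨η, ?_, ?_, ?_, ?_⟩
  · rw [S4Eta_val] at hη₀ ⊢
    have h1 : p.intValuation (1 + η₀ ^ 2) = WithZero.exp (-((1 : ℕ) : ℤ)) := hη₀
    exact S4Eta_congr K p _ _ 1 2 (by norm_num) h1 (hsq _ _ _ hηp)
  · rw [S4Eta_val, hw1, ← WithZero.exp_zero, WithZero.exp_lt_exp]
    omega
  · rw [S4Eta_val, hw1, h2K, he, ← WithZero.exp_nsmul, WithZero.exp_le_exp, nsmul_eq_mul]
    push_cast
    omega
  · intro a ha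
    rw [S4Eta_val, hw1] at ha
    have ha0 : a ≠ 0 := by
      rintro rfl
      rw [zero_pow (by norm_num)] at ha
      exact WithZero.exp_ne_zero ha.symm
    rw [← WithZero.exp_log ha0, ← WithZero.exp_nsmul, WithZero.exp_inj, nsmul_eq_mul] at ha
    push_cast at ha
    omega

private theorem S4Eta_bound (c : WithZero (Multiplicative ℤ)) :
    ∃ a : ℕ, c < WithZero.exp (a : ℤ) := by
  by_cases hc : c = 0
  · exact ⟨0, by rw [hc]; exact WithZero.exp_pos⟩
  · refine ⟨(WithZero.log c).toNat + 1, ?_⟩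
    have h1 : c = WithZero.exp (WithZero.log c) := (WithZero.exp_log hc).symm
    have h2 := Int.self_le_toNat (WithZero.log c)
    calc c = WithZero.exp (WithZero.log c) := h1
      _ < WithZero.exp (((WithZero.log c).toNat + 1 : ℕ) : ℤ) := by
        rw [WithZero.exp_lt_exp]
        push_cast
        omega

private theorem S4Eta_inv (K : Type u) [Field K] [NumberField K] (w : HeightOneSpectrum (𝓞 K))
    (n : 𝓞 K) (hn0 : n ≠ 0) (a : ℕ) (hn : n ∈ w.asIdeal ^ a) (c : WithZero (Multiplicative ℤ))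
    (hc : c < WithZero.exp (a : ℤ)) : c < w.valuation K (algebraMap (𝓞 K) K n)⁻¹ := by
  rw [map_inv₀, HeightOneSpectrum.valuation_of_algebraMap]
  rw [← HeightOneSpectrum.intValuation_le_pow_iff_mem, WithZero.exp_neg] at hn
  refine lt_of_lt_of_le hc ?_
  have h0 : 0 < w.intValuation n := zero_lt_iff.mpr (w.intValuation_ne_zero _ hn0)
  exact (le_inv_comm₀ h0 WithZero.exp_pos).mp hn

theorem exists_big (K : Type u) [Field K] [NumberField K] (w p : HeightOneSpectrum (𝓞 K))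
    (c c' : WithZero (Multiplicative ℤ)) :
    ∃ v : K, v ≠ 0 ∧ c < w.valuation K v ∧ c' < p.valuation K v := by
  obtain ⟨a, ha⟩ := S4Eta_bound c
  obtain ⟨b, hb⟩ := S4Eta_bound c'
  obtain ⟨x, hxw, hx0⟩ := Submodule.exists_mem_ne_zero_of_ne_bot w.ne_bot
  obtain ⟨y, hyp, hy0⟩ := Submodule.exists_mem_ne_zero_of_ne_bot p.ne_bot
  have hn0 : x ^ a * y ^ b ≠ 0 := mul_ne_zero (pow_ne_zero _ hx0) (pow_ne_zero _ hy0)
  have hnw : x ^ a * y ^ b ∈ w.asIdeal ^ a :=
    Ideal.mul_mem_right _ _ (Ideal.pow_mem_pow hxw a)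
  have hnp : x ^ a * y ^ b ∈ p.asIdeal ^ b :=
    Ideal.mul_mem_left _ _ (Ideal.pow_mem_pow hyp b)
  refine ⟨(algebraMap (𝓞 K) K (x ^ a * y ^ b))⁻¹, ?_, S4Eta_inv K w _ hn0 a hnw c ha,
    S4Eta_inv K p _ hn0 b hnp c' hb⟩
  apply inv_ne_zero
  exact (map_ne_zero_iff _ (FaithfulSMul.algebraMap_injective (𝓞 K) K)).mpr hn0

end Pool.Agent.Lib.MP_1a91b9_nt
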