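import Pool.Agent.Lib.MP_1a91b9_nt.S4Defs

set_option autoImplicit false

namespace Pool.Agent.Lib.MP_1a91b9_nt

open IsDedekindDomain NumberField Polynomial IntermediateField

theorem fixNum_stabilizer {K M : Type*} [Field K] [Field M] [Algebra K M] [FiniteDimensional K M]
    [IsGalois K M] (f : K[X]) (hf : Irreducible f) (a : M) (ha : aeval a f = 0) (g : Gal(M/K)) :
    fixNum (MulAction.stabilizer Gal(M/K) a) g = Nat.card {b : M // aeval b f = 0 ∧ g b = b} := by
  unfold fixNum
  have hmap : ∀ q : Gal(M/K) ⧸ MulAction.stabilizer Gal(M/K) a,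
      aeval (MulAction.ofQuotientStabilizer Gal(M/K) a q) f = 0 := by
    intro q
    induction q using Quotient.inductionOn' with
    | h s =>
      change aeval (s • a) f = 0
      have h1 : (s • a : M) = (s : M →ₐ[K] M) a := rfl
      rw [h1, Polynomial.aeval_algHom_apply, ha, map_zero]
  refine Nat.card_congr (Equiv.ofBijective (fun q : MulAction.fixedBy
    (Gal(M/K) ⧸ MulAction.stabilizer Gal(M/K) a) g =>
    (⟨MulAction.ofQuotientStabilizer Gal(M/K) a q.1, hmap q.1, ?_⟩ :
      {b : M // aeval b f = 0 ∧ g b = b})) ⟨?_, ?_⟩)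
  · have h1 : g • q.1 = q.1 := q.2
    have h2 := MulAction.ofQuotientStabilizer_smul Gal(M/K) a g q.1
    rw [h1] at h2
    exact h2.symm
  · intro q q' h
    have h1 : MulAction.ofQuotientStabilizer Gal(M/K) a q.1 =
        MulAction.ofQuotientStabilizer Gal(M/K) a q'.1 := congrArg Subtype.val h
    exact Subtype.ext (MulAction.injective_ofQuotientStabilizer Gal(M/K) a h1)
  · rintro ⟨b, hb, hgb⟩
    have hint : IsIntegral K a := Algebra.IsIntegral.isIntegral a
    have hmin : minpoly K a = f * C f.leadingCoeff⁻¹ := minpoly.eq_of_irreducible hf ha ▸ rfl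
    have hconj : IsConjRoot K a b := by
      refine isConjRoot_of_aeval_eq_zero hint ?_
      rw [hmin, map_mul, hb, zero_mul]
    obtain ⟨s, hs⟩ := hconj.symm.exists_algEquiv
    have h2 : MulAction.ofQuotientStabilizer Gal(M/K) a (QuotientGroup.mk s) = b := hs
    refine ⟨⟨QuotientGroup.mk s, ?_⟩, Subtype.ext h2⟩
    change g • (QuotientGroup.mk s : Gal(M/K) ⧸ MulAction.stabilizer Gal(M/K) a) = _
    apply MulAction.injective_ofQuotientStabilizer Gal(M/K) a
    rw [MulAction.ofQuotientStabilizer_smul, h2]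
    exact hgb

end Pool.Agent.Lib.MP_1a91b9_nt
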