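import Pool.Agent.Lib.MP_1a91b9_nt.S4Defs

/-!
# S14: linear disjointness and the order of a Galois group
-/

set_option autoImplicit false

namespace Pool.Agent.Lib.MP_1a91b9_nt

open IsDedekindDomain NumberField Polynomial IntermediateField

universe u

theorem S4Gal_top {K L M N : Type u} [Field K] [Field L] [Field M] [Field N] [Algebra K L]
    [Algebra K M] [Algebra K N] [Algebra L N] [Algebra M N] [IsScalarTower K L N]
    [IsScalarTower K M N] (ψ : K[X]) (hψ : ψ ≠ 0) (a : L) (ha : K⟮a⟯ = ⊤)
    (hM : ψ.IsSplittingField K M) (hN : (ψ.map (algebraMap K L)).IsSplittingField L N) :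
    M⟮algebraMap L N a⟯ = ⊤ := by
  set b : N := algebraMap L N a with hb
  have hLle : ∀ x : L, algebraMap L N x ∈ M⟮b⟯ := by
    intro x
    have hx : x ∈ K⟮a⟯ := by rw [ha]; exact IntermediateField.mem_top
    have h1 : algebraMap L N x ∈ (K⟮a⟯).map (IsScalarTower.toAlgHom K L N) := ⟨x, hx, rfl⟩
    rw [IntermediateField.adjoin_map, Set.image_singleton] at h1
    have h2 : K⟮(IsScalarTower.toAlgHom K L N) a⟯ ≤ (M⟮b⟯).restrictScalars K := by
      rw [IntermediateField.adjoin_le_iff, Set.singleton_subset_iff]
      exact IntermediateField.mem_adjoin_simple_self M b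
    exact h2 h1
  have hroots : ∀ y ∈ (ψ.map (algebraMap K L)).rootSet N, y ∈ M⟮b⟯ := by
    intro y hy
    have hy2 : aeval y ψ = 0 := by
      have := aeval_eq_zero_of_mem_rootSet hy
      rwa [aeval_map_algebraMap] at this
    have h3 : (ψ.map (algebraMap K M)).Splits := hM.splits
    have h4 := h3.image_rootSet (IsScalarTower.toAlgHom K M N)
    have h5 : y ∈ ψ.rootSet N := by
      rw [mem_rootSet]
      exact ⟨hψ, hy2⟩
    rw [← h4] at h5
    obtain ⟨z, -, hz⟩ := h5
    rw [← hz]
    exact (M⟮b⟯).algebraMap_mem z
  rw [eq_top_iff]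
  intro x _
  have hx : x ∈ Algebra.adjoin L ((ψ.map (algebraMap K L)).rootSet N) := by
    rw [hN.adjoin_rootSet]; exact Algebra.mem_top
  induction hx using Algebra.adjoin_induction with
  | mem y hy => exact hroots y hy
  | algebraMap r => exact hLle r
  | add y z _ _ hy hz => exact add_mem (hy trivial) (hz trivial)
  | mul y z _ _ hy hz => exact mul_mem (hy trivial) (hz trivial)

theorem card_gal_eq {K L : Type u} [Field K] [CharZero K] [Field L] [Algebra K L]
    [FiniteDimensional K L] (ψ : K[X]) (hψ : ψ ≠ 0) (a : L) (ha : K⟮a⟯ = ⊤)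
    (h : Irreducible ((minpoly K a).map (algebraMap K ψ.SplittingField))) :
    Nat.card (ψ.map (algebraMap K L)).Gal = Nat.card ψ.Gal := by
  have hL : CharZero L := charZero_of_injective_algebraMap (algebraMap K L).injective
  let N := (ψ.map (algebraMap K L)).SplittingField
  let M := ψ.SplittingField
  have hN : IsGalois L N := IsGalois.mk
  have hM : IsGalois K M := IsGalois.mk
  have hsplit : (ψ.map (algebraMap K N)).Splits := by
    have h1 := SplittingField.splits (ψ.map (algebraMap K L))
    rw [Polynomial.map_map, ← IsScalarTower.algebraMap_eq K L N] at h1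
    exact h1
  let f : M →ₐ[K] N := IsSplittingField.lift M ψ hsplit
  let _ : Algebra M N := f.toRingHom.toAlgebra
  have : IsScalarTower K M N := IsScalarTower.of_algebraMap_eq' f.comp_algebraMap.symm
  have hai : IsIntegral K a := Algebra.IsIntegral.isIntegral a
  -- the minimal polynomial over `M`
  set b : N := algebraMap L N a with hb
  have hmin : minpoly M b = (minpoly K a).map (algebraMap K M) := by
    symm
    apply minpoly.eq_of_irreducible_of_monic h
    · rw [aeval_map_algebraMap, hb, aeval_algebraMap_apply, minpoly.aeval, map_zero]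
    · exact (minpoly.monic hai).map _
  have hfinM : FiniteDimensional K M := inferInstance
  have hfinN : FiniteDimensional L N := inferInstance
  have hfinKN : FiniteDimensional K N := FiniteDimensional.trans K L N
  have hfinMN : FiniteDimensional M N := FiniteDimensional.right K M N
  have hbint : IsIntegral M b := Algebra.IsIntegral.isIntegral b
  have htop : M⟮b⟯ = ⊤ :=
    S4Gal_top ψ hψ a ha (inferInstanceAs (ψ.IsSplittingField K ψ.SplittingField))
      (inferInstanceAs ((ψ.map (algebraMap K L)).IsSplittingField L
        (ψ.map (algebraMap K L)).SplittingField))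
  have hdeg : Module.finrank M N = Module.finrank K L := by
    have h1 : Module.finrank M M⟮b⟯ = (minpoly M b).natDegree :=
      IntermediateField.adjoin.finrank hbint
    have h2 : Module.finrank K K⟮a⟯ = (minpoly K a).natDegree :=
      IntermediateField.adjoin.finrank hai
    rw [htop, IntermediateField.finrank_top', hmin, natDegree_map] at h1
    rw [ha, IntermediateField.finrank_top'] at h2
    rw [h1, h2]
  have hmul1 := Module.finrank_mul_finrank K L N
  have hmul2 := Module.finrank_mul_finrank K M N
  have hpos : 0 < Module.finrank K L := Module.finrank_pos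
  have hfin : Module.finrank L N = Module.finrank K M := by
    rw [← hmul1, hdeg, mul_comm] at hmul2
    exact (Nat.eq_of_mul_eq_mul_left hpos hmul2).symm
  have h1 : Nat.card Gal(N/L) = Module.finrank L N := IsGalois.card_aut_eq_finrank L N
  have h2 : Nat.card Gal(M/K) = Module.finrank K M := IsGalois.card_aut_eq_finrank K M
  change Nat.card Gal(N/L) = Nat.card Gal(M/K)
  rw [h1, h2, hfin]

end Pool.Agent.Lib.MP_1a91b9_nt
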