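import Pool.Agent.Lib.MP_1a91b9_nt.S4Defs
import Pool.Agent.Lib.MP_1a91b9_nt.RankRel

/-!
# JOB S4GROWTH: the rank of the fixed points grows
-/

set_option autoImplicit false

namespace Pool.Agent.Lib.MP_1a91b9_nt

open IsDedekindDomain NumberField Polynomial IntermediateField

universe u

theorem s4Growth_rank_add_one_le {G : Type*} [Group G] {A : Type u} [AddCommGroup A]
    (ρ : G →* Module.End ℤ A) (C : Subgroup G) (P : A) (hP : P ∈ invSub ρ C)
    {ι : Type*} [Fintype ι] [Nonempty ι] (s : ι → G) (hs : ∑ i, ρ (s i) P = 0)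
    (hn : ∀ n : ℕ, n ≠ 0 → n • P ≠ 0) :
    Module.rank ℤ (invSub ρ ⊤) + 1 ≤ Module.rank ℤ (invSub ρ C) := by
  have hle : invSub ρ ⊤ ≤ invSub ρ C := fun a ha h _ => ha h trivial
  set N : Submodule ℤ (invSub ρ C) := (invSub ρ ⊤).comap (invSub ρ C).subtype with hN
  have h1 := rank_quotient_add_rank_le N
  have h2 : Module.rank ℤ N = Module.rank ℤ (invSub ρ ⊤) :=
    (Submodule.comapSubtypeEquivOfLe hle).rank_eq
  have h3 : 1 ≤ Module.rank ℤ (invSub ρ C ⧸ N) := by
    rw [Module.one_le_rank_iff]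
    refine ⟨LinearMap.toSpanSingleton ℤ _ (Submodule.Quotient.mk ⟨P, hP⟩), ?_⟩
    rw [injective_iff_map_eq_zero]
    intro a ha
    by_contra hne
    rw [LinearMap.toSpanSingleton_apply, ← Submodule.Quotient.mk_smul,
      Submodule.Quotient.mk_eq_zero] at ha
    have h4 : ∀ i, ρ (s i) (a • P) = a • P := fun i => ha (s i) trivial
    have h5 : ((Fintype.card ι : ℤ) * a) • P = 0 := by
      have h6 : ∑ i, ρ (s i) (a • P) = 0 := by
        simp only [map_smul]
        rw [← Finset.smul_sum, hs, smul_zero]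
      simp only [h4, Finset.sum_const, Finset.card_univ] at h6
      rw [mul_smul, natCast_zsmul]
      exact h6
    have h7 : ((Fintype.card ι : ℤ) * a).natAbs • P = 0 := by
      rcases Int.natAbs_eq ((Fintype.card ι : ℤ) * a) with h8 | h8
      · rw [← natCast_zsmul, ← h8, h5]
      · have h9 : ((((Fintype.card ι : ℤ) * a).natAbs : ℕ) : ℤ) = -((Fintype.card ι : ℤ) * a) := by
          omega
        rw [← natCast_zsmul, h9, neg_smul, h5, neg_zero]
    exact hn _ (by
      rw [Int.natAbs_ne_zero]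
      exact mul_ne_zero (by exact_mod_cast Fintype.card_ne_zero) hne) h7
  calc Module.rank ℤ (invSub ρ ⊤) + 1 = 1 + Module.rank ℤ N := by rw [h2, add_comm]
    _ ≤ Module.rank ℤ (invSub ρ C ⧸ N) + Module.rank ℤ N := by gcongr
    _ ≤ _ := h1

theorem growth {K M : Type u} [Field K] [NumberField K] [Field M] [NumberField M] [Algebra K M]
    [IsGalois K M] [DecidableEq M] (W : WeierstrassCurve K) (H : Subgroup Gal(M/K))
    (P : (W.baseChange M).toAffine.Point) (hP : P ∈ invSub (galRho W) H)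
    (hn : ∀ n : ℕ, n ≠ 0 → n • P ≠ 0) {ι : Type*} [Fintype ι] [Nonempty ι] (s : ι → Gal(M/K))
    (hs : ∑ i, galRho W (s i) P = 0) :
    mwRank W + 1 ≤ mwRank (W.baseChange (fixedField H)) := by
  rw [mwRank_eq_top (M := M) W, rank_fixedField W H]
  exact s4Growth_rank_add_one_le (galRho W) H P hP s hs hn

end Pool.Agent.Lib.MP_1a91b9_nt
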