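import Pool.Agent.Lib.MP_1a91b9_nt.S4Defs

set_option autoImplicit false

namespace Pool.Agent.Lib.MP_1a91b9_nt

open Polynomial

/-! ### S1 -/

section
variable {k : Type*} [Field k]

private theorem S4Irred_cubic_natDegree (a b c : k) :
    (X ^ 3 + C a * X ^ 2 + C b * X + C c : k[X]).natDegree = 3 := by
  compute_degree!

private theorem S4Irred_cubic_monic (a b c : k) :
    (X ^ 3 + C a * X ^ 2 + C b * X + C c : k[X]).Monic := by
  monicity!

private theorem S4Irred_coeffs {a b c a' b' c' : k}
    (h : (X ^ 3 + C a * X ^ 2 + C b * X + C c : k[X]) =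
      X ^ 3 + C a' * X ^ 2 + C b' * X + C c') :
    a = a' ∧ b = b' ∧ c = c' := by
  have c2 := congrArg (fun P => P.coeff 2) h
  have c1 := congrArg (fun P => P.coeff 1) h
  have c0 := congrArg (fun P => P.coeff 0) h
  simp [coeff_X, coeff_C] at c2 c1 c0
  exact ⟨c2, c1, c0⟩

private theorem S4Irred_coeffs4 {a b c d a' b' c' d' : k}
    (h : (X ^ 4 + C a * X ^ 3 + C b * X ^ 2 + C c * X + C d : k[X]) =
      X ^ 4 + C a' * X ^ 3 + C b' * X ^ 2 + C c' * X + C d') :
    a = a' ∧ b = b' ∧ c = c' ∧ d = d' := by
  have c3 := congrArg (fun P => P.coeff 3) h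
  have c2 := congrArg (fun P => P.coeff 2) h
  have c1 := congrArg (fun P => P.coeff 1) h
  have c0 := congrArg (fun P => P.coeff 0) h
  simp [coeff_X, coeff_C] at c3 c2 c1 c0
  exact ⟨c3, c2, c1, c0⟩

private theorem S4Irred_form1 {g : k[X]} (hg : g.Monic) (h : g.natDegree = 1) :
    ∃ a, g = X + C a := by
  refine ⟨g.coeff 0, ?_⟩
  have := hg.as_sum
  rw [h] at this
  simpa [Finset.sum_range_succ] using this

private theorem S4Irred_form2 {g : k[X]} (hg : g.Monic) (h : g.natDegree = 2) :
    ∃ a b, g = X ^ 2 + C a * X + C b := by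
  refine ⟨g.coeff 1, g.coeff 0, ?_⟩
  have := hg.as_sum
  rw [h, Finset.sum_range_succ, Finset.sum_range_one] at this
  rw [this]
  simp only [pow_zero, mul_one, pow_one]
  simp [coeff_X]
  ring

private theorem S4Irred_form3 {g : k[X]} (hg : g.Monic) (h : g.natDegree = 3) :
    ∃ a b c, g = X ^ 3 + C a * X ^ 2 + C b * X + C c := by
  refine ⟨g.coeff 2, g.coeff 1, g.coeff 0, ?_⟩
  have := hg.as_sum
  rw [h, Finset.sum_range_succ, Finset.sum_range_succ, Finset.sum_range_one] at this
  conv_lhs => rw [this]
  simp only [pow_zero, mul_one, pow_one]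
  ring

end

theorem irred_quart_resol {k : Type*} [Field k] [CharZero k] (p q r : k)
    (h1 : ∀ y, (quart p q r).eval y ≠ 0) (h2 : ∀ z, (resol p q r).eval z ≠ 0) :
    Irreducible (quart p q r) ∧ Irreducible (resol p q r) ∧
      Irreducible ((resol p q r).comp (X ^ 2)) := by
  have hG : resol p q r = X ^ 3 + C (2 * p) * X ^ 2 + C (p ^ 2 - 4 * r) * X + C (-q ^ 2) := by
    rw [resol, C_neg, sub_eq_add_neg]
  have hGe : ∀ z, z ^ 3 + 2 * p * z ^ 2 + (p ^ 2 - 4 * r) * z + -q ^ 2 ≠ 0 := by
    intro z h
    apply h2 z
    rw [hG]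
    simpa using h
  have hQe : ∀ y, y ^ 4 + p * y ^ 2 + q * y + r ≠ 0 := by
    intro y h
    apply h1 y
    rw [quart]
    simpa using h
  have hGm : (resol p q r).Monic := by
    rw [hG]
    exact S4Irred_cubic_monic _ _ _
  have hGd : (resol p q r).natDegree = 3 := by
    rw [hG]
    exact S4Irred_cubic_natDegree _ _ _
  have hGi : Irreducible (resol p q r) := by
    rw [hGm.irreducible_iff_roots_eq_zero_of_degree_le_three (by rw [hGd]; norm_num)
      (by rw [hGd])]
    rw [Multiset.eq_zero_iff_forall_notMem]
    intro z hz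
    rw [mem_roots hGm.ne_zero, IsRoot.def] at hz
    exact h2 z hz
  refine ⟨?_, hGi, ?_⟩
  · -- the quartic
    have hQ : quart p q r = X ^ 4 + C 0 * X ^ 3 + C p * X ^ 2 + C q * X + C r := by
      rw [quart, map_zero, zero_mul, add_zero]
    have hQm : (quart p q r).Monic := by
      rw [quart]
      monicity!
    have hQd : (quart p q r).natDegree = 4 := by
      rw [quart]
      compute_degree!
    rw [hQm.irreducible_iff_natDegree']
    refine ⟨?_, ?_⟩
    · intro h
      rw [h] at hQd
      simp at hQd
    · intro f g hf hg hfg hmem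
      rw [hQd, Finset.mem_Ioc] at hmem
      have hdeg : f.natDegree + g.natDegree = 4 := by
        rw [← hQd, ← hfg, hf.natDegree_mul hg]
      have hg12 : g.natDegree = 1 ∨ g.natDegree = 2 := by omega
      rcases hg12 with hg1 | hg2
      · obtain ⟨a, rfl⟩ := S4Irred_form1 hg hg1
        apply h1 (-a)
        rw [← hfg, eval_mul]
        simp
      · obtain ⟨c, d, rfl⟩ := S4Irred_form2 hg hg2
        obtain ⟨a, b, rfl⟩ := S4Irred_form2 hf (by omega)
        have h3 : (X ^ 4 + C (a + c) * X ^ 3 + C (b + d + a * c) * X ^ 2 + C (a * d + b * c) * X +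
            C (b * d) : k[X]) = X ^ 4 + C 0 * X ^ 3 + C p * X ^ 2 + C q * X + C r := by
          rw [← hQ, ← hfg]
          simp only [map_add, map_mul]
          ring
        obtain ⟨e3, e2, e1, e0⟩ := S4Irred_coeffs4 h3
        have hc : c = -a := by linear_combination e3
        subst hc
        apply hGe (a ^ 2)
        rw [← e2, ← e1, ← e0]
        ring
  · -- the sextic
    have hS : (resol p q r).comp (X ^ 2) = X ^ 6 + C (2 * p) * X ^ 4 + C (p ^ 2 - 4 * r) * X ^ 2 +
        C (-q ^ 2) := by
      rw [hG]
      simp only [add_comp, mul_comp, pow_comp, X_comp, C_comp]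
      ring
    have hSm : ((resol p q r).comp (X ^ 2)).Monic := by
      rw [hS]
      monicity!
    have hSd : ((resol p q r).comp (X ^ 2)).natDegree = 6 := by
      rw [natDegree_comp, hGd, natDegree_X_pow]
    rw [hSm.irreducible_iff_natDegree']
    refine ⟨?_, ?_⟩
    · intro h
      rw [h] at hSd
      simp at hSd
    · intro f g hf hg hfg hmem
      rw [hSd, Finset.mem_Ioc] at hmem
      -- a root of `g`
      have hg0 : g.degree ≠ 0 := by
        intro h
        have h' : g.natDegree = 0 := natDegree_eq_of_degree_eq_some h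
        omega
      obtain ⟨t, ht⟩ := IsAlgClosed.exists_aeval_eq_zero (AlgebraicClosure k) g hg0
      have htG : aeval (t ^ 2) (resol p q r) = 0 := by
        have : aeval t ((resol p q r).comp (X ^ 2)) = 0 := by
          rw [← hfg, map_mul, ht, mul_zero]
        rw [aeval_comp] at this
        simpa using this
      have hmin : resol p q r = minpoly k (t ^ 2) :=
        minpoly.eq_of_irreducible_of_monic hGi htG hGm
      have hg123 : g.natDegree = 1 ∨ g.natDegree = 2 ∨ g.natDegree = 3 := by omega
      rcases hg123 with hg1 | hg2 | hg3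
      · obtain ⟨a, rfl⟩ := S4Irred_form1 hg hg1
        apply h2 ((-a) ^ 2)
        have h3 : ((resol p q r).comp (X ^ 2)).eval (-a) = 0 := by
          rw [← hfg, eval_mul]
          simp
        rw [eval_comp] at h3
        simpa using h3
      · obtain ⟨c, d, rfl⟩ := S4Irred_form2 hg hg2
        have ht2 : t ^ 2 + algebraMap k _ c * t + algebraMap k _ d = 0 := by
          simpa using ht
        have h3 : aeval (t ^ 2) (X ^ 2 + C (2 * d - c ^ 2) * X + C (d ^ 2) : k[X]) = 0 := by
          simp only [map_add, map_mul, map_pow, aeval_X, aeval_C, map_sub, map_ofNat]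
          linear_combination (t ^ 2 - algebraMap k _ c * t + algebraMap k _ d) * ht2
        have h4 : resol p q r ∣ (X ^ 2 + C (2 * d - c ^ 2) * X + C (d ^ 2) : k[X]) := by
          rw [hmin]
          exact minpoly.dvd k _ h3
        have h5 : (X ^ 2 + C (2 * d - c ^ 2) * X + C (d ^ 2) : k[X]).Monic := by monicity!
        have h6 : (X ^ 2 + C (2 * d - c ^ 2) * X + C (d ^ 2) : k[X]).natDegree = 2 := by
          compute_degree!
        have h7 := natDegree_le_of_dvd h4 h5.ne_zero
        omega
      · obtain ⟨a, b, c, rfl⟩ := S4Irred_form3 hg hg3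
        have ht3 : t ^ 3 + algebraMap k _ a * t ^ 2 + algebraMap k _ b * t + algebraMap k _ c = 0 := by
          simpa using ht
        have h3 : aeval (t ^ 2) (X ^ 3 + C (2 * b - a ^ 2) * X ^ 2 + C (b ^ 2 - 2 * a * c) * X +
            C (-c ^ 2) : k[X]) = 0 := by
          simp only [map_add, map_mul, map_pow, aeval_X, aeval_C, map_sub, map_ofNat, map_neg]
          linear_combination (t ^ 3 - algebraMap k _ a * t ^ 2 + algebraMap k _ b * t -
            algebraMap k _ c) * ht3
        have h4 : resol p q r ∣ (X ^ 3 + C (2 * b - a ^ 2) * X ^ 2 + C (b ^ 2 - 2 * a * c) * X +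
            C (-c ^ 2) : k[X]) := by
          rw [hmin]
          exact minpoly.dvd k _ h3
        have h5 := eq_of_monic_of_dvd_of_natDegree_le hGm
          (S4Irred_cubic_monic (2 * b - a ^ 2) (b ^ 2 - 2 * a * c) (-c ^ 2)) h4
          (by rw [S4Irred_cubic_natDegree, hGd])
        rw [hG] at h5
        obtain ⟨e2, e1, e0⟩ := S4Irred_coeffs h5
        have e3 : (c - q) * (c + q) = 0 := by linear_combination -e0
        have h20 : (2 : k) ≠ 0 := two_ne_zero
        rcases mul_eq_zero.mp e3 with h' | h'
        · apply hQe (-a / 2)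
          have hcq : c = q := sub_eq_zero.mp h'
          subst hcq
          have hp : p = b - a ^ 2 / 2 := by
            field_simp
            linear_combination -e2
          have hr : r = (p ^ 2 - b ^ 2 + 2 * a * c) / 4 := by
            field_simp
            linear_combination e1
          rw [hr, hp]
          field_simp
          ring
        · apply hQe (a / 2)
          have hcq : q = -c := by linear_combination h'
          subst hcq
          have hp : p = b - a ^ 2 / 2 := by
            field_simp
            linear_combination -e2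
          have hr : r = (p ^ 2 - b ^ 2 + 2 * a * c) / 4 := by
            field_simp
            linear_combination e1
          rw [hr, hp]
          field_simp
          ring

end Pool.Agent.Lib.MP_1a91b9_nt
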