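import Pool.Agent.Lib.MP_1a91b9_nt.S4Defs
import Pool.Agent.Lib.MP_1a91b9_nt.NonTorsion

/-!
# Points with 2-adically large abscissa have infinite order (short equations, points over `L`)
-/

set_option autoImplicit false

namespace Pool.Agent.Lib.MP_1a91b9_nt

open IsDedekindDomain NumberField Polynomial IntermediateField

universe u

/-- The valuation computation for a short equation. -/
theorem val_double_short {F Γ : Type*} [Field F] [LinearOrderedCommGroupWithZero Γ]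
    (V : Valuation F Γ) (h2 : V 2 < 1) (h20 : (2 : F) ≠ 0) (a4 a6 x : F) (hx : 1 < V x)
    (hA : V a4 < V x) (hB : V a6 < V x) :
    x ^ 3 + a4 * x + a6 ≠ 0 ∧
      V x < V ((x ^ 4 - 2 * a4 * x ^ 2 - 8 * a6 * x + a4 ^ 2) / (4 * (x ^ 3 + a4 * x + a6))) := by
  have h4 : V 4 = V 2 * V 2 := by rw [← map_mul]; norm_num
  have hV2 : V 2 ≠ 0 := (Valuation.ne_zero_iff V).2 h20
  have hV2pos : 0 < V 2 := zero_lt_iff.2 hV2
  have hV4pos : 0 < V 4 := by rw [h4]; exact mul_pos hV2pos hV2pos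
  have hV4 : V 4 < 1 := by
    rw [h4]
    calc V 2 * V 2 < 1 * V 2 := mul_lt_mul_of_pos_right h2 hV2pos
      _ = V 2 := one_mul _
      _ < 1 := h2
  have hV8 : V 8 ≤ 1 := by
    have h8 : V 8 = V 4 * V 2 := by rw [← map_mul]; norm_num
    rw [h8]
    exact mul_le_one' hV4.le h2.le
  set Z := V x with hZ
  have hZpos : 0 < Z := zero_lt_one.trans hx
  have hp : ∀ m n : ℕ, m ≤ n → Z ^ m ≤ Z ^ n := fun m n h => pow_le_pow_right₀ hx.le h
  -- the denominator
  have hd1 : V (a4 * x) < Z ^ 3 := by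
    rw [map_mul]
    calc V a4 * Z < Z * Z := mul_lt_mul_of_pos_right hA hZpos
      _ = Z ^ 2 := (sq Z).symm
      _ ≤ Z ^ 3 := hp 2 3 (by norm_num)
  have hd2 : V a6 < Z ^ 3 := by
    calc V a6 < Z := hB
      _ = Z ^ 1 := (pow_one Z).symm
      _ ≤ Z ^ 3 := hp 1 3 (by norm_num)
  have hx3 : V (x ^ 3) = Z ^ 3 := map_pow V x 3
  have hden : V (x ^ 3 + a4 * x + a6) = Z ^ 3 := by
    have e1 : V (x ^ 3 + a4 * x) = Z ^ 3 := by
      rw [Valuation.map_add_eq_of_lt_left V (by rw [hx3]; exact hd1), hx3]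
    rw [Valuation.map_add_eq_of_lt_left V (by rw [e1]; exact hd2), e1]
  -- the numerator
  have hn1 : V (2 * a4 * x ^ 2) < Z ^ 4 := by
    rw [map_mul, map_mul, map_pow]
    calc V 2 * V a4 * Z ^ 2 ≤ 1 * V a4 * Z ^ 2 := by gcongr
      _ = V a4 * Z ^ 2 := by rw [one_mul]
      _ < Z * Z ^ 2 := mul_lt_mul_of_pos_right hA (pow_pos hZpos 2)
      _ = Z ^ 3 := (pow_succ' Z 2).symm
      _ ≤ Z ^ 4 := hp 3 4 (by norm_num)
  have hn2 : V (8 * a6 * x) < Z ^ 4 := by
    rw [map_mul, map_mul]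
    calc V 8 * V a6 * Z ≤ 1 * V a6 * Z := by gcongr
      _ = V a6 * Z := by rw [one_mul]
      _ < Z * Z := mul_lt_mul_of_pos_right hB hZpos
      _ = Z ^ 2 := (sq Z).symm
      _ ≤ Z ^ 4 := hp 2 4 (by norm_num)
  have hn3 : V (a4 ^ 2) < Z ^ 4 := by
    rw [map_pow]
    calc V a4 ^ 2 ≤ Z ^ 2 := by gcongr
      _ < Z ^ 4 := pow_lt_pow_right₀ hx (by norm_num)
  have hx4 : V (x ^ 4) = Z ^ 4 := map_pow V x 4
  have hnum : V (x ^ 4 - 2 * a4 * x ^ 2 - 8 * a6 * x + a4 ^ 2) = Z ^ 4 := by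
    have e1 : V (x ^ 4 - 2 * a4 * x ^ 2) = Z ^ 4 := by
      rw [Valuation.map_sub_eq_of_lt_left V (by rw [hx4]; exact hn1), hx4]
    have e2 : V (x ^ 4 - 2 * a4 * x ^ 2 - 8 * a6 * x) = Z ^ 4 := by
      rw [Valuation.map_sub_eq_of_lt_left V (by rw [e1]; exact hn2), e1]
    rw [Valuation.map_add_eq_of_lt_left V (by rw [e2]; exact hn3), e2]
  refine ⟨?_, ?_⟩
  · intro h0
    rw [h0, map_zero] at hden
    exact (pow_pos hZpos 3).ne hden
  · rw [map_div₀, hnum, map_mul, hden, lt_div_iff₀ (mul_pos hV4pos (pow_pos hZpos 3))]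
    calc Z * (V 4 * Z ^ 3) = V 4 * Z ^ 4 := by rw [mul_left_comm, ← pow_succ']
      _ < 1 * Z ^ 4 := mul_lt_mul_of_pos_right hV4 (pow_pos hZpos 4)
      _ = Z ^ 4 := one_mul _

theorem double_step_short {L : Type*} [Field L] [DecidableEq L] {Γ : Type*}
    [LinearOrderedCommGroupWithZero Γ] (v : Valuation L Γ) (hv2 : v 2 < 1) (h20 : (2 : L) ≠ 0)
    (V : WeierstrassCurve.Affine L) (h1 : V.a₁ = 0) (h2 : V.a₂ = 0) (h3 : V.a₃ = 0)
    (x y : L) (h : V.Nonsingular x y) (hx : 1 < v x) (hA : v V.a₄ < v x) (hB : v V.a₆ < v x) :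
    ∃ (x' y' : L) (h' : V.Nonsingular x' y'), v x < v x' ∧
      (WeierstrassCurve.Affine.Point.some _ _ h + WeierstrassCurve.Affine.Point.some _ _ h :
        V.Point) = WeierstrassCurve.Affine.Point.some _ _ h' := by
  obtain ⟨hD, hlt⟩ := val_double_short v hv2 h20 V.a₄ V.a₆ x hx hA hB
  have h40 : (4 : L) ≠ 0 := by
    have : (4 : L) = 2 * 2 := by norm_num
    rw [this]; exact mul_ne_zero h20 h20
  have hb2 : V.b₂ = 0 := by simp only [WeierstrassCurve.b₂]; rw [h1, h2]; ring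
  have hb4 : V.b₄ = 2 * V.a₄ := by simp only [WeierstrassCurve.b₄]; rw [h1, h3]; ring
  have hb6 : V.b₆ = 4 * V.a₆ := by simp only [WeierstrassCurve.b₆]; rw [h3]; ring
  have hb8 : V.b₈ = - V.a₄ ^ 2 := by simp only [WeierstrassCurve.b₈]; rw [h1, h2, h3]; ring
  have hy : y ≠ V.negY x y := by
    intro hy
    have := psi_eq_zero_of_negY V h.1 hy
    rw [hb2, hb4, hb6] at this
    have h' : 4 * (x ^ 3 + V.a₄ * x + V.a₆) = 0 := by linear_combination this
    exact mul_ne_zero h40 hD h'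
  have hadd := addX_self_mul V h.1 hy
  have hX : V.addX x x (V.slope x x y y) =
      (x ^ 4 - 2 * V.a₄ * x ^ 2 - 8 * V.a₆ * x + V.a₄ ^ 2) /
        (4 * (x ^ 3 + V.a₄ * x + V.a₆)) := by
    rw [eq_div_iff (mul_ne_zero h40 hD)]
    rw [hb2, hb4, hb6, hb8] at hadd
    linear_combination hadd
  have key : ∀ X' : L, V.addX x x (V.slope x x y y) = X' →
      ∃ (y' : L) (h' : V.Nonsingular X' y'),
      (WeierstrassCurve.Affine.Point.some _ _ h + WeierstrassCurve.Affine.Point.some _ _ h :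
        V.Point) = WeierstrassCurve.Affine.Point.some _ _ h' := by
    rintro X' rfl
    exact ⟨_, _, WeierstrassCurve.Affine.Point.add_self_of_Y_ne hy⟩
  obtain ⟨y', h', hh⟩ := key _ hX
  exact ⟨_, y', h', hlt, hh⟩

theorem nt_short {L : Type*} [Field L] [DecidableEq L] {Γ : Type*}
    [LinearOrderedCommGroupWithZero Γ] (v : Valuation L Γ) (hv2 : v 2 < 1) (h20 : (2 : L) ≠ 0)
    (V : WeierstrassCurve.Affine L) (h1 : V.a₁ = 0) (h2 : V.a₂ = 0) (h3 : V.a₃ = 0)
    (x y : L) (h : V.Nonsingular x y) (hx : 1 < v x) (hA : v V.a₄ < v x) (hB : v V.a₆ < v x)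
    (n : ℕ) (hn : n ≠ 0) :
    n • (WeierstrassCurve.Affine.Point.some _ _ h : V.Point) ≠ 0 := by
  intro hnP
  set P : V.Point := WeierstrassCurve.Affine.Point.some _ _ h with hP
  have hfin : IsOfFinAddOrder P :=
    isOfFinAddOrder_iff_nsmul_eq_zero.2 ⟨n, Nat.pos_of_ne_zero hn, hnP⟩
  have hfinite : Finite (AddSubgroup.zmultiples P) := finite_zmultiples.2 hfin
  let A := {x' : L // v x ≤ v x' ∧ ∃ (y : L) (h : V.Nonsingular x' y),
    (WeierstrassCurve.Affine.Point.some _ _ h : V.Point) ∈ AddSubgroup.zmultiples P}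
  have hAfin : Finite A := by
    choose y h hm using fun a : A => a.2.2
    refine Finite.of_injective (β := AddSubgroup.zmultiples P) (fun a => ⟨_, hm a⟩) ?_
    intro a b hab
    have h1 := congrArg Subtype.val hab
    simp only [WeierstrassCurve.Affine.Point.some.injEq] at h1
    exact Subtype.ext h1.1
  have hstep : ∀ a : A, ∃ b : A, v a.1 < v b.1 := by
    rintro ⟨x₁, hx₁, y₁, h₁, hm⟩
    obtain ⟨x', y', h', hlt, hadd⟩ := double_step_short v hv2 h20 V h1 h2 h3 x₁ y₁ h₁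
      (hx.trans_le hx₁) (hA.trans_le hx₁) (hB.trans_le hx₁)
    exact ⟨⟨x', hx₁.trans hlt.le, y', h', hadd ▸ AddSubgroup.add_mem _ hm hm⟩, hlt⟩
  choose f hf using hstep
  let a₀ : A := ⟨x, le_rfl, y, h, AddSubgroup.mem_zmultiples P⟩
  have hmono : StrictMono fun k : ℕ => v (f^[k] a₀).1 := by
    refine strictMono_nat_of_lt_succ fun k => ?_
    rw [Function.iterate_succ_apply']
    exact hf _
  have hinj : Function.Injective fun k : ℕ => f^[k] a₀ := by
    intro i j hij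
    exact hmono.injective (congrArg (fun a : A => v a.1) hij)
  exact not_injective_infinite_finite _ hinj

end Pool.Agent.Lib.MP_1a91b9_nt
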