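import Pool.Agent.Lib.MP_1a91b9_nt.S4Defs

set_option autoImplicit false

namespace Pool.Agent.Lib.MP_1a91b9_nt

open IsDedekindDomain NumberField Polynomial IntermediateField

universe u

/-- A root of the quartic in a normal extension gives a root of the resolvent. -/
theorem no_root_normal {K N : Type u} [Field K] [CharZero K] [Field N] [Algebra K N]
    [Normal K N] (p q r : K) (hQ : Irreducible (quart p q r))
    (hN : ∀ z : N, aeval z (resol p q r) ≠ 0) : ∀ y : N, aeval y (quart p q r) ≠ 0 := by
  intro y hy
  have hdeg : (quart p q r).natDegree = 4 := by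
    unfold quart
    compute_degree!
  have hmonic : (quart p q r).Monic := by
    unfold quart
    monicity!
  have hmin : quart p q r = minpoly K y := minpoly.eq_of_irreducible_of_monic hQ hy hmonic
  have hsplit : ((quart p q r).map (algebraMap K N)).Splits := by
    rw [hmin]
    exact Normal.splits inferInstance y
  have hdegN : ((quart p q r).map (algebraMap K N)).natDegree = 4 := by
    rw [Polynomial.natDegree_map, hdeg]
  have hmonN : ((quart p q r).map (algebraMap K N)).Monic := hmonic.map _
  have hcard : Multiset.card ((quart p q r).map (algebraMap K N)).roots = 4 := by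
    rw [← hsplit.natDegree_eq_card_roots, hdegN]
  obtain ⟨a, b, c, d, habcd⟩ : ∃ a b c d : N,
      ((quart p q r).map (algebraMap K N)).roots = {a, b, c, d} := by
    obtain ⟨l, hl⟩ := Quot.exists_rep ((quart p q r).map (algebraMap K N)).roots
    have hl' : (l : Multiset N) = ((quart p q r).map (algebraMap K N)).roots := hl
    rw [← hl', Multiset.coe_card] at hcard
    match l, hcard, hl' with
    | [a, b, c, d], _, h => exact ⟨a, b, c, d, h.symm⟩
  have hprod := hsplit.eq_prod_roots_of_monic hmonN
  rw [habcd] at hprod
  have hexp : (quart p q r).map (algebraMap K N) =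
      (X - C a) * ((X - C b) * ((X - C c) * (X - C d))) := by
    rw [hprod]
    simp
  have hN' := hN ((a + b) ^ 2)
  apply hN'
  -- coefficients
  have hQN : (quart p q r).map (algebraMap K N) = X ^ 4 + C (algebraMap K N p) * X ^ 2 +
      C (algebraMap K N q) * X + C (algebraMap K N r) := by
    unfold quart
    simp
  rw [hQN] at hexp
  have e0 := congrArg (eval 0) hexp
  have e1 := congrArg (eval 1) hexp
  have e2 := congrArg (eval (-1)) hexp
  have e3 := congrArg (eval 2) hexp
  have e4 := congrArg (eval (-2)) hexp
  simp only [eval_add, eval_mul, eval_pow, eval_X, eval_C, eval_sub] at e0 e1 e2 e3 e4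
  unfold resol
  simp only [map_add, map_sub, map_mul, map_pow, aeval_X, aeval_C, map_ofNat]
  have hchar : CharZero N := charZero_of_injective_algebraMap (algebraMap K N).injective
  have h12 : (12 : N) ≠ 0 := by norm_num
  have s1 : a + b + c + d = 0 := by
    apply mul_left_cancel₀ h12
    linear_combination e3 - e4 - 2 * e1 + 2 * e2
  have s2 : a * b + a * c + a * d + b * c + b * d + c * d = algebraMap K N p := by
    apply mul_left_cancel₀ (two_ne_zero (α := N))
    linear_combination -e1 - e2 + 2 * e0
  have s3 : -(a * b * c + a * b * d + a * c * d + b * c * d) = algebraMap K N q := by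
    apply mul_left_cancel₀ h12
    linear_combination -8 * (e1 - e2) + (e3 - e4)
  have s4 : a * b * c * d = algebraMap K N r := by
    linear_combination -e0
  have hd : d = -a - b - c := by linear_combination s1
  subst hd
  rw [← s2, ← s3, ← s4]
  ring

end Pool.Agent.Lib.MP_1a91b9_nt
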