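import Pool.Agent.Lib.MP_1a91b9_nt.S4Defs

/-!
# Quartic extensions: the parametrisation of the points with `f(x)` a sum of two squares
-/

set_option autoImplicit false

namespace Pool.Agent.Lib.MP_1a91b9_nt

theorem param_identity {K : Type*} [Field K] (h2 : (2 : K) ≠ 0) (A B η v : K) (hv : v ≠ 0)
    (hη : 1 + η ^ 2 ≠ 0) :
    pX A B (1 + η ^ 2) v ^ 3 + A * pX A B (1 + η ^ 2) v + B =
      pH A B η v ^ 2 + pJ A B η v ^ 2 := by
  have hA : A = 2 * pAl A v + v ^ 2 := by
    unfold pAl; field_simp; ring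
  have hB : B = (1 + η ^ 2) + 2 * v * pBe B (1 + η ^ 2) v := by
    unfold pBe; field_simp; ring
  have hR : pR A B (1 + η ^ 2) v = pAl A v ^ 3 + pAl A v * pBe B (1 + η ^ 2) v ^ 2 +
      (1 + η ^ 2) ^ 2 + (1 + η ^ 2) * v * pBe B (1 + η ^ 2) v := by
    unfold pR
    generalize pAl A v = al at *
    generalize pBe B (1 + η ^ 2) v = be at *
    generalize (1 + η ^ 2) = z at *
    subst hA
    subst hB
    field_simp
    ring
  have hS : pS A B (1 + η ^ 2) v = -(pAl A v ^ 2 * pBe B (1 + η ^ 2) v) -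
      pBe B (1 + η ^ 2) v ^ 3 + (1 + η ^ 2) * v * pAl A v := by
    unfold pS
    generalize pAl A v = al at *
    generalize pBe B (1 + η ^ 2) v = be at *
    generalize (1 + η ^ 2) = z at *
    subst hA
    subst hB
    ring
  have hHJ : pH A B η v ^ 2 + pJ A B η v ^ 2 =
      (pR A B (1 + η ^ 2) v ^ 2 + pS A B (1 + η ^ 2) v ^ 2) / (1 + η ^ 2) ^ 3 := by
    unfold pH pJ
    generalize pR A B (1 + η ^ 2) v = R at *
    generalize pS A B (1 + η ^ 2) v = S at *
    field_simp
    ring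
  rw [hHJ, hR, hS]
  unfold pX
  generalize pAl A v = al at *
  generalize pBe B (1 + η ^ 2) v = be at *
  generalize (1 + η ^ 2) = z at *
  subst hA
  subst hB
  field_simp
  ring

end Pool.Agent.Lib.MP_1a91b9_nt
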