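import Pool.Agent.Lib.MP_1a91b9_nt.S4Defs

set_option autoImplicit false

namespace Pool.Agent.Lib.MP_1a91b9_nt

open Polynomial

theorem param_val {K Γ : Type*} [Field K] [LinearOrderedCommGroupWithZero Γ] (V : Valuation K Γ)
    (h2 : V 2 ≤ 1) (h20 : (2 : K) ≠ 0) (h3 : V 3 ≤ 1) (A B η : K) (hη : V (1 + η ^ 2) < 1)
    (hη0 : 1 + η ^ 2 ≠ 0) :
    ∃ c : Γ, ∀ v, c < V v →
      V (pX A B (1 + η ^ 2) v) * (V 4 * V (1 + η ^ 2)) = V v ^ 4 ∧
      V (pH A B η v) * (V 8 * V (1 + η ^ 2) ^ 2) = V v ^ 6 ∧
      V (pJ A B η v) * (V 8 * V (1 + η ^ 2) ^ 2) = V v ^ 6 := by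
  set z : K := 1 + η ^ 2 with hz
  have hVη : V η = 1 := by
    have h1 : V (η ^ 2) = 1 := by
      have h4 : η ^ 2 = -(1 - z) := by rw [hz]; ring
      rw [h4, Valuation.map_neg, Valuation.map_one_sub_of_lt V hη]
    rw [map_pow] at h1
    exact (pow_eq_one_iff_of_nonneg zero_le two_ne_zero).mp h1
  refine ⟨max (max 1 (V A)) (V B), fun v hv => ?_⟩
  rw [max_lt_iff, max_lt_iff] at hv
  obtain ⟨⟨hv1, hvA⟩, hvB⟩ := hv
  have hv0 : v ≠ 0 := by
    rintro rfl
    rw [map_zero] at hv1
    exact not_lt_zero hv1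
  have hVv : (0 : Γ) < V v := zero_lt_one.trans hv1
  have hV2 : (0 : Γ) < V 2 := by
    rw [Valuation.pos_iff]
    exact h20
  have hVz : V z ≠ 0 := (Valuation.ne_zero_iff V).mpr hη0
  set al : K := pAl A v with hal
  set be : K := pBe B z v with hbe
  have hvv : V v ≤ V v ^ 2 := by
    rw [pow_two]
    calc V v = V v * 1 := (mul_one _).symm
      _ ≤ V v * V v := mul_le_mul_right hv1.le _
  -- valuation of `al`
  have ha : V al * V 2 = V v ^ 2 := by
    rw [← map_mul, hal, pAl, div_mul_cancel₀ _ h20, ← map_pow]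
    apply Valuation.map_sub_eq_of_lt_right
    rw [map_pow]
    exact hvA.trans_le hvv
  have ha1 : V v ^ 2 ≤ V al := by
    rw [← ha]
    calc V al * V 2 ≤ V al * 1 := mul_le_mul_right h2 _
      _ = V al := mul_one _
  have hva : V v ≤ V al := hvv.trans ha1
  have ha0 : (0 : Γ) < V al := hVv.trans_le hva
  have hAa : V A < V al := hvA.trans_le hva
  have hBa : V B < V al := hvB.trans_le hva
  have h1a : (1 : Γ) < V al := hv1.trans_le hva
  have hz1 : V z < V v := hη.trans hv1
  -- valuation of `be`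
  have hb : V be * (V 2 * V v) = V (B - z) := by
    rw [← map_mul, ← map_mul, hbe, pBe, div_mul_cancel₀ _ (mul_ne_zero h20 hv0)]
  have hBz : V (B - z) < V v := V.map_sub_lt hvB hz1
  have hb2 : V be * V 2 < 1 := by
    have h4 : (V be * V 2) * V v < 1 * V v := by
      rw [mul_assoc, hb, one_mul]
      exact hBz
    exact lt_of_mul_lt_mul_right h4 hVv.le
  have hba : V be < V al := by
    have h4 : V be * V 2 < V al * V 2 := by
      rw [ha]
      exact hb2.trans_le (hv1.le.trans hvv)
    exact lt_of_mul_lt_mul_right h4 hV2.le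
  have hsq : V al ^ 2 < V al ^ 3 := by
    rw [pow_succ (V al) 2]
    calc V al ^ 2 = V al ^ 2 * 1 := (mul_one _).symm
      _ < V al ^ 2 * V al := mul_lt_mul_of_pos_left h1a (pow_pos ha0 2)
  -- `pX`
  have hX : V (al ^ 2 + be ^ 2) = V al ^ 2 := by
    rw [← map_pow]
    apply Valuation.map_add_eq_of_lt_left
    rw [map_pow, map_pow]
    exact pow_lt_pow_left₀ hba zero_le (by norm_num)
  have hV4 : V 4 = V 2 ^ 2 := by
    rw [← map_pow]
    norm_num
  have hV8 : V 8 = V 2 ^ 3 := by
    rw [← map_pow]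
    norm_num
  -- `pR`
  have hR : V (pR A B z v) = V al ^ 3 := by
    have e1 : pR A B z v = al ^ 3 + (be ^ 2 * (2 * A - 3 * al) + B * (3 * z - B) / 2) := by
      rw [pR, ← hal, ← hbe]
      ring
    rw [e1, ← map_pow]
    apply Valuation.map_add_eq_of_lt_left
    rw [map_pow]
    apply V.map_add_lt
    · rw [map_mul, map_pow]
      have h4 : V (2 * A - 3 * al) ≤ V al := by
        apply V.map_sub_le
        · rw [map_mul]
          calc V 2 * V A ≤ 1 * V A := mul_le_mul_left h2 _
            _ ≤ V al := by rw [one_mul]; exact hAa.le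
        · rw [map_mul]
          calc V 3 * V al ≤ 1 * V al := mul_le_mul_left h3 _
            _ = V al := one_mul _
      calc V be ^ 2 * V (2 * A - 3 * al) ≤ V be ^ 2 * V al := mul_le_mul_right h4 _
        _ < V al ^ 2 * V al :=
          mul_lt_mul_of_pos_right (pow_lt_pow_left₀ hba zero_le (by norm_num)) ha0
        _ = V al ^ 3 := by rw [← pow_succ]
    · have h4 : V (3 * z - B) ≤ V al := by
        apply V.map_sub_le
        · rw [map_mul]
          calc V 3 * V z ≤ 1 * V z := mul_le_mul_left h3 _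
            _ ≤ V al := by rw [one_mul]; exact hz1.le.trans hva
        · exact hBa.le
      have h5 : V (B * (3 * z - B) / 2) * V 2 < V al ^ 3 * V 2 := by
        rw [← map_mul, div_mul_cancel₀ _ h20, map_mul]
        calc V B * V (3 * z - B) ≤ V B * V al := mul_le_mul_right h4 _
          _ < V al * V al := mul_lt_mul_of_pos_right hBa ha0
          _ = V al ^ 2 * 1 := by rw [mul_one, pow_two]
          _ ≤ V al ^ 2 * (V al * V 2) := by
            apply mul_le_mul_right
            rw [ha]
            exact hv1.le.trans hvv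
          _ = V al ^ 3 * V 2 := by rw [← mul_assoc, ← pow_succ]
      exact lt_of_mul_lt_mul_right h5 hV2.le
  -- `pS`
  have hS : V (pS A B z v) < V al ^ 3 := by
    have e1 : pS A B z v = 3 * (al ^ 2 * be) - be ^ 3 - 2 * (A * be * al) + B * v * al := by
      rw [pS, ← hal, ← hbe]
      ring
    rw [e1]
    apply V.map_add_lt
    · apply V.map_sub_lt
      · apply V.map_sub_lt
        · rw [map_mul, map_mul, map_pow]
          calc V 3 * (V al ^ 2 * V be) ≤ 1 * (V al ^ 2 * V be) := mul_le_mul_left h3 _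
            _ = V al ^ 2 * V be := one_mul _
            _ < V al ^ 2 * V al := mul_lt_mul_of_pos_left hba (pow_pos ha0 2)
            _ = V al ^ 3 := by rw [← pow_succ]
        · rw [map_pow]
          exact pow_lt_pow_left₀ hba zero_le (by norm_num)
      · rw [map_mul, map_mul, map_mul]
        calc V 2 * (V A * V be * V al) ≤ 1 * (V A * V be * V al) := mul_le_mul_left h2 _
          _ = V A * V be * V al := one_mul _
          _ ≤ V A * V al * V al := by
            apply mul_le_mul_left
            exact mul_le_mul_right hba.le _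
          _ < V al * V al * V al := by
            apply mul_lt_mul_of_pos_right _ ha0
            exact mul_lt_mul_of_pos_right hAa ha0
          _ = V al ^ 3 := by rw [pow_succ, pow_two]
    · rw [map_mul, map_mul]
      calc V B * V v * V al ≤ V B * V al * V al := by
            apply mul_le_mul_left
            exact mul_le_mul_right hva _
        _ < V al * V al * V al := by
            apply mul_lt_mul_of_pos_right _ ha0
            exact mul_lt_mul_of_pos_right hBa ha0
        _ = V al ^ 3 := by rw [pow_succ, pow_two]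
  have hfin : V al ^ 3 * V 2 ^ 3 = V v ^ 6 := by
    rw [← mul_pow, ha, ← pow_mul]
  refine ⟨?_, ?_, ?_⟩
  · rw [pX, ← hal, ← hbe, map_div₀, hX, hV4]
    calc V al ^ 2 / V z * (V 2 ^ 2 * V z) = (V al ^ 2 * V 2 ^ 2) * (V z / V z) := by
          rw [div_mul_eq_mul_div, mul_div_assoc, mul_div_assoc, mul_assoc]
      _ = V v ^ 4 := by
          rw [div_self hVz, mul_one, ← mul_pow, ha, ← pow_mul]
  · have h4 : V (pR A B z v * η - pS A B z v) = V al ^ 3 := by
      rw [← hR]
      have h5 : V (pR A B z v * η) = V (pR A B z v) := by rw [map_mul, hVη, mul_one]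
      rw [← h5]
      apply Valuation.map_sub_eq_of_lt_left
      rw [h5, hR]
      exact hS
    rw [pH, ← hz, map_div₀, h4, hV8, map_pow]
    calc V al ^ 3 / V z ^ 2 * (V 2 ^ 3 * V z ^ 2) = (V al ^ 3 * V 2 ^ 3) * (V z ^ 2 / V z ^ 2) := by
          rw [div_mul_eq_mul_div, mul_div_assoc, mul_div_assoc, mul_assoc]
      _ = V v ^ 6 := by rw [div_self (pow_ne_zero 2 hVz), mul_one, hfin]
  · have h4 : V (pR A B z v + pS A B z v * η) = V al ^ 3 := by
      rw [← hR]
      apply Valuation.map_add_eq_of_lt_left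
      rw [map_mul, hVη, mul_one, hR]
      exact hS
    rw [pJ, ← hz, map_div₀, h4, hV8, map_pow]
    calc V al ^ 3 / V z ^ 2 * (V 2 ^ 3 * V z ^ 2) = (V al ^ 3 * V 2 ^ 3) * (V z ^ 2 / V z ^ 2) := by
          rw [div_mul_eq_mul_div, mul_div_assoc, mul_div_assoc, mul_assoc]
      _ = V v ^ 6 := by rw [div_self (pow_ne_zero 2 hVz), mul_one, hfin]

end Pool.Agent.Lib.MP_1a91b9_nt
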