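import Pool.Agent.Lib.MP_1a91b9_nt.S4Defs

set_option autoImplicit false

namespace Pool.Agent.Lib.MP_1a91b9_nt

open IsDedekindDomain NumberField

universe u

theorem exists_place_above (K M : Type u) [Field K] [NumberField K] [Field M] [NumberField M]
    [Algebra K M] (p : HeightOneSpectrum (𝓞 K)) :
    ∃ (P : HeightOneSpectrum (𝓞 M)) (e : ℕ), e ≠ 0 ∧
      ∀ x : K, P.valuation M (algebraMap K M x) = p.valuation K x ^ e := by
  have : p.asIdeal.IsMaximal := p.isMaximal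
  obtain ⟨Q, hQm, hQ⟩ := Ideal.exists_maximal_ideal_liesOver_of_isIntegral (S := 𝓞 M) p.asIdeal
  have hQ0 : Q ≠ ⊥ := Ideal.ne_bot_of_liesOver_of_ne_bot p.ne_bot Q
  let P : HeightOneSpectrum (𝓞 M) := ⟨Q, hQm.isPrime, hQ0⟩
  have : P.asIdeal.LiesOver p.asIdeal := hQ
  refine ⟨P, p.asIdeal.ramificationIdx' P.asIdeal, ?_, fun x => ?_⟩
  · exact Ideal.IsDedekindDomain.ramificationIdx'_ne_zero_of_liesOver P.asIdeal p.ne_bot
  · exact (HeightOneSpectrum.valuation_liesOver M p P x).symm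

/-- An integer `a` with `a ^ 2 + 1` divisible by `l` exactly once. -/
private theorem place_int (l : ℕ) (hl : l.Prime) (h1 : l % 4 = 1) :
    ∃ a : ℤ, (l : ℤ) ∣ 1 + a ^ 2 ∧ ¬ ((l : ℤ) ^ 2 ∣ 1 + a ^ 2) := by
  have : Fact l.Prime := ⟨hl⟩
  obtain ⟨r, hr⟩ := (ZMod.exists_sq_eq_neg_one_iff (p := l)).2 (by omega)
  obtain ⟨b, rfl⟩ := ZMod.intCast_surjective r
  have hb : (l : ℤ) ∣ 1 + b ^ 2 := by
    rw [← ZMod.intCast_zmod_eq_zero_iff_dvd]
    push_cast
    rw [sq, ← hr]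
    ring
  by_cases hb2 : (l : ℤ) ^ 2 ∣ 1 + b ^ 2
  · refine ⟨b + l, ?_, ?_⟩
    · have : 1 + (b + l) ^ 2 = (1 + b ^ 2) + l * (2 * b + l) := by ring
      rw [this]
      exact dvd_add hb (dvd_mul_right _ _)
    · intro hcon
      have h3 : (l : ℤ) ^ 2 ∣ 2 * b * l := by
        have : 2 * b * (l : ℤ) = (1 + (b + l) ^ 2) - (1 + b ^ 2) - l ^ 2 := by ring
        rw [this]
        exact dvd_sub (dvd_sub hcon hb2) dvd_rfl
      have hl0 : (l : ℤ) ≠ 0 := by exact_mod_cast hl.ne_zero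
      have h4 : (l : ℤ) ∣ 2 * b := by
        rw [sq] at h3
        exact (mul_dvd_mul_iff_right hl0).1 h3
      have hlp : Prime (l : ℤ) := Nat.prime_iff_prime_int.1 hl
      rcases hlp.dvd_or_dvd h4 with h5 | h5
      · have h6 : l ∣ 2 := by exact_mod_cast h5
        have h7 := Nat.le_of_dvd (by norm_num) h6
        have := hl.two_le
        have : l = 2 := by omega
        omega
      · have h6 : (l : ℤ) ∣ 1 := by
          have : (1 : ℤ) = (1 + b ^ 2) - b * b := by ring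
          rw [this]
          exact dvd_sub hb (h5.mul_right b)
        exact hlp.not_dvd_one h6
  · exact ⟨b, hb, hb2⟩

theorem exists_place_mod (K M : Type u) [Field K] [NumberField K] [Field M] [NumberField M]
    [Algebra K M] :
    ∃ (p : HeightOneSpectrum (𝓞 K)) (P : HeightOneSpectrum (𝓞 M)) (η₀ : 𝓞 K) (e : ℕ),
      ¬ 3 ∣ e ∧ (2 : 𝓞 K) ∉ p.asIdeal ∧
      p.valuation K (1 + (η₀ : K) ^ 2) = WithZero.exp (-1 : ℤ) ∧
      ∀ x : K, P.valuation M (algebraMap K M x) = p.valuation K x ^ e := by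
  obtain ⟨l, hl, hlgt, hl1⟩ := Nat.exists_prime_gt_modEq_one (k := 4) ((discr M).natAbs + 2)
    (by norm_num)
  have hl4 : l % 4 = 1 := hl1
  have hlp : Prime (l : ℤ) := Nat.prime_iff_prime_int.1 hl
  have hnd : ¬ (l : ℤ) ∣ discr M := by
    intro h
    have h1 : l ∣ (discr M).natAbs := by
      rw [← Int.natCast_dvd_natCast, Int.dvd_natAbs]
      exact h
    have h2 := Nat.le_of_dvd (Int.natAbs_pos.2 (discr_ne_zero M)) h1
    omega
  -- the prime of `ℤ`
  let v : HeightOneSpectrum ℤ := ⟨Ideal.span {(l : ℤ)},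
    (Ideal.span_singleton_prime hlp.ne_zero).2 hlp, by
      rw [Ne, Ideal.span_singleton_eq_bot]; exact hlp.ne_zero⟩
  have hvm : v.asIdeal.IsMaximal := v.isMaximal
  obtain ⟨Q, hQm, hQ⟩ := Ideal.exists_maximal_ideal_liesOver_of_isIntegral (S := 𝓞 M) v.asIdeal
  have hQp : Q.IsPrime := hQm.isPrime
  have hQ0 : Q ≠ ⊥ := Ideal.ne_bot_of_liesOver_of_ne_bot v.ne_bot Q
  have hunr : Algebra.IsUnramifiedAt ℤ Q :=
    (not_dvd_discr_iff_forall_liesOver M (𝓞 M) hlp).1 hnd Q hQm hQ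
  have heQ : v.asIdeal.ramificationIdx' Q = 1 := by
    rw [Ideal.ramificationIdx'_eq_ramificationIdx v.asIdeal Q v.ne_bot]
    exact Ideal.ramificationIdx_eq_one Q ℤ
  -- the prime of `K`
  let q : Ideal (𝓞 K) := Q.under (𝓞 K)
  have hQq : Q.LiesOver q := ⟨rfl⟩
  have hqv : q.LiesOver v.asIdeal := Ideal.LiesOver.tower_bot Q q v.asIdeal
  have hqp : q.IsPrime := Ideal.IsPrime.under (𝓞 K) Q
  have hq0 : q ≠ ⊥ := Ideal.ne_bot_of_liesOver_of_ne_bot v.ne_bot q
  let P : HeightOneSpectrum (𝓞 M) := ⟨Q, hQp, hQ0⟩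
  let p : HeightOneSpectrum (𝓞 K) := ⟨q, hqp, hq0⟩
  have hPp : P.asIdeal.LiesOver p.asIdeal := hQq
  have hpv : p.asIdeal.LiesOver v.asIdeal := hqv
  have htower := Ideal.ramificationIdx'_algebra_tower' v.asIdeal q Q
  rw [heQ] at htower
  have he1 : v.asIdeal.ramificationIdx' p.asIdeal = 1 := Nat.eq_one_of_mul_eq_one_right htower.symm
  have he2 : p.asIdeal.ramificationIdx' P.asIdeal = 1 := Nat.eq_one_of_mul_eq_one_left htower.symm
  obtain ⟨a, ha1, ha2⟩ := place_int l hl hl4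
  have hvval : v.intValuation (1 + a ^ 2) = WithZero.exp (-1 : ℤ) := by
    obtain ⟨u, hu⟩ := ha1
    have hu2 : u ∉ v.asIdeal := by
      intro h
      obtain ⟨w, hw⟩ := Ideal.mem_span_singleton.1 h
      exact ha2 ⟨w, by rw [hu, hw]; ring⟩
    rw [hu, map_mul, HeightOneSpectrum.intValuation_eq_one_iff.2 hu2, mul_one]
    exact v.intValuation_singleton hlp.ne_zero rfl
  refine ⟨p, P, algebraMap ℤ (𝓞 K) a, 1, by norm_num, ?_, ?_, ?_⟩
  · intro h2
    have h3 : (2 : ℤ) ∈ v.asIdeal := by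
      rw [hpv.over, Ideal.mem_comap]
      simpa using h2
    have h4 : (l : ℤ) ∣ 2 := Ideal.mem_span_singleton.1 h3
    have h5 : l ∣ 2 := by exact_mod_cast h4
    have := Nat.le_of_dvd (by norm_num) h5
    omega
  · have h1 := HeightOneSpectrum.intValuation_liesOver v p (1 + a ^ 2)
    rw [he1, pow_one, hvval] at h1
    rw [h1, ← HeightOneSpectrum.valuation_of_algebraMap (K := K)]
    congr 1
    simp
  · intro x
    rw [← HeightOneSpectrum.valuation_liesOver M p P x, he2]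

end Pool.Agent.Lib.MP_1a91b9_nt
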