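import Pool.Agent.Lib.MP_1a91b9_nt.S4Defs

/-!
# Explicit points over the quartic and cubic extensions
-/

set_option autoImplicit false

namespace Pool.Agent.Lib.MP_1a91b9_nt

open Polynomial

section points

variable {M : Type*} [Field M] [CharZero M] (V : WeierstrassCurve.Affine M)
  (h1 : V.a₁ = 0) (h2 : V.a₂ = 0) (h3 : V.a₃ = 0) (x h j : M)
  (hE : x ^ 3 + V.a₄ * x + V.a₆ = h ^ 2 + j ^ 2)

include h1 h2 h3 hE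

theorem eqT (y : M) (hy0 : y ≠ 0)
    (hy : (quart (3 * x ^ 2 + V.a₄) (-2 * h * j) (3 * x * h ^ 2)).eval y = 0) :
    V.Equation (x + h ^ 2 / y ^ 2) (j + h ^ 3 / y ^ 3) := by
  have hy' : y ^ 4 + (3 * x ^ 2 + V.a₄) * y ^ 2 + (-2 * h * j) * y + 3 * x * h ^ 2 = 0 := by
    rw [← hy]; simp only [quart, eval_add, eval_mul, eval_pow, eval_X, eval_C]
  rw [WeierstrassCurve.Affine.equation_iff, h1, h2, h3]
  have h6 : V.a₆ = h ^ 2 + j ^ 2 - x ^ 3 - V.a₄ * x := by linear_combination hE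
  rw [h6, ← sub_eq_zero]
  have e : (j + h ^ 3 / y ^ 3) ^ 2 + 0 * (x + h ^ 2 / y ^ 2) * (j + h ^ 3 / y ^ 3) +
      0 * (j + h ^ 3 / y ^ 3) - ((x + h ^ 2 / y ^ 2) ^ 3 + 0 * (x + h ^ 2 / y ^ 2) ^ 2 +
      V.a₄ * (x + h ^ 2 / y ^ 2) + (h ^ 2 + j ^ 2 - x ^ 3 - V.a₄ * x)) =
      -(h ^ 2 / y ^ 4) * (y ^ 4 + (3 * x ^ 2 + V.a₄) * y ^ 2 + (-2 * h * j) * y +
        3 * x * h ^ 2) := by
    field_simp
    ring
  rw [e, hy', mul_zero]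

theorem eqQ (hh : h ≠ 0) (z : M) (hz0 : z ≠ 0)
    (hz : (resol (3 * x ^ 2 + V.a₄) (-2 * h * j) (3 * x * h ^ 2)).eval z = 0) :
    V.Equation (x + j ^ 2 / z) ((3 * x ^ 2 + V.a₄) * j ^ 2 / (2 * h * z) + h + j ^ 2 / (2 * h)) := by
  have hz' : z ^ 3 + 2 * (3 * x ^ 2 + V.a₄) * z ^ 2 +
      ((3 * x ^ 2 + V.a₄) ^ 2 - 4 * (3 * x * h ^ 2)) * z - (-2 * h * j) ^ 2 = 0 := by
    rw [← hz]; simp only [resol, eval_add, eval_sub, eval_mul, eval_pow, eval_X, eval_C]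
  rw [WeierstrassCurve.Affine.equation_iff, h1, h2, h3]
  have h6 : V.a₆ = h ^ 2 + j ^ 2 - x ^ 3 - V.a₄ * x := by linear_combination hE
  rw [h6, ← sub_eq_zero]
  have e : ((3 * x ^ 2 + V.a₄) * j ^ 2 / (2 * h * z) + h + j ^ 2 / (2 * h)) ^ 2 +
      0 * (x + j ^ 2 / z) * ((3 * x ^ 2 + V.a₄) * j ^ 2 / (2 * h * z) + h + j ^ 2 / (2 * h)) +
      0 * ((3 * x ^ 2 + V.a₄) * j ^ 2 / (2 * h * z) + h + j ^ 2 / (2 * h)) -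
      ((x + j ^ 2 / z) ^ 3 + 0 * (x + j ^ 2 / z) ^ 2 +
      V.a₄ * (x + j ^ 2 / z) + (h ^ 2 + j ^ 2 - x ^ 3 - V.a₄ * x)) =
      j ^ 4 / (4 * h ^ 2 * z ^ 3) * (z ^ 3 + 2 * (3 * x ^ 2 + V.a₄) * z ^ 2 +
      ((3 * x ^ 2 + V.a₄) ^ 2 - 4 * (3 * x * h ^ 2)) * z - (-2 * h * j) ^ 2) := by
    field_simp
    ring
  rw [e, hz', mul_zero]

end points

end Pool.Agent.Lib.MP_1a91b9_nt
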