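import Pool.Agent.Lib.MP_1a91b9_nt.S4Defs
import Pool.Agent.Lib.MP_1a91b9_nt.S4Gal

set_option autoImplicit false

namespace Pool.Agent.Lib.MP_1a91b9_nt

open IsDedekindDomain NumberField Polynomial IntermediateField

universe u

/-- The fixed field of the stabilizer of `a` is generated by `a`. -/
theorem fixedField_stabilizer {K M : Type u} [Field K] [CharZero K] [Field M] [Algebra K M]
    [FiniteDimensional K M] [IsGalois K M] (a : M) :
    fixedField (MulAction.stabilizer Gal(M/K) a) = K⟮a⟯ := by
  have h : MulAction.stabilizer Gal(M/K) a = fixingSubgroup K⟮a⟯ := by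
    ext s
    rw [MulAction.mem_stabilizer_iff, IntermediateField.mem_fixingSubgroup_iff]
    constructor
    · intro hs x hx
      have h1 : K⟮a⟯ ≤ fixedField (Subgroup.zpowers s) := by
        rw [IntermediateField.adjoin_simple_le_iff, IntermediateField.mem_fixedField_iff]
        intro f hf
        have h2 : f ∈ MulAction.stabilizer Gal(M/K) a := by
          have h3 : Subgroup.zpowers s ≤ MulAction.stabilizer Gal(M/K) a := by
            rw [Subgroup.zpowers_le]
            exact hs
          exact h3 hf
        exact h2
      have h4 := h1 hx
      rw [IntermediateField.mem_fixedField_iff] at h4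
      exact h4 s (Subgroup.mem_zpowers s)
    · intro hs
      exact hs a (IntermediateField.mem_adjoin_simple_self K a)
  rw [h]
  exact IsGalois.fixedField_fixingSubgroup _

private theorem S4Stab_gen {K M : Type u} [Field K] [Field M] [Algebra K M] (a : M) :
    K⟮AdjoinSimple.gen K a⟯ = ⊤ := by
  apply IntermediateField.lift_injective K⟮a⟯
  rw [IntermediateField.lift_adjoin_simple, IntermediateField.lift_top, AdjoinSimple.coe_gen]

/-- Restricting a Galois group to an irreducible factor: degree and Galois groups over the field
generated by a root of `f`. -/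
theorem stab_data {K M : Type u} [Field K] [CharZero K] [Field M] [Algebra K M]
    [FiniteDimensional K M] [IsGalois K M] (ψ f : K[X]) (hψ : ψ ≠ 0) (hf : f.Monic)
    (hfi : Irreducible f)
    (hfψ : Irreducible (f.map (algebraMap K ψ.SplittingField))) (a : M) (ha : aeval a f = 0) :
    Module.finrank K (fixedField (MulAction.stabilizer Gal(M/K) a)) = f.natDegree ∧
    Nat.card (ψ.map (algebraMap K (fixedField (MulAction.stabilizer Gal(M/K) a)))).Gal =
      Nat.card ψ.Gal := by
  rw [fixedField_stabilizer]
  have hmin : f = minpoly K a := minpoly.eq_of_irreducible_of_monic hfi ha hf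
  constructor
  · rw [IntermediateField.adjoin.finrank (IsIntegral.of_finite K a), hmin]
  · refine card_gal_eq ψ hψ (AdjoinSimple.gen K a) (S4Stab_gen a) ?_
    rw [IntermediateField.minpoly_gen, ← hmin]
    exact hfψ

end Pool.Agent.Lib.MP_1a91b9_nt
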