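import Pool.Agent.Lib.MP_1a91b9_nt.S4Defs

/-!
# Three collinear points over the cubic extension
-/

set_option autoImplicit false

namespace Pool.Agent.Lib.MP_1a91b9_nt

open Polynomial

private theorem collinear_sum {M : Type*} [Field M] [DecidableEq M] (V : WeierstrassCurve.Affine M)
    (h1 : V.a₁ = 0) (h2 : V.a₂ = 0) (h3 : V.a₃ = 0) {x₁ x₂ x₃ y₁ y₂ y₃ m n : M}
    (e1 : y₁ = m * x₁ + n) (e2 : y₂ = m * x₂ + n) (e3 : y₃ = m * x₃ + n) (hx : x₁ ≠ x₂)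
    (hm : m ^ 2 = x₁ + x₂ + x₃) (n1 : V.Nonsingular x₁ y₁) (n2 : V.Nonsingular x₂ y₂)
    (n3 : V.Nonsingular x₃ y₃) :
    (WeierstrassCurve.Affine.Point.some _ _ n1 : V.Point) +
      WeierstrassCurve.Affine.Point.some _ _ n2 + WeierstrassCurve.Affine.Point.some _ _ n3 = 0 := by
  rw [add_eq_zero_iff_eq_neg, WeierstrassCurve.Affine.Point.neg_some,
    WeierstrassCurve.Affine.Point.add_of_X_ne hx, WeierstrassCurve.Affine.Point.some.injEq]
  have hs : V.slope x₁ x₂ y₁ y₂ = m := by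
    rw [WeierstrassCurve.Affine.slope_of_X_ne hx, e1, e2, div_eq_iff (sub_ne_zero.2 hx)]
    ring
  have hX : V.addX x₁ x₂ m = x₃ := by
    rw [WeierstrassCurve.Affine.addX, h1, h2]
    linear_combination hm
  rw [hs, hX]
  refine ⟨rfl, ?_⟩
  rw [WeierstrassCurve.Affine.addY, WeierstrassCurve.Affine.negAddY, hX]
  congr 1
  rw [e1, e3]
  ring

section points

variable {M : Type*} [Field M] [CharZero M] (V : WeierstrassCurve.Affine M)
  (h1 : V.a₁ = 0) (h2 : V.a₂ = 0) (h3 : V.a₃ = 0) (x h j : M)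
  (hE : x ^ 3 + V.a₄ * x + V.a₆ = h ^ 2 + j ^ 2)

include h1 h2 h3 hE

theorem sumQ [DecidableEq M] (hh : h ≠ 0) (hj : j ≠ 0) (z : Fin 3 → M) (hinj : Function.Injective z)
    (hz : resol (3 * x ^ 2 + V.a₄) (-2 * h * j) (3 * x * h ^ 2) = ∏ i, (X - C (z i)))
    (hns : ∀ i, V.Nonsingular (x + j ^ 2 / z i)
      ((3 * x ^ 2 + V.a₄) * j ^ 2 / (2 * h * z i) + h + j ^ 2 / (2 * h))) :
    ∑ i, WeierstrassCurve.Affine.Point.some _ _ (hns i) = 0 := by
  rw [Fin.prod_univ_three] at hz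
  have ev := fun c : M => congrArg (eval c) hz
  simp only [resol, eval_add, eval_sub, eval_mul, eval_pow, eval_X, eval_C] at ev
  have v0 := ev 0
  have v1 := ev 1
  have v2 := ev (-1)
  have s3 : z 0 * z 1 * z 2 = 4 * h ^ 2 * j ^ 2 := by linear_combination v0
  have s2 : z 0 * z 1 + z 0 * z 2 + z 1 * z 2 =
      (3 * x ^ 2 + V.a₄) ^ 2 - 4 * (3 * x * h ^ 2) := by
    linear_combination (-1 / 2 : M) * v1 + (1 / 2 : M) * v2
  have hne : z 0 * z 1 * z 2 ≠ 0 := by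
    rw [s3]
    exact mul_ne_zero (mul_ne_zero (by norm_num) (pow_ne_zero 2 hh)) (pow_ne_zero 2 hj)
  have z0 : z 0 ≠ 0 := fun h0 => hne (by rw [h0]; ring)
  have z1 : z 1 ≠ 0 := fun h0 => hne (by rw [h0]; ring)
  have z2 : z 2 ≠ 0 := fun h0 => hne (by rw [h0]; ring)
  rw [Fin.sum_univ_three]
  have hl : ∀ i, z i ≠ 0 → (3 * x ^ 2 + V.a₄) * j ^ 2 / (2 * h * z i) + h + j ^ 2 / (2 * h) =
      (3 * x ^ 2 + V.a₄) / (2 * h) * (x + j ^ 2 / z i) +
        (h + j ^ 2 / (2 * h) - (3 * x ^ 2 + V.a₄) / (2 * h) * x) := by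
    intro i hi
    field_simp
    ring
  refine collinear_sum V h1 h2 h3 (hl 0 z0) (hl 1 z1) (hl 2 z2) ?_ ?_ (hns 0) (hns 1) (hns 2)
  · intro he
    have h01 : z 0 ≠ z 1 := fun h0 => by simpa using hinj h0
    have he2 : j ^ 2 / z 0 = j ^ 2 / z 1 := by linear_combination he
    rw [div_eq_div_iff z0 z1] at he2
    exact h01 (mul_left_cancel₀ (pow_ne_zero 2 hj) he2).symm
  · have e : ((3 * x ^ 2 + V.a₄) / (2 * h)) ^ 2 -
        (x + j ^ 2 / z 0 + (x + j ^ 2 / z 1) + (x + j ^ 2 / z 2)) =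
        (3 * x ^ 2 + V.a₄) ^ 2 / (4 * h ^ 2) - 3 * x -
          j ^ 2 * (z 0 * z 1 + z 0 * z 2 + z 1 * z 2) / (z 0 * z 1 * z 2) := by
      field_simp
      ring
    rw [← sub_eq_zero, e, s2, s3]
    field_simp
    ring

end points

end Pool.Agent.Lib.MP_1a91b9_nt
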