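import Pool.Agent.Lib.MP_1a91b9_nt.S4Defs

set_option autoImplicit false

namespace Pool.Agent.Lib.MP_1a91b9_nt

open Polynomial

/-! ### S7 -/

private theorem S4SumT_pair {M : Type*} [Field M] [DecidableEq M]
    (V : WeierstrassCurve.Affine M)
    (h1 : V.a₁ = 0) (h2 : V.a₂ = 0) (h3 : V.a₃ = 0) (x h j a b : M) (hh : h ≠ 0)
    (ha : a ≠ 0) (hb : b ≠ 0) (hab : a ≠ b) (ht : a + b ≠ 0)
    (na : V.Nonsingular (x + h ^ 2 / a ^ 2) (j + h ^ 3 / a ^ 3))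
    (nb : V.Nonsingular (x + h ^ 2 / b ^ 2) (j + h ^ 3 / b ^ 3)) (X Y : M)
    (hX : X = h ^ 2 / (a + b) ^ 2 - 2 * x)
    (hY : Y = -j + h ^ 3 / (a + b) ^ 3 + 3 * x * h * (a + b) / (a * b) - 3 * x * h / (a + b)) :
    ∃ n : V.Nonsingular X Y, WeierstrassCurve.Affine.Point.some _ _ na +
      WeierstrassCurve.Affine.Point.some _ _ nb = WeierstrassCurve.Affine.Point.some _ _ n := by
  have hx : x + h ^ 2 / a ^ 2 ≠ x + h ^ 2 / b ^ 2 := by
    intro he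
    have he1 := add_left_cancel he
    rw [div_eq_div_iff (pow_ne_zero 2 ha) (pow_ne_zero 2 hb)] at he1
    have he2 := mul_left_cancel₀ (pow_ne_zero 2 hh) he1
    have he3 : (a - b) * (a + b) = 0 := by linear_combination -he2
    rcases mul_eq_zero.mp he3 with h' | h'
    · exact hab (sub_eq_zero.mp h')
    · exact ht h'
  have eS : V.slope (x + h ^ 2 / a ^ 2) (x + h ^ 2 / b ^ 2) (j + h ^ 3 / a ^ 3)
      (j + h ^ 3 / b ^ 3) = h * (a ^ 2 + a * b + b ^ 2) / (a * b * (a + b)) := by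
    rw [WeierstrassCurve.Affine.slope_of_X_ne hx, div_eq_iff (sub_ne_zero.mpr hx)]
    field_simp
    ring
  have eX : V.addX (x + h ^ 2 / a ^ 2) (x + h ^ 2 / b ^ 2)
      (V.slope (x + h ^ 2 / a ^ 2) (x + h ^ 2 / b ^ 2) (j + h ^ 3 / a ^ 3)
      (j + h ^ 3 / b ^ 3)) = X := by
    rw [eS, hX, WeierstrassCurve.Affine.addX, h1, h2]
    field_simp
    ring
  have eY : V.addY (x + h ^ 2 / a ^ 2) (x + h ^ 2 / b ^ 2) (j + h ^ 3 / a ^ 3)
      (V.slope (x + h ^ 2 / a ^ 2) (x + h ^ 2 / b ^ 2) (j + h ^ 3 / a ^ 3)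
      (j + h ^ 3 / b ^ 3)) = Y := by
    rw [WeierstrassCurve.Affine.addY, WeierstrassCurve.Affine.negAddY, eX, eS, hX, hY,
      WeierstrassCurve.Affine.negY, h1, h3]
    field_simp
    ring
  rw [WeierstrassCurve.Affine.Point.add_of_X_ne hx]
  clear hX hY
  subst eX eY
  exact ⟨_, rfl⟩

private theorem S4SumT_coeffs {M : Type*} [Field M] {a b c d a' b' c' d' : M}
    (h : (X ^ 4 + C a * X ^ 3 + C b * X ^ 2 + C c * X + C d : M[X]) =
      X ^ 4 + C a' * X ^ 3 + C b' * X ^ 2 + C c' * X + C d') :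
    a = a' ∧ b = b' ∧ c = c' ∧ d = d' := by
  have c3 := congrArg (fun P => P.coeff 3) h
  have c2 := congrArg (fun P => P.coeff 2) h
  have c1 := congrArg (fun P => P.coeff 1) h
  have c0 := congrArg (fun P => P.coeff 0) h
  simp [coeff_X, coeff_C] at c3 c2 c1 c0
  exact ⟨c3, c2, c1, c0⟩

section points

variable {M : Type*} [Field M] [CharZero M] (V : WeierstrassCurve.Affine M)
  (h1 : V.a₁ = 0) (h2 : V.a₂ = 0) (h3 : V.a₃ = 0) (x h j : M)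
  (hE : x ^ 3 + V.a₄ * x + V.a₆ = h ^ 2 + j ^ 2)

include h1 h2 h3 hE

theorem sumT [DecidableEq M] (hh : h ≠ 0) (hj : j ≠ 0) (y : Fin 4 → M) (hinj : Function.Injective y)
    (hy : quart (3 * x ^ 2 + V.a₄) (-2 * h * j) (3 * x * h ^ 2) = ∏ i, (X - C (y i)))
    (hx : x ≠ 0) (hne : ∀ i k, i ≠ k → y i + y k ≠ 0)
    (hns : ∀ i, V.Nonsingular (x + h ^ 2 / y i ^ 2) (j + h ^ 3 / y i ^ 3)) :
    ∑ i, WeierstrassCurve.Affine.Point.some _ _ (hns i) = 0 := by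
  have h4 : (∏ i, (X - C (y i)) : M[X]) = X ^ 4 + C (-(y 0 + y 1 + y 2 + y 3)) * X ^ 3 +
      C (y 0 * y 1 + y 0 * y 2 + y 0 * y 3 + y 1 * y 2 + y 1 * y 3 + y 2 * y 3) * X ^ 2 +
      C (-(y 0 * y 1 * y 2 + y 0 * y 1 * y 3 + y 0 * y 2 * y 3 + y 1 * y 2 * y 3)) * X +
      C (y 0 * y 1 * y 2 * y 3) := by
    rw [Fin.prod_univ_four]
    simp only [map_neg, map_add, map_mul]
    ring
  have h5 : (X ^ 4 + C 0 * X ^ 3 + C (3 * x ^ 2 + V.a₄) * X ^ 2 + C (-2 * h * j) * X +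
      C (3 * x * h ^ 2) : M[X]) = X ^ 4 + C (-(y 0 + y 1 + y 2 + y 3)) * X ^ 3 +
      C (y 0 * y 1 + y 0 * y 2 + y 0 * y 3 + y 1 * y 2 + y 1 * y 3 + y 2 * y 3) * X ^ 2 +
      C (-(y 0 * y 1 * y 2 + y 0 * y 1 * y 3 + y 0 * y 2 * y 3 + y 1 * y 2 * y 3)) * X +
      C (y 0 * y 1 * y 2 * y 3) := by
    rw [← h4, ← hy, quart, map_zero, zero_mul, add_zero]
  obtain ⟨c3, -, c1, c0⟩ := S4SumT_coeffs h5
  have h0 : y 0 * y 1 * y 2 * y 3 ≠ 0 := by
    rw [← c0]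
    exact mul_ne_zero (mul_ne_zero three_ne_zero hx) (pow_ne_zero 2 hh)
  have y0 : y 0 ≠ 0 := fun h => h0 (by rw [h]; ring)
  have y1 : y 1 ≠ 0 := fun h => h0 (by rw [h]; ring)
  have y2 : y 2 ≠ 0 := fun h => h0 (by rw [h]; ring)
  have y3 : y 3 ≠ 0 := fun h => h0 (by rw [h]; ring)
  have t01 := hne 0 1 (by decide)
  have t23 := hne 2 3 (by decide)
  obtain ⟨n, hn⟩ := S4SumT_pair V h1 h2 h3 x h j (y 0) (y 1) hh y0 y1
    (fun h => absurd (hinj h) (by decide)) t01 (hns 0) (hns 1) _ _ rfl rfl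
  obtain ⟨n', hn'⟩ := S4SumT_pair V h1 h2 h3 x h j (y 2) (y 3) hh y2 y3
    (fun h => absurd (hinj h) (by decide)) t23 (hns 2) (hns 3) _ _ rfl rfl
  rw [Fin.sum_univ_four, add_assoc, hn, hn']
  have ht : y 2 + y 3 = -(y 0 + y 1) := by linear_combination c3
  refine WeierstrassCurve.Affine.Point.add_of_Y_eq ?_ ?_
  · rw [ht]
    ring
  · rw [WeierstrassCurve.Affine.negY, h1, h3, ht]
    have e1 : 3 * x * h * (y 0 + y 1) / (y 0 * y 1) = y 2 * y 3 * (y 0 + y 1) / h := by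
      rw [div_eq_div_iff (mul_ne_zero y0 y1) hh]
      linear_combination (y 0 + y 1) * c0
    have e2 : 3 * x * h * (-(y 0 + y 1)) / (y 2 * y 3) = -(y 0 * y 1 * (y 0 + y 1)) / h := by
      rw [div_eq_div_iff (mul_ne_zero y2 y3) hh]
      linear_combination -(y 0 + y 1) * c0
    rw [e1, e2]
    have e3 : j = (y 0 + y 1) * (y 2 * y 3 - y 0 * y 1) / (2 * h) := by
      rw [eq_div_iff (mul_ne_zero two_ne_zero hh)]
      have hcd : y 3 = -(y 0 + y 1) - y 2 := by linear_combination ht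
      rw [hcd] at c1 ⊢
      linear_combination -c1
    rw [e3]
    field_simp
    ring

end points

end Pool.Agent.Lib.MP_1a91b9_nt
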