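import Pool.Agent.Lib.MP_1a91b9_nt.S4Defs

/-!
# The valuation of the roots of the cubic resolvent (odd residue characteristic)
-/

set_option autoImplicit false

namespace Pool.Agent.Lib.MP_1a91b9_nt

open Polynomial

theorem val_odd {L Γ : Type*} [Field L] [LinearOrderedCommGroupWithZero Γ] (V : Valuation L Γ)
    (h2 : V 2 = 1) (A x h j : L) (J : Γ) (hx : 1 < V x) (hA : V A < V x)
    (hhj : V j = V h) (hJ : V h ^ 2 * J = V x ^ 3) (hJ1 : J < 1) :
    ∀ z, (resol (3 * x ^ 2 + A) (-2 * h * j) (3 * x * h ^ 2)).eval z = 0 →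
      V z ^ 3 = V h ^ 4 := by
  intro z hz
  set N := V x with hN
  set H := V h with hH
  set Z := V z with hZ
  have hN0 : 0 < N := lt_trans zero_lt_one hx
  have hH0 : 0 < H := by
    rw [zero_lt_iff]
    intro h0
    rw [h0] at hJ
    rw [zero_pow (by norm_num), zero_mul] at hJ
    exact (pow_pos hN0 3).ne hJ
  have hNH : N ^ 3 < H ^ 2 := by
    rw [← hJ]
    calc H ^ 2 * J < H ^ 2 * 1 := mul_lt_mul_of_pos_left hJ1 (pow_pos hH0 2)
      _ = H ^ 2 := mul_one _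
  have hN6 : N ^ 6 < H ^ 4 := by
    have h1 := pow_lt_pow_left₀ hNH zero_le (two_ne_zero)
    rw [← pow_mul, ← pow_mul] at h1
    exact h1
  have h3 : V 3 ≤ 1 := by
    have h1 : (3 : L) = 2 + 1 := by norm_num
    rw [h1]
    refine (V.map_add _ _).trans ?_
    rw [h2, map_one, max_self]
  have hNN : N ≤ N ^ 2 := by
    rw [pow_two]
    exact le_mul_of_one_le_left' hx.le
  have hp : V (3 * x ^ 2 + A) ≤ N ^ 2 := by
    refine (V.map_add _ _).trans (max_le ?_ ?_)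
    · rw [map_mul, map_pow]
      exact mul_le_of_le_one_left' h3
    · exact hA.le.trans hNN
  have h4 : V 4 = 1 := by
    have h1 : (4 : L) = 2 * 2 := by norm_num
    rw [h1, map_mul, h2, one_mul]
  have hr : V (3 * x * h ^ 2) ≤ N * H ^ 2 := by
    rw [map_mul, map_mul, map_pow]
    exact mul_le_mul_left (mul_le_of_le_one_left' h3) _
  have hq : V ((-2 * h * j) ^ 2) = H ^ 4 := by
    rw [map_pow, map_mul, map_mul, Valuation.map_neg, h2, one_mul, hhj, ← pow_two, ← pow_mul]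
  have hN4 : (N ^ 2) ^ 2 ≤ N * H ^ 2 := by
    calc (N ^ 2) ^ 2 = N * N ^ 3 := by (simp only [pow_succ, pow_zero, one_mul]; try ac_rfl)
      _ ≤ N * H ^ 2 := mul_le_mul_right hNH.le _
  have hc : V ((3 * x ^ 2 + A) ^ 2 - 4 * (3 * x * h ^ 2)) ≤ N * H ^ 2 := by
    refine (V.map_sub _ _).trans (max_le ?_ ?_)
    · rw [map_pow]
      exact (pow_le_pow_left₀ zero_le hp 2).trans hN4
    · rw [map_mul, h4, one_mul]
      exact hr
  have ht2 : V (2 * (3 * x ^ 2 + A) * z ^ 2) ≤ N ^ 2 * Z ^ 2 := by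
    rw [map_mul, map_mul, map_pow, h2, one_mul]
    exact mul_le_mul_left hp _
  have ht1 : V (((3 * x ^ 2 + A) ^ 2 - 4 * (3 * x * h ^ 2)) * z) ≤ N * H ^ 2 * Z := by
    rw [map_mul]
    exact mul_le_mul_left hc _
  have hz' : z ^ 3 + 2 * (3 * x ^ 2 + A) * z ^ 2 +
      ((3 * x ^ 2 + A) ^ 2 - 4 * (3 * x * h ^ 2)) * z - (-2 * h * j) ^ 2 = 0 := by
    simpa [resol] using hz
  rcases lt_trichotomy (Z ^ 3) (H ^ 4) with hlt | heq | hgt
  · exfalso
    have h5 : (-2 * h * j) ^ 2 = (z ^ 3 + 2 * (3 * x ^ 2 + A) * z ^ 2) +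
      ((3 * x ^ 2 + A) ^ 2 - 4 * (3 * x * h ^ 2)) * z := by
      linear_combination -hz'
    have hZ6 : Z ^ 6 < H ^ 8 := by
      have h1 := pow_lt_pow_left₀ hlt zero_le (two_ne_zero)
      rw [← pow_mul, ← pow_mul] at h1
      exact h1
    have h6 : V ((-2 * h * j) ^ 2) < H ^ 4 := by
      rw [h5]
      refine V.map_add_lt (V.map_add_lt ?_ ?_) ?_
      · rw [map_pow]
        exact hlt
      · refine ht2.trans_lt (lt_of_pow_lt_pow_left₀ 3 zero_le ?_)
        calc (N ^ 2 * Z ^ 2) ^ 3 = N ^ 6 * Z ^ 6 := by (simp only [pow_succ, pow_zero, one_mul]; try ac_rfl)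
          _ < H ^ 4 * H ^ 8 := mul_lt_mul'' hN6 hZ6 zero_le zero_le
          _ = (H ^ 4) ^ 3 := by (simp only [pow_succ, pow_zero, one_mul]; try ac_rfl)
      · refine ht1.trans_lt (lt_of_pow_lt_pow_left₀ 3 zero_le ?_)
        calc (N * H ^ 2 * Z) ^ 3 = (N ^ 3 * Z ^ 3) * H ^ 6 := by (simp only [pow_succ, pow_zero, one_mul]; try ac_rfl)
          _ < (H ^ 2 * H ^ 4) * H ^ 6 :=
            mul_lt_mul_of_pos_right (mul_lt_mul'' hNH hlt zero_le zero_le) (pow_pos hH0 6)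
          _ = (H ^ 4) ^ 3 := by (simp only [pow_succ, pow_zero, one_mul]; try ac_rfl)
    rw [hq] at h6
    exact lt_irrefl _ h6
  · exact heq
  · exfalso
    have h5 : z ^ 3 = ((-2 * h * j) ^ 2 - 2 * (3 * x ^ 2 + A) * z ^ 2) -
      ((3 * x ^ 2 + A) ^ 2 - 4 * (3 * x * h ^ 2)) * z := by
      linear_combination hz'
    have hZ0 : 0 < Z := by
      rw [zero_lt_iff]
      intro h0
      rw [h0, zero_pow (by norm_num)] at hgt
      exact not_lt_zero hgt
    have hNZ : N ^ 2 < Z := by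
      refine lt_of_pow_lt_pow_left₀ 3 zero_le ?_
      calc (N ^ 2) ^ 3 = N ^ 6 := by (simp only [pow_succ, pow_zero, one_mul]; try ac_rfl)
        _ < H ^ 4 := hN6
        _ < Z ^ 3 := hgt
    have hNHZ : N * H ^ 2 < Z ^ 2 := by
      refine lt_of_pow_lt_pow_left₀ 3 zero_le ?_
      calc (N * H ^ 2) ^ 3 = N ^ 3 * H ^ 6 := by (simp only [pow_succ, pow_zero, one_mul]; try ac_rfl)
        _ < H ^ 2 * H ^ 6 := mul_lt_mul_of_pos_right hNH (pow_pos hH0 6)
        _ = (H ^ 4) ^ 2 := by (simp only [pow_succ, pow_zero, one_mul]; try ac_rfl)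
        _ < (Z ^ 3) ^ 2 := pow_lt_pow_left₀ hgt zero_le two_ne_zero
        _ = (Z ^ 2) ^ 3 := by (simp only [pow_succ, pow_zero, one_mul]; try ac_rfl)
    have h6 : V (z ^ 3) < Z ^ 3 := by
      rw [h5]
      refine V.map_sub_lt (V.map_sub_lt ?_ ?_) ?_
      · rw [hq]
        exact hgt
      · refine ht2.trans_lt ?_
        calc N ^ 2 * Z ^ 2 < Z * Z ^ 2 := mul_lt_mul_of_pos_right hNZ (pow_pos hZ0 2)
          _ = Z ^ 3 := by (simp only [pow_succ, pow_zero, one_mul]; try ac_rfl)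
      · refine ht1.trans_lt ?_
        calc N * H ^ 2 * Z < Z ^ 2 * Z := mul_lt_mul_of_pos_right hNHZ hZ0
          _ = Z ^ 3 := by (simp only [pow_succ, pow_zero, one_mul]; try ac_rfl)
    rw [map_pow] at h6
    exact lt_irrefl _ h6

end Pool.Agent.Lib.MP_1a91b9_nt
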