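import Pool.Agent.Lib.MP_1a91b9_nt.S4Defs

/-!
# Valuations at two of the roots of the quartic and of its cubic resolvent
-/

set_option autoImplicit false

namespace Pool.Agent.Lib.MP_1a91b9_nt

open Polynomial

private theorem map_sum3_lt {L Γ : Type*} [Field L] [LinearOrderedCommGroupWithZero Γ]
    (V : Valuation L Γ) {a b c : L} {g : Γ} (ha : V a < g) (hb : V b < g) (hc : V c < g) :
    V (a + b + c) < g :=
  V.map_add_lt (V.map_add_lt ha hb) hc

theorem val_two {L Γ : Type*} [Field L] [LinearOrderedCommGroupWithZero Γ] (V : Valuation L Γ)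
    (h2 : V 2 < 1) (h20 : (2 : L) ≠ 0) (A x h j : L) (J : Γ) (hx : 1 < V x) (hA : V A < V x)
    (hhj : V j = V h) (hJ : V h ^ 2 * J = V x ^ 3) (hJ1 : J < 1) (hJ4 : V 2 ^ 4 ≤ J) :
    (∀ y, (quart (3 * x ^ 2 + A) (-2 * h * j) (3 * x * h ^ 2)).eval y = 0 →
      V y ^ 4 = V x * V h ^ 2 ∧ V x < V (x + h ^ 2 / y ^ 2)) ∧
    (∀ z, (resol (3 * x ^ 2 + A) (-2 * h * j) (3 * x * h ^ 2)).eval z = 0 →
      z ≠ 0 ∧ V x < V (x + j ^ 2 / z)) := by
  set N : Γ := V x with hN
  set H : Γ := V h with hH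
  set t : Γ := V 2 with ht
  have h3 : V 3 = 1 := by
    have e : (3 : L) = 2 + 1 := by norm_num
    rw [e]
    have h1 : V 2 < V 1 := by rw [map_one]; exact h2
    rw [V.map_add_eq_of_lt_right h1, map_one]
  have hN0 : 0 < N := lt_trans zero_lt_one hx
  have hNN : N < N ^ 2 := by
    rw [pow_two]
    calc N = N * 1 := (mul_one N).symm
      _ < N * N := mul_lt_mul_of_pos_left hx hN0
  have hH0 : 0 < H := by
    rw [zero_lt_iff]
    intro h0
    rw [h0, zero_pow two_ne_zero, zero_mul] at hJ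
    exact (pow_pos hN0 3).ne hJ
  have hH2 : 0 < H ^ 2 := pow_pos hH0 2
  have hNH : N ^ 3 < H ^ 2 := by
    rw [← hJ]
    calc H ^ 2 * J < H ^ 2 * 1 := mul_lt_mul_of_pos_left hJ1 hH2
      _ = H ^ 2 := mul_one _
  have hp : V (3 * x ^ 2 + A) = N ^ 2 := by
    have e1 : V (3 * x ^ 2) = N ^ 2 := by rw [map_mul, h3, one_mul, map_pow]
    rw [V.map_add_eq_of_lt_left (by rw [e1]; exact hA.trans hNN), e1]
  have hq : V (-2 * h * j) = t * H ^ 2 := by
    rw [map_mul, map_mul, V.map_neg, hhj, mul_assoc, ← pow_two]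
  have hr : V (3 * x * h ^ 2) = N * H ^ 2 := by
    rw [map_mul, map_mul, h3, one_mul, map_pow]
  have hNH2 : 0 < N * H ^ 2 := mul_pos hN0 hH2
  constructor
  · intro y hy
    have hy' : y ^ 4 + (3 * x ^ 2 + A) * y ^ 2 + (-2 * h * j) * y + 3 * x * h ^ 2 = 0 := by
      rw [← hy]; simp only [quart, eval_add, eval_mul, eval_pow, eval_X, eval_C]
    set Y : Γ := V y with hY
    have v4 : V (y ^ 4) = Y ^ 4 := map_pow _ _ _
    have v2 : V ((3 * x ^ 2 + A) * y ^ 2) = N ^ 2 * Y ^ 2 := by rw [map_mul, hp, map_pow]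
    have v1 : V ((-2 * h * j) * y) = t * H ^ 2 * Y := by rw [map_mul, hq]
    have key : Y ^ 4 = N * H ^ 2 := by
      rcases lt_trichotomy (Y ^ 4) (N * H ^ 2) with hlt | heq | hgt
      · exfalso
        have b2 : N ^ 2 * Y ^ 2 < N * H ^ 2 := by
          refine lt_of_pow_lt_pow_left₀ 2 hNH2.le ?_
          calc (N ^ 2 * Y ^ 2) ^ 2 = N ^ 4 * Y ^ 4 := by rw [mul_pow, ← pow_mul, ← pow_mul]
            _ < N ^ 4 * (N * H ^ 2) := mul_lt_mul_of_pos_left hlt (pow_pos hN0 4)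
            _ = N ^ 3 * (N ^ 2 * H ^ 2) := by
              rw [← mul_assoc, ← mul_assoc, ← pow_succ, ← pow_add]
            _ < H ^ 2 * (N ^ 2 * H ^ 2) :=
              mul_lt_mul_of_pos_right hNH (mul_pos (pow_pos hN0 2) hH2)
            _ = (N * H ^ 2) ^ 2 := by rw [mul_pow, pow_two (H ^ 2), mul_left_comm]
        have b1 : t * H ^ 2 * Y < N * H ^ 2 := by
          refine lt_of_pow_lt_pow_left₀ 4 hNH2.le ?_
          have ht0 : 0 < t := by
            rw [ht, zero_lt_iff, Valuation.ne_zero_iff]; exact h20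
          calc (t * H ^ 2 * Y) ^ 4 = t ^ 4 * (H ^ 2) ^ 4 * Y ^ 4 := by rw [mul_pow, mul_pow]
            _ < t ^ 4 * (H ^ 2) ^ 4 * (N * H ^ 2) :=
              mul_lt_mul_of_pos_left hlt (mul_pos (pow_pos ht0 4) (pow_pos hH2 4))
            _ ≤ J * (H ^ 2) ^ 4 * (N * H ^ 2) :=
              mul_le_mul_left (mul_le_mul_left hJ4 _) _
            _ = (H ^ 2 * J) * (N * (H ^ 2) ^ 4) := by
              rw [mul_comm J, mul_comm (H ^ 2) J]
              ac_rfl
            _ = N ^ 4 * (H ^ 2) ^ 4 := by rw [hJ, ← mul_assoc, ← pow_succ]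
            _ = (N * H ^ 2) ^ 4 := by rw [mul_pow]
        have e : 3 * x * h ^ 2 = -(y ^ 4 + (3 * x ^ 2 + A) * y ^ 2 + (-2 * h * j) * y) := by
          linear_combination hy'
        have := map_sum3_lt V (g := N * H ^ 2) (by rw [v4]; exact hlt) (by rw [v2]; exact b2)
          (by rw [v1]; exact b1)
        rw [← V.map_neg, ← e, hr] at this
        exact lt_irrefl _ this
      · exact heq
      · exfalso
        have hY4 : 0 < Y ^ 4 := hNH2.trans hgt
        have hY0 : 0 < Y := by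
          rw [zero_lt_iff]
          intro h0
          rw [h0, zero_pow (by norm_num)] at hY4
          exact lt_irrefl _ hY4
        have b2 : N ^ 2 * Y ^ 2 < Y ^ 4 := by
          have : N ^ 2 < Y ^ 2 := by
            refine lt_of_pow_lt_pow_left₀ 2 (pow_pos hY0 2).le ?_
            calc (N ^ 2) ^ 2 = N * N ^ 3 := by rw [← pow_mul, ← pow_succ']
              _ < N * H ^ 2 := mul_lt_mul_of_pos_left hNH hN0
              _ < Y ^ 4 := hgt
              _ = (Y ^ 2) ^ 2 := by rw [← pow_mul]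
          calc N ^ 2 * Y ^ 2 < Y ^ 2 * Y ^ 2 := mul_lt_mul_of_pos_right this (pow_pos hY0 2)
            _ = Y ^ 4 := by rw [← pow_add]
        have b1 : t * H ^ 2 * Y < Y ^ 4 := by
          have : t * H ^ 2 < Y ^ 3 := by
            refine lt_of_pow_lt_pow_left₀ 4 (pow_pos hY0 3).le ?_
            calc (t * H ^ 2) ^ 4 = t ^ 4 * (H ^ 2) ^ 4 := mul_pow _ _ _
              _ ≤ J * (H ^ 2) ^ 4 := mul_le_mul_left hJ4 _
              _ = (H ^ 2 * J) * (H ^ 2) ^ 3 := by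
                rw [pow_succ (H ^ 2) 3]
                ac_rfl
              _ = (N * H ^ 2) ^ 3 := by rw [hJ, mul_pow]
              _ < (Y ^ 4) ^ 3 := pow_lt_pow_left₀ hgt hNH2.le (by norm_num)
              _ = (Y ^ 3) ^ 4 := by rw [← pow_mul, ← pow_mul]
          calc t * H ^ 2 * Y < Y ^ 3 * Y := mul_lt_mul_of_pos_right this hY0
            _ = Y ^ 4 := by rw [← pow_succ]
        have e : y ^ 4 = -((3 * x ^ 2 + A) * y ^ 2 + (-2 * h * j) * y + 3 * x * h ^ 2) := by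
          linear_combination hy'
        have := map_sum3_lt V (g := Y ^ 4) (by rw [v2]; exact b2) (by rw [v1]; exact b1)
          (by rw [hr]; exact hgt)
        rw [← V.map_neg, ← e, v4] at this
        exact lt_irrefl _ this
    refine ⟨key, ?_⟩
    have hY4 : 0 < Y ^ 4 := by rw [key]; exact hNH2
    have hY0 : 0 < Y := by
      rw [zero_lt_iff]
      intro h0
      rw [h0, zero_pow (by norm_num)] at hY4
      exact lt_irrefl _ hY4
    have hgt : N < V (h ^ 2 / y ^ 2) := by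
      rw [map_div₀, map_pow, map_pow, lt_div_iff₀ (pow_pos hY0 2)]
      refine lt_of_pow_lt_pow_left₀ 2 hH2.le ?_
      calc (N * Y ^ 2) ^ 2 = N ^ 2 * Y ^ 4 := by rw [mul_pow, ← pow_mul]
        _ = N ^ 3 * H ^ 2 := by rw [key, ← mul_assoc, ← pow_succ]
        _ < H ^ 2 * H ^ 2 := mul_lt_mul_of_pos_right hNH hH2
        _ = (H ^ 2) ^ 2 := (pow_two _).symm
    rw [V.map_add_eq_of_lt_right hgt]
    exact hgt
  · intro z hz
    have hz' : z ^ 3 + 2 * (3 * x ^ 2 + A) * z ^ 2 + ((3 * x ^ 2 + A) ^ 2 - 4 * (3 * x * h ^ 2)) * z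
        - (-2 * h * j) ^ 2 = 0 := by
      rw [← hz]; simp only [resol, eval_add, eval_sub, eval_mul, eval_pow, eval_X, eval_C]
    have ht0 : 0 < t := by
      rw [ht, zero_lt_iff, Valuation.ne_zero_iff]; exact h20
    have hz0 : z ≠ 0 := by
      rintro rfl
      have e : (-2 * h * j) ^ 2 = 0 := by linear_combination -hz'
      have : V ((-2 * h * j) ^ 2) = 0 := by rw [e, map_zero]
      rw [map_pow, hq] at this
      exact (pow_pos (mul_pos ht0 hH2) 2).ne' this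
    refine ⟨hz0, ?_⟩
    set Z : Γ := V z with hZ
    have hZ0 : 0 < Z := by
      rw [hZ, zero_lt_iff, Valuation.ne_zero_iff]; exact hz0
    have htt : t ^ 2 < 1 := pow_lt_one₀ ht0.le h2 two_ne_zero
    have htN : t * N ^ 3 < H ^ 2 := by
      calc t * N ^ 3 ≤ 1 * N ^ 3 := mul_le_mul_left h2.le _
        _ = N ^ 3 := one_mul _
        _ < H ^ 2 := hNH
    have htN2 : t ^ 2 * N ^ 3 < H ^ 2 := by
      calc t ^ 2 * N ^ 3 ≤ 1 * N ^ 3 := mul_le_mul_left htt.le _
        _ = N ^ 3 := one_mul _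
        _ < H ^ 2 := hNH
    have key : Z * N < H ^ 2 := by
      by_contra hcon
      rw [not_lt] at hcon
      have c1 : t * N ^ 2 < Z := by
        refine lt_of_mul_lt_mul_right (?_ : t * N ^ 2 * N < Z * N) hN0.le
        calc t * N ^ 2 * N = t * N ^ 3 := by rw [mul_assoc, ← pow_succ]
          _ < H ^ 2 := htN
          _ ≤ Z * N := hcon
      have c2 : N ^ 4 < Z ^ 2 := by
        refine lt_of_mul_lt_mul_right (?_ : N ^ 4 * N ^ 2 < Z ^ 2 * N ^ 2) (pow_pos hN0 2).le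
        calc N ^ 4 * N ^ 2 = (N ^ 3) ^ 2 := by rw [← pow_add, ← pow_mul]
          _ < (H ^ 2) ^ 2 := pow_lt_pow_left₀ hNH (pow_pos hN0 3).le two_ne_zero
          _ ≤ (Z * N) ^ 2 := pow_le_pow_left₀ hH2.le hcon 2
          _ = Z ^ 2 * N ^ 2 := mul_pow _ _ _
      have c3 : t ^ 2 * (N * H ^ 2) < Z ^ 2 := by
        refine lt_of_mul_lt_mul_right (?_ : t ^ 2 * (N * H ^ 2) * N ^ 2 < Z ^ 2 * N ^ 2)
          (pow_pos hN0 2).le
        calc t ^ 2 * (N * H ^ 2) * N ^ 2 = t ^ 2 * N ^ 3 * H ^ 2 := by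
              rw [pow_succ' N 2]; ac_rfl
          _ < H ^ 2 * H ^ 2 := mul_lt_mul_of_pos_right htN2 hH2
          _ = (H ^ 2) ^ 2 := (pow_two _).symm
          _ ≤ (Z * N) ^ 2 := pow_le_pow_left₀ hH2.le hcon 2
          _ = Z ^ 2 * N ^ 2 := mul_pow _ _ _
      have c4 : t ^ 2 * (H ^ 2) ^ 2 < Z ^ 3 := by
        refine lt_of_mul_lt_mul_right (?_ : t ^ 2 * (H ^ 2) ^ 2 * N ^ 3 < Z ^ 3 * N ^ 3)
          (pow_pos hN0 3).le
        calc t ^ 2 * (H ^ 2) ^ 2 * N ^ 3 = t ^ 2 * N ^ 3 * (H ^ 2) ^ 2 := by ac_rfl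
          _ < H ^ 2 * (H ^ 2) ^ 2 := mul_lt_mul_of_pos_right htN2 (pow_pos hH2 2)
          _ = (H ^ 2) ^ 3 := by rw [← pow_succ']
          _ ≤ (Z * N) ^ 3 := pow_le_pow_left₀ hH2.le hcon 3
          _ = Z ^ 3 * N ^ 3 := mul_pow _ _ _
      have d1 : V (2 * (3 * x ^ 2 + A) * z ^ 2) < Z ^ 3 := by
        rw [map_mul, map_mul, hp, map_pow, ← ht, ← hZ, pow_succ' Z 2]
        exact mul_lt_mul_of_pos_right c1 (pow_pos hZ0 2)
      have d2 : V (((3 * x ^ 2 + A) ^ 2 - 4 * (3 * x * h ^ 2)) * z) < Z ^ 3 := by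
        rw [map_mul, ← hZ, pow_succ Z 2]
        refine mul_lt_mul_of_pos_right ?_ hZ0
        have f1 : V ((3 * x ^ 2 + A) ^ 2) < Z ^ 2 := by
          rw [map_pow, hp, ← pow_mul]; exact c2
        have f2 : V (4 * (3 * x * h ^ 2)) < Z ^ 2 := by
          have e4 : (4 : L) = 2 ^ 2 := by norm_num
          rw [map_mul, hr, e4, map_pow]; exact c3
        rw [sub_eq_add_neg]
        exact V.map_add_lt f1 (by rw [V.map_neg]; exact f2)
      have d3 : V ((-2 * h * j) ^ 2) < Z ^ 3 := by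
        rw [map_pow, hq, mul_pow]; exact c4
      have e : z ^ 3 = -(2 * (3 * x ^ 2 + A) * z ^ 2 +
          ((3 * x ^ 2 + A) ^ 2 - 4 * (3 * x * h ^ 2)) * z + (-(-2 * h * j) ^ 2)) := by
        linear_combination hz'
      have := map_sum3_lt V (g := Z ^ 3) d1 d2 (c := -(-2 * h * j) ^ 2)
        (by rw [V.map_neg]; exact d3)
      rw [← V.map_neg, ← e, map_pow] at this
      exact lt_irrefl _ this
    have hgt : N < V (j ^ 2 / z) := by
      rw [map_div₀, map_pow, hhj, lt_div_iff₀ hZ0, mul_comm]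
      exact key
    rw [V.map_add_eq_of_lt_right hgt]
    exact hgt

end Pool.Agent.Lib.MP_1a91b9_nt
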