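import Pool.Agent.Lib.MP_1a91b9_nt.S4Irred
import Pool.Agent.Lib.MP_1a91b9_nt.S4Fix
import Pool.Agent.Lib.MP_1a91b9_nt.S4Count
import Pool.Agent.Lib.MP_1a91b9_nt.S4Growth
import Pool.Agent.Lib.MP_1a91b9_nt.S4PtEq
import Pool.Agent.Lib.MP_1a91b9_nt.S4SumQ
import Pool.Agent.Lib.MP_1a91b9_nt.S4SumT
import Pool.Agent.Lib.MP_1a91b9_nt.S4NT
import Pool.Agent.Lib.MP_1a91b9_nt.S4ValTwo
import Pool.Agent.Lib.MP_1a91b9_nt.S4ValOdd
import Pool.Agent.Lib.MP_1a91b9_nt.S4Param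
import Pool.Agent.Lib.MP_1a91b9_nt.S4ParamVal
import Pool.Agent.Lib.MP_1a91b9_nt.S4Eta
import Pool.Agent.Lib.MP_1a91b9_nt.S4Place
import Pool.Agent.Lib.MP_1a91b9_nt.S4Gal
import Pool.Agent.Lib.MP_1a91b9_nt.S4Stab
import Pool.Agent.Lib.MP_1a91b9_nt.S4Normal
import Pool.Agent.Lib.MP_1a91b9_nt.RankStep

/-!
# The parameters of the quartic extensions
-/

set_option autoImplicit false

namespace Pool.Agent.Lib.MP_1a91b9_nt

open IsDedekindDomain NumberField Polynomial IntermediateField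

universe u

theorem quart_map {K L : Type*} [CommRing K] [CommRing L] (φ : K →+* L) (p q r : K) :
    (quart p q r).map φ = quart (φ p) (φ q) (φ r) := by
  simp [quart]

theorem resol_map {K L : Type*} [CommRing K] [CommRing L] (φ : K →+* L) (p q r : K) :
    (resol p q r).map φ = resol (φ p) (φ q) (φ r) := by
  have h2 : φ 2 = 2 := map_ofNat φ 2
  have h4 : φ 4 = 4 := map_ofNat φ 4
  simp [resol, h2, h4]

/-- consequences of the valuations of the parameters -/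
theorem param_cons {K Γ : Type*} [Field K] [LinearOrderedCommGroupWithZero Γ] (V : Valuation K Γ)
    (h2 : V 2 ≤ 1) (h20 : (2 : K) ≠ 0) (x h : K) (s J : Γ) (hJ0 : J ≠ 0) (hJ1 : J < 1) (hs : 1 ≤ s)
    (hx : V x * (V 4 * J) = s ^ 4) (hh : V h * (V 8 * J ^ 2) = s ^ 6) :
    V h ^ 2 * J = V x ^ 3 ∧ s ≤ V x := by
  have h4 : V 4 = V 2 ^ 2 := by
    rw [← map_pow]
    norm_num
  have h8 : V 8 = V 2 ^ 3 := by
    rw [← map_pow]
    norm_num
  have ht0 : V 2 ≠ 0 := (Valuation.ne_zero_iff V).2 h20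
  rw [h4] at hx
  rw [h8] at hh
  constructor
  · have h6 : V 2 ^ 6 * J ^ 3 ≠ 0 := mul_ne_zero (pow_ne_zero _ ht0) (pow_ne_zero _ hJ0)
    refine mul_right_cancel₀ h6 ?_
    calc V h ^ 2 * J * (V 2 ^ 6 * J ^ 3) = (V h * (V 2 ^ 3 * J ^ 2)) ^ 2 := by
          rw [mul_pow, mul_pow, ← pow_mul, ← pow_mul, mul_mul_mul_comm, mul_comm J (J ^ 3),
            ← pow_succ, mul_assoc]
      _ = (s ^ 6) ^ 2 := by rw [hh]
      _ = (s ^ 4) ^ 3 := by rw [← pow_mul, ← pow_mul]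
      _ = (V x * (V 2 ^ 2 * J)) ^ 3 := by rw [hx]
      _ = V x ^ 3 * (V 2 ^ 6 * J ^ 3) := by
          rw [mul_pow, mul_pow, ← pow_mul]
  · have h5 : V 2 ^ 2 * J ≤ 1 := mul_le_one' (pow_le_one₀ zero_le h2) hJ1.le
    calc s = s ^ 1 := (pow_one s).symm
      _ ≤ s ^ 4 := pow_le_pow_right₀ hs (by norm_num)
      _ = V x * (V 2 ^ 2 * J) := hx.symm
      _ ≤ V x * 1 := by gcongr
      _ = V x := mul_one _

theorem no_root_mod {K N : Type u} [Field K] [NumberField K] [Field N] [NumberField N]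
    [Algebra K N] {p : HeightOneSpectrum (𝓞 K)} (P : HeightOneSpectrum (𝓞 N)) (e : ℕ)
    (he3 : ¬ 3 ∣ e) (hp2 : p.valuation K 2 = 1)
    (hP : ∀ x : K, P.valuation N (algebraMap K N x) = p.valuation K x ^ e)
    {A : K} (x h j : K) {J : K} (hx1 : 1 < p.valuation K x)
    (hxA : p.valuation K A < p.valuation K x) (hjh : p.valuation K j = p.valuation K h)
    (hJ : p.valuation K h ^ 2 * p.valuation K J = p.valuation K x ^ 3)
    (hJ1 : p.valuation K J = WithZero.exp (-1 : ℤ)) (z : N) :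
    aeval z (resol (3 * x ^ 2 + A) (-2 * h * j) (3 * x * h ^ 2)) ≠ 0 := by
  intro hz
  have he0 : e ≠ 0 := by
    rintro rfl
    exact he3 (dvd_zero 3)
  have hJlt : p.valuation K J < 1 := by
    rw [hJ1]
    decide
  have hP2 : P.valuation N 2 = 1 := by
    have := hP 2
    rwa [map_ofNat, hp2, one_pow] at this
  have hh0 : p.valuation K h ≠ 0 := by
    intro h0
    rw [h0, zero_pow two_ne_zero, zero_mul] at hJ
    exact pow_ne_zero 3 (zero_lt_one.trans hx1).ne' hJ.symm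
  have hz' : (resol (3 * (algebraMap K N x) ^ 2 + algebraMap K N A)
      (-2 * algebraMap K N h * algebraMap K N j)
      (3 * algebraMap K N x * (algebraMap K N h) ^ 2)).eval z = 0 := by
    rw [aeval_def, ← eval_map, resol_map] at hz
    rw [← hz]
    congr 2 <;> simp only [map_add, map_mul, map_pow, map_neg, map_ofNat (algebraMap K N)]
  have h5 := val_odd (P.valuation N) hP2 (algebraMap K N A) (algebraMap K N x) (algebraMap K N h)
    (algebraMap K N j) (p.valuation K J ^ e) (by rw [hP]; exact one_lt_pow₀ hx1 he0)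
    (by rw [hP, hP]; exact pow_lt_pow_left₀ hxA zero_le he0)
    (by rw [hP, hP, hjh]) (by rw [hP, hP, ← pow_mul, ← pow_mul, mul_comm e 2, mul_comm e 3,
      pow_mul, pow_mul, ← mul_pow, hJ]) (pow_lt_one₀ zero_le hJlt he0) z hz'
  rw [hP] at h5
  have hz0 : P.valuation N z ≠ 0 := by
    intro h0
    rw [h0, zero_pow (by norm_num)] at h5
    exact pow_ne_zero 4 (pow_ne_zero e hh0) h5.symm
  set c := (p.valuation K x ^ e) ^ 2 / P.valuation N z with hc
  have hc3 : c ^ 3 = WithZero.exp (-(2 * e : ℤ)) := by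
    have h6 : c ^ 3 = (p.valuation K J ^ e) ^ 2 := by
      rw [hc, div_pow, div_eq_iff (pow_ne_zero _ hz0), h5]
      calc ((p.valuation K x ^ e) ^ 2) ^ 3 = ((p.valuation K x ^ 3) ^ e) ^ 2 := by
            rw [← pow_mul, ← pow_mul, ← pow_mul, ← pow_mul]
            congr 1
            ring
        _ = ((p.valuation K h ^ 2 * p.valuation K J) ^ e) ^ 2 := by rw [hJ]
        _ = (p.valuation K J ^ e) ^ 2 * (p.valuation K h ^ e) ^ 4 := by
            rw [mul_pow, mul_pow, mul_comm, ← pow_mul (p.valuation K h) 2 e,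
              ← pow_mul (p.valuation K h) (2 * e) 2, ← pow_mul (p.valuation K h) e 4]
            congr 2
            omega
    rw [h6, hJ1, ← WithZero.exp_nsmul, ← WithZero.exp_nsmul]
    congr 1
    simp
  have hc0 : c ≠ 0 := by
    intro h0
    rw [h0, zero_pow (by norm_num)] at hc3
    exact absurd hc3.symm WithZero.exp_ne_zero
  obtain ⟨m, hm⟩ : ∃ m : ℤ, c = WithZero.exp m := ⟨WithZero.log c, (WithZero.exp_log hc0).symm⟩
  rw [hm, ← WithZero.exp_nsmul, WithZero.exp_inj] at hc3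
  have h7 : 3 * m = -(2 * e : ℤ) := by simpa using hc3
  omega

/-- the explicit parameters -/
theorem exists_params {K : Type u} [Field K] [NumberField K] (A B : K) (ψ : K[X]) :
    ∃ x h j : K, x ^ 3 + A * x + B = h ^ 2 + j ^ 2 ∧ x ≠ 0 ∧ h ≠ 0 ∧ j ≠ 0 ∧
      (∀ y : K, (quart (3 * x ^ 2 + A) (-2 * h * j) (3 * x * h ^ 2)).eval y ≠ 0) ∧
      (∀ z : ψ.SplittingField, aeval z (resol (3 * x ^ 2 + A) (-2 * h * j) (3 * x * h ^ 2)) ≠ 0) ∧
      (∀ (M : Type u) [Field M] [NumberField M] [Algebra K M],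
        ∃ (V : Valuation M (WithZero (Multiplicative ℤ))) (J : WithZero (Multiplicative ℤ)),
          V 2 < 1 ∧ 1 < V (algebraMap K M x) ∧ V (algebraMap K M A) < V (algebraMap K M x) ∧
          V (algebraMap K M B) < V (algebraMap K M x) ∧
          V (algebraMap K M j) = V (algebraMap K M h) ∧
          V (algebraMap K M h) ^ 2 * J = V (algebraMap K M x) ^ 3 ∧ J < 1 ∧ V 2 ^ 4 ≤ J) := by
  let N := ψ.SplittingField
  have hcN : CharZero N := charZero_of_injective_algebraMap (algebraMap K N).injective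
  have hN : NumberField N := NumberField.of_module_finite K N
  obtain ⟨p, P, η₀, e, he3, hp2, hη₀, hP⟩ := exists_place_mod K N
  obtain ⟨w, hw⟩ := exists_above_two K
  obtain ⟨η, hηp, hηw1, hηw2, hηw3⟩ := exists_eta K w p hw hp2 η₀ hη₀
  set Vw := w.valuation K with hVw
  set Vp := p.valuation K with hVp
  have h20 : (2 : K) ≠ 0 := two_ne_zero
  have hint : ∀ (v : HeightOneSpectrum (𝓞 K)) (n : ℕ), v.valuation K (n : K) ≤ 1 := by
    intro v n
    have h := HeightOneSpectrum.valuation_le_one (K := K) v (n : 𝓞 K)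
    have e : (algebraMap (𝓞 K) K) (n : 𝓞 K) = n := map_natCast (algebraMap (𝓞 K) K) n
    have h' : v.valuation K ((algebraMap (𝓞 K) K) (n : 𝓞 K)) ≤ 1 := h
    rwa [e] at h'
  have hw2 : Vw 2 < 1 := by
    have h := (HeightOneSpectrum.valuation_lt_one_iff_mem (K := K) w 2).2 hw
    have e : (algebraMap (𝓞 K) K) 2 = 2 := map_ofNat (algebraMap (𝓞 K) K) 2
    have h' : w.valuation K ((algebraMap (𝓞 K) K) 2) < 1 := h
    rwa [e] at h'
  have hw3 : Vw 3 ≤ 1 := by exact_mod_cast hint w 3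
  have hp2' : Vp 2 = 1 := by
    refine le_antisymm (by exact_mod_cast hint p 2) (not_lt.mp fun hlt => hp2 ?_)
    refine (HeightOneSpectrum.valuation_lt_one_iff_mem (K := K) p 2).1 ?_
    have e : (algebraMap (𝓞 K) K) 2 = 2 := map_ofNat (algebraMap (𝓞 K) K) 2
    change p.valuation K ((algebraMap (𝓞 K) K) 2) < 1
    rwa [e]
  have hp3 : Vp 3 ≤ 1 := by exact_mod_cast hint p 3
  have hηp1 : Vp (1 + (η : K) ^ 2) < 1 := by
    rw [hηp]
    decide
  have hη0 : 1 + (η : K) ^ 2 ≠ 0 := by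
    intro h0
    rw [h0, map_zero] at hηp
    exact absurd hηp (WithZero.exp_ne_zero).symm
  obtain ⟨c₁, hc₁⟩ := param_val Vw hw2.le h20 hw3 A B (η : K) hηw1 hη0
  obtain ⟨c₂, hc₂⟩ := param_val Vp hp2'.le h20 hp3 A B (η : K) hηp1 hη0
  obtain ⟨v, hv0, hv1, hv2⟩ := exists_big K w p (c₁ ⊔ (1 ⊔ (Vw A ⊔ Vw B))) (c₂ ⊔ (1 ⊔ (Vp A ⊔ Vp B)))
  simp only [sup_lt_iff] at hv1 hv2
  obtain ⟨hv11, hv12, hv13, hv14⟩ := hv1
  obtain ⟨hv21, hv22, hv23, hv24⟩ := hv2
  obtain ⟨a1, a2, a3⟩ := hc₁ v hv11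
  obtain ⟨b1, b2, b3⟩ := hc₂ v hv21
  set x := pX A B (1 + (η : K) ^ 2) v with hx
  set h := pH A B (η : K) v with hh
  set j := pJ A B (η : K) v with hj
  set Jw := Vw (1 + (η : K) ^ 2) with hJw
  set Jp := Vp (1 + (η : K) ^ 2) with hJp
  have hJw0 : Jw ≠ 0 := (Valuation.ne_zero_iff _).2 hη0
  have hJp0 : Jp ≠ 0 := (Valuation.ne_zero_iff _).2 hη0
  obtain ⟨w1, w2⟩ := param_cons Vw hw2.le h20 x h (Vw v) Jw hJw0 hηw1 hv12.le a1 a2
  obtain ⟨p1, p2⟩ := param_cons Vp hp2'.le h20 x h (Vp v) Jp hJp0 hηp1 hv22.le b1 b2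
  have h8w : Vw 8 * Jw ^ 2 ≠ 0 :=
    mul_ne_zero ((Valuation.ne_zero_iff _).2 (by norm_num)) (pow_ne_zero _ hJw0)
  have h8p : Vp 8 * Jp ^ 2 ≠ 0 :=
    mul_ne_zero ((Valuation.ne_zero_iff _).2 (by norm_num)) (pow_ne_zero _ hJp0)
  have wjh : Vw j = Vw h := mul_right_cancel₀ h8w (a3.trans a2.symm)
  have pjh : Vp j = Vp h := mul_right_cancel₀ h8p (b3.trans b2.symm)
  have hx1 : 1 < Vw x := hv12.trans_le w2
  have hxA : Vw A < Vw x := hv13.trans_le w2
  have hxB : Vw B < Vw x := hv14.trans_le w2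
  have hpx1 : 1 < Vp x := hv22.trans_le p2
  have hpxA : Vp A < Vp x := hv23.trans_le p2
  have hx0 : x ≠ 0 := by
    intro h0
    rw [h0, map_zero] at hx1
    exact absurd hx1 (not_lt.mpr zero_le_one)
  have hh0 : h ≠ 0 := by
    intro h0
    rw [h0, map_zero, zero_pow two_ne_zero, zero_mul] at w1
    exact pow_ne_zero 3 ((Valuation.ne_zero_iff Vw).2 hx0) w1.symm
  have hj0 : j ≠ 0 := by
    intro h0
    rw [h0, map_zero] at wjh
    exact (Valuation.ne_zero_iff Vw).2 hh0 wjh.symm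
  refine ⟨x, h, j, param_identity h20 A B _ v hv0 hη0, hx0, hh0, hj0, ?_, ?_, ?_⟩
  · intro y hy
    obtain ⟨h5, -⟩ := (val_two Vw hw2 h20 A x h j Jw hx1 hxA wjh w1 hηw1 hηw2).1 y hy
    have hy0 : Vw y ≠ 0 := by
      intro h0
      rw [h0, zero_pow (by norm_num)] at h5
      exact mul_ne_zero ((Valuation.ne_zero_iff Vw).2 hx0)
        (pow_ne_zero 2 ((Valuation.ne_zero_iff Vw).2 hh0)) h5.symm
    refine hηw3 (Vw x / Vw y) ?_
    rw [div_pow, div_eq_iff (pow_ne_zero _ hy0), h5]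
    calc Vw x ^ 4 = Vw x * Vw x ^ 3 := by rw [pow_succ']
      _ = Vw x * (Vw h ^ 2 * Jw) := by rw [w1]
      _ = Jw * (Vw x * Vw h ^ 2) := by
        rw [mul_comm Jw, mul_assoc]
  · exact no_root_mod P e he3 hp2' hP x h j hpx1 hpxA pjh p1 hηp
  · intro M _ _ _
    obtain ⟨Q, e', he', hQ⟩ := exists_place_above K M w
    have hQm : ∀ a : K, Q.valuation M (algebraMap K M a) = Vw a ^ e' := hQ
    have hQ2 : Q.valuation M 2 = Vw 2 ^ e' := by
      have := hQm 2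
      rwa [map_ofNat] at this
    refine ⟨Q.valuation M, Jw ^ e', ?_, ?_, ?_, ?_, ?_, ?_, ?_, ?_⟩
    · rw [hQ2]
      exact pow_lt_one₀ zero_le hw2 he'
    · rw [hQm]
      exact one_lt_pow₀ hx1 he'
    · rw [hQm, hQm]
      exact pow_lt_pow_left₀ hxA zero_le he'
    · rw [hQm, hQm]
      exact pow_lt_pow_left₀ hxB zero_le he'
    · rw [hQm, hQm, wjh]
    · rw [hQm, hQm, ← pow_mul, ← pow_mul, mul_comm e' 2, mul_comm e' 3, pow_mul, pow_mul,
        ← mul_pow, w1]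
    · exact pow_lt_one₀ zero_le hηw1 he'
    · rw [hQ2, ← pow_mul, mul_comm, pow_mul]
      exact pow_le_pow_left₀ zero_le hηw2 e'

end Pool.Agent.Lib.MP_1a91b9_nt
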