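import Pool.Agent.Lib.MP_1a91b9_nt.VarChange

/-!
# Shape of the local polynomial
-/

set_option autoImplicit false

namespace Pool.Agent.Lib.MP_1a91b9_nt

open Polynomial

theorem localPolynomial_shape (R : Type*) [CommRing R] [IsDomain R] [IsDiscreteValuationRing R]
    [Finite (IsLocalRing.ResidueField R)]
    {K : Type*} [Field K] [Algebra R K] [IsFractionRing R K] (W : WeierstrassCurve K) :
    ∃ a b : ℤ, W.localPolynomial R = 1 - Polynomial.C a * X + Polynomial.C b * X ^ 2 ∧
      |a| ≤ Nat.card (IsLocalRing.ResidueField R) ∧ |b| ≤ Nat.card (IsLocalRing.ResidueField R) ∧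
      (Nat.card (IsLocalRing.ResidueField R) : ℤ) ^ 2
        - a * Nat.card (IsLocalRing.ResidueField R) + b ≠ 0 := by
  classical
  set q : ℕ := Nat.card (IsLocalRing.ResidueField R) with hq
  have hq2 : 2 ≤ q := Finite.one_lt_card
  have hqz : (2 : ℤ) ≤ (q : ℤ) := by exact_mod_cast hq2
  by_cases h1 : (W.minimal R).HasGoodReduction R
  · refine ⟨(q : ℤ) + 1 - Nat.card ((W.minimal R).reduction R).toAffine.Point, q, ?_, ?_, ?_, ?_⟩
    · rw [WeierstrassCurve.localPolynomial, if_pos h1]
    · obtain ⟨h2, h3⟩ := card_point_le ((W.minimal R).reduction R)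
      have h2' : (1 : ℤ) ≤ Nat.card ((W.minimal R).reduction R).toAffine.Point := by
        exact_mod_cast h2
      have h3' : (Nat.card ((W.minimal R).reduction R).toAffine.Point : ℤ) ≤ 2 * q + 1 := by
        exact_mod_cast h3
      rw [abs_le]
      constructor <;> linarith
    · rw [abs_of_nonneg (by positivity)]
    · obtain ⟨h2, h3⟩ := card_point_le ((W.minimal R).reduction R)
      have h2' : (1 : ℤ) ≤ Nat.card ((W.minimal R).reduction R).toAffine.Point := by
        exact_mod_cast h2
      have : (q : ℤ) ^ 2 - ((q : ℤ) + 1 - Nat.card ((W.minimal R).reduction R).toAffine.Point) * q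
          + q = q * Nat.card ((W.minimal R).reduction R).toAffine.Point := by ring
      rw [this]
      positivity
  by_cases h2 : (W.minimal R).HasSplitMultiplicativeReduction R
  · refine ⟨1, 0, ?_, ?_, ?_, ?_⟩
    · rw [WeierstrassCurve.localPolynomial, if_neg h1, if_pos h2]
      simp
    · rw [abs_one]; linarith
    · rw [abs_zero]; positivity
    · nlinarith
  by_cases h3 : (W.minimal R).HasMultiplicativeReduction R
  · refine ⟨-1, 0, ?_, ?_, ?_, ?_⟩
    · rw [WeierstrassCurve.localPolynomial, if_neg h1, if_neg h2, if_pos h3]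
      simp
    · rw [abs_neg, abs_one]; linarith
    · rw [abs_zero]; positivity
    · nlinarith
  · refine ⟨0, 0, ?_, ?_, ?_, ?_⟩
    · rw [WeierstrassCurve.localPolynomial, if_neg h1, if_neg h2, if_neg h3]
      simp
    · rw [abs_zero]; positivity
    · rw [abs_zero]; positivity
    · nlinarith

end Pool.Agent.Lib.MP_1a91b9_nt
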