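import Pool.Agent.Lib.MP_1a91b9_nt.TSEq

/-!
# Totally split quartic extensions: sum and difference of the points of `t` and `-t`
-/

set_option autoImplicit false

namespace Pool.Agent.Lib.MP_1a91b9_nt

open IsDedekindDomain NumberField Polynomial IntermediateField
open scoped Topology

section TSAdd
variable {M : Type*} [Field M] [CharZero M] [DecidableEq M] (V : WeierstrassCurve.Affine M)
  (hell : WeierstrassCurve.IsElliptic V)
  (h1 : V.a₁ = 0) (h2 : V.a₂ = 0) (h3 : V.a₃ = 0)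

omit [CharZero M] [DecidableEq M] in
private theorem TSAdd_ne (t : M) (ht1 : 1 - t ^ 2 ≠ 0) :
    1 - t ≠ 0 ∧ 1 + t ≠ 0 ∧ 1 - -t ≠ 0 := by
  have h4 : 1 - t ^ 2 = (1 - t) * (1 + t) := by ring
  rw [h4] at ht1
  have h5 := left_ne_zero_of_mul ht1
  have h6 := right_ne_zero_of_mul ht1
  exact ⟨h5, h6, by rwa [sub_neg_eq_add]⟩

omit [DecidableEq M] in
private theorem TSAdd_diffX (x c t : M) (ht1 : 1 - t ^ 2 ≠ 0) :
    tsX x c t - tsX x c (-t) = 2 * c * t / (1 - t ^ 2) := by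
  obtain ⟨h5, h6, -⟩ := TSAdd_ne t ht1
  unfold tsX
  rw [sub_neg_eq_add]
  field_simp
  ring

omit [DecidableEq M] in
private theorem TSAdd_sumX (x c t : M) (ht1 : 1 - t ^ 2 ≠ 0) :
    tsX x c t + tsX x c (-t) = 2 * x + 2 * c * t ^ 2 / (1 - t ^ 2) := by
  obtain ⟨h5, h6, -⟩ := TSAdd_ne t ht1
  unfold tsX
  rw [sub_neg_eq_add]
  field_simp
  ring

omit [DecidableEq M] in
private theorem TSAdd_Xne (x c t : M) (hc : c ≠ 0) (ht0 : t ≠ 0) (ht1 : 1 - t ^ 2 ≠ 0) :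
    tsX x c t ≠ tsX x c (-t) := by
  intro h
  have h4 := TSAdd_diffX x c t ht1
  rw [h, sub_self] at h4
  have h5 : 2 * c * t / (1 - t ^ 2) ≠ 0 :=
    div_ne_zero (mul_ne_zero (mul_ne_zero two_ne_zero hc) ht0) ht1
  exact h5 h4.symm

omit [DecidableEq M] in
private theorem TSAdd_slope (A B x c h t : M) (hc : c ≠ 0) (hh : h ≠ 0) (ht0 : t ≠ 0)
    (ht1 : 1 - t ^ 2 ≠ 0) :
    (tsY A B x c h t - tsY A B x c h (-t)) / (tsX x c t - tsX x c (-t)) =
      tsL A B x c h (t ^ 2) := by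
  obtain ⟨h5, h6, -⟩ := TSAdd_ne t ht1
  rw [TSAdd_diffX x c t ht1]
  unfold tsY tsL
  rw [sub_neg_eq_add]
  generalize tsa A B x c = a
  generalize tsb A B x c = b
  have h2 : (2 : M) ≠ 0 := two_ne_zero
  have h4 : (1 - t ^ 2) = (1 - t) * (1 + t) := by ring
  rw [h4]
  field_simp
  ring

omit [DecidableEq M] in
private theorem TSAdd_slope' (A B x c h t : M) (hc : c ≠ 0) (hh : h ≠ 0) (ht0 : t ≠ 0)
    (ht1 : 1 - t ^ 2 ≠ 0) :
    (tsY A B x c h t + tsY A B x c h (-t)) / (tsX x c t - tsX x c (-t)) =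
      (h ^ 2 * (1 + t ^ 2) + t ^ 2 * (tsa A B x c * t ^ 2 + tsb A B x c)) /
        (h * c * t * (1 - t ^ 2)) := by
  obtain ⟨h5, h6, -⟩ := TSAdd_ne t ht1
  rw [TSAdd_diffX x c t ht1]
  unfold tsY
  rw [sub_neg_eq_add]
  generalize tsa A B x c = a
  generalize tsb A B x c = b
  have h2 : (2 : M) ≠ 0 := two_ne_zero
  have h4 : (1 - t ^ 2) = (1 - t) * (1 + t) := by ring
  rw [h4]
  field_simp
  ring

omit [DecidableEq M] in
private theorem TSAdd_third (A B x c h t : M) (hc : c ≠ 0) (hh : h ≠ 0)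
    (ht1 : 1 - t ^ 2 ≠ 0) :
    tsL A B x c h (t ^ 2) * (tsXR A B x c h (t ^ 2) - tsX x c t) + tsY A B x c h t =
      tsYR A B x c h (t ^ 2) := by
  obtain ⟨h5, h6, -⟩ := TSAdd_ne t ht1
  have key : tsY A B x c h t - tsL A B x c h (t ^ 2) * (tsX x c t - x + c) =
      -((2 * h ^ 2 + tsa A B x c * t ^ 2 + tsb A B x c) / (2 * h * (1 - t ^ 2))) := by
    unfold tsY tsX tsL
    generalize tsa A B x c = a
    generalize tsb A B x c = b
    have h2 : (2 : M) ≠ 0 := two_ne_zero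
    have h4 : (1 - t ^ 2) = (1 - t) * (1 + t) := by ring
    rw [h4]
    field_simp
    ring
  unfold tsYR
  linear_combination key

include hell h1 h2 h3 in
omit [DecidableEq M] in
private theorem TSAdd_pt (x c h t : M) (hh : h ≠ 0) (ht : 1 - t ≠ 0)
    (hq : tsq V.a₄ V.a₆ x c h (t ^ 2) = 0) :
    ∃ n : V.Nonsingular (tsX x c t) (tsY V.a₄ V.a₆ x c h t),
      tsPt V x c h t = WeierstrassCurve.Affine.Point.some _ _ n := by
  haveI := hell
  have n := (WeierstrassCurve.Affine.equation_iff_nonsingular (W := V)).1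
    (ts_equation V h1 h2 h3 x c h t hh ht hq)
  refine ⟨n, ?_⟩
  unfold tsPt
  rw [dif_pos n]

include hell h1 h2 h3 in
theorem ts_add (x c h t : M) (hc : c ≠ 0) (hh : h ≠ 0) (ht0 : t ≠ 0) (ht1 : 1 - t ^ 2 ≠ 0)
    (hq : tsq V.a₄ V.a₆ x c h (t ^ 2) = 0) :
    ∃ n : V.Nonsingular (tsXR V.a₄ V.a₆ x c h (t ^ 2)) (-tsYR V.a₄ V.a₆ x c h (t ^ 2)),
      tsPt V x c h t + tsPt V x c h (-t) = WeierstrassCurve.Affine.Point.some _ _ n := by
  obtain ⟨h5, h6, h7⟩ := TSAdd_ne t ht1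
  obtain ⟨n1, e1⟩ := TSAdd_pt V hell h1 h2 h3 x c h t hh h5 hq
  obtain ⟨n2, e2⟩ := TSAdd_pt V hell h1 h2 h3 x c h (-t) hh h7 (by rwa [neg_sq])
  have hx := TSAdd_Xne x c t hc ht0 ht1
  have hs : V.slope (tsX x c t) (tsX x c (-t)) (tsY V.a₄ V.a₆ x c h t)
      (tsY V.a₄ V.a₆ x c h (-t)) = tsL V.a₄ V.a₆ x c h (t ^ 2) := by
    rw [WeierstrassCurve.Affine.slope_of_X_ne hx]
    exact TSAdd_slope V.a₄ V.a₆ x c h t hc hh ht0 ht1
  have hX : V.addX (tsX x c t) (tsX x c (-t)) (tsL V.a₄ V.a₆ x c h (t ^ 2)) =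
      tsXR V.a₄ V.a₆ x c h (t ^ 2) := by
    rw [WeierstrassCurve.Affine.addX, h1, h2, tsXR]
    linear_combination -(TSAdd_sumX x c t ht1)
  have hY : V.addY (tsX x c t) (tsX x c (-t)) (tsY V.a₄ V.a₆ x c h t)
      (tsL V.a₄ V.a₆ x c h (t ^ 2)) = -tsYR V.a₄ V.a₆ x c h (t ^ 2) := by
    rw [WeierstrassCurve.Affine.addY, WeierstrassCurve.Affine.negAddY, hX,
      WeierstrassCurve.Affine.negY, h1, h3]
    linear_combination -(TSAdd_third V.a₄ V.a₆ x c h t hc hh ht1)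
  have hsum : tsPt V x c h t + tsPt V x c h (-t) =
      WeierstrassCurve.Affine.Point.some _ _
        (WeierstrassCurve.Affine.nonsingular_add n1 n2 fun h => (hx h.1).elim) := by
    rw [e1, e2, WeierstrassCurve.Affine.Point.add_of_X_ne hx]
  have n := WeierstrassCurve.Affine.nonsingular_add n1 n2 fun h => (hx h.1).elim
  rw [hs, hX, hY] at n
  refine ⟨n, ?_⟩
  rw [hsum, WeierstrassCurve.Affine.Point.some.injEq, hs]
  exact ⟨hX, hY⟩

include hell h1 h2 h3 in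
theorem ts_sub (x c h t : M) (hc : c ≠ 0) (hh : h ≠ 0) (ht0 : t ≠ 0) (ht1 : 1 - t ^ 2 ≠ 0)
    (hq : tsq V.a₄ V.a₆ x c h (t ^ 2) = 0) :
    ∃ (y : M) (n : V.Nonsingular (tsXU V.a₄ V.a₆ x c h t) y),
      tsPt V x c h t - tsPt V x c h (-t) = WeierstrassCurve.Affine.Point.some _ _ n := by
  obtain ⟨h5, h6, h7⟩ := TSAdd_ne t ht1
  obtain ⟨n1, e1⟩ := TSAdd_pt V hell h1 h2 h3 x c h t hh h5 hq
  obtain ⟨n2, e2⟩ := TSAdd_pt V hell h1 h2 h3 x c h (-t) hh h7 (by rwa [neg_sq])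
  have hx := TSAdd_Xne x c t hc ht0 ht1
  have n3 := (WeierstrassCurve.Affine.nonsingular_neg _ _).2 n2
  have hneg : V.negY (tsX x c (-t)) (tsY V.a₄ V.a₆ x c h (-t)) =
      -tsY V.a₄ V.a₆ x c h (-t) := by
    rw [WeierstrassCurve.Affine.negY, h1, h3]
    ring
  have hs : V.slope (tsX x c t) (tsX x c (-t)) (tsY V.a₄ V.a₆ x c h t)
      (V.negY (tsX x c (-t)) (tsY V.a₄ V.a₆ x c h (-t))) =
      (h ^ 2 * (1 + t ^ 2) + t ^ 2 * (tsa V.a₄ V.a₆ x c * t ^ 2 + tsb V.a₄ V.a₆ x c)) /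
        (h * c * t * (1 - t ^ 2)) := by
    rw [WeierstrassCurve.Affine.slope_of_X_ne hx, hneg, sub_neg_eq_add]
    exact TSAdd_slope' V.a₄ V.a₆ x c h t hc hh ht0 ht1
  have hX : V.addX (tsX x c t) (tsX x c (-t)) (V.slope (tsX x c t) (tsX x c (-t))
      (tsY V.a₄ V.a₆ x c h t) (V.negY (tsX x c (-t)) (tsY V.a₄ V.a₆ x c h (-t)))) =
      tsXU V.a₄ V.a₆ x c h t := by
    rw [hs, WeierstrassCurve.Affine.addX, h1, h2, tsXU]
    linear_combination -(TSAdd_sumX x c t ht1)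
  have hsum : tsPt V x c h t - tsPt V x c h (-t) =
      WeierstrassCurve.Affine.Point.some _ _
        (WeierstrassCurve.Affine.nonsingular_add n1 n3 fun h => (hx h.1).elim) := by
    rw [e1, e2, sub_eq_add_neg, WeierstrassCurve.Affine.Point.neg_some,
      WeierstrassCurve.Affine.Point.add_of_X_ne hx]
  have n := WeierstrassCurve.Affine.nonsingular_add n1 n3 fun h => (hx h.1).elim
  rw [hX] at n
  refine ⟨_, n, ?_⟩
  rw [hsum, WeierstrassCurve.Affine.Point.some.injEq]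
  exact ⟨hX, rfl⟩

end TSAdd

end Pool.Agent.Lib.MP_1a91b9_nt
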