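import Pool.Agent.Lib.MP_1a91b9_nt.TSDefs
import Mathlib.Analysis.Normed.Field.Basic

/-!
# Totally split quartic extensions: the parametrisation near infinity
-/

set_option autoImplicit false

namespace Pool.Agent.Lib.MP_1a91b9_nt

open IsDedekindDomain NumberField Polynomial IntermediateField
open scoped Topology

universe u

section TSBase

variable {k : Type*} [NontriviallyNormedField k] [CharZero k]

private lemma tsBase_al (A : k) {w : k} (hw : w ≠ 0) (h1 : 1 - A * w ^ 2 ≠ 0) :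
    pAl A w⁻¹ ≠ 0 ∧ (pAl A w⁻¹)⁻¹ = -2 * w ^ 2 / (1 - A * w ^ 2) := by
  have h2 : (2 : k) ≠ 0 := two_ne_zero
  have h3 : pAl A w⁻¹ = -(1 - A * w ^ 2) / (2 * w ^ 2) := by
    unfold pAl
    field_simp
    ring
  have h4 : pAl A w⁻¹ ≠ 0 := by
    rw [h3]
    exact div_ne_zero (neg_ne_zero.2 h1) (mul_ne_zero h2 (pow_ne_zero 2 hw))
  refine ⟨h4, ?_⟩
  rw [h3, inv_div]
  field_simp

private lemma tsBase_event (A : k) : ∀ᶠ w in 𝓝[≠] (0 : k), w ≠ 0 ∧ 1 - A * w ^ 2 ≠ 0 := by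
  have h1 : ContinuousAt (fun w : k => 1 - A * w ^ 2) 0 := by fun_prop
  have h2 : ∀ᶠ w in 𝓝 (0 : k), 1 - A * w ^ 2 ≠ 0 := by
    apply h1.eventually_ne
    simp
  filter_upwards [self_mem_nhdsWithin, h2.filter_mono nhdsWithin_le_nhds] with w hw hw'
  exact ⟨hw, hw'⟩

theorem ts_base {k : Type*} [NontriviallyNormedField k] [CharZero k] (A B : k) :
    Filter.Tendsto (fun w : k => (pX A B 1 w⁻¹ / pAl A w⁻¹ ^ 2, A / pAl A w⁻¹ ^ 4,
        B / pAl A w⁻¹ ^ 6, pH A B 0 w⁻¹ / pAl A w⁻¹ ^ 3, pJ A B 0 w⁻¹ / pAl A w⁻¹ ^ 3))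
      (𝓝[≠] 0) (𝓝 (1, 0, 0, 0, 1)) ∧
    Filter.Tendsto (fun w : k => (pAl A w⁻¹)⁻¹) (𝓝[≠] 0) (𝓝 0) ∧
    ∀ᶠ w in 𝓝[≠] (0 : k), pAl A w⁻¹ ≠ 0 := by
  set U : k → k := fun w => -2 * w ^ 2 / (1 - A * w ^ 2) with hU
  set b : k → k := fun w => (B - 1) * w / 2 with hb
  set C : k → k := fun w => 4 * w ^ 3 / (1 - A * w ^ 2) ^ 2 with hC
  have hU0 : U 0 = 0 := by simp [hU]
  have hb0 : b 0 = 0 := by simp [hb]
  have hC0 : C 0 = 0 := by simp [hC]
  have hUc : ContinuousAt U 0 := by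
    apply ContinuousAt.div (by fun_prop) (by fun_prop)
    simp
  have hbc : ContinuousAt b 0 := by
    apply ContinuousAt.div (by fun_prop) (by fun_prop)
    exact two_ne_zero
  have hCc : ContinuousAt C 0 := by
    apply ContinuousAt.div (by fun_prop) (by fun_prop)
    simp
  have hev := tsBase_event A
  refine ⟨?_, ?_, ?_⟩
  · set F : k → k × k × k × k × k := fun w =>
      (1 + b w ^ 2 * U w ^ 2, A * U w ^ 4, B * U w ^ 6,
        -(3 * b w * U w - b w ^ 3 * U w ^ 3 - 2 * A * b w * U w ^ 2 + B * C w),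
        1 + 2 * A * b w ^ 2 * U w ^ 3 - 3 * b w ^ 2 * U w ^ 2 + B * (3 - B) / 2 * U w ^ 3) with hF
    have hFc : ContinuousAt F 0 := by
      apply ContinuousAt.prodMk (by fun_prop)
      apply ContinuousAt.prodMk (by fun_prop)
      apply ContinuousAt.prodMk (by fun_prop)
      apply ContinuousAt.prodMk (by fun_prop)
      fun_prop
    have hF0 : F 0 = (1, 0, 0, 0, 1) := by
      simp [hF, hU0, hb0, hC0]
    have hFt : Filter.Tendsto F (𝓝[≠] 0) (𝓝 (1, 0, 0, 0, 1)) := by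
      rw [← hF0]
      exact hFc.tendsto.mono_left nhdsWithin_le_nhds
    apply hFt.congr'
    filter_upwards [hev] with w hw
    obtain ⟨hw0, hw1⟩ := hw
    obtain ⟨hal, hali⟩ := tsBase_al A hw0 hw1
    have hbe : pBe B 1 w⁻¹ = b w := by
      simp only [pBe, hb]
      field_simp
    have hUw : (pAl A w⁻¹)⁻¹ = U w := hali
    have hCw : w⁻¹ * U w ^ 2 = C w := by
      simp only [hU, hC]
      field_simp
      ring
    set al := pAl A w⁻¹ with haldef
    have hid : al * U w = 1 := by rw [← hUw]; exact mul_inv_cancel₀ hal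
    have e1 : pX A B 1 w⁻¹ / al ^ 2 = 1 + b w ^ 2 * U w ^ 2 := by
      unfold pX
      rw [← haldef, hbe, div_one, div_eq_mul_inv, ← inv_pow, hUw]
      linear_combination (al * U w + 1) * hid
    have e2 : A / al ^ 4 = A * U w ^ 4 := by
      rw [div_eq_mul_inv, ← inv_pow, hUw]
    have e3 : B / al ^ 6 = B * U w ^ 6 := by
      rw [div_eq_mul_inv, ← inv_pow, hUw]
    have e4 : pH A B 0 w⁻¹ / al ^ 3 =
        -(3 * b w * U w - b w ^ 3 * U w ^ 3 - 2 * A * b w * U w ^ 2 + B * C w) := by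
      have h0 : pH A B 0 w⁻¹ = -(3 * al ^ 2 * b w - b w ^ 3 - 2 * A * al * b w +
          B * w⁻¹ * al) := by
        unfold pH pS
        simp only [zero_pow (two_ne_zero), add_zero, one_pow, mul_zero, zero_sub, div_one]
        rw [← haldef, hbe]
      rw [h0, div_eq_mul_inv, ← inv_pow, hUw, ← hCw]
      linear_combination (-(3 * b w * U w) * (al * U w + 1) + 2 * A * b w * U w ^ 2 -
        B * w⁻¹ * U w ^ 2) * hid
    have e5 : pJ A B 0 w⁻¹ / al ^ 3 =
        1 + 2 * A * b w ^ 2 * U w ^ 3 - 3 * b w ^ 2 * U w ^ 2 + B * (3 - B) / 2 * U w ^ 3 := by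
      have h0 : pJ A B 0 w⁻¹ = al ^ 3 + b w ^ 2 * (2 * A - 3 * al) + B * (3 - B) / 2 := by
        unfold pJ pR
        simp only [zero_pow (two_ne_zero), add_zero, one_pow, mul_zero, div_one, mul_one]
        rw [← haldef, hbe]
      rw [h0, div_eq_mul_inv, ← inv_pow, hUw]
      linear_combination ((al * U w) ^ 2 + al * U w + 1 - 3 * b w ^ 2 * U w ^ 2) * hid
    simp only [hF]
    rw [e1, e2, e3, e4, e5]
  · have hUt : Filter.Tendsto U (𝓝[≠] 0) (𝓝 0) := by
      have := hUc.tendsto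
      rw [hU0] at this
      exact this.mono_left nhdsWithin_le_nhds
    apply hUt.congr'
    filter_upwards [hev] with w hw
    exact (tsBase_al A hw.1 hw.2).2.symm
  · filter_upwards [hev] with w hw
    exact (tsBase_al A hw.1 hw.2).1

end TSBase

end Pool.Agent.Lib.MP_1a91b9_nt
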