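import Pool.Agent.Lib.MP_1a91b9_nt.TSDefs

/-!
# TSColl: the three sums lie on a line
-/

set_option autoImplicit false

namespace Pool.Agent.Lib.MP_1a91b9_nt

open IsDedekindDomain NumberField Polynomial IntermediateField
open scoped Topology

universe u

private theorem tscoll_key {M : Type*} [CommRing M] (a b E1 E2 H D : M) :
    let q := (1 - D) * (a * (1 - D) + b) ^ 2 -
      4 * H * ((-(a + b) - E1 - E2) + E1 * (1 - D) + E2 * (1 - D) ^ 2 - H)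
    let c3 := -(3 * a + b + 2 * E1 + 4 * E2)
    let g := E1 + 3 * a + 6 * E2
    let S := a + b + 2 * H
    let Nl := 2 * S - (3 * a + b) * D + a * D ^ 2
    let NX := Nl ^ 2 - 4 * H * g * D ^ 2 - 8 * c3 * H * D
    a * (Nl * NX) - 4 * a * c3 * H * D ^ 2 * (S - a * D) - (a * b - 4 * H * E2) * D * NX -
      ((-16 * E1 * E2 * H ^ 2 + 4 * E2 * H * b ^ 2 - 32 * E2 ^ 2 * H ^ 2) +
        a * (-4 * E1 * H * a - 4 * E2 * H * a + 8 * E2 * H * b - 16 * E2 * H ^ 2 -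
        4 * H * a ^ 2 + 4 * H ^ 2 * a)) * D ^ 3 =
    (8 * a * S + (16 * E2 * H - a * (12 * a + 8 * b)) * D + a * (6 * a + 2 * b) * D ^ 2 -
      a ^ 2 * D ^ 3) * q := by
  intro q c3 g S Nl NX
  simp only [q, c3, g, S, Nl, NX]
  ring

theorem ts_collinear {M : Type*} [Field M] [CharZero M] (A B x c h : M) (ha : tsa A B x c ≠ 0)
    (hc : c ≠ 0) (hh : h ≠ 0) :
    ∃ α β : M, ∀ θ : M, 1 - θ ≠ 0 → tsq A B x c h θ = 0 →
      tsYR A B x c h θ = α * tsXR A B x c h θ + β := by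
  have hg := ts_rel_g A B x c
  have hf := ts_rel_f A B x c
  have hc3 := ts_rel_c A B x c
  generalize hae : tsa A B x c = a at *
  generalize hbe : tsb A B x c = b at *
  generalize hE1 : tsE1 A B x c = E1 at *
  generalize hE2 : tsE2 A B x c = E2 at *
  set A' : M := b - 4 * h ^ 2 * E2 / a with hA'
  set B' : M := (-16 * E1 * E2 * (h ^ 2) ^ 2 + 4 * E2 * h ^ 2 * b ^ 2 -
    32 * E2 ^ 2 * (h ^ 2) ^ 2) / a + (-4 * E1 * h ^ 2 * a - 4 * E2 * h ^ 2 * a +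
    8 * E2 * h ^ 2 * b - 16 * E2 * (h ^ 2) ^ 2 - 4 * h ^ 2 * a ^ 2 + 4 * (h ^ 2) ^ 2 * a) with hB'
  refine ⟨A' / (2 * c * h), B' / (8 * c ^ 3 * h ^ 3) - A' / (2 * c * h) * (x - c),
    fun θ hθ hq => ?_⟩
  have key := tscoll_key a b E1 E2 (h ^ 2) (1 - θ)
  simp only at key
  set D : M := 1 - θ with hD
  have hθD : θ = 1 - D := by rw [hD]; ring
  have hqq : (1 - D) * (a * (1 - D) + b) ^ 2 -
      4 * h ^ 2 * ((-(a + b) - E1 - E2) + E1 * (1 - D) + E2 * (1 - D) ^ 2 - h ^ 2) = 0 := by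
    have := hq
    rw [tsq, hae, hbe, hE1, hE2, hf, hθD] at this
    linear_combination this
  rw [hqq, mul_zero] at key
  set S : M := a + b + 2 * h ^ 2 with hS
  set Nl : M := 2 * S - (3 * a + b) * D + a * D ^ 2 with hNl
  have hL : tsL A B x c h θ = Nl / (2 * c * h * D) := by
    rw [tsL, hae, hbe, ← hD, hNl, hS, hθD]
    congr 1
    ring
  have hXH : tsXR A B x c h θ - (x - c) =
      (Nl ^ 2 - 4 * h ^ 2 * (E1 + 3 * a + 6 * E2) * D ^ 2 -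
        8 * (-(3 * a + b + 2 * E1 + 4 * E2)) * h ^ 2 * D) / (4 * c ^ 2 * h ^ 2 * D ^ 2) := by
    rw [tsXR, hL, ← hD, ← hg, ← hc3]
    clear_value Nl
    rw [hθD]
    field_simp
    ring
  have h2 : (2 : M) ≠ 0 := two_ne_zero
  set NX : M := Nl ^ 2 - 4 * h ^ 2 * (E1 + 3 * a + 6 * E2) * D ^ 2 -
        8 * (-(3 * a + b + 2 * E1 + 4 * E2)) * h ^ 2 * D with hNX
  have hYR : tsYR A B x c h θ = (Nl * NX - 4 * (-(3 * a + b + 2 * E1 + 4 * E2)) * h ^ 2 * D ^ 2 *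
      (S - a * D)) / (8 * c ^ 3 * h ^ 3 * D ^ 3) := by
    rw [tsYR, hae, hbe, ← hD, hL]
    have e1 : tsXR A B x c h θ - x + c = NX / (4 * c ^ 2 * h ^ 2 * D ^ 2) := by
      rw [← hXH]; ring
    rw [e1, ← hc3]
    have e2 : 2 * h ^ 2 + a * θ + b = S - a * D := by rw [hS, hθD]; ring
    rw [e2]
    clear_value Nl NX S
    field_simp
    ring
  have e3 : A' / (2 * c * h) * tsXR A B x c h θ + (B' / (8 * c ^ 3 * h ^ 3) -
      A' / (2 * c * h) * (x - c)) = A' / (2 * c * h) * (NX / (4 * c ^ 2 * h ^ 2 * D ^ 2)) +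
      B' / (8 * c ^ 3 * h ^ 3) := by
    rw [← hXH]; ring
  rw [e3, hYR]
  have e4 : Nl * NX - 4 * (-(3 * a + b + 2 * E1 + 4 * E2)) * h ^ 2 * D ^ 2 * (S - a * D) =
      A' * D * NX + B' * D ^ 3 := by
    have hA'' : a * A' = a * b - 4 * h ^ 2 * E2 := by
      rw [hA']; field_simp
    have hB'' : a * B' = (-16 * E1 * E2 * (h ^ 2) ^ 2 + 4 * E2 * h ^ 2 * b ^ 2 -
      32 * E2 ^ 2 * (h ^ 2) ^ 2) + a * (-4 * E1 * h ^ 2 * a - 4 * E2 * h ^ 2 * a +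
      8 * E2 * h ^ 2 * b - 16 * E2 * (h ^ 2) ^ 2 - 4 * h ^ 2 * a ^ 2 + 4 * (h ^ 2) ^ 2 * a) := by
      rw [hB', mul_add, mul_div_cancel₀ _ ha]
    apply mul_left_cancel₀ ha
    clear_value A' B'
    linear_combination key - D * NX * hA'' - D ^ 3 * hB''
  rw [e4]
  clear_value A' B' NX
  field_simp
  ring

end Pool.Agent.Lib.MP_1a91b9_nt
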