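import Pool.Agent.Lib.MP_1a91b9_nt.TSDefs

set_option autoImplicit false

namespace Pool.Agent.Lib.MP_1a91b9_nt

open IsDedekindDomain NumberField Polynomial IntermediateField
open scoped Topology

/-! ## TSCond -/

section TSCondAux

variable {F Γ : Type*} [Field F] [LinearOrderedCommGroupWithZero Γ] (V : Valuation F Γ)

private theorem TSCond_E1 (A B x c : F) (hA : V A ≤ 1) (hB : V B ≤ 1) (hx : V x ≤ 1)
    (hc : V c ≤ 1) : V (tsE1 A B x c) ≤ 1 := by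
  obtain ⟨A', rfl⟩ : ∃ A' : V.integer, (A' : F) = A := ⟨⟨A, hA⟩, rfl⟩
  obtain ⟨B', rfl⟩ : ∃ B' : V.integer, (B' : F) = B := ⟨⟨B, hB⟩, rfl⟩
  obtain ⟨x', rfl⟩ : ∃ x' : V.integer, (x' : F) = x := ⟨⟨x, hx⟩, rfl⟩
  obtain ⟨c', rfl⟩ : ∃ c' : V.integer, (c' : F) = c := ⟨⟨c, hc⟩, rfl⟩
  have n3 : ((3 : V.integer) : F) = 3 := map_ofNat V.integer.subtype 3
  have n6 : ((6 : V.integer) : F) = 6 := map_ofNat V.integer.subtype 6
  have e : tsE1 (A' : F) (B' : F) (x' : F) (c' : F) =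
      ((6 * (x' ^ 3 + A' * x' + B') - 3 * (3 * x' ^ 2 + A') * c' + 3 * x' * c' ^ 2 :
        V.integer) : F) := by
    unfold tsE1
    push_cast
    rw [n3, n6]
  rw [e]
  exact (6 * (x' ^ 3 + A' * x' + B') - 3 * (3 * x' ^ 2 + A') * c' + 3 * x' * c' ^ 2 :
    V.integer).2

private theorem TSCond_E2 (A B x c : F) (hA : V A ≤ 1) (hB : V B ≤ 1) (hx : V x ≤ 1)
    (hc : V c ≤ 1) : V (tsE2 A B x c) ≤ 1 := by
  obtain ⟨A', rfl⟩ : ∃ A' : V.integer, (A' : F) = A := ⟨⟨A, hA⟩, rfl⟩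
  obtain ⟨B', rfl⟩ : ∃ B' : V.integer, (B' : F) = B := ⟨⟨B, hB⟩, rfl⟩
  obtain ⟨x', rfl⟩ : ∃ x' : V.integer, (x' : F) = x := ⟨⟨x, hx⟩, rfl⟩
  obtain ⟨c', rfl⟩ : ∃ c' : V.integer, (c' : F) = c := ⟨⟨c, hc⟩, rfl⟩
  have n3 : ((3 : V.integer) : F) = 3 := map_ofNat V.integer.subtype 3
  have e : tsE2 (A' : F) (B' : F) (x' : F) (c' : F) =
      (((x' ^ 3 + A' * x' + B') - (3 * x' ^ 2 + A') * c' + 3 * x' * c' ^ 2 - c' ^ 3 :
        V.integer) : F) := by
    unfold tsE2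
    push_cast
    rw [n3]
  rw [e]
  exact ((x' ^ 3 + A' * x' + B') - (3 * x' ^ 2 + A') * c' + 3 * x' * c' ^ 2 - c' ^ 3 :
    V.integer).2

private theorem TSCond_cof (A B x c : F) (hA : V A ≤ 1) (hB : V B ≤ 1) (hx : V x ≤ 1)
    (hc : V c ≤ 1) : V (tsb A B x c ^ 2 + 12 * (x ^ 3 + A * x + B) * tsb A B x c +
      48 * (x ^ 3 + A * x + B) ^ 2 -
      6 * x * (3 * x ^ 2 + A) * (tsb A B x c + 8 * (x ^ 3 + A * x + B)) +
      3 * (3 * x ^ 2 + A) ^ 3) ≤ 1 := by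
  obtain ⟨A', rfl⟩ : ∃ A' : V.integer, (A' : F) = A := ⟨⟨A, hA⟩, rfl⟩
  obtain ⟨B', rfl⟩ : ∃ B' : V.integer, (B' : F) = B := ⟨⟨B, hB⟩, rfl⟩
  obtain ⟨x', rfl⟩ : ∃ x' : V.integer, (x' : F) = x := ⟨⟨x, hx⟩, rfl⟩
  obtain ⟨c', rfl⟩ : ∃ c' : V.integer, (c' : F) = c := ⟨⟨c, hc⟩, rfl⟩
  have n3 : ((3 : V.integer) : F) = 3 := map_ofNat V.integer.subtype 3
  have n4 : ((4 : V.integer) : F) = 4 := map_ofNat V.integer.subtype 4
  have n6 : ((6 : V.integer) : F) = 6 := map_ofNat V.integer.subtype 6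
  have n8 : ((8 : V.integer) : F) = 8 := map_ofNat V.integer.subtype 8
  have n12 : ((12 : V.integer) : F) = 12 := map_ofNat V.integer.subtype 12
  have n48 : ((48 : V.integer) : F) = 48 := map_ofNat V.integer.subtype 48
  obtain ⟨f, hf⟩ : ∃ f : V.integer, f = x' ^ 3 + A' * x' + B' := ⟨_, rfl⟩
  obtain ⟨g, hg⟩ : ∃ g : V.integer, g = 3 * x' ^ 2 + A' := ⟨_, rfl⟩
  obtain ⟨b, hb⟩ : ∃ b : V.integer, b = g * c' - 4 * f := ⟨_, rfl⟩
  have ef : (x' : F) ^ 3 + A' * x' + B' = f := by rw [hf]; push_cast; rfl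
  have eg : 3 * (x' : F) ^ 2 + A' = g := by rw [hg]; push_cast; rw [n3]
  have eb : tsb (A' : F) (B' : F) (x' : F) (c' : F) = b := by
    unfold tsb
    rw [ef, eg, hb]
    push_cast
    rw [n4]
  rw [ef, eg, eb]
  have e : (b : F) ^ 2 + 12 * f * b + 48 * (f : F) ^ 2 - 6 * x' * g * (b + 8 * f) + 3 * (g : F) ^ 3 =
      ((b ^ 2 + 12 * f * b + 48 * f ^ 2 - 6 * x' * g * (b + 8 * f) + 3 * g ^ 3 : V.integer) : F) := by
    push_cast
    rw [n3, n6, n8, n12, n48]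
  rw [e]
  exact (b ^ 2 + 12 * f * b + 48 * f ^ 2 - 6 * x' * g * (b + 8 * f) + 3 * g ^ 3 : V.integer).2

private theorem TSCond_two (v2 : V 2 = 1) : V 4 = 1 ∧ V 8 = 1 := by
  constructor
  · have : (4 : F) = 2 ^ 2 := by norm_num
    rw [this, map_pow, v2, one_pow]
  · have : (8 : F) = 2 ^ 3 := by norm_num
    rw [this, map_pow, v2, one_pow]

private theorem TSCond_one_of_mul {a b : F} (ha : V a ≤ 1) (hb : V b ≤ 1) (hab : V (a * b) = 1) :
    V a = 1 := by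
  refine le_antisymm ha ?_
  rw [← hab, map_mul]
  exact mul_le_of_le_one_right' hb

private theorem TSCond_num (n : ℕ) : V (n : F) ≤ 1 := by
  induction n with
  | zero => rw [Nat.cast_zero, map_zero]; exact zero_le
  | succ n ih =>
    rw [Nat.cast_succ]
    exact V.map_add_le ih V.map_one.le

end TSCondAux

theorem ts_cond1 {F Γ : Type*} [Field F] [LinearOrderedCommGroupWithZero Γ] (V : Valuation F Γ)
    (v2 : V 2 = 1) (A B x h j m c : F) (hA : V A ≤ 1) (hB : V B ≤ 1) (hx : V x ≤ 1) (hh : V h ≤ 1)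
    (hj : V j ≤ 1) (hE : x ^ 3 + A * x + B = h ^ 2 + j ^ 2) (hf0 : V (x ^ 3 + A * x + B) = 1)
    (hf1 : V (3 * x ^ 2 + A) = 1) (hst : V (tsStar A B x) = 1) (hm : V m ≤ 1)
    (hN : V (h * (1 - m ^ 2) - 2 * j * m) < 1)
    (hc : V ((3 * x ^ 2 + A) * c - 4 * (x ^ 3 + A * x + B)) < 1) :
    V (1 + m ^ 2) = 1 ∧ V (rotH h j m) = V (h * (1 - m ^ 2) - 2 * j * m) ∧ V (rotJ h j m) = 1 ∧
      V c = 1 ∧ V (tsa A B x c) = 1 ∧ V (tsb A B x c) < 1 ∧ V (tsE1 A B x c) ≤ 1 ∧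
      V (tsE2 A B x c) ≤ 1 := by
  obtain ⟨v4, v8⟩ := TSCond_two V v2
  have hm2 : V (m ^ 2) ≤ 1 := by rw [map_pow]; exact pow_le_one' hm 2
  have h1m : V (1 + m ^ 2) ≤ 1 := V.map_add_le V.map_one.le hm2
  have c1 : V (1 + m ^ 2) = 1 := by
    refine le_antisymm h1m ?_
    by_contra hcon
    rw [not_le] at hcon
    have h1 : V (h - j * m) < 1 := by
      have e : 2 * (h - j * m) = (h * (1 - m ^ 2) - 2 * j * m) + h * (1 + m ^ 2) := by ring
      have e2 : V (2 * (h - j * m)) < 1 := by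
        rw [e]
        refine V.map_add_lt hN ?_
        rw [map_mul]
        exact (mul_le_of_le_one_left' hh).trans_lt hcon
      rwa [map_mul, v2, one_mul] at e2
    have h2 : V (h ^ 2 + j ^ 2) < 1 := by
      have e : h ^ 2 + j ^ 2 = (h - j * m) * (h + j * m) + j ^ 2 * (1 + m ^ 2) := by ring
      rw [e]
      refine V.map_add_lt ?_ ?_
      · rw [map_mul]
        refine (mul_le_of_le_one_right' (V.map_add_le hh ?_)).trans_lt h1
        rw [map_mul]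
        exact mul_le_one' hj hm
      · rw [map_mul, map_pow]
        exact (mul_le_of_le_one_left' (pow_le_one' hj 2)).trans_lt hcon
    rw [← hE, hf0] at h2
    exact lt_irrefl _ h2
  have hm0 : 1 + m ^ 2 ≠ 0 := by
    intro h0
    rw [h0, map_zero] at c1
    exact zero_ne_one c1
  have c2 : V (rotH h j m) = V (h * (1 - m ^ 2) - 2 * j * m) := by
    unfold rotH
    rw [map_div₀, c1, div_one]
  have c3 : V (rotJ h j m) = 1 := by
    have h1 := rot_sq h j m hm0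
    have h2 : V (rotJ h j m ^ 2) = 1 := by
      have e : rotJ h j m ^ 2 = (h ^ 2 + j ^ 2) - rotH h j m ^ 2 := by rw [← h1]; ring
      rw [e, ← hE, V.map_sub_eq_of_lt_left, hf0]
      rw [hf0, map_pow, c2]
      exact pow_lt_one' hN (by norm_num)
    rw [map_pow] at h2
    exact (pow_eq_one_iff.1 h2).resolve_right two_ne_zero
  have c4 : V c = 1 := by
    have e : (3 * x ^ 2 + A) * c =
        ((3 * x ^ 2 + A) * c - 4 * (x ^ 3 + A * x + B)) + 4 * (x ^ 3 + A * x + B) := by ring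
    have h1 : V ((3 * x ^ 2 + A) * c) = 1 := by
      have h4 : V (4 * (x ^ 3 + A * x + B)) = 1 := by rw [map_mul, v4, hf0, one_mul]
      rw [e, V.map_add_eq_of_lt_right (by rw [h4]; exact hc), h4]
    rwa [map_mul, hf1, one_mul] at h1
  have c6 : V (tsb A B x c) < 1 := hc
  have c5 : V (tsa A B x c) = 1 := by
    have hcof := TSCond_cof V A B x c hA hB hx c4.le
    have e : (3 * x ^ 2 + A) ^ 3 * tsa A B x c = 8 * (x ^ 3 + A * x + B) * tsStar A B x +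
        tsb A B x c * (tsb A B x c ^ 2 + 12 * (x ^ 3 + A * x + B) * tsb A B x c +
      48 * (x ^ 3 + A * x + B) ^ 2 -
      6 * x * (3 * x ^ 2 + A) * (tsb A B x c + 8 * (x ^ 3 + A * x + B)) +
      3 * (3 * x ^ 2 + A) ^ 3) := by
      unfold tsa tsStar tsb
      ring
    have h1 : V (8 * (x ^ 3 + A * x + B) * tsStar A B x) = 1 := by
      rw [map_mul, map_mul, v8, hf0, hst, one_mul, one_mul]
    have h2 : V ((3 * x ^ 2 + A) ^ 3 * tsa A B x c) = 1 := by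
      rw [e, V.map_add_eq_of_lt_left, h1]
      rw [h1, map_mul]
      exact (mul_le_of_le_one_right' hcof).trans_lt c6
    rwa [map_mul, map_pow, hf1, one_pow, one_mul] at h2
  exact ⟨c1, c2, c3, c4, c5, c6, TSCond_E1 V A B x c hA hB hx c4.le,
    TSCond_E2 V A B x c hA hB hx c4.le⟩

theorem ts_cond2 {F Γ : Type*} [Field F] [LinearOrderedCommGroupWithZero Γ] (V : Valuation F Γ)
    (v2 : V 2 = 1) (A B x h j m c : F) (hA : V A ≤ 1) (hB : V B ≤ 1) (hx : V x ≤ 1) (hh : V h ≤ 1)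
    (hj : V j ≤ 1) (hE : x ^ 3 + A * x + B = h ^ 2 + j ^ 2) (hf0 : V (x ^ 3 + A * x + B) = 1)
    (hm : V m ≤ 1) (hm0 : 1 + m ^ 2 ≠ 0) (hN : V (1 + m ^ 2) < 1) (hc : V c < 1) :
    V (rotH h j m) = (V (1 + m ^ 2))⁻¹ ∧ V (rotJ h j m) = (V (1 + m ^ 2))⁻¹ ∧
      V (tsa A B x c) = 1 ∧ V (tsb A B x c) ≤ 1 ∧ V (tsE1 A B x c) ≤ 1 ∧
      V (tsE2 A B x c) = 1 := by
  obtain ⟨v4, v8⟩ := TSCond_two V v2
  have hgen : ∀ a b : F, V a ≤ 1 → V b ≤ 1 → x ^ 3 + A * x + B = a ^ 2 + b ^ 2 →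
      V (a + b * m) = 1 ∧ V (a - b * m) = 1 := by
    intro a b ha hb hab
    have hbm : V (b * m) ≤ 1 := by rw [map_mul]; exact mul_le_one' hb hm
    have h1 : V (a + b * m) ≤ 1 := V.map_add_le ha hbm
    have h2 : V (a - b * m) ≤ 1 := V.map_sub_le ha hbm
    have h3 : V ((a + b * m) * (a - b * m)) = 1 := by
      have e : (a + b * m) * (a - b * m) = (x ^ 3 + A * x + B) - b ^ 2 * (1 + m ^ 2) := by
        rw [hab]; ring
      rw [e, V.map_sub_eq_of_lt_left, hf0]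
      rw [hf0, map_mul, map_pow]
      exact (mul_le_of_le_one_left' (pow_le_one' hb 2)).trans_lt hN
    refine ⟨TSCond_one_of_mul V h1 h2 h3, ?_⟩
    rw [mul_comm] at h3
    exact TSCond_one_of_mul V h2 h1 h3
  have hf1 : V (3 * x ^ 2 + A) ≤ 1 := by
    have h3 : V (3 : F) ≤ 1 := by
      have := TSCond_num V 3
      exact_mod_cast this
    refine V.map_add_le ?_ hA
    rw [map_mul, map_pow]
    exact mul_le_one' h3 (pow_le_one' hx 2)
  have c1 : V (rotH h j m) = (V (1 + m ^ 2))⁻¹ := by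
    unfold rotH
    have e : h * (1 - m ^ 2) - 2 * j * m = 2 * (h - j * m) - h * (1 + m ^ 2) := by ring
    have h1 : V (2 * (h - j * m)) = 1 := by rw [map_mul, v2, (hgen h j hh hj hE).2, one_mul]
    rw [map_div₀, e, V.map_sub_eq_of_lt_left, h1, one_div]
    rw [h1, map_mul]
    exact (mul_le_of_le_one_left' hh).trans_lt hN
  have c2 : V (rotJ h j m) = (V (1 + m ^ 2))⁻¹ := by
    unfold rotJ
    have e : j * (1 - m ^ 2) + 2 * h * m = 2 * (j + h * m) - j * (1 + m ^ 2) := by ring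
    have h1 : V (2 * (j + h * m)) = 1 := by
      rw [map_mul, v2, (hgen j h hj hh (by rw [hE, add_comm])).1, one_mul]
    rw [map_div₀, e, V.map_sub_eq_of_lt_left, h1, one_div]
    rw [h1, map_mul]
    exact (mul_le_of_le_one_left' hj).trans_lt hN
  have hint : ∀ n : ℕ, V (n : F) ≤ 1 := TSCond_num V
  have hcx : V (c ^ 2 - 6 * x * c + 3 * (3 * x ^ 2 + A)) ≤ 1 := by
    have h6 : V (6 : F) ≤ 1 := by have := hint 6; exact_mod_cast this
    have h3 : V (3 : F) ≤ 1 := by have := hint 3; exact_mod_cast this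
    refine V.map_add_le (V.map_sub_le ?_ ?_) ?_
    · rw [map_pow]; exact pow_le_one' hc.le 2
    · rw [map_mul, map_mul]; exact mul_le_one' (mul_le_one' h6 hx) hc.le
    · rw [map_mul]; exact mul_le_one' h3 hf1
  have hcy : V ((3 * x ^ 2 + A) - 3 * x * c + c ^ 2) ≤ 1 := by
    have h3 : V (3 : F) ≤ 1 := by have := hint 3; exact_mod_cast this
    refine V.map_add_le (V.map_sub_le hf1 ?_) ?_
    · rw [map_mul, map_mul]; exact mul_le_one' (mul_le_one' h3 hx) hc.le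
    · rw [map_pow]; exact pow_le_one' hc.le 2
  have c3 : V (tsa A B x c) = 1 := by
    have e : tsa A B x c = c * (c ^ 2 - 6 * x * c + 3 * (3 * x ^ 2 + A)) -
        4 * (x ^ 3 + A * x + B) := by
      unfold tsa; ring
    have h1 : V (4 * (x ^ 3 + A * x + B)) = 1 := by rw [map_mul, v4, hf0, one_mul]
    rw [e, V.map_sub_eq_of_lt_right, h1]
    rw [h1, map_mul]
    exact (mul_le_of_le_one_right' hcx).trans_lt hc
  have c4 : V (tsb A B x c) ≤ 1 := by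
    unfold tsb
    refine V.map_sub_le ?_ ?_
    · rw [map_mul]; exact mul_le_one' hf1 hc.le
    · rw [map_mul, v4, hf0, one_mul]
  have c6 : V (tsE2 A B x c) = 1 := by
    have e : tsE2 A B x c = (x ^ 3 + A * x + B) -
        c * ((3 * x ^ 2 + A) - 3 * x * c + c ^ 2) := by
      unfold tsE2; ring
    rw [e, V.map_sub_eq_of_lt_left, hf0]
    rw [hf0, map_mul]
    exact (mul_le_of_le_one_right' hcy).trans_lt hc
  exact ⟨c1, c2, c3, c4, TSCond_E1 V A B x c hA hB hx hc.le, c6⟩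

end Pool.Agent.Lib.MP_1a91b9_nt
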