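import Pool.Agent.Lib.MP_1a91b9_nt.S4Defs
import Pool.Agent.Lib.MP_1a91b9_nt.S4Params

/-!
# Totally split quartic extensions: definitions

`y ^ 2 = x ^ 3 + A * x + B` is an elliptic curve, `x, c, h` are parameters. The six points attached
to the roots `t` of `tsq A B x c h (t ^ 2)` have the coordinates `tsX x c t`, `tsY A B x c h t`.
-/

set_option autoImplicit false

namespace Pool.Agent.Lib.MP_1a91b9_nt

open Polynomial

noncomputable section

variable {K : Type*} [Field K]

def tsa (A B x c : K) : K := c ^ 3 - 6 * x * c ^ 2 + 3 * (3 * x ^ 2 + A) * c - 4 * (x ^ 3 + A * x + B)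

def tsb (A B x c : K) : K := (3 * x ^ 2 + A) * c - 4 * (x ^ 3 + A * x + B)

def tsE1 (A B x c : K) : K := 6 * (x ^ 3 + A * x + B) - 3 * (3 * x ^ 2 + A) * c + 3 * x * c ^ 2

def tsE2 (A B x c : K) : K := (x ^ 3 + A * x + B) - (3 * x ^ 2 + A) * c + 3 * x * c ^ 2 - c ^ 3

/-- The cubic whose roots are the squares of the six parameters `t`. -/
def tsq (A B x c h θ : K) : K :=
  θ * (tsa A B x c * θ + tsb A B x c) ^ 2 -
    4 * h ^ 2 * ((x ^ 3 + A * x + B) + tsE1 A B x c * θ + tsE2 A B x c * θ ^ 2 - h ^ 2)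

/-- First symmetric function of the roots of `tsq`. -/
def tse1 (A B x c h : K) : K :=
  (4 * h ^ 2 * tsE2 A B x c - 2 * tsa A B x c * tsb A B x c) / tsa A B x c ^ 2

/-- Second symmetric function of the roots of `tsq`. -/
def tse2 (A B x c h : K) : K :=
  (tsb A B x c ^ 2 - 4 * h ^ 2 * tsE1 A B x c) / tsa A B x c ^ 2

/-- The coefficients of the quartic. -/
def tsP (A B x c h : K) : K := -2 * tse1 A B x c h

def tsQ (A B x c h j : K) : K := -16 * h * j / tsa A B x c

def tsR (A B x c h : K) : K := tse1 A B x c h ^ 2 - 4 * tse2 A B x c h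

/-- The quartic polynomial of the parameters. -/
def tsQuart (A B x c h j : K) : K[X] := quart (tsP A B x c h) (tsQ A B x c h j) (tsR A B x c h)

/-- The cubic resolvent of the quartic. -/
def tsResol (A B x c h j : K) : K[X] := resol (tsP A B x c h) (tsQ A B x c h j) (tsR A B x c h)

/-- The point attached to the parameter `t`. -/
def tsX (x c t : K) : K := x + c * t / (1 - t)

def tsY (A B x c h t : K) : K :=
  (h + t * (tsa A B x c * t ^ 2 + tsb A B x c) / (2 * h)) / (1 - t) ^ 2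

/-- The slope of the line through the points of `t` and `-t`. -/
def tsL (A B x c h θ : K) : K :=
  (4 * h ^ 2 + (tsa A B x c * θ + tsb A B x c) * (1 + θ)) / (2 * c * h * (1 - θ))

/-- The abscissa of the sum of the points of `t` and `-t`, `θ = t ^ 2`. -/
def tsXR (A B x c h θ : K) : K := tsL A B x c h θ ^ 2 - 2 * x - 2 * c * θ / (1 - θ)

/-- The ordinate of the third point of the line through the points of `t` and `-t`. -/
def tsYR (A B x c h θ : K) : K :=
  tsL A B x c h θ * (tsXR A B x c h θ - x + c) -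
    (2 * h ^ 2 + tsa A B x c * θ + tsb A B x c) / (2 * h * (1 - θ))

/-- The abscissa of the difference of the points of `t` and `-t`. -/
def tsXU (A B x c h t : K) : K :=
  ((h ^ 2 * (1 + t ^ 2) + t ^ 2 * (tsa A B x c * t ^ 2 + tsb A B x c)) /
    (h * c * t * (1 - t ^ 2))) ^ 2 - 2 * x - 2 * c * t ^ 2 / (1 - t ^ 2)

/-- The rotation by the rational parameter `m`. -/
def rotH (h j m : K) : K := (h * (1 - m ^ 2) - 2 * j * m) / (1 + m ^ 2)

def rotJ (h j m : K) : K := (j * (1 - m ^ 2) + 2 * h * m) / (1 + m ^ 2)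

/-- The value of `tsa` (up to a factor) at the root of `tsb`. -/
def tsStar (A B x : K) : K :=
  (3 * x ^ 2 + A) ^ 3 - 12 * x * (x ^ 3 + A * x + B) * (3 * x ^ 2 + A) + 8 * (x ^ 3 + A * x + B) ^ 2

theorem rot_sq (h j m : K) (hm : 1 + m ^ 2 ≠ 0) : rotH h j m ^ 2 + rotJ h j m ^ 2 = h ^ 2 + j ^ 2 := by
  unfold rotH rotJ
  field_simp
  ring

theorem tsq_one (A B x c h : K) :
    tsq A B x c h 1 = (tsa A B x c + tsb A B x c + 2 * h ^ 2) ^ 2 := by
  unfold tsq tsa tsb tsE1 tsE2
  ring

theorem tsq_zero (A B x c h : K) : tsq A B x c h 0 = -4 * h ^ 2 * (x ^ 3 + A * x + B - h ^ 2) := by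
  unfold tsq
  ring

theorem ts_rel_c (A B x c : K) :
    c ^ 3 = -(3 * tsa A B x c + tsb A B x c + 2 * tsE1 A B x c + 4 * tsE2 A B x c) := by
  unfold tsa tsb tsE1 tsE2
  ring

theorem ts_rel_g (A B x c : K) :
    3 * (x - c) * c ^ 2 = tsE1 A B x c + 3 * tsa A B x c + 6 * tsE2 A B x c := by
  unfold tsa tsE1 tsE2
  ring

theorem ts_rel_f (A B x c : K) :
    x ^ 3 + A * x + B = -(tsa A B x c + tsb A B x c) - tsE1 A B x c - tsE2 A B x c := by
  unfold tsa tsb tsE1 tsE2
  ring

/-- Weighted homogeneity. -/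
theorem tsa_scale (A B x c s : K) :
    tsa (s ^ 4 * A) (s ^ 6 * B) (s ^ 2 * x) (s ^ 2 * c) = s ^ 6 * tsa A B x c := by
  unfold tsa
  ring

theorem tsq_scale (A B x c h s θ : K) :
    tsq (s ^ 4 * A) (s ^ 6 * B) (s ^ 2 * x) (s ^ 2 * c) (s ^ 3 * h) θ =
      s ^ 12 * tsq A B x c h θ := by
  unfold tsq tsa tsb tsE1 tsE2
  ring

end

section maps

variable {K L : Type*} [Field K] [Field L] (φ : K →+* L)

theorem map_tsa (A B x c : K) : φ (tsa A B x c) = tsa (φ A) (φ B) (φ x) (φ c) := by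
  simp only [tsa, map_add, map_sub, map_mul, map_pow, map_ofNat]

theorem map_tsb (A B x c : K) : φ (tsb A B x c) = tsb (φ A) (φ B) (φ x) (φ c) := by
  simp only [tsb, map_add, map_sub, map_mul, map_pow, map_ofNat]

theorem map_tsE1 (A B x c : K) : φ (tsE1 A B x c) = tsE1 (φ A) (φ B) (φ x) (φ c) := by
  simp only [tsE1, map_add, map_sub, map_mul, map_pow, map_ofNat]

theorem map_tsE2 (A B x c : K) : φ (tsE2 A B x c) = tsE2 (φ A) (φ B) (φ x) (φ c) := by
  simp only [tsE2, map_add, map_sub, map_mul, map_pow, map_ofNat]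

theorem map_tsq (A B x c h θ : K) :
    φ (tsq A B x c h θ) = tsq (φ A) (φ B) (φ x) (φ c) (φ h) (φ θ) := by
  simp only [tsq, map_add, map_sub, map_mul, map_pow, map_ofNat, map_tsa, map_tsb, map_tsE1,
    map_tsE2]

theorem map_tse1 (A B x c h : K) : φ (tse1 A B x c h) = tse1 (φ A) (φ B) (φ x) (φ c) (φ h) := by
  simp only [tse1, map_div₀, map_sub, map_mul, map_pow, map_ofNat, map_tsa, map_tsb, map_tsE2]

theorem map_tse2 (A B x c h : K) : φ (tse2 A B x c h) = tse2 (φ A) (φ B) (φ x) (φ c) (φ h) := by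
  simp only [tse2, map_div₀, map_sub, map_mul, map_pow, map_ofNat, map_tsa, map_tsb, map_tsE1]

theorem map_tsP (A B x c h : K) : φ (tsP A B x c h) = tsP (φ A) (φ B) (φ x) (φ c) (φ h) := by
  simp only [tsP, map_mul, map_neg, map_ofNat, map_tse1]

theorem map_tsQ (A B x c h j : K) :
    φ (tsQ A B x c h j) = tsQ (φ A) (φ B) (φ x) (φ c) (φ h) (φ j) := by
  simp only [tsQ, map_div₀, map_mul, map_neg, map_ofNat, map_tsa]

theorem map_tsR (A B x c h : K) : φ (tsR A B x c h) = tsR (φ A) (φ B) (φ x) (φ c) (φ h) := by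
  simp only [tsR, map_sub, map_mul, map_pow, map_ofNat, map_tse1, map_tse2]

theorem map_tsQuart (A B x c h j : K) :
    (tsQuart A B x c h j).map φ = tsQuart (φ A) (φ B) (φ x) (φ c) (φ h) (φ j) := by
  rw [tsQuart, tsQuart, quart_map, map_tsP, map_tsQ, map_tsR]

theorem map_tsResol (A B x c h j : K) :
    (tsResol A B x c h j).map φ = tsResol (φ A) (φ B) (φ x) (φ c) (φ h) (φ j) := by
  rw [tsResol, tsResol, resol_map, map_tsP, map_tsQ, map_tsR]

theorem map_tsX (x c t : K) : φ (tsX x c t) = tsX (φ x) (φ c) (φ t) := by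
  simp only [tsX, map_add, map_div₀, map_sub, map_mul, map_one]

theorem map_tsY (A B x c h t : K) :
    φ (tsY A B x c h t) = tsY (φ A) (φ B) (φ x) (φ c) (φ h) (φ t) := by
  simp only [tsY, map_add, map_div₀, map_sub, map_mul, map_one, map_pow, map_ofNat, map_tsa,
    map_tsb]

end maps

section point

open Classical in
/-- The point attached to the parameter `t` (zero if the coordinates are not on the curve). -/
noncomputable def tsPt {M : Type*} [Field M] (V : WeierstrassCurve.Affine M) (x c h t : M) :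
    V.Point :=
  if hn : V.Nonsingular (tsX x c t) (tsY V.a₄ V.a₆ x c h t) then
    WeierstrassCurve.Affine.Point.some _ _ hn else 0

end point

end Pool.Agent.Lib.MP_1a91b9_nt
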