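import Pool.Agent.Lib.MP_1a91b9_nt.TSDefs

/-!
# Embedding of splitting fields
-/

set_option autoImplicit false

namespace Pool.Agent.Lib.MP_1a91b9_nt

open IsDedekindDomain NumberField Polynomial IntermediateField
open scoped Topology

universe u

theorem ts_embed {F : Type u} [Field F] (g q : F[X]) (hg : g ≠ 0) (hq : q ≠ 0)
    {K M : Type u} [Field K] [Field M] [Algebra F K] [Algebra K M] [Algebra F M]
    [IsScalarTower F K M] (i : K →ₐ[F] g.SplittingField)
    [IsSplittingField K M (q.map (algebraMap F K))] :
    Nonempty (M →ₐ[F] (g * q).SplittingField) := by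
  have hgq : g * q ≠ 0 := mul_ne_zero hg hq
  set Ω := (g * q).SplittingField with hΩ
  have hs : ((g * q).map (algebraMap F Ω)).Splits := SplittingField.splits (g * q)
  have hne : (g * q).map (algebraMap F Ω) ≠ 0 := (Polynomial.map_ne_zero_iff (algebraMap F Ω).injective).2 hgq
  rw [Polynomial.map_mul] at hs hne
  have hsg : (g.map (algebraMap F Ω)).Splits := Splits.of_dvd hs hne (dvd_mul_right _ _)
  have hsq : (q.map (algebraMap F Ω)).Splits := Splits.of_dvd hs hne (dvd_mul_left _ _)
  let j : g.SplittingField →ₐ[F] Ω := IsSplittingField.lift g.SplittingField g hsg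
  let f : K →ₐ[F] Ω := j.comp i
  let _ : Algebra K Ω := f.toRingHom.toAlgebra
  have htow : IsScalarTower F K Ω := IsScalarTower.of_algebraMap_eq (fun a => (f.commutes a).symm)
  have hsq' : ((q.map (algebraMap F K)).map (algebraMap K Ω)).Splits := by
    rw [Polynomial.map_map, ← IsScalarTower.algebraMap_eq F K Ω]
    exact hsq
  let k : M →ₐ[K] Ω := IsSplittingField.lift M (q.map (algebraMap F K)) hsq'
  exact ⟨k.restrictScalars F⟩

end Pool.Agent.Lib.MP_1a91b9_nt
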