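import Pool.Agent.Lib.MP_1a91b9_nt.TSDefs

/-!
# Totally split quartic extensions: the equation of the points
-/

set_option autoImplicit false

namespace Pool.Agent.Lib.MP_1a91b9_nt

open IsDedekindDomain NumberField Polynomial IntermediateField
open scoped Topology

section TSEq
variable {M : Type*} [Field M] [CharZero M] (V : WeierstrassCurve.Affine M)
  (h1 : V.a₁ = 0) (h2 : V.a₂ = 0) (h3 : V.a₃ = 0)

private theorem TSEq_identity (A B x c h t : M) (hh : h ≠ 0) (ht : 1 - t ≠ 0) :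
    tsY A B x c h t ^ 2 - (tsX x c t ^ 3 + A * tsX x c t + B) =
      tsq A B x c h (t ^ 2) / (4 * h ^ 2 * (1 - t) ^ 4) := by
  have h2 : (2 : M) ≠ 0 := two_ne_zero
  have h4 : (4 : M) ≠ 0 := by norm_num
  unfold tsY tsX tsq tsa tsb tsE1 tsE2
  field_simp
  ring

include h1 h2 h3 in
theorem ts_equation (x c h t : M) (hh : h ≠ 0) (ht : 1 - t ≠ 0)
    (hq : tsq V.a₄ V.a₆ x c h (t ^ 2) = 0) :
    V.Equation (tsX x c t) (tsY V.a₄ V.a₆ x c h t) := by
  rw [WeierstrassCurve.Affine.equation_iff, h1, h2, h3]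
  have h4 := TSEq_identity V.a₄ V.a₆ x c h t hh ht
  rw [hq, zero_div] at h4
  linear_combination h4

end TSEq

end Pool.Agent.Lib.MP_1a91b9_nt
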