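import Pool.Agent.Lib.MP_1a91b9_nt.TSStep
import Pool.Agent.Lib.MP_1a91b9_nt.FinalMod

/-!
# The reduction to totally split solvable extensions
-/

set_option autoImplicit false

namespace Pool.Agent.Lib.MP_1a91b9_nt

open IsDedekindDomain NumberField Polynomial IntermediateField

universe u

attribute [local instance] isElliptic_baseChange

/-- `K` can be embedded in the splitting field over `F` of a nonzero polynomial with solvable Galois
group which is a product of linear factors over the completions of `F` at the finite places in `S`
and at all infinite places. So `K` lies in a finite solvable Galois extension of `F` in which all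
these places split completely. -/
def InSplitSolvable {F : Type u} [Field F] [NumberField F] (S : Finset (HeightOneSpectrum (𝓞 F)))
    (K : Type u) [Field K] [Algebra F K] : Prop :=
  ∃ g : F[X], g ≠ 0 ∧ Group.IsSolvable g.Gal ∧
    (∀ v ∈ S, (g.map (algebraMap F (v.adicCompletion F))).Splits) ∧
    (∀ w : InfinitePlace F, (g.map (algebraMap F w.Completion)).Splits) ∧
    Nonempty (K →ₐ[F] g.SplittingField)

theorem inSplitSolvable_self {F : Type u} [Field F] [NumberField F]
    (S : Finset (HeightOneSpectrum (𝓞 F))) : InSplitSolvable S F :=
  ⟨1, one_ne_zero, gal_one_isSolvable, fun v _ => by simp, fun w => by simp,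
    ⟨Algebra.ofId F _⟩⟩

/-- The conjecture modulo `m` over a field follows from the conjecture over extensions of bounded
degree and larger rank inside totally split solvable extensions. -/
theorem split_mod {F : Type u} [Field F] [NumberField F] (W : WeierstrassCurve F) [W.IsElliptic]
    (S : Finset (HeightOneSpectrum (𝓞 F))) (m R : ℕ) :
    ∀ (K : Type u) [Field K] [NumberField K] [Algebra F K], InSplitSolvable S K →
    (∀ (L : Type u) [Field L] [NumberField L] [Algebra F L] [Algebra K L] [IsScalarTower F K L],
      Module.finrank K L ∣ 12 ^ R →
      InSplitSolvable S L → mwRank (W.baseChange K) + (R : Cardinal) ≤ mwRank (W.baseChange L) →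
      RankMod m (W.baseChange L)) →
    RankMod m (W.baseChange K) := by
  induction R with
  | zero =>
    intro K _ _ _ hK h
    exact h K (by simp) hK (by simp)
  | succ R ih =>
    intro K _ _ _ hK h
    obtain ⟨g, hg, hsol, hgf, hgi, ⟨i⟩⟩ := hK
    obtain ⟨C, hC⟩ := exists_short W
    obtain ⟨q, hq, hqsol, hqf, hqi, hstep⟩ := ts_step (C • W)
      (by rw [hC]) (by rw [hC]) (by rw [hC]) S g
    obtain ⟨M, _, _, _, _, _, _, H₃, H₄, H₆, hM, hrel, hH⟩ := hstep K i
    obtain ⟨e⟩ := ts_embed g q hg hq (K := K) (M := M) i
    refine mod_of_three (M := M) m (W.baseChange K) H₃ H₄ H₆ hrel fun H hH' => ?_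
    obtain ⟨r1, r2⟩ := hH H hH'
    let L := fixedField H
    let _ : Algebra F L := ((algebraMap K L).comp (algebraMap F K)).toAlgebra
    have htower : IsScalarTower F K L := IsScalarTower.of_algebraMap_eq' rfl
    have r1' : mwRank (W.baseChange K) + 1 ≤ mwRank (W.baseChange L) := by
      have h6 : mwRank (((C • W).baseChange K).baseChange L) = mwRank ((C • W).baseChange L) := rfl
      rw [h6, mwRank_baseChange_variableChange, mwRank_baseChange_variableChange] at r1
      exact r1
    have hL : InSplitSolvable S L := by
      refine ⟨g * q, mul_ne_zero hg hq, gal_mul_isSolvable hsol hqsol, ?_, ?_, ?_⟩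
      · intro v hv
        rw [Polynomial.map_mul]
        exact (hgf v hv).mul (hqf v hv)
      · intro w
        rw [Polynomial.map_mul]
        exact (hgi w).mul (hqi w)
      · exact ⟨e.comp ((fixedField H).val.restrictScalars F)⟩
    have hres : RankMod m (W.baseChange L) := by
      refine ih L hL ?_
      intro L' _ _ _ _ _ hd hS' hr
      let _ : Algebra K L' := ((algebraMap L L').comp (algebraMap K L)).toAlgebra
      have ht1 : IsScalarTower K L L' := IsScalarTower.of_algebraMap_eq' rfl
      have ht2 : IsScalarTower F K L' := by
        refine IsScalarTower.of_algebraMap_eq' ?_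
        rw [IsScalarTower.algebraMap_eq F L L', IsScalarTower.algebraMap_eq K L L',
          IsScalarTower.algebraMap_eq F K L, RingHom.comp_assoc]
      refine h L' ?_ hS' ?_
      · rw [← Module.finrank_mul_finrank K L L', pow_succ, mul_comm]
        exact mul_dvd_mul hd r2
      · refine le_trans ?_ hr
        push_cast
        rw [add_comm (R : Cardinal) 1, ← add_assoc]
        gcongr
    exact hres

end Pool.Agent.Lib.MP_1a91b9_nt
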