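import Pool.Agent.Lib.MP_1a91b9_nt.TSDefs

/-!
# Totally split quartic extensions: no roots of the quartic and of its resolvent
-/

set_option autoImplicit false

namespace Pool.Agent.Lib.MP_1a91b9_nt

open IsDedekindDomain NumberField Polynomial IntermediateField
open scoped Topology

universe u

section TSIrr

variable {N : Type*} [Field N] (V : Valuation N (WithZero (Multiplicative ℤ)))

private lemma tsIrr_mul_le {u w : N} {a b c : ℤ} (hu : V u ≤ WithZero.exp a)
    (hw : V w ≤ WithZero.exp b) (hc : a + b = c) : V (u * w) ≤ WithZero.exp c := by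
  rw [map_mul, ← hc, WithZero.exp_add]
  exact mul_le_mul' hu hw

private lemma tsIrr_sub_le {u w : N} {a : WithZero (Multiplicative ℤ)} (hu : V u ≤ a)
    (hw : V w ≤ a) : V (u - w) ≤ a :=
  (Valuation.map_sub V u w).trans (max_le hu hw)

private lemma tsIrr_add_le {u w : N} {a : WithZero (Multiplicative ℤ)} (hu : V u ≤ a)
    (hw : V w ≤ a) : V (u + w) ≤ a :=
  (Valuation.map_add V u w).trans (max_le hu hw)

private lemma tsIrr_exp {v : WithZero (Multiplicative ℤ)} (h : v ≠ 0) :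
    ∃ n : ℤ, v = WithZero.exp n := ⟨WithZero.log v, (WithZero.exp_log h).symm⟩

private lemma tsIrr_lt_one {v : WithZero (Multiplicative ℤ)} (h : v < 1) :
    v ≤ WithZero.exp (-1 : ℤ) := by
  by_cases h0 : v = 0
  · rw [h0]; exact zero_le
  · obtain ⟨n, rfl⟩ := tsIrr_exp h0
    rw [← WithZero.exp_zero, WithZero.exp_lt_exp] at h
    rw [WithZero.exp_le_exp]
    omega

private lemma tsIrr_four (v2 : V 2 = 1) : V 4 = 1 := by
  have : (4 : N) = 2 * 2 := by norm_num
  rw [this, map_mul, v2, mul_one]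

private lemma tsIrr_sixteen (v2 : V 2 = 1) : V 16 = 1 := by
  have : (16 : N) = 4 * 4 := by norm_num
  rw [this, map_mul, tsIrr_four V v2, mul_one]

private lemma tsIrr_pow {u : N} {n : ℤ} (h : V u = WithZero.exp n) (k : ℕ) :
    V (u ^ k) = WithZero.exp (k * n) := by
  rw [map_pow, h, ← WithZero.exp_nsmul, nsmul_eq_mul]

theorem ts_no_root_resol {N : Type*} [Field N] (V : Valuation N (WithZero (Multiplicative ℤ)))
    (A B x c h j : N) (v2 : V 2 = 1) (ha : V (tsa A B x c) = 1) (hb : V (tsb A B x c) < 1)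
    (hE1 : V (tsE1 A B x c) ≤ 1) (hE2 : V (tsE2 A B x c) ≤ 1)
    (hh : V h = WithZero.exp (-1 : ℤ)) (hj : V j = 1) (z : N) :
    (tsResol A B x c h j).eval z ≠ 0 := by
  have v4 := tsIrr_four V v2
  have v16 := tsIrr_sixteen V v2
  have h1 : (1 : WithZero (Multiplicative ℤ)) = WithZero.exp (0 : ℤ) := rfl
  have ha0 : tsa A B x c ≠ 0 := by
    intro h0
    rw [h0, map_zero] at ha
    exact zero_ne_one ha
  have ha2 : V (tsa A B x c ^ 2) = 1 := by rw [map_pow, ha, one_pow]
  have hb' := tsIrr_lt_one hb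
  have hh2 : V (h ^ 2) = WithZero.exp (-2 : ℤ) := by
    rw [tsIrr_pow V hh]; rfl
  have he1 : V (tse1 A B x c h) ≤ WithZero.exp (-1 : ℤ) := by
    unfold tse1
    rw [map_div₀, ha2, div_one]
    apply tsIrr_sub_le
    · refine (tsIrr_mul_le V (tsIrr_mul_le V (v4.le.trans h1.le) hh2.le rfl)
        (hE2.trans h1.le) rfl).trans ?_
      rw [WithZero.exp_le_exp]; norm_num
    · exact tsIrr_mul_le V (tsIrr_mul_le V (v2.le.trans h1.le) (ha.le.trans h1.le) rfl) hb' rfl
  have he2 : V (tse2 A B x c h) ≤ WithZero.exp (-2 : ℤ) := by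
    unfold tse2
    rw [map_div₀, ha2, div_one]
    apply tsIrr_sub_le
    · rw [pow_two]
      exact tsIrr_mul_le V hb' hb' rfl
    · exact tsIrr_mul_le V (tsIrr_mul_le V (v4.le.trans h1.le) hh2.le rfl)
        (hE1.trans h1.le) rfl
  have hQ : V (tsQ A B x c h j) = WithZero.exp (-1 : ℤ) := by
    unfold tsQ
    rw [map_div₀, ha, div_one, map_mul, map_mul, Valuation.map_neg, v16, hh, hj, one_mul, mul_one]
  have hQ2 : V (tsQ A B x c h j ^ 2) = WithZero.exp (-2 : ℤ) := by
    rw [tsIrr_pow V hQ]; rfl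
  intro hz
  have hz' : tsQ A B x c h j ^ 2 =
      z ^ 3 - 4 * tse1 A B x c h * z ^ 2 + 16 * tse2 A B x c h * z := by
    unfold tsResol resol tsP tsR at hz
    simp only [eval_add, eval_sub, eval_mul, eval_pow, eval_X, eval_C] at hz
    linear_combination -hz
  by_cases hz0 : z = 0
  · rw [hz0] at hz'
    have : tsQ A B x c h j ^ 2 = 0 := by rw [hz']; ring
    rw [this, map_zero] at hQ2
    exact WithZero.exp_ne_zero hQ2.symm
  obtain ⟨n, hn⟩ := tsIrr_exp ((Valuation.ne_zero_iff V).2 hz0)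
  have hz3 : V (z ^ 3) = WithZero.exp (3 * n) := by
    rw [tsIrr_pow V hn]; rfl
  have hz2 : V (z ^ 2) = WithZero.exp (2 * n) := by
    rw [tsIrr_pow V hn]; rfl
  have hm1 : V (4 * tse1 A B x c h * z ^ 2) ≤ WithZero.exp (-1 + 2 * n) :=
    tsIrr_mul_le V (tsIrr_mul_le V (v4.le.trans h1.le) he1 rfl) hz2.le (by ring)
  have hm2 : V (16 * tse2 A B x c h * z) ≤ WithZero.exp (-2 + n) :=
    tsIrr_mul_le V (tsIrr_mul_le V (v16.le.trans h1.le) he2 rfl) hn.le (by ring)
  rcases le_or_gt 0 n with hn0 | hn0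
  · -- the leading term dominates
    have h3 : z ^ 3 = tsQ A B x c h j ^ 2 + 4 * tse1 A B x c h * z ^ 2 -
        16 * tse2 A B x c h * z := by rw [hz']; ring
    have h4 : V (z ^ 3) ≤ WithZero.exp (3 * n - 1) := by
      rw [h3]
      apply tsIrr_sub_le
      · apply tsIrr_add_le
        · rw [hQ2, WithZero.exp_le_exp]; omega
        · refine hm1.trans ?_
          rw [WithZero.exp_le_exp]; omega
      · refine hm2.trans ?_
        rw [WithZero.exp_le_exp]; omega
    rw [hz3, WithZero.exp_le_exp] at h4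
    omega
  · have h4 : V (tsQ A B x c h j ^ 2) ≤ WithZero.exp (-3 : ℤ) := by
      rw [hz']
      apply tsIrr_add_le
      · apply tsIrr_sub_le
        · rw [hz3, WithZero.exp_le_exp]; omega
        · refine hm1.trans ?_
          rw [WithZero.exp_le_exp]; omega
      · refine hm2.trans ?_
        rw [WithZero.exp_le_exp]; omega
    rw [hQ2, WithZero.exp_le_exp] at h4
    omega

theorem ts_no_root_quart {N : Type*} [Field N] (V : Valuation N (WithZero (Multiplicative ℤ)))
    (A B x c h j : N) (v2 : V 2 = 1) (ha : V (tsa A B x c) = 1) (hb : V (tsb A B x c) ≤ 1)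
    (hE1 : V (tsE1 A B x c) ≤ 1) (hE2 : V (tsE2 A B x c) = 1)
    (hh : V h = WithZero.exp (1 : ℤ)) (hj : V j = WithZero.exp (1 : ℤ)) (y : N) :
    (tsQuart A B x c h j).eval y ≠ 0 := by
  have v4 := tsIrr_four V v2
  have v16 := tsIrr_sixteen V v2
  have h1 : (1 : WithZero (Multiplicative ℤ)) = WithZero.exp (0 : ℤ) := rfl
  have ha0 : tsa A B x c ≠ 0 := by
    intro h0
    rw [h0, map_zero] at ha
    exact zero_ne_one ha
  have ha2 : V (tsa A B x c ^ 2) = 1 := by rw [map_pow, ha, one_pow]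
  have hh2 : V (h ^ 2) = WithZero.exp (2 : ℤ) := by
    rw [tsIrr_pow V hh]; rfl
  have h4E2 : V (4 * h ^ 2 * tsE2 A B x c) = WithZero.exp (2 : ℤ) := by
    rw [map_mul, map_mul, v4, hE2, hh2, one_mul, mul_one]
  have h2ab : V (2 * tsa A B x c * tsb A B x c) ≤ WithZero.exp (0 : ℤ) :=
    tsIrr_mul_le V (tsIrr_mul_le V (v2.le.trans h1.le) (ha.le.trans h1.le) rfl)
      (hb.trans h1.le) rfl
  have he1 : V (tse1 A B x c h) = WithZero.exp (2 : ℤ) := by
    unfold tse1
    rw [map_div₀, ha2, div_one, Valuation.map_sub_eq_of_lt_left]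
    · exact h4E2
    · rw [h4E2]
      refine lt_of_le_of_lt h2ab ?_
      rw [WithZero.exp_lt_exp]; norm_num
  have he2 : V (tse2 A B x c h) ≤ WithZero.exp (2 : ℤ) := by
    unfold tse2
    rw [map_div₀, ha2, div_one]
    apply tsIrr_sub_le
    · rw [pow_two]
      refine (tsIrr_mul_le V (hb.trans h1.le) (hb.trans h1.le) rfl).trans ?_
      rw [WithZero.exp_le_exp]; norm_num
    · exact tsIrr_mul_le V (tsIrr_mul_le V (v4.le.trans h1.le) hh2.le rfl)
        (hE1.trans h1.le) rfl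
  have hQ : V (tsQ A B x c h j) = WithZero.exp (2 : ℤ) := by
    unfold tsQ
    rw [map_div₀, ha, div_one, map_mul, map_mul, Valuation.map_neg, v16, hh, hj, one_mul,
      ← WithZero.exp_add]
    rfl
  have h4e2 : V (4 * tse2 A B x c h) ≤ WithZero.exp (2 : ℤ) :=
    tsIrr_mul_le V (v4.le.trans h1.le) he2 rfl
  intro hy
  have hy' : (y ^ 2 - tse1 A B x c h) ^ 2 = 4 * tse2 A B x c h - tsQ A B x c h j * y := by
    unfold tsQuart quart tsP tsR at hy
    simp only [eval_add, eval_mul, eval_pow, eval_X, eval_C] at hy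
    linear_combination hy
  rcases le_or_gt (V y) 1 with hy1 | hy1
  · have hy2 : V (y ^ 2) ≤ WithZero.exp (0 : ℤ) := by
      rw [pow_two]
      exact tsIrr_mul_le V (hy1.trans h1.le) (hy1.trans h1.le) rfl
    have h3 : V (y ^ 2 - tse1 A B x c h) = WithZero.exp (2 : ℤ) := by
      rw [Valuation.map_sub_eq_of_lt_right, he1]
      rw [he1]
      refine lt_of_le_of_lt hy2 ?_
      rw [WithZero.exp_lt_exp]; norm_num
    have h4 : V ((y ^ 2 - tse1 A B x c h) ^ 2) = WithZero.exp (4 : ℤ) := by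
      rw [tsIrr_pow V h3]; rfl
    have h5 : V (4 * tse2 A B x c h - tsQ A B x c h j * y) ≤ WithZero.exp (2 : ℤ) := by
      apply tsIrr_sub_le V h4e2
      exact tsIrr_mul_le V hQ.le (hy1.trans h1.le) rfl
    rw [← hy', h4, WithZero.exp_le_exp] at h5
    omega
  · have hy0 : V y ≠ 0 := (zero_lt_one.trans hy1).ne'
    obtain ⟨n, hn⟩ := tsIrr_exp hy0
    rw [hn, h1, WithZero.exp_lt_exp] at hy1
    have hQy : V (tsQ A B x c h j * y) = WithZero.exp (2 + n) := by
      rw [map_mul, hQ, hn, ← WithZero.exp_add]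
    have hR : V (4 * tse2 A B x c h - tsQ A B x c h j * y) = WithZero.exp (2 + n) := by
      rw [Valuation.map_sub_eq_of_lt_right, hQy]
      rw [hQy]
      refine lt_of_le_of_lt h4e2 ?_
      rw [WithZero.exp_lt_exp]; omega
    have h6 : V (y ^ 2 - tse1 A B x c h) ≠ 0 := by
      intro h0
      have h7 : V ((y ^ 2 - tse1 A B x c h) ^ 2) = 0 := by rw [map_pow, h0]; simp
      rw [hy', hR] at h7
      exact WithZero.exp_ne_zero h7
    obtain ⟨m, hm⟩ := tsIrr_exp h6
    have h7 : V ((y ^ 2 - tse1 A B x c h) ^ 2) = WithZero.exp (2 * m) := by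
      rw [tsIrr_pow V hm]; rfl
    rw [hy', hR, WithZero.exp_inj] at h7
    have hy2 : V (y ^ 2) = WithZero.exp (2 * n) := by
      rw [tsIrr_pow V hn]; rfl
    rcases Nat.lt_or_ge 1 n.toNat with h8 | h8
    · have h9 : V (y ^ 2 - tse1 A B x c h) = WithZero.exp (2 * n) := by
        rw [Valuation.map_sub_eq_of_lt_left, hy2]
        rw [he1, hy2, WithZero.exp_lt_exp]; omega
      rw [hm, WithZero.exp_inj] at h9
      omega
    · omega

end TSIrr

end Pool.Agent.Lib.MP_1a91b9_nt
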