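import Pool.Agent.Lib.MP_1a91b9_nt.TSDefs
import Mathlib.Analysis.Calculus.InverseFunctionTheorem.FDeriv

/-!
# Totally split quartic extensions: persistence of simple roots
-/

set_option autoImplicit false

namespace Pool.Agent.Lib.MP_1a91b9_nt

open IsDedekindDomain NumberField Polynomial IntermediateField
open scoped Topology

universe u

theorem ts_persist {k : Type*} [NontriviallyNormedField k] [CompleteSpace k] {E : Type*}
    [NormedAddCommGroup E] [NormedSpace k E] [CompleteSpace E] (G : k × E → k)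
    (G' : k × E →L[k] k) (s₀ : k) (p₀ : E) (hG : HasStrictFDerivAt G G' (s₀, p₀))
    (h0 : G (s₀, p₀) = 0) (h1 : G' (1, 0) ≠ 0) (U : Set k) (hU : U ∈ 𝓝 s₀) :
    ∀ᶠ p in 𝓝 p₀, ∃ s ∈ U, G (s, p) = 0 := by
  have hΦ : HasStrictFDerivAt (fun q : k × E => (G q, q.2))
      (G'.prod (ContinuousLinearMap.snd k k E)) (s₀, p₀) :=
    hG.prodMk (ContinuousLinearMap.snd k k E).hasStrictFDerivAt
  have hsurj : (G'.prod (ContinuousLinearMap.snd k k E)).range = ⊤ := by
    rw [LinearMap.range_eq_top]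
    rintro ⟨a, b⟩
    refine ⟨((a - G' (0, b)) / G' (1, 0), b), ?_⟩
    have h2 : G' ((a - G' (0, b)) / G' (1, 0), b) = a := by
      have h3 : (((a - G' (0, b)) / G' (1, 0), b) : k × E) =
          ((a - G' (0, b)) / G' (1, 0)) • ((1, 0) : k × E) + (0, b) := by
        simp
      rw [h3, map_add, map_smul, smul_eq_mul, div_mul_cancel₀ _ h1]
      ring
    show ((G' ((a - G' (0, b)) / G' (1, 0), b), b) : k × E) = (a, b)
    rw [h2]
  have hmap := hΦ.map_nhds_eq_of_surj hsurj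
  simp only [h0] at hmap
  have hset : {q : k × E | q.1 ∈ U} ∈ 𝓝 (s₀, p₀) :=
    (continuous_fst.tendsto (s₀, p₀)) hU
  have him : (fun q : k × E => (G q, q.2)) '' {q : k × E | q.1 ∈ U} ∈ 𝓝 ((0 : k), p₀) := by
    rw [← hmap]
    exact Filter.image_mem_map hset
  have hcont : Filter.Tendsto (fun p : E => ((0 : k), p)) (𝓝 p₀) (𝓝 ((0 : k), p₀)) :=
    (Continuous.prodMk_right (0 : k)).tendsto p₀
  filter_upwards [hcont him] with p hp
  obtain ⟨⟨s, p'⟩, hs, hsp⟩ := hp
  have h2 := Prod.mk.inj hsp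
  simp only at h2
  refine ⟨s, hs, ?_⟩
  rw [← h2.2]
  exact h2.1

end Pool.Agent.Lib.MP_1a91b9_nt
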