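import Pool.Agent.Lib.MP_1a91b9_nt.TSDefs
import Pool.Agent.Lib.MP_1a91b9_nt.TSPersist

set_option autoImplicit false

namespace Pool.Agent.Lib.MP_1a91b9_nt

open IsDedekindDomain NumberField Polynomial IntermediateField
open scoped Topology

universe u

private theorem TSLocal_persist {k : Type*} [NontriviallyNormedField k] [CompleteSpace k] {E : Type*}
    [NormedAddCommGroup E] [NormedSpace k E] [CompleteSpace E] (G : k × E → k)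
    (s₀ : k) (p₀ : E) (hG : AnalyticAt k G (s₀, p₀)) (h0 : G (s₀, p₀) = 0) (d : k)
    (hd : HasDerivAt (fun s => G (s, p₀)) d s₀) (hd0 : d ≠ 0) (Pr : k × E → Prop)
    (hPr : ∀ᶠ q in 𝓝 (s₀, p₀), Pr q) :
    ∀ᶠ p in 𝓝 p₀, ∃ s, G (s, p) = 0 ∧ Pr (s, p) := by
  have hst := hG.hasStrictFDerivAt
  have h1 : fderiv k G (s₀, p₀) (1, 0) ≠ 0 := by
    have h2 : HasDerivAt (fun s : k => ((s, p₀) : k × E)) (1, 0) s₀ :=
      (hasDerivAt_id s₀).prodMk (hasDerivAt_const s₀ p₀)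
    have h3 : HasDerivAt (fun s => G (s, p₀)) (fderiv k G (s₀, p₀) (1, 0)) s₀ :=
      hst.hasFDerivAt.comp_hasDerivAt s₀ h2
    rw [h3.unique hd]
    exact hd0
  rw [nhds_prod_eq, Filter.eventually_prod_iff] at hPr
  obtain ⟨pa, hpa, pb, hpb, hab⟩ := hPr
  filter_upwards [ts_persist G _ s₀ p₀ hst h0 h1 {x | pa x} hpa, hpb] with p hp hp2
  obtain ⟨s, hs, hs0⟩ := hp
  exact ⟨s, hs0, hab hs hp2⟩

private theorem TSLocal_an {k : Type*} [NontriviallyNormedField k] [CompleteSpace k] {E : Type*}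
    [NormedAddCommGroup E] [NormedSpace k E] {G : E → k} {x : E} (h : ContDiffAt k ⊤ G x) :
    AnalyticAt k G x := ContDiffAt.analyticAt h

private theorem TSLocal_sq {k : Type*} [NontriviallyNormedField k] [CompleteSpace k] [CharZero k]
    (z : k) (hz : z ≠ 0) : ∀ᶠ y in 𝓝 (z ^ 2), ∃ s, s ^ 2 = y := by
  have h1 := TSLocal_persist (k := k) (E := k) (fun q => q.1 ^ 2 - q.2) z (z ^ 2)
    (TSLocal_an (by fun_prop)) (by simp) (2 * z) (by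
      have h2 := ((hasDerivAt_id z).pow 2).sub_const (z ^ 2)
      simpa using h2) (mul_ne_zero two_ne_zero hz) (fun _ => True)
      (Filter.Eventually.of_forall fun _ => trivial)
  filter_upwards [h1] with y hy
  obtain ⟨s, hs, -⟩ := hy
  exact ⟨s, sub_eq_zero.1 hs⟩

/-- a polynomial of degree two with three distinct roots vanishes -/
private theorem TSLocal_quad {k : Type*} [Field k] (c0 c1 c2 : k) (t : Fin 3 → k)
    (h01 : t 0 ≠ t 1) (h02 : t 0 ≠ t 2) (h12 : t 1 ≠ t 2)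
    (h : ∀ i, c2 * t i ^ 2 + c1 * t i + c0 = 0) (θ : k) : c2 * θ ^ 2 + c1 * θ + c0 = 0 := by
  have a0 := h 0
  have a1 := h 1
  have a2 := h 2
  have b1 : (t 0 - t 1) * (c2 * (t 0 + t 1) + c1) = 0 := by linear_combination a0 - a1
  have b2 : (t 0 - t 2) * (c2 * (t 0 + t 2) + c1) = 0 := by linear_combination a0 - a2
  have d1 : c2 * (t 0 + t 1) + c1 = 0 := by
    rcases mul_eq_zero.1 b1 with h | h
    · exact absurd (sub_eq_zero.1 h) h01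
    · exact h
  have d2 : c2 * (t 0 + t 2) + c1 = 0 := by
    rcases mul_eq_zero.1 b2 with h | h
    · exact absurd (sub_eq_zero.1 h) h02
    · exact h
  have e2 : (t 1 - t 2) * c2 = 0 := by linear_combination d1 - d2
  have hc2 : c2 = 0 := by
    rcases mul_eq_zero.1 e2 with h | h
    · exact absurd (sub_eq_zero.1 h) h12
    · exact h
  have hc1 : c1 = 0 := by
    rw [hc2] at d1
    simpa using d1
  have hc0 : c0 = 0 := by
    rw [hc2, hc1] at a0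
    simpa using a0
  rw [hc2, hc1, hc0]
  ring

/-- the factorisation of the cubic from three distinct roots -/
private theorem TSLocal_factor {k : Type*} [Field k] (A B x c h : k) (u : Fin 3 → k)
    (h01 : u 0 ≠ u 1) (h02 : u 0 ≠ u 2) (h12 : u 1 ≠ u 2) (hu : ∀ i, tsq A B x c h (u i) = 0)
    (θ : k) : tsq A B x c h θ = tsa A B x c ^ 2 * ∏ i, (θ - u i) := by
  have key := TSLocal_quad
    (-4 * h ^ 2 * ((x ^ 3 + A * x + B) - h ^ 2) + tsa A B x c ^ 2 * (u 0 * u 1 * u 2))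
    (tsb A B x c ^ 2 - 4 * h ^ 2 * tsE1 A B x c -
      tsa A B x c ^ 2 * (u 0 * u 1 + u 0 * u 2 + u 1 * u 2))
    (2 * tsa A B x c * tsb A B x c - 4 * h ^ 2 * tsE2 A B x c +
      tsa A B x c ^ 2 * (u 0 + u 1 + u 2)) u h01 h02 h12
    (fun i => by
      have h1 := hu i
      unfold tsq at h1
      have h2 : (u i - u 0) * (u i - u 1) * (u i - u 2) = 0 := by
        fin_cases i <;> simp
      linear_combination h1 - tsa A B x c ^ 2 * h2) θ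
  rw [Fin.prod_univ_three]
  unfold tsq
  linear_combination key

theorem ts_local {k : Type*} [NontriviallyNormedField k] [CompleteSpace k] [CharZero k]
    (N : Set k) (hN : N ∈ 𝓝 (4 / 3 : k)) :
    ∃ κ ∈ N, ∀ᶠ p : k × k × k × k × k in 𝓝 (1, 0, 0, 0, κ), p.2.2.2.1 ≠ 0 →
      tsa p.2.1 p.2.2.1 p.1 p.2.2.2.2 ≠ 0 ∧ ∃ t : Fin 3 → k, ∀ θ : k,
        tsq p.2.1 p.2.2.1 p.1 p.2.2.2.2 p.2.2.2.1 θ =
          tsa p.2.1 p.2.2.1 p.1 p.2.2.2.2 ^ 2 * ∏ i, (θ - t i ^ 2) := by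
  -- choice of `ρ`
  have hev : ∀ᶠ ρ in 𝓝 (0 : k), (4 + 36 * ρ ^ 2) / (3 + 9 * ρ ^ 2) ∈ N ∧ 3 + 9 * ρ ^ 2 ≠ 0 ∧
      1 + 27 * ρ ^ 2 ≠ 0 ∧ 1 - 9 * ρ ^ 2 ≠ 0 ∧
      ∃ g : k, g ^ 2 = (1 - 9 * ρ ^ 2) ^ 3 / (1 + 27 * ρ ^ 2) := by
    have c1 : ContinuousAt (fun ρ : k => (4 + 36 * ρ ^ 2) / (3 + 9 * ρ ^ 2)) 0 := by
      apply ContinuousAt.div
      · fun_prop
      · fun_prop
      · simp
    have c2 : ContinuousAt (fun ρ : k => 3 + 9 * ρ ^ 2) 0 := by fun_prop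
    have c3 : ContinuousAt (fun ρ : k => 1 + 27 * ρ ^ 2) 0 := by fun_prop
    have c4 : ContinuousAt (fun ρ : k => 1 - 9 * ρ ^ 2) 0 := by fun_prop
    have c5 : ContinuousAt (fun ρ : k => (1 - 9 * ρ ^ 2) ^ 3 / (1 + 27 * ρ ^ 2)) 0 := by
      apply ContinuousAt.div
      · fun_prop
      · fun_prop
      · simp
    have e1 := c1.eventually_mem (by simpa using hN)
    have e2 := c2.eventually_ne (y := (0 : k)) (by simp)
    have e3 := c3.eventually_ne (y := (0 : k)) (by simp)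
    have e4 := c4.eventually_ne (y := (0 : k)) (by simp)
    have h1 : ∀ᶠ y in 𝓝 ((1 - 9 * (0 : k) ^ 2) ^ 3 / (1 + 27 * 0 ^ 2)), ∃ g : k, g ^ 2 = y := by
      have := TSLocal_sq (1 : k) one_ne_zero
      simpa using this
    have e5 := c5.eventually h1
    filter_upwards [e1, e2, e3, e4, e5] with ρ h1 h2 h3 h4 h5
    exact ⟨h1, h2, h3, h4, h5⟩
  obtain ⟨ρ, ⟨hκN, hρ1, hρ2, hρ3, g, hg⟩, hρ0⟩ :=
    ((hev.filter_mono nhdsWithin_le_nhds).and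
      (self_mem_nhdsWithin : ∀ᶠ ρ in 𝓝[≠] (0 : k), ρ ∈ ({0}ᶜ : Set k))).exists
  have hρ0 : ρ ≠ 0 := hρ0
  obtain ⟨κ, hκ⟩ : ∃ κ : k, κ = (4 + 36 * ρ ^ 2) / (3 + 9 * ρ ^ 2) := ⟨_, rfl⟩
  rw [← hκ] at hκN
  have h1κ : κ * (3 + 9 * ρ ^ 2) = 4 + 36 * ρ ^ 2 := by
    rw [hκ, div_mul_cancel₀ _ hρ1]
  have he : (κ - 1) * (3 + 9 * ρ ^ 2) = 1 + 27 * ρ ^ 2 := by linear_combination h1κ
  have hκ1' : κ - 1 ≠ 0 := by
    intro h
    rw [h, zero_mul] at he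
    exact hρ2 he.symm
  obtain ⟨z, hz⟩ : ∃ z : k, z = 3 * ρ / (κ - 1) := ⟨_, rfl⟩
  have hzz : z * (κ - 1) = 3 * ρ := by rw [hz, div_mul_cancel₀ _ hκ1']
  have hz0 : z ≠ 0 := by
    rw [hz]
    exact div_ne_zero (mul_ne_zero three_ne_zero hρ0) hκ1'
  have hg' : g ^ 2 * (1 + 27 * ρ ^ 2) = (1 - 9 * ρ ^ 2) ^ 3 := by
    rw [hg, div_mul_cancel₀ _ hρ2]
  have hg0 : g ≠ 0 := by
    intro h
    rw [h] at hg'
    apply pow_ne_zero 3 hρ3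
    rw [← hg']
    ring
  obtain ⟨a0, ha0⟩ : ∃ a0 : k, a0 = tsa 0 0 1 κ := ⟨_, rfl⟩
  obtain ⟨b0, hb0⟩ : ∃ b0 : k, b0 = tsb 0 0 1 κ := ⟨_, rfl⟩
  have hb0e : b0 = 3 * κ - 4 := by
    rw [hb0]
    unfold tsb
    ring
  have ha0e : a0 = (κ - 1) ^ 2 * (κ - 4) := by
    rw [ha0]
    unfold tsa
    ring
  have hb0' : b0 * (3 + 9 * ρ ^ 2) = 72 * ρ ^ 2 := by
    rw [hb0e]
    linear_combination 3 * h1κ
  have hb0n : b0 ≠ 0 := by
    intro h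
    rw [h, zero_mul] at hb0'
    exact mul_ne_zero (by norm_num : (72 : k) ≠ 0) (pow_ne_zero 2 hρ0) hb0'.symm
  have hab : a0 * z ^ 2 = -b0 := by
    have h1 : (3 + 9 * ρ ^ 2) * (a0 * z ^ 2) = (3 + 9 * ρ ^ 2) * -b0 := by
      rw [ha0e, hb0e]
      linear_combination (3 + 9 * ρ ^ 2) * (κ - 4) * (z * (κ - 1) + 3 * ρ) * hzz +
        (9 * ρ ^ 2 + 3) * h1κ
    exact mul_left_cancel₀ hρ1 h1
  have ha0n : a0 ≠ 0 := by
    intro h
    rw [h, zero_mul] at hab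
    exact hb0n (neg_eq_zero.1 hab.symm)
  have hFe : 1 + tsE1 0 0 1 κ * z ^ 2 + tsE2 0 0 1 κ * z ^ 4 = g ^ 2 := by
    have h1 : tsE1 0 0 1 κ = 3 * (κ - 1) * (κ - 1 - 1) := by
      unfold tsE1
      ring
    have h2 : tsE2 0 0 1 κ = -(κ - 1) ^ 3 := by
      unfold tsE2
      ring
    rw [h1, h2]
    obtain ⟨e, hee⟩ : ∃ e : k, e = κ - 1 := ⟨_, rfl⟩
    rw [← hee] at he hzz ⊢
    have w1 : e ^ 2 * z ^ 2 = 9 * ρ ^ 2 := by linear_combination (z * e + 3 * ρ) * hzz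
    have w2 : e ^ 4 * z ^ 4 = 81 * ρ ^ 4 := by
      linear_combination (e ^ 2 * z ^ 2 + 9 * ρ ^ 2) * w1
    apply mul_right_cancel₀ hρ2
    rw [hg']
    linear_combination -(3 * e * (e - 1) * z ^ 2 - e ^ 3 * z ^ 4) * he +
      3 * (e - 1) * (3 + 9 * ρ ^ 2) * w1 - (3 + 9 * ρ ^ 2) * w2 + 27 * ρ ^ 2 * he
  refine ⟨κ, hκN, ?_⟩
  -- neighbourhoods
  obtain ⟨U0, hU0, U1, hU1, hUd⟩ := Filter.disjoint_iff.1
    (disjoint_nhds_nhds.2 (pow_ne_zero 2 hz0).symm : Disjoint (𝓝 (0 : k)) (𝓝 (z ^ 2)))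
  have hr0 : g / z ≠ 0 := div_ne_zero hg0 hz0
  have hrr : g / z ≠ -(g / z) := by
    intro h
    have h2 : 2 * (g / z) = 0 := by linear_combination h
    exact mul_ne_zero two_ne_zero hr0 h2
  obtain ⟨U2, hU2, U3, hU3, hUd'⟩ := Filter.disjoint_iff.1
    (disjoint_nhds_nhds.2 hrr : Disjoint (𝓝 (g / z)) (𝓝 (-(g / z))))
  -- the first root
  have hA : ∀ᶠ p : k × k × k × k × k in 𝓝 (1, 0, 0, 0, κ), ∃ s : k,
      (s ^ 2 * (tsa p.2.1 p.2.2.1 p.1 p.2.2.2.2 * (p.2.2.2.1 ^ 2 * s ^ 2) +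
        tsb p.2.1 p.2.2.1 p.1 p.2.2.2.2) ^ 2 - 4 * ((p.1 ^ 3 + p.2.1 * p.1 + p.2.2.1) +
        tsE1 p.2.1 p.2.2.1 p.1 p.2.2.2.2 * (p.2.2.2.1 ^ 2 * s ^ 2) +
        tsE2 p.2.1 p.2.2.1 p.1 p.2.2.2.2 * (p.2.2.2.1 ^ 2 * s ^ 2) ^ 2 - p.2.2.2.1 ^ 2)) = 0 ∧
      (p.2.2.2.1 * s) ^ 2 ∈ U0 := by
    refine TSLocal_persist (E := k × k × k × k × k)
      (fun q : k × (k × k × k × k × k) =>
      (q.1 ^ 2 * (tsa q.2.2.1 q.2.2.2.1 q.2.1 q.2.2.2.2.2 * (q.2.2.2.2.1 ^ 2 * q.1 ^ 2) +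
        tsb q.2.2.1 q.2.2.2.1 q.2.1 q.2.2.2.2.2) ^ 2 - 4 * ((q.2.1 ^ 3 + q.2.2.1 * q.2.1 + q.2.2.2.1) +
        tsE1 q.2.2.1 q.2.2.2.1 q.2.1 q.2.2.2.2.2 * (q.2.2.2.2.1 ^ 2 * q.1 ^ 2) +
        tsE2 q.2.2.1 q.2.2.2.1 q.2.1 q.2.2.2.2.2 * (q.2.2.2.2.1 ^ 2 * q.1 ^ 2) ^ 2 -
          q.2.2.2.2.1 ^ 2)))
      (2 / b0) (1, 0, 0, 0, κ) ?_ ?_ (2 * (2 / b0) * b0 ^ 2) ?_ ?_
      (fun q => (q.2.2.2.2.1 * q.1) ^ 2 ∈ U0) ?_
    · apply TSLocal_an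
      unfold tsa tsb tsE1 tsE2
      fun_prop
    · simp only
      rw [← hb0]
      field_simp
      ring
    · have h1 : (fun s : k => s ^ 2 * (tsa 0 0 1 κ * (0 ^ 2 * s ^ 2) + tsb 0 0 1 κ) ^ 2 -
          4 * ((1 ^ 3 + 0 * 1 + 0) + tsE1 0 0 1 κ * (0 ^ 2 * s ^ 2) +
          tsE2 0 0 1 κ * (0 ^ 2 * s ^ 2) ^ 2 - 0 ^ 2)) = fun s : k => s ^ 2 * b0 ^ 2 - 4 := by
        funext s
        rw [← hb0]
        ring
      simp only
      rw [h1]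
      have h2 := (((hasDerivAt_id (2 / b0)).pow 2).mul_const (b0 ^ 2)).sub_const 4
      simpa using h2
    · exact mul_ne_zero (mul_ne_zero two_ne_zero (div_ne_zero two_ne_zero hb0n)) (pow_ne_zero 2 hb0n)
    · have hc : ContinuousAt (fun q : k × (k × k × k × k × k) => (q.2.2.2.2.1 * q.1) ^ 2)
          (2 / b0, (1, 0, 0, 0, κ)) := by fun_prop
      apply hc.eventually_mem
      simpa using hU0
  -- the two other roots
  have hB : ∀ r0 : k, r0 ≠ 0 → z ^ 2 * r0 ^ 2 = g ^ 2 → ∀ U ∈ 𝓝 r0,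
      ∀ᶠ p : k × k × k × k × k in 𝓝 (1, 0, 0, 0, κ), ∃ r : k,
      (tsa p.2.1 p.2.2.1 p.1 p.2.2.2.2 * (2 * p.2.2.2.1 * r - tsb p.2.1 p.2.2.1 p.1 p.2.2.2.2) *
        r ^ 2 - (tsa p.2.1 p.2.2.1 p.1 p.2.2.2.2 ^ 2 * (p.1 ^ 3 + p.2.1 * p.1 + p.2.2.1) +
        tsE1 p.2.1 p.2.2.1 p.1 p.2.2.2.2 * tsa p.2.1 p.2.2.1 p.1 p.2.2.2.2 *
          (2 * p.2.2.2.1 * r - tsb p.2.1 p.2.2.1 p.1 p.2.2.2.2) +
        tsE2 p.2.1 p.2.2.1 p.1 p.2.2.2.2 *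
          (2 * p.2.2.2.1 * r - tsb p.2.1 p.2.2.1 p.1 p.2.2.2.2) ^ 2 -
        tsa p.2.1 p.2.2.1 p.1 p.2.2.2.2 ^ 2 * p.2.2.2.1 ^ 2)) = 0 ∧
      (r ∈ U ∧ (2 * p.2.2.2.1 * r - tsb p.2.1 p.2.2.1 p.1 p.2.2.2.2) /
        tsa p.2.1 p.2.2.1 p.1 p.2.2.2.2 ∈ U1 ∧
        ∃ s, s ^ 2 = (2 * p.2.2.2.1 * r - tsb p.2.1 p.2.2.1 p.1 p.2.2.2.2) /
        tsa p.2.1 p.2.2.1 p.1 p.2.2.2.2) := by
    intro r0 hr00 hzr U hU
    refine TSLocal_persist (E := k × k × k × k × k)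
      (fun q : k × (k × k × k × k × k) =>
      (tsa q.2.2.1 q.2.2.2.1 q.2.1 q.2.2.2.2.2 *
        (2 * q.2.2.2.2.1 * q.1 - tsb q.2.2.1 q.2.2.2.1 q.2.1 q.2.2.2.2.2) *
        q.1 ^ 2 - (tsa q.2.2.1 q.2.2.2.1 q.2.1 q.2.2.2.2.2 ^ 2 *
        (q.2.1 ^ 3 + q.2.2.1 * q.2.1 + q.2.2.2.1) +
        tsE1 q.2.2.1 q.2.2.2.1 q.2.1 q.2.2.2.2.2 * tsa q.2.2.1 q.2.2.2.1 q.2.1 q.2.2.2.2.2 *
          (2 * q.2.2.2.2.1 * q.1 - tsb q.2.2.1 q.2.2.2.1 q.2.1 q.2.2.2.2.2) +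
        tsE2 q.2.2.1 q.2.2.2.1 q.2.1 q.2.2.2.2.2 *
          (2 * q.2.2.2.2.1 * q.1 - tsb q.2.2.1 q.2.2.2.1 q.2.1 q.2.2.2.2.2) ^ 2 -
        tsa q.2.2.1 q.2.2.2.1 q.2.1 q.2.2.2.2.2 ^ 2 * q.2.2.2.2.1 ^ 2)))
      r0 (1, 0, 0, 0, κ) ?_ ?_ (2 * r0 * (a0 ^ 2 * z ^ 2)) ?_ ?_
      (fun q => q.1 ∈ U ∧ (2 * q.2.2.2.2.1 * q.1 - tsb q.2.2.1 q.2.2.2.1 q.2.1 q.2.2.2.2.2) /
        tsa q.2.2.1 q.2.2.2.1 q.2.1 q.2.2.2.2.2 ∈ U1 ∧
        ∃ s, s ^ 2 = (2 * q.2.2.2.2.1 * q.1 - tsb q.2.2.1 q.2.2.2.1 q.2.1 q.2.2.2.2.2) /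
        tsa q.2.2.1 q.2.2.2.1 q.2.1 q.2.2.2.2.2) ?_
    · apply TSLocal_an
      unfold tsa tsb tsE1 tsE2
      fun_prop
    · simp only
      rw [← hb0, ← ha0]
      have hb1 : b0 = -(a0 * z ^ 2) := by rw [hab, neg_neg]
      rw [hb1]
      linear_combination a0 ^ 2 * hzr - a0 ^ 2 * hFe
    · have h1 : (fun r : k => tsa 0 0 1 κ * (2 * 0 * r - tsb 0 0 1 κ) * r ^ 2 -
          (tsa 0 0 1 κ ^ 2 * (1 ^ 3 + 0 * 1 + 0) +
          tsE1 0 0 1 κ * tsa 0 0 1 κ * (2 * 0 * r - tsb 0 0 1 κ) +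
          tsE2 0 0 1 κ * (2 * 0 * r - tsb 0 0 1 κ) ^ 2 - tsa 0 0 1 κ ^ 2 * 0 ^ 2)) =
          fun r : k => r ^ 2 * (a0 ^ 2 * z ^ 2) - a0 ^ 2 * g ^ 2 := by
        funext r
        rw [← hb0, ← ha0]
        have hb1 : b0 = -(a0 * z ^ 2) := by rw [hab, neg_neg]
        rw [hb1]
        linear_combination - a0 ^ 2 * hFe
      simp only
      rw [h1]
      have h2 := (((hasDerivAt_id r0).pow 2).mul_const (a0 ^ 2 * z ^ 2)).sub_const (a0 ^ 2 * g ^ 2)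
      simpa using h2
    · exact mul_ne_zero (mul_ne_zero two_ne_zero hr00)
        (mul_ne_zero (pow_ne_zero 2 ha0n) (pow_ne_zero 2 hz0))
    · have hc : ContinuousAt (fun q : k × (k × k × k × k × k) =>
          (2 * q.2.2.2.2.1 * q.1 - tsb q.2.2.1 q.2.2.2.1 q.2.1 q.2.2.2.2.2) /
          tsa q.2.2.1 q.2.2.2.1 q.2.1 q.2.2.2.2.2) (r0, (1, 0, 0, 0, κ)) := by
        apply ContinuousAt.div
        · unfold tsb
          fun_prop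
        · unfold tsa
          fun_prop
        · simp only
          rw [← ha0]
          exact ha0n
      have hv : (2 * (0 : k) * r0 - tsb 0 0 1 κ) / tsa 0 0 1 κ = z ^ 2 := by
        rw [← hb0, ← ha0, div_eq_iff ha0n]
        linear_combination -hab
      have h1 : ∀ᶠ q : k × (k × k × k × k × k) in 𝓝 (r0, (1, 0, 0, 0, κ)), q.1 ∈ U :=
        continuousAt_fst.eventually_mem hU
      have h2 := hc.eventually_mem (s := U1) (by simp only; rw [hv]; exact hU1)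
      have h3 : ∀ᶠ y in 𝓝 ((2 * (0 : k) * r0 - tsb 0 0 1 κ) / tsa 0 0 1 κ), ∃ s : k, s ^ 2 = y := by
        rw [hv]
        exact TSLocal_sq z hz0
      have h4 := hc.eventually h3
      filter_upwards [h1, h2, h4] with q a1 a2 a3
      exact ⟨a1, a2, a3⟩
  have hzr1 : z ^ 2 * (g / z) ^ 2 = g ^ 2 := by
    field_simp
  have hzr2 : z ^ 2 * (-(g / z)) ^ 2 = g ^ 2 := by
    rw [neg_sq]
    exact hzr1
  have hca : ContinuousAt (fun p : k × k × k × k × k => tsa p.2.1 p.2.2.1 p.1 p.2.2.2.2)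
      (1, 0, 0, 0, κ) := by
    unfold tsa
    fun_prop
  have hC := hca.eventually_ne (y := (0 : k)) (by simp only; rw [← ha0]; exact ha0n)
  filter_upwards [hA, hB _ hr0 hzr1 U2 hU2, hB _ (neg_ne_zero.2 hr0) hzr2 U3 hU3, hC] with p
    hpA hpB hpC hpa hh
  obtain ⟨x, A, B, h, c⟩ := p
  obtain ⟨s, hs, hsU⟩ := hpA
  obtain ⟨r, hr, hrU, hrθ, s2, hs2⟩ := hpB
  obtain ⟨r', hr', hrU', hrθ', s3, hs3⟩ := hpC
  simp only at hs hsU hr hrθ hs2 hr' hrθ' hs3 hpa hh ⊢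
  refine ⟨hpa, ![h * s, s2, s3], fun θ => ?_⟩
  have hroot : ∀ r : k, tsa A B x c * (2 * h * r - tsb A B x c) * r ^ 2 -
      (tsa A B x c ^ 2 * (x ^ 3 + A * x + B) +
        tsE1 A B x c * tsa A B x c * (2 * h * r - tsb A B x c) +
        tsE2 A B x c * (2 * h * r - tsb A B x c) ^ 2 - tsa A B x c ^ 2 * h ^ 2) = 0 →
      tsq A B x c h ((2 * h * r - tsb A B x c) / tsa A B x c) = 0 := by
    intro r hr
    obtain ⟨y, hy⟩ : ∃ y : k, y = (2 * h * r - tsb A B x c) / tsa A B x c := ⟨_, rfl⟩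
    have hy2 : 2 * h * r - tsb A B x c = tsa A B x c * y := by
      rw [hy, mul_div_cancel₀ _ hpa]
    rw [← hy]
    rw [hy2] at hr
    have hr2 : tsa A B x c ^ 2 * (y * r ^ 2 - ((x ^ 3 + A * x + B) + tsE1 A B x c * y +
        tsE2 A B x c * y ^ 2 - h ^ 2)) = 0 := by linear_combination hr
    have hr3 := (mul_eq_zero.1 hr2).resolve_left (pow_ne_zero 2 hpa)
    unfold tsq
    have hy3 : tsa A B x c * y + tsb A B x c = 2 * h * r := by linear_combination -hy2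
    rw [hy3]
    linear_combination 4 * h ^ 2 * hr3
  have hfac := TSLocal_factor A B x c h ![(h * s) ^ 2, s2 ^ 2, s3 ^ 2]
    (by
      simp only [Matrix.cons_val_zero, Matrix.cons_val_one]
      intro heq
      rw [hs2] at heq
      exact Set.disjoint_left.1 hUd hsU (heq ▸ hrθ))
    (by
      simp only [Matrix.cons_val_zero, Matrix.cons_val]
      intro heq
      rw [hs3] at heq
      exact Set.disjoint_left.1 hUd hsU (heq ▸ hrθ'))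
    (by
      simp only [Matrix.cons_val_one, Matrix.cons_val]
      intro heq
      rw [hs2, hs3, div_left_inj' hpa] at heq
      have h1 : (2 * h) * (r - r') = 0 := by linear_combination heq
      have h2 := (mul_eq_zero.1 h1).resolve_left (mul_ne_zero two_ne_zero hh)
      have h3 : r = r' := sub_eq_zero.1 h2
      exact Set.disjoint_left.1 hUd' hrU (h3 ▸ hrU'))
    (by
      intro i
      fin_cases i
      · show tsq A B x c h ((h * s) ^ 2) = 0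
        unfold tsq
        linear_combination h ^ 2 * hs
      · show tsq A B x c h (s2 ^ 2) = 0
        rw [hs2]
        exact hroot r hr
      · show tsq A B x c h (s3 ^ 2) = 0
        rw [hs3]
        exact hroot r' hr') θ
  rw [hfac, Fin.prod_univ_three, Fin.prod_univ_three]
  rfl

end Pool.Agent.Lib.MP_1a91b9_nt
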