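import Pool.Agent.Lib.MP_1a91b9_nt.TSDefs

set_option autoImplicit false

namespace Pool.Agent.Lib.MP_1a91b9_nt

open IsDedekindDomain NumberField Polynomial IntermediateField
open scoped Topology

/-! ## TSVal -/

section TSVal

variable {L Γ : Type*} [Field L] [LinearOrderedCommGroupWithZero Γ] (V : Valuation L Γ)

private theorem TSVal_three (v2 : V 2 < 1) : V 3 = 1 := by
  have h : (3 : L) = 1 + 2 := by norm_num
  rw [h, V.map_add_eq_of_lt_left (by rw [V.map_one]; exact v2), V.map_one]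

private theorem TSVal_four : V 4 = V 2 ^ 2 := by
  rw [← map_pow]; norm_num

private theorem TSVal_eight : V 8 = V 2 ^ 3 := by
  rw [← map_pow]; norm_num

private theorem TSVal_sixteen : V 16 = V 2 ^ 4 := by
  rw [← map_pow]; norm_num

private theorem TSVal_c (v2 : V 2 < 1) (c : L) (hc : V (3 * c - 4) < V 2 ^ 3) :
    V c = V 2 ^ 2 ∧ V (c - 1) = 1 ∧ V (c - 4) = V 2 ^ 3 := by
  have h3 := TSVal_three V v2
  have h1 : V (3 * c - 4) < V 2 ^ 2 := hc.trans_le (pow_le_pow_right_of_le_one' v2.le (by norm_num))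
  have h2 : V (3 * c - 4) < 1 := h1.trans_le (pow_le_one' v2.le _)
  refine ⟨?_, ?_, ?_⟩
  · have e : V (3 * c) = V 4 := by
      have : 3 * c = (3 * c - 4) + 4 := by ring
      rw [this, V.map_add_eq_of_lt_right (by rw [TSVal_four]; exact h1)]
    rw [map_mul, h3, one_mul, TSVal_four] at e
    exact e
  · have e : V (3 * (c - 1)) = 1 := by
      have : 3 * (c - 1) = (3 * c - 4) + 1 := by ring
      rw [this, V.map_add_eq_of_lt_right (by rw [V.map_one]; exact h2), V.map_one]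
    rwa [map_mul, h3, one_mul] at e
  · have e : V (3 * (c - 4)) = V 2 ^ 3 := by
      have : 3 * (c - 4) = (3 * c - 4) + (-8) := by ring
      rw [this, V.map_add_eq_of_lt_right (by rw [V.map_neg, TSVal_eight]; exact hc), V.map_neg,
        TSVal_eight]
    rwa [map_mul, h3, one_mul] at e

private theorem TSVal_coeffs (v2 : V 2 < 1) (h20 : (2 : L) ≠ 0) (A B c : L) (hA : V A < V 2 ^ 3)
    (hB : V B < V 2 ^ 3) (hc : V (3 * c - 4) < V 2 ^ 3) :
    V (1 + A * 1 + B) = 1 ∧ V (tsa A B 1 c) = V 2 ^ 3 ∧ V (tsb A B 1 c) < V 2 ^ 3 ∧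
      V (tsE1 A B 1 c) ≤ 1 ∧ V (tsE2 A B 1 c) ≤ 1 := by
  have hp : 0 < V 2 := V.pos_iff.2 h20
  have hp3 : 0 < V 2 ^ 3 := pow_pos hp 3
  have hp31 : V 2 ^ 3 < 1 := pow_lt_one₀ hp.le v2 (by norm_num)
  obtain ⟨c1, c2, c3⟩ := TSVal_c V v2 c hc
  have hA1 : V A < 1 := hA.trans hp31
  have hB1 : V B < 1 := hB.trans hp31
  have hc1 : V c ≤ 1 := by rw [c1]; exact pow_le_one' v2.le _
  have h4 : V 4 ≤ 1 := by rw [TSVal_four]; exact pow_le_one' v2.le _
  have h4B : V (4 * B) < V 2 ^ 3 := by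
    rw [map_mul]
    exact (mul_le_of_le_one_left' h4).trans_lt hB
  refine ⟨?_, ?_, ?_, ?_, ?_⟩
  · have e : 1 + A * 1 + B = 1 + (A + B) := by ring
    rw [e]
    exact V.map_one_add_of_lt (V.map_add_lt hA1 hB1)
  · have e : tsa A B 1 c = (c - 1) ^ 2 * (c - 4) + (A * (3 * c - 4) - 4 * B) := by
      unfold tsa; ring
    have e1 : V ((c - 1) ^ 2 * (c - 4)) = V 2 ^ 3 := by
      rw [map_mul, map_pow, c2, one_pow, one_mul, c3]
    have e2 : V (A * (3 * c - 4) - 4 * B) < V 2 ^ 3 := by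
      refine V.map_sub_lt ?_ h4B
      rw [map_mul]
      exact (mul_le_of_le_one_left' hA1.le).trans_lt hc
    rw [e, V.map_add_eq_of_lt_left (by rw [e1]; exact e2), e1]
  · have e : tsb A B 1 c = (3 * c - 4) + (A * (c - 4) - 4 * B) := by
      unfold tsb; ring
    rw [e]
    refine V.map_add_lt hc (V.map_sub_lt ?_ h4B)
    rw [map_mul, c3]
    calc V A * V 2 ^ 3 ≤ V A * 1 := mul_le_mul_right hp31.le _
      _ < V 2 ^ 3 := by rw [mul_one]; exact hA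
  · obtain ⟨A', rfl⟩ : ∃ A' : V.integer, (A' : L) = A := ⟨⟨A, hA1.le⟩, rfl⟩
    obtain ⟨B', rfl⟩ : ∃ B' : V.integer, (B' : L) = B := ⟨⟨B, hB1.le⟩, rfl⟩
    obtain ⟨c', rfl⟩ : ∃ c' : V.integer, (c' : L) = c := ⟨⟨c, hc1⟩, rfl⟩
    have e : tsE1 (A' : L) (B' : L) 1 (c' : L) =
        ((6 * (1 + A' + B') - 3 * (3 + A') * c' + 3 * c' ^ 2 : V.integer) : L) := by
      have n3 : ((3 : V.integer) : L) = 3 := map_ofNat V.integer.subtype 3
      have n6 : ((6 : V.integer) : L) = 6 := map_ofNat V.integer.subtype 6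
      unfold tsE1
      push_cast
      rw [n3, n6]
      ring
    rw [e]
    exact (6 * (1 + A' + B') - 3 * (3 + A') * c' + 3 * c' ^ 2 : V.integer).2
  · obtain ⟨A', rfl⟩ : ∃ A' : V.integer, (A' : L) = A := ⟨⟨A, hA1.le⟩, rfl⟩
    obtain ⟨B', rfl⟩ : ∃ B' : V.integer, (B' : L) = B := ⟨⟨B, hB1.le⟩, rfl⟩
    obtain ⟨c', rfl⟩ : ∃ c' : V.integer, (c' : L) = c := ⟨⟨c, hc1⟩, rfl⟩
    have e : tsE2 (A' : L) (B' : L) 1 (c' : L) =
        (((1 + A' + B') - (3 + A') * c' + 3 * c' ^ 2 - c' ^ 3 : V.integer) : L) := by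
      have n3 : ((3 : V.integer) : L) = 3 := map_ofNat V.integer.subtype 3
      unfold tsE2
      push_cast
      rw [n3]
      ring
    rw [e]
    exact ((1 + A' + B') - (3 + A') * c' + 3 * c' ^ 2 - c' ^ 3 : V.integer).2

/-- the normalised statement, abstract coefficients -/
private theorem TSVal_core (v2 : V 2 < 1) (h20 : (2 : L) ≠ 0) (f a b e₁ e₂ c H θ : L)
    (hf : V f = 1) (ha : V a = V 2 ^ 3) (hb : V b < V 2 ^ 3) (he1 : V e₁ ≤ 1) (he2 : V e₂ ≤ 1)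
    (hc : V c = V 2 ^ 2) (hH0 : H ≠ 0) (hH : V H < V 2 ^ 4)
    (hq : θ * (a * θ + b) ^ 2 = 4 * H * (f + e₁ * θ + e₂ * θ ^ 2 - H)) :
    θ ≠ 0 ∧ V θ < 1 ∧
      1 < V ((4 * H + (a * θ + b) * (1 + θ)) ^ 2 / (4 * c ^ 2 * H * (1 - θ) ^ 2) - 2 -
        2 * c * θ / (1 - θ)) ∧
      1 < V ((H * (1 + θ) + θ * (a * θ + b)) ^ 2 / (H * c ^ 2 * θ * (1 - θ) ^ 2) - 2 -
        2 * c * θ / (1 - θ)) := by
  have hp : 0 < V 2 := V.pos_iff.2 h20
  have hH1 : V H < 1 := hH.trans_le (pow_le_one' v2.le _)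
  have hHp : 0 < V H := V.pos_iff.2 hH0
  have hV4 : V 4 = V 2 ^ 2 := TSVal_four V
  have hp2 : 0 < V 2 ^ 2 := pow_pos hp 2
  have hθ1 : V θ < 1 := by
    by_contra hcon
    rw [not_lt] at hcon
    have hθp : 0 < V θ := zero_lt_one.trans_le hcon
    have hw : V (a * θ + b) = V 2 ^ 3 * V θ := by
      have h1 : V (a * θ) = V 2 ^ 3 * V θ := by rw [map_mul, ha]
      rw [V.map_add_eq_of_lt_left, h1]
      rw [h1]
      exact hb.trans_le (le_mul_of_one_le_right' hcon)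
    have h1 : V (f + e₁ * θ + e₂ * θ ^ 2 - H) ≤ V θ ^ 2 := by
      have h2 : 1 ≤ V θ ^ 2 := one_le_pow_of_one_le' hcon 2
      refine V.map_sub_le (V.map_add_le (V.map_add_le ?_ ?_) ?_) (hH1.le.trans h2)
      · rw [hf]; exact h2
      · rw [map_mul]
        refine (mul_le_of_le_one_left' he1).trans ?_
        rw [sq]
        exact le_mul_of_one_le_right' hcon
      · rw [map_mul, map_pow]
        exact mul_le_of_le_one_left' he2
    have h2 : V θ * (V 2 ^ 3 * V θ) ^ 2 ≤ V 2 ^ 2 * V H * V θ ^ 2 := by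
      have h3 := congrArg V hq
      rw [map_mul, map_pow, hw, map_mul, map_mul, hV4] at h3
      rw [h3]
      exact mul_le_mul_right h1 _
    have h3 : V 2 ^ 2 * V θ ^ 2 * (V 2 ^ 4 * V θ) ≤ V 2 ^ 2 * V θ ^ 2 * V H := by
      calc V 2 ^ 2 * V θ ^ 2 * (V 2 ^ 4 * V θ) = V θ * (V 2 ^ 3 * V θ) ^ 2 := by
            simp only [← map_mul, ← map_pow]; exact congrArg V (by ring)
        _ ≤ V 2 ^ 2 * V H * V θ ^ 2 := h2
        _ = V 2 ^ 2 * V θ ^ 2 * V H := mul_right_comm _ _ _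
    have h4 : V 2 ^ 4 * V θ ≤ V H := le_of_mul_le_mul_left h3 (mul_pos hp2 (pow_pos hθp 2))
    exact absurd (h4.trans_lt hH) (not_lt.2 (le_mul_of_one_le_right' hcon))
  have hFe : V (f + e₁ * θ + e₂ * θ ^ 2 - H) = 1 := by
    have h1 : f + e₁ * θ + e₂ * θ ^ 2 - H = f + (e₁ * θ + e₂ * θ ^ 2 - H) := by ring
    have h2 : V (e₁ * θ + e₂ * θ ^ 2 - H) < 1 := by
      refine V.map_sub_lt (V.map_add_lt ?_ ?_) hH1
      · rw [map_mul]
        exact (mul_le_of_le_one_left' he1).trans_lt hθ1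
      · rw [map_mul, map_pow]
        exact (mul_le_of_le_one_left' he2).trans_lt (pow_lt_one' hθ1 (by norm_num))
    rw [h1, V.map_add_eq_of_lt_left (by rw [hf]; exact h2), hf]
  have hE : V θ * V (a * θ + b) ^ 2 = V 2 ^ 2 * V H := by
    have h3 := congrArg V hq
    rw [map_mul, map_pow, map_mul, map_mul, hV4, hFe, mul_one] at h3
    exact h3
  have hθ0 : θ ≠ 0 := by
    rintro rfl
    rw [map_zero, zero_mul] at hE
    exact (mul_pos hp2 hHp).ne hE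
  have hθp : 0 < V θ := V.pos_iff.2 hθ0
  have hwlt : V (a * θ + b) < V 2 ^ 3 := by
    refine V.map_add_lt ?_ hb
    rw [map_mul, ha]
    calc V 2 ^ 3 * V θ < V 2 ^ 3 * 1 := mul_lt_mul_of_pos_left hθ1 (pow_pos hp 3)
      _ = V 2 ^ 3 := mul_one _
  have hHθ : V H < V 2 ^ 4 * V θ := by
    have h1 : V 2 ^ 2 * V H < V 2 ^ 2 * (V 2 ^ 4 * V θ) := by
      calc V 2 ^ 2 * V H = V θ * V (a * θ + b) ^ 2 := hE.symm
        _ < V θ * (V 2 ^ 3) ^ 2 := mul_lt_mul_of_pos_left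
            (pow_lt_pow_left₀ hwlt zero_le (by norm_num)) hθp
        _ = V 2 ^ 2 * (V 2 ^ 4 * V θ) := by
            simp only [← map_mul, ← map_pow]; exact congrArg V (by ring)
    exact lt_of_mul_lt_mul_left' h1
  have h1θ : V (1 - θ) = 1 := V.map_one_sub_of_lt hθ1
  have h1θ' : V (1 + θ) = 1 := V.map_one_add_of_lt hθ1
  have hsm : V (2 * c * θ / (1 - θ)) ≤ 1 := by
    rw [map_div₀, h1θ, div_one, map_mul, map_mul]
    refine mul_le_one' (mul_le_one' v2.le ?_) hθ1.le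
    rw [hc]; exact pow_le_one' v2.le _
  have hfin : ∀ X : L, 1 < V X → 1 < V (X - 2 - 2 * c * θ / (1 - θ)) := by
    intro X hX
    have e : X - 2 - 2 * c * θ / (1 - θ) = X - (2 + 2 * c * θ / (1 - θ)) := by ring
    rw [e, V.map_sub_eq_of_lt_left]
    · exact hX
    · exact (V.map_add_le v2.le hsm).trans_lt hX
  refine ⟨hθ0, hθ1, hfin _ ?_, hfin _ ?_⟩
  · -- the sum
    have hw2 : V 2 ^ 2 * V H < V (a * θ + b) ^ 2 := by
      rw [← hE]
      calc V θ * V (a * θ + b) ^ 2 < 1 * V (a * θ + b) ^ 2 := by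
            refine mul_lt_mul_of_pos_right hθ1 ?_
            refine pow_pos ?_ 2
            rw [V.pos_iff]
            intro h0
            rw [h0, map_zero, zero_pow (by norm_num), mul_zero] at hE
            exact (mul_pos hp2 hHp).ne hE
        _ = V (a * θ + b) ^ 2 := one_mul _
    have h4H : V (4 * H) < V ((a * θ + b) * (1 + θ)) := by
      rw [map_mul, map_mul, h1θ', mul_one, hV4]
      refine lt_of_pow_lt_pow_left' 2 (lt_of_le_of_lt ?_ hw2)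
      calc (V 2 ^ 2 * V H) ^ 2 = V 2 ^ 2 * V H * (V 2 ^ 2 * V H) := sq _
        _ ≤ V 2 ^ 2 * V H * 1 := mul_le_mul_right (mul_le_one' (pow_le_one' v2.le _) hH1.le) _
        _ = V 2 ^ 2 * V H := mul_one _
    have hnum : V (4 * H + (a * θ + b) * (1 + θ)) = V (a * θ + b) := by
      rw [V.map_add_eq_of_lt_right h4H, map_mul, h1θ', mul_one]
    rw [map_div₀, map_pow, hnum, map_mul, map_mul, map_mul, map_pow, map_pow, h1θ, one_pow,
      mul_one, hc, hV4]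
    have hden : 0 < V 2 ^ 2 * (V 2 ^ 2) ^ 2 * V H := mul_pos (mul_pos hp2 (pow_pos hp2 2)) hHp
    rw [one_lt_div₀ hden]
    refine lt_of_le_of_lt ?_ hw2
    calc V 2 ^ 2 * (V 2 ^ 2) ^ 2 * V H ≤ V 2 ^ 2 * 1 * V H := by
          refine mul_le_mul_left (mul_le_mul_right (pow_le_one' (pow_le_one' v2.le _) _) _) _
      _ = V 2 ^ 2 * V H := by rw [mul_one]
  · -- the difference
    have hθw : V (θ * (a * θ + b)) ^ 2 = V θ * (V 2 ^ 2 * V H) := by
      rw [map_mul, mul_pow, ← hE, sq (V θ), mul_assoc]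
    have hlt : V (H * (1 + θ)) < V (θ * (a * θ + b)) := by
      refine lt_of_pow_lt_pow_left' 2 ?_
      rw [hθw, map_mul, h1θ', mul_one]
      calc V H ^ 2 = V H * V H := sq _
        _ < V H * (V 2 ^ 4 * V θ) := mul_lt_mul_of_pos_left hHθ hHp
        _ ≤ V H * (V 2 ^ 2 * V θ) := by
            refine mul_le_mul_right (mul_le_mul_left ?_ _) _
            exact pow_le_pow_right_of_le_one' v2.le (by norm_num)
        _ = V θ * (V 2 ^ 2 * V H) := by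
            simp only [← map_mul, ← map_pow]; exact congrArg V (by ring)
    rw [map_div₀, map_pow, V.map_add_eq_of_lt_right hlt, hθw, map_mul, map_mul, map_mul, map_pow,
      map_pow, h1θ, one_pow, mul_one, hc]
    have hden : 0 < V H * (V 2 ^ 2) ^ 2 * V θ := mul_pos (mul_pos hHp (pow_pos hp2 2)) hθp
    rw [one_lt_div₀ hden]
    have h1 : 0 < V H * V 2 ^ 2 * V θ := mul_pos (mul_pos hHp hp2) hθp
    calc V H * (V 2 ^ 2) ^ 2 * V θ = (V H * V 2 ^ 2 * V θ) * V 2 ^ 2 := by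
          simp only [← map_mul, ← map_pow]; exact congrArg V (by ring)
      _ < (V H * V 2 ^ 2 * V θ) * 1 :=
          mul_lt_mul_of_pos_left (pow_lt_one' v2 (by norm_num)) h1
      _ = V θ * (V 2 ^ 2 * V H) := by
          rw [mul_one]
          simp only [← map_mul, ← map_pow]
          exact congrArg V (by ring)

end TSVal

theorem ts_val {L Γ : Type*} [Field L] [LinearOrderedCommGroupWithZero Γ] (V : Valuation L Γ)
    (v2 : V 2 < 1) (h20 : (2 : L) ≠ 0) (A B x c h : L) (hx : x ≠ 0) (hh : h ≠ 0)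
    (hA : V A < V 8 * V x ^ 2) (hB : V B < V 8 * V x ^ 3)
    (hc : V (3 * c - 4 * x) < V 8 * V x) (hhx : V h ^ 2 < V 16 * V x ^ 3) (t : L)
    (ht : tsq A B x c h (t ^ 2) = 0) :
    t ≠ 0 ∧ V t < 1 ∧ V x < V (tsXR A B x c h (t ^ 2)) ∧ V x < V (tsXU A B x c h t) := by
  have hVx : 0 < V x := V.pos_iff.2 hx
  have hA' : V (A / x ^ 2) < V 2 ^ 3 := by
    rw [map_div₀, map_pow, div_lt_iff₀ (pow_pos hVx 2), ← TSVal_eight]
    exact hA
  have hB' : V (B / x ^ 3) < V 2 ^ 3 := by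
    rw [map_div₀, map_pow, div_lt_iff₀ (pow_pos hVx 3), ← TSVal_eight]
    exact hB
  have hc' : V (3 * (c / x) - 4) < V 2 ^ 3 := by
    have e : 3 * (c / x) - 4 = (3 * c - 4 * x) / x := by field_simp
    rw [e, map_div₀, div_lt_iff₀ hVx, ← TSVal_eight]
    exact hc
  have hH' : V (h ^ 2 / x ^ 3) < V 2 ^ 4 := by
    rw [map_div₀, map_pow, map_pow, div_lt_iff₀ (pow_pos hVx 3), ← TSVal_sixteen]
    exact hhx
  have hH0 : h ^ 2 / x ^ 3 ≠ 0 := div_ne_zero (pow_ne_zero _ hh) (pow_ne_zero _ hx)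
  obtain ⟨k1, k2, k3, k4, k5⟩ := TSVal_coeffs V v2 h20 _ _ _ hA' hB' hc'
  obtain ⟨c1, c2, c3⟩ := TSVal_c V v2 _ hc'
  have ea : tsa A B x c = x ^ 3 * tsa (A / x ^ 2) (B / x ^ 3) 1 (c / x) := by
    unfold tsa; field_simp
  have eb : tsb A B x c = x ^ 3 * tsb (A / x ^ 2) (B / x ^ 3) 1 (c / x) := by
    unfold tsb; field_simp
  have e1 : tsE1 A B x c = x ^ 3 * tsE1 (A / x ^ 2) (B / x ^ 3) 1 (c / x) := by
    unfold tsE1; field_simp
  have e2 : tsE2 A B x c = x ^ 3 * tsE2 (A / x ^ 2) (B / x ^ 3) 1 (c / x) := by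
    unfold tsE2; field_simp
  have ef : x ^ 3 + A * x + B = x ^ 3 * (1 + (A / x ^ 2) * 1 + B / x ^ 3) := by
    field_simp
  have hq : t ^ 2 * (tsa (A / x ^ 2) (B / x ^ 3) 1 (c / x) * t ^ 2 +
      tsb (A / x ^ 2) (B / x ^ 3) 1 (c / x)) ^ 2 = 4 * (h ^ 2 / x ^ 3) *
      ((1 + (A / x ^ 2) * 1 + B / x ^ 3) + tsE1 (A / x ^ 2) (B / x ^ 3) 1 (c / x) * t ^ 2 +
        tsE2 (A / x ^ 2) (B / x ^ 3) 1 (c / x) * (t ^ 2) ^ 2 - h ^ 2 / x ^ 3) := by
    unfold tsq at ht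
    rw [ea, eb, e1, e2, ef] at ht
    have hx6 : x ^ 6 ≠ 0 := pow_ne_zero _ hx
    refine mul_left_cancel₀ hx6 ?_
    have e4 : x ^ 6 * (4 * (h ^ 2 / x ^ 3) *
      ((1 + (A / x ^ 2) * 1 + B / x ^ 3) + tsE1 (A / x ^ 2) (B / x ^ 3) 1 (c / x) * t ^ 2 +
        tsE2 (A / x ^ 2) (B / x ^ 3) 1 (c / x) * (t ^ 2) ^ 2 - h ^ 2 / x ^ 3)) =
        4 * h ^ 2 * (x ^ 3 * (1 + (A / x ^ 2) * 1 + B / x ^ 3) +
          x ^ 3 * tsE1 (A / x ^ 2) (B / x ^ 3) 1 (c / x) * t ^ 2 +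
          x ^ 3 * tsE2 (A / x ^ 2) (B / x ^ 3) 1 (c / x) * (t ^ 2) ^ 2 - h ^ 2) := by
      field_simp
    rw [e4]
    linear_combination ht
  obtain ⟨r1, r2, r3, r4⟩ := TSVal_core V v2 h20 _ _ _ _ _ _ _ (t ^ 2) k1 k2 k3 k4 k5 c1 hH0 hH' hq
  have ht0 : t ≠ 0 := fun h0 => r1 (by rw [h0]; ring)
  have hVt : V t < 1 := by
    rw [map_pow] at r2
    by_contra hcon
    exact absurd r2 (not_lt.2 (one_le_pow_of_one_le' (not_lt.1 hcon) 2))
  have h1t : 1 - t ^ 2 ≠ 0 := by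
    intro h0
    have h1 : t ^ 2 = 1 := (sub_eq_zero.1 h0).symm
    rw [h1, map_one] at r2
    exact lt_irrefl _ r2
  have hc0 : c ≠ 0 := by
    rintro rfl
    rw [zero_div, map_zero] at c1
    exact (pow_pos (V.pos_iff.2 h20) 2).ne c1
  have h40 : (4 : L) ≠ 0 := by
    have : (4 : L) = 2 * 2 := by norm_num
    rw [this]
    exact mul_ne_zero h20 h20
  refine ⟨ht0, hVt, ?_, ?_⟩
  · have e : tsXR A B x c h (t ^ 2) = x * ((4 * (h ^ 2 / x ^ 3) +
        (tsa (A / x ^ 2) (B / x ^ 3) 1 (c / x) * t ^ 2 + tsb (A / x ^ 2) (B / x ^ 3) 1 (c / x)) *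
          (1 + t ^ 2)) ^ 2 / (4 * (c / x) ^ 2 * (h ^ 2 / x ^ 3) * (1 - t ^ 2) ^ 2) - 2 -
        2 * (c / x) * t ^ 2 / (1 - t ^ 2)) := by
      unfold tsXR tsL
      rw [ea, eb]
      generalize tsa (A / x ^ 2) (B / x ^ 3) 1 (c / x) = a'
      generalize tsb (A / x ^ 2) (B / x ^ 3) 1 (c / x) = b'
      field_simp
      ring
    rw [e, map_mul]
    calc V x = V x * 1 := (mul_one _).symm
      _ < _ := mul_lt_mul_of_pos_left r3 hVx
  · have e : tsXU A B x c h t = x * (((h ^ 2 / x ^ 3) * (1 + t ^ 2) + t ^ 2 *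
        (tsa (A / x ^ 2) (B / x ^ 3) 1 (c / x) * t ^ 2 + tsb (A / x ^ 2) (B / x ^ 3) 1 (c / x))) ^ 2
          / ((h ^ 2 / x ^ 3) * (c / x) ^ 2 * t ^ 2 * (1 - t ^ 2) ^ 2) - 2 -
        2 * (c / x) * t ^ 2 / (1 - t ^ 2)) := by
      unfold tsXU
      rw [ea, eb]
      generalize tsa (A / x ^ 2) (B / x ^ 3) 1 (c / x) = a'
      generalize tsb (A / x ^ 2) (B / x ^ 3) 1 (c / x) = b'
      field_simp
    rw [e, map_mul]
    calc V x = V x * 1 := (mul_one _).symm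
      _ < _ := mul_lt_mul_of_pos_left r4 hVx

end Pool.Agent.Lib.MP_1a91b9_nt
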