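import Pool.Agent.Lib.MP_1a91b9_nt.TSDefs
import Pool.Agent.Lib.MP_1a91b9_nt.TSVal
import Pool.Agent.Lib.MP_1a91b9_nt.TSAdd
import Pool.Agent.Lib.MP_1a91b9_nt.S4NT

/-!
# The six points are not torsion
-/

set_option autoImplicit false

namespace Pool.Agent.Lib.MP_1a91b9_nt

open IsDedekindDomain NumberField Polynomial IntermediateField
open scoped Topology

theorem ts_nt {L Γ : Type*} [Field L] [CharZero L] [DecidableEq L]
    [LinearOrderedCommGroupWithZero Γ] (v : Valuation L Γ)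
    (v2 : v 2 < 1) (V : WeierstrassCurve.Affine L)
    (hell : WeierstrassCurve.IsElliptic V) (h1 : V.a₁ = 0) (h2 : V.a₂ = 0) (h3 : V.a₃ = 0)
    (x c h : L) (hh : h ≠ 0) (hc0 : c ≠ 0) (hx1 : 1 < v x) (hA1 : v V.a₄ < v x)
    (hB1 : v V.a₆ < v x) (hA : v V.a₄ < v 8 * v x ^ 2) (hB : v V.a₆ < v 8 * v x ^ 3)
    (hc : v (3 * c - 4 * x) < v 8 * v x) (hhx : v h ^ 2 < v 16 * v x ^ 3) (t : L)
    (ht : tsq V.a₄ V.a₆ x c h (t ^ 2) = 0) (n : ℕ) (hn : n ≠ 0) :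
    n • (tsPt V x c h t + tsPt V x c h (-t)) ≠ 0 ∧
      n • (tsPt V x c h t - tsPt V x c h (-t)) ≠ 0 := by
  have h20 : (2 : L) ≠ 0 := two_ne_zero
  have hx0 : x ≠ 0 := by
    rintro rfl
    rw [map_zero] at hx1
    exact absurd hx1 (not_lt.2 zero_le_one)
  obtain ⟨ht0, ht1, hR, hU⟩ := ts_val v v2 h20 V.a₄ V.a₆ x c h hx0 hh hA hB hc hhx t ht
  have ht2 : 1 - t ^ 2 ≠ 0 := by
    intro h0
    have h4 : t ^ 2 = 1 := (sub_eq_zero.1 h0).symm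
    have h5 : v t ^ 2 = 1 := by rw [← map_pow, h4, map_one]
    have h6 : v t ^ 2 < 1 := pow_lt_one₀ zero_le ht1 two_ne_zero
    exact absurd h5 h6.ne
  constructor
  · obtain ⟨m, hm⟩ := ts_add V hell h1 h2 h3 x c h t hc0 hh ht0 ht2 ht
    rw [hm]
    exact nt_short v v2 h20 V h1 h2 h3 _ _ m (hx1.trans hR) (hA1.trans hR) (hB1.trans hR) n hn
  · obtain ⟨y, m, hm⟩ := ts_sub V hell h1 h2 h3 x c h t hc0 hh ht0 ht2 ht
    rw [hm]
    exact nt_short v v2 h20 V h1 h2 h3 _ _ m (hx1.trans hU) (hA1.trans hU) (hB1.trans hU) n hn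

end Pool.Agent.Lib.MP_1a91b9_nt
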