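import Pool.Agent.Lib.MP_1a91b9_nt.Select
import Pool.Agent.Lib.MP_1a91b9_nt.Ramified

/-!
# TSPlaces: primes with exact valuations
-/

set_option autoImplicit false

namespace Pool.Agent.Lib.MP_1a91b9_nt

open IsDedekindDomain NumberField Polynomial IntermediateField
open scoped Topology

universe u

theorem ts_finite_support (F : Type u) [Field F] [NumberField F] (x : F) (hx : x ≠ 0) :
    ∃ S : Finset (HeightOneSpectrum (𝓞 F)), ∀ p ∉ S, p.valuation F x = 1 := by
  classical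
  have h1 := HeightOneSpectrum.Support.finite (𝓞 F) x
  have h2 := HeightOneSpectrum.Support.finite (𝓞 F) x⁻¹
  refine ⟨h1.toFinset ∪ h2.toFinset, fun p hp => ?_⟩
  rw [Finset.mem_union, not_or, Set.Finite.mem_toFinset, Set.Finite.mem_toFinset] at hp
  obtain ⟨ha, hb⟩ := hp
  have ha' : p.valuation F x ≤ 1 := not_lt.1 ha
  have hb' : p.valuation F x⁻¹ ≤ 1 := not_lt.1 hb
  have hv0 : p.valuation F x ≠ 0 := (Valuation.ne_zero_iff _).2 hx
  refine le_antisymm ha' ?_
  rw [map_inv₀] at hb'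
  exact (inv_le_one₀ (zero_lt_iff.2 hv0)).1 hb'

theorem ts_unram (F N : Type u) [Field F] [NumberField F] [Field N] [NumberField N] [Algebra F N]
    [IsGalois F N] : ∃ S : Finset (HeightOneSpectrum (𝓞 F)), ∀ p ∉ S,
      ∃ P : HeightOneSpectrum (𝓞 N), ∀ x : F,
        P.valuation N (algebraMap F N x) = p.valuation F x := by
  classical
  refine ⟨(finite_ramified F N).toFinset, fun p hp => ?_⟩
  rw [Set.Finite.mem_toFinset] at hp
  have hp' : Ideal.ramificationIdxIn p.asIdeal (𝓞 N) = 1 := not_not.1 hp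
  have hex : ∃ P : Ideal (𝓞 N), P.IsPrime ∧ P.LiesOver p.asIdeal := by
    obtain ⟨P, h1, h2⟩ := Ideal.nonempty_primesOver (S := 𝓞 N) p.asIdeal
    exact ⟨P, h1, h2⟩
  rw [Ideal.ramificationIdxIn, dif_pos hex] at hp'
  obtain ⟨h1, h2⟩ := hex.choose_spec
  have hQ0 : hex.choose ≠ ⊥ := Ideal.ne_bot_of_liesOver_of_ne_bot p.ne_bot hex.choose
  let P : HeightOneSpectrum (𝓞 N) := ⟨hex.choose, h1, hQ0⟩
  have hPp : P.asIdeal.LiesOver p.asIdeal := h2
  refine ⟨P, fun x => ?_⟩
  rw [← HeightOneSpectrum.valuation_liesOver N p P x]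
  have h3 : p.asIdeal.ramificationIdx' P.asIdeal = 1 := by
    rw [Ideal.ramificationIdx'_eq_ramificationIdx p.asIdeal P.asIdeal p.ne_bot]
    exact hp'
  rw [h3, pow_one]

private theorem tsplaces_val {F : Type u} [Field F] [NumberField F]
    (p : HeightOneSpectrum (𝓞 F)) (T : 𝓞 F) (h1 : T ∈ p.asIdeal)
    (h2 : T ∉ p.asIdeal ^ 2) : p.valuation F (algebraMap (𝓞 F) F T) = WithZero.exp (-1 : ℤ) := by
  have h0 : T ≠ 0 := by
    rintro rfl
    exact h2 (Ideal.zero_mem _)
  rw [HeightOneSpectrum.valuation_of_algebraMap]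
  have hw : p.intValuation T ≠ 0 := p.intValuation_ne_zero T h0
  obtain ⟨a, ha⟩ : ∃ a : ℤ, p.intValuation T = WithZero.exp a :=
    ⟨_, (WithZero.exp_log hw).symm⟩
  rw [← pow_one p.asIdeal, ← p.intValuation_le_pow_iff_mem T 1, ha, WithZero.exp_le_exp] at h1
  rw [← p.intValuation_le_pow_iff_mem T 2, ha, WithZero.exp_le_exp] at h2
  rw [ha, WithZero.exp_inj]
  push_cast at h1 h2
  omega

/-- A nonzero integral element lying in all primes of a finite set. -/
private theorem tsplaces_alpha {F : Type u} [Field F] [NumberField F]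
    (S : Finset (HeightOneSpectrum (𝓞 F))) :
    ∃ α : 𝓞 F, α ≠ 0 ∧ ∀ p ∈ S, α ∈ p.asIdeal := by
  classical
  have h0 : ∏ p ∈ S, p.asIdeal ≠ ⊥ := Finset.prod_ne_zero_iff.2 fun p _ => p.ne_bot
  obtain ⟨α, hα, hα0⟩ := Submodule.exists_mem_ne_zero_of_ne_bot h0
  refine ⟨α, hα0, fun p hp => ?_⟩
  exact (Ideal.prod_le_inf.trans (Finset.inf_le hp)) hα

/-- The general statement for a quadratic polynomial `1 + l t + k t ^ 2`. -/
private theorem tsplaces_quad {F : Type u} [Field F] [NumberField F] (l k : 𝓞 F)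
    (hN : l ^ 2 - 4 * k ≠ 0) (S : Finset (HeightOneSpectrum (𝓞 F))) :
    ∃ p ∉ S, ∃ t : 𝓞 F,
      p.valuation F (algebraMap (𝓞 F) F (1 + l * t + k * t ^ 2)) = WithZero.exp (-1 : ℤ) := by
  obtain ⟨α, hα0, hα⟩ := tsplaces_alpha S
  let T : (𝓞 F)[X] := C k * X ^ 2 + C l * X + C 1
  have hev : ∀ t, T.eval t = 1 + l * t + k * t ^ 2 := by
    intro t
    simp only [T, eval_add, eval_mul, eval_C, eval_pow, eval_X]
    ring
  have hdev : ∀ t, (derivative T).eval t = l + 2 * k * t := by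
    intro t
    simp [T]
    ring
  have hd : T.natDegree ≠ 0 := by
    intro hd
    obtain ⟨c, hc⟩ := natDegree_eq_zero.1 hd
    have h2 : T.coeff 2 = k := by simp [T, coeff_one]
    have h1 : T.coeff 1 = l := by simp [T, coeff_one]
    rw [← hc, coeff_C_of_ne_zero (by norm_num)] at h1 h2
    apply hN
    rw [← h1, ← h2]
    ring
  have h0 : T.coeff 0 = 1 := by simp [T]
  obtain ⟨p, t, -, hαp, hp1, hp2⟩ := select_exists_exact T h0 hd (l ^ 2 - 4 * k) hN
    (by
      intro P _ t h1 h2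
      rw [hev] at h1
      rw [hdev] at h2
      have e : l ^ 2 - 4 * k = (l + 2 * k * t) * (l + 2 * k * t) -
          4 * k * (1 + l * t + k * t ^ 2) := by ring
      rw [e]
      exact P.sub_mem (P.mul_mem_left _ h2) (P.mul_mem_left _ h1)) α hα0
  refine ⟨p, fun h => hαp (hα p h), t, ?_⟩
  rw [← hev]
  exact tsplaces_val p _ hp1 hp2

theorem ts_place_i (F : Type u) [Field F] [NumberField F] (S : Finset (HeightOneSpectrum (𝓞 F))) :
    ∃ p ∉ S, ∃ m : F, p.valuation F m ≤ 1 ∧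
      p.valuation F (1 + m ^ 2) = WithZero.exp (-1 : ℤ) := by
  obtain ⟨p, hp, t, ht⟩ := tsplaces_quad (F := F) 0 1 (by
    simp only [ne_eq, OfNat.ofNat_ne_zero, not_false_eq_true, zero_pow, mul_one, zero_sub,
      neg_eq_zero]) S
  refine ⟨p, hp, algebraMap (𝓞 F) F t, HeightOneSpectrum.valuation_le_one _ _, ?_⟩
  rw [← ht]
  congr 1
  simp

theorem ts_place_h (F : Type u) [Field F] [NumberField F] (h j : F) (hne : h ^ 2 + j ^ 2 ≠ 0)
    (S : Finset (HeightOneSpectrum (𝓞 F))) :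
    ∃ p ∉ S, ∃ m : F, p.valuation F m ≤ 1 ∧
      p.valuation F (h * (1 - m ^ 2) - 2 * j * m) = WithZero.exp (-1 : ℤ) := by
  classical
  let φ : 𝓞 F →+* F := algebraMap (𝓞 F) F
  have hφinj : Function.Injective φ := FaithfulSMul.algebraMap_injective (𝓞 F) F
  have hm0 : ∃ m0 : 𝓞 F, h * (1 - (φ m0) ^ 2) - 2 * j * φ m0 ≠ 0 := by
    by_cases hh : h = 0
    · refine ⟨1, ?_⟩
      intro h1
      apply hne
      have hj : j = 0 := by
        have h2 : (2 : F) * j = 0 := by
          rw [map_one] at h1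
          linear_combination -h1
        exact (mul_eq_zero.1 h2).resolve_left two_ne_zero
      rw [hh, hj]
      ring
    · refine ⟨0, ?_⟩
      rw [map_zero]
      simpa using hh
  obtain ⟨m0, hm0⟩ := hm0
  set n0 : F := h * (1 - (φ m0) ^ 2) - 2 * j * φ m0 with hn0
  set n1 : F := -2 * h * φ m0 - 2 * j with hn1
  obtain ⟨⟨d, hd⟩, hdint⟩ := IsLocalization.exist_integer_multiples_of_finset
    (nonZeroDivisors (𝓞 F)) ({n1 / n0, h / n0} : Finset F)
  have hd0 : φ d ≠ 0 := by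
    have : d ≠ 0 := nonZeroDivisors.ne_zero hd
    exact (map_ne_zero_iff φ hφinj).2 this
  obtain ⟨l, hl⟩ := hdint (n1 / n0) (by simp)
  obtain ⟨k, hk⟩ := hdint (h / n0) (by simp)
  have hl' : φ l = φ d * (n1 / n0) := by
    have : φ l = (algebraMap (𝓞 F) F) l := rfl
    rw [this, hl, Algebra.smul_def]
  have hk' : φ k = φ d * (h / n0) := by
    have : φ k = (algebraMap (𝓞 F) F) k := rfl
    rw [this, hk, Algebra.smul_def]
  have h4F : (4 : F) ≠ 0 := by
    have : (4 : F) = 2 * 2 := by norm_num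
    rw [this]
    exact mul_ne_zero two_ne_zero two_ne_zero
  have hN : l ^ 2 - 4 * (-(d * k)) ≠ 0 := by
    intro h0
    have h2 : (φ l) ^ 2 + 4 * (φ d * φ k) = 0 := by
      have h3 := congrArg φ h0
      rw [map_sub, map_pow, map_mul, map_neg, map_mul, map_zero, map_ofNat] at h3
      linear_combination h3
    rw [hl', hk'] at h2
    have h4 : (φ d) ^ 2 * 4 * (h ^ 2 + j ^ 2) = 0 := by
      have h5 : (φ d * (n1 / n0)) ^ 2 + 4 * (φ d * (φ d * (h / n0))) =
          (φ d) ^ 2 * (n1 ^ 2 + 4 * h * n0) / n0 ^ 2 := by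
        field_simp
      rw [h5, div_eq_zero_iff] at h2
      rcases h2 with h2 | h2
      · rw [hn1, hn0] at h2
        linear_combination h2
      · exact absurd h2 (pow_ne_zero _ hm0)
    rcases mul_eq_zero.1 h4 with h5 | h5
    · rcases mul_eq_zero.1 h5 with h6 | h6
      · exact hd0 ((pow_eq_zero_iff (two_ne_zero)).1 h6)
      · exact h4F h6
    · exact hne h5
  obtain ⟨S', hS'⟩ := ts_finite_support F n0 hm0
  obtain ⟨p, hp, t, ht⟩ := tsplaces_quad l (-(d * k)) hN (S ∪ S')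
  rw [Finset.mem_union, not_or] at hp
  refine ⟨p, hp.1, φ (m0 + d * t), HeightOneSpectrum.valuation_le_one _ _, ?_⟩
  have hval : h * (1 - (φ (m0 + d * t)) ^ 2) - 2 * j * (φ (m0 + d * t)) =
      n0 * φ (1 + l * t + -(d * k) * t ^ 2) := by
    simp only [map_add, map_mul, map_one, map_neg, map_pow]
    rw [hl', hk']
    have e : n0 * (1 + φ d * (n1 / n0) * φ t + -(φ d * (φ d * (h / n0))) * φ t ^ 2) =
        n0 + φ d * n1 * φ t - φ d * φ d * h * φ t ^ 2 := by
      field_simp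
      ring
    rw [e, hn0, hn1]
    ring
  rw [hval, map_mul, hS' p hp.2, one_mul]
  exact ht

end Pool.Agent.Lib.MP_1a91b9_nt
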