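import Pool.Agent.Lib.MP_1a91b9_nt.TSDefs

set_option autoImplicit false

namespace Pool.Agent.Lib.MP_1a91b9_nt

open IsDedekindDomain NumberField Polynomial IntermediateField

private theorem tsQSplit_expand {M : Type*} [Field M] (A B x c h j θ : M) (ha : tsa A B x c ≠ 0)
    (hE : x ^ 3 + A * x + B = h ^ 2 + j ^ 2) :
    tsq A B x c h θ = tsa A B x c ^ 2 * (θ ^ 3 - tse1 A B x c h * θ ^ 2 + tse2 A B x c h * θ) -
      4 * h ^ 2 * j ^ 2 := by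
  have e1 : tsa A B x c ^ 2 * tse1 A B x c h =
      4 * h ^ 2 * tsE2 A B x c - 2 * tsa A B x c * tsb A B x c := by
    rw [tse1, mul_div_cancel₀ _ (pow_ne_zero 2 ha)]
  have e2 : tsa A B x c ^ 2 * tse2 A B x c h =
      tsb A B x c ^ 2 - 4 * h ^ 2 * tsE1 A B x c := by
    rw [tse2, mul_div_cancel₀ _ (pow_ne_zero 2 ha)]
  have : tsq A B x c h θ = θ * (tsa A B x c * θ + tsb A B x c) ^ 2 -
    4 * h ^ 2 * ((h ^ 2 + j ^ 2) + tsE1 A B x c * θ + tsE2 A B x c * θ ^ 2 - h ^ 2) := by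
    rw [tsq, hE]
  rw [this]
  linear_combination θ ^ 2 * e1 - θ * e2

private theorem tsQSplit_aux {k : Type*} [Field k] [CharZero k] (A B x c h j : k)
    (ha : tsa A B x c ≠ 0) (t0 t1 t2 : k)
    (e1 : tse1 A B x c h = t0 ^ 2 + t1 ^ 2 + t2 ^ 2)
    (e2 : tse2 A B x c h = t0 ^ 2 * t1 ^ 2 + t0 ^ 2 * t2 ^ 2 + t1 ^ 2 * t2 ^ 2)
    (e3 : tsa A B x c * (t0 * t1 * t2) = 2 * h * j) :
    (tsQuart A B x c h j).Splits := by
  have hQ : tsQ A B x c h j = -8 * (t0 * t1 * t2) := by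
    rw [tsQ, div_eq_iff ha]
    linear_combination 8 * e3
  have hq : tsQuart A B x c h j =
      (X - C (t0 + t1 + t2)) * (X - C (t0 - t1 - t2)) * (X - C (-t0 + t1 - t2)) *
        (X - C (-t0 - t1 + t2)) := by
    rw [tsQuart, quart, tsP, tsR, hQ, e1, e2]
    simp only [map_add, map_sub, map_mul, map_pow, map_neg, map_ofNat C]
    ring
  rw [hq]
  exact (((Splits.X_sub_C _).mul (Splits.X_sub_C _)).mul (Splits.X_sub_C _)).mul
    (Splits.X_sub_C _)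

theorem ts_quart_splits {k : Type*} [Field k] [CharZero k] (A B x c h j : k)
    (ha : tsa A B x c ≠ 0) (hE : x ^ 3 + A * x + B = h ^ 2 + j ^ 2) (t : Fin 3 → k)
    (ht : ∀ θ, tsq A B x c h θ = tsa A B x c ^ 2 * ∏ i, (θ - t i ^ 2)) :
    (tsQuart A B x c h j).Splits := by
  have ha2 : tsa A B x c ^ 2 ≠ 0 := pow_ne_zero 2 ha
  have ht' : ∀ θ, tsa A B x c ^ 2 *
      (θ ^ 3 - tse1 A B x c h * θ ^ 2 + tse2 A B x c h * θ) - 4 * h ^ 2 * j ^ 2 =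
      tsa A B x c ^ 2 * ((θ - t 0 ^ 2) * (θ - t 1 ^ 2) * (θ - t 2 ^ 2)) := by
    intro θ
    rw [← tsQSplit_expand A B x c h j θ ha hE, ht θ, Fin.prod_univ_three]
  have h0 := ht' 0
  have h1 := ht' 1
  have h2 := ht' (-1)
  have e1 : tse1 A B x c h = t 0 ^ 2 + t 1 ^ 2 + t 2 ^ 2 := by
    have : (2 * tsa A B x c ^ 2) * tse1 A B x c h =
        (2 * tsa A B x c ^ 2) * (t 0 ^ 2 + t 1 ^ 2 + t 2 ^ 2) := by
      linear_combination 2 * h0 - h1 - h2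
    exact mul_left_cancel₀ (mul_ne_zero two_ne_zero ha2) this
  have e2 : tse2 A B x c h = t 0 ^ 2 * t 1 ^ 2 + t 0 ^ 2 * t 2 ^ 2 + t 1 ^ 2 * t 2 ^ 2 := by
    have : (2 * tsa A B x c ^ 2) * tse2 A B x c h =
        (2 * tsa A B x c ^ 2) * (t 0 ^ 2 * t 1 ^ 2 + t 0 ^ 2 * t 2 ^ 2 + t 1 ^ 2 * t 2 ^ 2) := by
      linear_combination h1 - h2
    exact mul_left_cancel₀ (mul_ne_zero two_ne_zero ha2) this
  have e3 : (tsa A B x c * (t 0 * t 1 * t 2)) ^ 2 = (2 * h * j) ^ 2 := by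
    linear_combination h0
  rcases sq_eq_sq_iff_eq_or_eq_neg.mp e3 with e | e
  · exact tsQSplit_aux A B x c h j ha _ _ _ e1 e2 e
  · refine tsQSplit_aux A B x c h j ha (-t 0) (t 1) (t 2) ?_ ?_ ?_
    · rw [e1]; ring
    · rw [e2]; ring
    · linear_combination -e

end Pool.Agent.Lib.MP_1a91b9_nt
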