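import Pool.Agent.Lib.MP_1a91b9_nt.TSDefs
import Pool.Agent.Lib.MP_1a91b9_nt.TSLocal
import Pool.Agent.Lib.MP_1a91b9_nt.TSQSplit
import Pool.Agent.Lib.MP_1a91b9_nt.TSBase

/-!
# Totally split quartic extensions: the region of good parameters over a local field
-/

set_option autoImplicit false

namespace Pool.Agent.Lib.MP_1a91b9_nt

open IsDedekindDomain NumberField Polynomial IntermediateField
open scoped Topology

universe u

section TSRegion

variable {k : Type*} [NontriviallyNormedField k] [CompleteSpace k] [CharZero k]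

private lemma tsRegion_rotH (h j m s : k) : rotH (s * h) (s * j) m = s * rotH h j m := by
  unfold rotH
  rw [mul_div_assoc', mul_sub]
  ring

/-- the good set at the normalised parameters -/
private def tsRegionGood (N : Set k) (P : k × k × k × k × k) (q : k × k) : Prop :=
  1 + q.1 ^ 2 ≠ 0 ∧ (3 * q.2 - 4 * P.1) / (8 * P.1) ∈ N ∧
    rotH P.2.2.2.1 P.2.2.2.2 q.1 ^ 2 / (16 * P.1 ^ 3) ∈ N ∧
    (rotH P.2.2.2.1 P.2.2.2.2 q.1 ≠ 0 → tsa P.2.1 P.2.2.1 P.1 q.2 ≠ 0 ∧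
      ∃ t : Fin 3 → k, ∀ θ : k,
        tsq P.2.1 P.2.2.1 P.1 q.2 (rotH P.2.2.2.1 P.2.2.2.2 q.1) θ =
          tsa P.2.1 P.2.2.1 P.1 q.2 ^ 2 * ∏ i, (θ - t i ^ 2))

private lemma tsRegion_norm (N : Set k) (hN : N ∈ 𝓝 (0 : k)) :
    ∃ κ : k, ∀ᶠ r : (k × k × k × k × k) × (k × k) in 𝓝 ((1, 0, 0, 0, 1), (0, κ)),
      tsRegionGood N r.1 r.2 := by
  have h8 : (8 : k) ≠ 0 := by norm_num
  have h16 : (16 : k) ≠ 0 := by norm_num
  obtain ⟨N', hN'N, hN'o, hN'0⟩ := mem_nhds_iff.1 hN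
  -- a neighbourhood of `4 / 3`
  set M : Set k := {κ : k | (3 * κ - 4) / 8 ∈ N'} with hM
  have hMc : Continuous (fun κ : k => (3 * κ - 4) / 8) := by fun_prop
  have hM43 : M ∈ 𝓝 (4 / 3 : k) := by
    apply (hMc.tendsto (4 / 3)) (hN'o.mem_nhds _)
    have : (3 * (4 / 3 : k) - 4) / 8 = 0 := by norm_num
    rw [this]
    exact hN'0
  obtain ⟨κ, hκM, hκ⟩ := ts_local M hM43
  refine ⟨κ, ?_⟩
  have e1 : ∀ᶠ r : (k × k × k × k × k) × (k × k) in 𝓝 ((1, 0, 0, 0, 1), (0, κ)),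
      1 + r.2.1 ^ 2 ≠ 0 := by
    have hc : ContinuousAt (fun r : (k × k × k × k × k) × (k × k) => 1 + r.2.1 ^ 2)
        ((1, 0, 0, 0, 1), (0, κ)) := by fun_prop
    apply hc.eventually_ne
    simp
  have e2 : ∀ᶠ r : (k × k × k × k × k) × (k × k) in 𝓝 ((1, 0, 0, 0, 1), (0, κ)),
      (3 * r.2.2 - 4 * r.1.1) / (8 * r.1.1) ∈ N := by
    have hc : ContinuousAt (fun r : (k × k × k × k × k) × (k × k) =>
        (3 * r.2.2 - 4 * r.1.1) / (8 * r.1.1)) ((1, 0, 0, 0, 1), (0, κ)) := by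
      apply ContinuousAt.div (by fun_prop) (by fun_prop)
      simp
    apply hc (Filter.mem_of_superset (hN'o.mem_nhds _) hN'N)
    simpa [hM] using hκM
  have hrot : ContinuousAt (fun r : (k × k × k × k × k) × (k × k) =>
      rotH r.1.2.2.2.1 r.1.2.2.2.2 r.2.1) ((1, 0, 0, 0, 1), (0, κ)) := by
    unfold rotH
    apply ContinuousAt.div (by fun_prop) (by fun_prop)
    simp
  have hrot0 : rotH (0 : k) 1 0 = 0 := by
    unfold rotH; simp
  have e3 : ∀ᶠ r : (k × k × k × k × k) × (k × k) in 𝓝 ((1, 0, 0, 0, 1), (0, κ)),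
      rotH r.1.2.2.2.1 r.1.2.2.2.2 r.2.1 ^ 2 / (16 * r.1.1 ^ 3) ∈ N := by
    have hc : ContinuousAt (fun r : (k × k × k × k × k) × (k × k) =>
        rotH r.1.2.2.2.1 r.1.2.2.2.2 r.2.1 ^ 2 / (16 * r.1.1 ^ 3)) ((1, 0, 0, 0, 1), (0, κ)) := by
      apply ContinuousAt.div (hrot.pow 2) (by fun_prop)
      simp
    apply hc
    simp only [hrot0]
    simpa using hN
  have e4 : ∀ᶠ r : (k × k × k × k × k) × (k × k) in 𝓝 ((1, 0, 0, 0, 1), (0, κ)),
      rotH r.1.2.2.2.1 r.1.2.2.2.2 r.2.1 ≠ 0 → tsa r.1.2.1 r.1.2.2.1 r.1.1 r.2.2 ≠ 0 ∧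
      ∃ t : Fin 3 → k, ∀ θ : k,
        tsq r.1.2.1 r.1.2.2.1 r.1.1 r.2.2 (rotH r.1.2.2.2.1 r.1.2.2.2.2 r.2.1) θ =
          tsa r.1.2.1 r.1.2.2.1 r.1.1 r.2.2 ^ 2 * ∏ i, (θ - t i ^ 2) := by
    have hc : ContinuousAt (fun r : (k × k × k × k × k) × (k × k) =>
        ((r.1.1, r.1.2.1, r.1.2.2.1, rotH r.1.2.2.2.1 r.1.2.2.2.2 r.2.1, r.2.2) :
          k × k × k × k × k)) ((1, 0, 0, 0, 1), (0, κ)) := by
      apply ContinuousAt.prodMk (by fun_prop)
      apply ContinuousAt.prodMk (by fun_prop)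
      apply ContinuousAt.prodMk (by fun_prop)
      exact hrot.prodMk (by fun_prop)
    have hc' := hc.tendsto
    simp only [hrot0] at hc'
    exact hc'.eventually hκ
  filter_upwards [e1, e2, e3, e4] with r h1 h2 h3 h4
  exact ⟨h1, h2, h3, h4⟩

theorem ts_region {k : Type*} [NontriviallyNormedField k] [CompleteSpace k] [CharZero k]
    (N : Set k) (hN : N ∈ 𝓝 (0 : k)) (A B : k) :
    ∀ᶠ w in 𝓝[≠] (0 : k),
      (pX A B 1 w⁻¹ ^ 3 + A * pX A B 1 w⁻¹ + B ≠ 0 ∧ 3 * pX A B 1 w⁻¹ ^ 2 + A ≠ 0 ∧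
        tsStar A B (pX A B 1 w⁻¹) ≠ 0 ∧ pX A B 1 w⁻¹ ≠ 0 ∧ 1 / pX A B 1 w⁻¹ ∈ N ∧
        A / pX A B 1 w⁻¹ ∈ N ∧ B / pX A B 1 w⁻¹ ∈ N ∧ A / (8 * pX A B 1 w⁻¹ ^ 2) ∈ N ∧
        B / (8 * pX A B 1 w⁻¹ ^ 3) ∈ N) ∧
      ∃ c₀ : k, ∃ U ∈ 𝓝 (0 : k), ∃ V ∈ 𝓝 c₀, ∀ m ∈ U, ∀ c ∈ V, 1 + m ^ 2 ≠ 0 ∧
        (3 * c - 4 * pX A B 1 w⁻¹) / (8 * pX A B 1 w⁻¹) ∈ N ∧
        rotH (pH A B 0 w⁻¹) (pJ A B 0 w⁻¹) m ^ 2 / (16 * pX A B 1 w⁻¹ ^ 3) ∈ N ∧
        (rotH (pH A B 0 w⁻¹) (pJ A B 0 w⁻¹) m ≠ 0 →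
          (tsQuart A B (pX A B 1 w⁻¹) c (rotH (pH A B 0 w⁻¹) (pJ A B 0 w⁻¹) m)
            (rotJ (pH A B 0 w⁻¹) (pJ A B 0 w⁻¹) m)).Splits) := by
  obtain ⟨κ, hκ⟩ := tsRegion_norm N hN
  have hcur := hκ.curry_nhds
  obtain ⟨hlim, hinv, hne⟩ := ts_base A B
  -- conditions on the normalised parameters
  have c1 : ∀ᶠ P : k × k × k × k × k in 𝓝 (1, 0, 0, 0, 1), P.1 ≠ 0 := by
    have hc : ContinuousAt (fun P : k × k × k × k × k => P.1) (1, 0, 0, 0, 1) := by fun_prop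
    apply hc.eventually_ne
    simp
  have c2 : ∀ᶠ P : k × k × k × k × k in 𝓝 (1, 0, 0, 0, 1),
      P.1 ^ 3 + P.2.1 * P.1 + P.2.2.1 ≠ 0 := by
    have hc : ContinuousAt (fun P : k × k × k × k × k => P.1 ^ 3 + P.2.1 * P.1 + P.2.2.1)
        (1, 0, 0, 0, 1) := by fun_prop
    apply hc.eventually_ne
    simp
  have c3 : ∀ᶠ P : k × k × k × k × k in 𝓝 (1, 0, 0, 0, 1), 3 * P.1 ^ 2 + P.2.1 ≠ 0 := by
    have hc : ContinuousAt (fun P : k × k × k × k × k => 3 * P.1 ^ 2 + P.2.1)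
        (1, 0, 0, 0, 1) := by fun_prop
    apply hc.eventually_ne
    simp
  have c4 : ∀ᶠ P : k × k × k × k × k in 𝓝 (1, 0, 0, 0, 1),
      tsStar P.2.1 P.2.2.1 P.1 ≠ 0 := by
    have hc : ContinuousAt (fun P : k × k × k × k × k => tsStar P.2.1 P.2.2.1 P.1)
        (1, 0, 0, 0, 1) := by unfold tsStar; fun_prop
    apply hc.eventually_ne
    unfold tsStar
    norm_num
  have c5 : ∀ᶠ P : k × k × k × k × k in 𝓝 (1, 0, 0, 0, 1), P.2.1 / (8 * P.1 ^ 2) ∈ N := by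
    have hc : ContinuousAt (fun P : k × k × k × k × k => P.2.1 / (8 * P.1 ^ 2))
        (1, 0, 0, 0, 1) := by
      apply ContinuousAt.div (by fun_prop) (by fun_prop)
      simp
    apply hc
    simpa using hN
  have c6 : ∀ᶠ P : k × k × k × k × k in 𝓝 (1, 0, 0, 0, 1), P.2.2.1 / (8 * P.1 ^ 3) ∈ N := by
    have hc : ContinuousAt (fun P : k × k × k × k × k => P.2.2.1 / (8 * P.1 ^ 3))
        (1, 0, 0, 0, 1) := by
      apply ContinuousAt.div (by fun_prop) (by fun_prop)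
      simp
    apply hc
    simpa using hN
  -- conditions involving `1 / x`
  have c7 : ∀ᶠ P : (k × k × k × k × k) × k in 𝓝 ((1, 0, 0, 0, 1), 0),
      P.2 ^ 2 / P.1.1 ∈ N ∧ A * (P.2 ^ 2 / P.1.1) ∈ N ∧ B * (P.2 ^ 2 / P.1.1) ∈ N := by
    have hc : ContinuousAt (fun P : (k × k × k × k × k) × k => P.2 ^ 2 / P.1.1)
        ((1, 0, 0, 0, 1), 0) := by
      apply ContinuousAt.div (by fun_prop) (by fun_prop)
      simp
    have h1 : ∀ a : k, ∀ᶠ P : (k × k × k × k × k) × k in 𝓝 ((1, 0, 0, 0, 1), 0),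
        a * (P.2 ^ 2 / P.1.1) ∈ N := by
      intro a
      apply (continuousAt_const.mul hc)
      simpa using hN
    filter_upwards [h1 1, h1 A, h1 B] with P h2 h3 h4
    exact ⟨by simpa using h2, h3, h4⟩
  have hev1 := hlim.eventually (hcur.and (c1.and (c2.and (c3.and (c4.and (c5.and c6))))))
  have hev2 := (hlim.prodMk_nhds hinv).eventually c7
  filter_upwards [hev1, hev2, hne, self_mem_nhdsWithin] with w hw1 hw2 hal hw0
  obtain ⟨hgood, hx1, hf0, hf1, hst, hA8, hB8⟩ := hw1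
  set al := pAl A w⁻¹ with hal_def
  set x := pX A B 1 w⁻¹ with hx_def
  set h0 := pH A B 0 w⁻¹ with hh_def
  set j0 := pJ A B 0 w⁻¹ with hj_def
  have w0 : w ≠ 0 := hw0
  set x' := x / al ^ 2 with hx'
  set A' := A / al ^ 4 with hA'
  set B' := B / al ^ 6 with hB'
  set h' := h0 / al ^ 3 with hh'
  set j' := j0 / al ^ 3 with hj'
  have ex : x = al ^ 2 * x' := by rw [hx']; field_simp
  have eA : A = al ^ 4 * A' := by rw [hA']; field_simp
  have eB : B = al ^ 6 * B' := by rw [hB']; field_simp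
  have eh : h0 = al ^ 3 * h' := by rw [hh']; field_simp
  have ej : j0 = al ^ 3 * j' := by rw [hj']; field_simp
  have hx0 : x ≠ 0 := by
    rw [ex]; exact mul_ne_zero (pow_ne_zero 2 hal) hx1
  have hinvx : 1 / x = al⁻¹ ^ 2 / x' := by
    rw [ex]; field_simp
  refine ⟨⟨?_, ?_, ?_, hx0, ?_, ?_, ?_, ?_, ?_⟩, ?_⟩
  · have : x ^ 3 + A * x + B = al ^ 6 * (x' ^ 3 + A' * x' + B') := by
      rw [ex]
      linear_combination al ^ 2 * x' * eA + eB
    rw [this]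
    exact mul_ne_zero (pow_ne_zero 6 hal) hf0
  · have : 3 * x ^ 2 + A = al ^ 4 * (3 * x' ^ 2 + A') := by
      rw [ex]
      linear_combination eA
    rw [this]
    exact mul_ne_zero (pow_ne_zero 4 hal) hf1
  · have : tsStar A B x = al ^ 12 * tsStar A' B' x' := by
      have h1 : 3 * x ^ 2 + A = al ^ 4 * (3 * x' ^ 2 + A') := by
        rw [ex]
        linear_combination eA
      have h2 : x ^ 3 + A * x + B = al ^ 6 * (x' ^ 3 + A' * x' + B') := by
        rw [ex]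
        linear_combination al ^ 2 * x' * eA + eB
      unfold tsStar
      rw [h1, h2, ex]
      ring
    rw [this]
    exact mul_ne_zero (pow_ne_zero 12 hal) hst
  · rw [hinvx]; exact hw2.1
  · have : A / x = A * (al⁻¹ ^ 2 / x') := by rw [← hinvx]; ring
    rw [this]; exact hw2.2.1
  · have : B / x = B * (al⁻¹ ^ 2 / x') := by rw [← hinvx]; ring
    rw [this]; exact hw2.2.2
  · have : A / (8 * x ^ 2) = A' / (8 * x' ^ 2) := by
      rw [hA', hx']; field_simp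
    rw [this]; exact hA8
  · have : B / (8 * x ^ 3) = B' / (8 * x' ^ 3) := by
      rw [hB', hx']; field_simp
    rw [this]; exact hB8
  · -- the neighbourhoods
    obtain ⟨U, hU, V', hV', hUV⟩ := mem_nhds_prod_iff.1 hgood
    refine ⟨al ^ 2 * κ, U, hU, {c : k | c / al ^ 2 ∈ V'}, ?_, ?_⟩
    · have hc : ContinuousAt (fun c : k => c / al ^ 2) (al ^ 2 * κ) := by fun_prop
      apply hc
      have : al ^ 2 * κ / al ^ 2 = κ := by field_simp
      show V' ∈ 𝓝 (al ^ 2 * κ / al ^ 2)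
      rw [this]
      exact hV'
    · intro m hm c hc
      have hg : tsRegionGood N (x', A', B', h', j') (m, c / al ^ 2) :=
        hUV (Set.mk_mem_prod hm hc)
      obtain ⟨g1, g2, g3, g4⟩ := hg
      simp only at g1 g2 g3 g4
      have hrot : rotH h0 j0 m = al ^ 3 * rotH h' j' m := by
        rw [← tsRegion_rotH, ← eh, ← ej]
      refine ⟨g1, ?_, ?_, ?_⟩
      · have : (3 * c - 4 * x) / (8 * x) = (3 * (c / al ^ 2) - 4 * x') / (8 * x') := by
          rw [hx']; field_simp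
        rw [this]; exact g2
      · have : rotH h0 j0 m ^ 2 / (16 * x ^ 3) = rotH h' j' m ^ 2 / (16 * x' ^ 3) := by
          rw [hrot, ex]
          field_simp
        rw [this]; exact g3
      · intro hr
        have hr' : rotH h' j' m ≠ 0 := by
          intro h1
          apply hr
          rw [hrot, h1, mul_zero]
        obtain ⟨ha, t, ht⟩ := g4 hr'
        have ec : c = al ^ 2 * (c / al ^ 2) := by field_simp
        have hta : tsa A B x c = al ^ 6 * tsa A' B' x' (c / al ^ 2) := by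
          conv_lhs => rw [eA, eB, ex, ec]
          exact tsa_scale A' B' x' (c / al ^ 2) al
        refine ts_quart_splits A B x c (rotH h0 j0 m) (rotJ h0 j0 m) ?_ ?_ t ?_
        · rw [hta]
          exact mul_ne_zero (pow_ne_zero 6 hal) ha
        · rw [rot_sq _ _ _ g1, hx_def, hh_def, hj_def]
          have := param_identity (two_ne_zero) A B 0 w⁻¹ (inv_ne_zero w0)
            (by simp : (1 : k) + 0 ^ 2 ≠ 0)
          simpa using this
        · intro θ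
          have htq : tsq A B x c (rotH h0 j0 m) θ =
              al ^ 12 * tsq A' B' x' (c / al ^ 2) (rotH h' j' m) θ := by
            conv_lhs => rw [eA, eB, ex, ec, hrot]
            exact tsq_scale A' B' x' (c / al ^ 2) (rotH h' j' m) al θ
          rw [htq, ht θ, hta]
          ring

end TSRegion

end Pool.Agent.Lib.MP_1a91b9_nt
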