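import Pool.Agent.Lib.MP_1a91b9_nt.TSDefs
import Pool.Agent.Lib.MP_1a91b9_nt.TSRegion

set_option autoImplicit false

namespace Pool.Agent.Lib.MP_1a91b9_nt

open IsDedekindDomain NumberField Polynomial IntermediateField
open scoped Topology

universe u

section maps

variable {K L : Type*} [Field K] [Field L] (φ : K →+* L)

private theorem tsrp_map_pAl (A v : K) : φ (pAl A v) = pAl (φ A) (φ v) := by
  simp only [pAl, map_sub, map_pow, map_ofNat, map_div₀]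

private theorem tsrp_map_pBe (A z v : K) : φ (pBe A z v) = pBe (φ A) (φ z) (φ v) := by
  simp only [pBe, map_sub, map_mul, map_ofNat, map_div₀]

private theorem tsrp_map_pX (A B z v : K) : φ (pX A B z v) = pX (φ A) (φ B) (φ z) (φ v) := by
  simp only [pX, map_add, map_pow, map_div₀, tsrp_map_pAl, tsrp_map_pBe]

private theorem tsrp_map_pR (A B z v : K) : φ (pR A B z v) = pR (φ A) (φ B) (φ z) (φ v) := by
  simp only [pR, map_add, map_sub, map_mul, map_pow, map_div₀, map_ofNat, tsrp_map_pAl,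
    tsrp_map_pBe]

private theorem tsrp_map_pS (A B z v : K) : φ (pS A B z v) = pS (φ A) (φ B) (φ z) (φ v) := by
  simp only [pS, map_add, map_sub, map_mul, map_pow, map_ofNat, tsrp_map_pAl,
    tsrp_map_pBe]

private theorem tsrp_map_pH (A B η v : K) : φ (pH A B η v) = pH (φ A) (φ B) (φ η) (φ v) := by
  simp only [pH, map_add, map_sub, map_mul, map_pow, map_div₀, map_one, tsrp_map_pR,
    tsrp_map_pS]

private theorem tsrp_map_pJ (A B η v : K) : φ (pJ A B η v) = pJ (φ A) (φ B) (φ η) (φ v) := by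
  simp only [pJ, map_add, map_mul, map_pow, map_div₀, map_one, tsrp_map_pR,
    tsrp_map_pS]

private theorem tsrp_map_rotH (h j m : K) : φ (rotH h j m) = rotH (φ h) (φ j) (φ m) := by
  simp only [rotH, map_add, map_sub, map_mul, map_pow, map_div₀, map_one, map_ofNat]

private theorem tsrp_map_rotJ (h j m : K) : φ (rotJ h j m) = rotJ (φ h) (φ j) (φ m) := by
  simp only [rotJ, map_add, map_sub, map_mul, map_pow, map_div₀, map_one, map_ofNat]

private theorem tsrp_map_star (A B x : K) : φ (tsStar A B x) = tsStar (φ A) (φ B) (φ x) := by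
  simp only [tsStar, map_add, map_sub, map_mul, map_pow, map_ofNat]

end maps

private theorem tsrp_gen {F k : Type*} [Field F] [NormedField k] (hnt : ∃ x : k, 1 < ‖x‖)
    [CompleteSpace k] [CharZero k] (φ : F →+* k) (N : Set k) (hN : N ∈ 𝓝 (0 : k)) (A B : F) :
    ∃ O : Set k, IsOpen O ∧ O.Nonempty ∧ ∀ w : F, φ w ∈ O →
      w ≠ 0 ∧ (pX A B 1 w⁻¹ ^ 3 + A * pX A B 1 w⁻¹ + B ≠ 0 ∧ 3 * pX A B 1 w⁻¹ ^ 2 + A ≠ 0 ∧
        tsStar A B (pX A B 1 w⁻¹) ≠ 0 ∧ pX A B 1 w⁻¹ ≠ 0) ∧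
      (1 / φ (pX A B 1 w⁻¹) ∈ N ∧ φ (A / pX A B 1 w⁻¹) ∈ N ∧ φ (B / pX A B 1 w⁻¹) ∈ N ∧
        φ (A / (8 * pX A B 1 w⁻¹ ^ 2)) ∈ N ∧ φ (B / (8 * pX A B 1 w⁻¹ ^ 3)) ∈ N) ∧
      ∃ U V : Set k, IsOpen U ∧ U.Nonempty ∧ IsOpen V ∧ V.Nonempty ∧
        ∀ m c : F, φ m ∈ U → φ c ∈ V →
          1 + m ^ 2 ≠ 0 ∧ φ ((3 * c - 4 * pX A B 1 w⁻¹) / (8 * pX A B 1 w⁻¹)) ∈ N ∧
          φ (rotH (pH A B 0 w⁻¹) (pJ A B 0 w⁻¹) m ^ 2 / (16 * pX A B 1 w⁻¹ ^ 3)) ∈ N ∧
          (rotH (pH A B 0 w⁻¹) (pJ A B 0 w⁻¹) m ≠ 0 →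
            ((tsQuart A B (pX A B 1 w⁻¹) c (rotH (pH A B 0 w⁻¹) (pJ A B 0 w⁻¹) m)
              (rotJ (pH A B 0 w⁻¹) (pJ A B 0 w⁻¹) m)).map φ).Splits) := by
  let _ : NontriviallyNormedField k := { ‹NormedField k› with non_trivial := hnt }
  have H := ts_region N hN (φ A) (φ B)
  rw [eventually_nhdsWithin_iff, eventually_nhds_iff] at H
  obtain ⟨t, ht, hto, h0⟩ := H
  refine ⟨t ∩ {0}ᶜ, hto.inter isOpen_compl_singleton, ?_, ?_⟩
  · have h1 : (𝓝[≠] (0 : k)).NeBot := inferInstance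
    have h2 : t ∩ {0}ᶜ ∈ 𝓝[≠] (0 : k) := by
      rw [Set.inter_comm]
      exact inter_mem_nhdsWithin _ (hto.mem_nhds h0)
    exact h1.nonempty_of_mem h2
  · rintro w ⟨hw1, hw2⟩
    have hw0 : φ w ≠ 0 := hw2
    have hw : w ≠ 0 := fun h => hw0 (by rw [h, map_zero])
    have eX : pX (φ A) (φ B) 1 (φ w)⁻¹ = φ (pX A B 1 w⁻¹) := by
      rw [tsrp_map_pX, map_one, map_inv₀]
    have eH : pH (φ A) (φ B) 0 (φ w)⁻¹ = φ (pH A B 0 w⁻¹) := by
      rw [tsrp_map_pH, map_zero, map_inv₀]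
    have eJ : pJ (φ A) (φ B) 0 (φ w)⁻¹ = φ (pJ A B 0 w⁻¹) := by
      rw [tsrp_map_pJ, map_zero, map_inv₀]
    have P := ht (φ w) hw1 hw2
    rw [eX, eH, eJ] at P
    obtain ⟨⟨p1, p2, p3, p4, p5, p6, p7, p8, p9⟩, c₀, U, hU, V, hV, hUV⟩ := P
    refine ⟨hw, ⟨?_, ?_, ?_, ?_⟩, ⟨p5, ?_, ?_, ?_, ?_⟩, interior U, interior V, isOpen_interior,
      ⟨0, mem_interior_iff_mem_nhds.2 hU⟩, isOpen_interior, ⟨c₀, mem_interior_iff_mem_nhds.2 hV⟩, ?_⟩
    · intro h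
      apply p1
      rw [← map_pow, ← map_mul, ← map_add, ← map_add, h, map_zero]
    · intro h
      apply p2
      have : φ (3 * pX A B 1 w⁻¹ ^ 2 + A) = 0 := by rw [h, map_zero]
      simpa only [map_add, map_mul, map_pow, map_ofNat] using this
    · intro h
      apply p3
      rw [← tsrp_map_star, h, map_zero]
    · intro h
      apply p4
      rw [h, map_zero]
    · rw [map_div₀]; exact p6
    · rw [map_div₀]; exact p7
    · simpa only [map_div₀, map_mul, map_pow, map_ofNat] using p8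
    · simpa only [map_div₀, map_mul, map_pow, map_ofNat] using p9
    · intro m c hm hc
      obtain ⟨q1, q2, q3, q4⟩ := hUV (φ m) (interior_subset hm) (φ c) (interior_subset hc)
      refine ⟨?_, ?_, ?_, ?_⟩
      · intro h
        apply q1
        rw [← map_one φ, ← map_pow, ← map_add, h, map_zero]
      · simpa only [map_div₀, map_sub, map_mul, map_pow, map_ofNat] using q2
      · simpa only [map_div₀, map_mul, map_pow, map_ofNat, tsrp_map_rotH] using q3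
      · intro h
        rw [map_tsQuart, tsrp_map_rotH, tsrp_map_rotJ]
        apply q4
        rw [← tsrp_map_rotH]
        intro h'
        exact h ((map_eq_zero φ).1 h')

theorem ts_region_finite {F : Type u} [Field F] [NumberField F] (v : HeightOneSpectrum (𝓞 F))
    (N : Set (v.adicCompletion F)) (hN : N ∈ 𝓝 (0 : v.adicCompletion F)) (A B : F) :
    ∃ O : Set (v.adicCompletion F), IsOpen O ∧ O.Nonempty ∧ ∀ w : F,
      algebraMap F (v.adicCompletion F) w ∈ O →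
      w ≠ 0 ∧ (1 / algebraMap F (v.adicCompletion F) (pX A B 1 w⁻¹) ∈ N ∧
        algebraMap F (v.adicCompletion F) (A / pX A B 1 w⁻¹) ∈ N ∧
        algebraMap F (v.adicCompletion F) (B / pX A B 1 w⁻¹) ∈ N ∧
        algebraMap F (v.adicCompletion F) (A / (8 * pX A B 1 w⁻¹ ^ 2)) ∈ N ∧
        algebraMap F (v.adicCompletion F) (B / (8 * pX A B 1 w⁻¹ ^ 3)) ∈ N) ∧
      ∃ U V : Set (v.adicCompletion F), IsOpen U ∧ U.Nonempty ∧ IsOpen V ∧ V.Nonempty ∧
        ∀ m c : F, algebraMap F (v.adicCompletion F) m ∈ U →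
          algebraMap F (v.adicCompletion F) c ∈ V →
          algebraMap F (v.adicCompletion F)
            ((3 * c - 4 * pX A B 1 w⁻¹) / (8 * pX A B 1 w⁻¹)) ∈ N ∧
          algebraMap F (v.adicCompletion F)
            (rotH (pH A B 0 w⁻¹) (pJ A B 0 w⁻¹) m ^ 2 / (16 * pX A B 1 w⁻¹ ^ 3)) ∈ N ∧
          (rotH (pH A B 0 w⁻¹) (pJ A B 0 w⁻¹) m ≠ 0 →
            ((tsQuart A B (pX A B 1 w⁻¹) c (rotH (pH A B 0 w⁻¹) (pJ A B 0 w⁻¹) m)
              (rotJ (pH A B 0 w⁻¹) (pJ A B 0 w⁻¹) m)).map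
                (algebraMap F (v.adicCompletion F))).Splits) := by
  have : CharZero (v.adicCompletion F) :=
    charZero_of_injective_algebraMap (algebraMap F (v.adicCompletion F)).injective
  have hnt : ∃ x : v.adicCompletion F, 1 < ‖x‖ := by
    obtain ⟨x, hx⟩ := Submodule.exists_mem_ne_zero_of_ne_bot v.ne_bot
    have h1 := (FinitePlace.norm_lt_one_iff_mem F v x).2 hx.1
    refine ⟨(FinitePlace.embedding v (algebraMap (𝓞 F) F x))⁻¹, ?_⟩
    rw [norm_inv]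
    apply (one_lt_inv₀ _).2 h1
    rw [norm_pos_iff]
    intro h
    rw [map_eq_zero] at h
    exact hx.2 ((FaithfulSMul.algebraMap_eq_zero_iff (𝓞 F) F).1 h)
  obtain ⟨O, hO1, hO2, hO3⟩ := tsrp_gen hnt (algebraMap F (v.adicCompletion F)) N hN A B
  refine ⟨O, hO1, hO2, fun w hw => ?_⟩
  obtain ⟨a1, -, a3, U, V, b1, b2, b3, b4, b5⟩ := hO3 w hw
  exact ⟨a1, a3, U, V, b1, b2, b3, b4, fun m c hm hc => (b5 m c hm hc).2⟩

theorem ts_region_infinite {F : Type u} [Field F] [NumberField F] (v : InfinitePlace F)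
    (A B : F) :
    ∃ O : Set v.Completion, IsOpen O ∧ O.Nonempty ∧ ∀ w : F,
      algebraMap F v.Completion w ∈ O →
      w ≠ 0 ∧ (pX A B 1 w⁻¹ ^ 3 + A * pX A B 1 w⁻¹ + B ≠ 0 ∧ 3 * pX A B 1 w⁻¹ ^ 2 + A ≠ 0 ∧
        tsStar A B (pX A B 1 w⁻¹) ≠ 0 ∧ pX A B 1 w⁻¹ ≠ 0) ∧
      ∃ U V : Set v.Completion, IsOpen U ∧ U.Nonempty ∧ IsOpen V ∧ V.Nonempty ∧
        ∀ m c : F, algebraMap F v.Completion m ∈ U → algebraMap F v.Completion c ∈ V →
          1 + m ^ 2 ≠ 0 ∧ (rotH (pH A B 0 w⁻¹) (pJ A B 0 w⁻¹) m ≠ 0 →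
            ((tsQuart A B (pX A B 1 w⁻¹) c (rotH (pH A B 0 w⁻¹) (pJ A B 0 w⁻¹) m)
              (rotJ (pH A B 0 w⁻¹) (pJ A B 0 w⁻¹) m)).map (algebraMap F v.Completion)).Splits) := by
  have : CharZero v.Completion :=
    charZero_of_injective_algebraMap (algebraMap F v.Completion).injective
  have hnt : ∃ x : v.Completion, 1 < ‖x‖ := by
    refine ⟨((2 : F) : v.Completion), ?_⟩
    have h1 : ‖((2 : F) : v.Completion)‖ = v 2 :=
      InfinitePlace.Completion.norm_coe v (WithAbs.toAbs v.1 (2 : F))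
    rw [h1]
    have h3 : v (2 : F) = 2 := by
      have := v.norm_embedding_eq (2 : F)
      rw [← this, map_ofNat]
      simp
    rw [h3]
    norm_num
  obtain ⟨O, hO1, hO2, hO3⟩ := tsrp_gen hnt (algebraMap F v.Completion) Set.univ
    Filter.univ_mem A B
  refine ⟨O, hO1, hO2, fun w hw => ?_⟩
  obtain ⟨a1, a2, -, U, V, b1, b2, b3, b4, b5⟩ := hO3 w hw
  exact ⟨a1, a2, U, V, b1, b2, b3, b4, fun m c hm hc =>
    ⟨(b5 m c hm hc).1, (b5 m c hm hc).2.2.2⟩⟩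

end Pool.Agent.Lib.MP_1a91b9_nt
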