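import Pool.Agent.Lib.MP_1a91b9_nt.TSDefs
import Mathlib.NumberTheory.NumberField.Completion.FinitePlace
import Mathlib.NumberTheory.NumberField.Completion.InfinitePlace
import Mathlib.Analysis.AbsoluteValue.Equivalence

set_option autoImplicit false

namespace Pool.Agent.Lib.MP_1a91b9_nt

open IsDedekindDomain NumberField Polynomial IntermediateField
open scoped Topology

universe u

/-! ## TSWeak : weak approximation at finitely many finite places and all infinite places -/

/-- The family of absolute values. -/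
private noncomputable def tsWeakAbv (F : Type u) [Field F] [NumberField F]
    (S : Finset (HeightOneSpectrum (𝓞 F))) : S ⊕ InfinitePlace F → AbsoluteValue F ℝ
  | Sum.inl v => NumberField.HeightOneSpectrum.adicAbv F v.1
  | Sum.inr w => w.1

private theorem tsWeak_ball_finite (F : Type u) [Field F] [NumberField F]
    (v : HeightOneSpectrum (𝓞 F)) (U : Set (v.adicCompletion F)) (hU : IsOpen U)
    (hne : U.Nonempty) : ∃ (y : F) (ε : ℝ), 0 < ε ∧
      ∀ x : F, NumberField.HeightOneSpectrum.adicAbv F v (x - y) < ε →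
        algebraMap F (v.adicCompletion F) x ∈ U := by
  obtain ⟨y, hy⟩ := (HeightOneSpectrum.denseRange_algebraMap F v).exists_mem_open hU hne
  obtain ⟨ε, hε, hball⟩ := Metric.isOpen_iff.mp hU _ hy
  refine ⟨y, ε, hε, fun x hx => hball ?_⟩
  rw [Metric.mem_ball, dist_eq_norm, ← map_sub]
  rw [← NumberField.FinitePlace.norm_embedding] at hx
  exact hx

private theorem tsWeak_ball_infinite (F : Type u) [Field F] [NumberField F]
    (w : InfinitePlace F) (T : Set w.Completion) (hT : IsOpen T)
    (hne : T.Nonempty) : ∃ (y : F) (ε : ℝ), 0 < ε ∧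
      ∀ x : F, w.1 (x - y) < ε → algebraMap F w.Completion x ∈ T := by
  obtain ⟨y', hy'⟩ := (InfinitePlace.Completion.denseRange_coe w).exists_mem_open hT hne
  obtain ⟨ε, hε, hball⟩ := Metric.isOpen_iff.mp hT _ hy'
  refine ⟨WithAbs.equiv w.1 y', ε, hε, fun x hx => hball ?_⟩
  have h1 : algebraMap F w.Completion x - (y' : w.Completion) =
      algebraMap F w.Completion (x - WithAbs.equiv w.1 y') := by
    rw [map_sub]
    rfl
  rw [Metric.mem_ball, dist_eq_norm, h1]
  have h2 := InfinitePlace.Completion.norm_coe w ((WithAbs.equiv w.1).symm (x - WithAbs.equiv w.1 y'))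
  rw [RingEquiv.apply_symm_apply] at h2
  have h3 : algebraMap F w.Completion (x - WithAbs.equiv w.1 y') =
    (((WithAbs.equiv w.1).symm (x - WithAbs.equiv w.1 y') : WithAbs w.1) : w.Completion) := rfl
  rw [h3, h2]
  exact hx

private theorem tsWeak_adic_nontrivial (F : Type u) [Field F] [NumberField F]
    (v : HeightOneSpectrum (𝓞 F)) :
    (NumberField.HeightOneSpectrum.adicAbv F v).IsNontrivial := by
  obtain ⟨x, hx, hx0⟩ := Submodule.exists_mem_ne_zero_of_ne_bot v.ne_bot
  refine ⟨algebraMap (𝓞 F) F x, ?_, ?_⟩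
  · simpa using hx0
  · have := (v.adicAbv_coe_lt_one_iff (K := F)
      (NumberField.HeightOneSpectrum.one_lt_absNorm_nnreal v) x).mpr hx
    exact ne_of_lt this

private theorem tsWeak_pairwise (F : Type u) [Field F] [NumberField F]
    (S : Finset (HeightOneSpectrum (𝓞 F))) :
    Pairwise fun i j => ¬ (tsWeakAbv F S i).IsEquiv (tsWeakAbv F S j) := by
  have hfi : ∀ (v : HeightOneSpectrum (𝓞 F)) (w : InfinitePlace F),
      ¬ (NumberField.HeightOneSpectrum.adicAbv F v).IsEquiv w.1 := by
    intro v w h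
    have h1 : NumberField.HeightOneSpectrum.adicAbv F v ((2 : ℕ) : F) ≤ 1 :=
      NumberField.HeightOneSpectrum.adicAbv_natCast_le_one F v 2
    have h2 := h.le_one_iff.mp h1
    have h3 : w.1 ((2 : ℕ) : F) = 2 := by
      have : w ((2 : ℕ) : F) = 2 := by
        rw [← InfinitePlace.norm_embedding_eq w, map_natCast]
        norm_num
      exact this
    rw [h3] at h2
    norm_num at h2
  intro i j hij h
  rcases i with v | w <;> rcases j with v' | w'
  · have hne : v.1 ≠ v'.1 := fun e => hij (congrArg Sum.inl (Subtype.ext e))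
    have ⟨x, hx1, hx2⟩ : ∃ x : 𝓞 F, x ∈ v.1.asIdeal ∧ x ∉ v'.1.asIdeal := by
      by_contra! H
      exact hne <| HeightOneSpectrum.ext_iff.mpr <|
        Ideal.IsMaximal.eq_of_le (v.1.isMaximal) Ideal.IsPrime.ne_top' H
    have e1 := (v.1.adicAbv_coe_lt_one_iff (K := F)
      (NumberField.HeightOneSpectrum.one_lt_absNorm_nnreal v.1) x).mpr hx1
    have e2 := (v'.1.adicAbv_coe_eq_one_iff (K := F)
      (NumberField.HeightOneSpectrum.one_lt_absNorm_nnreal v'.1) x).mpr hx2
    have e3 := h.lt_one_iff.mp e1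
    exact absurd e2 (ne_of_lt e3)
  · exact hfi _ _ h
  · exact hfi _ _ h.symm
  · have hne : w ≠ w' := fun e => hij (congrArg Sum.inr e)
    exact hne (InfinitePlace.eq_iff_isEquiv.mpr h)

theorem ts_weak (F : Type u) [Field F] [NumberField F] (S : Finset (HeightOneSpectrum (𝓞 F)))
    (U : ∀ v : HeightOneSpectrum (𝓞 F), Set (v.adicCompletion F))
    (hU : ∀ v ∈ S, IsOpen (U v) ∧ (U v).Nonempty) (T : ∀ w : InfinitePlace F, Set w.Completion)
    (hT : ∀ w, IsOpen (T w) ∧ (T w).Nonempty) :
    ∃ x : F, (∀ v ∈ S, algebraMap F (v.adicCompletion F) x ∈ U v) ∧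
      ∀ w : InfinitePlace F, algebraMap F w.Completion x ∈ T w := by
  have hloc : ∀ i : S ⊕ InfinitePlace F, ∃ (y : F) (ε : ℝ), 0 < ε ∧
      ∀ x : F, tsWeakAbv F S i (x - y) < ε →
        (∀ (v : S), i = Sum.inl v → algebraMap F (v.1.adicCompletion F) x ∈ U v.1) ∧
        (∀ w, i = Sum.inr w → algebraMap F w.Completion x ∈ T w) := by
    intro i
    rcases i with v | w
    · obtain ⟨y, ε, hε, h⟩ := tsWeak_ball_finite F v.1 (U v.1) (hU v.1 v.2).1 (hU v.1 v.2).2
      refine ⟨y, ε, hε, fun x hx => ⟨fun v' hv' => ?_, fun w hw => by cases hw⟩⟩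
      obtain rfl := Sum.inl_injective hv'
      exact h x hx
    · obtain ⟨y, ε, hε, h⟩ := tsWeak_ball_infinite F w (T w) (hT w).1 (hT w).2
      refine ⟨y, ε, hε, fun x hx => ⟨fun v' hv' => (by cases hv'), fun w' hw => ?_⟩⟩
      obtain rfl := Sum.inr_injective hw
      exact h x hx
  choose y ε hε hloc using hloc
  have hnt : ∀ i, (tsWeakAbv F S i).IsNontrivial := by
    rintro (v | w)
    · exact tsWeak_adic_nontrivial F v.1
    · exact w.isNontrivial
  have hdense := AbsoluteValue.denseRange_algebraMap_pi hnt (tsWeak_pairwise F S)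
  have hopen : IsOpen {z : (i : S ⊕ InfinitePlace F) → WithAbs (tsWeakAbv F S i) |
      ∀ i, dist (z i) ((WithAbs.equiv (tsWeakAbv F S i)).symm (y i)) < ε i} := by
    have : {z : (i : S ⊕ InfinitePlace F) → WithAbs (tsWeakAbv F S i) |
      ∀ i, dist (z i) ((WithAbs.equiv (tsWeakAbv F S i)).symm (y i)) < ε i} =
      Set.pi Set.univ (fun i => Metric.ball ((WithAbs.equiv (tsWeakAbv F S i)).symm (y i)) (ε i)) := by
      ext z
      simp [Set.mem_pi]
    rw [this]
    exact isOpen_set_pi Set.finite_univ fun i _ => Metric.isOpen_ball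
  obtain ⟨x, hx⟩ := hdense.exists_mem_open hopen
    ⟨fun i => (WithAbs.equiv (tsWeakAbv F S i)).symm (y i), fun i => by simpa using hε i⟩
  have hx' : ∀ i, tsWeakAbv F S i (x - y i) < ε i := by
    intro i
    have h1 := hx i
    rw [dist_eq_norm] at h1
    have h2 : (algebraMap F ((i : S ⊕ InfinitePlace F) → WithAbs (tsWeakAbv F S i)) x i) -
        (WithAbs.equiv (tsWeakAbv F S i)).symm (y i) =
        (WithAbs.equiv (tsWeakAbv F S i)).symm (x - y i) := by
      rw [map_sub]
      rfl
    rw [h2] at h1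
    exact h1
  exact ⟨x, fun v hv => (hloc _ x (hx' (Sum.inl ⟨v, hv⟩))).1 ⟨v, hv⟩ rfl,
    fun w => (hloc _ x (hx' (Sum.inr w))).2 w rfl⟩

end Pool.Agent.Lib.MP_1a91b9_nt
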