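import Pool.Agent.Lib.MP_1a91b9_nt.TSIrr
import Pool.Agent.Lib.MP_1a91b9_nt.TSCond
import Pool.Agent.Lib.MP_1a91b9_nt.TSRegionPlace
import Pool.Agent.Lib.MP_1a91b9_nt.TSWeak
import Pool.Agent.Lib.MP_1a91b9_nt.TSPlaces

/-!
# The parameters of the totally split quartic extensions
-/

set_option autoImplicit false

namespace Pool.Agent.Lib.MP_1a91b9_nt

open IsDedekindDomain NumberField Polynomial IntermediateField
open scoped Topology

universe u

theorem ts_isOpen {F : Type u} [Field F] [NumberField F] (v : HeightOneSpectrum (𝓞 F))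
    (a b : v.adicCompletion F) : IsOpen {y : v.adicCompletion F | Valued.v (y - a) < Valued.v b} := by
  have h1 : IsOpen {x : v.adicCompletion F | Valued.v x < Valued.v b} := by
    have h2 := Valued.isOpen_ball (v.adicCompletion F) (Valued.v.restrict b)
    convert h2 using 2
    ext x
    exact (Valuation.restrict_lt_iff _).symm
  exact h1.preimage (continuous_id.sub continuous_const)

theorem ts_valued {F : Type u} [Field F] [NumberField F] (v : HeightOneSpectrum (𝓞 F)) (x : F) :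
    Valued.v (algebraMap F (v.adicCompletion F) x) = v.valuation F x :=
  HeightOneSpectrum.valuedAdicCompletion_eq_valuation' v x

theorem ts_ball {F : Type u} [Field F] [NumberField F] (v : HeightOneSpectrum (𝓞 F)) (a b : F)
    (hb : b ≠ 0) : IsOpen {y : v.adicCompletion F | Valued.v (y - algebraMap F _ a) <
      v.valuation F b} ∧ {y : v.adicCompletion F | Valued.v (y - algebraMap F _ a) <
      v.valuation F b}.Nonempty := by
  constructor
  · rw [← ts_valued]
    exact ts_isOpen v _ _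
  · refine ⟨algebraMap F _ a, ?_⟩
    change Valued.v (algebraMap F (v.adicCompletion F) a - algebraMap F (v.adicCompletion F) a) < _
    rw [sub_self, map_zero]
    exact zero_lt_iff.mpr ((Valuation.ne_zero_iff _).mpr hb)

/-- Outside a finite set, an element is integral. -/
theorem ts_finite_integral (F : Type u) [Field F] [NumberField F] (x : F) :
    ∃ S : Finset (HeightOneSpectrum (𝓞 F)), ∀ p ∉ S, p.valuation F x ≤ 1 := by
  by_cases hx : x = 0
  · exact ⟨∅, fun p _ => by simp [hx]⟩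
  · obtain ⟨S, hS⟩ := ts_finite_support F x hx
    exact ⟨S, fun p hp => (hS p hp).le⟩

theorem ts_params {F : Type u} [Field F] [NumberField F] (A B : F)
    (S : Finset (HeightOneSpectrum (𝓞 F))) (g : F[X]) :
    ∃ x c h j : F, x ^ 3 + A * x + B = h ^ 2 + j ^ 2 ∧ tsa A B x c ≠ 0 ∧ c ≠ 0 ∧ h ≠ 0 ∧ j ≠ 0 ∧
      tsa A B x c + tsb A B x c + 2 * h ^ 2 ≠ 0 ∧
      (∀ y : g.SplittingField, aeval y (tsQuart A B x c h j) ≠ 0) ∧
      (∀ z : g.SplittingField, aeval z (tsResol A B x c h j) ≠ 0) ∧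
      (∀ v ∈ S, ((tsQuart A B x c h j).map (algebraMap F (v.adicCompletion F))).Splits) ∧
      (∀ w : InfinitePlace F, ((tsQuart A B x c h j).map (algebraMap F w.Completion)).Splits) ∧
      (∀ (M : Type u) [Field M] [NumberField M] [Algebra F M],
        ∃ V' : Valuation M (WithZero (Multiplicative ℤ)),
          V' 2 < 1 ∧ 1 < V' (algebraMap F M x) ∧
          V' (algebraMap F M A) < V' (algebraMap F M x) ∧
          V' (algebraMap F M B) < V' (algebraMap F M x) ∧
          V' (algebraMap F M A) < V' 8 * V' (algebraMap F M x) ^ 2 ∧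
          V' (algebraMap F M B) < V' 8 * V' (algebraMap F M x) ^ 3 ∧
          V' (3 * algebraMap F M c - 4 * algebraMap F M x) < V' 8 * V' (algebraMap F M x) ∧
          V' (algebraMap F M h) ^ 2 < V' 16 * V' (algebraMap F M x) ^ 3) := by
  classical
  obtain ⟨v₂, hv₂⟩ := exists_above_two F
  set S' := insert v₂ S with hS'
  -- the regions
  have hreg := fun v : HeightOneSpectrum (𝓞 F) => ts_region_finite v
    {y | Valued.v (y - algebraMap F _ 0) < v.valuation F 1}
    ((ts_ball v 0 1 one_ne_zero).1.mem_nhds (by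
      change Valued.v ((0 : v.adicCompletion F) - algebraMap F _ 0) < v.valuation F 1
      rw [map_zero, sub_zero, map_zero, map_one]
      exact zero_lt_one)) A B
  choose O hO1 hO2 hO3 using hreg
  have hregi := fun v : InfinitePlace F => ts_region_infinite v A B
  choose Oi hOi1 hOi2 hOi3 using hregi
  obtain ⟨w, hw1, hw2⟩ := ts_weak F S' O (fun v _ => ⟨hO1 v, hO2 v⟩) Oi
    (fun v => ⟨hOi1 v, hOi2 v⟩)
  obtain ⟨wi⟩ : Nonempty (InfinitePlace F) := inferInstance
  have hw0 : w ≠ 0 := (hOi3 wi w (hw2 wi)).1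
  obtain ⟨hf0, hf1, hst, hx0⟩ := (hOi3 wi w (hw2 wi)).2.1
  set x := pX A B 1 w⁻¹ with hx
  set h₀ := pH A B 0 w⁻¹ with hh₀
  set j₀ := pJ A B 0 w⁻¹ with hj₀
  have hE0 : x ^ 3 + A * x + B = h₀ ^ 2 + j₀ ^ 2 := by
    have := param_identity (two_ne_zero) A B 0 w⁻¹ (inv_ne_zero hw0) (by norm_num)
    norm_num at this
    exact this
  have hne : h₀ ^ 2 + j₀ ^ 2 ≠ 0 := by
    rw [← hE0]
    exact hf0
  have hst' : tsStar A B x ≠ 0 := hst
  -- the splitting field of `g`
  let N := g.SplittingField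
  have hcN : CharZero N := charZero_of_injective_algebraMap (algebraMap F N).injective
  have hNN : NumberField N := NumberField.of_module_finite F N
  have hnorm : Normal F N := Normal.of_isSplittingField g
  have hgal : IsGalois F N := ⟨⟩
  obtain ⟨S₀, hS₀⟩ := ts_unram F N
  -- bad places
  obtain ⟨T₂, hT₂⟩ := ts_finite_support F 2 two_ne_zero
  obtain ⟨Tf, hTf⟩ := ts_finite_support F _ hf0
  obtain ⟨Tg, hTg⟩ := ts_finite_support F _ hf1
  obtain ⟨Ts, hTs⟩ := ts_finite_support F _ hst'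
  obtain ⟨TA, hTA⟩ := ts_finite_integral F A
  obtain ⟨TB, hTB⟩ := ts_finite_integral F B
  obtain ⟨Tx, hTx⟩ := ts_finite_integral F x
  obtain ⟨Th, hTh⟩ := ts_finite_integral F h₀
  obtain ⟨Tj, hTj⟩ := ts_finite_integral F j₀
  set T := S' ∪ (S₀ ∪ (T₂ ∪ (Tf ∪ (Tg ∪ (Ts ∪ (TA ∪ (TB ∪ (Tx ∪ (Th ∪ Tj))))))))) with hT
  have hout : ∀ p : HeightOneSpectrum (𝓞 F), p ∉ T → p ∉ S' ∧ p ∉ S₀ ∧ p.valuation F 2 = 1 ∧
      p.valuation F (x ^ 3 + A * x + B) = 1 ∧ p.valuation F (3 * x ^ 2 + A) = 1 ∧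
      p.valuation F (tsStar A B x) = 1 ∧ p.valuation F A ≤ 1 ∧ p.valuation F B ≤ 1 ∧
      p.valuation F x ≤ 1 ∧ p.valuation F h₀ ≤ 1 ∧ p.valuation F j₀ ≤ 1 := by
    intro p hp
    simp only [hT, Finset.mem_union, not_or] at hp
    obtain ⟨a1, a2, a3, a4, a5, a6, a7, a8, a9, a10, a11⟩ := hp
    exact ⟨a1, a2, hT₂ p a3, hTf p a4, hTg p a5, hTs p a6, hTA p a7, hTB p a8, hTx p a9,
      hTh p a10, hTj p a11⟩
  obtain ⟨p₁, hp₁, m₁, hm₁, hN₁⟩ := ts_place_h F h₀ j₀ hne T
  obtain ⟨p₂, hp₂, m₂, hm₂, hN₂⟩ := ts_place_i F (insert p₁ T)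
  have hp₂₁ : p₂ ≠ p₁ := fun h => hp₂ (by rw [h]; exact Finset.mem_insert_self _ _)
  have hp₂T : p₂ ∉ T := fun h => hp₂ (Finset.mem_insert_of_mem h)
  obtain ⟨b1, b2, b3, b4, b5, b6, b7, b8, b9, b10, b11⟩ := hout p₁ hp₁
  obtain ⟨c1, c2, c3, c4, c5, c6, c7, c8, c9, c10, c11⟩ := hout p₂ hp₂T
  obtain ⟨π₁, hπ₁⟩ := p₁.valuation_exists_uniformizer F
  obtain ⟨π₂, hπ₂⟩ := p₂.valuation_exists_uniformizer F
  have hπ₁0 : π₁ ≠ 0 := by
    rintro rfl
    rw [map_zero] at hπ₁
    exact WithZero.exp_ne_zero hπ₁.symm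
  have hπ₂0 : π₂ ≠ 0 := by
    rintro rfl
    rw [map_zero] at hπ₂
    exact WithZero.exp_ne_zero hπ₂.symm
  -- the local sets
  have hU := fun v : HeightOneSpectrum (𝓞 F) => fun hv : v ∈ S' => (hO3 v w (hw1 v hv)).2.2
  have hU' : ∀ v : HeightOneSpectrum (𝓞 F), ∃ U V : Set (v.adicCompletion F), v ∈ S' →
      IsOpen U ∧ U.Nonempty ∧ IsOpen V ∧ V.Nonempty ∧
        ∀ m c : F, algebraMap F (v.adicCompletion F) m ∈ U →
          algebraMap F (v.adicCompletion F) c ∈ V →
          algebraMap F (v.adicCompletion F)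
            ((3 * c - 4 * x) / (8 * x)) ∈
              {y | Valued.v (y - algebraMap F (v.adicCompletion F) 0) < v.valuation F 1} ∧
          algebraMap F (v.adicCompletion F)
            (rotH h₀ j₀ m ^ 2 / (16 * x ^ 3)) ∈
              {y | Valued.v (y - algebraMap F (v.adicCompletion F) 0) < v.valuation F 1} ∧
          (rotH h₀ j₀ m ≠ 0 →
            ((tsQuart A B x c (rotH h₀ j₀ m) (rotJ h₀ j₀ m)).map
                (algebraMap F (v.adicCompletion F))).Splits) := by
    intro v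
    by_cases hv : v ∈ S'
    · obtain ⟨U, V, hUV⟩ := hU v hv
      exact ⟨U, V, fun _ => hUV⟩
    · exact ⟨∅, ∅, fun h => absurd h hv⟩
  choose U V hUV using hU'
  have hUi := fun v : InfinitePlace F => (hOi3 v w (hw2 v)).2.2
  choose Ui Vi hUVi using hUi
  obtain ⟨m, hm1, hm2⟩ := ts_weak F (insert p₁ (insert p₂ S'))
    (fun v => if v = p₁ then {y | Valued.v (y - algebraMap F _ m₁) < v.valuation F π₁} else
      if v = p₂ then {y | Valued.v (y - algebraMap F _ m₂) < v.valuation F π₂} else U v)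
    (by
      intro v hv
      by_cases h1 : v = p₁
      · subst h1
        simp only [if_true]
        exact ts_ball v m₁ π₁ hπ₁0
      · by_cases h2 : v = p₂
        · subst h2
          simp only [if_true, if_neg hp₂₁]
          exact ts_ball v m₂ π₂ hπ₂0
        · simp only [if_neg h1, if_neg h2]
          have hvS : v ∈ S' := by
            rcases Finset.mem_insert.mp hv with h | h
            · exact absurd h h1
            rcases Finset.mem_insert.mp h with h | h
            · exact absurd h h2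
            · exact h
          exact ⟨(hUV v hvS).1, (hUV v hvS).2.1⟩) Ui (fun v => ⟨(hUVi v).1, (hUVi v).2.1⟩)
  obtain ⟨c, hcc1, hcc2⟩ := ts_weak F (insert p₁ (insert p₂ S'))
    (fun v => if v = p₁ then {y | Valued.v (y - algebraMap F _
        (4 * (x ^ 3 + A * x + B) / (3 * x ^ 2 + A))) < v.valuation F 1} else
      if v = p₂ then {y | Valued.v (y - algebraMap F _ 0) < v.valuation F 1} else V v)
    (by
      intro v hv
      by_cases h1 : v = p₁
      · subst h1
        simp only [if_true]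
        exact ts_ball v _ 1 one_ne_zero
      · by_cases h2 : v = p₂
        · subst h2
          simp only [if_true, if_neg hp₂₁]
          exact ts_ball v 0 1 one_ne_zero
        · simp only [if_neg h1, if_neg h2]
          have hvS : v ∈ S' := by
            rcases Finset.mem_insert.mp hv with h | h
            · exact absurd h h1
            rcases Finset.mem_insert.mp h with h | h
            · exact absurd h h2
            · exact h
          exact ⟨(hUV v hvS).2.2.1, (hUV v hvS).2.2.2.1⟩) Vi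
    (fun v => ⟨(hUVi v).2.2.1, (hUVi v).2.2.2.1⟩)
  -- the local conditions
  have hm_p₁ : p₁.valuation F (m - m₁) < WithZero.exp (-1 : ℤ) := by
    have h5 := hm1 p₁ (Finset.mem_insert_self _ _)
    simp only [if_true] at h5
    have h6 : Valued.v (algebraMap F (p₁.adicCompletion F) m - algebraMap F _ m₁) <
      p₁.valuation F π₁ := h5
    rwa [← map_sub, ts_valued, hπ₁] at h6
  have hm_p₂ : p₂.valuation F (m - m₂) < WithZero.exp (-1 : ℤ) := by
    have h5 := hm1 p₂ (Finset.mem_insert_of_mem (Finset.mem_insert_self _ _))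
    simp only [if_neg hp₂₁, if_true] at h5
    have h6 : Valued.v (algebraMap F (p₂.adicCompletion F) m - algebraMap F _ m₂) <
      p₂.valuation F π₂ := h5
    rwa [← map_sub, ts_valued, hπ₂] at h6
  have hc_p₁ : p₁.valuation F (c - 4 * (x ^ 3 + A * x + B) / (3 * x ^ 2 + A)) < 1 := by
    have h5 := hcc1 p₁ (Finset.mem_insert_self _ _)
    simp only [if_true] at h5
    have h6 : Valued.v (algebraMap F (p₁.adicCompletion F) c - algebraMap F _ _) <
      p₁.valuation F 1 := h5
    rwa [← map_sub, ts_valued, map_one] at h6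
  have hc_p₂ : p₂.valuation F c < 1 := by
    have h5 := hcc1 p₂ (Finset.mem_insert_of_mem (Finset.mem_insert_self _ _))
    simp only [if_neg hp₂₁, if_true] at h5
    have h6 : Valued.v (algebraMap F (p₂.adicCompletion F) c - algebraMap F _ 0) <
      p₂.valuation F 1 := h5
    rwa [← map_sub, ts_valued, map_one, sub_zero] at h6
  have hSp : ∀ v ∈ S', v ≠ p₁ ∧ v ≠ p₂ := by
    intro v hv
    refine ⟨?_, ?_⟩
    · rintro rfl
      exact b1 hv
    · rintro rfl
      exact c1 hv
  have hmU : ∀ v ∈ S', algebraMap F (v.adicCompletion F) m ∈ U v := by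
    intro v hv
    have h5 := hm1 v (Finset.mem_insert_of_mem (Finset.mem_insert_of_mem hv))
    simp only [if_neg (hSp v hv).1, if_neg (hSp v hv).2] at h5
    exact h5
  have hcV : ∀ v ∈ S', algebraMap F (v.adicCompletion F) c ∈ V v := by
    intro v hv
    have h5 := hcc1 v (Finset.mem_insert_of_mem (Finset.mem_insert_of_mem hv))
    simp only [if_neg (hSp v hv).1, if_neg (hSp v hv).2] at h5
    exact h5
  have hexp1 : WithZero.exp (-1 : ℤ) < (1 : WithZero (Multiplicative ℤ)) := by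
    rw [← WithZero.exp_zero, WithZero.exp_lt_exp]
    norm_num
  have hm_int : ∀ (p : HeightOneSpectrum (𝓞 F)) (m' : F), p.valuation F m' ≤ 1 →
      p.valuation F (m - m') < WithZero.exp (-1 : ℤ) → p.valuation F m ≤ 1 := by
    intro p m' h5 h6
    have h7 := (p.valuation F).map_add_le (h6.le.trans hexp1.le) h5
    rwa [sub_add_cancel] at h7
  have hm1' := hm_int p₁ m₁ hm₁ hm_p₁
  have hm2' := hm_int p₂ m₂ hm₂ hm_p₂
  have hNm : p₁.valuation F (h₀ * (1 - m ^ 2) - 2 * j₀ * m) = WithZero.exp (-1 : ℤ) := by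
    have h5 : h₀ * (1 - m ^ 2) - 2 * j₀ * m = (m - m₁) * (-(h₀ * (m + m₁)) - 2 * j₀) +
        (h₀ * (1 - m₁ ^ 2) - 2 * j₀ * m₁) := by ring
    rw [h5, Valuation.map_add_eq_of_lt_right, hN₁]
    rw [hN₁, map_mul]
    have h6 : p₁.valuation F (-(h₀ * (m + m₁)) - 2 * j₀) ≤ 1 := by
      apply Valuation.map_sub_le
      · rw [Valuation.map_neg, map_mul]
        exact mul_le_one' b10 ((p₁.valuation F).map_add_le hm1' hm₁)
      · rw [map_mul, b3, one_mul]
        exact b11
    calc p₁.valuation F (m - m₁) * p₁.valuation F (-(h₀ * (m + m₁)) - 2 * j₀)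
        ≤ p₁.valuation F (m - m₁) * 1 := by gcongr
      _ < WithZero.exp (-1 : ℤ) := by rw [mul_one]; exact hm_p₁
  have hN2m : p₂.valuation F (1 + m ^ 2) = WithZero.exp (-1 : ℤ) := by
    have h5 : 1 + m ^ 2 = (m - m₂) * (m + m₂) + (1 + m₂ ^ 2) := by ring
    rw [h5, Valuation.map_add_eq_of_lt_right, hN₂]
    rw [hN₂, map_mul]
    calc p₂.valuation F (m - m₂) * p₂.valuation F (m + m₂)
        ≤ p₂.valuation F (m - m₂) * 1 := by
          gcongr
          exact (p₂.valuation F).map_add_le hm2' hm₂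
      _ < WithZero.exp (-1 : ℤ) := by rw [mul_one]; exact hm_p₂
  have hm0 : 1 + m ^ 2 ≠ 0 := by
    intro h0
    rw [h0, map_zero] at hN2m
    exact WithZero.exp_ne_zero hN2m.symm
  have hbc : p₁.valuation F ((3 * x ^ 2 + A) * c - 4 * (x ^ 3 + A * x + B)) < 1 := by
    have h5 : (3 * x ^ 2 + A) * c - 4 * (x ^ 3 + A * x + B) =
        (3 * x ^ 2 + A) * (c - 4 * (x ^ 3 + A * x + B) / (3 * x ^ 2 + A)) := by
      rw [mul_sub, mul_div_cancel₀ _ hf1]
    rw [h5, map_mul, b5, one_mul]
    exact hc_p₁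
  obtain ⟨d1, d2, d3, d4, d5, d6, d7, d8⟩ := ts_cond1 (p₁.valuation F) b3 A B x h₀ j₀ m c b7 b8 b9
    b10 b11 hE0 b4 b5 b6 hm1' (by rw [hNm]; exact hexp1) hbc
  obtain ⟨e1, e2, e3, e4, e5, e6⟩ := ts_cond2 (p₂.valuation F) c3 A B x h₀ j₀ m c c7 c8 c9
    c10 c11 hE0 c4 hm2' hm0 (by rw [hN2m]; exact hexp1) hc_p₂
  rw [hNm] at d2
  rw [hN2m, ← WithZero.exp_neg, neg_neg] at e1 e2
  set h := rotH h₀ j₀ m with hh
  set j := rotJ h₀ j₀ m with hj
  have hE : x ^ 3 + A * x + B = h ^ 2 + j ^ 2 := by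
    rw [hE0, rot_sq h₀ j₀ m hm0]
  have hh0 : h ≠ 0 := by
    intro h0
    rw [h0, map_zero] at d2
    exact WithZero.exp_ne_zero d2.symm
  have hj0 : j ≠ 0 := by
    intro h0
    rw [h0, map_zero] at d3
    exact zero_ne_one d3
  have hc0 : c ≠ 0 := by
    intro h0
    rw [h0, map_zero] at d4
    exact zero_ne_one d4
  have ha0 : tsa A B x c ≠ 0 := by
    intro h0
    rw [h0, map_zero] at d5
    exact zero_ne_one d5
  have hS0 : tsa A B x c + tsb A B x c + 2 * h ^ 2 ≠ 0 := by
    intro h0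
    have h5 : p₁.valuation F (tsa A B x c + (tsb A B x c + 2 * h ^ 2)) = 1 := by
      rw [Valuation.map_add_eq_of_lt_left, d5]
      rw [d5]
      apply Valuation.map_add_lt _ d6
      rw [map_mul, b3, one_mul, map_pow, d2]
      exact pow_lt_one₀ zero_le hexp1 two_ne_zero
    rw [← add_assoc, h0, map_zero] at h5
    exact zero_ne_one h5
  refine ⟨x, c, h, j, hE, ha0, hc0, hh0, hj0, hS0, ?_, ?_, ?_, ?_, ?_⟩
  · intro y hy
    obtain ⟨P, hP⟩ := hS₀ p₂ c2
    rw [aeval_def, ← eval_map, map_tsQuart] at hy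
    refine ts_no_root_quart (P.valuation N) _ _ _ _ _ _ ?_ ?_ ?_ ?_ ?_ ?_ ?_ y hy
    · have := hP 2
      rwa [map_ofNat, c3] at this
    · rw [← map_tsa, hP, e3]
    · rw [← map_tsb, hP]
      exact e4
    · rw [← map_tsE1, hP]
      exact e5
    · rw [← map_tsE2, hP, e6]
    · rw [hP, e1]
    · rw [hP, e2]
  · intro z hz
    obtain ⟨P, hP⟩ := hS₀ p₁ b2
    rw [aeval_def, ← eval_map, map_tsResol] at hz
    refine ts_no_root_resol (P.valuation N) _ _ _ _ _ _ ?_ ?_ ?_ ?_ ?_ ?_ ?_ z hz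
    · have := hP 2
      rwa [map_ofNat, b3] at this
    · rw [← map_tsa, hP, d5]
    · rw [← map_tsb, hP]
      exact d6
    · rw [← map_tsE1, hP]
      exact d7
    · rw [← map_tsE2, hP]
      exact d8
    · rw [hP, d2]
    · rw [hP, d3]
  · intro v hv
    have hv' : v ∈ S' := Finset.mem_insert_of_mem hv
    exact ((hUV v hv').2.2.2.2 m c (hmU v hv') (hcV v hv')).2.2 hh0
  · intro v
    exact ((hUVi v).2.2.2.2 m c (hm2 v) (hcc2 v)).2 hh0
  · -- the place above two
    have hv₂S : v₂ ∈ S' := Finset.mem_insert_self _ _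
    obtain ⟨f1, f2, f3, f4, f5⟩ := (hO3 v₂ w (hw1 v₂ hv₂S)).2.1
    obtain ⟨f6, f7, -⟩ := (hUV v₂ hv₂S).2.2.2.2 m c (hmU v₂ hv₂S) (hcV v₂ hv₂S)
    set W := v₂.valuation F with hW
    have key : ∀ a : F, algebraMap F (v₂.adicCompletion F) a ∈
        {y | Valued.v (y - algebraMap F (v₂.adicCompletion F) 0) < v₂.valuation F 1} → W a < 1 := by
      intro a ha
      have h5 : Valued.v (algebraMap F (v₂.adicCompletion F) a - algebraMap F _ 0) <
        v₂.valuation F 1 := ha
      rwa [← map_sub, ts_valued, map_one, sub_zero] at h5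
    have g1 : W (1 / x) < 1 := by
      refine key _ ?_
      have e : algebraMap F (v₂.adicCompletion F) (1 / x) =
          1 / algebraMap F (v₂.adicCompletion F) x := by
        rw [map_div₀, map_one]
      rw [e]
      exact f1
    have g2 := key _ f2
    have g3 := key _ f3
    have g4 := key _ f4
    have g5 := key _ f5
    have g6 := key _ f6
    have g7 := key _ f7
    have hWx : W x ≠ 0 := (Valuation.ne_zero_iff _).mpr hx0
    have hWx' : 0 < W x := zero_lt_iff.mpr hWx
    have hdiv : ∀ a b : F, b ≠ 0 → W (a / b) < 1 → W a < W b := by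
      intro a b hb h5
      have hb' : 0 < W b := zero_lt_iff.mpr ((Valuation.ne_zero_iff _).mpr hb)
      rwa [map_div₀, div_lt_one₀ hb'] at h5
    have h20 : (2 : F) ≠ 0 := two_ne_zero
    have h80 : (8 : F) ≠ 0 := by norm_num
    have h160 : (16 : F) ≠ 0 := by norm_num
    have k1 := hdiv _ _ hx0 g1
    have k2 := hdiv _ _ hx0 g2
    have k3 := hdiv _ _ hx0 g3
    have k4 := hdiv _ _ (mul_ne_zero h80 (pow_ne_zero 2 hx0)) g4
    have k5 := hdiv _ _ (mul_ne_zero h80 (pow_ne_zero 3 hx0)) g5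
    have k6 := hdiv _ _ (mul_ne_zero h80 hx0) g6
    have k7 := hdiv _ _ (mul_ne_zero h160 (pow_ne_zero 3 hx0)) g7
    rw [map_one] at k1
    have hW2 : W 2 < 1 := by
      have h := (HeightOneSpectrum.valuation_lt_one_iff_mem (K := F) v₂ 2).2 hv₂
      have e : (algebraMap (𝓞 F) F) 2 = 2 := map_ofNat (algebraMap (𝓞 F) F) 2
      have h' : v₂.valuation F ((algebraMap (𝓞 F) F) 2) < 1 := h
      rwa [e] at h'
    intro M _ _ _
    obtain ⟨Q, e', he', hQ⟩ := exists_place_above F M v₂
    have hQm : ∀ a : F, Q.valuation M (algebraMap F M a) = W a ^ e' := hQ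
    have hlt : ∀ a b : F, W a < W b →
        Q.valuation M (algebraMap F M a) < Q.valuation M (algebraMap F M b) := by
      intro a b hab
      rw [hQm, hQm]
      exact pow_lt_pow_left₀ hab zero_le he'
    have hn2 : algebraMap F M 2 = 2 := map_ofNat _ 2
    have hn3 : algebraMap F M 3 = 3 := map_ofNat _ 3
    have hn4 : algebraMap F M 4 = 4 := map_ofNat _ 4
    have hn8 : algebraMap F M 8 = 8 := map_ofNat _ 8
    have hn16 : algebraMap F M 16 = 16 := map_ofNat _ 16
    refine ⟨Q.valuation M, ?_, ?_, hlt _ _ k2, hlt _ _ k3, ?_, ?_, ?_, ?_⟩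
    · have := hlt 2 1 (by rw [map_one]; exact hW2)
      rwa [hn2, map_one, map_one] at this
    · have := hlt 1 x (by rw [map_one]; exact k1)
      rwa [map_one, map_one] at this
    · have := hlt _ _ k4
      rwa [map_mul, map_pow, hn8, map_mul, map_pow] at this
    · have := hlt _ _ k5
      rwa [map_mul, map_pow, hn8, map_mul, map_pow] at this
    · have := hlt _ _ k6
      rwa [map_sub, map_mul, map_mul, hn3, hn4, map_mul, hn8, map_mul] at this
    · have := hlt _ _ k7
      rwa [map_pow, map_pow, map_mul, map_pow, hn16, map_mul, map_pow] at this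

end Pool.Agent.Lib.MP_1a91b9_nt
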