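import Pool.Agent.Lib.MP_1a91b9_nt.TSDefs
import Pool.Agent.Lib.MP_1a91b9_nt.S4Step

set_option autoImplicit false

namespace Pool.Agent.Lib.MP_1a91b9_nt

open IsDedekindDomain NumberField Polynomial IntermediateField

/-- The cubic `tsq` in terms of the symmetric functions. -/
private theorem tsRel_expand {M : Type*} [Field M] (A B x c h j θ : M) (ha : tsa A B x c ≠ 0)
    (hE : x ^ 3 + A * x + B = h ^ 2 + j ^ 2) :
    tsq A B x c h θ = tsa A B x c ^ 2 * (θ ^ 3 - tse1 A B x c h * θ ^ 2 + tse2 A B x c h * θ) -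
      4 * h ^ 2 * j ^ 2 := by
  have e1 : tsa A B x c ^ 2 * tse1 A B x c h =
      4 * h ^ 2 * tsE2 A B x c - 2 * tsa A B x c * tsb A B x c := by
    rw [tse1, mul_div_cancel₀ _ (pow_ne_zero 2 ha)]
  have e2 : tsa A B x c ^ 2 * tse2 A B x c h =
      tsb A B x c ^ 2 - 4 * h ^ 2 * tsE1 A B x c := by
    rw [tse2, mul_div_cancel₀ _ (pow_ne_zero 2 ha)]
  have : tsq A B x c h θ = θ * (tsa A B x c * θ + tsb A B x c) ^ 2 -
    4 * h ^ 2 * ((h ^ 2 + j ^ 2) + tsE1 A B x c * θ + tsE2 A B x c * θ ^ 2 - h ^ 2) := by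
    rw [tsq, hE]
  rw [this]
  linear_combination θ ^ 2 * e1 - θ * e2

theorem ts_rel {M : Type*} [Field M] [CharZero M] (A B x c h j : M) (ha : tsa A B x c ≠ 0)
    (hE : x ^ 3 + A * x + B = h ^ 2 + j ^ 2) (y : Fin 4 → M)
    (hy : tsQuart A B x c h j = ∏ i, (X - C (y i))) :
    y 0 + y 1 + y 2 + y 3 = 0 ∧
      ∀ θ, tsq A B x c h θ = tsa A B x c ^ 2 * ∏ i : Fin 3, (θ - ((y 0 + y i.succ) / 2) ^ 2) := by
  obtain ⟨r0, r1, r2, r3⟩ := quart_roots_sum _ _ _ y hy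
  refine ⟨r0, fun θ => ?_⟩
  rw [tsRel_expand A B x c h j θ ha hE, Fin.prod_univ_three]
  have hp1 : (Fin.succ (0 : Fin 3)) = 1 := rfl
  have hp2 : (Fin.succ (1 : Fin 3)) = 2 := rfl
  have hp3 : (Fin.succ (2 : Fin 3)) = 3 := rfl
  rw [hp1, hp2, hp3]
  have e3 : y 3 = -(y 0 + y 1 + y 2) := by linear_combination r0
  have hQ : tsa A B x c * tsQ A B x c h j = -16 * h * j := by
    rw [tsQ, mul_div_cancel₀ _ ha]
  rw [r2] at hQ
  have hP : tse1 A B x c h = -(y 0 * y 1 + y 2 * y 3 - (y 0 + y 1) ^ 2) / 2 := by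
    rw [← r1, tsP]; ring
  have hR : tse2 A B x c h = (tse1 A B x c h ^ 2 - y 0 * y 1 * (y 2 * y 3)) / 4 := by
    rw [← r3, tsR]; ring
  rw [hR, hP]
  rw [e3] at hQ ⊢
  have hQ2 : (tsa A B x c * ((y 0 + y 1) * (y 0 * y 1 - y 2 * -(y 0 + y 1 + y 2)))) ^ 2 =
      (-16 * h * j) ^ 2 := by rw [hQ]
  linear_combination (1/64 : M) * hQ2

end Pool.Agent.Lib.MP_1a91b9_nt
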