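import Pool.Agent.Lib.MP_1a91b9_nt.TSSum
import Pool.Agent.Lib.MP_1a91b9_nt.TSNT
import Pool.Agent.Lib.MP_1a91b9_nt.TSRel

/-!
# Rank growth over the subfields of the totally split quartic extensions
-/

set_option autoImplicit false

namespace Pool.Agent.Lib.MP_1a91b9_nt

open IsDedekindDomain NumberField Polynomial IntermediateField

universe u

/-- The Galois group permutes the points attached to the parameters. -/
theorem galRho_tsPt {K M : Type u} [Field K] [Field M] [Algebra K M] [DecidableEq M]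
    (V : WeierstrassCurve K) (x c h : K) (σ : Gal(M/K)) (t : M) :
    galRho V σ (tsPt (V.baseChange M).toAffine (algebraMap K M x) (algebraMap K M c)
      (algebraMap K M h) t) = tsPt (V.baseChange M).toAffine (algebraMap K M x) (algebraMap K M c)
      (algebraMap K M h) (σ t) := by
  have key : ∀ (τ : Gal(M/K)) (s : M),
      τ (tsX (algebraMap K M x) (algebraMap K M c) s) =
        tsX (algebraMap K M x) (algebraMap K M c) (τ s) ∧
      τ (tsY (V.baseChange M).toAffine.a₄ (V.baseChange M).toAffine.a₆ (algebraMap K M x)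
        (algebraMap K M c) (algebraMap K M h) s) =
        tsY (V.baseChange M).toAffine.a₄ (V.baseChange M).toAffine.a₆ (algebraMap K M x)
        (algebraMap K M c) (algebraMap K M h) (τ s) := by
    intro τ s
    have e4 : τ (V.baseChange M).toAffine.a₄ = (V.baseChange M).toAffine.a₄ := by
      change τ (algebraMap K M V.a₄) = algebraMap K M V.a₄
      exact τ.commutes _
    have e6 : τ (V.baseChange M).toAffine.a₆ = (V.baseChange M).toAffine.a₆ := by
      change τ (algebraMap K M V.a₆) = algebraMap K M V.a₆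
      exact τ.commutes _
    have h1 := map_tsX (τ : M →+* M) (algebraMap K M x) (algebraMap K M c) s
    have h2 := map_tsY (τ : M →+* M) (V.baseChange M).toAffine.a₄ (V.baseChange M).toAffine.a₆
      (algebraMap K M x) (algebraMap K M c) (algebraMap K M h) s
    have ec : ∀ a : K, ((τ : M →+* M) : M → M) (algebraMap K M a) = algebraMap K M a :=
      fun a => τ.commutes a
    have e4' : ((τ : M →+* M) : M → M) (V.baseChange M).toAffine.a₄ =
      (V.baseChange M).toAffine.a₄ := e4
    have e6' : ((τ : M →+* M) : M → M) (V.baseChange M).toAffine.a₆ =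
      (V.baseChange M).toAffine.a₆ := e6
    rw [ec, ec] at h1
    rw [ec, ec, ec, e4', e6'] at h2
    exact ⟨h1, h2⟩
  have hns : ∀ (τ : Gal(M/K)) (s : M), (V.baseChange M).toAffine.Nonsingular
      (tsX (algebraMap K M x) (algebraMap K M c) s)
      (tsY (V.baseChange M).toAffine.a₄ (V.baseChange M).toAffine.a₆ (algebraMap K M x)
        (algebraMap K M c) (algebraMap K M h) s) →
      (V.baseChange M).toAffine.Nonsingular
      (tsX (algebraMap K M x) (algebraMap K M c) (τ s))
      (tsY (V.baseChange M).toAffine.a₄ (V.baseChange M).toAffine.a₆ (algebraMap K M x)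
        (algebraMap K M c) (algebraMap K M h) (τ s)) := by
    intro τ s hs
    rw [← (key τ s).1, ← (key τ s).2]
    exact (V.toAffine.baseChange_nonsingular
      (f := ((τ : M ≃ₐ[K] M) : M →ₐ[K] M)) (τ : M ≃ₐ[K] M).injective _ _).mpr hs
  by_cases hn : (V.baseChange M).toAffine.Nonsingular
      (tsX (algebraMap K M x) (algebraMap K M c) t)
      (tsY (V.baseChange M).toAffine.a₄ (V.baseChange M).toAffine.a₆ (algebraMap K M x)
        (algebraMap K M c) (algebraMap K M h) t)
  · have hn' := hns σ t hn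
    rw [tsPt, dif_pos hn, tsPt, dif_pos hn']
    change WeierstrassCurve.Affine.Point.some _ _ _ = WeierstrassCurve.Affine.Point.some _ _ _
    rw [WeierstrassCurve.Affine.Point.some.injEq]
    exact key σ t
  · have hn' : ¬ (V.baseChange M).toAffine.Nonsingular
      (tsX (algebraMap K M x) (algebraMap K M c) (σ t))
      (tsY (V.baseChange M).toAffine.a₄ (V.baseChange M).toAffine.a₆ (algebraMap K M x)
        (algebraMap K M c) (algebraMap K M h) (σ t)) := by
      intro h'
      have h'' := hns σ⁻¹ (σ t) h'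
      have e : (σ⁻¹ : Gal(M/K)) (σ t) = t := by
        change (σ⁻¹ * σ) t = t
        rw [inv_mul_cancel]
        rfl
      rw [e] at h''
      exact hn h''
    rw [tsPt, dif_neg hn, tsPt, dif_neg hn', map_zero]

/-- Rank growth from points attached to the roots of an irreducible polynomial. -/
theorem growth_orbit {K M : Type u} [Field K] [NumberField K] [Field M] [NumberField M]
    [Algebra K M] [IsGalois K M] [DecidableEq M] (W : WeierstrassCurve K) (f : K[X])
    (hf : Irreducible f) {n : ℕ} (y : Fin (n + 1) → M) (hroot : ∀ i, aeval (y i) f = 0)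
    (P : Fin (n + 1) → (W.baseChange M).toAffine.Point)
    (hP : ∀ (σ : Gal(M/K)) (i k : Fin (n + 1)), σ (y i) = y k → galRho W σ (P i) = P k)
    (hsum : ∑ i, P i = 0) (hnt : ∀ m : ℕ, m ≠ 0 → m • P 0 ≠ 0) :
    mwRank W + 1 ≤ mwRank (W.baseChange (fixedField (MulAction.stabilizer Gal(M/K) (y 0)))) := by
  have hmin : ∀ i, minpoly K (y i) = minpoly K (y 0) := by
    intro i
    rw [← minpoly.eq_of_irreducible hf (hroot i), ← minpoly.eq_of_irreducible hf (hroot 0)]
  have hσ : ∀ i, ∃ σ : Gal(M/K), σ (y 0) = y i := by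
    intro i
    obtain ⟨σ, hσ⟩ := (Normal.minpoly_eq_iff_mem_orbit (F := K) (E := M)).mp (hmin i)
    exact ⟨σ, hσ⟩
  choose s hs using hσ
  refine growth W _ (P 0) ?_ hnt s ?_
  · rw [mem_invSub]
    intro σ hσ
    exact hP σ 0 0 hσ
  · rw [← hsum]
    exact Finset.sum_congr rfl fun i _ => hP _ _ _ (hs i)

theorem ts_ranks {K M : Type u} [Field K] [NumberField K] [Field M] [NumberField M] [Algebra K M]
    [IsGalois K M] (V : WeierstrassCurve K)
    [V.IsElliptic] (h1 : V.a₁ = 0) (h2 : V.a₂ = 0) (h3 : V.a₃ = 0)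
    (x c h j : K) (hE : x ^ 3 + V.a₄ * x + V.a₆ = h ^ 2 + j ^ 2)
    (ha : tsa V.a₄ V.a₆ x c ≠ 0) (hc0 : c ≠ 0) (hh0 : h ≠ 0) (hj0 : j ≠ 0)
    (hS : tsa V.a₄ V.a₆ x c + tsb V.a₄ V.a₆ x c + 2 * h ^ 2 ≠ 0)
    (iQ : Irreducible (tsQuart V.a₄ V.a₆ x c h j))
    (iG : Irreducible (tsResol V.a₄ V.a₆ x c h j))
    (hspl : ((tsQuart V.a₄ V.a₆ x c h j).map (algebraMap K M)).Splits)
    (V' : Valuation M (WithZero (Multiplicative ℤ)))
    (v2 : V' 2 < 1) (vx : 1 < V' (algebraMap K M x))
    (vA : V' (algebraMap K M V.a₄) < V' (algebraMap K M x))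
    (vB : V' (algebraMap K M V.a₆) < V' (algebraMap K M x))
    (vA8 : V' (algebraMap K M V.a₄) < V' 8 * V' (algebraMap K M x) ^ 2)
    (vB8 : V' (algebraMap K M V.a₆) < V' 8 * V' (algebraMap K M x) ^ 3)
    (vc : V' (3 * algebraMap K M c - 4 * algebraMap K M x) < V' 8 * V' (algebraMap K M x))
    (vh : V' (algebraMap K M h) ^ 2 < V' 16 * V' (algebraMap K M x) ^ 3) :
    ∃ (y z θ : M), aeval y (tsQuart V.a₄ V.a₆ x c h j) = 0 ∧
      aeval z (tsResol V.a₄ V.a₆ x c h j) = 0 ∧ θ ^ 2 = z ∧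
      (∀ g : Gal(M/K), Nat.card {b : M // aeval b (tsResol V.a₄ V.a₆ x c h j) = 0 ∧ g b = b} +
        Nat.card {b : M // aeval b (tsQuart V.a₄ V.a₆ x c h j) = 0 ∧ g b = b} =
        Nat.card {b : M // aeval b ((tsResol V.a₄ V.a₆ x c h j).comp (X ^ 2)) = 0 ∧ g b = b} + 1) ∧
      mwRank V + 1 ≤ mwRank (V.baseChange (fixedField (MulAction.stabilizer Gal(M/K) y))) ∧
      mwRank V + 1 ≤ mwRank (V.baseChange (fixedField (MulAction.stabilizer Gal(M/K) z))) := by
  classical
  set φ := algebraMap K M with hφ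
  have hinj : Function.Injective φ := φ.injective
  have hcM : CharZero M := charZero_of_injective_algebraMap hinj
  obtain ⟨y, hy⟩ := splits_prod _ ((quart_monic _ _ _).1.map φ) hspl 4 (by
    rw [natDegree_map]
    exact (quart_monic _ _ _).2)
  have hyq : tsQuart (φ V.a₄) (φ V.a₆) (φ x) (φ c) (φ h) (φ j) = ∏ i, (X - C (y i)) := by
    rw [← map_tsQuart]
    exact hy
  have haφ : tsa (φ V.a₄) (φ V.a₆) (φ x) (φ c) ≠ 0 := by
    rw [← map_tsa]
    exact (_root_.map_ne_zero φ).mpr ha
  have hEφ : φ x ^ 3 + φ V.a₄ * φ x + φ V.a₆ = φ h ^ 2 + φ j ^ 2 := by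
    rw [← map_pow, ← map_mul, ← map_add, ← map_add, hE, map_add, map_pow, map_pow]
  obtain ⟨hy0, hq⟩ := ts_rel (φ V.a₄) (φ V.a₆) (φ x) (φ c) (φ h) (φ j) haφ hEφ y hyq
  obtain ⟨r0, r1, r2, r3⟩ := quart_roots_sum _ _ _ y hyq
  set t : Fin 3 → M := fun i => (y 0 + y i.succ) / 2 with ht
  set z : Fin 3 → M := fun i => (y 0 + y i.succ) ^ 2 with hz
  have hzt : ∀ i, z i = 4 * t i ^ 2 := by
    intro i
    simp only [hz, ht]
    ring
  have e3 : y 3 = -(y 0 + y 1 + y 2) := by linear_combination r0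
  have hzq : tsResol (φ V.a₄) (φ V.a₆) (φ x) (φ c) (φ h) (φ j) = ∏ i, (X - C (z i)) := by
    rw [Fin.prod_univ_three, tsResol, resol, r1, r2, r3]
    simp only [hz, Fin.succ_zero_eq_one, Fin.succ_one_eq_two, show (2 : Fin 3).succ = 3 from rfl, e3]
    simp only [map_add, map_sub, map_mul, map_pow, map_neg, map_ofNat C]
    ring
  have hzroot : ∀ i, aeval (z i) (tsResol V.a₄ V.a₆ x c h j) = 0 := by
    intro i
    rw [aeval_def, ← eval_map, map_tsResol, hzq, eval_prod]
    exact Finset.prod_eq_zero (Finset.mem_univ i) (by simp)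
  have hyroot : ∀ i, aeval (y i) (tsQuart V.a₄ V.a₆ x c h j) = 0 := by
    intro i
    rw [aeval_def, ← eval_map, map_tsQuart, hyq, eval_prod]
    exact Finset.prod_eq_zero (Finset.mem_univ i) (by simp)
  have hzinj : Function.Injective z := by
    have hs : ((tsResol V.a₄ V.a₆ x c h j).map φ).Separable := iG.separable.map
    rw [map_tsResol, hzq] at hs
    exact separable_prod_X_sub_C_iff.mp hs
  have hyinj : Function.Injective y := by
    have hs : ((tsQuart V.a₄ V.a₆ x c h j).map φ).Separable := iQ.separable.map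
    rw [map_tsQuart, hyq] at hs
    exact separable_prod_X_sub_C_iff.mp hs
  have htinj : ∀ i k, i ≠ k → t i ^ 2 ≠ t k ^ 2 := by
    intro i k hik h0
    apply hik
    apply hzinj
    rw [hzt, hzt, h0]
  have hqt : ∀ i, tsq (φ V.a₄) (φ V.a₆) (φ x) (φ c) (φ h) (t i ^ 2) = 0 := by
    intro i
    rw [hq, Finset.prod_eq_zero (Finset.mem_univ i) (sub_self _), mul_zero]
  -- every root of the resolvent is some `z i`
  have hzall : ∀ b : M, aeval b (tsResol V.a₄ V.a₆ x c h j) = 0 → ∃ i, z i = b := by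
    intro b hb
    rw [aeval_def, ← eval_map, map_tsResol, hzq, eval_prod, Finset.prod_eq_zero_iff] at hb
    obtain ⟨i, _, hi⟩ := hb
    refine ⟨i, ?_⟩
    simp only [eval_sub, eval_X, eval_C] at hi
    linear_combination -hi
  have hyall : ∀ b : M, aeval b (tsQuart V.a₄ V.a₆ x c h j) = 0 → ∃ i, y i = b := by
    intro b hb
    rw [aeval_def, ← eval_map, map_tsQuart, hyq, eval_prod, Finset.prod_eq_zero_iff] at hb
    obtain ⟨i, _, hi⟩ := hb
    refine ⟨i, ?_⟩
    simp only [eval_sub, eval_X, eval_C] at hi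
    linear_combination -hi
  have hσroot : ∀ (σ : Gal(M/K)) (f : K[X]) (b : M), aeval b f = 0 → aeval (σ b) f = 0 := by
    intro σ f b hb
    have e : σ b = ((σ : M ≃ₐ[K] M) : M →ₐ[K] M) b := rfl
    rw [e, Polynomial.aeval_algHom_apply, hb, map_zero]
  -- the curve over `M`
  have hell : WeierstrassCurve.IsElliptic (V.baseChange M).toAffine :=
    inferInstanceAs (V.map (algebraMap K M)).IsElliptic
  have ba1 : (V.baseChange M).toAffine.a₁ = 0 := by
    change φ V.a₁ = 0
    rw [h1, map_zero]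
  have ba2 : (V.baseChange M).toAffine.a₂ = 0 := by
    change φ V.a₂ = 0
    rw [h2, map_zero]
  have ba3 : (V.baseChange M).toAffine.a₃ = 0 := by
    change φ V.a₃ = 0
    rw [h3, map_zero]
  have hcφ : φ c ≠ 0 := (_root_.map_ne_zero φ).mpr hc0
  have hhφ : φ h ≠ 0 := (_root_.map_ne_zero φ).mpr hh0
  have hjφ : φ j ≠ 0 := (_root_.map_ne_zero φ).mpr hj0
  have hSφ : tsa (φ V.a₄) (φ V.a₆) (φ x) (φ c) + tsb (φ V.a₄) (φ V.a₆) (φ x) (φ c) +
      2 * φ h ^ 2 ≠ 0 := by
    have e : φ (tsa V.a₄ V.a₆ x c + tsb V.a₄ V.a₆ x c + 2 * h ^ 2) =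
        tsa (φ V.a₄) (φ V.a₆) (φ x) (φ c) + tsb (φ V.a₄) (φ V.a₆) (φ x) (φ c) + 2 * φ h ^ 2 := by
      rw [map_add, map_add, map_mul, map_pow, map_tsa, map_tsb, map_ofNat φ 2]
    rw [← e]
    exact (_root_.map_ne_zero φ).mpr hS
  have hfφ : φ x ^ 3 + φ V.a₄ * φ x + φ V.a₆ - φ h ^ 2 ≠ 0 := by
    rw [hEφ, add_sub_cancel_left]
    exact pow_ne_zero 2 hjφ
  have hσXR : ∀ (σ : Gal(M/K)) (θ : M), σ (tsXR (φ V.a₄) (φ V.a₆) (φ x) (φ c) (φ h) θ) =
      tsXR (φ V.a₄) (φ V.a₆) (φ x) (φ c) (φ h) (σ θ) := by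
    intro σ θ
    have ec : ∀ a : K, σ (φ a) = φ a := fun a => σ.commutes a
    have h2' : σ (2 : M) = 2 := map_ofNat σ 2
    have h4' : σ (4 : M) = 4 := map_ofNat σ 4
    have h6' : σ (6 : M) = 6 := map_ofNat σ 6
    have h3' : σ (3 : M) = 3 := map_ofNat σ 3
    simp only [tsXR, tsL, tsa, tsb, map_sub, map_add, map_mul, map_div₀, map_pow, map_one, ec, h2',
      h4', h6', h3']
  have heq : ∀ i k l, i ≠ k → tsXR (φ V.a₄) (φ V.a₆) (φ x) (φ c) (φ h) (t i ^ 2) =
      tsXR (φ V.a₄) (φ V.a₆) (φ x) (φ c) (φ h) (t k ^ 2) →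
      tsXR (φ V.a₄) (φ V.a₆) (φ x) (φ c) (φ h) (t l ^ 2) =
        tsXR (φ V.a₄) (φ V.a₆) (φ x) (φ c) (φ h) (t i ^ 2) := by
    intro i k l hik hX
    by_cases hli : l = i
    · rw [hli]
    by_cases hlk : l = k
    · rw [hlk, hX]
    -- a Galois element with `z i ↦ z l`
    have hmin : minpoly K (z l) = minpoly K (z i) := by
      rw [← minpoly.eq_of_irreducible iG (hzroot l), ← minpoly.eq_of_irreducible iG (hzroot i)]
    obtain ⟨σ, hσ⟩ := (Normal.minpoly_eq_iff_mem_orbit (F := K) (E := M)).mp hmin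
    have hσ' : σ (z i) = z l := hσ
    obtain ⟨k', hk'⟩ := hzall (σ (z k)) (hσroot σ _ _ (hzroot k))
    have hk'l : k' ≠ l := by
      rintro rfl
      rw [← hσ'] at hk'
      exact hik (hzinj (σ.injective hk'))
    have h4 : (4 : M) ≠ 0 := by norm_num
    have hs4 : σ (4 : M) = 4 := map_ofNat σ 4
    have e1 : σ (t i ^ 2) = t l ^ 2 := by
      have := hσ'
      rw [hzt, hzt, map_mul, hs4] at this
      exact mul_left_cancel₀ h4 this
    have e2 : σ (t k ^ 2) = t k' ^ 2 := by
      have := hk'.symm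
      rw [hzt, hzt, map_mul, hs4] at this
      exact mul_left_cancel₀ h4 this
    have e4 : tsXR (φ V.a₄) (φ V.a₆) (φ x) (φ c) (φ h) (t l ^ 2) =
        tsXR (φ V.a₄) (φ V.a₆) (φ x) (φ c) (φ h) (t k' ^ 2) := by
      rw [← e1, ← e2, ← hσXR, ← hσXR, hX]
    have hcases : k' = i ∨ k' = k := by
      revert hik hli hlk hk'l
      clear * -
      revert i k l k'
      decide
    rcases hcases with rfl | rfl
    · exact e4
    · rw [e4, hX]
  -- the points
  set Pt : M → (V.baseChange M).toAffine.Point := fun s =>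
    tsPt (V.baseChange M).toAffine (φ x) (φ c) (φ h) s with hPt
  have hgal : ∀ (σ : Gal(M/K)) (s : M), galRho V σ (Pt s) = Pt (σ s) := fun σ s =>
    galRho_tsPt V x c h σ s
  have hsum3 : ∑ i, (Pt (t i) + Pt (-t i)) = 0 :=
    ts_sum (V.baseChange M).toAffine hell ba1 ba2 ba3 (φ x) (φ c) (φ h) haφ hcφ hhφ hSφ hfφ t hq
      htinj heq
  have hnt : ∀ i (n : ℕ), n ≠ 0 → n • (Pt (t i) + Pt (-t i)) ≠ 0 ∧
      n • (Pt (t i) - Pt (-t i)) ≠ 0 := fun i n hn =>
    ts_nt V' v2 (V.baseChange M).toAffine hell ba1 ba2 ba3 (φ x) (φ c) (φ h) hhφ hcφ vx vA vB vA8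
      vB8 vc vh (t i) (hqt i) n hn
  refine ⟨y 0, z 0, y 0 + y 1, hyroot 0, hzroot 0, ?_, ?_, ?_, ?_⟩
  · simp [hz]
  · intro g
    exact s4_count _ _ _ iQ iG y hy g
  · -- the quartic
    set P : Fin 4 → (V.baseChange M).toAffine.Point := fun i =>
      ∑ k ∈ Finset.univ.erase i, Pt ((y i + y k) / 2) with hP
    have hP0 : P 0 = Pt (t 0) + Pt (t 1) + Pt (t 2) := by
      have e : (Finset.univ.erase 0 : Finset (Fin 4)) = {1, 2, 3} := by decide
      simp only [hP, e]
      rw [Finset.sum_insert (by decide), Finset.sum_insert (by decide), Finset.sum_singleton]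
      simp only [ht, Fin.succ_zero_eq_one, Fin.succ_one_eq_two, show (2 : Fin 3).succ = 3 from rfl]
      abel
    have hP1 : P 1 = Pt (t 0) + Pt (-t 2) + Pt (-t 1) := by
      have e : (Finset.univ.erase 1 : Finset (Fin 4)) = {0, 2, 3} := by decide
      simp only [hP, e]
      rw [Finset.sum_insert (by decide), Finset.sum_insert (by decide), Finset.sum_singleton]
      have e0 : (y 1 + y 0) / 2 = t 0 := by
        simp only [ht, Fin.succ_zero_eq_one]
        ring
      have e1 : (y 1 + y 2) / 2 = -t 2 := by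
        simp only [ht, show (2 : Fin 3).succ = 3 from rfl, e3]
        ring
      have e2 : (y 1 + y 3) / 2 = -t 1 := by
        simp only [ht, Fin.succ_one_eq_two, e3]
        ring
      rw [e0, e1, e2]
      abel
    have hP2 : P 2 = Pt (t 1) + Pt (-t 2) + Pt (-t 0) := by
      have e : (Finset.univ.erase 2 : Finset (Fin 4)) = {0, 1, 3} := by decide
      simp only [hP, e]
      rw [Finset.sum_insert (by decide), Finset.sum_insert (by decide), Finset.sum_singleton]
      have e0 : (y 2 + y 0) / 2 = t 1 := by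
        simp only [ht, Fin.succ_one_eq_two]
        ring
      have e1 : (y 2 + y 1) / 2 = -t 2 := by
        simp only [ht, show (2 : Fin 3).succ = 3 from rfl, e3]
        ring
      have e2 : (y 2 + y 3) / 2 = -t 0 := by
        simp only [ht, Fin.succ_zero_eq_one, e3]
        ring
      rw [e0, e1, e2]
      abel
    have hP3 : P 3 = Pt (t 2) + Pt (-t 1) + Pt (-t 0) := by
      have e : (Finset.univ.erase 3 : Finset (Fin 4)) = {0, 1, 2} := by decide
      simp only [hP, e]
      rw [Finset.sum_insert (by decide), Finset.sum_insert (by decide), Finset.sum_singleton]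
      have e0 : (y 3 + y 0) / 2 = t 2 := by
        simp only [ht, show (2 : Fin 3).succ = 3 from rfl]
        ring
      have e1 : (y 3 + y 1) / 2 = -t 1 := by
        simp only [ht, Fin.succ_one_eq_two, e3]
        ring
      have e2 : (y 3 + y 2) / 2 = -t 0 := by
        simp only [ht, Fin.succ_zero_eq_one, e3]
        ring
      rw [e0, e1, e2]
      abel
    have hσP : ∀ (σ : Gal(M/K)) (i k : Fin 4), σ (y i) = y k → galRho V σ (P i) = P k := by
      intro σ i k hik
      have hex : ∀ l, ∃ l', y l' = σ (y l) := fun l => hyall _ (hσroot σ _ _ (hyroot l))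
      choose π hπ using hex
      have hπinj : Function.Injective π := by
        intro l l' hl
        apply hyinj
        apply σ.injective
        rw [← hπ, ← hπ, hl]
      have hπi : π i = k := hyinj (by rw [hπ, hik])
      have hs2 : σ (2 : M) = 2 := map_ofNat σ 2
      simp only [hP, map_sum, hgal]
      have hterm : ∀ l, σ ((y i + y l) / 2) = (y k + y (π l)) / 2 := by
        intro l
        rw [map_div₀, map_add, hs2, hik, hπ]
      simp only [hterm]
      refine Finset.sum_bij (fun l _ => π l) ?_ ?_ ?_ ?_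
      · intro l hl
        rw [Finset.mem_erase] at hl ⊢
        refine ⟨?_, Finset.mem_univ _⟩
        rw [← hπi]
        exact fun h0 => hl.1 (hπinj h0)
      · intro l _ l' _ hl
        exact hπinj hl
      · intro b hb
        obtain ⟨l, hl⟩ := (Finite.injective_iff_surjective.mp hπinj) b
        refine ⟨l, ?_, hl⟩
        rw [Finset.mem_erase] at hb ⊢
        refine ⟨?_, Finset.mem_univ _⟩
        rintro rfl
        exact hb.1 (by rw [← hl, hπi])
      · intro l _
        rfl
    have hsum4 : ∑ i, P i = 0 := by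
      rw [Fin.sum_univ_four, hP0, hP1, hP2, hP3]
      rw [Fin.sum_univ_three] at hsum3
      have e : Pt (t 0) + Pt (t 1) + Pt (t 2) + (Pt (t 0) + Pt (-t 2) + Pt (-t 1)) +
          (Pt (t 1) + Pt (-t 2) + Pt (-t 0)) + (Pt (t 2) + Pt (-t 1) + Pt (-t 0)) =
          (2 : ℕ) • ((Pt (t 0) + Pt (-t 0)) + (Pt (t 1) + Pt (-t 1)) + (Pt (t 2) + Pt (-t 2))) := by
        rw [two_nsmul]
        abel
      rw [e, hsum3, nsmul_zero]
    refine growth_orbit V _ iQ y hyroot P hσP hsum4 ?_
    intro m hm hm0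
    -- `P 1` is a conjugate of `P 0`
    have hmin : minpoly K (y 1) = minpoly K (y 0) := by
      rw [← minpoly.eq_of_irreducible iQ (hyroot 1), ← minpoly.eq_of_irreducible iQ (hyroot 0)]
    obtain ⟨σ, hσ⟩ := (Normal.minpoly_eq_iff_mem_orbit (F := K) (E := M)).mp hmin
    have hσ' : σ (y 0) = y 1 := hσ
    have hm1 : m • P 1 = 0 := by
      rw [← hσP σ 0 1 hσ', ← map_nsmul, hm0, map_zero]
    have hsum : P 0 + P 1 = Pt (t 0) - Pt (-t 0) := by
      rw [Fin.sum_univ_three] at hsum3
      rw [hP0, hP1]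
      have e : Pt (t 0) + Pt (t 1) + Pt (t 2) + (Pt (t 0) + Pt (-t 2) + Pt (-t 1)) =
          ((Pt (t 0) + Pt (-t 0)) + (Pt (t 1) + Pt (-t 1)) + (Pt (t 2) + Pt (-t 2))) +
            (Pt (t 0) - Pt (-t 0)) := by
        abel
      rw [e, hsum3, zero_add]
    refine (hnt 0 m hm).2 ?_
    rw [← hsum, nsmul_add, hm0, hm1, add_zero]
  · -- the cubic
    refine growth_orbit V _ iG z hzroot (fun i => Pt (t i) + Pt (-t i)) ?_ hsum3 ?_
    · intro σ i k hik
      have h4 : (4 : M) ≠ 0 := by norm_num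
      have hs4 : σ (4 : M) = 4 := map_ofNat σ 4
      have e1 : σ (t i) ^ 2 = t k ^ 2 := by
        have := hik
        rw [hzt, hzt, map_mul, hs4, map_pow] at this
        exact mul_left_cancel₀ h4 this
      rw [map_add, hgal, hgal, map_neg]
      rcases sq_eq_sq_iff_eq_or_eq_neg.mp e1 with h5 | h5
      · rw [h5]
      · rw [h5, neg_neg, add_comm]
    · intro m hm
      exact (hnt 0 m hm).1

end Pool.Agent.Lib.MP_1a91b9_nt
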