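import Pool.Agent.Lib.MP_1a91b9_nt.TSDefs
import Mathlib.GroupTheory.SpecificGroups.Alternating.KleinFour
import Mathlib.GroupTheory.Perm.ViaEmbedding
import Mathlib.GroupTheory.Solvable
import Mathlib.FieldTheory.PolynomialGaloisGroup

/-!
# The Galois group of a quartic is solvable
-/

set_option autoImplicit false

namespace Pool.Agent.Lib.MP_1a91b9_nt

open IsDedekindDomain NumberField Polynomial IntermediateField
open scoped Topology

private theorem tsSolv_alt : Group.IsSolvable (alternatingGroup (Fin 4)) := by
  have h4 : Nat.card (Fin 4) = 4 := by simp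
  have hn : (alternatingGroup.kleinFour (Fin 4)).Normal := alternatingGroup.normal_kleinFour h4
  have hK : IsKleinFour (alternatingGroup.kleinFour (Fin 4)) :=
    alternatingGroup.kleinFour_isKleinFour h4
  rw [Group.isSolvable_iff_subgroup_quotient (alternatingGroup.kleinFour (Fin 4))]
  constructor
  · exact Group.isSolvable_of_comm (fun a b => mul_comm_of_exponent_two hK.exponent_two a b)
  · have h1 : commutator (alternatingGroup (Fin 4)) ≤ alternatingGroup.kleinFour (Fin 4) :=
      (alternatingGroup.kleinFour_eq_commutator h4).ge
    have h2 := Subgroup.Normal.quotient_commutative_iff_commutator_le.2 h1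
    exact Group.isSolvable_of_comm (fun a b => h2.is_comm.comm a b)

private theorem tsSolv_perm : Group.IsSolvable (Equiv.Perm (Fin 4)) := by
  have := tsSolv_alt
  apply Group.isSolvable_of_ker_le_range (alternatingGroup (Fin 4)).subtype
    (Equiv.Perm.sign : Equiv.Perm (Fin 4) →* ℤˣ)
  intro g hg
  exact ⟨⟨g, hg⟩, rfl⟩

theorem ts_solvable {F : Type*} [Field F] [CharZero F] (p q r : F) :
    Group.IsSolvable (quart p q r).Gal := by
  classical
  set P : F[X] := quart p q r with hP
  have hdeg : P.natDegree ≤ 4 := by
    rw [hP]
    unfold quart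
    compute_degree
  let E := P.SplittingField
  have : Fact ((P.map (algebraMap F E)).Splits) := ⟨SplittingField.splits P⟩
  have hcard : Fintype.card (P.rootSet E) ≤ Fintype.card (Fin 4) := by
    rw [Fintype.card_fin]
    have h1 : Fintype.card (P.rootSet E) = (P.aroots E).toFinset.card := by
      rw [← Set.toFinset_card]
      apply congrArg Finset.card
      ext x
      rw [Set.mem_toFinset, mem_rootSet', Multiset.mem_toFinset, mem_aroots']
    rw [h1]
    calc (P.aroots E).toFinset.card ≤ Multiset.card (P.aroots E) := Multiset.toFinset_card_le _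
      _ ≤ (P.map (algebraMap F E)).natDegree := card_roots' _
      _ ≤ P.natDegree := natDegree_map_le
      _ ≤ 4 := hdeg
  obtain ⟨ι⟩ := Function.Embedding.nonempty_of_card_le hcard
  have := tsSolv_perm
  have hinj : Function.Injective ((Equiv.Perm.viaEmbeddingHom ι).comp (Gal.galActionHom P E)) := by
    rw [MonoidHom.coe_comp]
    exact (Equiv.Perm.viaEmbeddingHom_injective ι).comp (Gal.galActionHom_injective P E)
  exact Group.isSolvable_of_isSolvable_injective hinj

end Pool.Agent.Lib.MP_1a91b9_nt
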