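import Pool.Agent.Lib.MP_1a91b9_nt.TSRanks
import Pool.Agent.Lib.MP_1a91b9_nt.TSParams
import Pool.Agent.Lib.MP_1a91b9_nt.TSSolv
import Pool.Agent.Lib.MP_1a91b9_nt.TSEmbed

/-!
# Totally split quartic extensions with rank growth
-/

set_option autoImplicit false

namespace Pool.Agent.Lib.MP_1a91b9_nt

open IsDedekindDomain NumberField Polynomial IntermediateField

universe u

theorem finrank_stabilizer {K M : Type u} [Field K] [CharZero K] [Field M] [Algebra K M]
    [FiniteDimensional K M] [IsGalois K M] (f : K[X]) (hf : f.Monic) (hfi : Irreducible f) (a : M)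
    (ha : aeval a f = 0) :
    Module.finrank K (fixedField (MulAction.stabilizer Gal(M/K) a)) = f.natDegree := by
  have hmin : f = minpoly K a := minpoly.eq_of_irreducible_of_monic hfi ha hf
  rw [fixedField_stabilizer, IntermediateField.adjoin.finrank (IsIntegral.of_finite K a), hmin]

/-- The three subgroups. -/
theorem ts_step_of_params {K M : Type u} [Field K] [NumberField K] [Field M] [NumberField M]
    [Algebra K M] [IsGalois K M] (V : WeierstrassCurve K)
    [V.IsElliptic] (h1 : V.a₁ = 0) (h2 : V.a₂ = 0) (h3 : V.a₃ = 0)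
    (x c h j : K) (hE : x ^ 3 + V.a₄ * x + V.a₆ = h ^ 2 + j ^ 2)
    (ha : tsa V.a₄ V.a₆ x c ≠ 0) (hc0 : c ≠ 0) (hh0 : h ≠ 0) (hj0 : j ≠ 0)
    (hS : tsa V.a₄ V.a₆ x c + tsb V.a₄ V.a₆ x c + 2 * h ^ 2 ≠ 0)
    (hQ : ∀ y : K, (tsQuart V.a₄ V.a₆ x c h j).eval y ≠ 0)
    (hG : ∀ z : K, (tsResol V.a₄ V.a₆ x c h j).eval z ≠ 0)
    (hspl : ((tsQuart V.a₄ V.a₆ x c h j).map (algebraMap K M)).Splits)
    (hV : ∃ V' : Valuation M (WithZero (Multiplicative ℤ)),
      V' 2 < 1 ∧ 1 < V' (algebraMap K M x) ∧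
      V' (algebraMap K M V.a₄) < V' (algebraMap K M x) ∧
      V' (algebraMap K M V.a₆) < V' (algebraMap K M x) ∧
      V' (algebraMap K M V.a₄) < V' 8 * V' (algebraMap K M x) ^ 2 ∧
      V' (algebraMap K M V.a₆) < V' 8 * V' (algebraMap K M x) ^ 3 ∧
      V' (3 * algebraMap K M c - 4 * algebraMap K M x) < V' 8 * V' (algebraMap K M x) ∧
      V' (algebraMap K M h) ^ 2 < V' 16 * V' (algebraMap K M x) ^ 3) :
    ∃ (H₃ H₄ H₆ : Subgroup Gal(M/K)),
      (∀ g, fixNum H₃ g + fixNum H₄ g = fixNum H₆ g + 1) ∧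
      ∀ H, (H = H₃ ∨ H = H₄ ∨ H = H₆) →
        mwRank V + 1 ≤ mwRank (V.baseChange (fixedField H)) ∧
        Module.finrank K (fixedField H) ∣ 12 := by
  classical
  obtain ⟨V', v2, vx, vA, vB, vA8, vB8, vc, vh⟩ := hV
  obtain ⟨iQ, iG, iS⟩ := irred_quart_resol _ _ _ hQ hG
  obtain ⟨y, z, θ, hy, hz, hθ, hrel, ry, rz⟩ := ts_ranks V h1 h2 h3 x c h j hE ha hc0 hh0 hj0 hS
    iQ iG hspl V' v2 vx vA vB vA8 vB8 vc vh
  have hθ' : aeval θ ((tsResol V.a₄ V.a₆ x c h j).comp (X ^ 2)) = 0 := by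
    rw [aeval_comp, map_pow, aeval_X, hθ, hz]
  have mS : ((tsResol V.a₄ V.a₆ x c h j).comp (X ^ 2)).Monic :=
    (resol_monic _ _ _).1.comp (monic_X_pow 2) (by simp)
  have dS : ((tsResol V.a₄ V.a₆ x c h j).comp (X ^ 2)).natDegree = 6 := by
    rw [tsResol, natDegree_comp, (resol_monic _ _ _).2, natDegree_X_pow]
  have d4 : Module.finrank K (fixedField (MulAction.stabilizer Gal(M/K) y)) = 4 := by
    rw [finrank_stabilizer (M := M) _ (quart_monic _ _ _).1 iQ y hy, (quart_monic _ _ _).2]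
  have d3 : Module.finrank K (fixedField (MulAction.stabilizer Gal(M/K) z)) = 3 := by
    rw [finrank_stabilizer (M := M) _ (resol_monic _ _ _).1 iG z hz, (resol_monic _ _ _).2]
  have d6 : Module.finrank K (fixedField (MulAction.stabilizer Gal(M/K) θ)) = 6 := by
    rw [finrank_stabilizer (M := M) _ mS iS θ hθ', dS]
  refine ⟨MulAction.stabilizer Gal(M/K) z, MulAction.stabilizer Gal(M/K) y,
    MulAction.stabilizer Gal(M/K) θ, ?_, ?_⟩
  · intro g
    rw [fixNum_stabilizer _ iQ y hy g, fixNum_stabilizer _ iG z hz g,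
      fixNum_stabilizer _ iS θ hθ' g]
    exact hrel g
  · rintro H (rfl | rfl | rfl)
    · exact ⟨rz, by rw [d3]; norm_num⟩
    · exact ⟨ry, by rw [d4]; norm_num⟩
    · refine ⟨rz.trans ?_, by rw [d6]; norm_num⟩
      rw [rank_fixedField, rank_fixedField]
      refine Submodule.rank_mono ?_
      intro P hP σ hσ
      refine hP σ ?_
      rw [MulAction.mem_stabilizer_iff] at hσ ⊢
      have h5 : σ (θ ^ 2) = θ ^ 2 := by
        rw [map_pow]
        congr 1
      rw [← hθ]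
      exact h5

/-- The data over a field `K` embedded in the splitting field of `g`. -/
theorem ts_step_over {F K M : Type u} [Field F] [NumberField F] [Field K] [NumberField K]
    [Field M] [NumberField M] [Algebra F K] [Algebra K M] [Algebra F M] [IsScalarTower F K M]
    [IsGalois K M] (V : WeierstrassCurve F) [V.IsElliptic] (h1 : V.a₁ = 0) (h2 : V.a₂ = 0)
    (h3 : V.a₃ = 0) {N : Type u} [Field N] [Algebra F N] (i : K →ₐ[F] N)
    (x c h j : F) (hE : x ^ 3 + V.a₄ * x + V.a₆ = h ^ 2 + j ^ 2)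
    (ha : tsa V.a₄ V.a₆ x c ≠ 0) (hc0 : c ≠ 0) (hh0 : h ≠ 0) (hj0 : j ≠ 0)
    (hS : tsa V.a₄ V.a₆ x c + tsb V.a₄ V.a₆ x c + 2 * h ^ 2 ≠ 0)
    (hQ : ∀ y : N, aeval y (tsQuart V.a₄ V.a₆ x c h j) ≠ 0)
    (hG : ∀ z : N, aeval z (tsResol V.a₄ V.a₆ x c h j) ≠ 0)
    (hspl : (((tsQuart V.a₄ V.a₆ x c h j).map (algebraMap F K)).map (algebraMap K M)).Splits)
    (hV : ∃ V' : Valuation M (WithZero (Multiplicative ℤ)),
      V' 2 < 1 ∧ 1 < V' (algebraMap F M x) ∧
      V' (algebraMap F M V.a₄) < V' (algebraMap F M x) ∧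
      V' (algebraMap F M V.a₆) < V' (algebraMap F M x) ∧
      V' (algebraMap F M V.a₄) < V' 8 * V' (algebraMap F M x) ^ 2 ∧
      V' (algebraMap F M V.a₆) < V' 8 * V' (algebraMap F M x) ^ 3 ∧
      V' (3 * algebraMap F M c - 4 * algebraMap F M x) < V' 8 * V' (algebraMap F M x) ∧
      V' (algebraMap F M h) ^ 2 < V' 16 * V' (algebraMap F M x) ^ 3) :
    ∃ (H₃ H₄ H₆ : Subgroup Gal(M/K)),
      (∀ g, fixNum H₃ g + fixNum H₄ g = fixNum H₆ g + 1) ∧
      ∀ H, (H = H₃ ∨ H = H₄ ∨ H = H₆) →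
        mwRank (V.baseChange K) + 1 ≤ mwRank ((V.baseChange K).baseChange (fixedField H)) ∧
        Module.finrank K (fixedField H) ∣ 12 := by
  set φ := algebraMap F K with hφ
  have hell : (V.baseChange K).IsElliptic := inferInstanceAs (V.map (algebraMap F K)).IsElliptic
  have hφM : ∀ a : F, algebraMap K M (φ a) = algebraMap F M a := fun a =>
    (IsScalarTower.algebraMap_apply F K M a).symm
  have e4 : (V.baseChange K).a₄ = φ V.a₄ := rfl
  have e6 : (V.baseChange K).a₆ = φ V.a₆ := rfl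
  refine ts_step_of_params (M := M) (V.baseChange K) ?_ ?_ ?_ (φ x) (φ c) (φ h) (φ j) ?_ ?_ ?_ ?_ ?_
    ?_ ?_ ?_ ?_ ?_
  · change φ V.a₁ = 0
    rw [h1, map_zero]
  · change φ V.a₂ = 0
    rw [h2, map_zero]
  · change φ V.a₃ = 0
    rw [h3, map_zero]
  · rw [e4, e6, ← map_pow, ← map_mul, ← map_add, ← map_add, hE, map_add, map_pow, map_pow]
  · rw [e4, e6, ← map_tsa]
    exact (_root_.map_ne_zero φ).mpr ha
  · exact (_root_.map_ne_zero φ).mpr hc0
  · exact (_root_.map_ne_zero φ).mpr hh0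
  · exact (_root_.map_ne_zero φ).mpr hj0
  · have e : φ (tsa V.a₄ V.a₆ x c + tsb V.a₄ V.a₆ x c + 2 * h ^ 2) =
        tsa (φ V.a₄) (φ V.a₆) (φ x) (φ c) + tsb (φ V.a₄) (φ V.a₆) (φ x) (φ c) + 2 * φ h ^ 2 := by
      rw [map_add, map_add, map_mul, map_pow, map_tsa, map_tsb, map_ofNat φ 2]
    rw [e4, e6, ← e]
    exact (_root_.map_ne_zero φ).mpr hS
  · intro y hy
    rw [e4, e6, ← map_tsQuart, eval_map, ← aeval_def] at hy
    refine hQ (i y) ?_
    rw [Polynomial.aeval_algHom_apply, hy, map_zero]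
  · intro z hz
    rw [e4, e6, ← map_tsResol, eval_map, ← aeval_def] at hz
    refine hG (i z) ?_
    rw [Polynomial.aeval_algHom_apply, hz, map_zero]
  · rw [e4, e6, ← map_tsQuart]
    exact hspl
  · rw [e4, e6]
    simp only [hφM]
    exact hV

theorem ts_step {F : Type u} [Field F] [NumberField F] (V : WeierstrassCurve F) [V.IsElliptic]
    (h1 : V.a₁ = 0) (h2 : V.a₂ = 0) (h3 : V.a₃ = 0) (S : Finset (HeightOneSpectrum (𝓞 F)))
    (g : F[X]) :
    ∃ q : F[X], q ≠ 0 ∧ Group.IsSolvable q.Gal ∧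
      (∀ v ∈ S, (q.map (algebraMap F (v.adicCompletion F))).Splits) ∧
      (∀ w : InfinitePlace F, (q.map (algebraMap F w.Completion)).Splits) ∧
      ∀ (K : Type u) [Field K] [NumberField K] [Algebra F K] (_ : K →ₐ[F] g.SplittingField),
        ∃ (M : Type u) (_ : Field M) (_ : NumberField M) (_ : Algebra K M) (_ : IsGalois K M)
          (_ : Algebra F M) (_ : IsScalarTower F K M) (H₃ H₄ H₆ : Subgroup Gal(M/K)),
          IsSplittingField K M (q.map (algebraMap F K)) ∧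
          (∀ g, fixNum H₃ g + fixNum H₄ g = fixNum H₆ g + 1) ∧
          ∀ H, (H = H₃ ∨ H = H₄ ∨ H = H₆) →
            mwRank (V.baseChange K) + 1 ≤ mwRank ((V.baseChange K).baseChange (fixedField H)) ∧
            Module.finrank K (fixedField H) ∣ 12 := by
  obtain ⟨x, c, h, j, hE, ha, hc0, hh0, hj0, hS, hQ, hG, hsf, hsi, hV⟩ :=
    ts_params V.a₄ V.a₆ S g
  refine ⟨tsQuart V.a₄ V.a₆ x c h j, (quart_monic _ _ _).1.ne_zero, ts_solvable _ _ _, hsf, hsi, ?_⟩
  intro K _ _ _ i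
  let f := (tsQuart V.a₄ V.a₆ x c h j).map (algebraMap F K)
  let M := f.SplittingField
  have hcM : CharZero M := charZero_of_injective_algebraMap (algebraMap K M).injective
  have hnf : NumberField M := NumberField.of_module_finite K M
  have hnorm : Normal K M := Normal.of_isSplittingField f
  have hgal : IsGalois K M := ⟨⟩
  let aFM : Algebra F M := ((algebraMap K M).comp (algebraMap F K)).toAlgebra
  have htower : @IsScalarTower F K M _ _ aFM.toSMul := IsScalarTower.of_algebraMap_eq' rfl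
  obtain ⟨H₃, H₄, H₆, hrel, hH⟩ := @ts_step_over F K M _ _ _ _ _ _ _ _ aFM htower _ V _ h1 h2 h3
    g.SplittingField _ _ i x c h j hE ha hc0 hh0 hj0 hS hQ hG (SplittingField.splits f) (hV M)
  exact ⟨M, inferInstance, hnf, inferInstance, hgal, aFM, htower, H₃, H₄, H₆,
    IsSplittingField.splittingField f, hrel, hH⟩

end Pool.Agent.Lib.MP_1a91b9_nt
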