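import Pool.Agent.Lib.MP_1a91b9_nt.TSDefs
import Pool.Agent.Lib.MP_1a91b9_nt.TSAdd
import Pool.Agent.Lib.MP_1a91b9_nt.TSColl

/-!
# The sum of the six points is zero
-/

set_option autoImplicit false

namespace Pool.Agent.Lib.MP_1a91b9_nt

open Polynomial

private theorem TSSum_collinear_sum {M : Type*} [Field M] [DecidableEq M]
    (V : WeierstrassCurve.Affine M)
    (h1 : V.a₁ = 0) (h2 : V.a₂ = 0) (h3 : V.a₃ = 0) {x₁ x₂ x₃ y₁ y₂ y₃ m n : M}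
    (e1 : y₁ = m * x₁ + n) (e2 : y₂ = m * x₂ + n) (e3 : y₃ = m * x₃ + n) (hx : x₁ ≠ x₂)
    (hm : m ^ 2 = x₁ + x₂ + x₃) (n1 : V.Nonsingular x₁ y₁) (n2 : V.Nonsingular x₂ y₂)
    (n3 : V.Nonsingular x₃ y₃) :
    (WeierstrassCurve.Affine.Point.some _ _ n1 : V.Point) +
      WeierstrassCurve.Affine.Point.some _ _ n2 + WeierstrassCurve.Affine.Point.some _ _ n3 = 0 := by
  rw [add_eq_zero_iff_eq_neg, WeierstrassCurve.Affine.Point.neg_some,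
    WeierstrassCurve.Affine.Point.add_of_X_ne hx, WeierstrassCurve.Affine.Point.some.injEq]
  have hs : V.slope x₁ x₂ y₁ y₂ = m := by
    rw [WeierstrassCurve.Affine.slope_of_X_ne hx, e1, e2, div_eq_iff (sub_ne_zero.2 hx)]
    ring
  have hX : V.addX x₁ x₂ m = x₃ := by
    rw [WeierstrassCurve.Affine.addX, h1, h2]
    linear_combination hm
  rw [hs, hX]
  refine ⟨rfl, ?_⟩
  rw [WeierstrassCurve.Affine.addY, WeierstrassCurve.Affine.negAddY, hX]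
  congr 1
  rw [e1, e3]
  ring

/-- A polynomial of degree at most two with three distinct roots is zero. -/
private theorem TSSum_quad {M : Type*} [Field M] {p q r θ₀ θ₁ θ₂ : M} (h01 : θ₀ ≠ θ₁)
    (h02 : θ₀ ≠ θ₂) (h12 : θ₁ ≠ θ₂) (e0 : p * θ₀ ^ 2 + q * θ₀ + r = 0)
    (e1 : p * θ₁ ^ 2 + q * θ₁ + r = 0) (e2 : p * θ₂ ^ 2 + q * θ₂ + r = 0) :
    p = 0 ∧ q = 0 ∧ r = 0 := by
  have f1 : p * (θ₀ + θ₁) + q = 0 := by
    have : (θ₀ - θ₁) * (p * (θ₀ + θ₁) + q) = 0 := by linear_combination e0 - e1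
    exact (mul_eq_zero.1 this).resolve_left (sub_ne_zero.2 h01)
  have f2 : p * (θ₀ + θ₂) + q = 0 := by
    have : (θ₀ - θ₂) * (p * (θ₀ + θ₂) + q) = 0 := by linear_combination e0 - e2
    exact (mul_eq_zero.1 this).resolve_left (sub_ne_zero.2 h02)
  have hp : p = 0 := by
    have : (θ₁ - θ₂) * p = 0 := by linear_combination f1 - f2
    exact (mul_eq_zero.1 this).resolve_left (sub_ne_zero.2 h12)
  subst hp
  have hq : q = 0 := by linear_combination f1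
  subst hq
  exact ⟨rfl, rfl, by linear_combination e0⟩

/-- Three distinct points of a line on a cubic curve. -/
private theorem TSSum_slope {M : Type*} [Field M] {A B α β x₀ x₁ x₂ : M} (h01 : x₀ ≠ x₁)
    (h02 : x₀ ≠ x₂) (h12 : x₁ ≠ x₂) (e0 : (α * x₀ + β) ^ 2 = x₀ ^ 3 + A * x₀ + B)
    (e1 : (α * x₁ + β) ^ 2 = x₁ ^ 3 + A * x₁ + B) (e2 : (α * x₂ + β) ^ 2 = x₂ ^ 3 + A * x₂ + B) :
    α ^ 2 = x₀ + x₁ + x₂ := by
  have f1 : x₀ ^ 2 + x₀ * x₁ + x₁ ^ 2 - α ^ 2 * (x₀ + x₁) + (A - 2 * α * β) = 0 := by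
    have : (x₀ - x₁) * (x₀ ^ 2 + x₀ * x₁ + x₁ ^ 2 - α ^ 2 * (x₀ + x₁) + (A - 2 * α * β)) = 0 := by
      linear_combination e1 - e0
    exact (mul_eq_zero.1 this).resolve_left (sub_ne_zero.2 h01)
  have f2 : x₀ ^ 2 + x₀ * x₂ + x₂ ^ 2 - α ^ 2 * (x₀ + x₂) + (A - 2 * α * β) = 0 := by
    have : (x₀ - x₂) * (x₀ ^ 2 + x₀ * x₂ + x₂ ^ 2 - α ^ 2 * (x₀ + x₂) + (A - 2 * α * β)) = 0 := by
      linear_combination e2 - e0
    exact (mul_eq_zero.1 this).resolve_left (sub_ne_zero.2 h02)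
  have f3 : (x₁ - x₂) * (x₀ + x₁ + x₂ - α ^ 2) = 0 := by linear_combination f1 - f2
  have f4 := (mul_eq_zero.1 f3).resolve_left (sub_ne_zero.2 h12)
  linear_combination -f4

theorem ts_sum {M : Type*} [Field M] [CharZero M] [DecidableEq M] (V : WeierstrassCurve.Affine M)
    (hell : WeierstrassCurve.IsElliptic V) (h1 : V.a₁ = 0) (h2 : V.a₂ = 0) (h3 : V.a₃ = 0)
    (x c h : M) (ha : tsa V.a₄ V.a₆ x c ≠ 0) (hc : c ≠ 0) (hh : h ≠ 0)
    (hS : tsa V.a₄ V.a₆ x c + tsb V.a₄ V.a₆ x c + 2 * h ^ 2 ≠ 0)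
    (hf : x ^ 3 + V.a₄ * x + V.a₆ - h ^ 2 ≠ 0) (t : Fin 3 → M)
    (hq : ∀ θ, tsq V.a₄ V.a₆ x c h θ = tsa V.a₄ V.a₆ x c ^ 2 * ∏ i, (θ - t i ^ 2))
    (hinj : ∀ i k, i ≠ k → t i ^ 2 ≠ t k ^ 2)
    (heq : ∀ i k l, i ≠ k → tsXR V.a₄ V.a₆ x c h (t i ^ 2) = tsXR V.a₄ V.a₆ x c h (t k ^ 2) →
      tsXR V.a₄ V.a₆ x c h (t l ^ 2) = tsXR V.a₄ V.a₆ x c h (t i ^ 2)) :
    ∑ i, (tsPt V x c h (t i) + tsPt V x c h (-t i)) = 0 := by
  have hz : ∀ i θ, θ = t i ^ 2 → tsq V.a₄ V.a₆ x c h θ = 0 := by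
    intro i θ hθ
    rw [hq θ, Finset.prod_eq_zero (Finset.mem_univ i) (by rw [hθ]; ring), mul_zero]
  have ht0 : ∀ i, t i ≠ 0 := by
    intro i hi
    have e := hz i 0 (by rw [hi]; ring)
    rw [tsq_zero] at e
    have h4 : (-4 : M) ≠ 0 := by norm_num
    exact mul_ne_zero (mul_ne_zero h4 (pow_ne_zero 2 hh)) hf e
  have hD : ∀ i, 1 - t i ^ 2 ≠ 0 := by
    intro i hi
    have e := hz i 1 (by linear_combination hi)
    rw [tsq_one] at e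
    exact pow_ne_zero 2 hS e
  have hadd := fun i => ts_add V hell h1 h2 h3 x c h (t i) hc hh (ht0 i) (hD i) (hz i _ rfl)
  choose n hn using hadd
  obtain ⟨α, β, hαβ⟩ := ts_collinear V.a₄ V.a₆ x c h ha hc hh
  have hY := fun i => hαβ (t i ^ 2) (hD i) (hz i _ rfl)
  rw [Finset.sum_congr rfl (fun i _ => hn i), Fin.sum_univ_three]
  by_cases hne : ∀ i k, i ≠ k →
      tsXR V.a₄ V.a₆ x c h (t i ^ 2) ≠ tsXR V.a₄ V.a₆ x c h (t k ^ 2)
  · have hcurve : ∀ i, (α * tsXR V.a₄ V.a₆ x c h (t i ^ 2) + β) ^ 2 =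
        tsXR V.a₄ V.a₆ x c h (t i ^ 2) ^ 3 + V.a₄ * tsXR V.a₄ V.a₆ x c h (t i ^ 2) + V.a₆ := by
      intro i
      have e := (WeierstrassCurve.Affine.equation_iff _ _).1 (n i).1
      rw [h1, h2, h3, hY i] at e
      linear_combination e
    have hα := TSSum_slope (hne 0 1 (by decide)) (hne 0 2 (by decide)) (hne 1 2 (by decide))
      (hcurve 0) (hcurve 1) (hcurve 2)
    refine TSSum_collinear_sum V h1 h2 h3 (m := -α) (n := -β) ?_ ?_ ?_ (hne 0 1 (by decide)) ?_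
      (n 0) (n 1) (n 2)
    · rw [hY 0]; ring
    · rw [hY 1]; ring
    · rw [hY 2]; ring
    · linear_combination hα
  · exfalso
    push Not at hne
    obtain ⟨i, k, hik, he⟩ := hne
    have hX := fun l => heq i k l hik he
    set X0 := tsXR V.a₄ V.a₆ x c h (t i ^ 2) with hX0
    have key : ∀ l, tsa V.a₄ V.a₆ x c * (X0 - x + c) * (t l ^ 2) ^ 2 +
        ((tsa V.a₄ V.a₆ x c + tsb V.a₄ V.a₆ x c) * (X0 - x + c) - c * tsa V.a₄ V.a₆ x c +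
          2 * c * h * (α * X0 + β)) * t l ^ 2 +
        ((4 * h ^ 2 + tsb V.a₄ V.a₆ x c) * (X0 - x + c) - c * (2 * h ^ 2 + tsb V.a₄ V.a₆ x c) -
          2 * c * h * (α * X0 + β)) = 0 := by
      intro l
      have e := hY l
      rw [hX l, tsYR, hX l, tsL] at e
      have hDl := hD l
      field_simp at e
      linear_combination e
    obtain ⟨k1, k2, k3⟩ := TSSum_quad (hinj 0 1 (by decide)) (hinj 0 2 (by decide))
      (hinj 1 2 (by decide)) (key 0) (key 1) (key 2)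
    have hZ : X0 - x + c = 0 := (mul_eq_zero.1 k1).resolve_left ha
    rw [hZ] at k2 k3
    have : c * (tsa V.a₄ V.a₆ x c + tsb V.a₄ V.a₆ x c + 2 * h ^ 2) = 0 := by
      linear_combination -k2 - k3
    exact mul_ne_zero hc hS this

end Pool.Agent.Lib.MP_1a91b9_nt
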