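import Pool.Agent.Lib.MP_1a91b9_nt.VarChange

/-!
# A change of variables is an isomorphism of the groups of points
-/

set_option autoImplicit false

namespace Pool.Agent.Lib.MP_1a91b9_nt

open WeierstrassCurve

section VcPoint

variable {k : Type*} [Field k]

/-- the first coordinate of the substitution -/
def vcX (C : VariableChange k) (x : k) : k := (C.u : k) ^ 2 * x + C.r

/-- the second coordinate of the substitution -/
def vcY (C : VariableChange k) (x y : k) : k :=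
  (C.u : k) ^ 3 * y + (C.u : k) ^ 2 * C.s * x + C.t

lemma vcX_inj (C : VariableChange k) {x₁ x₂ : k} : vcX C x₁ = vcX C x₂ ↔ x₁ = x₂ := by
  have hu : (C.u : k) ≠ 0 := C.u.ne_zero
  constructor
  · intro h
    unfold vcX at h
    exact mul_left_cancel₀ (pow_ne_zero 2 hu) (add_right_cancel h)
  · rintro rfl; rfl

lemma vcY_inj (C : VariableChange k) {x y₁ y₂ : k} : vcY C x y₁ = vcY C x y₂ ↔ y₁ = y₂ := by
  have hu : (C.u : k) ≠ 0 := C.u.ne_zero
  constructor
  · intro h
    unfold vcY at h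
    exact mul_left_cancel₀ (pow_ne_zero 3 hu) (add_right_cancel (add_right_cancel h))
  · rintro rfl; rfl

lemma vc_negY (W : WeierstrassCurve k) (C : VariableChange k) (x y : k) :
    W.toAffine.negY (vcX C x) (vcY C x y) = vcY C x ((C • W).toAffine.negY x y) := by
  have hu : (C.u : k) ≠ 0 := C.u.ne_zero
  have hui : ((C.u⁻¹ : kˣ) : k) = (C.u : k)⁻¹ := by simp
  simp only [Affine.negY, vcX, vcY]
  rw [variableChange_a₁, variableChange_a₃, hui]
  field_simp
  ring

lemma vc_addX (W : WeierstrassCurve k) (C : VariableChange k) (x₁ x₂ l : k) :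
    W.toAffine.addX (vcX C x₁) (vcX C x₂) ((C.u : k) * l + C.s)
      = vcX C ((C • W).toAffine.addX x₁ x₂ l) := by
  have hu : (C.u : k) ≠ 0 := C.u.ne_zero
  have hui : ((C.u⁻¹ : kˣ) : k) = (C.u : k)⁻¹ := by simp
  simp only [Affine.addX, vcX]
  rw [variableChange_a₁, variableChange_a₂, hui]
  field_simp
  ring

lemma vc_negAddY (W : WeierstrassCurve k) (C : VariableChange k) (x₁ x₂ y₁ l : k) :
    W.toAffine.negAddY (vcX C x₁) (vcX C x₂) (vcY C x₁ y₁) ((C.u : k) * l + C.s)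
      = vcY C ((C • W).toAffine.addX x₁ x₂ l) ((C • W).toAffine.negAddY x₁ x₂ y₁ l) := by
  simp only [Affine.negAddY]
  rw [vc_addX]
  simp only [vcX, vcY]
  ring

lemma vc_addY (W : WeierstrassCurve k) (C : VariableChange k) (x₁ x₂ y₁ l : k) :
    W.toAffine.addY (vcX C x₁) (vcX C x₂) (vcY C x₁ y₁) ((C.u : k) * l + C.s)
      = vcY C ((C • W).toAffine.addX x₁ x₂ l) ((C • W).toAffine.addY x₁ x₂ y₁ l) := by
  rw [Affine.addY, vc_negAddY, vc_addX, vc_negY, Affine.addY]

lemma vc_slope [DecidableEq k] (W : WeierstrassCurve k) (C : VariableChange k) {x₁ x₂ y₁ y₂ : k}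
    (h₁ : (C • W).toAffine.Equation x₁ y₁) (h₂ : (C • W).toAffine.Equation x₂ y₂)
    (hxy : ¬(x₁ = x₂ ∧ y₁ = (C • W).toAffine.negY x₂ y₂)) :
    W.toAffine.slope (vcX C x₁) (vcX C x₂) (vcY C x₁ y₁) (vcY C x₂ y₂)
      = (C.u : k) * (C • W).toAffine.slope x₁ x₂ y₁ y₂ + C.s := by
  have hu : (C.u : k) ≠ 0 := C.u.ne_zero
  have hui : ((C.u⁻¹ : kˣ) : k) = (C.u : k)⁻¹ := by simp
  by_cases hx : x₁ = x₂
  · have hy : y₁ ≠ (C • W).toAffine.negY x₂ y₂ := fun h => hxy ⟨hx, h⟩
    have hy12 : y₁ = y₂ := Affine.Y_eq_of_Y_ne h₁ h₂ hx hy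
    subst hx
    subst hy12
    have hY : vcY C x₁ y₁ ≠ W.toAffine.negY (vcX C x₁) (vcY C x₁ y₁) := by
      rw [vc_negY]
      intro h
      exact hy ((vcY_inj C).1 h)
    rw [Affine.slope_of_Y_ne rfl hy, Affine.slope_of_Y_ne rfl hY]
    have d1 : y₁ - (C • W).toAffine.negY x₁ y₁ ≠ 0 := sub_ne_zero.2 hy
    have d2 : vcY C x₁ y₁ - W.toAffine.negY (vcX C x₁) (vcY C x₁ y₁) ≠ 0 := sub_ne_zero.2 hY
    have e2 : vcY C x₁ y₁ - W.toAffine.negY (vcX C x₁) (vcY C x₁ y₁)
        = (C.u : k) ^ 3 * (y₁ - (C • W).toAffine.negY x₁ y₁) := by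
      rw [vc_negY]
      simp only [vcY]
      ring
    rw [e2]
    rw [div_eq_iff (mul_ne_zero (pow_ne_zero 3 hu) d1)]
    have e3 : ((C.u : k) * ((3 * x₁ ^ 2 + 2 * (C • W).a₂ * x₁ + (C • W).a₄ - (C • W).a₁ * y₁)
        / (y₁ - (C • W).toAffine.negY x₁ y₁)) + C.s)
        * ((C.u : k) ^ 3 * (y₁ - (C • W).toAffine.negY x₁ y₁))
        = (C.u : k) ^ 4 * (3 * x₁ ^ 2 + 2 * (C • W).a₂ * x₁ + (C • W).a₄ - (C • W).a₁ * y₁)
          + C.s * (C.u : k) ^ 3 * (y₁ - (C • W).toAffine.negY x₁ y₁) := by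
      field_simp
    refine Eq.trans ?_ e3.symm
    simp only [Affine.negY, vcX, vcY]
    rw [variableChange_a₁, variableChange_a₂, variableChange_a₃, variableChange_a₄, hui]
    field_simp
    ring
  · have hX : vcX C x₁ ≠ vcX C x₂ := fun h => hx ((vcX_inj C).1 h)
    rw [Affine.slope_of_X_ne hx, Affine.slope_of_X_ne hX]
    have d1 : x₁ - x₂ ≠ 0 := sub_ne_zero.2 hx
    have e1 : vcX C x₁ - vcX C x₂ = (C.u : k) ^ 2 * (x₁ - x₂) := by
      simp only [vcX]; ring
    rw [e1, div_eq_iff (mul_ne_zero (pow_ne_zero 2 hu) d1)]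
    simp only [vcY]
    field_simp
    ring

/-- the substitution on points -/
def vcFun (W : WeierstrassCurve k) (C : VariableChange k) :
    (C • W).toAffine.Point → W.toAffine.Point
  | .zero => .zero
  | .some x y h => .some (vcX C x) (vcY C x y) ((nonsingular_variableChange W C x y).1 h)

lemma vcFun_bijective (W : WeierstrassCurve k) (C : VariableChange k) :
    Function.Bijective (vcFun W C) := by
  constructor
  · rintro (_ | ⟨x₁, y₁, h₁⟩) (_ | ⟨x₂, y₂, h₂⟩) h
    · rfl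
    · exact absurd h (by simp [vcFun])
    · exact absurd h (by simp [vcFun])
    · simp only [vcFun, Affine.Point.some.injEq] at h
      obtain ⟨hx, hy⟩ := h
      have hx' := (vcX_inj C).1 hx
      subst hx'
      have hy' := (vcY_inj C).1 hy
      subst hy'
      rfl
  · rintro (_ | ⟨X, Y, h⟩)
    · exact ⟨.zero, rfl⟩
    · have hr := (substEquiv C).right_inv (X, Y)
      set p := (substEquiv C).symm (X, Y) with hp
      have h1 : vcX C p.1 = X := congrArg Prod.fst hr
      have h2 : vcY C p.1 p.2 = Y := congrArg Prod.snd hr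
      have hn : (C • W).toAffine.Nonsingular p.1 p.2 := by
        rw [nonsingular_variableChange]
        change W.toAffine.Nonsingular (vcX C p.1) (vcY C p.1 p.2)
        rw [h1, h2]
        exact h
      refine ⟨.some p.1 p.2 hn, ?_⟩
      simp only [vcFun, Affine.Point.some.injEq]
      exact ⟨h1, h2⟩

lemma vcFun_add [DecidableEq k] (W : WeierstrassCurve k) (C : VariableChange k)
    (P Q : (C • W).toAffine.Point) : vcFun W C (P + Q) = vcFun W C P + vcFun W C Q := by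
  rcases P with (_ | ⟨x₁, y₁, h₁⟩)
  · change vcFun W C (0 + Q) = 0 + vcFun W C Q
    rw [zero_add, zero_add]
  rcases Q with (_ | ⟨x₂, y₂, h₂⟩)
  · change vcFun W C (.some x₁ y₁ h₁ + 0) = vcFun W C (.some x₁ y₁ h₁) + 0
    rw [add_zero, add_zero]
  by_cases hxy : x₁ = x₂ ∧ y₁ = (C • W).toAffine.negY x₂ y₂
  · rw [Affine.Point.add_of_Y_eq hxy.1 hxy.2]
    simp only [vcFun]
    rw [Affine.Point.add_of_Y_eq (by rw [hxy.1]) (by rw [vc_negY, hxy.1, hxy.2])]
    rfl
  · have hXY : ¬(vcX C x₁ = vcX C x₂ ∧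
        vcY C x₁ y₁ = W.toAffine.negY (vcX C x₂) (vcY C x₂ y₂)) := by
      rintro ⟨hx, hy⟩
      have hx' := (vcX_inj C).1 hx
      rw [vc_negY] at hy
      subst hx'
      exact hxy ⟨rfl, (vcY_inj C).1 hy⟩
    rw [Affine.Point.add_some hxy]
    simp only [vcFun]
    rw [Affine.Point.add_some hXY]
    simp only [Affine.Point.some.injEq]
    have hs := vc_slope W C h₁.1 h₂.1 hxy
    refine ⟨?_, ?_⟩
    · rw [hs, vc_addX]
    · rw [hs, vc_addY]

end VcPoint

theorem exists_point_equiv {k : Type*} [Field k] [DecidableEq k] (W : WeierstrassCurve k)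
    (C : WeierstrassCurve.VariableChange k) :
    ∃ e : (C • W).toAffine.Point ≃+ W.toAffine.Point,
      ∀ (x y : k) (h : (C • W).toAffine.Nonsingular x y), ∃ h',
        e (WeierstrassCurve.Affine.Point.some x y h) = WeierstrassCurve.Affine.Point.some
          ((C.u : k) ^ 2 * x + C.r) ((C.u : k) ^ 3 * y + (C.u : k) ^ 2 * C.s * x + C.t) h' := by
  refine ⟨AddEquiv.ofBijective (AddMonoidHom.mk' (vcFun W C) (vcFun_add W C))
    (vcFun_bijective W C), fun x y h => ⟨(nonsingular_variableChange W C x y).1 h, rfl⟩⟩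

end Pool.Agent.Lib.MP_1a91b9_nt
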